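import Pool.Agent.Lib.H56.Gen.Data
import Pool.Agent.Lib.H56.Gen.PolyCheck
import Pool.Agent.Lib.H56.Gen.D4.Par

/-!
# Certificate data: polynomials
-/

set_option maxRecDepth 100000

namespace Pool.Agent.Lib.H56.Gen.D4

noncomputable def pd : PD := .mk [10000, -15658, 2167, 2322, 2977, -1624]
  [-15596, 20481, 7103, -42727, 26855]
  [-5644, 4264, -2662, 1804, 2237] 10000 3022 5497 8635 10000 4096 1024

theorem okpar : okP par = true := by decide +kernel

theorem okpd : pdOK par pd = true := by decide +kernel

end Pool.Agent.Lib.H56.Gen.D4
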