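import Pool.Agent.Lib.H56.Gen.D4.Par
import Pool.Agent.Lib.H56.Gen.D4.Cos

/-!
# Certificate tree V, part 0
-/

set_option maxRecDepth 100000

namespace Pool.Agent.Lib.H56.Gen.D4

open Tr

noncomputable def v0_0 : Tr := (T (F 37 (V (U (K 2) (S (T (K 2) (V (S L L) (K 2))) (T (V (S (K 2) L) (K 2)) (V (S L L) (K 2))))) (K 2))) (V (U (F 36 (S (T (K 2) (V (U (K 2) (V (S L (F 16 L)) (S L L))) (K 2))) (T (V (V (F 16 L) (K 2)) (K 2)) (V (U (K 3) (T (F 16 L) (F 23 (S (K 0) (K 0))))) (U (K 2) (S (K 2) (V (T (K 2) L) (K 2)))))))) (S (F 36 (T (V (V (F 16 L) L) (V (S (F 1 L) L) (K 2))) (V (V L (S (F 1 L) L)) (V (S (F 1 L) L) (T (F 1 L) (F 1 L)))))) (T (F 36 (V (S (F 16 L) (F 16 L)) (U (K 2) (V (S (F 16 L) (F 16 L)) (T (K 2) L))))) (V (F 36 (V (F 16 L) (S L (F 16 L)))) (V (F 36 (S (S L L) (T (F 16 L) L))) (S (S (F 4 L) (F 4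 L)) (T (F 36 (S L L)) (F 4 L)))))))) (U (K 3) (S (F 68 (T (K 2) (V (U (K 2) (T L L)) (U (K 2) (S (K 2) (F 2 L)))))) (T (K 3) (V (U (T (K 3) (V (S (K 3) (F 4 L)) (K 3))) (V (S (F 68 L) (S (F 4 L) (F 4 L))) (F 68 (T (S (K 2) L) L)))) (F 68 (U (K 2) (S (S (F 2 L) (F 2 L)) (T L (F 2 L)))))))))))
noncomputable def v0_1 : Tr := (V (U (K 4) (S (F 36 (T (V (K 1) (U (K 1) (S (K 1) (T (K 1) (V (K 1) (F 16 L)))))) (V (U (K 1) (S (K 1) (T (K 1) (V (K 1) (F 16 L))))) (U (S (T (K 1) (V (K 1) (V (K 1) (S (F 1 L) (F 1 L))))) (F 21 (T (K 1) (V (K 0) (T (K 1) (K 0)))))) (S (T (V (K 1) (S (F 1 L) (F 1 L))) (V (S (F 1 L) L) (F 1 L))) (T (V (K 1) (S (F 1 L) (F 16 L))) (V (S (F 16 L) (F 16 L)) (S (F 1 L) L)))))))) (F 33 (T (V (K 1) (U (K 1) (S (T (K 1) (T (F 8 L) (F 8 L))) (V (K 1) (T (F 8 L) (F 8 L)))))) (V (U (K 1) (S (T (K 1) (U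 (K 1) (V L (F 8 L)))) (T (K 1) (V (U (K 1) (S (F 4 L) (F 4 L))) (S (F 8 L) L))))) (U (S (F 13 (T (K 1) (F 2 (S (K 0) (K 0))))) (T (V (K 1) (F 8 L)) (U (K 4) (V (F 8 L) (F 8 L))))) (S (T (V (F 8 L) (F 8 L)) (V (F 8 L) (S (F 8 L) (F 8 L)))) (T (T (F 8 L) (F 8 L)) (V (F 8 L) (F 8 L)))))))))) (U (K 3) (S (T (F 100 (V (U (K 1) (S (K 1) (T (K 1) (V (T (K 1) L) (K 1))))) (K 1))) (V (F 36 (U (S (T (K 2) (V (V (F 1 L) (K 2)) (K 2))) (T (K 2) (V (V (S (F 1 L) L) (K 2)) (K 2)))) (S (T (V (F 1 L) (K 2)) (V (F 1 L) (S (F 1 L) (F 1 L)))) (T (V (T (F 1 L) (F 1 L)) (K 2)) (V (S (F 1 L) (F 1 L)) (T (F 1 L) (F 1 L))))))) (F 68 (U (K 2) (S (K 2) (T (K 2) (V (T (K 2) L) (K 2)))))))) v0_0)))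
noncomputable def v0_2 : Tr := (T (V (F 36 (U (K 3) (S (K 3) (T (K 3) (V (K 3) (S (K 3) L)))))) (F 68 (U (S (K 3) (T (V (K 3) (V (K 3) (F 1 L))) (V (K 3) (V (K 3) (T (F 1 L) L))))) (S (T (V (K 3) (F 1 L)) (V (K 3) (S (F 1 L) (F 1 L)))) (T (V (S (F 1 L) (F 1 L)) (F 1 L)) (V (S (F 1 L) (F 1 L)) (S (F 1 L) (F 1 L)))))))) (V (U (K 1) (S (K 1) (T (F 36 (V (U (K 3) (S (K 3) (F 16 L))) (U (K 3) (S L L)))) (V (F 36 (U (K 3) (T (S (K 3) (F 16 L)) (S L (F 16 L))))) (U (S (K 1) (V (K 1) (T (K 1) (F 4 L)))) (V (F 36 (S (S (K 3) L) L)) (T (F 36 L) (S (F 4 L) (F 36 L))))))))) (U (F 68 (S (T (K 3) (V (K 3) (V (K 3) (F 2 L)))) (T (V (K 3) (U (K 3) (V (S (K 3) L) (S (F 2 L) (K 2))))) (V (U (K 3) (S (K 3) (V (K 3) (T (K 3) L)))) (U (K 2) (S (F 2 L) (S (F 2 L) (K 2)))))))) (S (F 68 (T (V (V (K 3) (S (K 3) (F 1 L))) (V L (F 2 L)))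 (V (U (K 3) (V (S (K 3) L) (S (F 2 L) (F 2 L)))) (S (F 2 L) (F 2 L))))) (T (F 68 (V (V (S (F 1 L) (F 1 L)) (S (F 1 L) (F 1 L))) (V (S (F 1 L) (F 1 L)) L))) (V (V (T (S (F 68 L) (F 36 L)) (S (F 68 (S L L)) (F 4 L))) (F 68 (T (S L L) (S (F 2 L) L)))) (F 68 (V (T L (F 2 L)) (F 2 L)))))))))
noncomputable def v0_3 : Tr := (V (U (K 1) (S (F 68 (T (V (K 3) (U (K 3) (S (K 3) (T (K 3) (V (K 3) (S (K 3) (F 1 L))))))) (V (K 3) (U (K 3) (S (T (K 3) (V (K 3) (S (K 3) (F 2 L)))) (T (V (K 3) (S (F 2 L) (F 2 L))) (V (K 3) (S (F 2 L) (F 2 L))))))))) v0_2)) (U (K 0) (S (F 84 (T (V (U (K 3) (S (K 3) (V (T (K 3) L) (K 3)))) (K 3)) (V (U (K 3) (S (V (S (K 3) L) (K 3)) (V (S L L) (K 3)))) (K 3)))) (T (F 68 (V (U (S (K 4) (T (V (V (S (K 4) (F 1 L)) (K 4)) (K 4)) (F 11 (V (S (K 0) (K 1)) (K 0))))) (S (V (T (S (F 1 L) (F 1 L)) (S (F 2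 L) (F 2 L))) (K 4)) (T (V (F 1 L) (S (F 1 L) (F 1 L))) (V (S (F 1 L) (F 1 L)) (S (F 2 L) (F 2 L)))))) (U (K 4) (S (K 4) (V (T (K 4) (F 2 L)) (K 4)))))) (F 80 (V (U (S (V (T (K 4) (F 4 L)) (K 4)) (T (F 29 (T (K 0) (K 0))) (U (K 1) (V (F 4 L) (F 4 L))))) (S (V (T (F 4 L) (F 4 L)) (S (F 4 L) (F 4 L))) (V (T (S (F 4 L) (F 4 L)) (F 4 L)) (T (F 4 L) (F 4 L))))) (U (K 4) (S (K 4) (T (U (K 4) (V (F 4 L) L)) (V (S L L) (U (K 4) (S L (F 8 L)))))))))))))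
noncomputable def v0_4 : Tr := (T (V (U (F 48 (S (K 2) (T (K 2) (T (K 2) (S (K 2) (U (K 2) (V L (F 32 L)))))))) (S (T (F 33 (V (K 3) (T (K 3) L))) (V (S (F 33 (T L (F 4 L))) (F 48 (T L L))) (F 33 (S (F 4 L) L)))) (T (V (U (K 3) (S (F 48 (T (K 2) L)) (T (F 160 L) (F 48 (S L (F 1 L)))))) (S (F 33 (T L L)) (T (F 160 (S L L)) (F 33 L)))) (V (F 48 (S (T (S L L) (S L L)) (T (V (S (F 1 L) (F 1 L)) L) (S L L)))) (F 33 (S (S L L) (T L L))))))) (F 33 (U (S (V (K 3) (S L L)) (T (V (K 3) L) (V (S L L) L))) (S (T (S L L) (S (F 16 L) L)) (T (V (S L L) L) (V (S L L) L)))))) (V (U (S (F 49 (T (U (K 2) (V (T (K 2) L) (S (F 8 L) L))) (V (S (F 8 L) (S L L)) (S (F 8 L) (F 8 L))))) (T (F 48 (V (S (T (S L L) (S (F 32 L) L)) (T (S L L) (S L L))) (S (T (F 32 L) (F 32 L)) (T (S (F 32 L) (F 32 L)) (S (F 32 L) (F 32 L)))))) (V (S (F 49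 (T (S L L) L)) (T (F 48 (S L L)) (F 17 (S (F 4 L) L)))) (F 49 (S L (T L L)))))) (S (F 33 (T (V (S (F 4 L) (T (F 4 L) (F 4 L))) L) (V (S (F 20 L) (F 4 L)) (F 20 L)))) (F 48 (T (V (S (T L (S (F 32 L) (F 32 L))) (T (S L L) L)) (T (S (F 32 L) (F 32 L)) (S (F 32 L) (F 32 L)))) (V (S (T (F 32 L) (F 32 L)) (T L (S (F 32 L) (F 32 L)))) (S (F 32 L) (S (F 32 L) (F 32 L)))))))) (F 33 (U (S (T (S (F 16 L) L) (F 16 L)) (T (V (S (F 4 L) L) L) (V (S (F 20 L) (F 4 L)) (F 16 L)))) (S (T L (F 16 L)) (T (V L L) (S (F 16 L) L)))))))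
noncomputable def v0_5 : Tr := (V (U (S (F 245 (T (K 0) (V (K 0) (V (K 0) (S (K 0) (K 1)))))) (T (K 3) (V (F 48 (U (K 2) (S (F 40 (T (K 1) (V (K 1) (T (K 1) L)))) (T (K 2) (V (U (K 2) (S (T (K 2) (F 32 L)) (V (S L L) (T (F 32 L) (F 32 L))))) (S (S (F 32 L) (F 32 L)) (T (S (F 32 L) (F 32 L)) (S (F 32 L) (F 32 L))))))))) (F 33 (U (K 5) (S (F 23 (T (K 1) (K 0))) (V (U (K 5) (T (S (K 3) L) (F 31 (S (K 0) (K 0))))) (K 5)))))))) (S (F 33 (T (V (U (K 3) (S (K 3) (T (K 3) (U (K 3) (S (F 16 L) L))))) (U (K 3) (S (F 16 L) (T L (F 16 L))))) (V (F 20 (S (T (U (K 1) L) L) (T (U (K 1) (V (S L L) L)) (V (S L L) L)))) (S (S (F 16 L) (F 16 L)) (V (S (F 16 L) (F 16 L)) (F 16 L)))))) v0_4)) (F 33 (U (F 18 (S (T (V (K 1) (S L (K 0))) (V (K 0) (U (K 0) (S L L)))) (F 12 (T (V (U (K 0) (T (V (K 0) (K 1)) (K 1))) (K 1)) (K 1))))) (S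 (T (F 18 (V (T L L) L)) (V (S (F 18 L) (F 16 L)) (F 18 (S L L)))) (T (V (S (T (F 2 L) L) (T (S (F 2 L) L) (S L L))) (T (F 2 L) (S (F 18 L) (F 2 L)))) (V (S (T (F 16 L) (F 16 L)) (T (S L L) (V (F 16 L) (F 16 L)))) (S (F 18 (V L L)) (T (S (F 18 L) (F 2 L)) (T (F 16 L) (F 16 L))))))))))
noncomputable def v0_6 : Tr := (V (U (F 137 (S (K 2) (T (K 2) (V (T (K 2) (S (K 2) (T (K 2) (S (K 2) (F 2 L))))) (U (K 2) (T (K 2) (S (K 2) L))))))) (S (F 137 (T (V (K 2) (T (K 2) (S (K 2) (S (K 2) L)))) (V (U (K 2) (S (T (K 2) L) (T L (S (F 2 L) (F 2 L))))) (S (U (K 2) (S L L)) (T (S L L) (S L L)))))) (T (V (V (F 193 (T (S L L) (S L L))) (S (F 129 L) (F 129 L))) (T (S (F 129 L) (F 129 L)) (V (F 129 L) (F 137 (S L L))))) (V (T (S (V (F 193 L) (F 137 L)) (F 193 (S L L))) (F 201 (S (V (S L L) (S L L)) (V (S L L) (S L L))))) (F 137 (T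 (S (S L L) (S L L)) (S (S L L) (S L L)))))))) (F 137 (U (S (T (K 2) (V (K 2) (V (K 2) (F 32 L)))) (T (V (K 2) (U (K 2) (V (S (K 2) (F 1 L)) (F 33 (S (K 2) L))))) (V (U (K 2) (S (S (K 2) L) (T L L))) (S (T (F 32 L) (F 32 L)) (V L (F 32 L)))))) (S (T (V (U (K 2) (S L L)) (T (F 33 (S L L)) (F 32 L))) (V (S (V L (F 32 L)) (S L L)) (S (F 32 L) (F 32 L)))) (T (V (S (T L L) (T L L)) (V (S (F 1 L) (F 1 L)) (F 33 (S L L)))) (V (S (T L L) (T L L)) (V (S (F 32 L) L) (F 32 L))))))))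
noncomputable def v0_7 : Tr := (U (S (T (U (K 5) (V (F 193 (S (K 1) (T (K 1) L))) (S (S (K 5) (F 129 L)) (T (F 385 L) (F 193 (S L L)))))) (V (F 193 (T (U (K 1) (S L L)) (V (S L L) (S (S (F 8 L) (F 8 L)) (S (F 8 L) (F 8 L)))))) (T (V (F 193 (S (T L (F 8 L)) L)) (F 137 (S L L))) (S (F 137 (V (S (F 2 L) (F 2 L)) L)) (F 200 (T (V (F 32 L) (F 32 L)) L)))))) (T (V (F 193 (T (S (S (F 1 L) (F 1 L)) (V (F 17 L) (F 1 L))) (S L L))) (T (F 385 (V (S (F 1 L) (F 1 L)) (S L (F 1 L)))) (F 193 (S (V L L) (T L L))))) (V (T (F 193 (S (S L L) (S L L))) (S (T (F 193 L) (F 65 L)) (F 65 L))) (T (S (V (F 193 L) (S (F 137 L) (F 193 L))) (F 193 (V L L))) (F 73 (S (V L L) (V L L))))))) (S (T (V (F 193 (T (S L L) (S (S L L) L))) (S (T (F 129 L) (F 129 L)) (T (F 129 L) (F 129 L)))) (V (F 193 (T (S (S L L) (S L L)) (S (V L (S (F 8 L) (F 8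 L))) (S L L)))) (S (F 137 (T (S L L) (S L L))) (V (F 193 (T L (S (F 8 L) (F 8 L)))) (F 137 (T L L)))))) (T (V (F 193 (T (S (F 1 L) (F 17 L)) (S L L))) (V (F 193 (T (S (F 1 L) (F 1 L)) (S L (F 1 L)))) (F 385 (T L (S L L))))) (V (T (F 193 (S (S L L) L)) (S (F 193 (S L L)) (F 65 L))) (T (F 193 (S (T L L) (T L L))) (V (F 65 L) (F 73 (S L L))))))))
noncomputable def v0_8 : Tr := (U (S (T (V (T (F 385 (U (K 1) (V L (S (F 8 L) (F 8 L))))) (F 137 (V (S L L) (S L L)))) (F 393 (V (S (S L L) (T L L)) (S L (S L L))))) (F 137 (V (S (T (S L L) (S L L)) (T (V L L) (V L L))) (S (V L (S (F 32 L) (F 32 L))) (T L (S L L)))))) (T (V (V (F 385 (T (S L L) (S L L))) (T (F 385 (S L L)) (S (F 137 L) (F 385 L)))) (F 393 (V (S (T L L) (T L (S L L))) (S (S L L) (T L L))))) (V (T (S (F 137 (V L L)) (S (F 9 L) (F 9 L))) (S (F 9 L) (F 73 (V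 L L)))) (S (T (F 137 (S L L)) (F 9 L)) (T (F 9 L) (F 9 L)))))) (S (T (V (T (F 385 (S L L)) (F 137 (S L (S L L)))) (F 393 (V (S L (S L L)) (S L L)))) (V (S (F 137 (T (S L L) (S L L))) (T (F 137 (S L L)) (F 9 L))) (F 137 (T (S L L) (S L L))))) (T (V (T (F 385 (S L L)) (S (F 129 L) (F 385 (S L L)))) (F 385 (V (T L (S (F 8 L) (F 8 L))) (S (F 8 L) (S (F 8 L) (F 8 L)))))) (V (T (S (F 137 (S L L)) (F 9 L)) (S (F 9 L) (F 9 L))) (S (T (F 137 L) (F 9 L)) (S (F 9 L) (F 9 L)))))))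
noncomputable def v0_9 : Tr := (U (S (K 5) (T (F 385 (V (K 1) (U (K 1) (S (K 1) (T (K 1) (V (K 1) (S (K 1) (V (K 1) L)))))))) (V (U (K 5) (S (K 5) (T (V (K 5) (T (K 5) (T (K 5) (S (K 5) (F 192 L))))) (V (U (K 5) (T (V (F 193 (S (K 1) L)) (F 192 L)) (S (F 192 L) (F 192 L)))) (T (S (K 5) (U (K 5) (F 192 L))) (S (F 72 L) (F 72 L))))))) (U (F 463 (S (K 0) (T (K 0) (V (K 0) (S (K 0) (K 1)))))) (S (T (K 5) (V (T (K 5) (S (K 5) (S (K 5) (F 136 L)))) (U (K 5) (S (F 137 (S (K 2) (T (K 2) L))) (V (F 136 L) (F 137 L)))))) (T (V (U (K 5) (S (K 5) (V (F 384 L) (F 392 (S L L))))) (F 392 (V (U (K 1) (S L L)) (T (S (K 1) (F 32 L)) (S L L))))) (V (T (U (K 5) (V (F 200 (S L L)) (F 136 L))) (S (F 72 L) (F 72 L))) (T (S (S (F 136 L) (F 136 L)) (S (F 264 L) (F 264 L))) (S (F 8 L) (F 8 L)))))))))) (S (T (F 385 (V (U (K 1) (S (K 1)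 (T (K 1) (U (K 1) (S (K 1) (V (S (K 1) (F 1 L)) L)))))) (U (K 1) (S (F 40 (V (K 2) (T (K 2) (S (K 2) L)))) (T (V (S (K 1) L) L) (V (U (K 1) (S L L)) (T (F 8 L) (F 8 L)))))))) v0_6) (T (F 385 (V (U (S (K 1) (T (F 17 (S (K 3) (S (K 3) L))) (V (F 17 (U (K 3) (S L L))) (V (S (F 1 L) (F 1 L)) (S L L))))) (S (T (V (F 17 L) (S (F 16 L) (F 16 L))) (V (V (F 17 (S (S L L) L)) L) (T L (S L L)))) (T (V (F 17 L) (F 16 L)) (V (F 17 (S L L)) (S L (S (F 1 L) (F 1 L))))))) (U (S (T (V (K 1) (S (K 1) L)) (U (K 1) (V (V (K 1) L) (V L (F 8 L))))) (T (V (S L L) (S L L)) (V (T (S L L) (S L L)) (V (S L L) (S (F 8 L) L))))) (S (V (T (S L L) (T L (S L L))) (T L (V L (F 8 L)))) (V (T L (V L L)) (T L (S L L))))))) (V v0_7 v0_8))))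
noncomputable def v0_10 : Tr := (S (F 453 (T (V (K 1) (S L (S L L))) (V (U (K 1) (S (V (K 1) (S (K 1) L)) (V (V (K 1) (T (K 1) (S (K 1) L))) (T L L)))) (T (U (K 3) (S L L)) (K 3))))) (T (F 448 (V (U (F 57 (S (K 1) (K 0))) (S (F 40 (V (K 2) (T (K 2) L))) (V (T (S (K 1) L) (V (T (F 8 L) (S (K 1) (F 8 L))) (S (F 40 L) (F 8 L)))) (F 40 (T (S L (K 1)) (S L (K 1))))))) (F 40 (S (T L (S L L)) (U (K 1) (S L (K 1))))))) (V (U (F 485 (S (F 2 (V (K 1) (S (K 1) (K 0)))) (T (K 1) (S (V (F 4 (S (K 1) (K 0))) (K 2)) (K 1))))) (S (F 325 (V (T (U (K 2) (S (K 2) (T (F 1 L) (F 1 L)))) (T (V (S (K 2) L) (S (F 1 L) (F 1 L))) (S L (S L L)))) (T (F 1 L) (U (K 4) (F 1 L))))) (V (T (F 452 (V (S (T L L) (T L L)) (S (T (F 16 L) (F 16 L)) (T L L)))) (S (T (F 452 (V (S L L) (S (F 16 L) (F 16 L)))) (F 261 L)) (T (F 388 (V L (F 32 L))) (F 261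 (S L L))))) (F 389 (T (S (F 1 L) (S (F 1 L) (F 1 L))) (S (T (F 1 L) L) (T L L))))))) (F 453 (U (K 3) (V (S (S L L) (T L (S (K 3) L))) (F 7 (S (K 0) (K 0)))))))))
noncomputable def v0_11 : Tr := (T (F 448 (V (U (V (S (T (S (F 40 L) (F 8 L)) (F 40 (T L L))) (T L (T (F 8 L) (S (F 8 L) (F 8 L))))) (F 40 (S (S L L) (T L L)))) (V (T (S (F 32 L) L) (S (F 40 (S L L)) (S (F 8 L) (F 8 L)))) (F 40 (S L (T L L))))) (F 40 (S (S L L) (T L L))))) (V (U (S (F 325 (V (T (S (F 1 L) (T (F 1 L) (F 1 L))) (S L (S L L))) (T (F 1 L) (S (F 1 L) (F 1 L))))) (V (T (F 452 (S (V L (F 16 L)) (T L (S L L)))) (S (T (F 452 (V L (F 16 L))) (F 261 L)) (F 388 (V (S L L) (S (F 32 L) (F 32 L)))))) (F 389 (T (S (F 1 L) (F 1 L)) (S (S (F 1 L) (F 1 L)) L))))) (S (F 325 (V (T (T (F 1 L) (S (F 1 L) (F 1 L))) (S L L)) (T (F 1 L) (F 1 L)))) (V (T (F 452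 (T L (V L (F 16 L)))) (F 261 (T (S (S (F 3 L) (F 1 L)) (F 1 L)) L))) (F 389 (T (F 1 L) (S (F 1 L) L)))))) (F 453 (T (S L (V L L)) (S (V (S L L) L) (V (U (S L L) L) (S L L)))))))
noncomputable def v0_12 : Tr := (V (U (S (F 491 (T (K 0) (V (K 0) (K 1)))) (T (K 4) (V (S (S (F 288 L) (F 288 L)) (F 288 L)) (T (V (F 288 L) (K 2)) (K 2))))) (S (T (V (S (K 4) (T (K 4) (F 288 L))) (U (K 4) (S (F 99 (T (K 2) (S (K 2) L))) (T (F 289 (S (K 2) L)) (F 35 L))))) (V (T (S (F 32 L) (F 288 L)) (S (F 32 L) (F 288 L))) (F 35 (S (T (S (S (F 4 L) (F 4 L)) L) (S (F 4 L) L)) (T (S L L) (S L L)))))) (T (V (T (F 288 L) (F 288 L)) (S (T (F 288 L) (F 288 L)) (S (F 288 L) (F 288 L)))) (V (T (F 288 L) (S (F 288 L) (F 289 L))) (S (V (F 288 L) (T (F 290 L) (F 35 L))) (T (F 288 L) (F 290 (S L L)))))))) (U (F 507 (S (K 0) (K 0))) (S (T (F 67 (V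 (S (U (K 3) L) (V (U (K 3) (T (F 4 L) (F 4 L))) (S L L))) (K 5))) (F 35 (V (S (K 5) (S (K 5) (T L (K 5)))) (K 5)))) (T (V (T (S (S (F 35 L) (F 290 (V L (F 32 L)))) (F 290 (V L (S (F 32 L) (F 32 L))))) (S (F 35 (S L L)) (F 290 (V L (S (F 32 L) (F 32 L)))))) (F 507 (S (K 0) (S (K 0) (K 0))))) (F 35 (V (U (K 5) (S (S L L) (T L L))) (K 5)))))))
noncomputable def v0_13 : Tr := (V (U (S (K 4) (T (V (K 4) (T (K 4) (F 288 L))) (V (S (F 288 L) (F 288 L)) (S (F 288 L) (F 288 L))))) (S (T (U (K 4) (V (S (K 4) (F 288 L)) (S (S (K 4) (F 288 L)) (F 288 L)))) (V (S (F 288 L) (F 288 L)) (T (F 288 L) (F 288 L)))) (T (V (T (S (F 288 L) (F 288 L)) (S (F 288 L) (F 288 L))) (T (S (F 288 L) (F 288 L)) (F 288 L))) (V (S (F 288 L) (F 288 L)) (S (F 288 L) (F 288 L)))))) (U (S (T (K 4) (V (S (K 4) (T (K 4) (F 288 L))) (K 2))) (T (V (S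 (K 4) (T (F 288 L) (F 288 L))) (V (U (K 4) (S (F 288 L) (F 288 L))) (T (F 256 L) (S (K 2) (F 288 L))))) (V (S (S (F 288 L) (F 288 L)) (F 288 L)) (F 290 (T (V (S L L) (K 4)) (K 4)))))) (S (T (V (S (T (S (K 4) (F 288 L)) (F 288 L)) (T (F 288 L) (F 288 L))) (S (T (F 321 (V L (S (F 32 L) (F 32 L)))) (F 259 (S L L))) (V (F 256 L) (F 259 (T L L))))) (V (S (T (F 288 L) (F 288 L)) (S (F 288 L) (F 288 L))) (S (F 259 (T (S L L) (S L L))) (V (F 258 L) (F 259 (T L L)))))) (T (V (T (S (F 288 L) (F 288 L)) (S (F 288 L) (F 288 L))) (T (S (F 256 L) (F 256 L)) (S (F 258 L) (F 288 L)))) (V (T (S (F 288 L) (F 289 L)) (F 288 L)) (V (S (F 288 L) (F 288 L)) (S (F 259 (T L L)) (F 258 L))))))))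
noncomputable def v0_14 : Tr := (S (T (V (U (K 4) (S (K 4) (T (K 4) (U (K 4) (V (S (K 4) (F 288 L)) (S (S (K 4) (F 288 L)) (F 288 L))))))) (U (K 4) (S (F 67 (T (K 3) (V (K 3) (T (K 3) (S (K 5) L))))) (T (F 323 (V (K 2) (S (K 2) (U (K 2) (T (S (K 2) L) (S L L)))))) (V (S (F 259 (U (K 3) (T (K 3) (T L L)))) (T (F 288 L) (V (F 289 L) (F 259 L)))) (S (F 67 (U (K 5) (S L L))) (F 259 (U (K 5) (T (S (F 2 L) (F 2 L)) L))))))))) v0_12) (T v0_13 (V (U (S (T (V (F 288 L) (S (F 288 L) (F 288 L))) (V (F 288 L) (T (F 288 L) (F 288 L)))) (T (V (F 288 L) (F 288 L)) (V (F 288 L) (S (F 288 L) (F 290 L))))) (S (T (V (F 288 L) (S (F 288 L) (F 288 L))) (V (F 288 L) (S (F 288 L) (F 288 L)))) (T (V (F 288 L) (F 288 L)) (V (F 288 L) (F 288 L))))) (U (S (F 290 (T (V (S (K 4) (T L (K 4))) (K 4)) (K 4))) (T (V (S (F 288 L) (F 288 L)) (K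 2)) (V (V (F 288 L) (K 2)) (K 2)))) (S (T (V (F 290 (T (S (S L L) L) (S L L))) (F 259 (V (U (K 5) (S L (T (F 4 L) (F 4 L)))) (K 5)))) (F 290 (V (S (U (K 4) (T (S (F 32 L) (F 32 L)) (F 32 L))) (T L (S (F 32 L) (F 32 L)))) (K 4)))) (T (V (S (F 288 L) (F 288 L)) (F 290 (S (U (K 4) (T (S (F 32 L) (F 32 L)) (F 32 L))) (T L (S (F 32 L) (F 32 L)))))) (V (V (F 288 L) (F 290 (S L L))) (F 291 (T (S (S (K 4) L) L) (K 4))))))))))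
noncomputable def v0_15 : Tr := (U (S (T (F 321 (S (K 2) (T (K 2) (U (K 2) (V (S (K 2) (F 2 L)) L))))) (V (F 353 (S (U (K 1) (T (S (K 1) L) (S L L))) (T (V L L) (V L (S L L))))) (T (F 321 (U (K 2) (S L (S (F 2 L) (F 2 L))))) (V (F 97 (S L (S (F 1 L) (F 1 L)))) (F 65 L))))) (T (V (F 352 (T (U (K 1) (S (S (K 1) (F 32 L)) (S (F 32 L) (F 32 L)))) (S (V (F 32 L) (F 32 L)) L))) (V (F 289 (S (T (S (K 2) (F 2 L)) (F 2 L)) (T (S (F 2 L) (F 2 L)) L))) (F 321 (S (S L L) (S L L))))) (V (T (F 289 (S L L)) (F 288 L)) (S (T (V (F 289 L) (F 321 L)) (F 289 (S L L))) (F 289 (T L L)))))) (S (T (F 321 (V (S (V (T (S (F 2 L) (F 2 L)) (S (F 2 L) (F 2 L))) (S L L)) (T (V (S (F 2 L) (F 2 L)) L) (V (F 2 L) (F 2 L)))) (S (T (S L L) (S L L)) (T (S L L) (S L L))))) (V (S (F 97 (T (V (F 1 L) (S (F 1 L) (F 1 L))) (V (S (F 1 L) (F 1 L)) L)))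 (F 289 (T (V (F 2 L) (F 2 L)) (T L L)))) (S (S (F 65 L) (F 65 L)) (T (F 321 (S L L)) (S (F 97 L) (F 289 L)))))) (T (V (F 289 (T (S (V (F 2 L) (F 2 L)) (V (F 2 L) (F 2 L))) (S (V (F 2 L) (F 2 L)) L))) (T (F 321 (S (S L L) (S L L))) (S (F 321 (S L L)) (F 289 L)))) (F 289 (V (S (T L L) (T L L)) (S (T (T L L) L) (T L L)))))))
noncomputable def v0_16 : Tr := (U (S (T (V (S (T (F 97 (V (S (F 1 L) (F 1 L)) L)) (S (F 97 L) (F 289 L))) (F 289 (T (S L L) (S L L)))) (S (F 97 (V (S L L) (T (F 32 L) (F 32 L)))) (T (S (F 97 L) (F 289 L)) (F 35 (S L L))))) (V (S (T (F 33 L) (F 33 L)) (T (F 289 (S L L)) (F 33 L))) (F 35 (S (T (S (F 4 L) (F 4 L)) L) (T (S L L) L))))) (T (V (T (F 288 L) (F 289 (S L L))) (F 289 (S (T (S L L) (S L L)) (T L L)))) (V (S (F 289 (T L L)) (F 288 L)) (S (T (S (F 35 L) (F 289 L)) (F 35 L)) (F 289 (T L (T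 (F 32 L) (F 32 L)))))))) (S (T (V (S (T (S (F 97 L) (F 289 L)) (F 33 L)) (F 289 (T L L))) (S (V (F 97 (S L L)) (F 67 L)) (T (F 33 L) (F 35 L)))) (V (S (S (F 33 L) (F 33 L)) (S (F 33 L) (F 33 L))) (F 35 (S (T (S (F 4 L) (F 4 L)) (F 4 L)) (T L L))))) (T (F 289 (V (S (T L L) (S L L)) (S (T L L) (T L L)))) (V (F 289 (S (T L L) (S L L))) (S (F 35 (T L L)) (F 289 (T L L)))))))
noncomputable def v0_17 : Tr := (T (V v0_15 (U (S (T (V (U (K 4) (S (F 67 L) (F 321 (V L (F 32 L))))) (F 67 (S L L))) (F 67 (V (S (S L L) (T L L)) (S L L)))) (T (F 321 (V (T (S (S L L) (S L L)) (S (S L L) (S L L))) (S (T (F 32 L) (F 32 L)) (T (S (F 32 L) (F 32 L)) (S (F 32 L) (F 32 L)))))) (V (S (T (F 321 (V L (F 32 L))) (F 259 (S L L))) (T (F 257 L) (S (F 259 L) (F 289 L)))) (S (F 67 (S L L)) (F 259 (T L L)))))) (S (T (V (S (F 67 L) (F 321 (V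 L (S (F 32 L) (F 32 L))))) (F 67 L)) (F 67 (V (S L (S L L)) (S L L)))) (T (F 321 (V (S (T L L) (T L L)) (S (S (F 32 L) (F 32 L)) (T (F 32 L) (F 32 L))))) (V (S (V (F 321 (S L L)) (F 67 L)) (F 259 (T L L))) (S (F 67 L) (S (F 67 L) (F 259 L)))))))) (V v0_16 (U (S (T (F 67 (V (S L (T L L)) (S L L))) (V (F 35 (S (T (F 4 L) (F 4 L)) (T L L))) (F 67 (S (F 4 L) L)))) (T (V (S (T (F 3 L) (F 35 L)) (V (F 289 (T L (S (F 32 L) (F 32 L)))) (F 259 (S L L)))) (S (F 67 (S L L)) (S (F 3 L) (F 3 L)))) (V (F 35 (S (T L L) (T L L))) (S (F 3 L) (F 35 (T L L)))))) (S (F 67 (T (V (S L (S L L)) (S L L)) (V (T L (S (F 4 L) (F 4 L))) (S (F 4 L) L)))) (T (V (S (F 3 L) (T (F 259 L) (F 35 L))) (S (F 67 L) (F 3 L))) (V (F 35 (S (S L L) (S L L))) (S (F 3 L) (F 3 L))))))))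
noncomputable def v0_18 : Tr := (V (U (S (T (V (T (S (F 200 (V (S (F 32 L) (F 32 L)) L)) (F 73 (S L L))) (F 73 (S L L))) (S (F 73 (T (S L L) (S L L))) (T (F 72 L) (F 73 L)))) (V (S (F 72 L) (F 72 L)) (T (F 72 L) (F 72 L)))) (T (V (T (V (F 65 L) (F 73 (S L L))) (F 73 (S L L))) (T (S (F 72 L) (F 72 L)) (F 72 L))) (V (S (F 72 L) (F 72 L)) (S (F 72 L) (F 72 L))))) (S (F 73 (T (V (T (S (V (F 2 L) (F 2 L)) (S L L)) (S L L)) (T (S (S L L) (S L L)) (S L L))) (V (T (S L L) (S L L)) (S (T L L) (S L L))))) (T (V (T (S (F 73 (S L L)) (F 65 L)) (F 73 (S L L))) (F 73 (T (S (S L L) (S L L)) (S L L)))) (F 73 (V (T (S L L) L) (T (S L L) L)))))) (U (S (T (V (T (S (F 9 L) (F 9 L)) (S (F 9 L) (F 9 L))) (S (T (F 137 (V L (F 32 L))) (F 11 L)) (T (F 9 L) (F 11 (S L L))))) (V (S (T (F 9 L) (F 73 L)) (F 73 (T L L))) (F 11 (S (T L L) (T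 L L))))) (T (V (T (V (F 72 L) (F 9 L)) (F 73 (S L L))) (S (S (F 9 L) (F 9 L)) (T (F 9 L) (F 9 L)))) (V (V (F 72 L) (F 73 (T L L))) (S (F 11 (T L L)) (F 73 (T L (S (F 32 L) (F 32 L)))))))) (S (T (V (S (S (F 9 L) (F 9 L)) (S (F 9 L) (F 9 L))) (S (F 137 (V L (S (F 32 L) (F 32 L)))) (F 11 (T L L)))) (V (S (F 9 L) (F 73 (T L L))) (F 11 (S (S L L) (S L L))))) (T (V (S (S (F 9 L) (F 9 L)) (F 73 (T (S L L) L))) (S (F 9 L) (S (F 9 L) (F 9 L)))) (V (F 73 (S (S L L) (S L L))) (T (F 9 L) (F 11 (S L L))))))))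
noncomputable def v0_19 : Tr := (V (U (S (T (V (F 289 (S L L)) (S (F 289 (S L L)) (F 288 L))) (V (F 288 L) (F 289 (S (S L L) (S L L))))) (T (V (F 288 L) (F 288 L)) (V (F 288 L) (F 288 L)))) (F 289 (S (T (V (S L L) (S (S L L) L)) (V (S L L) (T L (S L (F 32 L))))) (T (V (S L L) (S L L)) (V L (S L L)))))) (U (S (T (V (F 289 (S (V (S L L) (T (F 32 L) (F 32 L))) (T L L))) (F 259 (S (T L L) (T L (S (F 4 L) (F 4 L)))))) (F 35 (V (S (T (S (F 1 L) (F 1 L)) (S (F 1 L) (F 1 L))) (T (F 1 L) (F 1 L))) (S (T L L) (T (S (F 1 L) (F 1 L)) (S (F 1 L) (F 1 L))))))) (T (V (F 289 (S (S L L) (S L L))) (T (V (F 289 L) (F 259 L)) (F 291 (S (S L L) L)))) (F 289 (V (S (T (F 32 L) (F 32 L)) L) (S (T (F 32 L) (F 32 L)) (T (F 32 L) (F 32 L))))))) (S (T (V (S (V (F 289 L) (F 259 L)) (F 289 (S L L))) (S (S (F 3 L) (F 259 L)) (F 259 (S L L))))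 (F 35 (V (S (T (S (F 1 L) (F 1 L)) L) (T (F 1 L) (F 1 L))) (S (S L L) (T (S (F 1 L) (F 1 L)) L))))) (T (V (F 289 (T (S L L) L)) (F 259 (T (S L (F 4 L)) (S (F 4 L) (F 4 L))))) (F 289 (V (T L (S (F 32 L) (F 32 L))) (S (T (F 32 L) (F 32 L)) (T (F 32 L) (F 32 L)))))))))
noncomputable def v0_20 : Tr := (T (V (U (S (T (F 324 (V (S (T (F 2 L) (F 2 L)) (S L L)) (S (F 2 L) (S (F 2 L) (F 2 L))))) (V (F 324 (S (S L L) (S L L))) (S (F 100 L) (F 324 (S L L))))) (F 324 (T (V (T (S L L) (S L L)) (S L L)) (V (S (T L L) (T L L)) (S (S L L) (S L L)))))) (S (T (F 324 (V (S (S (F 2 L) (F 2 L)) L) (S (F 2 L) (F 2 L)))) (V (F 324 (S L L)) (S (F 100 L) (F 324 L)))) (F 324 (T (V (S L (S L L)) (S L L)) (V (S (S L L) (S L L)) (S L (S L L))))))) (U (F 324 (S (F 3 (V (T (S L L) (F 14 (S (K 0) (K 0)))) (K 0))) (T (V (S (F 1 L) (F 1 L)) (S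 (F 3 L) (F 1 L))) (V (T L (K 5)) (K 5))))) (S (F 100 (T (F 3 (V (S L L) L)) (V (S (F 2 L) L) (S (F 2 L) (F 2 L))))) (T (F 448 (V (S (F 8 L) (F 8 L)) (F 1 L))) (V (F 324 (S L L)) (S (F 224 L) (F 448 L))))))) (V (U (S (T (V (S (F 68 L) (F 324 (T L L))) (S (F 68 L) (F 68 L))) (V (S (F 68 L) (S (F 68 L) (F 68 L))) (K 0))) (T (F 324 (V (S (T L L) (S L L)) (U (K 5) (T L (S L L))))) (V (T (F 324 (S L (S (F 4 L) (F 4 L)))) (F 84 (S L (S (F 1 L) (F 1 L))))) (K 0)))) (S (T (V (T (F 324 (S L L)) (F 68 L)) (S (F 100 L) (F 68 L))) (V (S (F 68 L) (F 68 L)) (S (F 68 L) (F 68 L)))) (T (F 324 (V (S (S L L) (S L L)) (S (S L L) (S L L)))) (V (S (T (F 324 L) (F 84 L)) (F 324 (T L (S (F 4 L) (F 4 L))))) (S (S (F 68 L) (F 68 L)) (T (F 324 L) (F 68 L))))))) (U (K 0) (S (T (V (S (F 100 L) (F 68 L)) (F 100 (S L L))) (V (T (F 68 L) (S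 (F 100 L) (F 68 L))) (S (F 36 L) (F 32 L)))) (T (V (S (F 68 L) (F 320 L)) (S (F 96 L) (F 64 L))) (V (T (F 64 L) (S (F 68 L) (F 68 L))) (S (F 64 L) L)))))))
noncomputable def v0_21 : Tr := (U (S (F 100 (T (V (U (K 5) (S (T (V L (K 5)) (K 5)) (T (V (U (K 5) (S (F 1 L) (F 1 L))) (K 5)) (K 5)))) (K 5)) (K 5))) (F 324 (T (V (U (F 31 (S (K 0) (K 0))) (S (T (V (S (U (K 5) (S (F 2 L) (F 2 L))) (T L L)) (K 5)) (S (K 5) (V (T L (K 5)) (K 5)))) (T (V (T (S (S L L) (S L L)) (S (S L L) (S L L))) (S (K 5) (S L L))) (V (U (K 5) (S (S L L) (S L L))) (K 5))))) (K 5)) (K 5)))) (S (T (F 100 (V (U (S (T (S (F 2 L) L) (T L L)) (T (V (S (F 1 L) (S (F 1 L) (F 1 L))) (F 1 L)) (V (S L L) L))) (S (T L (S L L)) (T (V (S (F 1 L) (F 1 L)) (F 1 L)) (V (S L L) L)))) (S (T (F 2 L) (S (F 2 L) (F 2 L))) (T (V (F 2 L) (F 2 L)) (V (S (F 2 L) L)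 (S (F 2 L) (F 2 L))))))) (V (U (F 100 (S (V (T L L) (K 5)) (U (K 5) (T (V (S L L) L) (V (S L L) (K 5)))))) (S (F 100 (T (S L L) (S (F 16 L) L))) (T (F 100 (V (S L L) L)) (V (S (F 100 L) (F 68 L)) (F 100 (S L L)))))) (F 100 (U (K 5) (S (T L (T (F 16 L) (F 16 L))) (T (V L L) (V L (S (F 16 L) L)))))))) v0_20))
noncomputable def v0_22 : Tr := (S (F 2372 (T (V (U (K 3) (S (K 3) (T (K 3) (V (F 160 (U (K 2) (S (K 2) (T (K 2) (V (K 2) (V (K 2) (T (K 2) (S (K 2) L)))))))) (F 33 (U (K 3) (S (V (K 3) (T (K 3) (F 2 L))) (T (F 3 (V (K 2) (S (K 2) L))) (V (S L (T (F 1 L) (F 1 L))) L))))))))) (F 97 (U (S (K 2) (T (K 2) (V (K 2) (T (S (K 2) (F 1 L)) (K 4))))) (S (T (V (K 2) L) (V (S (F 8 L) L) (F 8 L))) (T (V (U (K 2) (S (F 1 L) (S (F 1 L) (F 1 L)))) (S (F 1 L) (F 1 L))) (V (S (T L L) (T L (S L L))) (S L L))))))) v0_5)) (T (V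 (F 69 v0_9) (F 2116 (U v0_10 (S (F 69 (T (F 3 (V (V (S (T L L) (T (S L L) (U L L))) (T L (S L L))) (S L L))) (V (S (V (T (F 3 (S L L)) (S (F 2 L) (F 1 L))) (T (F 3 L) (F 2 L))) (V (T (F 3 (U (S L L) L)) (S (F 1 L) (T (F 1 L) (F 1 L)))) (F 3 (U (S L L) L)))) (S (T (F 3 L) (F 2 L)) (F 3 (V (S L L) L)))))) v0_11)))) (V (U (F 324 v0_14) (S (F 324 v0_17) (T (F 69 v0_18) (F 324 v0_19)))) (F 3328 v0_21))))
noncomputable def v0_23 : Tr := (S (F 76 (T (F 17 (V (T L (S L L)) (K 2))) (V (F 17 (T (S L (S L L)) (U (K 3) (S (K 3) L)))) (U (F 57 (S (K 0) (T (K 0) (K 1)))) (S (T (K 2) (V (F 61 (S (K 0) (K 0))) (S (K 2) L))) (V (F 17 (T L (S L L))) (T (K 2) (V (S (F 1 L) (F 1 L)) (S (F 1 L) (S (F 1 L) (F 1 L))))))))))) (T (F 334 (V (S (U (K 3) (S L L)) (K 3)) (U (K 1) (T (V (S (K 1) L) (K 1)) (V (S L L) (V (S (K 1) (S (K 1) L))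 (K 1))))))) (V (F 334 (U (K 3) (V (S L (K 3)) (T (S L (K 3)) (S L (S L (K 3))))))) (U (F 350 (S (F 4 (T (K 0) (K 1))) (T (F 1 (V (K 0) (K 1))) (T (V (K 2) (F 4 (T (K 0) (K 1)))) (K 0))))) (S (F 332 (V (T (F 8 L) (S (F 8 L) (S (F 8 L) (F 8 L)))) (T (U (K 1) (T (K 1) (S (F 8 L) (F 8 L)))) (V (T (S (F 8 L) (F 8 L)) (S L L)) (T (S L L) (S L L)))))) (T (F 326 (V (U (K 4) (F 8 L)) (S (V (S (F 8 L) (F 8 L)) (T (K 1) L)) (T L (S L L))))) (V (F 270 (T (S (F 2 L) L) (S L L))) (T (S (F 332 (V (S (F 8 L) (F 8 L)) (S L L))) (F 262 L)) (S (F 268 (V (F 16 L) L)) (F 262 (S L L)))))))))))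
noncomputable def v0_24 : Tr := (S (F 76 (T (F 17 (V (S L L) (V (S L (S L L)) (T (S L L) (S (S L L) (U L L)))))) (V (F 17 (T (S L L) (S L L))) (U (V (F 17 (T (S L L) (S L L))) (T (F 17 (S (S L L) (S L L))) (S L (S (F 1 L) (S (F 1 L) (F 1 L)))))) (V (F 17 (T L (S L L))) (S (T (F 16 L) L) (T (F 17 (S L L)) (S (F 1 L) (F 1 L))))))))) (T (F 322 (V (T (S (F 24 L) (F 8 L)) (F 24 (V L (S L L)))) (T (V (S (F 24 L) (F 8 L)) (S (F 24 (S L L)) (T (F 8 L) (F 16 L)))) (V (F 24 (U (S L L) L)) (S (F 24 (U (S L L) L)) (T (F 16 L) (S (F 16 L) (F 16 L)))))))) (V (F 334 (S (T L (V L L)) (T (V L (S L L)) (V (S L L) (U (S L L) L))))) (U (T (F 326 (V (S (F 8 L) (S (F 8 L) (F 8 L))) (S (T (F 8 L) (S (F 8 L) (F 8 L))) (T L (T L L))))) (V (F 270 (S (S (F 2 L) (F 2 L)) (T (S (F 2 L) (F 2 L)) L))) (S (F 332 (T (V (F 8 L) L) (S L (S L L))))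 (T (S (F 332 (V (F 8 L) L)) (F 262 L)) (F 268 (V (S (F 16 L) (F 16 L)) (S (F 2 L) L))))))) (T (F 326 (V (S (F 8 L) (F 8 L)) (S (S (F 8 L) (S (F 8 L) (F 8 L))) (T L L)))) (V (F 270 (S (F 2 L) (S (F 2 L) L))) (S (F 332 (S L (V (F 8 L) L))) (F 262 (S (T (S (F 18 L) (F 2 L)) (F 16 L)) L)))))))))
noncomputable def v0_25 : Tr := (V (F 321 (U (S (T (K 1) (V (U (K 1) (V (F 24 (S L L)) (S (K 1) (F 8 L)))) (K 1))) (T (V (V (F 16 L) (K 1)) (K 1)) (V (T (S (F 16 L) (F 16 L)) (V (F 16 L) L)) (U (K 1) (T (S (K 1) L) (S L L)))))) (S (V (T (S (F 24 (S L L)) (F 16 L)) (V (F 24 (S L L)) (S (F 8 L) (F 8 L)))) (T (U (K 1) (S L L)) (T (S L L) (S L L)))) (T (V (S (F 16 L) (F 16 L)) (T (V (F 16 L) L) (S L L))) (V (V (F 16 L) (T (F 16 L) L)) (T (S L L) (S L L))))))) (U (F 321 (S (K 1) (T (K 1) (V (U (K 1) (S (K 1) (T (K 1) L))) (S (K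 1) (T (K 1) (S (K 1) (T (K 1) (F 4 L))))))))) (S (T (F 321 (V (S (K 1) (T (K 1) (S L L))) (K 1))) (V (S (T (F 65 L) (F 65 L)) (V (F 321 (S L L)) (F 65 L))) (V (S (F 65 L) (F 65 L)) (F 81 (S (S L L) (S L L)))))) (T (F 321 (V (T (U (K 1) (S L L)) (S (S L L) (S L L))) (U (K 1) (T (S (K 1) L) (S L (T (F 4 L) (F 4 L))))))) (V (F 321 (S (T (S L L) (S L L)) (T (S L L) (S L L)))) (S (T (V (F 321 L) (F 81 L)) (F 81 (S L L))) (F 337 (T (V (S L L) (S L L)) (V (S L L) (S L L))))))))))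
noncomputable def v0_26 : Tr := (U (S (T (V (F 329 (V (T L (S L L)) (T (S L L) (S L L)))) (S (F 73 (U (K 2) (V (S (F 1 L) (F 1 L)) L))) (F 321 (V (S L L) (T L L))))) (V (F 329 (V (T (S L L) (S L L)) (T (S L L) (S L (S L L))))) (V (S (F 73 (S L L)) (T (F 321 L) (F 73 L))) (S (F 73 (S L L)) (T (F 321 L) (F 73 L)))))) (T (F 321 (V (T (V (S (F 16 L) (F 16 L)) L) (S L (S L L))) (T (S (S L L) (S L L)) (S (V L L) (V L L))))) (V (T (S (F 321 (S L L)) (F 257 L)) (S (F 257 L) (F 257 L))) (S (T (F 321 (V L L)) (S (F 257 L) (F 257 L))) (T (F 257 L) (F 273 (V L L))))))) (S (T (V (F 329 (V (S L L) (T L (S L L)))) (S (F 73 (T L L)) (F 321 (T L (S L L))))) (V (F 73 (V (T (F 1 L) (S (F 1 L) (F 1 L))) (S L (T (F 1 L) (F 1 L))))) (S (F 73 (T L L)) (T (F 65 L) (F 73 (S L L)))))) (T (V (F 321 (S (S L L) (T L L))) (T (F 321 (S (S L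 L) (S L L))) (S (F 321 (S L L)) (F 257 L)))) (V (T (S (F 321 L) (F 257 L)) (S (F 257 L) (F 257 L))) (S (T (F 321 (S L L)) (F 257 L)) (T (F 257 L) (F 257 L)))))))
noncomputable def v0_27 : Tr := (U (S (T (U (K 5) (V (T (S (K 5) (F 65 L)) (S (F 73 L) (F 81 (S L L)))) (F 81 (T (K 2) (S (K 2) L))))) (V (S (F 73 (V (T L (F 8 L)) (T (F 8 L) (F 8 L)))) (F 81 (T (V L L) (S L L)))) (F 81 (S (T (S (F 8 L) (F 8 L)) (V (F 8 L) (F 40 L))) (T L L))))) (T (V (S (V (F 321 (T L L)) (F 81 (T (S L (F 1 L)) L))) (T (F 321 (V L (S (F 4 L) (F 4 L)))) (F 336 (S (V (F 32 L) (F 32 L)) L)))) (F 81 (S (U (K 2) (T L L)) (V (T (S (F 1 L) (F 1 L)) (S (F 1 L) (F 1 L))) (T L L))))) (V (S (T (V (T (F 321 L) (F 81 L)) (F 81 L)) (F 81 (V L L))) (F 273 (T (V L L) (V L L)))) (S (F 81 (T (S L L) (S L L))) (T (S (F 81 L) (F 17 L)) (F 17 L)))))) (S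 (T (V (T (S (F 65 L) (F 65 L)) (S (F 65 L) (F 65 L))) (F 81 (S (T L L) (T (S L L) L)))) (V (V (S (F 73 L) (S (F 73 L) (F 81 L))) (F 81 (S (S (F 8 L) (F 8 L)) (S L L)))) (F 81 (S (T (F 8 L) (F 40 L)) (S L L))))) (T (V (T (F 321 (S (S L L) (S L L))) (V (F 321 (S L L)) (F 81 (S L (S (F 1 L) (F 1 L)))))) (F 81 (S (T (S L L) (S L L)) (T (V (S (F 1 L) (F 1 L)) L) (S L L))))) (V (S (F 81 (T (S L L) (S L L))) (V (F 273 (T L L)) (F 17 L))) (S (F 81 (T (S L L) L)) (T (F 81 (S L L)) (F 17 L)))))))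
noncomputable def v0_28 : Tr := (U (S (F 73 (T (K 2) (V (U (K 2) (S (K 2) (T (K 2) (V (T (K 2) (V L (K 2))) (K 2))))) (K 2)))) (T (K 5) (V (U (F 351 (S (K 1) (T (K 1) (V (T (K 1) (K 0)) (K 1))))) (S (T (K 5) (V (F 328 (V (S (T (K 1) (F 32 L)) (T L L)) (U (K 1) (S L L)))) (U (K 5) (T (K 5) (V (F 328 (S (F 32 L) L)) (F 72 L)))))) (T (V (U (K 5) (T (F 321 (T (K 1) (S (K 1) L))) (V (F 321 L) (F 320 L)))) (S (K 5) (T (K 5) (S (K 5) (F 272 L))))) (V (S (T (S (F 320 L) (F 320 L)) (S (F 264 L) (F 264 L))) (S (F 256 L) (F 256 L))) (S (U (K 5) (V (F 320 L) (F 336 (S L L)))) (T (F 272 L) (F 272 L))))))) (U (K 5) (S (T (K 5) (V (S (K 5) (S (K 5) (T (K 5) (F 80 L)))) (K 5))) (T (K 5) (V (S (T (K 5) (U (K 5) (F 80 L))) (T (F 272 L) (F 272 L))) (U (K 5) (S (V (F 80 L) (F 81 (S (K 2) L))) (T (F 80 L) (F 80 L))))))))))) (S (F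 73 (T (V (U (K 2) (S (T (K 2) (V L (S (K 2) L))) (V (T (F 17 (S (K 2) L)) (S (F 1 L) (F 1 L))) (T (K 2) (U (K 2) (S L L)))))) (U (K 2) (S (K 2) (T (K 2) (U (K 2) (T (K 2) (V L (S (K 2) (F 8 L))))))))) (V (U (S (V (T (S (K 2) L) (S L L)) (T (K 2) (S (F 32 L) L))) (T (U (K 2) (V (V (F 1 L) L) (V L (K 2)))) (V (V (S (F 1 L) L) (S L L)) (S (S L L) (T L L))))) (S (V (T L L) (T (S (F 32 L) L) L)) (T (V (V (F 1 L) L) (S L (S L L))) (V (T L L) (V L L))))) (U (S (F 40 (T (K 1) (T (K 1) (S (K 1) L)))) (T (K 2) (V (V (S (F 8 L) L) (S (F 40 L) (F 8 L))) (F 40 (U (K 1) (S L L)))))) (S (V (T (S (F 32 L) (F 32 L)) (F 32 L)) (F 40 (T L L))) (V (T (S L (T L L)) (T L (S (F 40 L) (F 8 L)))) (T (V L (F 40 (T (S L L) L))) (F 40 (S L L))))))))) (T v0_25 (V v0_26 v0_27))))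
noncomputable def v0_29 : Tr := (T (F 194 (V (T (S L (F 2 L)) (V L (S L (F 2 L)))) (T (S (U (K 0) (F 2 L)) (F 2 L)) (S (U (K 0) (V (F 2 L) (S (F 2 L) (F 2 L)))) (V (F 2 L) (S (F 2 L) (F 2 L))))))) (V (F 66 (U (S (T (S L (F 1 L)) (V L (S L L))) (T (F 1 L) (V (F 1 L) (S (F 4 L) (F 4 L))))) (T (S L (F 1 L)) (S (V L L) (S L L))))) (U (S (F 80 (T (U (K 1) (V (S (F 16 L) (F 17 L)) (S (K 1) (F 16 L)))) (V (T (S (F 16 L) (F 16 L)) (S (S (F 16 L) (F 16 L)) (S (F 16 L) (F 16 L)))) (T (S (S (K 1) L) (T (F 16 L) L)) (S (S L L) (S L L)))))) (T (F 82 (V (S (F 1 L) (F 1 L)) (T (F 1 L) (S L (F 1 L))))) (V (F 82 (T L (S L L))) (T (F 82 (S (S L L) L)) (S (F 80 (S L L)) (F 18 (T (F 2 L) L))))))) (S (T (F 66 (V L (T (F 4 L) (S (F 4 L) (F 4 L))))) (V (F 66 (S (S L L) (T (F 4 L) (F 4 L)))) (F 80 (T (S L (S (F 16 L) (F 16 L))) (S (S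 L L) L))))) (F 80 (T (V (F 17 L) (S (F 16 L) (F 17 L))) (V (T (F 16 L) (S (F 16 L) (F 16 L))) (T (S (F 16 L) (F 16 L)) (S L (S (F 16 L) (F 16 L)))))))))))
noncomputable def v0_30 : Tr := (U (S (K 5) (T (F 222 (V (V (S (K 0) (K 1)) (K 0)) (K 0))) (V (F 66 (U (K 5) (S (T (K 1) (V (K 5) (S (K 1) L))) (F 31 (T (K 0) (T (K 0) (K 0))))))) (F 80 (U (K 1) (S (K 1) (T (F 17 (V (S (K 3) L) (K 3))) (V (T (S (K 1) (F 16 L)) (S (S (F 16 L) (F 16 L)) (S (F 16 L) (F 16 L)))) (U (K 1) (T (S (K 1) (F 16 L)) (V (S (F 16 L) (F 16 L)) (S L L)))))))))))) (S (T (F 66 (V (U (K 1) (T (F 1 L) (S L (F 1 L)))) (U (K 1) (S (K 1) (U (K 1) (T (K 1) (T (F 1 L) L))))))) (V (F 66 (U (S (V (T (K 1) L) (K 1)) (T (S (K 1) L) (V L (S L L)))) (T (S (S L L) (S L L)) (S (V L (S L L)) (V L (S L L)))))) (U (F 80 (S (K 1) (T (K 1) (S (K 1) (T (K 1) (U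 (K 1) (V (F 16 L) L))))))) (S (T (F 66 (V (S (K 1) L) (K 1))) (V (T (F 66 (S L L)) (S (F 68 (S L L)) (F 66 L))) (U (K 5) (T (F 80 (S (K 1) L)) (F 68 (S L (S (F 4 L) (F 4 L)))))))) (T (V (F 66 (S L L)) (T (F 66 (S L (F 4 L))) (F 80 (S L L)))) (V (F 66 (T (S L (F 4 L)) (S L L))) (F 80 (T (S (S L L) (S L L)) (S (V L (S (F 8 L) (F 8 L))) (S L L)))))))))) v0_29))
noncomputable def v0_31 : Tr := (T (F 224 (V (T (S (F 8 L) (S (F 8 L) (F 8 L))) (S (V (F 8 L) (F 8 L)) (V (S (F 8 L) (F 8 L)) (S (F 8 L) L)))) (U (S (T (S L L) (V (F 8 L) (T (F 16 L) (S (F 16 L) (F 16 L))))) (T (S L L) (V L (S L L)))) (S (T L (V (F 8 L) (S (F 16 L) (F 16 L)))) (T (S L L) (V L (S L L))))))) (V (U (S (F 166 (T (V (K 4) (T (F 2 L) (F 2 L))) (V (S (F 2 L) (K 4)) (T L L)))) (V (K 0) (T (F 224 (S L (K 5))) (F 162 (S L (K 5)))))) (S (T (F 228 (V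 (F 8 L) (S (F 8 L) L))) (F 38 (V (F 4 L) (S (F 2 L) (F 2 L))))) (T (F 224 (V (S (F 8 L) (F 8 L)) (S (F 8 L) L))) (V (S (F 38 L) (F 36 L)) (F 162 (T L L)))))) (U (S (F 162 (T (V (T (F 2 L) (S (F 18 L) (F 2 L))) (T (S (F 2 L) (F 2 L)) (S (F 2 L) L))) (V (T L L) (S (T L L) (T L L))))) (T (V (T (F 224 L) (F 162 (S (F 2 L) L))) (F 162 (T (S L L) (S L L)))) (F 162 (V (T (S L L) (S L L)) (T (S L L) (S L L)))))) (F 162 (S (T (V (S (F 2 L) (F 2 L)) (T (S (F 2 L) (F 2 L)) L)) (V (S L L) (T L (S L L)))) (T (V (S L L) (T L L)) (V (S L (S L L)) (T (S L L) (S L L)))))))))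
noncomputable def v0_32 : Tr := (T (V (F 224 (U (K 5) (S (T L (V L L)) (T (S (F 1 L) (F 1 L)) (V (S L L) L))))) (U (S (F 224 (T (V (K 5) L) (U (K 5) (V L (S L L))))) (V (K 0) (T (F 224 L) (T (F 224 L) (F 160 L))))) (F 224 (S (T (S L L) (V L (S L L))) (T (S L L) (V (S L L) (S L L))))))) (V (U (K 0) (S (T (V (F 224 (S L L)) (S (F 224 L) (F 160 L))) (V (S (F 36 L) (F 32 L)) (S (F 34 L) (F 32 L)))) (T (V (S (F 96 L) (F 64 L)) (S (F 160 L) (S (F 160 L) (F 160 L)))) (V (S (F 32 L) L) (S (F 32 L) (S (F 32 L) (F 32 L))))))) (U (S (T (V (S (F 160 L) (K 0)) (T (F 160 L) (F 162 (S L L)))) (F 162 (V (U (K 5) (S L (S L L))) (T (S L L) (S L L))))) (T (V (K 0) (T (F 160 L) (S (F 162 L) (F 168 L)))) (V (K 0) (S (F 162 (T L (S (F 8 L) (F 8 L)))) (F 168 (T L (S (F 16 L) (F 16 L)))))))) (S (T (V (S (F 160 L) (F 160 L)) (S (F 162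 (S L L)) (F 160 L))) (F 162 (V (T (S L L) (S L L)) (T (S L L) (S L L))))) (T (V (S (F 160 L) (F 160 L)) (T (F 160 L) (F 160 L))) (V (T (S (F 162 L) (F 160 L)) (S (F 162 L) (F 160 L))) (T (S (F 162 L) (F 168 L)) (F 162 (S L (S (F 8 L) (F 8 L)))))))))))
noncomputable def v0_33 : Tr := (V (U (S (T (K 6) (V (V (S (F 8 L) (S (F 8 L) (K 1))) (U (K 6) (S (F 40 L) (F 40 L)))) (T (K 6) (S (F 40 L) (F 40 L))))) (T (V (K 1) (T (K 6) (S (K 6) (F 40 L)))) (V (S (V (K 1) (S (F 40 L) (F 40 L))) (K 1)) (T (S (F 40 L) (F 44 L)) (F 40 L))))) (S (T (V (T (S (F 137 (V (S (F 16 L) (F 16 L)) L)) (F 13 (S L L))) (V (F 13 (S L L)) (F 8 L))) (T (S (S (K 6) (F 40 L)) (F 40 L)) (S (F 40 L) (F 40 L)))) (V (S (S (F 8 L) (F 8 L)) (S (F 8 L) (F 8 L))) (S (T (F 40 L) (F 40 L)) (S (F 40 L) (F 40 L))))) (T (V (T (F 13 (S (S L L) (S L L))) (V (F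 13 (S L L)) (F 12 L))) (T (S (F 40 L) (F 40 L)) (S (F 40 L) (F 40 L)))) (V (V (T (F 13 (S L L)) (F 12 L)) (S (F 40 L) (F 40 L))) (S (S (F 40 L) (F 40 L)) (F 40 L)))))) (U (S (T (K 6) (V (S (K 6) (F 40 L)) (K 6))) (T (K 6) (V (S (F 40 L) (F 40 L)) (S (F 40 L) (F 40 L))))) (S (T (U (K 6) (V (S (S (K 6) (F 40 L)) (F 40 L)) (S (K 6) (F 40 L)))) (V (S (S (F 40 L) (F 40 L)) (F 40 L)) (S (T (F 40 L) (F 40 L)) (S (F 40 L) (F 40 L))))) (T (V (S (F 40 L) (F 40 L)) (S (F 40 L) (F 40 L))) (V (S (F 40 L) (F 40 L)) (S (F 40 L) (F 40 L)))))))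
noncomputable def v0_34 : Tr := (V (U (F 445 (S (T (K 0) (K 1)) (K 1))) (S (T (F 133 (V (K 5) (T (U (K 1) L) (V (S L (K 5)) (U (K 1) (S (F 4 L) (F 4 L))))))) (V (T (K 1) (S (F 5 L) (K 1))) (S (T (T (F 37 L) (F 44 (V (F 32 L) L))) (F 44 (V (S (F 32 L) (F 32 L)) L))) (T (F 37 (S L L)) (F 44 (V (S (F 32 L) (F 32 L)) L)))))) (F 37 (T (V (K 5) (T (K 5) (T (K 5) (S L (K 5))))) (V (K 5) (U (K 5) (T (S L (K 5)) (S L L)))))))) (U (S (K 6) (T (F 445 (V (K 1) (K 0))) (V (S (V (K 1) (F 40 L)) (K 1)) (T (S (K 6) (F 40 L)) (F 40 L))))) (S (T (V (U (K 6) (T (F 165 (S (K 1) (S (K 1) L))) (S (F 41 (S (K 2) L)) (F 37 L)))) (T (K 6) (S (K 6) (F 40 L)))) (V (T (S (F 40 L) (F 40 L)) (S (F 40 L) (F 40 L))) (S (F 40 L) (F 40 L)))) (T (V (F 37 (T (S (T (S (F 2 L) (F 2 L)) L) (T (F 2 L) L)) (S (T L L) (S L L)))) (S (T (F 32 L) (F 40 L))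 (T (F 32 L) (F 40 L)))) (V (T (V (S (F 44 L) (F 37 L)) (F 40 L)) (S (F 40 L) (F 44 (S L L)))) (S (F 40 L) (S (F 40 L) (F 40 L))))))))
noncomputable def v0_35 : Tr := (S (T (V (U (K 6) (S (F 141 (T (K 1) (V (T (K 1) (U (K 1) (S (S (K 1) L) (S L L)))) (K 1)))) (T (F 133 (V (S (K 1) (S L L)) (K 1))) (V (T (F 133 (U (K 5) (S (F 16 L) L))) (F 13 (U (K 5) (S (S (F 2 L) (F 2 L)) L)))) (T (F 13 (U (K 2) (S (K 2) (S L L)))) (S (F 40 L) (V (F 13 L) (F 41 L)))))))) (U (K 6) (S (K 6) (T (K 6) (U (K 6) (V (T (F 168 (S (K 1) L)) (F 40 L)) (S (K 6) (F 40 L)))))))) v0_33) (T v0_34 (V (U (S (T (F 44 (V (K 4) (T (K 4) (S L (K 4))))) (V (K 1) (S (F 40 L) (F 40 L)))) (T (K 1) (V (K 1) (V (K 1) (F 40 L))))) (S (T (V (F 13 (V (K 5) (U (K 5) (T L (S (F 8 L) (F 8 L)))))) (F 44 (S (T (S L L) L) (T L L)))) (V (F 44 (T (U (K 4) (S (S (F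 32 L) (F 32 L)) (F 32 L))) (S L (S (F 32 L) (F 32 L))))) (S (F 40 L) (F 40 L)))) (T (F 44 (V (K 4) (T (U (K 4) (S (S (F 32 L) (F 32 L)) (F 32 L))) (S L (S (F 32 L) (F 32 L)))))) (V (F 45 (S (T (S L (K 4)) L) (K 4))) (V (F 44 (S L L)) (F 40 L)))))) (U (S (T (V (S (F 40 L) (F 40 L)) (F 40 L)) (V (F 40 L) (F 40 L))) (T (V (S (F 40 L) (F 40 L)) (F 40 L)) (V (S (F 40 L) (F 44 L)) (F 40 L)))) (S (T (V (S (F 40 L) (F 40 L)) (F 40 L)) (V (F 40 L) (F 40 L))) (T (V (S (F 40 L) (F 40 L)) (F 40 L)) (V (F 40 L) (F 40 L))))))))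
noncomputable def v0_36 : Tr := (U (S (T (F 137 (T (K 1) (S (K 1) (U (K 1) (V L (S (K 1) (F 4 L))))))) (V (V (F 137 (T (S L L) (S L L))) (F 41 (T (S (S (K 2) (F 2 L)) (F 2 L)) (S (S (F 2 L) (F 2 L)) L)))) (F 168 (S (U (K 1) (T (S (K 1) (F 32 L)) (S (F 32 L) (F 32 L)))) (T (V (F 32 L) (F 32 L)) L))))) (T (V (S (U (K 6) (T (F 161 L) (F 137 (S L (F 4 L))))) (V (F 129 L) (F 161 (T L (S (F 8 L) (F 8 L)))))) (F 169 (T (U (K 1) (S (S (K 1) L) (S L L))) (S (V L L) (V (S L L) L))))) (V (T (S (V (F 137 L) (F 41 L)) (F 41 (S L L))) (F 41 (S L L))) (S (S (F 40 L) (F 40 L)) (F 40 L))))) (S (T (F 137 (V (T (S (S L L) (S L L)) (S (S L L) (S L L))) (T (V (S L L) (S (S (F 4 L) (F 4 L)) (S (F 4 L) (F 4 L)))) (S (V L (S (F 4 L) (F 4 L))) (V (F 4 L) (F 4 L)))))) (V (S (F 137 (T (S L L) (S L L))) (T (F 137 (S L L)) (F 41 L))) (F 41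 (S (T (V (F 2 L) (F 2 L)) (V (F 2 L) (F 2 L))) (T (V (F 2 L) (F 2 L)) L))))) (T (V (T (S (F 129 L) (F 161 L)) (S (F 137 (S L L)) (T (F 161 L) (F 41 L)))) (T (F 161 (S (V (S (F 8 L) (F 8 L)) (F 8 L)) (V L (S (F 8 L) (F 8 L))))) (F 41 (S (V (F 2 L) (F 2 L)) (S L L))))) (F 41 (V (T (S (S L L) L) (S L L)) (T (S L L) (S L L)))))))
noncomputable def v0_37 : Tr := (V (U (S (T (V (T (S (F 321 (V (F 16 L) L)) (F 261 L)) (S (F 257 L) (F 261 (S L L)))) (S (T (F 257 L) (F 257 L)) (T (F 257 L) (F 257 L)))) (V (T (S (F 257 L) (F 257 L)) (S (F 257 L) (F 257 L))) (S (V (F 257 L) (F 272 L)) (F 273 (T L L))))) (T (V (F 261 (T (S L L) (S L L))) (T (S (F 257 L) (F 273 L)) (F 273 (S L L)))) (V (T (F 261 (S L L)) (F 273 (S L (S L (F 16 L))))) (V (F 273 (S L L)) (F 272 L))))) (S (T (V (T (F 321 (V (S (F 16 L) (F 16 L)) L)) (F 261 (S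 L L))) (T (S (F 257 L) (F 257 L)) (S (F 257 L) (F 273 L)))) (V (T (F 257 L) (S (F 257 L) (F 257 L))) (T (S (F 257 L) (F 273 L)) (F 273 (S (S L L) L))))) (T (V (F 261 (T (S L L) (S L L))) (T (F 257 L) (F 273 (S L L)))) (V (S (F 257 L) (F 261 (S L L))) (F 273 (T (S L L) (S L L))))))) (U (S (T (V (T (F 273 (S (S L L) (S L L))) (S (F 272 L) (F 273 L))) (S (T (F 336 (V L (S (F 32 L) (F 32 L)))) (F 273 (S L L))) (S (F 272 L) (F 272 L)))) (V (S (T (F 272 L) (F 272 L)) (F 272 L)) (S (V (F 273 (T L L)) (F 17 L)) (S (F 272 L) (F 272 L))))) (T (V (S (F 272 L) (F 272 L)) (S (F 272 L) (F 272 L))) (V (S (F 272 L) (F 273 L)) (S (F 272 L) (F 273 L))))) (S (T (F 273 (V (S (T (S L L) (S L L)) (T L L)) (S (T (V (F 2 L) (F 2 L)) (S L L)) (T L L)))) (V (F 273 (S (T (S L L) (S L L)) (T L L))) (S (T (F 273 (S L L)) (F 17 L)) (F 273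 (T L L))))) (F 273 (T (V (T (S L L) (S L L)) (S (S L L) (S L L))) (V (S (S L L) L) (S (S L L) L)))))))
noncomputable def v0_38 : Tr := (U (S (T (V (T (F 161 (V (S (F 16 L) (F 16 L)) (S L L))) (S (S (F 41 L) (F 161 L)) (F 37 (S L L)))) (T (F 161 (S (V L (S (F 8 L) (F 8 L))) (S L L))) (F 41 (S (S L L) (S L L))))) (V (F 41 (T (S (S L L) (S L L)) (S L L))) (S (F 40 L) (S (F 40 L) (F 40 L))))) (T (V (F 37 (T (S (T (F 2 L) (F 2 L)) L) (S (S L L) L))) (T (S (F 33 L) (F 33 L)) (S (F 41 (S L L)) (F 33 L)))) (V (T (S (S (F 41 L) (F 37 L)) (F 37 L)) (F 41 (S L (S (F 16 L) (F 16 L))))) (T (F 41 (S L L)) (F 40 L))))) (S (T (V (T (V (F 133 L) (F 161 (S L (F 16 L)))) (S (F 33 L) (F 37 L))) (T (S (F 161 (S L L)) (F 33 L)) (F 41 (S L L)))) (F 41 (V (T (S L L) (S L L)) (T (S L L) (S L L))))) (T (V (F 37 (T (S (S (F 2 L) (F 2 L))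 (F 2 L)) (S L L))) (T (S (F 33 L) (F 37 L)) (S (F 41 L) (F 33 L)))) (V (T (F 37 (S L L)) (F 41 (S L L))) (F 41 (T (S L L) (S L L)))))))
noncomputable def v0_39 : Tr := (V (U (S (T (V (F 13 (T (S L L) (S L (S (F 8 L) (F 8 L))))) (F 41 (T (V (S (F 16 L) (F 16 L)) (S L (F 16 L))) (S L L)))) (V (S (V (F 13 L) (F 41 L)) (F 45 (T (S L L) L))) (F 41 (T (S L L) (S L L))))) (T (F 37 (V (T (S L L) (S (S (F 16 L) (F 16 L)) (S (F 16 L) (F 16 L)))) (T (S (S (F 16 L) (F 16 L)) (S (F 16 L) (F 16 L))) (S (F 16 L) (F 16 L))))) (F 41 (V (T (S (F 16 L) (F 16 L)) (S (F 16 L) (F 16 L))) (T (S (F 16 L) (F 16 L)) L))))) (S (T (V (F 13 (T (S L L) (S L L))) (T (V (F 13 L) (F 41 L)) (F 41 (S L (F 16 L))))) (V (F 13 (S (T L (F 8 L)) (T (F 8 L) (F 8 L)))) (F 41 (S (S L L) L)))) (T (F 37 (V (T (S L L) (S (S (F 16 L) (F 16 L)) L)) (T (S (S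 (F 16 L) (F 16 L)) L) (S (F 16 L) (F 16 L))))) (F 41 (V (T (S (F 16 L) (F 16 L)) (S (F 16 L) (F 16 L))) (S L (T (F 16 L) (F 16 L)))))))) (U (S (T (V (T (F 41 (S L L)) (F 40 L)) (F 41 (S L L))) (V (F 40 L) (F 40 L))) (T (V (F 41 (T (S L L) (S L (F 16 L)))) (F 40 L)) (V (F 40 L) (F 40 L)))) (F 41 (S (T (V (T (S L L) L) (S L L)) (V (S L L) (S L L))) (T (V (S L (S L L)) (S L L)) (V (S L L) L))))))
noncomputable def v0_40 : Tr := (S (T (F 21 (V (U (S (T (V (F 133 (S L L)) (U (K 6) (T (F 133 L) (F 137 (V (F 16 L) L))))) (F 137 (V (T (S (F 16 L) (F 16 L)) (S (S (F 16 L) (F 16 L)) (S (F 16 L) (F 16 L)))) (S (T (S L L) (S L L)) (T (S L L) (S L L)))))) (T (F 133 (V (S L L) (T (S L L) (S L L)))) (V (T (F 133 (S L L)) (F 13 (S L L))) (T (S (F 137 (V (F 16 L) L)) (F 13 (S L L))) (S (F 9 L) (F 13 (S L L))))))) (S (T (V (F 133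 L) (T (F 133 L) (F 137 (V (S (F 16 L) (F 16 L)) L)))) (F 137 (V (T (S (F 16 L) (F 16 L)) (S (F 16 L) (F 16 L))) (T (S L L) (S L L))))) (T (F 133 (V (S L L) (T L (S L L)))) (V (T (F 133 L) (F 13 (S L L))) (T (V (F 133 L) (F 137 (S L L))) (F 13 (S L L))))))) v0_36)) (F 276 v0_37)) (F 21 (T (V (U (S (T (F 133 (V (S L L) (T L (S L L)))) (V (T (F 133 (S L L)) (S (F 13 L) (F 37 L))) (T (S (F 5 L) (F 37 L)) (V (S (F 13 L) (F 37 L)) (F 41 (S L (S (F 16 L) (F 16 L)))))))) (T (V (F 133 (S L L)) (F 37 (T (S (F 2 L) (F 2 L)) (S L L)))) (V (T (F 5 L) (F 37 (S L L))) (F 37 (T (S L L) (S L L)))))) (S (T (F 133 (V (S L L) (T L (S L L)))) (V (S (F 5 L) (F 5 L)) (T (F 5 L) (S (F 13 L) (F 37 L))))) (T (F 133 (V (S L L) (S L (T (F 4 L) (F 4 L))))) (V (S (F 5 L) (F 5 L)) (F 37 (T (S L L) (S L L))))))) v0_38) v0_39)))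
noncomputable def v0_41 : Tr := (T (F 2069 (V (F 66 (U (F 9 (S (T (V (S L L) (K 3)) (F 6 (V (K 1) (U (K 0) (S (V (K 1) (K 0)) (K 1)))))) (T (V (U (K 0) (S L L)) (K 0)) (K 0)))) (S (T (F 9 (V L (S L L))) (V (S (F 8 L) (T (F 9 L) (F 8 L))) (T (S (F 8 L) L) (S (S (F 8 L) L) (S L L))))) (T (V (F 9 (S L L)) (S (F 9 L) (F 1 L))) (V (T (F 9 (V L L)) (S (T (F 9 L) (F 8 L)) (S (F 1 L) (F 1 L)))) (T (S (F 1 L) (F 1 L)) (S (S L L) (V (F 1 L) (F 1 L))))))))) v0_30)) (V (F 2561 (U (S (T (F 224 (V (K 5) (U (K 5) (S (V (K 5) (T L (U (K 5) (S (F 16 L) (F 16 L))))) (F 31 (T (K 0) (K 0))))))) (F 162 (V (K 5) (U (F 31 (S (T (K 0) (K 0)) (K 0))) (S (T (V (K 5) (T (U (K 5) (S (F 2 L) (F 2 L))) (S L L))) (V (T (K 5) (S L (K 5))) (S (T (S L L) (S L L)) (T (S L L) (S L L))))) (T (T (K 5) (V (K 5) (S L (K 5)))) (V (K 5) (U (K 5) (T (S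 L (K 5)) (S L L)))))))))) (F 510 (T (K 0) (K 0)))) (S v0_31 v0_32))) (U (F 21 v0_35) v0_40)))
noncomputable def v0_42 : Tr := (V (F 36882 (U (F 341 (S (F 107 (T (K 0) (V (K 0) (K 1)))) (T (F 99 (V (K 0) (U (K 0) (S (F 2 (T (K 1) (K 0))) (T (K 1) (F 2 (V (K 1) (K 0)))))))) (V (U (K 4) (S (F 107 (T (K 0) (V (K 0) (K 1)))) (T (F 107 (V (K 0) (U (K 0) (S (K 0) (T (K 0) (V (K 0) (K 1))))))) (V (U (K 4) (S (T (K 4) (V (S (K 4) L) (K 2))) (T (V L (S (K 4) L)) (V L (S (K 2) (F 2 L)))))) (K 2))))) (K 2))))) v0_22)) (F 4133 (U (F 341 (S (F 45 (T (K 1) (V (U (K 1) (S (F 4 (T (K 0) (K 1))) (F 1 (T (K 0) (V (K 0) (K 1)))))) (K 1)))) (T (F 109 (V (K 1) (K 0))) (V (K 1) (U (K 4) (S (F 109 (T (K 0) (V (U (K 0) (S (K 0) (T (K 0) (V (K 1) (K 0))))) (K 0)))) (T (F 109 (V (K 1) (K 0))) (V (K 1) (U (K 4) (S (T (K 4) (V (S (K 4) L)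 L)) (T (V (K 1) (S (K 4) L)) (V (S (F 4 L) (K 1)) L)))))))))))) (S (T (F 2077 (V (F 10 (U (S (K 1) (T (K 1) (V (S (S L L) (K 4)) (K 1)))) (S (T (V L (K 1)) (V (S (F 8 L) (F 8 L)) (U (K 1) (T (F 8 L) (S (F 8 L) (F 8 L)))))) (T (V (F 1 L) (S L L)) (V (S L L) (T (S L L) (S L (S L L)))))))) (U (K 5) (S (K 5) (T (K 5) (V (U (K 5) (S (F 14 (V (T (K 1) (S (K 1) L)) (K 1))) (T (S (K 5) (F 2 L)) (V (F 2 L) (T (F 2 L) (F 6 (S L L))))))) (U (K 5) (S (K 5) (T (K 5) (V (V (S (K 5) (S (K 5) (F 4 L))) (K 5)) (K 5))))))))))) (V (F 2068 (U v0_23 v0_24)) (F 276 v0_28))) v0_41))))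
noncomputable def v0_43 : Tr := (V (U (S (T (V (K 4) (U (K 4) (S (T (F 1 L) (F 1 L)) (V (K 4) (S (F 1 L) (K 4)))))) (K 4)) (F 47 (T (V (K 0) (U (K 0) (S (K 0) (K 0)))) (K 0)))) (S (T (V (V (S (F 3 L) (F 2 L)) (S (F 3 L) (S (F 3 L) (F 2 L)))) (S (S (F 1 L) (F 1 L)) (V (S (F 3 L) (F 1 L)) (F 1 L)))) (V (F 47 (S (S (K 0) (K 0)) (K 0))) (V (T (F 1 L) (F 1 L)) (S (F 1 L) (F 1 L))))) (T (V (V (S (F 2 L) (F 34 (T L L))) (T (S (F 2 L) (F 2 L)) (S (F 2 L) (S (F 2 L) (F 2 L))))) (U (S (V (S (F 2 L) L) (S (F 1 L) L)) (V (T (F 2 L) (K 4)) (T L L))) (V (S L (S (F 2 L) L)) (S (F 1 L) (S L L))))) (V (K 4) (U (K 4) (S (T (S (F 1 L) (F 1 L)) (F 1 L)) (V (K 4) (T (F 1 L) (K 4))))))))) (U (S (F 5 (T (V (U (K 2) (T (K 2) (S (K 2) L))) (K 2)) (V (S (S (K 0) L) (V (K 1) L)) (K 0)))) (T (V (U (K 3) (S (T (K 3) (F 1 L)) (V (T L (K 4))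 (F 5 (T (K 2) L))))) (F 5 (T (K 2) (S (K 2) L)))) (F 5 (V (F 13 (U (K 0) (S (K 0) (K 0)))) (S L (S L L)))))) (S (T (V (V (S (F 1 L) (F 1 L)) (F 1 L)) (F 5 (S L L))) (F 5 (V (V (S L L) L) (S L L)))) (T (V (S (T (S (F 1 L) (F 1 L)) (F 1 L)) (V (T (S (F 1 L) L) (S (F 5 L) (F 1 L))) (T (F 1 L) (F 5 L)))) (F 5 (S L (S L L)))) (V (S (F 5 (T L L)) (V (T (F 1 L) (F 5 L)) (F 5 L))) (F 5 (S L L)))))))
noncomputable def v0_44 : Tr := (S (T (V (U (S (F 3 (T (V (V (S L L) (S L L)) (F 10 (T (K 0) (K 1)))) (F 12 (V (S (K 1) (K 0)) (K 1))))) (T (V (F 3 (V (K 1) (S L (K 1)))) (T (K 3) (V (F 1 L) (F 1 L)))) (V (K 4) (S (K 5) (V (K 4) (F 1 L)))))) (S (F 3 (T (V L (S L L)) (V (S L L) (S L L)))) (T (F 3 (V (S L L) (T L L))) (V (F 3 (V L L)) (S (F 1 L) (F 1 L)))))) (U (F 23 (S (K 0) (T (K 1) (K 0)))) (S (T (V (S (S (F 1 L) (F 1 L))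 (F 1 L)) (K 5)) (K 5)) (T (V (S (F 1 L) (F 1 L)) (F 5 (S (S L L) L))) (F 5 (V (S L L) (K 0))))))) (V (U (F 15 (S (K 0) (T (V (K 1) (S (K 0) (K 1))) (K 1)))) (S (F 3 (T (V (V L L) (K 0)) (F 12 (V (S (K 1) (K 0)) (K 1))))) (T (V (F 47 (S (K 0) (K 0))) (T (S (F 3 L) (F 5 L)) (F 5 (S L L)))) (F 15 (V (K 1) (S (K 0) (F 1 (S (K 0) (K 0))))))))) (F 5 (U (K 0) (S (K 0) (T (V (S (K 0) L) (K 0)) (K 0))))))) (T v0_43 (V (U (K 4) (S (T (V (K 4) (S (T (F 1 L) (K 4)) (K 4))) (K 4)) (K 4))) (F 5 (U (F 12 (S (T (V (S (K 1) (K 0)) (K 1)) (K 1)) (T (V (K 0) (S (K 1) (F 2 (S (K 0) (K 0))))) (V (K 0) (S (K 1) (K 0)))))) (S (T (V (S L L) L) (V (S L (S L (K 1))) (K 0))) (T (V (S (S L L) (V (K 1) L)) (S L L)) (V (F 13 (S (K 0) (K 0))) (S L L)))))))))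
noncomputable def v0_45 : Tr := (V (F 72 (U (K 4) (S (T (V (F 36 (U (K 0) (S (K 0) (T (V (S (K 0) L) (K 0)) (K 0))))) (U (F 9 (S (T (V (K 1) (V (K 1) (S L (K 1)))) (K 1)) (K 1))) (S (F 9 (T (V (T L L) L) (V (K 1) (S L L)))) (T (V (V (K 4) (F 8 L)) (S (F 9 L) (F 8 L))) (K 4))))) (F 47 (V (K 0) (U (K 0) (S (K 0) (K 0)))))) (T (V (U (F 36 (S (K 0) (T (U (K 2) (V (S (K 2) L) (S (K 0) L))) (V (S (K 0) L) (K 0))))) (S (T (V (F 36 (S L L)) (S (F 40 L) (F 36 L))) (F 36 (V L (K 0)))) (F 36 (T (V (S L L) (S L L)) (V L (S L L)))))) (U (K 4) (S (T (U (K 4) (V (F 40 L) (S (F 8 L) (F 40 L)))) (K 4)) (T (V (S (F 40 L) (F 32 L)) (F 40 (U (K 0) (S L L)))) (K 4))))) (F 36 (V (U (K 0) (S (K 0) (T (V L (K 0)) (V (S (K 0) L) (K 0))))) (K 0))))))) (F 12 (U (F 7 (S (T (V (U (K 2) (S (F 2 (T (K 0) (K 1))) (F 1 (T (V (K 1) (K 0)) (K 1)))))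 (K 0)) (F 4 (V (U (K 1) (S (K 1) (K 0))) (K 1)))) (T (F 1 (V (K 1) (U (K 0) (S (K 0) (T (K 0) (V (K 1) (K 0))))))) (F 4 (V (K 0) (U (K 1) (S (K 1) (K 0)))))))) v0_44)))
noncomputable def v0_46 : Tr := (U (F 40 (S (F 20 (T (V (S (T (K 1) L) (U (K 0) (T L L))) (F 14 (S (S (K 0) (K 0)) (K 0)))) (V (S L (T L L)) (F 6 (S (K 0) (K 1)))))) (T (V (U (F 23 (S (F 2 (S (K 0) (K 0))) (T (T (K 1) (K 0)) (K 0)))) (S (F 20 (T (V (S L (T L L)) L) (V L L))) (T (V (S (T (S (F 4 L) (F 4 L)) (F 20 (U L L))) (T (V L (F 4 L)) (S (F 4 L) L))) (S (F 20 (S L L)) (T (F 4 L) (F 4 L)))) (V (S (F 20 (T L L)) (T (S (F 16 L) (F 16 L)) (F 16 L))) (F 31 (S (K 0) (K 0))))))) (F 31 (U (K 0) (S (K 0) (K 0))))) (V (U (K 5) (S (F 20 (T (S L L) L)) (V (T (S (F 20 L) (T (F 16 L) (F 20 L))) (F 61 (S (K 0) (K 0)))) (F 31 (S (K 0) (K 0)))))) (K 5)))))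 (S (F 58 (T (V (S L (T (S L L) L)) (S L (S L L))) (V (S L L) (S L L)))) (T (V (F 40 (U (S (F 20 (T (V (S L L) L) (S L L))) (T (S (V (T (F 4 L) (F 20 L)) (F 20 L)) (V (S (T (F 4 L) (F 4 L)) L) (F 4 L))) (V (S (F 20 L) (T (F 16 L) (F 16 L))) (F 20 (S L L))))) (S (F 20 (T (V L L) L)) (T (S (T (F 4 L) (F 20 (V L L))) (V (S (F 4 L) L) (F 4 L))) (V (S (F 20 L) (F 16 L)) (F 20 (S L L))))))) (F 50 (S (V (S (F 4 L) (F 4 L)) L) (T (V (U (S (F 4 L) (F 4 L)) (S (F 4 L) (F 4 L))) L) (V (S (F 4 L) (F 4 L)) (F 4 L)))))) (F 10 (V (S (F 12 (V (T L L) L)) (T (V (S (F 12 (S L L)) (T (F 4 L) (F 4 L))) (F 12 (U L L))) (S (F 8 L) (V (F 8 L) (F 12 L))))) (S (F 12 (S L L)) (S (F 8 L) (T (F 8 L) (F 8 L)))))))))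
noncomputable def v0_47 : Tr := (T (V v0_46 (F 18 (U (S (F 30 (T (V (S (S (K 1) (K 0)) (K 0)) (T (V (S (K 1) (K 0)) (K 1)) (K 1))) (K 1))) (T (F 30 (V (K 0) (U (K 0) (S (S (T (K 0) (K 1)) (K 0)) (K 0))))) (V (K 5) (U (K 0) (S (K 0) (T (K 5) (S (K 0) L))))))) (S (T (V (S (F 4 L) (S (F 4 L) (F 4 L))) (T (F 6 (S L L)) (V (F 4 L) (F 6 (S L L))))) (V (S (T (F 4 L) (F 4 L)) (T (F 4 L) (F 8 L))) (U (K 0) (S (T (F 4 L) (K 0)) (T (S (F 4 L) (F 4 L)) (S (K 0) L)))))) (T (V (S (T (F 4 L) (F 4 L)) (T (V (F 4 L) (F 4 L)) (S (F 4 L) (F 4 L)))) (U (S (V (F 4 L) (S (F 6 L) (F 4 L))) (T (S (F 4 L) (F 4 L)) (S (F 4 L) L))) (S (T (F 6 L) (F 4 L)) (T (F 4 L) L)))) (V (S (T (F 8 L) (F 8 L)) (T (S (F 8 L) (F 8 L)) (F 8 L))) (U (S (T (S L L) (S (K 0) L)) (T (S L L) (S L L))) (S (T L (S L L)) (T L L))))))))) (F 18 (V (U (S (T (V (S (F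 12 L) (S (F 12 L) (F 8 L))) (K 0)) (F 60 (V (S (K 1) (K 0)) (K 1)))) (T (V (U (K 1) (S (S (F 12 L) (F 8 L)) (F 61 (S (K 0) (K 0))))) (K 5)) (F 24 (V (K 2) (U (K 0) (S L L)))))) (S (T (S (F 12 (V L L)) (V (F 12 L) (F 8 L))) (V (S (F 12 L) (F 24 L)) (S (K 0) (F 8 L)))) (T (V (S (S (F 8 L) (F 8 L)) (T (S (F 8 L) (F 8 L)) (F 8 L))) (S (F 8 L) (F 8 L))) (S (V (F 8 L) (F 24 L)) (V (F 8 L) (F 24 L)))))) (U (S (K 0) (T (V (U (K 0) (S (K 0) (S (F 8 L) (F 8 L)))) (K 0)) (K 0))) (S (T (V (S (K 0) (T (F 8 L) (S (K 0) (F 8 L)))) (K 0)) (K 0)) (T (V (S (S (F 8 L) (F 8 L)) (S (F 8 L) (F 8 L))) (U (S (K 0) (V (S (F 8 L) (F 24 L)) (T L (K 0)))) (S (T (S L (F 8 L)) (S (K 0) (F 8 L))) (V (F 8 L) (T (F 8 L) (F 8 L)))))) (V (S (T (F 8 L) (F 24 (S (K 3) L))) (F 24 (S L L))) (F 24 (U (K 3) (S (K 3) (V L (S (K 3) L))))))))))))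
noncomputable def v0_48 : Tr := (T (F 84 (V (U (S (T (V (V (U (K 2) (S (S (F 2 L) (F 2 L)) (F 128 L))) (K 2)) (K 2)) (F 251 (V (S (K 0) (K 0)) (K 0)))) (T (V (S (T (F 128 L) (F 130 (V L (K 4)))) (S (F 128 L) (F 128 L))) (K 2)) (V (V (U (K 6) (T (F 128 L) (F 191 (S (K 0) (K 0))))) (K 2)) (K 2)))) (S (T (V (S (V (S (F 1 L) (F 1 L)) (F 3 (T L L))) (T L (V (F 128 L) (F 3 L)))) (F 3 (T (S L (S L L)) (S L (S L L))))) (V (S (F 3 (T (S L L) (V (S (F 16 L) (F 16 L)) (F 16 L)))) (T (V (F 2 L) (F 3 L)) (F 3 (S L L)))) (F 3 (U (K 5) (S (F 16 L) (T L (K 5))))))) (T (V (S (T (F 128 L) (F 128 L)) (S (F 128 L) (F 128 L))) (S (F 3 (T (S L L) (S L L))) (V (F 130 (T L L)) (F 3 (T L L))))) (V (S (V (S (F 2 L) (F 128 L)) (T (F 2 L) (F 3 L))) (T (F 128 L) (F 130 (S L L)))) (F 3 (U (K 5) (S (T L L) (T L L)))))))) (F 251 (U (K 0) (S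 (K 0) (T (S (K 0) (K 0)) (K 0))))))) (V (U (F 1789 (S (K 0) (T (K 0) (K 1)))) (S (F 1748 (T (V (S (T (S L L) L) (U (K 3) (T (S L L) L))) (F 30 (S (K 0) (K 0)))) (F 22 (V (F 2 (S (K 0) (K 0))) (K 1))))) (T (V (S (F 1620 (T (S L (S L L)) (U (K 4) (S (F 2 L) (F 2 L))))) (T (F 84 (V (F 128 L) (F 3 L))) (F 1616 (U (K 5) (V (F 16 L) (F 2 L)))))) (F 1620 (U (K 0) (V (T (S (K 0) L) (F 62 (S (K 0) (K 0)))) (K 0))))) (F 1744 (S (F 46 (V (K 0) (K 1))) (V (T (S (K 4) L) (K 4)) (K 0))))))) (K 8)))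
noncomputable def v0_49 : Tr := (U (F 85 (S (F 59 (T (V (T (V (F 2 (S (K 0) (K 0))) (K 1)) (K 0)) (K 1)) (K 0))) (T (V (T (S L (F 2 L)) (U (K 6) (S (F 2 L) (F 2 L)))) (K 2)) (F 59 (V (F 2 (S (K 0) (K 0))) (K 1)))))) (S (T (V (F 81 (T (S (F 66 (S L L)) (F 64 L)) (S (V (F 66 L) (F 3 (S L L))) (F 66 (S L L))))) (F 1616 (U (K 0) (S (T (F 16 L) (F 2 L)) (T (F 80 (S L L)) (F 64 L)))))) (F 1616 (V (S (U (K 5) (V (F 66 (T (S L L) (K 0))) (S (F 2 L) (F 2 L)))) (U (K 5) (T (S (F 64 L) (F 64 L)) (F 66 (S L L))))) (U (K 0) (V (S (F 2 L) (F 66 (T L L))) (K 0)))))) (F 81 (T (V (T (S (F 64 L) (F 65 L)) (S (F 64 L) (F 64 L))) (T (F 66 (S (V L (S (F 32 L) (F 32 L))) (V L (S (F 32 L) (F 32 L))))) (F 3 (S (S L L) (S L L))))) (V (T (S (V (F 64 L) (F 3 (S L L))) (S (F 64 L) (F 64 L))) (S (V (F 1 L) (F 3 (S (F 16 L) L))) (V (F 1 L)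 (F 3 (S L L))))) (F 3 (T (U (K 5) (S L L)) (U (K 5) (S (F 16 L) (S (F 16 L) (F 16 L)))))))))))
noncomputable def v0_50 : Tr := (F 1108 (U (S (T (V (S (V L (S (F 1 L) (F 1 L))) (T L (S (F 1 L) (F 1 L)))) (T (S (F 1 L) (F 1 L)) (S (F 17 L) (F 1 L)))) (V (S (T (F 1 L) (F 5 (S L L))) (T (S (F 1 L) (F 1 L)) (F 1 L))) (S (F 5 (S L L)) (T (F 1 L) (F 5 L))))) (T (V (S (T (F 64 L) (S (F 64 L) (F 64 L))) (T (F 64 L) (F 64 L))) (S (T (F 1 L) (F 1 L)) (T (S (F 1 L) (F 65 L)) (F 1 L)))) (V (S (V L (S (F 1 L) (F 1 L))) (T (F 64 L) (S (F 1 L) (F 64 L)))) (S (T (F 1 L) (F 1 L)) (T (F 1 L) (F 1 L)))))) (S (T (V (S (T (F 1 L) (F 1 L)) (T L (F 1 L))) (S (F 1 L) (S (F 1 L) (F 1 L)))) (S (V (T (F 1 L) (F 5 L)) (F 5 L)) (V (T (F 1 L) (F 1 L)) (F 1 L)))) (T (V (S (T (F 64 L) (F 64 L)) (S (F 64 L) (F 64 L))) (S (S (F 1 L) (F 1 L)) (S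 (F 1 L) (F 1 L)))) (V (S (T (F 1 L) (F 1 L)) (T (F 64 L) (F 64 L))) (S (S (F 1 L) (F 1 L)) (T (F 1 L) (F 1 L))))))))
noncomputable def v0_51 : Tr := (V (U (S (T (F 18 (V (S (T L L) (T (S L L) (S L L))) (S L (S L L)))) (V (S (F 2 L) (F 2 L)) (F 2 L))) (T (V (S (T (S (F 16 L) (F 16 L)) (F 18 (S L (S L L)))) (T (S (F 16 L) (F 16 L)) (S (F 16 L) (F 16 L)))) (T (S (F 18 (S L L)) (F 16 L)) (S (F 18 L) (F 2 L)))) (V (S (S (F 2 L) (F 2 L)) (T (F 2 L) (F 2 L))) (S (F 2 L) (F 2 L))))) (S (T (F 18 (V (S (S L L) (T (S L L) L)) (S L L))) (V (S (F 18 L) (F 2 L)) (F 2 L))) (T (V (S (T (F 16 L) (F 2 L)) (T (F 16 L) (F 16 L))) (S (F 2 L) (S (F 2 L) (F 2 L)))) (V (S (F 2 L) (S (F 2 L) (F 2 L))) (S (F 2 L) (F 2 L)))))) (U (S (F 10 (T (V (S (F 4 L) L) L) (S L L))) (T (V (S (F 2 L) (S (F 2 L) (F 2 L))) (S (F 10 L) (F 2 L))) (V (S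 (F 10 L) (F 2 L)) (F 10 L)))) (S (F 10 (T (V L L) L)) (T (V (S (F 2 L) (F 2 L)) (F 2 L)) (S (F 10 L) (F 2 L))))))
noncomputable def v0_52 : Tr := (V (F 84 (U (S (T (F 129 (V (T L (S L L)) (S (T L (S (F 32 L) (F 32 L))) (S L L)))) (V (F 129 (S (T L L) (S L L))) (F 3 (S (T (S (F 1 L) (F 1 L)) L) (T (S (F 1 L) (F 1 L)) (S (F 1 L) (F 1 L))))))) (T (V (F 128 L) (F 129 (S L L))) (F 129 (V (S (S L L) L) (T (S (F 32 L) (F 32 L)) (S (S (F 32 L) (F 32 L)) L)))))) (S (T (F 129 (V (S L L) (S (T L (S (F 32 L) (F 32 L))) (S L L)))) (V (F 129 (T (S L L) (S L L))) (F 3 (S (T L L) (T (S (F 1 L) (F 1 L)) (S (F 1 L) (F 1 L))))))) (F 129 (T (V (S L L) (S L L)) (V (S L L) (T (S (F 32 L) (F 32 L)) (S (S (F 32 L) (F 32 L)) L)))))))) (F 1616 (U (S (T (V (S (T (F 16 L) (F 16 L)) (F 80 (T L (S L L)))) (S (T (F 16 L) (F 16 L)) (T (F 16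 L) (F 16 L)))) (V (S (T (F 16 L) (F 16 L)) (T (F 80 (S L L)) (F 16 L))) (S (S L L) (S L L)))) (T (F 80 (V (T (S L L) (S L L)) (S (T (S L L) (S L L)) (T L (S L L))))) (V (F 80 (T (S (S L L) L) (S (S L L) (S L L)))) (T (S (F 16 L) (F 80 (S L L))) (S L (F 64 L)))))) (S (T (V (S (S (F 16 L) (F 16 L)) (F 80 (T L (S L L)))) (S (S (F 16 L) (F 16 L)) (S (F 16 L) (F 16 L)))) (V (S (T (F 16 L) (F 16 L)) (T (F 16 L) (F 16 L))) (S L L))) (T (V (F 80 (T (S L L) (S L L))) (T (F 80 (S L L)) (S (F 16 L) (F 80 (S L L))))) (V (T (F 80 (S (S L L) L)) (S (F 64 L) (F 64 L))) (S (S L L) (T (F 64 L) (F 64 L)))))))))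
noncomputable def v0_53 : Tr := (U (S (T (V (T (F 160 (S (V L (S (F 32 L) (F 32 L))) L)) (S (V (F 160 L) (F 129 L)) (V (F 160 L) (F 129 L)))) (S (S (F 1 L) (F 1 L)) (F 129 (T (T (S (F 2 L) (F 2 L)) L) (S L L))))) (V (S (F 5 (V (S L (T (F 1 L) (F 1 L))) (S L L))) (F 129 (T (S L L) (V (S (F 16 L) (F 16 L)) (F 16 L))))) (F 5 (S (S L L) (T L L))))) (T (V (F 160 (T (S L L) (S (S L L) L))) (F 129 (T (S (T (F 2 L) L) (S (F 2 L) (F 2 L))) (S L L)))) (S (F 129 (V (T (S L L) (S L L)) (T L (S (F 16 L) (F 16 L))))) (V (T (F 128 L) (F 129 (S L L))) (F 129 (T L L)))))) (S (T (S (V (T (F 160 L) (F 129 (S L L))) (F 1 L)) (V (T (F 160 L) (S (F 129 L) (F 160 L))) (F 129 (T L L)))) (V (S (F 5 (T L L)) (F 129 (T L (S (F 16 L) (F 16 L))))) (F 5 (S L (S L L))))) (T (V (F 160 (T (S L L) (S L L))) (F 129 (T (S (S (F 2 L) (F 2 L)) (S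 (F 2 L) (F 2 L))) (S L L)))) (V (T (S (F 129 (S L L)) (F 128 L)) (F 129 (S L (S L L)))) (F 129 (T (S L L) (S (F 16 L) L)))))))
noncomputable def v0_54 : Tr := (S (T (V v0_50 (F 1600 (U (S (T (V (F 40 (S (F 4 L) (S L L))) (F 48 (T L (F 4 L)))) (F 42 (V (S (F 4 L) (S L L)) (U (K 4) (S (F 4 L) (F 4 L)))))) (T (F 40 (V (S (T L L) (T L L)) (U (K 5) (S L L)))) (V (F 40 (S (S L L) (T L L))) (S (F 10 (S (F 4 L) L)) (F 8 L))))) (S (T (V (F 40 (S (F 4 L) L)) (F 48 L)) (F 10 (V (S (F 12 L) (F 4 L)) (S (F 12 L) (F 8 L))))) (T (F 40 (V (S (S L L) (S L L)) (S L (S L L)))) (V (F 40 (S L (S L L))) (S (F 10 L) (F 8 L)))))))) (F 1616 v0_51)) (T v0_52 (F 1104 (V v0_53 (U (S (T (V (S (F 5 (T L L)) (S (F 1 L) (F 1 L))) (F 5 (S L (S L L)))) (F 5 (V (S L L) (S L L)))) (T (V (F 129 (T (S L L) (S L L))) (U (K 1) (S (F 1 L) (F 1 L))))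 (V (S (F 5 (S L L)) (F 129 (T L (F 16 L)))) (F 5 (S L L))))) (S (T (V (S (F 5 (S L L)) (F 1 L)) (F 5 (S L L))) (F 5 (V (S L L) L))) (T (V (S (F 1 L) (F 129 (T L L))) (S (F 1 L) (F 1 L))) (V (S (F 5 L) (F 129 (T L (F 16 L)))) (F 5 (S L L))))))))))
noncomputable def v0_55 : Tr := (T (V (F 1600 (U (S (F 254 (T (V (S (K 0) (S (K 0) (K 0))) (K 0)) (K 0))) (T (F 40 (V (V (U (K 5) (S L (S (F 1 L) (F 1 L)))) (K 5)) (K 5))) (V (S (K 0) (S (K 0) (F 8 L))) (K 0)))) (S (T (V (S (F 32 L) (F 40 (T L L))) (S (F 32 L) L)) (V (S (F 8 L) (F 8 L)) (S (F 2 L) (F 8 L)))) (T (V (S (F 40 (T L L)) (F 136 (T (S (F 2 L) (F 2 L)) L))) (S L (T (F 32 L) (F 8 L)))) (V (S (S (F 8 L) (F 8 L)) (S (F 8 L) (F 8 L))) (S (S (F 8 L) (F 8 L)) (S (F 8 L) (F 8 L)))))))) (U (K 8) (S (T (F 1600 (U (K 0) (V L (S (F 18 L) (F 16 L))))) (F 1664 (V (S (F 18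 L) (F 2 L)) (S (F 18 L) (F 16 L))))) (T (F 1600 (U (K 0) (V (S L L) (S L L)))) (U (K 8) (T (S (F 1664 L) (F 1552 L)) (F 1664 (S (F 2 L) (F 8 L))))))))) (V (F 1616 (U (F 126 (S (K 0) (T (K 0) (K 0)))) (S (T (V (S (F 2 L) (F 2 L)) (S (F 10 L) (F 2 L))) (S (F 10 L) (F 2 L))) (T (V (S (F 2 L) L) (S (F 2 L) (F 2 L))) (V (F 6 (S L L)) (F 2 L)))))) (F 1664 (U (F 26 (S (T (K 4) (V (K 4) (S (F 8 L) L))) (K 4))) (S (F 18 (T (V (S (F 8 L) (F 8 L)) (S (F 8 L) L)) (V (F 8 L) (F 24 (S L L))))) (T (V (F 10 (S L L)) (S (F 10 L) (F 8 L))) (F 10 (V L (S (F 16 L) (F 16 L))))))))))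
noncomputable def v0_56 : Tr := (V (U (S v0_48 (T (F 84 (V (U (S (T (V (S (F 128 L) (F 128 L)) (F 130 (V (S (K 4) L) (K 4)))) (V (S (V (F 128 L) (K 2)) (S (F 128 L) (F 128 L))) (K 2))) (T (V (F 128 L) (S (F 128 L) (F 130 L))) (V (S (F 128 L) (F 128 L)) (F 130 (V (S (K 4) L) (K 4)))))) (S (T (V (S (F 128 L) (F 128 L)) (F 130 (S (T L L) (T L L)))) (V (T (F 128 L) (S (F 128 L) (F 130 L))) (S (T (F 130 (V L (S (F 32 L) (F 32 L)))) (F 3 (S L (T (F 1 L) (F 1 L))))) (F 130 (T L (V L (S (F 32 L) (F 32 L)))))))) (T (V (F 128 L) (S (F 128 L) (F 128 L))) (V (S (F 128 L) (F 128 L)) (F 130 (T (S L L) (S L L))))))) (F 131 (U (K 4) (S (T (V (V (U (K 4) (S (S (K 4) L) (S L L))) (K 4)) (K 4)) (K 4)) (T (V (S (T L (S L L)) (T L L)) (K 4)) (V (V (U (K 4) (T (S L L) (S (K 4) L))) (K 4)) (K 4)))))))) (V v0_49 (F 1791 (U (K 0) (S (K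 0) (T (V (S (K 0) (K 0)) (K 0)) (K 0)))))))) v0_54) (U (K 8) (S (F 1600 (T (V (U (F 254 (S (K 0) (T (K 0) (K 0)))) (S (F 18 (T (V (F 4 L) (F 4 L)) L)) (T (V (S (F 48 L) (F 32 L)) (F 48 (S (F 16 L) L))) (V (F 10 (S (F 8 L) L)) (F 18 L))))) (F 18 (U (S (T (K 5) (S L (K 5))) (K 5)) (S (T (S (F 4 L) L) (S L L)) (T (V (S (F 4 L) L) (S (F 4 L) L)) (V L L)))))) (F 18 (V (U (S (S (F 8 L) (K 5)) (K 5)) (S (S (F 8 L) (F 8 L)) (T (V (F 8 L) (F 8 L)) (F 8 L)))) (U (S (T (S L L) (S (F 8 L) (F 8 L))) (U (K 5) (T (S L (K 5)) (S (F 8 L) (F 8 L))))) (S (T (S L L) L) (T (S L L) (S (F 8 L) (F 8 L))))))))) v0_55)))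
noncomputable def v0_57 : Tr := (T (V (U (S (T (V (S (S (F 2 L) (F 2 L)) (F 66 (T (S L L) L))) (S (F 2 L) (F 2 L))) (V (F 66 (S L L)) (F 2 L))) (T (V (S (F 66 (T (S L L) L)) (T (T (F 64 L) (F 66 L)) (F 66 L))) (F 66 (S (S L L) (S L L)))) (F 66 (V (S L (S (F 8 L) (F 8 L))) (S (F 8 L) (F 8 L)))))) (S (T (V (S (F 2 L) (F 66 (T L L))) (S (F 2 L) (F 2 L))) (S (F 2 L) (F 2 L))) (T (V (F 66 (T (S (S L L) (S L L)) (S L L))) (S (F 2 L) (F 66 (S L L)))) (F 66 (S (S L L) (T L (F 8 L))))))) (U (S (T (S (F 2 L) (S (F 2 L) (F 2 L))) (F 6 (S L L))) (T (V (F 66 (S L L)) (F 2 L)) (F 6 (S L L)))) (S (T (S (F 2 L) (F 2 L)) (F 6 (S L L))) (T (S (F 2 L) (F 2 L)) (F 6 (S L L)))))) (F 6 (V (U (S (T (S L L) L) (T (S (F 1 L) (F 1 L)) (F 1 L))) (S (T (S L L) L) (T (S (F 1 L) (F 1 L)) (F 1 L)))) (S (S (S (F 8 L) (F 8 L)) L) (T (S L L) L)))))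
noncomputable def v0_58 : Tr := (U (S (F 14 (T (F 5 (V (F 1 (U (K 0) (S (S (K 0) (K 0)) (T (S (K 0) (K 0)) (K 0))))) (K 0))) (V (K 1) (T (K 3) (S L (K 1)))))) (T (V (U (F 95 (S (K 0) (K 0))) (S (T (U (K 5) (V (F 95 (S (K 0) (K 0))) (S (K 0) (F 2 L)))) (K 5)) (T (V (S (F 66 (T (U (K 0) (S L L)) (K 0))) (U (K 5) (T (T (F 64 L) (F 66 L)) (F 66 L)))) (F 66 (U (K 4) (S (S L L) (S L L))))) (F 70 (S (K 0) (V (K 0) L)))))) (F 126 (U (K 0) (S (K 0) (K 0))))) (F 94 (V (F 2 (U (K 0) (S (K 0) (K 0)))) (U (K 1) (T (K 1) (S (K 0) (K 1)))))))) (S (T (V (U (S (T (S (F 10 L) (S (F 2 L) (F 2 L))) (F 10 (S L L))) (T (V (S (F 2 L) (F 2 L)) (S (F 10 L) (F 2 L))) (S (F 2 L) (S (F 2 L) (F 2 L))))) (S (T (S (F 10 L) (F 2 L)) (F 10 (S L L))) (T (V (S (F 2 L) (F 2 L)) (F 2 L)) (S (F 2 L) (F 2 L))))) (S (F 10 (T L L)) (T (S (F 10 L) (F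 2 L)) (F 10 (S (F 8 L) L))))) (V (S (F 10 (T (S (F 8 L) L) (F 8 L))) (T (V (F 2 L) (F 6 L)) (F 6 (S (F 8 L) L)))) (F 14 (S L (S L L))))) v0_57))
noncomputable def v0_59 : Tr := (U (F 10 (S (T (V (K 4) (U (K 4) (S (T (S L L) (S (K 0) (F 8 L))) (T (K 4) (S (F 8 L) (F 8 L)))))) (V (U (K 4) (S (F 8 L) (F 8 L))) (U (S (K 0) (V (F 8 L) (K 0))) (S (K 0) (S (F 8 L) (F 8 L)))))) (T (V (K 4) (U (K 4) (S (T (K 4) (S (F 8 L) (K 4))) (K 4)))) (V (S (S (F 8 L) (F 8 L)) (K 4)) (S (V (F 8 L) (S (F 8 L) (F 8 L))) (U (K 2) (S (F 8 L) (F 8 L)))))))) (S (F 10 (T (V (S (S L L) (T (S (F 8 L) L) (F 8 L))) (U (S (T (S L L) (S (F 8 L) (F 8 L))) (V (F 8 L) (S (F 8 L) (F 8 L)))) (S (T (S L (F 8 L)) (F 8 L)) (V (F 8 L) (S (F 8 L) (F 8 L)))))) (V (S (F 8 L) (F 8 L)) (S (V (F 8 L) (T (S (F 8 L) (F 8 L)) (F 8 L))) (S (F 8 L) (F 8 L)))))) (T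 (V (U (F 14 (U (K 3) (S (S L L) (T (K 3) L)))) (S (F 10 (T L (F 8 L))) (F 6 (T (S L L) L)))) (F 6 (U (S (T (S (F 8 L) (F 8 L)) (F 8 L)) (T (S (S (F 8 L) (F 8 L)) L) (S (F 8 L) (F 8 L)))) (S (V (F 8 L) (S (F 8 L) (F 8 L))) (T (S (F 8 L) L) (F 8 L)))))) (F 6 (V (S (S (F 8 L) (F 8 L)) (T L (F 8 L))) (S (S (F 8 L) (F 8 L)) (S (F 8 L) (F 8 L))))))))
noncomputable def v0_60 : Tr := (V (F 130 (U (S (T (F 6 (V L (S L L))) (V (F 2 L) (S (F 2 L) (F 2 L)))) (T (V (F 2 L) (S (F 2 L) (F 2 L))) (V L (S (F 2 L) (S (F 2 L) (F 2 L)))))) (T (S (F 6 (V L L)) (V (F 2 L) (F 2 L))) (S (V (F 2 L) (S (F 2 L) (F 2 L))) (V L (S (F 2 L) (F 2 L))))))) (U (F 160 (S (T (V (S (V (F 18 L) (F 2 L)) (S (F 16 L) (F 16 L))) (S (V (S (F 2 L) (F 2 L)) (T (F 2 L) (F 2 L))) (T L L))) (U (K 0) (V (T (F 16 L) (K 0)) (T (S L L) (F 62 (S (K 0) (K 0)))))))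 (T (V (T (S (F 16 L) (F 16 L)) (S (F 16 L) (F 16 L))) (S (T L L) (T L (S L L)))) (V (T (S (F 16 L) (S (F 16 L) (F 16 L))) (V (S (F 16 L) (F 16 L)) (S L L))) (S (U (K 0) (T L L)) (T (S L L) (S L L))))))) (S (T (F 160 (V (T (F 18 L) (F 16 L)) (S (V (F 2 L) (S (F 2 L) (F 2 L))) (S L L)))) (V (F 160 (T (S (F 16 L) (F 16 L)) (S L L))) (T (F 160 (S L L)) (S (F 32 L) (F 160 (S L L)))))) (F 160 (T (V (S (F 16 L) (S (F 16 L) (F 16 L))) (T (S L L) (S L L))) (V (T (S (F 16 L) (F 16 L)) (V (S (F 16 L) (F 16 L)) L)) (T (S L L) (S L L))))))))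
noncomputable def v0_61 : Tr := (S (T (F 48 (V (F 17 (T (V (S L L) (S L (S L L))) (U (K 3) (V (S L L) (S (S L L) (S L L)))))) (U (S (T (V (T (F 17 L) (F 16 L)) (S L L)) (F 61 (S (K 0) (K 0)))) (T (V (V (F 17 L) (F 1 L)) (S L (V (F 1 L) L))) (F 61 (S (K 0) (K 0))))) (S (V (T (F 16 L) L) (T L (S L L))) (T (V (V (F 17 L) (F 1 L)) (V (S (F 1 L) (F 1 L)) L)) (V (V (F 1 L) L) (S L (T L L)))))))) (V (F 162 (U (K 0) (S (K 0) (T (S (K 0) (T L (K 0))) (K 0))))) (F 48 (U (K 1) (S (T (V (F 61 (S (K 0) (K 0))) (S (F 32 L) L)) (K 1)) (T (U (K 1) (V (T L (K 1)) (V L L))) (K 1))))))) (T v0_60 (V (F 130 (U (S (K 0) (T (V (S L L) (S (S (K 0) L) (S L L))) (V (S (K 0) L) (K 0)))) (S (T (V L (S (T (F 2 L) (F 2 L)) L)) (S (K 0) (V L (T L (K 0))))) (T (V L (S L L)) (V L (S (S L L) (S L L))))))) (U (F 160 (S (K 0) (T (V (T (S (K 0) (V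 (F 16 L) L)) (K 0)) (T (S (K 0) (S (K 0) L)) (K 0))) (K 0)))) (S (T (V (F 160 (T (S L L) (S L L))) (S (T (F 32 L) (F 32 L)) (V (F 160 (S L L)) (F 32 L)))) (V (K 6) (T (S (K 6) (F 32 L)) (K 6)))) (T (V (S (F 160 (T L L)) (V (F 130 L) (F 160 (S L L)))) (F 160 (S (T (S L L) (S L L)) (T (S L L) (V L (S (F 8 L) (F 8 L))))))) (V (S (U (K 6) (S (F 128 L) (F 128 L))) (T (F 128 L) (F 132 (S L L)))) (F 160 (U (K 0) (T (V L (S (F 8 L) (F 8 L))) (S (K 0) (V (F 8 L) (F 8 L)))))))))))))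
noncomputable def v0_62 : Tr := (V (U (F 2045 (S (K 0) (K 0))) (S (F 156 (T (V (T (U (K 5) (V (F 64 L) (S (F 65 L) (F 64 L)))) (K 5)) (S (V L (T (F 8 L) (K 5))) (U (K 5) (V L (S (F 8 L) (F 8 L)))))) (K 5))) (F 13 (T (V (S (T (S (F 8 L) (F 8 L)) (K 7)) (U (K 7) (S (F 8 L) (F 16 L)))) (S (F 24 (U (K 0) (T (S L L) (S L L)))) (T (F 16 L) (F 16 L)))) (F 127 (S (K 0) (K 0))))))) (F 76 (U (F 175 (S (T (K 1) (K 0)) (T (V (F 2 (S (K 0) (K 0))) (S (K 1) (T (K 1) (K 0)))) (K 0)))) (S (F 40 (T (V (S (V (T (S (F 32 L) (F 32 L)) (F 32 L)) (T (F 32 L) (F 32 L))) (V (T L L) (T L (S (F 32 L) (F 32 L))))) (S (F 48 (U (K 1) (S L L))) (V (U L (S (F 32 L) (F 32 L))) (F 48 (T (S L L) L))))) (F 48 (V (F 11 (U (K 0) (T (S (S (K 0) (K 0)) (S (K 0) (K 0))) (K 0)))) (S L (T (U L L) L)))))) (T (V (S (T (S (F 32 L) (F 128 L)) (S (F 8 L) (F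 8 L))) (V (S (F 128 L) (F 128 L)) L)) (S (T (S (F 33 L) (F 32 L)) (S (F 41 (V L (S (F 16 L) (F 16 L)))) (F 1 L))) (T L (S (F 1 L) (F 1 L))))) (V (U (K 6) (S (T (F 8 L) (K 6)) (T (F 8 L) (K 6)))) (S (F 9 (T (V L (S (F 36 L) (F 32 L))) (T (F 32 L) (F 32 L)))) (V (T (F 8 L) (F 9 L)) (F 9 (T (S (F 32 L) L) (S (F 32 L) (F 32 L))))))))))))
noncomputable def v0_63 : Tr := (S (F 1164 (T (V (V (T (S (F 80 L) (F 64 L)) (S (F 16 L) (F 64 L))) (S (S (F 16 L) (F 16 L)) (S (S (F 16 L) (F 16 L)) (S (F 64 L) (F 64 L))))) (V (S (S (F 16 L) (F 16 L)) (T (F 16 L) (F 16 L))) (T (S (F 20 L) (F 16 L)) (F 20 (S L (S L L)))))) (V (S (U (K 5) (T (F 16 L) (F 16 L))) (V (T (F 64 L) (F 64 L)) (S L L))) (S (F 20 (V (T L L) (S L L))) (T (V (F 4 L) (F 4 L)) (S (F 4 L) (F 4 L))))))) (T (V (F 1037 (S (T (V (F 4 L) (F 4 L)) (V (F 4 L) (F 4 L)))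 (T L L))) (S (F 1036 (V (T (F 132 L) (T (F 132 L) (F 12 L))) (T (F 136 L) (F 12 L)))) (F 77 (S (T (S (F 1 L) (F 1 L)) (S (F 1 L) (F 1 L))) (S L L))))) (V (F 140 (V (F 129 (S (T L L) (T L L))) (S (T (F 129 L) (F 9 (S L (F 1 L)))) (F 136 (U (S L L) (T (F 32 L) (F 32 L))))))) (F 1100 (S (T (V (F 4 L) (F 4 L)) (V (F 4 L) (F 4 L))) (T (S (V (F 68 L) (F 4 L)) (F 64 L)) (V (F 68 (S L L)) (F 4 L))))))))
noncomputable def v0_64 : Tr := (U (S (T (F 20 (V (S (V (S L L) L) (V (T (S L L) (S L L)) (T L L))) (S (S (F 16 L) (F 16 L)) (V (S L L) (T (F 16 L) (F 16 L)))))) (V (S (F 20 (V L (F 16 L))) (V (S (F 20 L) (F 4 L)) (F 20 (S L L)))) (F 21 (T (S L L) L)))) (T (V (T (S (S L L) (V (F 64 L) L)) (S (V (F 4 L) (F 4 L)) L)) (S (T (S (F 16 L) (F 16 L)) (V (F 4 L) (F 20 (S (F 16 L) L)))) (T L L))) (V (S (V (T (F 4 L) (F 4 L)) (S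 (F 4 L) (F 4 L))) (T L (V (F 4 L) (F 4 L)))) (S (F 5 (T (T L L) L)) (T (S (F 4 L) (F 4 L)) (V (F 4 L) (F 5 L))))))) (S (F 20 (T (V (S (T L L) (V (T L L) (S L L))) (S (F 16 L) (V L (F 16 L)))) (V (S (T L (F 16 L)) (T (S L L) L)) (S (F 16 L) (F 16 L))))) (T (S (V (T L (S (F 4 L) (F 4 L))) (T (F 16 L) (F 20 (S L L)))) (V (T L L) (S L L))) (V (S (T (S (F 4 L) (F 4 L)) (F 4 L)) (T L (S (F 4 L) (F 4 L)))) (T (S (F 5 L) (F 4 L)) (F 5 (S L (S L L))))))))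
noncomputable def v0_65 : Tr := (V (U (S (T (V (K 5) (T (U (K 5) (S (F 20 L) (F 4 L))) (K 5))) (K 5)) (T (V (F 68 (S (K 0) (T (U (K 0) (S L L)) (K 0)))) (U (K 5) (S (T (F 4 L) (K 5)) (T (F 4 L) (F 4 L))))) (K 5))) (S (T (V (V (S L L) (T (S (F 20 L) (F 4 L)) (S (F 20 L) (F 4 L)))) (S (F 20 (T L L)) (T (F 4 L) (F 4 L)))) (V (U (K 5) (S (S (K 5) (F 4 L)) (T (F 4 L) (K 5)))) (S (F 20 (V L (F 16 L))) (V (F 4 L) (F 5 L))))) (T (V (S (T (V (F 64 L) (F 4 L)) (S (F 4 L) (F 4 L))) (F 68 (T (V (S L L) (S L L)) (V (S L L) (S L L))))) (S (T (S (F 4 L) (F 4 L)) (S (F 4 L) (F 4 L))) (T (S (F 4 L) (F 4 L)) (S (F 4 L) (F 4 L))))) (V (S (U (K 5) (T (F 4 L) (F 4 L))) (V (F 68 (U (K 0) (T L L))) (S (F 4 L) (F 4 L)))) (S (T (S (F 4 L) (F 4 L)) (F 4 L)) (T (S (F 4 L) (F 4 L)) (S (F 4 L) (F 4 L)))))))) (U (S (F 20 (T (V (S (S (F 16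 L) (F 16 L)) (V (S L L) (S (F 16 L) (F 16 L)))) (S (F 16 L) (F 16 L))) (V (F 29 (S (K 0) (K 0))) (F 16 L)))) (T (V (S (U (K 5) (T (F 4 L) (F 5 L))) (T (S (F 4 L) (F 4 L)) (S (F 4 L) (F 4 L)))) (F 5 (T (S L (S L L)) (S (F 4 L) L)))) (F 5 (V (F 29 (S (K 0) (K 0))) (T (S (F 4 L) L) (S (F 4 L) L)))))) (S (F 20 (T (V (S (F 16 L) (V L (F 16 L))) (F 16 L)) (V (T (S (F 16 L) (F 16 L)) (F 16 L)) (F 16 L)))) (T (V (S (T (F 4 L) (F 5 L)) (T (S (F 4 L) (F 4 L)) (F 4 L))) (F 5 (T (S (F 4 L) L) (S (F 4 L) L)))) (V (S (F 5 (S L L)) (V (F 4 L) (F 5 (S L L)))) (F 5 (S (F 4 L) L)))))))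
noncomputable def v0_66 : Tr := (S (F 1180 (T (V (U (S (V (T (S L L) (S (F 1 L) L)) (T (S (F 5 L) (F 1 L)) (F 5 (S L L)))) (T (V (V (S L L) (S L L)) (S L (T L L))) (V (U (K 4) (V L L)) (S (F 4 L) (T (S (F 4 L) (F 4 L)) (F 4 L)))))) (S (V (T L L) (T (F 1 L) (F 5 L))) (T (V (V L L) (T L L)) (V (V (S L L) L) (T L (F 4 L)))))) (S (F 5 (V (T (S L L) L) L)) (T (V (V (U (S (F 5 L) (F 4 L)) (F 4 L)) (F 5 (U (S L L) L))) (F 5 (U L L))) (F 5 (V (U (S L L) (S L L)) L))))) (V (U (F 5 (S (V (K 1) (T L (K 1))) (F 13 (T (S (K 0) (K 0)) (K 0))))) (S (V (T (F 1 L) (F 47 (S (K 0) (K 0)))) (F 5 (S L L))) (V (T (S L (V L (F 4 L))) (T (S (K 4) (F 4 L)) (K 4))) (F 5 (T (T (S L L) L) (S L L)))))) (F 5 (S (T L L) (V (T (S L L) L) (S L L))))))) (T (V (U v0_63 (F 1036 (S (T (V (V (S (F 36 L) (F 132 (T (F 2 L) L))) (F 36 (T L (S L L))))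 (F 36 (S (T L L) (V (S L L) (S L L))))) (V (S (F 36 (V L L)) (T (F 4 L) (F 4 L))) (S (F 36 (V L (F 8 L))) (F 12 (T (S L L) (S L L)))))) (T (V (S (F 132 (T (S L L) (S L L))) (T (F 128 L) (F 128 L))) (S (T (F 128 L) (V (F 132 L) (F 12 L))) (V (F 128 L) (F 136 (T L L))))) (V (F 132 (S (T (S L L) (S L L)) (T (S L L) (V L (S (F 8 L) (F 8 L)))))) (S (F 12 (T (S L L) (S L L))) (T (S (F 12 L) (F 136 L)) (F 12 (S L L))))))))) (F 1100 v0_64)) (F 1164 v0_65)))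
noncomputable def v0_67 : Tr := (T (V (F 1160 (U (F 160 (S (F 62 (T (V (K 0) (U (K 0) (S (K 0) (K 0)))) (K 0))) (T (V (U (F 30 (S (K 1) (K 0))) (S (F 18 (T (T (S (K 3) L) (K 3)) (K 3))) (T (V (K 5) (S (F 16 L) (S (F 16 L) (K 5)))) (S (K 0) (V (K 5) (T (F 16 L) (K 0))))))) (U (K 0) (S (F 62 (T (S (K 0) (K 0)) (K 0))) (T (V (T (S (F 16 L) (S (F 16 L) (F 16 L))) (S (K 0) (S (F 16 L) (F 16 L)))) (U (K 0) (T (S L L) (S (K 0) L)))) (K 0))))) (K 0)))) v0_61)) (U (S (F 1180 (T (V (U (F 47 (S (K 0) (K 0))) (S (T (U (K 3) (V (F 47 (S (K 0) (K 0))) (S (K 3) (F 4 L)))) (K 4)) (T (V (F 47 (S (K 0) (K 0))) (V (S L (S (K 4) L)) (T L (F 47 (S (K 0) (K 0)))))) (K 4)))) (U (F 39 (S (K 1) (T (K 1) (K 0)))) (S (F 5 (T (K 2) L)) (V (T (T (K 3) (V (F 4 L) (F 5 L))) (F 5 (U (K 1) (S L L)))) (F 5 (T (S (K 2) L) L)))))) (F 5 (V (K 1)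 (S (V (K 1) L) (V (K 1) (T L (K 1)))))))) (T v0_62 (F 2045 (V (K 0) (U (K 0) (S (S (K 0) (K 0)) (T (S (K 0) (K 0)) (K 0)))))))) v0_66)) (V (F 1161 (U (K 6) (S (K 6) (T (V (U (K 6) (S (K 6) (T (V (S (F 2 L) (F 6 L)) (S (K 6) (V (F 2 L) (S (K 6) (F 4 L))))) (F 6 (V (S (K 0) L) (K 0)))))) (U (K 6) (S (K 6) (T (V (S (K 6) (T (S (K 6) (F 4 L)) (K 6))) (K 6)) (K 6))))) (K 6))))) (F 1220 (U (F 95 (S (K 0) (K 0))) (S (F 9 (T (V (F 29 (U (K 0) (S (S (K 0) (K 0)) (S (K 0) (K 0))))) (S (S (F 4 L) (F 4 L)) (T (S (F 4 L) (F 4 L)) L))) (V (K 1) (S L (S L (K 1)))))) (T (V (U (K 5) (S (F 95 (T (S (K 0) (K 0)) (K 0))) (T (U (K 5) (V (F 95 (S (K 0) (K 0))) (S (F 95 (S (K 0) (K 0))) (T (F 16 L) (K 5))))) (K 5)))) (U (F 95 (S (S (K 0) (K 0)) (S (K 0) (K 0)))) (S (F 9 (T (S (F 4 L) L) L)) (T (V (S (F 17 L) (F 1 L)) (F 9 (S (F 4 L)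 L))) (S (F 9 L) (F 1 L)))))) (F 95 (V (K 0) (U (K 0) (S (S (K 0) (K 0)) (S (K 0) (K 0))))))))))))
noncomputable def v0_68 : Tr := (T (V (F 1480 (U (K 0) (S (T (K 0) (V (K 0) (S (T (F 16 L) L) (K 0)))) (K 0)))) (F 138 (U (F 125 (S (T (V (K 1) (V (K 1) (K 0))) (K 0)) (T (K 1) (V (K 1) (S (K 0) (S (K 0) (K 1))))))) (S (T (V (F 5 (S (T (S (F 16 L) (F 16 L)) (S (F 16 L) (F 16 L))) (T L L))) (T (V (F 5 (S L L)) L) (S (F 1 L) (F 5 (S L L))))) (V (F 5 (S (T (U (K 0) (S (F 16 L) (F 16 L))) (K 0)) (T (T L L) (U (K 0) (S (F 16 L) (F 16 L)))))) (U (K 7) (S (S (K 7) (F 8 L)) (T (F 17 L) (F 16 L)))))) (T (V (F 5 (S (T (K 5) L) (K 5))) (S (V (F 5 (S L L)) (F 4 L)) (T (F 5 L) (V (F 5 L) (F 20 L))))) (V (F 5 (U (K 5) (S (S L L) (T (K 5) L)))) (V (S (T (F 5 L) (F 20 L)) (F 20 (T (S (F 32 L) (F 32 L)) L))) (S (F 16 L) (F 16 L)))))))))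 (V (F 1480 (U (F 30 (S (K 0) (K 1))) (S (T (V (S L (K 0)) (S (K 5) (T L (K 5)))) (V (S (K 5) L) (K 5))) (T (V (K 0) (S (T (K 0) L) (K 0))) (V (S L (K 0)) (S (V (S (K 5) (F 2 L)) (K 5)) (U (K 0) (S (F 2 L) (F 2 L))))))))) (U (K 0) (S (K 0) (T (V (F 1416 (S (U (K 6) (T (F 2 L) (F 6 (V L (K 0))))) (T (S (F 4 L) (F 4 L)) (S (F 4 L) (F 4 L))))) (F 170 (S (T L (K 6)) (T L L)))) (F 1512 (V (S (K 4) (U (K 4) (T (S L L) (S (K 4) L)))) (K 4))))))))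
noncomputable def v0_69 : Tr := (T (F 68 (V (K 4) (U (K 4) (S (T (V (K 4) (V (K 4) (U (K 4) (T (S (F 32 L) (K 4)) (S (F 32 L) (F 32 L)))))) (V (K 4) (S (T (V (S (F 32 L) (K 4)) L) (S L (S L (F 32 L)))) (U (K 4) (T (F 32 L) (S (F 32 L) (F 32 L))))))) (T (K 4) (V (K 4) (V (K 4) (U (K 4) (S (S (F 32 L) (F 32 L)) (S (F 32 L) (K 4))))))))))) (V (F 13 (U (K 4) (S (T (K 4) (V (K 4) (T (K 4) (S (S L L) (S L (K 4)))))) (K 4)))) (U (S (T (V (K 1) (V (K 1) (S (K 7) (S (F 64 L) (K 1))))) (F 125 (V (S (K 0) (K 1)) (K 0)))) (T (K 1) (V (K 1) (V (K 1) (U (K 1) (S L (S (F 4 L) (F 4 L)))))))) (S (T (V (F 5 (U (K 5) (S (T L L) (S L L)))) (V (S (F 68 (T L L)) (F 5 (T L L))) (S (F 64 L) (F 64 L)))) (V (S (T (F 5 (S L L)) (T (F 5 L) (F 9 (V (F 16 L) L)))) (F 5 (T (S L L) (S L L)))) (T (S (S (F 64 L) (F 64 L)) L) (S (S (K 7) (F 8 L))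 L)))) (T (F 5 (V (S (T (K 5) (S L (K 5))) (K 5)) (S (T (S L L) (S L L)) (T (S L L) (S L L))))) (V (F 5 (S (T (S L L) (S L L)) (T L L))) (S (V (T (F 5 L) (F 1 L)) L) (V (F 5 (T L L)) L))))))))
noncomputable def v0_70 : Tr := (V (U (S (F 6 (T (V L (S (S (F 2 L) (F 2 L)) (S (F 2 L) L))) (V (S L L) (S L L)))) (T (V (K 0) (S (F 2 L) (F 2 L))) (V (F 6 (S L L)) (S (F 6 (S L L)) (F 2 L))))) (S (F 6 (T (V L (S (F 2 L) L)) (V L (S L L)))) (T (V (F 6 (S L L)) (S (F 6 L) (F 2 L))) (F 6 (V (S L L) (S L L)))))) (U (S (T (V (F 66 (T (S (F 16 L) L) (S (F 16 L) L))) (V (T (F 66 L) (S (F 68 L) (F 66 L))) (S (F 64 L) (F 64 L)))) (V (F 66 (S (T (S (F 16 L) (F 16 L)) (S (F 16 L) (F 16 L))) (T L (S (S (F 16 L) (F 16 L)) L)))) (S (F 68 (T (S L L) (S L L))) (T (F 64 L) (F 72 (S L L)))))) (T (F 66 (V (T (S L L) (S L L)) (S (T L L) (T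 L L)))) (V (S (F 66 (T L L)) (S (F 2 L) (F 2 L))) (S (T (F 66 (S L L)) (F 72 (S L L))) (F 72 (V (T (F 16 L) (S (F 16 L) (F 16 L))) (S L L))))))) (S (T (V (F 66 (S (T (F 16 L) (F 16 L)) L)) (V (F 66 (S L L)) (S (F 64 L) (F 64 L)))) (V (T (F 66 (S (F 16 L) L)) (F 6 (S (S (F 2 L) (F 2 L)) L))) (S (F 68 (T L L)) (S (F 64 L) (F 64 L))))) (T (F 66 (V (T (S L L) (S L L)) (S (S L L) (S L L)))) (V (S (F 2 L) (F 2 L)) (T (F 66 (S L L)) (F 72 (S L L))))))))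
noncomputable def v0_71 : Tr := (U (S (T (V (S (V (F 6 (S L L)) (F 68 (S L L))) (F 6 (T L (S L L)))) (F 68 (S (U (K 0) (T L (S (K 0) (F 8 L)))) (T (V L (S (F 8 L) (F 8 L))) (U (K 0) (S (F 8 L) (F 8 L))))))) (F 12 (V (S (K 0) (U (K 0) (T L L))) (S (K 0) (T (S (K 0) (V (F 2 L) (F 2 L))) (K 0)))))) (T (V (S (T (F 6 L) (F 12 (V (F 16 L) L))) (F 10 (T L L))) (S (T (F 72 (S L L)) (V (F 12 L) (F 72 L))) (V (F 8 L) (F 72 (S L L))))) (F 12 (V (S (V (T (F 16 L) (F 16 L)) (S L L)) (V (T (F 16 L) (F 16 L)) (S L L))) (S (V (T L L) (T (S (F 2 L) (F 2 L)) (S (K 0) (F 2 L)))) (T (S L L) (S L L))))))) (S (T (V (F 6 (S (T L L) (T L L))) (T (F 68 (S (S L L) (V L (S (F 8 L) (F 8 L))))) (S (F 68 (V L (F 8 L))) (F 12 (V L (S (F 2 L) (F 2 L))))))) (V (S (T (F 4 L) (F 12 (S L L))) (F 12 (T L L))) (F 12 (S (V (S L L) (T (S (F 2 L) (F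 2 L)) (S (F 2 L) (F 2 L)))) (T (V L (S (F 2 L) (F 2 L))) (S L L)))))) (T (V (T (F 2 L) (S (F 6 L) (F 10 L))) (S (F 72 (T L (T L L))) (T (F 72 L) (F 8 L)))) (V (F 12 (S (T (S (F 16 L) (F 16 L)) L) (V (S (F 16 L) (F 16 L)) L))) (S (F 12 (T (S L L) (S L L))) (T (F 8 L) (F 12 (S L L))))))))
noncomputable def v0_72 : Tr := (V (U (F 1416 (S (T (V (K 0) (S L (K 0))) (V (K 0) (S L (S L L)))) (T (K 0) (S (V (K 0) (S L (K 0))) (K 0))))) (S (F 1416 (T (V (S L (S L L)) (S L L)) (V (S (F 2 L) L) (S L L)))) (T (V (U (K 9) (S (F 1288 L) (F 1408 L))) (F 1416 (S (S L L) (T L L)))) (F 1408 (V (S (F 16 L) L) (S (F 16 L) (S (F 16 L) (F 4 L)))))))) (F 1160 (U (S (T (F 66 (V (T (S L L) (S L L)) (S (T L (S (F 8 L) (F 8 L))) (T (S (F 8 L) (F 8 L)) (S (F 8 L) (F 8 L)))))) (V (S (T (F 66 L) (F 10 L)) (F 10 (T L L))) (F 74 (S (T (S L L)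 (V L L)) (T (S L L) (S L L)))))) (T (V (V (K 0) (S (S (F 66 L) (F 10 L)) (F 10 (S L L)))) (F 74 (S (T (S L L) L) (T (S L L) (S L L))))) (F 10 (V (S (T L L) (T L L)) (S (V L (T (F 2 L) (F 2 L))) (T (S (F 2 L) (F 2 L)) L)))))) (S (T (V (S (F 66 (S L L)) (F 2 L)) (F 66 (S (S L L) (T (F 8 L) (F 8 L))))) (V (S (F 2 L) (F 10 (S L L))) (S (V (F 10 L) (F 72 L)) (F 10 (T (F 2 L) L))))) (T (V (S (F 2 L) (T (F 66 L) (F 10 L))) (F 74 (S (T L L) (T (S L L) (S L L))))) (F 10 (V (S (S L L) (S L L)) (S (S L L) (S L L)))))))))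
noncomputable def v0_73 : Tr := (V (F 1408 (U (S (T (V (S (F 18 L) (F 16 L)) (T (F 16 L) (F 20 (S L L)))) (F 20 (V (S (F 16 L) (F 16 L)) (S (S (F 16 L) (F 16 L)) (S (F 16 L) L))))) (F 20 (T (V (K 5) (U (K 5) (S L L))) (V (S (F 8 L) (F 8 L)) (S L (S (F 8 L) (F 8 L))))))) (S (T (V (F 18 (S L L)) (F 20 (S L L))) (F 20 (V (S (F 16 L) (F 16 L)) (S (S (F 16 L) (F 16 L)) L)))) (T (V (S (F 16 L) (F 4 L)) (F 20 (S (S L L) (S L L)))) (F 20 (V (S (F 8 L) (F 8 L)) (S L L))))))) (F 1192 (U (S (T (V (S (T (F 2 L) (F 2 L)) (T (F 2 L) (F 2 L))) (S (T (S (F 32 L) (F 2 L)) L) (T (F 2 L) (S (F 2 L) (F 2 L))))) (V (S (T (F 2 L) (F 6 (S L L))) (T (F 2 L) (F 2 L))) (T (S L L) (S L L)))) (T (S (V (T (F 2 L) (F 2 L)) (T (F 2 L) (F 2 L))) (V (S (F 2 L) (F 2 L)) (T (F 2 L) (F 2 L)))) (V (S (S (F 2 L) (F 2 L)) (S (F 2 L) (F 2 L))) (S (T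 (S (F 2 L) (F 2 L)) L) (V (S (F 2 L) (F 2 L)) L))))) (S (T (S (V (S (F 2 L) (F 2 L)) (T (F 32 L) (F 32 L))) (V (S (F 2 L) (F 2 L)) (T (F 2 L) (F 2 L)))) (V (S (T (F 2 L) (F 6 (S L L))) (S (F 2 L) (F 2 L))) (S (S L L) (S L L)))) (T (V (S (S (F 2 L) (F 2 L)) (S (F 2 L) (F 2 L))) (S (S (F 2 L) (F 2 L)) (S (F 2 L) (F 2 L)))) (V (S (S (F 2 L) (F 2 L)) (F 2 L)) (S (T (F 2 L) (F 2 L)) (T (F 2 L) (F 2 L)))))))))
noncomputable def v0_74 : Tr := (V (U (S (F 191 (T (S (K 0) (K 0)) (K 0))) (T (V (S (T (F 128 L) (K 6)) (F 132 (T L L))) (S (F 128 L) (F 128 L))) (K 6))) (S (T (V (S (T (F 128 L) (F 128 L)) (T (F 128 L) (F 128 L))) (S (S (F 128 L) (F 128 L)) (S (F 128 L) (F 128 L)))) (U (K 6) (V (S (K 6) (F 128 L)) (T (F 128 L) (F 191 (S (K 0) (K 0))))))) (T (V (S (S (F 128 L) (F 128 L)) (S (F 128 L) (F 128 L))) (S (F 128 L) (F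 128 L))) (V (S (S (F 128 L) (F 128 L)) (S (F 128 L) (F 128 L))) (S (F 128 L) (F 128 L)))))) (U (S (T (V (T (S (F 128 L) (F 128 L)) (K 6)) (S (T (S (K 4) (F 128 L)) (K 6)) (T (F 128 L) (F 128 L)))) (K 6)) (T (V (S (F 128 L) (F 128 L)) (T (F 128 L) (F 128 L))) (S (K 6) (T (S (K 6) (F 128 L)) (K 6))))) (S (T (V (S (T (F 128 L) (F 128 L)) (S (F 128 L) (F 128 L))) (S (T (S (F 128 L) (F 128 L)) L) (T (F 128 L) (F 128 L)))) (V (S (U (K 6) (T (F 128 L) (F 128 L))) (T (F 128 L) (F 128 L))) (S (T L (F 9 (U (K 1) (S L L)))) (V (S (F 128 L) (F 128 L)) L)))) (T (V (S (F 128 L) (F 128 L)) (S (F 128 L) (F 128 L))) (V (S (F 128 L) (F 128 L)) (S (T (F 128 L) (F 128 L)) (S (F 128 L) (F 128 L))))))))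
noncomputable def v0_75 : Tr := (V (U (S (T (V (T (S (K 7) (F 64 L)) (K 7)) (K 7)) (K 7)) (T (V (S (S (F 64 L) (F 64 L)) (T (F 68 L) (F 64 L))) (S (F 64 L) (F 64 L))) (V (T (S (F 64 L) (F 64 L)) (S (K 7) (S (F 64 L) (K 5)))) (S (K 7) (S (F 64 L) (F 64 L)))))) (S (T (V (T (S (F 64 L) (F 65 L)) (S (F 64 L) (F 64 L))) (S (F 64 L) (F 64 L))) (V (T (S (F 64 L) (F 64 L)) (S (K 7) (F 64 L))) (S (K 7) (S (F 64 L) (F 64 L))))) (T (V (S (S (F 64 L) (F 64 L)) (S (F 64 L) (F 64 L))) (S (F 64 L) (F 64 L))) (V (S (T (F 64 L) (F 64 L)) (V L (F 64 L))) (T (S (F 64 L) (F 64 L)) (S (F 64 L) (F 64 L))))))) (U (S (K 7) (T (V (S (F 64 L) (F 64 L)) (S (F 64 L) (F 64 L))) (V (T (F 64 L) (K 7)) (K 7)))) (S (T (V (S (F 64 L) (F 64 L)) (T (S (F 64 L) (F 65 L)) (S (F 64 L) (F 64 L)))) (V (T (S (K 7) (F 64 L)) (K 7)) (U (K 7) (T (S (F 64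 L) (F 64 L)) (F 72 (S (K 0) (S (K 0) L))))))) (T (V (S (F 64 L) (F 64 L)) (S (F 64 L) (F 64 L))) (V (T (S (F 64 L) (F 64 L)) (S (F 64 L) (F 64 L))) (T (S (F 64 L) (F 64 L)) (S (S (F 64 L) (F 64 L)) (S (F 64 L) (F 64 L)))))))))
noncomputable def v0_76 : Tr := (S (F 76 (T v0_74 (V (U (K 6) (S (K 6) (T (S (K 6) (V (S (F 128 L) (F 128 L)) (F 128 L))) (K 6)))) (U (K 6) (S (F 9 (T (V (K 1) (T (U (K 1) (S (F 61 (S (K 0) (K 0))) (S (K 1) L))) (K 1))) (K 1))) (T (V (U (K 6) (S (S (K 6) (F 128 L)) (F 128 L))) (S (T (F 128 L) (K 6)) (T (F 128 L) (F 128 L)))) (K 6))))))) (F 73 (T (V (U (S (T (V (F 68 (V (K 4) (S L (K 4)))) (S (F 64 L) (F 64 L))) (V (S (S (F 64 L) (F 64 L)) (F 68 (T L L))) (S (F 64 L) (F 64 L)))) (T (V (K 1) (S (F 64 L) (F 64 L))) (V (F 68 (V (K 4) (S L (K 4)))) (S (F 64 L) (F 64 L))))) (S (T (V (V (F 68 (S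 (S L L) L)) (S (F 64 L) (F 68 L))) (S (F 64 L) (F 64 L))) (V (S (S (F 64 L) (F 64 L)) (F 64 L)) (S (F 64 L) (F 64 L)))) (T (V (F 68 (S (T (F 32 L) L) (T (F 32 L) (F 32 L)))) (S (F 64 L) (F 64 L))) (V (F 68 (T (S L L) (S L L))) (S (F 64 L) (F 64 L)))))) (U (S (T (V (F 64 L) (F 64 L)) (V (F 64 L) (S (F 64 L) (F 64 L)))) (T (S (F 64 L) (F 64 L)) (V (F 64 L) (F 64 L)))) (S (T (T (F 64 L) (F 64 L)) (V (F 64 L) (S (F 64 L) (F 64 L)))) (T (S (F 64 L) (F 64 L)) (V (F 64 L) (F 64 L)))))) v0_75)))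
noncomputable def v0_77 : Tr := (V (F 13 (U (S (T (V (T (S (F 1 L) (F 1 L)) (S (F 1 L) (F 17 (S L L)))) (S (T (F 16 L) (F 16 L)) (S (F 16 L) (F 16 L)))) (V (F 17 (S (T (S L L) (T L (S (F 8 L) (F 8 L)))) (T L L))) (T (S (F 16 L) (F 17 L)) (F 17 (S (S L L) L))))) (T (V (F 17 (S (T L L) (T L L))) (S (F 16 L) (F 16 L))) (V (F 17 (S (T L L) (T L L))) (S (F 16 L) (F 16 L))))) (S (T (V (S (S (F 1 L) (F 1 L)) (S (F 1 L) (F 1 L))) (F 17 (S (T L L) (T L L)))) (V (S (T (F 17 (S L L)) (F 9 (V L (F 8 L)))) (F 17 (T L L))) (F 17 (S (T L (S L L)) (T L L))))) (F 17 (T (V (S (T L L) (S L L)) (S (S L L) L)) (V (S (T L L) (S L L)) (T (S L L) (S L L)))))))) (F 76 (U (S (T (V (S (T (F 128 L) (F 129 (S L L))) (S (F 128 L) (F 128 L))) (S (T (F 1 L) (F 1 L)) (F 129 (T (S L L) (S L L))))) (V (S (V (S (F 1 L) (F 129 L)) (S (F 1 L) (F 1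 L))) (T (F 128 L) (F 129 (S L L)))) (S (T (F 1 L) (F 9 (S L L))) (T (F 1 L) (F 1 L))))) (T (V (S (F 128 L) (F 129 L)) (S (F 128 L) (F 128 L))) (V (S (F 128 L) (F 128 L)) (F 129 (S (T L (S L L)) (T L L)))))) (S (T (V (F 129 (S (T (S L L) (S L L)) (T L L))) (S (S (F 1 L) (F 1 L)) (F 129 (T L L)))) (V (S (T (F 1 L) (F 1 L)) (F 129 (T L L))) (S (S (F 1 L) (F 1 L)) (S (F 1 L) (F 1 L))))) (F 129 (T (V (S (S L L) L) (S (T L L) L)) (V (S (T L L) (S L L)) (S (T L L) (T L L)))))))))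
noncomputable def v0_78 : Tr := (U (F 77 (S (T (V (S (F 9 (U (K 0) (T (S L L) (S (K 0) L)))) (T (T (F 1 L) (F 1 L)) (F 9 (V L L)))) (S (F 9 (U (K 0) (T (S L L) (S L L)))) (T L (F 9 (V L L))))) (F 9 (V (T (S (K 0) (V L L)) (K 0)) (S (K 0) (T (V L (S (K 0) L)) (K 0)))))) (T (V (S (T (F 1 L) (F 1 L)) (T (F 1 L) (F 1 L))) (S (S L L) L)) (V (S (F 9 (U (K 0) (T (S L L) (S (K 0) L)))) (T (S (F 1 L) (F 1 L)) (F 9 (U (K 0) (S L L))))) (T (S (F 9 (V L L)) (F 8 L)) (F 9 (U (K 0) (S (S (K 0) L) (S L L))))))))) (F 1096 (S (T (V (F 160 (S (T (V (F 8 L) (F 8 L)) (V (F 8 L) (F 8 L))) (T L (V (F 8 L) (F 8 L))))) (S (F 36 (V (T (S (F 1 L) (F 1 L)) (S (F 1 L) (F 1 L))) (S L L))) (F 160 (T L (V (F 8 L) (F 8 L)))))) (F 36 (V (S (T (V (S (F 1 L) (F 1 L)) (S (F 1 L) (F 1 L))) (U (K 1) (S (F 1 L) (F 1 L)))) (T (V (F 1 L) (F 1 L)) (V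 (S (F 1 L) (F 1 L)) (S (F 1 L) (F 1 L))))) (S (T (S L L) (S L L)) (T (V (F 1 L) (S (F 1 L) (F 1 L))) (V (S (F 1 L) (F 1 L)) L)))))) (T (F 160 (V (S (T L L) (T L L)) (S (T L L) (S L L)))) (V (T (F 160 (S (V (F 8 L) (F 8 L)) L)) (F 132 (S (V (S (F 2 L) (F 2 L)) (F 2 L)) (V L (S (F 2 L) (F 2 L)))))) (F 160 (T (S (V (F 8 L) (F 8 L)) L) (S (V (F 8 L) (S (F 8 L) (F 8 L))) (V (F 8 L) (S (F 8 L) (F 8 L)))))))))))
noncomputable def v0_79 : Tr := (U (S (T (V (S (F 36 (T (S L L) (S L L))) (T (F 160 (S L L)) (F 36 (V (S (F 1 L) (F 1 L)) L)))) (F 36 (S (T (V L (F 32 L)) (S (F 32 L) (S (F 32 L) (F 32 L)))) (T (S L L) (V L (S (F 32 L) (F 32 L))))))) (V (F 36 (U (K 1) (S (T L (K 1)) (T L (K 1))))) (F 5 (S (T (S (F 4 L) (F 4 L)) L) (T (S (F 4 L) (S (F 4 L) (F 4 L))) L))))) (T (V (F 160 (S (T L (S L L)) (T L L))) (S (T (F 160 (S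 L L)) (S (F 36 L) (F 160 L))) (F 160 (T (S L L) (S L L))))) (V (S (F 132 (U (K 0) (T (V (F 2 L) (F 2 L)) (V (F 2 L) L)))) (F 160 (T (S (T (F 8 L) (F 8 L)) L) (U (K 0) (V (F 8 L) (F 8 L)))))) (S (T (V (F 36 L) (F 5 L)) (F 5 (S L L))) (V (F 132 (T (S (S (F 2 L) (F 2 L)) (F 2 L)) L)) (T (F 132 L) (F 5 L))))))) (S (T (V (S (F 36 (T (S L L) (S L L))) (T (S (F 36 L) (F 160 L)) (F 36 (S L L)))) (F 36 (S (V L (S (F 32 L) (F 32 L))) (T (S L L) (V L (F 32 L)))))) (V (F 36 (S (T L (S (F 32 L) L)) (T (S L L) (S L L)))) (F 5 (T (S (F 4 L) (S (F 4 L) (F 4 L))) (S (F 4 L) L))))) (T (V (F 160 (S (T L (S L L)) (T L L))) (S (T (F 32 L) (F 36 (S L L))) (F 160 (T L (S L L))))) (V (S (F 36 (V (T (S (F 1 L) (F 1 L)) (S (F 1 L) (F 1 L))) (T L L))) (T (F 160 (V L (S (F 8 L) (F 8 L)))) (F 132 (V (S (F 2 L) (F 2 L)) L)))) (T (S (F 5 (S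 L L)) (S (F 36 L) (F 132 L))) (F 5 (S L (S L L))))))))
noncomputable def v0_80 : Tr := (V (U (S (T (V (T (S (F 1 L) (F 5 L)) (S (F 1 L) (F 5 L))) (S (F 1 L) (F 1 L))) (V (S (S (F 1 L) (F 1 L)) (S (F 1 L) (F 1 L))) (S L (F 1 L)))) (T (V (F 5 (S (T L L) (T L L))) (S (F 1 L) (F 1 L))) (V (S (S (F 1 L) (F 1 L)) (T (F 5 L) (F 1 L))) (S (F 1 L) (F 1 L))))) (S (T (V (T (F 5 (S L L)) (S (F 1 L) (F 5 L))) (S (F 1 L) (F 1 L))) (V (S (S (F 1 L) (F 1 L)) (S (F 1 L) (F 1 L))) (S (F 1 L) (F 1 L)))) (T (V (F 5 (S (T L L) (T L L))) (S (F 1 L) (F 1 L))) (V (T (F 5 (S L L)) (S (F 1 L) (F 5 L))) (S (F 1 L) (F 1 L)))))) (U (S (T (V L L) (V L (S L (F 1 L)))) (T (S L L) (V L L))) (S (T (V (S (F 1 L) (F 1 L)) (S (F 1 L) (F 1 L))) (V (S (F 1 L) (F 1 L)) (S (S (F 1 L) (F 1 L)) (F 1 L)))) (T (V (S (F 1 L) (F 1 L)) (F 1 L)) (V (S (F 1 L)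 (F 1 L)) (S (F 1 L) (F 1 L)))))))
noncomputable def v0_81 : Tr := (V (F 73 (U (S (T (V (F 65 (S (T L L) (T L L))) (S (F 64 L) (F 64 L))) (V (S (F 65 (T (S L L) (S L L))) (V (F 1 L) (F 65 (T L L)))) (T (F 65 (S L L)) (S (F 72 (V L (S (F 32 L) (F 32 L)))) (F 64 L))))) (T (V (F 65 (T (S L L) (S L L))) (S (F 64 L) (F 64 L))) (V (S (V (F 1 L) (F 65 (S L L))) (T (F 65 (S L L)) (F 1 L))) (T (F 65 (S L L)) (S (F 64 L) (F 64 L)))))) (S (T (F 65 (V (S (T L L) (S L L)) (S (S L L) (S L L)))) (V (S (F 65 (T L (S L L))) (T (F 65 L) (F 1 L))) (F 65 (S (T L L) (T L (S L L)))))) (T (F 65 (V (S (T L L) (T L L)) (T L (S L L)))) (V (S (S (F 1 L) (F 1 L)) (S (F 1 L) (F 1 L))) (F 65 (T (S L L) (S (S L L) (S L L))))))))) (F 69 (U (S (T (V (S (F 64 L) (F 64 L)) (F 65 (T (S L L) (S (S L L) L)))) (V (T (F 65 (S (S L L) L)) (S (F 72 (U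 L (V (F 32 L) (F 32 L)))) (F 65 (S L L)))) (T (F 65 (S (S L L) (S L L))) (S (F 9 (S L L)) (S (F 9 L) (F 1 L)))))) (T (V (S (F 64 L) (F 64 L)) (S (F 64 L) (F 64 L))) (V (T (F 65 (S L L)) (S (F 65 (S L L)) (F 64 L))) (T (F 65 (S (S L L) L)) (S (F 1 L) (S (F 1 L) (F 65 L))))))) (S (T (F 65 (V (T (S L L) (S L L)) (S (T L L) (T L L)))) (T (F 65 (V (S L L) (S (S L L) (S L L)))) (V (S (F 9 (V (S (F 2 L) (F 2 L)) L)) (F 65 (S L L))) (S (F 9 (S L L)) (F 1 L))))) (T (F 65 (V (S (S L L) (S L L)) (T L (S L L)))) (V (F 65 (T (S L L) (S (S L L) (S L L)))) (T (F 65 (S L L)) (S (F 1 L) (F 1 L)))))))))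
noncomputable def v0_82 : Tr := (V (F 713 (U (F 14 (S (T (K 1) (V (K 1) (K 0))) (K 1))) (S (V (T (S (F 2 L) (K 0)) (F 2 L)) (T (S (V (S (F 2 L) (F 2 L)) L) (T L (S (F 2 L) (F 2 L)))) (S (S (K 4) (F 2 L)) (S (F 2 L) (F 2 L))))) (V (T (K 0) (F 2 L)) (T (U (K 0) (S (S (F 2 L) (F 2 L)) (S (F 2 L) (F 2 L)))) (S (F 2 L) (F 2 L))))))) (U (F 749 (S (K 2) (T (V (F 4 (T (K 1) (K 0))) (F 1 (S (K 0) (K 1)))) (K 1)))) (S (F 73 (T (V (S (T (V (F 5 L) (F 1 L)) (K 6)) (V (F 5 (S L L)) (T (F 5 (S L L)) (F 1 L)))) (S (K 6) (U (K 6) (T L L)))) (F 9 (V (S (K 0) (U (K 0) (V (F 8 L) (S (K 0) L)))) (K 0))))) (T (S (V (F 521 (T (F 2 L) (T (F 10 (S L L)) (F 12 (V (F 8 L) L))))) (T (F 521 (S L L)) (S (F 73 L) (F 521 L)))) (V (F 681 (T (S L L) (S L L))) (T (F 521 (V (F 2 L) L)) (F 41 (V (F 1 L) L))))) (F 105 (V (S (V (F 5 (S L L)) (T (F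 1 L) (F 1 L))) (F 5 (U (K 2) (S L L)))) (S (U (K 5) (V (S (F 1 L) (F 1 L)) (T L (K 5)))) (U (K 3) (V (S (F 1 L) (F 1 L)) (S (F 1 L) (F 1 L)))))))))))
noncomputable def v0_83 : Tr := (V (U (F 18 (S (T (V (S L L) (S (K 0) (V L (K 0)))) (V (S (K 0) (F 8 L)) (K 0))) (V (T (S (F 8 L) (F 8 L)) (S (F 8 L) (F 8 L))) (T (S (S L L) (S L L)) (S (T L (K 0)) (S (F 8 L) (F 8 L))))))) (S (T (F 18 (V (S L L) (S (T L L) (S L L)))) (V (F 22 (S L L)) (S (V (F 18 L) (F 16 L)) (F 18 (S L L))))) (F 18 (V (T (S (F 8 L) (F 8 L)) (F 8 L)) (T (S (S L L) L) (S (T (F 8 L) (F 8 L)) (F 8 L))))))) (U (S (K 6) (T (V (S (U (K 6) (S (F 16 L) (F 16 L))) (T (V (F 18 L) (F 16 L)) (S (F 16 L) (F 16 L)))) (U (K 6) (S (T (F 16 L) (K 6)) (T (F 16 L) (F 16 L))))) (V (S (K 6) (V (F 20 (S L L)) (S (K 6) (F 16 L)))) (K 6)))) (S (T (V (S (U (K 6) (S (F 16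 L) (F 16 L))) (T (F 16 L) (F 16 L))) (S (U (K 6) (T (F 16 L) (S (K 6) (F 16 L)))) (T (S (F 16 L) (F 16 L)) (S (F 16 L) (F 16 L))))) (S (K 6) (U (K 6) (V (S (F 16 L) (F 16 L)) (T (S (K 6) (F 16 L)) (K 6)))))) (T (V (S (T (F 16 L) (F 16 L)) (V (F 18 (S L L)) (F 16 L))) (S (T (S (F 16 L) (F 16 L)) (S (F 16 L) (F 16 L))) (T (S (F 16 L) (F 16 L)) (S (F 16 L) (F 16 L))))) (V (S (T (F 16 L) (F 16 L)) (V (F 20 L) (F 16 L))) (S (T (S (F 16 L) (F 16 L)) (S (F 16 L) (F 16 L))) (V (S (F 16 L) (F 16 L)) (S (F 16 L) (F 16 L)))))))))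
noncomputable def v0_84 : Tr := (U (S (T (V (S (V (F 6 (S L L)) (S (F 4 L) (F 4 L))) (V (F 6 L) (T (F 4 L) (F 6 L)))) (S (T (S (F 4 L) (F 4 L)) (S (F 4 L) (F 4 L))) (T L (S (F 4 L) (F 4 L))))) (V (S (T (F 4 L) (F 12 (S L L))) (F 12 (V (S (F 8 L) (F 8 L)) (S L L)))) (T (S (S (F 4 L) (F 4 L)) (S (F 4 L) (F 4 L))) (S (V (F 12 L) (F 4 L)) (F 12 (V L (S L L))))))) (T (S (V (T (F 2 L) (F 6 (V (F 8 L) L))) (T L (S (F 4 L) (F 4 L)))) (V (F 10 (T L L)) (T L (S (F 8 L) (F 8 L))))) (F 12 (V (S (V (F 8 L) L) (T (S (F 8 L) (F 8 L)) (F 8 L))) (S (V (S L L) (T (S L L) L)) (V (S L L) (T (S L L) L))))))) (S (T (V (S (V (F 6 L) (F 4 L)) (F 6 (T L L))) (S (T (S (F 4 L) (F 4 L)) (S (F 4 L) (F 4 L))) (T L (S (F 4 L) (F 4 L))))) (V (F 12 (S (T L L) (V (F 8 L) L))) (T (S (S (F 4 L) (F 4 L)) (F 4 L)) (S (V (F 12 L) (F 4 L)) (F 12 (S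 L L)))))) (V (T (T (F 2 L) (F 10 (S (S (F 8 L) (F 8 L)) L))) (F 14 (S (T L L) (S L L)))) (T (S (T L (F 4 L)) (S L (F 8 L))) (F 12 (S (V (S L L) (S L L)) (V L (S L L))))))))
noncomputable def v0_85 : Tr := (T (F 521 (V (U (S (F 6 (V (T (S (F 8 L) (F 8 L)) (F 8 L)) (T (S L (S (F 8 L) (F 8 L))) (S (S (F 8 L) (F 8 L)) (F 8 L))))) (F 10 (V (T (S (F 8 L) (F 8 L)) (F 8 L)) (T (S (S (F 8 L) (F 8 L)) L) (S (F 8 L) (F 8 L)))))) (S (F 6 (V (S (F 8 L) (F 8 L)) (T (S L (S (F 8 L) (F 8 L))) (S (F 8 L) (F 8 L))))) (F 10 (T (V (S (F 8 L) (F 8 L)) (S (F 8 L) L)) (S (F 8 L) (F 8 L)))))) v0_84)) (F 609 (V (F 10 (U (S (V (S L L) (T (S L L) (S L L))) (V L (T L L))) (S (V L (T (S L L) (S L L))) (T (S L L) (S L L))))) (U (S (T (V (S (T (F 8 L) (F 8 L)) (S (F 8 L) (F 8 L))) (S (K 5) (V (S (F 8 L) (F 8 L)) L))) (S (K 5) (V L (S (K 5)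 L)))) (T (V (S (V (F 10 L) (F 8 L)) (F 10 (S L L))) (S (V (F 8 L) L) (T (S (F 8 L) (F 8 L)) L))) (V (S (F 8 L) (F 10 (S L L))) (S (S L L) L)))) (S (T (V (S (S (F 8 L) (F 8 L)) (F 8 L)) (S (S L L) (S L L))) (V (S L (F 2 L)) (S L L))) (V (T (F 10 (S (S L L) L)) (S (F 2 L) (F 10 L))) (T (T (S (S (F 8 L) (F 8 L)) (F 8 L)) (S (F 8 L) (F 8 L))) (S L L))))))))
noncomputable def v0_86 : Tr := (U (S (F 713 (T (V (U (K 4) (S (K 4) (V (T (S (S (K 4) (F 2 L)) (S (F 2 L) (F 2 L))) (S (K 4) (F 2 L))) (T (S (K 4) (S (K 4) L)) (K 4))))) (K 4)) (K 4))) (T v0_82 (F 617 (V (U (F 11 (S (K 0) (K 1))) (S (V (S (F 2 L) (F 2 L)) (S (K 4) (T (F 2 L) (K 4)))) (V (S (F 2 L) (K 2)) (T (S (F 2 L) (K 2)) (S (F 2 L) (K 2)))))) (U (F 11 (S (K 0) (T (K 1) (K 0)))) (S (K 4) (T (V (S (V (F 2 L) L) (F 27 (T (K 0) (K 0)))) (S (K 4) (U (K 2) (V L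 (S L L))))) (F 11 (V (S (K 0) (K 1)) (S (K 0) (S (K 0) (K 1)))))))))))) (S (F 577 (T v0_83 (V (F 20 (U (S (K 0) (V (T (F 8 L) (F 8 L)) (S (K 0) (T (S (K 0) (F 8 L)) (K 0))))) (S (V (T (S (F 8 L) (F 8 L)) (S (K 0) (F 8 L))) (S (K 0) (T (T L (K 0)) (K 0)))) (V (S (F 8 L) (F 8 L)) (T (S (S (F 8 L) (F 8 L)) (F 8 L)) (V (F 8 L) (S (F 8 L) (F 8 L)))))))) (U (K 6) (S (K 6) (T (V (S (T (F 20 (S L L)) (F 4 L)) (F 20 (T L L))) (U (K 6) (S (S (K 6) (F 4 L)) (S (F 4 L) (F 4 L))))) (S (K 6) (V (F 4 L) (S (K 6) (F 4 L)))))))))) v0_85))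
noncomputable def v0_87 : Tr := (V (U (F 589 (S (K 4) (T (V (T (S (K 4) (U (K 4) (V L L))) (K 4)) (T (S (K 4) (S (K 4) (T L (K 4)))) (K 4))) (K 4)))) (S (F 580 (T (V (F 80 (U (K 0) (T (S (V L L) (S L L)) (S (K 0) (V L L))))) (S (T (S (F 16 L) (F 16 L)) L) (V (T (F 80 (S L L)) (F 64 L)) (S L L)))) (V (K 5) (S (K 5) (T L (K 5)))))) (F 577 (T (V (S (T (F 48 (V (S L L) (S L L))) (V (F 16 L) (F 48 (S L L)))) (V (S (F 16 L) (F 16 L)) (F 48 (T (S L L) (S L L))))) (T (F 48 (S (V (S L L) (S L L)) (V (S L L) (S L L)))) (S (S (F 32 L) (F 32 L)) (S (F 32 L) (F 32 L))))) (V (S (U (K 6) (S L L)) (T (S L L) L)) (S (U (K 6) (T (F 32 L) (F 32 L))) (T (S (F 32 L) (F 32 L)) (S (F 32 L) (F 32 L))))))))) (F 580 (U (S (F 95 (T (S (K 0) (K 0)) (K 0))) (T (V (S (K 5) (T (S (K 5) (F 64 L)) (K 5))) (U (K 5) (S (F 1 L) (S (F 1 L) (F 1 L)))))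 (K 5))) (S (T (S (V (S (F 1 L) (F 1 L)) (F 1 L)) (V (V L (F 1 L)) (F 1 L))) (V (S (F 1 L) (S (F 1 L) (F 1 L))) (F 1 L))) (T (V (S (T (S (F 1 L) (F 64 L)) (F 1 L)) (T (S (F 64 L) (F 64 L)) (S (F 64 L) (F 64 L)))) (S (S (F 1 L) (F 1 L)) (S (F 1 L) (F 1 L)))) (V (S (S (F 1 L) (F 1 L)) (F 65 (T (S L L) L))) (S (F 1 L) (F 1 L))))))))
noncomputable def v0_88 : Tr := (S (T (V (F 521 (S (V (T (F 4 L) (F 4 L)) (F 36 (T (S L L) (U (K 0) L)))) (T (S (S (F 4 L) (F 4 L)) L) (V (F 4 L) (F 4 L))))) (S (F 581 (U (K 5) (T (V (F 16 L) (F 16 L)) (S L L)))) (T (F 525 (T L (V (F 4 L) (F 4 L)))) (F 69 (V (U (F 32 L) (F 33 (S L L))) (F 1 L)))))) (F 577 (V (S (T (V (F 16 L) (F 32 L)) (K 6)) (T (V (F 16 L) (S (F 16 L) (F 16 L))) (V (F 4 L) (F 4 L)))) (S (K 6) (U (K 6) (T (S (F 32 L) (F 32 L)) (S (K 6) (F 32 L)))))))) (T (V (F 521 (S (T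 L (V (F 4 L) (S (F 4 L) (F 4 L)))) (T (S L L) (S L L)))) (S (T (F 525 (V L L)) (U (F 77 (S L L)) (F 577 (V (F 16 L) (F 32 L))))) (F 521 (T (V (F 32 L) (F 32 L)) (V L (S (F 32 L) (F 32 L))))))) (F 577 (V (S (T (V (F 16 L) (F 16 L)) (S (S (F 4 L) (F 4 L)) (F 4 L))) (V (F 20 (T (S L L) (S L L))) (T (T (F 16 L) (F 20 (S L L))) (F 4 L)))) (S (T (V L (F 32 L)) (V (F 4 L) (F 36 (S L L)))) (V (T (F 4 L) (F 4 L)) (T (F 32 L) (F 36 (S L L)))))))))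
noncomputable def v0_89 : Tr := (U (S (T (V (T (S (S (F 4 L) (F 4 L)) (S (S (F 4 L) (F 4 L)) (S (F 4 L) (F 4 L)))) (U (K 6) (S (F 4 L) (S (F 4 L) (F 4 L))))) (S (T (V (F 4 L) (F 5 (S L L))) (F 5 (S L L))) (T (S (F 4 L) (F 4 L)) (V (F 4 L) (F 5 L))))) (U (K 6) (V (S (K 6) (S (F 4 L) (F 4 L))) (F 5 (S (F 30 (S (K 0) (K 0))) (S L L)))))) (T (V (T (S (V (F 32 L) (F 4 L)) (V (F 32 L) L)) (S (V (F 4 L) (F 4 L)) (V (S (F 4 L) (F 4 L)) (F 4 L)))) (T (S (S (F 4 L) (F 4 L)) L) (S (V (F 4 L) (F 5 L)) (S (F 4 L) (F 4 L))))) (V (T (S (S (F 4 L) (F 4 L)) (V (F 4 L) (F 4 L))) (S (T (F 4 L) (F 12 L)) (F 12 (V (S L L) L)))) (S (F 5 (T (S L L) L)) (T (S (F 5 L) (F 4 L)) (F 13 (S L L))))))) (S (T (V (S (T (S (F 4 L) (F 4 L)) (S (F 4 L) (F 4 L))) (T (S (F 4 L) (F 4 L)) (S (F 4 L) (F 4 L)))) (S (T (V (F 4 L) (F 5 L)) (F 5 (S L L)))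 (T (F 4 L) (F 5 (S L L))))) (V (S (T (F 4 L) (F 5 L)) (T (F 4 L) (F 4 L))) (F 5 (S (S L L) (S L L))))) (T (V (T (S L (S L L)) (S (S (F 4 L) (F 4 L)) (S (F 4 L) L))) (S (T (S (F 4 L) (F 4 L)) (F 4 L)) (T L (F 4 L)))) (V (S (T (S (F 4 L) (F 4 L)) (F 4 L)) (T (S (F 4 L) (F 4 L)) (F 12 (S L L)))) (F 5 (S (S L L) (T L (F 8 L))))))))
noncomputable def v0_90 : Tr := (V (U (S (T (V (S (K 6) (V (S (K 6) (F 4 L)) (K 6))) (K 6)) (K 6)) (T (V (S (V (S (F 4 L) (F 4 L)) (S (F 4 L) (F 4 L))) (V (F 4 L) (F 4 L))) (S (U (K 6) (S (F 4 L) (F 4 L))) (V (S (F 4 L) (F 4 L)) (F 4 L)))) (V (S (S (K 6) (F 4 L)) (S (F 4 L) (F 4 L))) (S (K 6) (F 4 L))))) (S (T (V (S (V (F 4 L) (F 4 L)) (T (F 4 L) (F 4 L))) (S (T (F 32 L) (F 36 L)) (S (F 4 L) (F 4 L)))) (V (S (F 4 L) (F 4 L)) (F 5 (S L L)))) (T (V (S (T (F 4 L) (F 4 L)) (S (F 4 L) (F 4 L)))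 (S (S (F 4 L) (F 4 L)) (S (F 4 L) (F 4 L)))) (V (S (F 4 L) (F 4 L)) (F 5 (S L L)))))) (U (F 36 (S (K 0) (T (V (S (V L (S (K 0) (F 16 L))) (T (S L L) (F 16 L))) (S (F 16 L) (F 16 L))) (S (K 0) (S (K 0) (F 16 L)))))) (S (F 33 (T (V (S (T L (F 8 L)) (S (F 8 L) (S (F 8 L) (F 8 L)))) (S (F 8 L) (F 8 L))) (S (F 8 L) (F 8 L)))) (F 36 (T (V (S (V L (F 16 L)) (T L (F 16 L))) (S (F 16 L) (F 16 L))) (S (F 16 L) (F 16 L)))))))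
noncomputable def v0_91 : Tr := (S (T v0_87 (V (F 577 (U (K 6) (S (K 6) (T (S (K 6) (U (K 6) (V (S (F 4 L) (F 4 L)) (F 33 (T L (K 0)))))) (K 6))))) (F 836 (U (K 4) (S (V (K 4) (S (K 4) (F 2 L))) (U (K 4) (T (S L L) (F 47 (S (K 0) (K 0)))))))))) (T (V (U v0_88 (S (T (V (F 521 (S (T (S (F 4 L) (F 4 L)) (S (F 4 L) (F 4 L))) (T L (S (F 4 L) (F 4 L))))) (F 517 (T (S (F 36 (V (S L L) (S L L))) (S (F 36 (V L L)) (F 32 L))) (S (S (F 4 L) (F 4 L)) (S (F 4 L) (S (F 4 L) (F 4 L))))))) (F 577 (V (T (S (S L (F 16 L)) (S (F 16 L) (F 16 L))) (S L (S (F 4 L) (F 4 L)))) (S (T (S (F 32 L) (F 32 L)) (S (F 32 L) (F 32 L))) (V L (S (F 32 L) (F 32 L))))))) (T (V (F 521 (S (T L (S (F 4 L) (F 4 L))) (T L L))) (T (F 525 (S (S L L) (S L L))) (S (F 577 (V (F 16 L) (F 32 L))) (F 521 (S L L))))) (F 577 (V (S (T (S (F 16 L) (F 16 L)) (S (F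 4 L) (F 4 L))) (T (F 20 (V (S L L) (S L L))) (S (F 4 L) (F 4 L)))) (S (T (S L L) (S (F 4 L) (F 4 L))) (T (V (F 4 L) (F 32 L)) (S (F 4 L) (F 4 L))))))))) (F 517 v0_89)) (F 577 v0_90)))
noncomputable def v0_92 : Tr := (T (V (F 36901 (U (S v0_68 (F 168 v0_69)) (S (F 1160 (T v0_70 (V (F 6 (U (S (T (V (S L L) (S (S L L) (S L L))) (V (S L L) (S (S L L) (S L L)))) (T (V (S L L) (S (S L L) (S L L))) (V (S (F 16 L) (F 16 L)) (S (T (F 16 L) (F 16 L)) (S (F 16 L) (F 16 L)))))) (S (T (V L (S L L)) (V L (S L L))) (T (V (S L L) (S L L)) (V L (T L (S (F 16 L) (F 16 L)))))))) v0_71))) (T v0_72 v0_73)))) (F 1125 (U v0_76 (S (T v0_77 (V v0_78 (F 1092 v0_79))) (T (F 77 v0_80) v0_81))))) (F 1381 (V v0_86 (U (S (K 1) (T (V (U (F 1005 (S (K 1) (T (V (S (K 1) (K 0)) (K 1)) (K 1)))) (S (F 13 (T (V (T (S (K 6) (S (K 6) L)) (K 6)) (K 6))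 (K 6))) (T (V (S (T (F 13 (S L L)) (F 73 (S L L))) (T (F 9 L) (F 9 L))) (F 13 (T (S L L) (U (K 6) (S (S (K 6) (F 8 L)) (S (F 8 L) (F 8 L))))))) (F 97 (V (S (V (T (S (K 6) (F 16 L)) (K 6)) (K 6)) (V (T (F 16 L) (F 16 L)) (T (S (F 16 L) (F 16 L)) (F 16 L)))) (S (K 6) (U (K 6) (U (K 6) (V (S (F 16 L) (F 16 L)) (S (K 6) (F 32 L))))))))))) (U (K 1) (S (K 1) (T (V (S (F 13 (T (S (K 6) L) (K 6))) (T (F 13 (S L L)) (F 69 (S L L)))) (F 69 (U (K 6) (S (T (S (K 6) (F 1 L)) (K 6)) (T L (S (K 6) (F 1 L))))))) (F 69 (V (S (K 6) (T (T L (K 6)) (K 6))) (K 6))))))) (F 609 (V (U (K 5) (S (K 5) (T (V (S (K 5) (V (S (K 5) L) (K 5))) (K 5)) (K 5)))) (K 5))))) v0_91))))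
noncomputable def v0_93 : Tr := (V (F 36 (U (F 23 (S (T (V (K 0) (S (K 0) (K 0))) (K 0)) (T (V (K 0) (S (K 0) (K 0))) (K 0)))) (S (T (V (S (F 2 L) (S (F 2 L) (F 2 L))) (S (F 2 L) (F 2 L))) (V (F 23 (S (K 0) (K 0))) (S (F 2 L) (F 2 L)))) (T (V (S (S L L) (T (F 16 L) (F 16 L))) (S (F 2 L) (S (F 2 L) (F 2 L)))) (S (V (F 2 L) (F 2 L)) (V (S (F 2 L) (F 16 L)) (F 2 L))))))) (F 48 (U (S (T (V (S (S (K 4) (F 4 L)) (F 4 L)) (U (K 4) (S (K 4) (S (K 4) (F 4 L))))) (V (S (K 4) (S (F 4 L) (F 4 L))) (K 4))) (T (V (S (F 4 L) (F 29 (S (K 0) (K 0)))) (S (U (K 1) (S (F 4 L) (F 4 L))) (K 1))) (V (F 29 (T (K 0) (K 0))) (U (F 13 (S (S (K 0) (K 1)) (K 1))) (S (V (F 4 L) (S (K 4) (F 4 L))) (K 1)))))) (S (T (V (S (F 4 L) (F 4 L)) (S (U (K 4) (T (F 4 L) (S (F 4 L) (F 4 L)))) (T (F 4 L) (S (F 4 L) (F 4 L))))) (V (S (S (F 4 L) (F 4 L))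 (F 4 L)) (U (S (K 4) (S (K 4) L)) (S (S (K 4) L) (S L (F 4 L)))))) (T (V (S (F 4 L) (F 4 L)) (S (S (F 4 L) (F 4 L)) (F 4 L))) (V (S (F 4 L) (F 4 L)) (S (V (F 4 L) L) (T (F 4 L) L))))))))
noncomputable def v0_94 : Tr := (S (F 48 (T (V (U (S (F 7 (T (V (S (K 0) (K 1)) (K 0)) (K 0))) (T (V (K 3) (S (K 4) (F 4 L))) (F 7 (V (K 1) (S (K 0) (K 1)))))) (S (T (V (S (F 4 L) (F 4 L)) (S (K 4) (S (K 4) (F 4 L)))) (V (S (S (K 4) (F 4 L)) (F 4 L)) (K 4))) (T (V (S (F 4 L) (F 4 L)) (S (F 4 L) (F 4 L))) (V (S (F 4 L) (K 3)) (S (S (F 4 L) (F 4 L)) (F 4 L)))))) (U (K 4) (S (K 4) (T (V (S (K 4) (S (F 4 L) (F 4 L))) (K 4)) (V (S (K 4) (S (K 4) (F 4 L))) (K 4)))))) (V (U (F 7 (S (K 0) (T (V (K 1) (U (K 0) (S (K 0) (K 1)))) (K 1)))) (S (F 7 (T (V (S (K 0) (F 1 (S (K 0) (K 0)))) (K 0)) (V (S (K 0) (K 1)) (K 0)))) (T (V (F 23 (S (K 0)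 (K 0))) (S (S (K 4) (F 4 L)) (S (F 4 L) (F 4 L)))) (V (K 3) (S (S (K 4) (F 1 L)) (S (F 1 L) (F 1 L))))))) (U (K 4) (S (K 4) (T (V (U (K 4) (S (K 4) (S (K 4) (F 1 L)))) (K 4)) (K 4))))))) (T v0_93 (F 48 (V (U (F 23 (S (K 0) (K 0))) (S (T (V (K 3) (S (F 4 L) (F 4 L))) (V (K 3) (U (K 3) (S (F 1 L) (F 1 L))))) (T (S (V (K 3) (F 4 L)) (V (K 3) (F 4 L))) (V (K 3) (U (K 3) (S (F 1 L) (F 5 (S L L)))))))) (U (S (F 7 (T (V (U (S (K 0) (K 1)) (S (K 0) (F 1 (S (K 0) (K 0))))) (K 0)) (V (U (K 0) (S (K 0) (K 1))) (K 0)))) (T (V (F 23 (U (K 0) (S (K 0) (K 0)))) (U (F 13 (S (K 0) (K 1))) (S (V L (K 4)) (S L (K 1))))) (V (F 23 (U (K 0) (S (K 0) (K 0)))) (U (F 7 (S (K 0) (F 1 (S (K 0) (K 0))))) (S (S (K 4) (F 1 L)) (S (F 1 L) (F 1 L))))))) (S (T (V (S (S (F 1 L) (F 1 L)) (S (F 1 L) (F 1 L))) (S (K 4) (S (F 1 L) (F 1 L)))) (V (S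 (S (F 1 L) (F 1 L)) (S (F 1 L) (F 1 L))) (S (K 4) (S (F 1 L) (F 1 L))))) (T (V (S (S (F 4 L) (F 4 L)) (S (F 4 L) (F 4 L))) (S (S (F 1 L) (F 1 L)) (S (F 1 L) (F 1 L)))) (V (S (S (F 1 L) (F 1 L)) (S (F 1 L) (F 1 L))) (S (F 1 L) (F 1 L))))))))))
noncomputable def v0_95 : Tr := (U (F 48 (S (K 4) (T (V (U (F 13 (S (K 0) (K 1))) (S (V (S (K 4) (F 4 L)) (K 4)) (S (T (S (F 4 L) (K 1)) (S L (K 1))) (K 1)))) (F 13 (U (K 0) (S (K 0) (T (V (S (K 0) (K 1)) (K 0)) (K 0)))))) (V (U (K 4) (S (K 4) (V (S L (K 1)) (S (K 4) L)))) (K 4))))) (S (F 48 (T (V (U (K 4) (S (K 4) (V (S L (F 4 L)) (S (K 4) (S L L))))) (K 4)) (V (U (K 4) (S (K 4) (V (S (K 4) (F 1 L)) (K 4)))) (K 4)))) (T (V (F 48 (U (S (V (S (F 4 L) (F 4 L)) (T (S (K 4) (F 4 L)) L)) (V (F 4 L) (T (S (F 4 L) (F 4 L)) L))) (S (V (S (F 4 L) (F 4 L)) (S L L)) (V (F 4 L) (S L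 (F 4 L)))))) (U (S (F 48 (T (V (S (K 4) L) (K 4)) (K 4))) (T (V (F 48 (S L L)) (S (F 16 L) (F 16 L))) (V (F 16 L) (F 16 L)))) (S (V (S (F 16 L) (F 16 L)) (F 80 (T (S L L) L))) (V (F 48 (T (S L L) L)) (S (F 16 L) (F 16 L)))))) (V (F 48 (U (S (V (S (K 4) (F 1 L)) (K 4)) (V L (S (F 1 L) (F 1 L)))) (S (V L (S (F 1 L) (F 1 L))) (S L L)))) (F 80 (U (S (K 4) (V (S (F 1 L) (F 1 L)) (S (K 4) (F 1 L)))) (S (S (K 4) L) (V (S (F 1 L) (F 1 L)) L))))))))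
noncomputable def v0_96 : Tr := (V (U (F 116 (S (F 1 (T (V (U (K 0) (S (K 0) (K 1))) (K 0)) (V (U (K 0) (S (K 0) (K 1))) (K 0)))) (T (V (K 1) (U (F 1 (S (K 0) (K 1))) (S (F 1 (T (V (U (K 0) (S (K 0) (K 1))) (K 0)) (K 0))) (K 0)))) (F 1 (V (K 1) (U (S (K 0) (K 1)) (S (K 0) (T (V (K 1) (U (K 0) (S (K 0) (K 1)))) (V (K 1) (U (K 0) (S (K 0) (K 1)))))))))))) v0_94) (U (K 0) (S (F 126 (T (V (K 0) (U (K 0) (S (T (V (K 0) (S (K 0) (K 0))) (K 0)) (K 0)))) (V (K 0) (U (K 0) (S (K 0) (K 0)))))) (T (V v0_95 (F 80 (U (K 4) (S (K 4) (T (V (U (S (K 4) (V (T (S (K 4) L) (K 4)) (K 4))) (S (S (K 4) (V L L)) (T (V (S L L) L) (S L L)))) (U (K 4) (S (T (F 8 L) (K 4)) (S (F 8 L) (F 8 L))))) (V (U (K 4) (S (K 4) (S L L))) (S (K 4) (T (F 8 L) (K 4))))))))) (F 112 (V (U (S (K 3) (T (V (U (K 3) (S (K 3) (V (S (K 3) L) (K 3)))) (K 3)) (V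 (U (K 3) (S (K 3) (S (K 3) L))) (K 3)))) (S (K 3) (T (V (S (S L L) (S L L)) (S (K 3) (S L L))) (V (S (S L L) L) (S (K 3) (S L L)))))) (U (K 3) (S (K 3) (T (V (U (K 3) (S (K 3) (S (K 3) L))) (K 3)) (K 3))))))))))
noncomputable def v0_97 : Tr := (S (F 3303 (T v0_45 (F 180 (V (K 2) (U (F 3 (S (K 0) (K 1))) (S (F 3 (T (V (U (S (K 0) (K 1)) (S (T (V (S (K 0) (K 1)) (K 0)) (K 0)) (T (V (K 1) (S (K 0) (K 1))) (K 1)))) (K 0)) (V (U (K 0) (S (K 0) (K 1))) (K 0)))) (T (V (K 2) (U (F 3 (S (K 0) (K 1))) (S (F 3 (T (V (S (K 0) (K 1)) (K 0)) (V (S (K 0) (K 1)) (K 0)))) (T (V (K 2) (S (K 3) L)) (F 3 (V (K 1) (S (K 0) (K 1)))))))) (F 3 (V (K 1) (U (S (K 0) (K 1)) (S (K 0) (T (V (K 1) (S (K 0) (K 1))) (V (K 1) (S (K 0) (K 1))))))))))))))) (T (V (F 36914 (U (F 84 (S (F 123 (T (V (F 1 (U (K 0) (S (K 0) (K 0)))) (U (K 0) (S (K 0)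 (K 1)))) (V (K 1) (K 0)))) (T (V (U (K 2) (S (F 251 (T (K 0) (K 0))) (T (V (U (K 2) (S (T (V (S (K 2) (F 128 L)) (K 2)) (K 2)) (T (V (F 128 L) (K 2)) (V (S (K 6) (F 128 L)) (K 2))))) (K 2)) (K 2)))) (K 2)) (F 59 (V (F 1 (U (K 1) (S (K 0) (K 1)))) (F 2 (U (K 0) (S (T (K 0) (V (K 0) (K 1))) (K 0))))))))) (S (F 1600 v0_47) (T v0_56 (F 1616 (V v0_58 v0_59)))))) (U (F 46437 (S (F 122 (T (V (K 1) (U (K 1) (S (T (K 0) (K 1)) (K 1)))) (K 1))) (T (V (F 94 (U (K 0) (S (T (K 0) (K 1)) (K 0)))) (U (K 0) (S (F 126 (T (V (K 0) (U (K 0) (S (K 0) (K 0)))) (K 0))) (T (V (U (K 5) (S (F 94 (T (V (K 0) (S (K 1) (K 0))) (K 1))) (T (K 5) (V (K 5) (S L (K 5)))))) (U (K 0) (S (T (V L L) (K 0)) (T (S L L) (V L L))))) (F 94 (V (U (K 1) (S (K 1) (T (V (K 0) (K 1)) (K 1)))) (K 1))))))) (F 92 (V (U (K 2) (S (K 2) (T (F 2 (V (K 1) (K 0)))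 (F 1 (V (K 1) (K 0)))))) (K 2)))))) (S (F 1125 v0_67) v0_92))) (F 33767 v0_96)))
noncomputable def treeV0 : Tr := (F 0x7ffffffffffffffffffffffffffffe7ffffffffffffffffffff1fffffffe3e7c7ffc7ffff (T (U (F 48383 (U (U (S (T (F 1 (V (K 0) (K 1))) (F 4 (V (K 1) (K 0)))) (F 1 (T (V (K 0) (K 1)) (V (K 0) (K 1))))) (S (T (F 1 (V (K 0) (K 1))) (F 4 (V (K 1) (K 0)))) (F 1 (T (V (K 0) (K 1)) (V (K 0) (K 1)))))) (F 1 (S (T (V (K 0) (K 1)) (V (K 0) (K 1))) (T (V (K 0) (K 1)) (V (K 0) (K 1))))))) (S (F 7399 (T (F 103 (V (K 0) (K 1))) v0_1)) (T (F 64531 v0_3) v0_42))) (U (F 5623 (U (U (S (F 44 (T (F 4 (V (K 0) (K 1))) (F 1 (V (K 1) (U (S (K 0) (K 1)) (S (K 0) (K 1))))))) (F 25 (T (F 2 (V (K 1) (K 0))) (F 1 (V (U (S (K 0) (K 1)) (S (K 0) (K 1))) (K 0)))))) (S (F 44 (T (F 4 (V (K 0) (K 1))) (F 1 (V (K 1) (S (K 0) (K 1)))))) (F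 25 (T (F 2 (V (K 1) (K 0))) (F 1 (V (S (K 0) (K 1)) (K 0))))))) (S (F 44 (T (V (K 1) (U (F 1 (S (K 0) (K 1))) (S (K 2) (F 4 (T (K 1) (K 0)))))) (F 1 (V (K 1) (U (S (K 0) (K 1)) (S (K 0) (K 1))))))) (F 17 (T (F 6 (V (K 1) (K 0))) (F 1 (V (U (F 4 (S (K 1) (K 0))) (S (K 0) (F 1 (T (K 0) (K 1))))) (K 0)))))))) v0_97)))

theorem pV0 : chkV par treeV0 128 128 256 256 256 256 0 374491 Lc = true := by decide +kernel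

noncomputable def v1_0 : Tr := (V (F 34 (U (S (T (F 19 (U (V (K 1) L) (V L L))) (U (F 3 (V (U (K 2) (T (K 2) L)) (F 1 (V (V L L) (V L L))))) (F 17 (V L (F 4 L))))) (T (F 17 (U (F 4 (V (U (K 0) (V (K 0) L)) (V (V L L) (V L L)))) (V L (F 4 L)))) (U (V (F 17 (U (K 1) (V (V L L) (V L (F 4 (V L L)))))) (F 18 (V (F 4 (U (U (K 0) (V (K 0) L)) (V L L))) (U (T (S (F 4 L) L) (V L L)) (F 4 (V L L)))))) (F 17 (V (U (V L (F 4 L)) (F 4 L)) (F 4 (U (V L L) L))))))) (F 19 (U (V L L) (F 1 L))))) (F 17 (U (S (F 3 (T (F 1 (U (V L (K 1)) (V L L))) (U (F 1 (V (V (V L L) (V L L)) (U (K 1) (V L (K 1))))) (V (F 1 L) L)))) (T (U (F 17 (V (F 4 (V (V L L) (V L L))) (U (K 0) (S (K 0) L)))) (F 3 (V (F 1 L) L))) (U (V (F 18 (V (U (S (T (F 4 L) L) (V L L)) (F 4 (V L L))) (F 4 (U (U (K 1) (V L (K 1))) (V L L))))) (F 3 (U (K 1) (V (V (F 1 (V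 L L)) L) (V L L))))) (F 3 (V (F 1 (U (V L L) L)) (U (V (F 1 L) L) (F 1 L))))))) (F 19 (U (V L L) (F 2 L))))))
noncomputable def v1_1 : Tr := (T (U (V (U (S (F 37 (T (K 1) (V (K 1) L))) (T (K 4) (V (T (K 4) (U (K 4) (V (F 1 L) (F 37 L)))) (F 37 (T (S L L) L))))) (S (F 5 (V (T (F 1 L) (T (F 1 L) L)) (T (F 3 L) (F 2 L)))) (T (F 5 (V (U (T (K 2) (V L (F 2 L))) (V (T (F 17 L) (F 1 L)) (F 1 L))) (U (S (F 2 L) (F 2 L)) (F 2 L)))) (V (T (V (S (F 5 L) (F 1 L)) (F 5 L)) (V (F 1 L) (F 33 L))) (F 37 (T L L)))))) (F 37 (U (T (V (S (F 1 L) L) (S L L)) (S (S L L) (S L L))) (T (V (S (F 1 L) L) (S (F 1 L) L)) (V L L))))) (V (S (F 69 (U (V (T (F 8 L) L) (F 1 (T L L))) (F 1 (T L L)))) (T (F 5 (V (U (V (T (F 17 L) (F 1 L)) (F 1 L)) (F 17 L)) (U (T (F 3 L) (F 2 L)) (F 19 L)))) (U (V (T (S (F 69 L) (F 1 L)) (F 1 L)) (F 37 (S L L)))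 (F 65 (V (S (F 8 L) L) (F 9 L)))))) (F 37 (U (T (F 1 (V L L)) (S (F 1 L) L)) (F 1 (T L L)))))) (U (V (U (S (T (V (V (F 1 L) (F 37 (S L L))) (F 37 L)) (F 33 (V (S L (F 4 L)) (F 8 L)))) (F 33 (T (V (S (T L L) (T (V L L) L)) (S (F 8 L) L)) (V (S L (S (F 4 L) (F 4 L))) L)))) (S (F 33 (T (V (S L L) (F 8 L)) (V (S (F 4 L) (F 4 L)) (F 8 L)))) (T (V (V (S (F 33 L) (F 1 L)) (F 33 (S L L))) (F 37 (S L L))) (F 33 (V (S (F 4 L) L) L))))) (F 37 (U (S (T (S L L) (V L L)) (T (S L L) (V L L))) (T (S L (S L L)) (S (T L L) (V L L)))))) (V (S (F 33 (U (T (T (F 8 L) (F 8 L)) (S L L)) (T (F 9 (T L L)) (F 1 L)))) (T (U (V (T (F 1 L) (F 33 L)) (F 37 L)) (V (F 65 L) (F 37 L))) (F 33 (U (V (S (F 4 L) L) L) (S L L))))) (F 37 (U (T (S (F 1 L) L) (V (S (F 1 L) L) (S (F 1 L) L))) (T (F 1 L) (S (F 1 L) L)))))))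
noncomputable def v1_2 : Tr := (U (S (T (F 101 (U (V (U (K 0) (T (T L L) (T L L))) (V (T (T L L) (U L L)) (T (U (S L L) L) (U (S L L) L)))) (V (U (T L L) L) (U (T L L) L)))) (U (V (U (F 36 (S (T (F 17 (V (T (K 2) L) L)) (V (T (F 16 L) (F 16 L)) (S (F 1 L) (F 16 L)))) (T (U (K 1) (S (F 16 L) (F 16 L))) (V (T (F 16 L) (F 16 L)) (F 16 L))))) (T (F 69 (V L (F 1 L))) (F 33 (V (S (F 9 (T L L)) L) (S (F 9 L) (F 8 L)))))) (F 36 (U (S (V (T (F 17 L) (F 1 L)) (T (F 1 L) (F 1 L))) (V (T (F 17 L) (F 16 L)) (T (F 1 L) (F 1 L)))) (T (F 17 (V L L)) (V (F 1 L) (F 1 L)))))) (F 100 (V (F 8 (U (T L (T L L)) (T L L))) (T (F 8 (V L L)) (V L L)))))) v1_1) (F 65 (S (F 9 (T (U (V L (F 1 L)) (F 3 L)) (U (V (T L L) (S L L)) (F 2 L)))) (T (U (U (F 24 (V (V L (F 4 L)) (F 4 L))) (F 9 (T (F 1 L) L))) (F 25 L)) (V (U (U (T (F 9 (T L L)) (S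 (F 9 L) (F 1 L))) (F 9 (T L (F 2 L)))) (F 13 L)) (F 9 (U (T L (T L L)) L)))))))
noncomputable def v1_3 : Tr := (T (F 96 (U (V (U (S (V (T (F 20 L) (F 4 L)) (F 12 (T (K 1) L))) (T (F 20 (V (S L L) (K 1))) (V (F 4 L) (F 4 L)))) (T (V (F 20 (S (F 1 L) L)) (F 12 (T (F 1 L) L))) (V (F 4 L) (F 4 L)))) (U (K 1) (V (T (F 12 L) (S (F 12 L) (F 4 L))) (T (F 12 L) (F 8 L))))) (V (U (T (F 28 (V L L)) (S (F 12 L) (F 4 L))) (F 20 (T (F 1 L) L))) (U (V (F 12 (T (F 1 L) L)) (F 8 L)) (F 12 (T (F 1 L) L)))))) (U (V (F 100 (U (S (V (S L L) (T L L)) (V (T L L) (T L L))) (T (V L L) (V L L)))) (U (F 68 (S (T (V (F 1 L) (F 9 (T (K 1) L))) (V (S (F 1 L) (F 1 L)) (U (S (F 8 L) (F 8 L)) (F 1 L)))) (T (U (K 2) (V (F 1 L) (S (F 1 L) (F 1 L)))) (V (S (F 1 L) (F 1 L)) (S L L))))) (F 96 (S (T (F 12 (V L L)) (V (F 4 L) (S (F 4 L) (F 4 L)))) (T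 (V (F 4 L) L) (V (F 4 L) (S (F 4 L) (F 4 L)))))))) (F 96 (V (T (V (F 4 L) (F 4 L)) (S (F 4 L) (F 4 L))) (T (V (F 4 L) (S (F 8 L) L)) (V (F 4 L) (U (F 4 L) (F 12 L))))))))
noncomputable def v1_4 : Tr := (V (F 36 (U (S (T (V (F 16 L) (F 17 (V L (K 1)))) (V (S (F 16 L) (F 16 L)) (T (S (F 1 L) (F 16 L)) (S (F 1 L) (F 1 L))))) (T (V (F 16 L) (U (K 2) (S (F 16 L) (F 16 L)))) (V (F 16 L) (V (F 16 L) (T (F 16 L) (F 16 L)))))) (S (V (F 17 (T L L)) (T (F 17 (T L L)) (S (F 1 L) (F 1 L)))) (T (V (F 16 L) (S (F 16 L) (F 16 L))) (V (F 16 L) (T (F 16 L) (S (F 16 L) (F 16 L)))))))) (U (S (F 100 (T (K 1) (V (V (T (K 1) L) (K 1)) (K 1)))) (T (K 3) (V (F 36 (U (K 2) (V (T (F 16 L) L) (S (T (K 2) (F 1 L)) (T L L))))) (U (K 3) (T (K 3) (V (V (F 68 (S (K 2) L)) (F 64 L)) (S (K 3) (F 64 L)))))))) (S (F 96 (T (V (V (F 20 L) (F 8 L))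 (T (F 24 L) (F 8 L))) (V (T (F 4 L) (F 4 L)) (T L L)))) (T (V (F 37 (U (V L (S (F 1 (T (K 1) L)) (S L L))) (S (F 1 (S L L)) (T (F 1 L) L)))) (F 96 (U (U (K 1) (T (K 1) (V (F 16 L) (F 8 L)))) (V (T (F 24 L) (F 16 L)) (T (F 24 L) (F 8 L)))))) (V (F 36 (T (V (S (F 17 L) (F 16 L)) (S (F 1 L) L)) (S (S (F 1 L) (F 1 L)) (T L L)))) (T (V (F 96 (U (S (F 4 L) L) L)) (S (F 96 L) (F 64 L))) (V (S (F 100 L) (F 64 L)) (S (F 96 L) (F 64 L)))))))))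
noncomputable def v1_5 : Tr := (V (F 36 (U (S (T (V (S (F 1 L) (F 16 L)) (T (F 1 L) (F 1 L))) (V (S (F 1 L) L) (T (F 1 L) (F 1 L)))) (T (V (S (F 16 L) (F 16 L)) (V (S (F 16 L) (F 16 L)) (T L L))) (V (T (F 16 L) (S (F 16 L) (F 16 L))) (V (S L L) (S L (T L L)))))) (S (T (V (F 1 L) (F 1 L)) (V (F 1 L) (F 1 L))) (T (V (F 16 L) (T (S (F 1 L) (F 16 L)) L)) (V (S (F 16 L) (F 16 L)) (T L (S (F 1 L) L))))))) (U (S (F 68 (T (V (T (S (F 1 L) (F 1 L)) (S (F 1 L) (F 1 L))) (U (K 2) (T L L))) (V (S L L) (S L L)))) (T (V (T (V (F 36 (S (F 1 L) L)) (S (F 68 L) (F 4 L))) (S (F 68 (S L L)) (V (F 36 L) (F 4 L)))) (T (U (K 3) (V (F 68 (S (F 1 L) L)) (F 64 L))) (F 68 (S (S L L) (V L L))))) (V (S (F 68 (T L L)) (V (S (F 4 L) (F 4 L)) (F 68 (T L L)))) (F 68 (S (S L L) (T (S L L) (S (F 2 L) (F 2 L)))))))) (S (T (V (F 100 (T L L)) (T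 (F 96 L) (F 68 L))) (F 68 (V (S (F 1 L) (F 1 L)) (S (F 2 L) L)))) (T (V (T (F 36 (S (F 1 L) (U L (F 1 L)))) (F 68 (S (F 1 L) (V (F 1 L) L)))) (V (F 68 (S L (T (S (F 1 L) L) L))) (T (F 64 L) (F 64 L)))) (F 68 (V (S L (V L L)) (S L (T L (F 2 L)))))))))
noncomputable def v1_6 : Tr := (T (U v1_4 (V (F 37 (U (V (F 1 (T L (S L L))) (T (F 1 (S (F 1 L) (S L L))) (S (F 1 L) (S (F 1 L) L)))) (F 1 (V L (T (F 1 L) L))))) (F 96 (S (V (T (F 20 (U (T (F 1 L) L) (F 1 L))) (U (F 4 L) (F 20 L))) (U (T (F 24 L) L) (F 8 L))) (T (U (V (V (F 20 L) (S (F 24 L) (F 16 L))) (F 24 (U (V L L) L))) (F 24 (V (F 1 L) L))) (U (V (T (V (F 20 L) (F 4 L)) (S (F 4 L) (F 4 L))) (T (V L L) (V L L))) (V (F 20 (T L L)) L))))))) (U v1_5 (V (F 36 (S (T (V (F 1 L) (F 1 L)) (V (F 1 L) (F 1 L))) (T (U (V (F 16 L) (S (F 1 L) (F 16 L))) (F 17 (T L L))) (U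 (V (F 16 L) (T (F 1 L) (F 1 L))) (T (F 17 L) (F 1 L)))))) (S (F 96 (T (V (T (F 4 L) (F 4 L)) (T L L)) (U (V (F 4 L) (F 4 L)) (F 4 L)))) (T (U (V (F 100 (T (S L L) L)) (V (F 96 (T L (F 4 L))) (F 64 L))) (F 96 (V (F 4 L) (S (F 4 L) L)))) (F 68 (U (V (T (F 1 L) (F 1 L)) (S L L)) (V (F 1 L) (S (F 3 L) (F 1 L))))))))))
noncomputable def treeV1 : Tr := (F 0x7ffffffffffffffffffffffffffffffffffffffffffffffffff9ffffffff7c3ffffc7ffff (T (F 642 v1_0) (V (F 70 v1_2) (F 140 (U (S v1_3 v1_6) (F 96 (S (T (F 12 (U (V (F 1 L) (T (F 1 L) L)) (F 5 L))) (V (U (S (F 4 L) (F 4 L)) (F 28 L)) (F 12 (U (T L L) (F 4 L))))) (T (F 24 (U (U (V (F 1 L) (V (F 1 L) L)) (F 1 (V L L))) (F 1 L))) (V (F 20 (U (U (T L (S L L)) L) L)) (U (U (T (T (F 4 L) (F 4 L)) (S (F 5 L) (F 4 L))) (S (F 12 L) (F 4 L))) (S (F 13 L) (F 20 L))))))))))))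

theorem pV1 : chkV par treeV1 64 64 128 128 256 256 374491 748983 Lc = true := by decide +kernel

noncomputable def v2_0 : Tr := (V (U (S (K 6) (T (F 307 (V (K 1) (V (K 1) (S (K 1) L)))) (V (F 274 (U (K 1) (S (K 1) (V (S (K 1) L) (V L (S (F 4 L) (F 4 L))))))) (F 305 (U (K 1) (V (T (S (K 1) (F 16 L)) (S L L)) (S (F 8 L) L))))))) (S (F 273 (T (V (F 40 (S (F 1 L) L)) (V (F 40 L) (F 52 L))) (V (U (U (K 1) (S (K 1) (V (F 40 L) (F 48 L)))) (V (F 40 (S (F 1 L) L)) (F 48 (S (F 1 L) L)))) (F 20 (U (V (T (F 1 (S (K 1) L)) (S (F 2 L) L)) L) (T (F 1 (S (F 4 L) L)) (S (F 1 L) L))))))) (T (F 275 (V (S L L) (S (F 4 L) (F 4 L)))) (V (F 274 (S (V (T (F 32 L) L) (U (S (F 32 L) (F 32 L)) (F 32 L))) (V (S L L) (T (F 36 L) L)))) (F 305 (S (V (T (F 16 L) L) (S (F 8 L) (F 8 L))) (T (S (F 16 L) (F 16 L)) (S L L)))))))) (F 305 (U (S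 (T (V (F 24 (V (K 1) L)) (F 8 L)) (V (U (K 1) (S (F 8 L) (F 8 L))) (F 8 L))) (T (V (S (T (F 16 L) (F 8 L)) (S (F 16 L) (F 16 L))) (S (F 24 L) (F 8 L))) (V (V (S (F 8 L) (F 8 L)) (F 8 L)) (F 8 L)))) (S (V (T (F 24 (S L L)) (S (F 8 L) (F 8 L))) (T (F 24 L) (F 8 L))) (V (T (S (F 24 L) (F 16 L)) (S (F 8 L) (S (F 8 L) (F 8 L)))) (S (F 8 L) (F 8 L)))))))
noncomputable def v2_1 : Tr := (V (U (S (T (F 306 (V (U (K 1) (S L L)) (S (S (F 16 L) (F 16 L)) (S (F 16 L) (F 16 L))))) (V (F 274 (S (U (K 1) (V L (S (F 4 L) (F 4 L)))) (T (S (F 4 L) (F 4 L)) (V (F 4 L) (F 4 L))))) (F 304 (S (V (T (F 16 L) L) (T (F 48 L) (F 32 L))) (T (S (F 16 L) (F 16 L)) (V L (F 32 L))))))) (F 306 (T (V (S L L) (T L L)) (V (T (S L (F 1 L)) (S (S L L) (S (F 1 L) (F 1 L)))) (T (S L L) (V (S L L) (S L L))))))) (S (T (F 274 (V (S (F 32 L) (F 4 L)) (F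 36 (S L L)))) (V (F 274 (V (S L L) (T (F 4 L) (S (S (F 4 L) (F 4 L)) (F 4 L))))) (F 304 (S (T (F 48 L) (U (F 32 L) (F 48 L))) (T (F 48 L) (V (F 16 L) (F 48 L))))))) (F 306 (T (V (S L (F 1 L)) (S (F 16 L) (F 16 L))) (V (T L (S L (F 1 L))) (T L (V L L))))))) (F 305 (U (S (T (V (S (F 16 L) (F 16 L)) (S (F 8 L) (F 8 L))) (V (V (S L L) (S (F 8 L) (F 8 L))) (S (F 8 L) (F 8 L)))) (T (V (S (F 16 L) (F 16 L)) (S (F 16 L) (F 16 L))) (V (V (T L (S L L)) (S L L)) (S (F 8 L) (S (F 8 L) (F 8 L)))))) (S (T (V (F 16 L) (F 16 L)) (V (S (S (F 8 L) (F 8 L)) L) (F 8 L))) (T (V (F 16 L) (F 16 L)) (V (S L (T (F 16 L) L)) (S (F 8 L) (F 8 L))))))))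
noncomputable def v2_2 : Tr := (T (F 274 (U (V (U (S (U (K 1) (V (F 40 (V L (F 2 (S (K 1) L)))) (F 36 (S (F 2 L) L)))) (T (F 36 (V (U (S (K 2) L) L) (S L L))) (V (S (F 4 L) (F 4 L)) (F 36 (S L L))))) (S (V (F 40 (S L L)) (F 36 (S (F 2 L) L))) (F 36 (V (T (S (F 2 L) L) (S L L)) (S L L))))) (F 36 (U (S (V (S L L) (S L L)) (V (S L L) (S L L))) (S (V L L) (V L L))))) (V (S (V (F 40 (S L L)) (F 36 L)) (F 36 (V (U L (F 2 L)) L))) (F 36 (S (V L L) (S L L)))))) (U v2_1 (V (F 274 (S (T (V (S (F 32 L) (F 32 L)) (F 36 (S L L))) (U (V (V L (S (F 32 L) (F 36 L))) (F 36 (S (S L L) L))) (F 36 (V (S L L) L)))) (T (F 36 (U (V L L) L)) (U (V (S (F 4 L) (F 4 L)) (F 36 (S L L))) (F 36 (V (S L (F 8 L)) L)))))) (F 305 (S (U (T (S (F 16 L) (F 16 L)) (V (S (F 24 L) (F 16 L)) (F 8 L))) (F 24 (V (S L L) L))) (T (V (F 16 L) (F 16 L)) (U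 (V (S (F 16 L) (F 16 L)) (F 8 L)) (S (F 24 L) (F 16 L)))))))))
noncomputable def v2_3 : Tr := (U (S (T (F 275 (U (V (U (K 1) (V (S (F 12 L) (F 8 L)) (F 12 (S L (S L L))))) (U (S (V (K 1) (T (F 12 L) (F 20 (S L L)))) (V (S (F 4 L) (F 4 L)) (S (F 4 L) (F 4 L)))) (S (V (F 12 (S (F 1 L) L)) (F 20 (S (F 1 L) L))) (V (F 4 L) (F 4 L))))) (V (U (V (F 8 L) (F 12 (S (F 1 L) L))) (F 12 (S (F 1 L) L))) (U (S (F 28 (V L L)) (S (F 4 L) (F 4 L))) (F 12 (S (F 1 L) L)))))) (U v2_0 (F 275 (V (S (U (V (F 24 (U (V L L) L)) (V (F 24 (V L L)) (F 20 (S (F 1 L) L)))) (F 24 (V L (F 1 L)))) (T (V (S L L) (U (F 4 L) (F 12 L))) (U (V (S (V L L) (V L L)) (S (V (F 4 L) (F 20 L)) (S (F 4 L) (F 4 L)))) (V L (F 20 (S L L)))))) (F 20 (U (V (S (T (F 1 L) (S L L)) (T L (S L L))) (S L (S L L))) (V (S (F 1 L) L) L))))))) v2_2) (F 275 (S (F 24 (U (U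 (V (V L (F 1 L)) (F 1 L)) (F 1 (V L L))) (F 1 L))) (T (V (F 12 (U (S L L) (F 4 L))) (U (S (F 12 L) (F 4 L)) (F 28 L))) (V (U (U (S (S (F 4 L) (F 4 L)) (S (F 4 L) (F 4 L))) (S (F 12 L) (F 5 L))) (S (F 28 L) (F 5 L))) (F 20 (U (U (S L (S L L)) L) L)))))))
noncomputable def v2_4 : Tr := (T (F 41 (U (V (V (S (U (S L L) L) (U (S L L) L)) (S (S L L) (U L L))) (U (K 2) (S (S L L) (S L L)))) (V (U (S L L) L) (U (S L L) L)))) (U (V (F 9 (U (S (V (S L L) (S L L)) (T (S L L) (S L L))) (S (V (S L L) (S L L)) (V L L)))) (U (S (K 1) (T (F 9 (V L (K 3))) (V (F 9 (S (S L L) L)) (S (K 1) (U (K 1) (V (F 9 L) L)))))) (S (T (F 40 (V (F 8 L) L)) (V (F 9 (U (S L L) L)) (U (S (K 1) (V (F 9 L) (F 8 L))) (F 40 (V L (S (F 1 L) L)))))) (T (V (F 9 L) (S (F 40 L) (F 8 L))) (V (F 9 (S L L)) (S (V (F 8 L) (S L L)) (V (F 1 L) L))))))) (V (F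 9 (U (S (F 1 (V L L)) (S L L)) (F 1 (S L L)))) (S (F 40 (V (U (V (F 8 L) L) (F 9 L)) (U (V L (S (F 1 L) L)) (F 1 L)))) (U (V (F 9 (U L (F 1 L))) (T (F 40 L) (S (T (F 40 L) L) L))) (F 40 (V (F 8 L) (S L L))))))))
noncomputable def v2_5 : Tr := (T (U (V (F 305 (U (S (V (S (F 16 L) (F 16 L)) (F 24 (S L L))) (V (S (F 16 L) (F 16 L)) (T (F 16 L) (F 8 L)))) (S (F 24 (V L L)) (V (F 16 L) (F 16 L))))) (U (F 305 (S (F 24 (U (K 2) (S L (S L L)))) (T (V (S (F 24 L) (F 16 L)) (S (F 8 L) (F 8 L))) (V (F 8 L) (S (F 8 L) (F 8 L)))))) (F 37 (S (F 40 (V (F 8 L) L)) (V (F 41 (S L L)) (T (F 41 (S L L)) (F 1 L))))))) (F 307 (V (S (F 8 (V L L)) (V L L)) (F 8 (U (S L (S L L)) (S L L)))))) (F 37 (U (V (F 9 (U (S (V (S L L) (S L L)) (V (T L L) (T L L))) (S (T L (S L L)) (T (S L L) (V L L))))) (U (S (T (V (F 9 L) (V (F 9 (S L L)) L))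 (V (F 9 (S L L)) (T (S (F 1 L) (F 1 L)) (S (V (F 1 L) (F 1 L)) (F 1 L))))) (T (V (F 9 L) (S (F 1 L) (F 5 L))) (V (F 1 L) (T (F 1 L) (F 5 (S L L)))))) (S (V (F 9 (T L (S L L))) (T (S (F 1 L) (F 1 L)) (V (S (F 1 L) (F 1 L)) (S L (F 1 L))))) (T (V (F 9 L) (S (F 1 L) (F 5 L))) (V (F 1 L) (S (F 1 L) (F 5 L))))))) (V (F 9 (U (S (S L L) (V (T (F 1 L) L) (S (F 1 L) L))) (F 1 (S L (S L L))))) (S (T (F 9 (U (S L L) (F 1 (S L L)))) (U (V (F 9 L) (S L (F 1 L))) (V (F 9 L) (F 32 L)))) (T (U (S (F 1 L) (F 1 L)) (F 33 L)) (U (V (F 1 L) (S (F 1 L) (F 5 L))) (S (F 1 L) (F 1 L)))))))))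
noncomputable def treeV2 : Tr := (F 0x7ffffffffffffffffffffffffffffffffffffffffffffffffff3fffffffe3c3ffffffffff (V v2_3 (U (S (F 37 v2_4) v2_5) (F 39 (S (U (U (F 24 (V (F 4 L) (V (F 4 L) L))) (F 9 (S (F 1 L) L))) (F 25 L)) (T (F 9 (U (V (S L L) (S L L)) (F 2 L))) (V (F 9 (U (S L (S L L)) L)) (U (U (S (F 9 (S L L)) (T (F 9 L) (F 1 L))) (F 9 (S L (F 2 L)))) (F 13 L)))))))))

theorem pV2 : chkV par treeV2 192 64 64 64 256 256 374491 748983 Lc = true := by decide +kernel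

noncomputable def v3_0 : Tr := (V (U (S (T (F 81 (V (K 3) (T (K 3) (S (K 3) L)))) (V (U (K 3) (S (F 64 L) (T (F 65 L) (F 80 L)))) (F 336 (S L (T L L))))) (T (V (U (K 3) (T (S (K 3) (F 17 L)) (S (F 65 L) (F 81 (S L L))))) (F 81 (S (T L L) (T L L)))) (V (S (V (S (F 65 L) (F 65 L)) (F 81 (T L L))) (F 81 (T (V L L) (S L L)))) (S (T (F 81 L) (F 336 L)) (F 81 (T L L)))))) (S (T (V (S (T (F 65 L) (F 65 L)) (T (F 65 L) (F 65 L))) (S (F 336 (S L L)) (T (F 81 L) (F 336 L)))) (V (S (F 64 L) (T (F 65 L) (F 80 L))) (F 336 (T (S L L) L)))) (T (V (T (S (F 65 L) (F 17 L)) (S (F 65 L) (F 65 L))) (F 81 (S (T L L) (T L L)))) (V (V (T (F 65 L) (F 65 L)) (F 81 (S (T L L) (T L L)))) (S (T (F 81 L) (F 336 L)) (F 81 (T L L))))))) (F 336 (U (S (T (V L (F 48 L)) (S L L)) (T (V (S (S (F 32 L) (F 32 L)) (S (F 32 L) (F 32 L))) (F 48 (S L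 L))) (S L (T (S (F 32 L) (F 32 L)) L)))) (T (S (V L (F 48 L)) (V (T (F 32 L) (F 32 L)) (F 48 L))) (S (S (F 16 L) L) (S L L))))))
noncomputable def v3_1 : Tr := (S (T (V (F 321 (U (K 3) (S (K 3) (T (K 3) (U (K 3) (T (K 3) (V (S (K 3) L) (F 4 L)))))))) (F 338 (U (K 2) (S (T (K 2) L) (T (V (K 2) (F 16 L)) (S L L)))))) (V (U (F 336 (S (K 2) (T (K 2) (V (K 2) (S (K 2) L))))) (S (V (T (S (K 3) (F 320 L)) (F 352 (S (F 2 L) L))) (F 368 (T (S L L) L))) (V (T (S (S (F 320 L) (F 320 L)) (F 64 L)) (T (S (F 336 L) (F 320 L)) (F 320 L))) (F 336 (T (S L L) (S (F 2 L) L)))))) (F 336 (S (T (S (F 18 L) (F 16 L)) (S (F 18 L) (F 16 L))) (T (U (S (K 2) (F 16 L)) (S (F 16 L) (F 16 L))) (S L L)))))) (T (V (U (F 81 (S (K 3) (T (K 3) (V (K 3) (T (K 3) (S (K 3) L)))))) (S (T (S (K 3) (V (F 131 (S (K 4) L)) (F 19 L))) (V (U (K 3) (S (F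 65 L) (F 65 L))) (V (F 65 L) (F 81 (S (F 1 L) L))))) (T (V (V (F 131 L) (F 3 L)) (F 19 (S L L))) (V (S (F 1 L) (F 1 L)) (S (T (F 19 L) (F 81 L)) (S (F 17 L) (F 17 L))))))) (F 19 (U (V (S (K 4) (T (K 4) (U (K 4) (V (F 4 L) (F 5 L))))) (F 5 (S (S (K 1) L) (T L L)))) (V (S (F 5 (T (S L L) (S L (S L L)))) (T (V (F 1 L) (F 5 L)) (V (T (F 4 L) (F 4 L)) (F 5 (S L L))))) (F 5 (S (S L L) (S L L))))))) v3_0))
noncomputable def v3_2 : Tr := (T (V (U (S (T (V (F 131 (S L L)) (F 259 (V L (F 2 L)))) (V (T (F 1 L) (S (F 65 L) (F 65 L))) (S (F 321 L) (V (F 67 L) (F 337 L))))) (T (V (F 131 (S L L)) (F 19 (S L L))) (V (S (F 1 L) (F 1 L)) (V (F 3 L) (S (F 81 L) (F 19 L)))))) (S (V (T (F 131 L) (S (F 65 L) (F 65 L))) (F 321 (T (S (F 32 L) (F 32 L)) (T (S (F 32 L) (F 32 L)) L)))) (V (T (F 131 L) (S (F 129 L) (F 129 L))) (T (F 131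 (S (F 1 L) (F 8 L))) (T (F 19 L) (F 81 L)))))) (F 19 (S (F 5 (V (U (T (S L L) (S L L)) (T L (S L L))) (U L L))) (V (T (U (F 1 L) (F 1 L)) (U (V (S (F 5 L) (F 4 L)) (F 5 L)) (F 5 (S L L)))) (F 5 (T L (S L L))))))) (V (U (S (V (T (S (S (F 65 L) (F 65 L)) (T (F 65 L) (F 65 L))) (T (S (F 320 L) (F 65 L)) (F 64 L))) (T (S (F 336 (S L L)) (F 321 (V L (F 4 L)))) (F 336 (S L L)))) (T (V (T (S (F 65 L) (F 65 L)) (S (F 65 L) (F 65 L))) (F 81 (T (S L L) (S L L)))) (V (S (T (F 65 L) (F 65 L)) (T (F 65 L) (F 81 (S L L)))) (S (F 336 (S L L)) (F 81 (S L L)))))) (S (V (T (T (F 65 L) (F 65 L)) (S (F 320 L) (S (F 320 L) (F 65 L)))) (T (T (F 321 L) (F 336 L)) (F 336 (S L L)))) (V (T (T (S (F 65 L) (F 65 L)) (S (F 65 L) (F 65 L))) (S (S (F 65 L) (F 65 L)) (S (F 65 L) (F 65 L)))) (T (V (F 65 L) (F 81 (S (F 1 L) L))) (S (F 336 L) (F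 81 (V L (F 1 L)))))))) (F 336 (U (T (S (S (F 16 L) (F 16 L)) (V (S (F 32 L) (F 32 L)) (F 48 L))) (S L (S L L))) (T (S (S (F 16 L) (F 16 L)) (S (F 32 L) (F 32 L))) (S L (S L L)))))))
noncomputable def v3_3 : Tr := (V (U v3_1 (S (T (V (U (V (S (T (F 451 (U (K 2) (S (K 2) L))) (F 352 L)) (T (S (F 323 (S L L)) (F 131 L)) (V (F 65 L) (F 321 (S L L))))) (T (F 323 (S L (S L L))) (S (F 322 L) (S (F 322 L) (F 321 L))))) (S (T (F 323 (V (S (F 3 L) (F 1 L)) (F 2 L))) (F 352 (V L (F 16 L)))) (V (T (F 259 (S (T (F 3 L) (F 2 L)) (F 1 L))) (F 321 (S L L))) (F 323 (T L (S L L)))))) (F 338 (T (S (S L L) (U (S (F 16 L) (F 16 L)) (F 16 L))) (V (U (S (F 2 L) L) L) L)))) (V (U (V (S (F 352 (T (S L L) L)) (T (T (F 320 L) (F 320 L)) (S (F 352 L) (F 320 L)))) (F 336 (S (T (F 2 L) (F 2 L)) (T (S L L) L)))) (S (F 352 (V (T L L) L)) (T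 (V (F 320 L) (F 336 L)) (V (F 320 L) (F 336 L))))) (F 336 (S (T (F 16 L) (F 2 L)) (T (V L (F 16 L)) L))))) v3_2)) (F 338 (U (S (T (V (S L L) L) (V (S (F 2 L) L) (F 2 L))) (T (V (V (S (F 16 L) (S (F 16 L) (F 16 L))) (S (F 16 L) (F 16 L))) (F 16 L)) (V (S (S L L) (T L L)) (S L L)))) (S (T (V (U L (F 16 L)) (F 16 L)) (V (S (F 2 L) L) (F 2 L))) (T (V (S (S (F 16 L) (F 16 L)) (S (F 16 L) (F 16 L))) (F 16 L)) (V (S (S L L) (S L L)) (S L L)))))))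
noncomputable def v3_4 : Tr := (T (U (V (U (S (V (T (F 387 L) (T (F 385 L) (F 321 L))) (F 323 (T (S (F 1 L) (F 1 L)) (S L L)))) (V (F 131 (T (F 1 L) (S L L))) (T (F 387 L) (T (F 275 L) (F 321 L))))) (S (F 321 (V (T (F 33 L) (S (F 1 L) (F 1 L))) (T (F 33 L) (F 32 L)))) (T (F 387 (S L L)) (V (F 131 L) (F 323 L))))) (F 339 (S (U (T L (S L L)) (S L L)) (U (T L (S L L)) (T L L))))) (F 259 (V (U (S (F 3 (V (S L L) L)) (V (F 1 L) (F 3 (S L L)))) (F 3 (V (S L L) L))) (F 10 (U (T (F 8 (S L L)) (S L L)) (F 8 (S L L))))))) (U (V (S (T (U (V (S (F 321 L) (F 65 L)) (F 321 L)) (F 321 (V (S L L) L))) (V (S (S (F 320 L) (F 320 L)) (F 321 (U (T L L) L))) (F 336 (U L L)))) (V (T (U (S (F 65 L) (F 65 L)) (F 65 L)) (U (S (F 65 L) (F 65 L)) (U (F 65 L) (F 321 (S L L))))) (T (U (V (S (F 321 L) (F 81 L)) (F 337 (S L L))) (F 321 (V L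 (F 4 L)))) (F 336 (U (S L (T (F 32 L) (F 32 L))) (S (S (F 32 L) (F 32 L)) (S (F 32 L) (F 32 L)))))))) (F 336 (T (S (V L (F 16 L)) (V (U (F 32 L) (F 32 L)) (F 48 (S L L)))) (S (S L L) (S L L))))) (V (S (T (F 321 (V (U (S (F 1 L) (F 1 L)) (F 1 L)) L)) (V (F 321 (S L L)) (F 336 L))) (V (U (T (V (F 193 L) (F 321 L)) (F 321 (S L L))) (F 449 (T L (S L L)))) (F 321 (T L (U (S (F 4 L) (F 4 L)) (F 4 L)))))) (F 336 (U (S (S (F 16 L) (F 16 L)) (T (F 48 L) (F 32 L))) (S (F 48 (T L L)) (T (F 48 L) (F 32 L))))))))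
noncomputable def v3_5 : Tr := (V (S (T (U (V (U (S (F 322 (T (F 35 (V L L)) (S (F 2 L) L))) (F 321 (V (T (F 33 L) (S (F 1 L) (F 1 L))) (S (F 32 L) (F 32 L))))) (F 449 (S (F 17 (V L L)) (V (T (F 17 L) L) (S (F 16 L) (F 16 L)))))) (F 338 (T (S (F 16 L) (S (F 16 L) (F 16 L))) (S L L)))) (F 451 (V (U (V (F 1 (V L L)) (S (F 1 L) L)) (F 1 L)) (F 2 (U (S (S (F 4 L) L) L) (F 4 L)))))) (U (V (S (F 352 (T (V L (F 16 L)) (T L L))) (T (V (S (F 320 L) (F 320 L)) (F 320 L)) (V (S (F 352 L) (F 320 L)) (F 320 L)))) (F 336 (S (F 18 (U (S L L) L)) (T (S (F 16 L) (F 16 L)) L)))) (V (S (F 480 (T L L)) (T (F 449 (V L L)) (S (F 352 L) (F 320 L)))) (F 338 (U (S (F 2 L) L) (F 2 L)))))) v3_4) (F 338 (S (T (U (V (S (F 2 L) (F 16 L)) (F 16 L)) (S (F 2 L) (F 16 L))) (U (S (F 2 L) (S L L)) (S (F 2 L) L))) (T (U (V (S (F 16 L) (F 16 L)) (F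 16 L)) (S (F 16 L) (F 16 L))) (U (V (S L (S L L)) L) (V (T (S (F 16 L) (F 16 L)) L) L))))))
noncomputable def v3_6 : Tr := (T (V (U (S (T (V (T (S (F 80 L) (F 80 L)) (S (F 336 L) (F 80 L))) (F 336 (S L L))) (V (S (F 336 L) (F 84 (T L L))) (F 336 L))) (T (V (S (T (F 80 L) (F 80 L)) (F 81 (T (S L L) (S L L)))) (S (F 336 (S L L)) (F 80 L))) (V (V (F 84 (S (S L L) (S L L))) (S (F 80 L) (F 80 L))) (F 336 (S L (S L L)))))) (S (T (V (V (F 64 L) (S (F 336 L) (F 80 L))) (F 336 (S L L))) (F 336 (V (S L (S L L)) L))) (T (V (S (S (F 80 L) (F 80 L)) (F 81 (T (S L L) (S L L)))) (V (S (F 336 L) (F 80 L)) (F 336 (S L L)))) (V (S (F 80 L) (T (F 80 L) (F 84 L))) (F 336 (S L L)))))) (F 336 (S (T (U (S L L) L) (S L L)) (T (V (U (S L L) L) L) (V (S L L) L))))) (V (U (S (F 336 (T (V (S (F 8 L) (S (F 8 L) (F 8 L))) L) (S (F 10 (S L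 L)) (S (F 8 L) (F 8 L))))) (T (V (F 84 (S (T L (F 1 L)) (T L L))) (F 336 (S (F 8 L) L))) (F 84 (V (S (S (F 1 L) (F 1 L)) (T L (F 1 L))) (S (F 1 L) (F 1 L)))))) (S (F 336 (T (V (S (F 8 L) (S (F 8 L) (F 8 L))) (F 2 L)) (S (F 10 L) (F 8 L)))) (T (V (F 84 (S (T L (F 1 L)) (T L L))) (F 336 (S (F 8 L) L))) (F 84 (V (S (F 1 L) (V L (F 1 L))) (S (F 1 L) (F 1 L))))))) (F 336 (S (T L (S (F 10 L) (F 2 L))) (T (V (S L L) L) (V L (F 2 L)))))))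
noncomputable def v3_7 : Tr := (T (V (U (S (T (V (S (F 320 L) (S (F 80 L) (F 80 L))) (F 336 (S L L))) (F 336 (V (S L (S L L)) L))) (T (V (S (S (F 80 L) (F 80 L)) (T (F 81 (S L L)) (F 80 L))) (F 336 (S L (S L L)))) (V (S (F 80 L) (S (F 80 L) (F 80 L))) (F 336 (S L L))))) (S (T (V (S (F 320 L) (F 320 L)) (F 336 L)) (F 336 (S L (T L L)))) (T (V (S (S (F 80 L) (F 80 L)) (V (F 65 L) (F 80 L))) (F 336 (S L L))) (V (S (F 336 (S L L)) (F 80 L)) (F 336 (S L L)))))) (F 336 (S (T (S L L) L) (T (U (S L L) L) (U (S L L) L))))) (V (U (S (F 336 (T (T L (S (F 10 L) (F 8 L))) (S (F 10 L) (F 8 L)))) (T (V (F 84 (S (T (F 1 L) (F 1 L)) (S L L))) (F 336 L)) (F 340 (V (S L (T L L)) (S (F 2 L) L))))) (S (F 336 (T (S (F 2 L) L) (F 10 (V L L)))) (V (T (V (F 84 (S (S (F 1 L) (F 1 L)) L)) (F 336 L)) (F 340 (T (S L L) L))) (F 336 (T L (F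 8 L)))))) (F 336 (S (T L (F 2 L)) (T (V L L) (S (F 2 L) L))))))
noncomputable def v3_8 : Tr := (V (U (S (T (V (U (S (F 368 (T (T (K 1) L) L)) (T (V (V (F 320 L) (F 336 L)) (F 336 L)) (F 336 (S (S (F 2 L) (F 2 L)) (S L L))))) (S (F 368 (T (V L L) L)) (T (V (T (F 320 L) (F 336 L)) (F 336 L)) (F 336 (S (F 2 L) L))))) (F 336 (S (T (F 2 L) (F 2 L)) (T L (S (F 2 L) (F 2 L)))))) (F 368 (V (S (T L (F 4 L)) (V (T (U (S (F 4 L) (F 4 L)) L) (F 4 L)) (S L L))) (S L (S L L))))) v3_6) (S (T (V (S (F 352 (V (T L (F 2 L)) (T (F 2 L) (F 2 L)))) (T (V (T (F 320 L) (F 320 L)) (F 336 (S (F 2 L) L))) (F 336 (V (S (S (F 2 L) (F 2 L)) L) (F 2 L))))) (F 336 (S (S (F 2 L) (F 2 L)) (T L (F 2 L))))) (F 368 (V (S (S L L) (V (T (S (F 4 L) L) (F 4 L)) (S L L))) (T L L)))) v3_7)) (F 336 (U (S (T (F 18 (V (T L L) L)) (V (F 2 L) (F 18 (S L L))))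 (T (V (S (S (F 16 L) L) (T L L)) (T (F 16 L) (F 16 L))) (V (S (S (F 2 L) (F 2 L)) (T L (S (F 2 L) (F 2 L)))) (S (S (F 18 L) (F 2 L)) (T (F 2 L) (F 2 L)))))) (S (T (F 18 (V (S L L) L)) (V (F 2 L) (F 18 (S L L)))) (T (V (S L (T (F 16 L) L)) (S (F 18 L) (S (F 16 L) (F 16 L)))) (V (S (F 2 L) (T L (F 2 L))) (S (S (F 18 L) (F 2 L)) (T (F 2 L) (F 2 L)))))))))
noncomputable def v3_9 : Tr := (T (U (V (S (T (V (U (F 320 L) (F 320 L)) (F 336 (S L L))) (F 336 (V (U (S (F 2 L) L) L) L))) (T (V (S (V (F 64 L) (F 320 L)) (T (S (F 65 L) (F 65 L)) (S (F 80 L) (F 80 L)))) (F 336 (U (S L L) L))) (U (V (V (F 80 L) (F 336 (S L L))) (F 336 L)) (V (V (F 320 L) (F 336 (S L L))) (F 336 L))))) (F 336 (S (T L L) (T (T L L) (S L L))))) (V (T (S (V (F 320 L) (F 336 L)) (V (F 321 (U (S L L) L)) (F 336 (T L L)))) (S (V (F 320 L) (F 336 L))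 (F 336 (U (T (S L L) L) (S L L))))) (F 336 (S (T L (F 2 L)) (U (S L L) L))))) (F 336 (U (V (S (T (U L (S (F 2 L) (F 8 L))) (F 10 (U (S L L) (S L L)))) (V (T (S (T L L) (U (T L (F 8 L)) (T (F 8 L) (F 8 L)))) (U (S (F 8 L) (F 8 L)) (S (F 10 L) (F 8 L)))) (T (S L L) L))) (S (T (F 2 L) (F 2 L)) (T (S L L) (S (F 2 L) L)))) (V (T (S (S (F 2 L) L) (U (S L L) L)) (S (F 10 (U L L)) (U (S (F 8 L) (F 8 L)) (S (F 10 L) (F 8 L))))) (S (S (F 2 L) (F 2 L)) (T L (S (F 2 L) (F 2 L))))))))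
noncomputable def v3_10 : Tr := (U (F 37 (S (T (V (T (S L L) (S (V (F 4 L) (F 4 L)) L)) (T (S (F 4 L) L) (S (F 4 L) (S (F 4 L) (F 4 L))))) (V (T (S (S (F 4 L) (F 4 L)) (S (F 4 L) (F 4 L))) (S (S (F 4 L) (F 4 L)) (S (F 4 L) (F 4 L)))) (T (S (F 4 L) (F 4 L)) (S (F 4 L) (F 4 L))))) (T (V (T (S L (F 32 L)) (S L (S (F 32 L) (F 32 L)))) (T (S L L) (V L (S (F 4 L) (F 4 L))))) (V (T (V (S (F 32 L) (F 32 L)) L) (V (S (F 36 (S L L)) (F 32 L)) (S (F 4 L) (F 4 L)))) (S (T (S (F 4 L) (F 4 L)) (F 4 L)) (T (S (F 4 L) (F 4 L)) (F 4 L))))))) (S (T (V (V (S (F 5 L) (F 37 L)) (F 37 (T L (S (F 4 L) (F 4 L))))) (F 165 (S (T L L) (T L L)))) (F 165 (V (T (S (S L L) (S L L)) (S (S L L) (S L L))) (S (T L L) (T L L))))) (F 37 (T (V (T (S L (F 32 L)) (S L L)) (T L (V L (F 4 L)))) (V (T (S L L) (S (S (F 4 L) (F 4 L)) (V (F 32 L) (F 4 L))))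 (S (T (F 4 L) (F 4 L)) (T (S (F 4 L) (F 4 L)) (S (F 4 L) (F 4 L)))))))))
noncomputable def v3_11 : Tr := (T (V (U (F 37 (S (T (S (K 4) (V (F 66 L) (F 64 L))) (V (S (T (F 64 L) L) (S L L)) (T (S (F 64 L) (F 64 L)) (S L (F 64 L))))) (V (T (F 66 (S L (F 1 L))) (T (F 66 (S L L)) L)) (T (F 64 L) (T (F 64 L) (S (F 64 L) (F 64 L))))))) (S (T (F 7 (V (F 2 L) (S (F 16 L) (F 16 L)))) (V (S (F 5 L) (F 37 L)) (F 37 (T (S (F 64 L) (F 64 L)) L)))) (F 37 (T (F 66 (V L (S L L))) (V (T (F 66 (S L L)) L) (V (S (F 64 L) (F 64 L)) (F 64 L))))))) (F 39 (U (S (V (T L (T L (S (F 4 L) (F 4 L)))) (F 5 (T L (S L L)))) (T (V L (F 1 L)) (V (S L L) (S (F 5 L) (F 4 L))))) (S (V (T L (V L (F 4 L))) (F 5 (T L L))) (V (T L (S L L)) (T (F 1 L) (S (F 5 L) (F 4 L)))))))) (V v3_10 (F 165 (U (S (T (V (T L L) (F 33 (S L L))) (V (S (T (F 1 L) (F 1 L))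 L) (S (F 1 L) (F 1 L)))) (V (T (V (S L L) L) (S (S L L) (T L L))) (T (V (F 32 L) (F 33 (S L L))) (T (F 1 L) (F 1 L))))) (S (T (V (S (S (F 1 L) (F 1 L)) L) (F 33 (S L L))) (V (V (S (F 1 L) L) (S (F 1 L) (F 1 L))) (F 1 L))) (T (V (S L (S L L)) (T (F 33 (S L L)) (F 1 L))) (V (S L (S L L)) (S (F 1 L) (F 1 L)))))))))
noncomputable def v3_12 : Tr := (U (S (F 37 (T (V (T (S (F 32 L) (F 96 L)) (S (F 32 L) (F 32 L))) (S (S L L) (S L L))) (V (T (S (S (F 32 L) (F 32 L)) (F 32 L)) (S (S (F 32 L) (F 32 L)) (S (F 32 L) (F 32 L)))) (T (S (S (F 4 L) (F 4 L)) L) (S (S (F 4 L) (F 4 L)) (S (F 4 L) (F 4 L))))))) (T (F 37 (V (T (F 96 (S L (F 8 L))) (F 32 L)) (T (S (F 64 L) (F 96 L)) (S L (F 32 L))))) (V (F 41 (T (S (F 32 L) (F 32 L)) (S (S (F 32 L) (F 32 L)) L))) (T (F 37 (V (S (F 32 L) (F 32 L)) L)) (F 41 (S (S (F 4 L) (F 4 L)) L))))))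 (S (F 37 (T (V (V (S (F 32 L) (F 32 L)) L) (S (S L L) L)) (V (T (V (F 32 L) L) (S (S (F 32 L) (F 32 L)) (S (F 32 L) (F 32 L)))) (T (S L L) (S (S (F 4 L) (F 4 L)) (S (F 4 L) (F 4 L))))))) (T (F 37 (V (T (F 98 (S L L)) (F 32 L)) (T (F 64 L) (S (F 64 L) (F 64 L))))) (V (F 45 (T (S L L) (S (S L L) L))) (T (F 37 (S L (S (F 32 L) (F 32 L)))) (F 41 (S L L)))))))
noncomputable def v3_13 : Tr := (T (F 39 (V (U (S (T (V (F 34 L) (F 2 L)) (V (S (S (F 2 L) (F 2 L)) (F 34 (T L L))) (S L L))) (T (F 34 (S L L)) (V (F 34 (S L L)) L))) (S (T (T (F 2 L) (F 2 L)) (V (S (F 2 L) (F 2 L)) (S L L))) (T (F 34 (S L L)) (V (F 34 L) (S (F 2 L) (F 2 L)))))) (U (V (T (S L (F 2 L)) (S (S L L) (S L L))) (T (S L L) (S L (S L L)))) (T (V (S (F 2 L) (F 2 L)) (S (F 1 L) L)) (V (S (S L L) (S L L)) (S L L)))))) (V v3_12 (U (S (F 37 (T (V (T (S (F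 64 L) (F 64 L)) (S (F 4 L) (F 4 L))) (F 68 (V (S L L) L))) (V (S (T (F 4 L) (F 4 L)) (T (F 4 L) (F 4 L))) (S (S (F 5 L) (F 4 L)) (S (F 4 L) (F 4 L)))))) (T (F 39 (V (T (S L L) (V L L)) (T L (V (S (F 4 L) (F 4 L)) (F 4 L))))) (F 161 (V (T (S (S (F 32 L) (F 32 L)) L) (S L L)) (S (S (F 32 L) L) L))))) (S (F 37 (T (V (T (S (F 64 L) (F 64 L)) (S (F 4 L) (F 4 L))) (F 68 (S L (S L L)))) (V (S (T (F 4 L) (F 4 L)) (T (F 4 L) (F 4 L))) (S (F 5 (S L L)) (F 4 L))))) (V (T (F 39 (T (S L L) (S L L))) (T (F 37 (V L (F 4 L))) (F 161 (S L L)))) (T (F 39 (V (S (F 4 L) L) (S (F 4 L) (F 4 L)))) (F 161 (S (S (F 32 L) (F 32 L)) L))))))))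
noncomputable def v3_14 : Tr := (V (U (S (T (V (S (F 5 L) (F 37 (T L L))) (F 165 (S (T L L) (T L L)))) (F 133 (V (V (S L L) (S (S (F 8 L) (F 8 L)) (S (F 8 L) (F 8 L)))) (S (T (F 8 L) (F 8 L)) (T (F 8 L) (F 8 L)))))) (F 37 (T (V (T L (S L L)) (S L L)) (V (T (S L L) (S (S (F 4 L) (F 4 L)) L)) (T (S (F 4 L) (F 4 L)) (S (F 4 L) (F 4 L))))))) (S (T (V (S (F 5 L) (F 5 L)) (F 37 (T L (S (F 4 L) (F 4 L))))) (F 133 (V (V (S L L) (T (S (F 8 L) (F 8 L)) (S (F 8 L) (F 8 L)))) (S (S (F 8 L) (F 8 L)) (T (F 8 L) (F 8 L)))))) (F 37 (T (V (S L L) (S L L)) (V (T (S L L) (S (S (F 4 L) (F 4 L)) L)) (T (S (F 4 L) (F 4 L)) (S (F 4 L) (F 4 L)))))))) (F 165 (U (T (S (V (V L (F 1 L)) (F 33 (S L L))) (V (S L L) (T (F 33 L) (F 1 L)))) (S (V (S (S (F 1 L) (F 1 L)) (S (F 1 L) (F 1 L))) (F 1 L)) (V (T L L) (S (F 1 L) (F 1 L))))) (T (S (V (S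 (F 1 L) (F 1 L)) (F 33 L)) (V (S L L) (F 33 (S L L)))) (S (V (T (F 1 L) (F 1 L)) (F 1 L)) (V (S (S (F 1 L) (F 1 L)) L) (F 1 L)))))))
noncomputable def v3_15 : Tr := (V (U (S (F 37 (T (V (T (F 2 L) (S (F 32 L) (F 32 L))) (S L L)) (V (V (T (F 32 L) (S (F 32 L) (F 32 L))) (S L L)) (T (S L L) (S (S (F 4 L) (F 4 L)) (S (F 4 L) (F 4 L))))))) (T (F 37 (V (F 34 (T (S (F 1 L) (F 1 L)) (S L L))) (S (S (F 64 L) (F 64 L)) (F 64 L)))) (V (F 45 (T (S L L) (S L L))) (T (F 37 (S L L)) (S (F 37 L) (F 41 L)))))) (S (F 37 (T (V (S (F 2 L) (F 2 L)) (T (F 64 L) L)) (V (V (T (F 32 L) (S (F 32 L) (F 32 L))) (S L L)) (T L (S (F 4 L) (S (F 4 L) (F 4 L))))))) (T (F 39 (V (V (F 34 (S L L)) (S (F 2 L) (F 34 L))) (S L L))) (V (F 45 (T L (S L L))) (T (F 37 L) (S (F 37 L) (F 41 L))))))) (U (S (F 37 (T (V (T (F 64 L) (S (F 4 L) (F 64 L))) (F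 68 (T L L))) (V (S (S (F 4 L) (F 4 L)) (T (F 4 L) (F 4 L))) (V (F 4 L) (F 5 L))))) (T (F 39 (V (T L (S L L)) (V L (S (F 4 L) (F 4 L))))) (F 161 (S (V (T (F 32 L) (F 32 L)) (F 32 L)) (V (S L L) L))))) (S (F 37 (T (V (S (F 64 L) (F 64 L)) (F 68 (V L (F 16 L)))) (V (S (S (F 4 L) (F 4 L)) (T (F 4 L) (F 4 L))) (F 5 (T L L))))) (T (F 39 (V (S L L) (S (F 4 L) L))) (V (T (F 37 L) (F 161 L)) (F 161 (S (F 32 L) (S (F 32 L) (F 64 L)))))))))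
noncomputable def v3_16 : Tr := (U (S (F 676 (T (F 48 (V (S (T L L) (V (T L L) L)) (S L L))) (V (S (T (F 48 (S L L)) (S (F 16 L) (F 16 L))) (T (F 48 (U L L)) (V (S (F 32 L) (F 32 L)) (F 48 L)))) (S (F 16 L) (T (F 48 L) (F 16 L)))))) (T (F 39 (V (S (V (T (F 1 L) (F 5 (U L L))) (F 5 (S L L))) (T (V L (F 5 L)) (V (T L (S (F 4 L) (F 4 L))) (F 5 (S L L))))) (F 5 (S L (S L L))))) (F 161 (V (S (F 33 (T (V (U (S (F 1 L) (F 1 L)) (F 1 L)) (F 1 L)) (V (S (S L L) (T L L)) (U (F 1 L) (F 1 L))))) (T (F 96 (V (U (V L (S (F 16 L) (F 16 L))) (V L (F 16 L))) (U (F 16 L) (F 16 L)))) (V (T (S (S (F 33 L) (F 65 L)) (T (F 64 L) (F 1 L))) (S (F 1 L) (F 1 L))) (F 65 (S (T (F 1 L) L) (S L L)))))) (F 97 (S (T L (V L L)) (T (S L L) (V (U L L) (S L L))))))))) (F 546 (S (F 34 (T (V (S (T (F 1 L) (F 1 L)) (T (F 1 L) (S (F 1 L) (F 1 L))))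 (F 1 L)) (V (S (T (S (F 1 L) (F 1 L)) (S L L)) (U (T (F 1 L) (S (F 1 L) (F 1 L))) (T (F 1 L) (F 1 L)))) (T (S (F 1 L) (F 1 L)) (S (F 1 L) L))))) (T (F 96 (V (S (V (T L (S (F 8 L) (F 8 L))) (F 8 L)) (T (S L L) (V (S L L) (F 8 L)))) (U (F 8 L) (F 8 L)))) (F 66 (V (S (U (T (S (F 1 L) (F 1 L)) (V (S (F 1 L) (F 1 L)) (F 1 L))) (T (F 1 L) (U (F 1 L) (F 1 L)))) (U (T (V (U (S (F 1 L) (F 1 L)) (F 1 L)) (F 1 L)) (V (S (S (F 1 L) L) L) (S (F 1 L) (F 1 L)))) (T (U (S (F 1 L) (F 1 L)) (F 1 L)) (S (T (F 1 L) L) (S L L))))) (S (U (S (F 1 L) (F 1 L)) (F 1 L)) (T (S (F 1 L) (F 1 L)) (U (S (F 1 L) (F 1 L)) (F 1 L))))))))))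
noncomputable def v3_17 : Tr := (U (V (S (T (V (U (F 5 L) (F 261 L)) (F 37 (T (S L L) (U (F 4 L) (F 5 (S L L)))))) (F 133 (V (U (T L (S L (S (F 8 L) (F 8 L)))) (S L L)) (U (T (S (F 8 L) (F 8 L)) (S (F 9 L) (F 8 L))) (V (S (F 8 L) (F 8 L)) (F 9 (S L L))))))) (T (V (T (F 261 L) (F 37 (U L (S (F 2 L) (F 2 L))))) (F 37 (U L (S (F 4 L) (F 64 L))))) (F 37 (U (V (T L (S (S (F 4 L) (F 4 L)) L)) (T (S (F 4 L) (F 4 L)) (S (F 4 L) (F 4 L)))) (V (T L (S (F 4 L) (F 4 L))) (S (F 4 L) (S (F 4 L) (F 4 L)))))))) (F 37 (S (F 5 (T (U (V (S L L) (F 1 L)) (T (S (F 1 L) (F 1 L)) L)) (U (S L (S L L)) (S L L)))) (T (U (V (S (F 5 L) (F 68 L)) (F 69 L)) (V (T (F 65 L) (F 5 L)) (F 69 L))) (U (V (V (F 4 L) (F 5 L)) (F 5 L)) (F 5 (V (S L L) L))))))) (V (S (U (V (T (F 261 L) (F 133 L)) (F 677 (T (S L L) (T L (S L L))))) (F 517 (V (T (F 1 L)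 (T (F 3 L) (F 2 L))) (F 10 (T (S (F 16 L) (F 16 L)) (S L L)))))) (T (V (F 261 (S L (F 64 L))) (F 39 (U L (F 3 (S L L))))) (V (V (F 261 (S L L)) (F 37 (U (S (F 4 L) (F 4 L)) (S (F 6 L) (F 2 L))))) (F 165 (U (T L L) (S (F 1 L) (F 1 L))))))) (F 677 (U (S (T (S (F 16 L) (F 16 L)) L) (T (S (F 16 L) (S (F 16 L) (F 16 L))) (S L L))) (S (T (F 16 L) L) (T (F 16 L) L))))))
noncomputable def v3_18 : Tr := (V (F 37 (S (T (V (U (S (F 2 L) (F 66 L)) (S (F 2 L) (F 66 L))) (U (S (F 64 L) (F 64 L)) (S (F 64 L) (F 64 L)))) (V (U (S L (T (F 32 L) (F 32 L))) (T (F 2 L) (S (F 32 L) (F 32 L)))) (U (S (T (F 4 L) (F 4 L)) L) (S (S (F 4 L) (F 4 L)) L)))) (T (V (F 66 (U (V (S (F 1 L) (F 1 L)) L) (S L (F 1 L)))) (U (F 64 L) (F 66 (S L L)))) (V (U (T (F 34 (S L L)) (S (F 32 L) (F 32 L))) (T (F 34 (S L L)) (S (F 32 L) (F 34 L)))) (U (S L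 L) (S L L)))))) (S (F 37 (T (V (U (S (F 64 L) (F 64 L)) (F 64 L)) (F 69 (U (U L L) (S L L)))) (U (V (S (F 4 L) (F 4 L)) (F 5 (S L L))) (V (T (F 4 L) (F 4 L)) (F 5 L))))) (V (F 37 (T (U (S (F 64 L) (F 64 L)) (F 64 L)) (T (U (S (F 4 L) (F 64 L)) (F 64 L)) (U (S (F 4 L) (F 4 L)) (S (F 4 L) (F 4 L)))))) (U (F 161 (T (F 96 (S L L)) (T (F 96 (S L L)) (F 1 L)))) (T (F 551 (S L L)) (F 161 (T (F 96 (V L (F 16 L))) (S (F 33 L) (F 65 L)))))))))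
noncomputable def v3_19 : Tr := (T (F 39 (U (V (T (S (S (F 2 L) (F 2 L)) (F 2 L)) (S (U (V (F 2 L) (F 2 L)) (S (F 2 L) (F 2 L))) (U (F 2 L) (F 2 L)))) (S (T (F 3 (V L L)) (V L (F 1 L))) (V (U (S (F 2 L) (F 2 L)) (F 2 L)) (T (F 3 L) (S (F 1 L) (F 1 L)))))) (V (T (F 2 L) (S (S (F 2 L) (F 2 L)) (F 2 L))) (F 3 (U (T L (S L (S L L))) (S L L)))))) (U v3_18 (F 37 (V (S (T (F 66 (U (V L (S L L)) (S L L))) (V (U (S (F 2 L) (F 2 L)) (F 2 L)) (U (S (F 4 L) (F 4 L)) (F 4 L)))) (U (T (F 66 (V (S (F 1 L) (F 1 L)) L)) (V (F 34 (U (S L L) L)) (S (F 64 L) (F 64 L)))) (T (F 66 (S L (F 1 L))) (V (F 34 (T (F 1 L) L)) (T (F 66 L) (F 2 L)))))) (U (S (T (F 65 (V L (F 8 L))) (F 5 (S (S L L) (T L L)))) (T (V (F 64 L) (F 65 L)) (V (T (F 64 L) (F 4 L)) (F 5 (U (T (F 1 L) L) (S (F 1 L) (F 1 L))))))) (S (F 5 (T (S (F 1 L) (F 1 L)) (T (S (F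 1 L) (F 1 L)) L))) (T (F 65 (T (F 16 L) L)) (V (V (F 64 L) (F 69 (U (S L L) L))) (F 69 (S L L))))))))))
noncomputable def v3_20 : Tr := (V (S (T (U (V (V (F 261 (S (T (F 64 L) (T (F 64 L) L)) (U (S (F 64 L) (F 64 L)) (F 64 L)))) (F 7 (S (T (S (F 3 L) (F 18 L)) (S (T (F 16 L) (F 16 L)) (F 16 L))) (F 18 (T L (U (S L L) L)))))) (F 39 (T (V (F 3 (S (S L L) (S L L))) (F 1 L)) (S (F 5 (V (U (S L L) L) L)) (V (V L (F 1 L)) (F 5 (S L L))))))) (F 7 (V (V (S (F 3 (U (S L L) L)) (F 2 L)) (F 19 (U (T L (S (S L L) L)) (S L L)))) (F 17 (T (S (F 16 L) (F 16 L)) (V (S (S (F 8 L) (F 16 L)) (S (F 16 L) (F 16 L))) (S (F 8 L) (F 8 L)))))))) v3_17) v3_19) (F 546 (S (F 34 (T (U (V (S (S (F 1 L) (F 1 L)) (S (F 1 L) (F 1 L))) (F 1 L)) (S (F 1 L) (S (F 1 L) (F 1 L)))) (U (V (S (T (F 1 L) L) (U (S (F 1 L) (F 1 L)) (S (F 1 L) (F 1 L))))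 (U (S (F 1 L) (F 1 L)) (F 1 L))) (V (U (S (F 1 L) (F 1 L)) (S (F 1 L) (F 1 L))) (S (F 1 L) (F 1 L)))))) (T (F 96 (U (V (T (S (F 8 L) L) (S (S (F 8 L) (F 8 L)) (V L (F 8 L)))) (S (F 8 L) (F 8 L))) (V (T (F 16 L) (S (F 8 L) (F 8 L))) (F 8 L)))) (F 66 (U (V (S (U (T (F 1 L) (S (F 1 L) (F 1 L))) (T (F 1 L) (F 1 L))) (U (T (S (F 1 L) (F 1 L)) (V (T (F 1 L) L) (F 1 L))) (T (F 1 L) (U (S (F 1 L) (F 1 L)) (F 1 L))))) (U (S (F 1 L) (S (F 1 L) (F 1 L))) (S (F 1 L) (S (F 1 L) (F 1 L))))) (V (U (S (S (F 1 L) (F 1 L)) (T (F 1 L) (S (F 1 L) (F 1 L)))) (S (F 1 L) (T (F 1 L) (F 1 L)))) (U (S (F 1 L) (F 1 L)) (S (F 1 L) (F 1 L))))))))))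
noncomputable def v3_21 : Tr := (U (S (T (F 165 (V (V (S (T L (S (F 16 L) (F 16 L))) (T (S (F 16 L) (F 16 L)) (F 16 L))) (S (S L L) (S L L))) (S (T L L) (T L L)))) (V (S (F 164 (T (V (F 80 L) (F 64 L)) (V (F 80 (S L L)) (F 16 L)))) (F 169 (T (V (F 16 L) (F 16 L)) (T L L)))) (F 164 (T (S (F 64 L) (F 64 L)) L)))) (F 161 (T (V (S (T (V (F 48 (S L L)) (F 32 L)) (F 48 (V L L))) (T (F 48 (V L L)) (F 16 L))) (T (S (F 32 L) (F 32 L)) (S (F 32 L) (F 32 L)))) (V (S (T (F 16 L) (F 16 L)) (S (F 16 L) (F 16 L))) (T (S (F 32 L) (F 16 L)) (S (F 16 L) (F 16 L))))))) (S (F 164 (T (V (T (S (S (F 64 L) (F 64 L)) (S (F 64 L) (F 64 L))) (S (S (F 64 L) (F 64 L)) (V (F 80 (S L L)) (F 64 L)))) (S (T (F 64 L) (F 64 L)) (T (F 64 L) (F 64 L)))) (V (S (V (T (F 80 (S L L)) (F 16 L)) L) (T (V (F 80 (S L L)) (F 64 L)) (F 80 (V L (S L L)))))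 (S (S (F 1 L) L) (T (F 64 L) (F 64 L)))))) (F 161 (T (V (T (V (F 48 (S (S L L) (S L L))) (S (F 32 L) (F 32 L))) (S (V (F 48 L) (F 32 L)) (F 16 L))) (S (T (F 32 L) (F 32 L)) (T (F 32 L) (F 32 L)))) (V (S (T (F 16 L) (F 16 L)) (T (F 16 L) (F 16 L))) (S (T (F 32 L) (F 16 L)) (T (F 16 L) (F 16 L))))))))
noncomputable def v3_22 : Tr := (V (U (S (T (V (F 168 (S (T (F 16 L) (F 16 L)) (T (F 64 L) (F 64 L)))) (V (F 168 (S (F 16 L) L)) (F 676 (S L L)))) (F 168 (V (S L L) (S (S (F 17 L) (F 1 L)) (S (F 1 L) (F 1 L)))))) (F 168 (T (V (S (T (F 64 L) (F 64 L)) (S (F 64 L) (F 64 L))) (S (T (F 64 L) (F 64 L)) (S (F 64 L) (F 64 L)))) (V (S (S (F 64 L) (F 64 L)) (F 64 L)) (S (S (F 1 L) (F 1 L)) (S (F 64 L) (F 64 L))))))) (S (T (V (F 168 (T (S (F 16 L) (F 64 L)) (S (F 16 L) (F 64 L)))) (S (F 676 L) (F 168 (T (F 16 L) (F 1 L)))))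 (F 168 (V (S L L) (S (S (F 17 L) (F 1 L)) (S (F 1 L) (F 1 L)))))) (F 168 (T (V (S (T (F 64 L) (F 64 L)) (S (F 64 L) (F 64 L))) (S (T (F 64 L) (F 1 L)) (S (F 64 L) (F 64 L)))) (V (S (S L (F 64 L)) (S (F 64 L) (F 64 L))) (S (S (F 1 L) (F 1 L)) (S (F 1 L) (F 64 L)))))))) (F 672 (U (S (T (V (S (F 16 L) (F 16 L)) (F 16 L)) (V (S (F 24 L) (F 8 L)) (F 16 L))) (T (T (V (S (F 16 L) (F 64 L)) L) (S L L)) (V (S (S (F 8 L) (F 8 L)) (S (F 8 L) (F 8 L))) (S (F 16 L) L)))) (S (T (V (S (F 16 L) (F 16 L)) (F 16 L)) (V (S (F 24 L) (F 16 L)) (F 16 L))) (T (T (S L L) (S L L)) (V (S (F 8 L) (S (F 8 L) (F 8 L))) (S (F 16 L) L)))))))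
noncomputable def v3_23 : Tr := (V (U (S (F 161 (T (V (T (S (F 48 (V L L)) (F 16 L)) (S (F 16 L) (F 16 L))) (V (T (S (F 32 L) (F 16 L)) (F 16 L)) (S L L))) (V (T (S (F 16 L) (F 16 L)) (F 16 L)) (S (S (F 16 L) (F 16 L)) (S (F 16 L) (F 16 L)))))) (F 41 (T (V (T (S L L) (S (F 4 L) (F 4 L))) (T (S (F 4 L) (F 4 L)) (S (F 4 L) (F 4 L)))) (V (S (S (F 4 L) (F 4 L)) (S (F 4 L) (F 4 L))) (S (S (F 4 L) (F 4 L)) (F 4 L)))))) (S (T (T (V (F 41 (S (V (F 32 L) (F 36 (S L L))) (S (F 4 L) (F 4 L)))) (F 161 (S (F 32 L) L))) (F 169 (V (S L L) (S L L)))) (F 169 (V (T (S L L) (S L L)) (S (T L L) (S L L))))) (F 41 (T (V (T (S L L) (S (F 4 L) (F 4 L))) (T (S (S (F 4 L) (F 4 L)) (F 4 L)) (S (F 4 L) (F 4 L)))) (V (T (S (F 4 L) (F 4 L)) (F 4 L)) (T (S (F 4 L) (F 4 L)) (F 4 L))))))) (F 161 (U (S (T (V (T L L) (S (F 33 (T L L)) (S (F 1 L)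 (F 1 L)))) (V (S L L) (S (S (F 1 L) (F 1 L)) (S (F 1 L) (F 1 L))))) (T (V (S (S L L) (T (F 16 L) (F 16 L))) (S L L)) (V (T (S (F 16 L) (F 16 L)) (S (F 16 L) (F 16 L))) (S (S (F 1 L) (F 1 L)) L)))) (S (T (V (T L L) (S (S (F 33 L) (F 1 L)) (F 1 L))) (V (S L L) (S (F 1 L) (F 1 L)))) (T (V (S L (S L L)) (S L L)) (V (V (S (F 16 L) (F 16 L)) L) (V L (S (F 1 L) (F 1 L)))))))))
noncomputable def v3_24 : Tr := (V (F 169 (U (S (T (V (S L L) (T (S L L) L)) (V (S L L) (S L L))) (T (V (S L L) (S L L)) (V L (S L L)))) (S (T (V (S L L) (S (S L L) L)) (V (S L L) (S (S L L) L))) (T (V (S L L) (S L L)) (V L (S L L)))))) (U (S (T (F 161 (V (S (T (F 16 L) (F 17 L)) (S (F 16 L) (F 16 L))) (S (S (F 1 L) (F 1 L)) (S (F 1 L) (F 1 L))))) (F 672 (V (F 72 (S (T L L) (T L L))) (S L (T (F 72 L) (F 8 L)))))) (F 169 (T (V (S L L) (T (S (F 1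 L) (F 1 L)) (S (F 1 L) (F 1 L)))) (S (V (T (F 1 L) (F 1 L)) (T (F 1 L) (F 1 L))) (V L (T (F 1 L) (F 1 L))))))) (S (T (V (F 161 (S (S (F 1 L) (F 1 L)) (T (F 16 L) (F 17 L)))) (F 672 (S L (S (F 64 L) (F 64 L))))) (F 672 (S (V (S (F 8 L) (F 8 L)) L) (V (F 72 (T L L)) (S (F 8 L) (F 8 L)))))) (F 161 (T (V (S (F 16 L) (F 16 L)) (S (F 1 L) (F 17 (T L L)))) (T (V (F 16 L) (F 17 (S L L))) (F 17 (S (V L L) (T L L)))))))))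
noncomputable def v3_25 : Tr := (U (S (F 164 (T (V (S (T (S (F 64 L) (F 64 L)) (S (F 64 L) (F 64 L))) (T (S (F 64 L) (F 64 L)) (S (F 64 L) (F 64 L)))) (S (T (F 64 L) (F 64 L)) (T (F 64 L) (F 64 L)))) (V (V (S (T (F 64 L) (F 16 L)) (F 80 (T (S L L) (S L L)))) (S L (S (F 64 L) (F 64 L)))) (S (S (F 1 L) (F 1 L)) (T (F 64 L) (F 1 L)))))) (F 161 (T (V (V (T (S (F 32 L) (F 48 (S L L))) (S (F 48 (S L L)) (F 16 L))) (S (S (F 32 L) (F 32 L)) (S (F 32 L) (F 32 L)))) (S (T (F 32 L) (F 32 L)) (T (F 32 L) (F 32 L)))) (V (T (S (F 16 L) (F 16 L)) (S (F 16 L) (F 16 L))) (S (T (F 32 L) (F 32 L)) L))))) (S (T (V (F 133 (S (V L (S (F 8 L) (F 8 L))) (T (S (F 8 L) (F 8 L)) (F 8 L)))) (F 164 (T (S (F 64 L) (F 64 L)) (S (F 1 L) (F 64 L))))) (F 164 (V (S (T (F 64 L) (F 16 L)) (T (F 64 L) (V (F 80 (S L L)) (F 64 L)))) (S (F 1 L) (S (F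 1 L) (F 64 L)))))) (F 161 (T (V (T (S (S (F 32 L) (F 32 L)) (S (F 32 L) (F 32 L))) (S (F 32 L) (V (F 48 (S L L)) (F 32 L)))) (S (T (F 32 L) (F 32 L)) (T (F 32 L) (F 32 L)))) (V (S (T (F 48 (U (S L L) L)) (F 16 L)) (T (F 16 L) (F 16 L))) (S (T (F 32 L) (F 32 L)) L))))))
noncomputable def v3_26 : Tr := (V (U (S (T (V (F 168 (S (T (F 16 L) (F 16 L)) (T (F 64 L) (F 64 L)))) (F 672 (S (F 16 L) (S (F 16 L) (F 8 L))))) (F 168 (S (T (T (F 1 L) (F 1 L)) (F 1 L)) (V L (F 1 L))))) (F 168 (T (T (V (S (F 64 L) (F 64 L)) (S (F 64 L) (F 64 L))) (V (S (F 64 L) (F 64 L)) (S (F 1 L) (F 64 L)))) (V (S (S L (F 64 L)) (S (F 64 L) (F 64 L))) (V L (S (F 1 L) (F 1 L))))))) (S (T (V (F 168 (S (T (F 16 L) (F 16 L)) (T (F 64 L) (F 64 L)))) (F 676 (S L (S L L)))) (F 168 (S (V (S (F 1 L) (F 1 L)) (F 17 L)) (V L (F 1 L))))) (F 168 (T (V (S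 (T (F 64 L) (F 64 L)) (S (F 64 L) (F 64 L))) (S (S (F 1 L) (F 1 L)) (S (F 64 L) (F 64 L)))) (V (S (S (F 64 L) (F 64 L)) (S (F 64 L) (F 64 L))) (S (S (F 1 L) (F 1 L)) (S (F 1 L) (F 1 L)))))))) (F 672 (U (S (T (V (S (F 16 L) (F 16 L)) (F 16 L)) (V (F 16 L) (F 16 L))) (T (T (S (F 16 L) L) (S (F 16 L) L)) (V (S (F 8 L) (S (F 8 L) (F 8 L))) L))) (S (T (S (F 16 L) (F 16 L)) (S (F 16 L) (F 16 L))) (T (V L (S (F 16 L) (F 16 L))) (V (S (F 8 L) (F 8 L)) L))))))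
noncomputable def v3_27 : Tr := (V (U (S (T (V (F 41 (T (S (T (F 32 L) (F 4 L)) L) (S (F 4 L) (F 4 L)))) (F 161 (T (S (F 32 L) L) L))) (F 169 (V (T (S L L) (S L L)) (S (T L L) (S L L))))) (T (V (F 41 (T (S L L) (S (F 4 L) (F 4 L)))) (F 161 (T (V (S (F 16 L) (F 16 L)) L) (S (F 16 L) (F 16 L))))) (F 169 (V (T (S L L) (S L L)) (T (S L L) L))))) (S (T (V (F 41 (T (S (T (F 32 L) (F 4 L)) L) (S (F 4 L) (F 4 L)))) (F 161 (T (S (F 32 L) L) L))) (F 169 (V (S (T L L) (S L L)) (V (S L L) (S L L))))) (T (V (F 41 (T L (S (F 4 L) (F 4 L)))) (V (F 41 (T L (S (F 4 L) (F 4 L)))) (F 161 (S L L)))) (F 169 (V (T (S L L) (S L L)) (T (S L L) (S L L))))))) (F 161 (U (S (T (V (S (S (F 32 L) L) L) (S (F 33 (S L L)) (F 1 L))) (V (T L L) (S (F 1 L) (F 1 L)))) (T (V (S L (S L L)) (S (S (F 1 L) (F 1 L)) L)) (V (T L (S (F 16 L) (F 16 L)))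 (S (F 1 L) (S (F 1 L) (F 1 L)))))) (S (T (V (S (S (F 32 L) (F 32 L)) L) (S (F 33 L) (F 1 L))) (V (S (S (F 1 L) (F 1 L)) L) (S (F 1 L) (F 1 L)))) (T (V (S L L) (T (F 1 L) (F 1 L))) (V (T L (S (F 16 L) (F 16 L))) (S (F 1 L) (F 1 L))))))))
noncomputable def v3_28 : Tr := (V (F 169 (U (S (T (V (S L L) (S (S L L) L)) (V (S L L) (T L (S (F 1 L) (F 1 L))))) (T (V (S L L) (S L L)) (V (S L L) (S L L)))) (S (T (V (T (S L L) L) (S (S L L) L)) (S (T L (V L (F 1 L))) (T L L))) (T (V (S L L) (S L L)) (V (S L L) (S L L)))))) (U (S (F 672 (T (V (S (S (F 64 L) (F 64 L)) (T (F 64 L) (F 72 L))) (S (F 64 L) (F 64 L))) (V (S (S (F 8 L) (F 8 L)) (F 72 (T L L))) (S L L)))) (F 161 (T (V (S (F 16 L) (F 16 L)) (S (F 1 L) (F 1 L))) (F 17 (S (T (V L L) (V L L)) (T (T L L) (S L L))))))) (S (F 672 (T (V (S (F 64 L) (F 72 (T L L))) (S (F 64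 L) (F 64 L))) (V (S (F 8 L) (F 72 (T L L))) (S (F 8 L) L)))) (F 161 (T (V (T (F 16 L) (F 17 (S L L))) (S (F 1 L) (F 1 L))) (F 17 (S (T (V L L) (V L L)) (T (S L L) (S L L)))))))))
noncomputable def v3_29 : Tr := (U (S (T (V v3_21 (U (S (F 676 (T (V (T (S (F 32 L) (F 32 L)) L) L) (V (S L L) L))) (T (F 165 (V (T (S L L) (S L L)) (S (F 1 L) (S (F 1 L) (F 1 L))))) (V (S (F 164 (V (F 64 L) (F 1 L))) (F 161 (S (F 1 L) L))) (F 676 (T (S (F 32 L) (F 32 L)) L))))) (S (F 676 (T (V (S L (T (F 32 L) (F 32 L))) L) (V (S L L) L))) (T (F 165 (V (T (S L L) (S (S (F 1 L) (F 1 L)) L)) (S (F 1 L) (F 1 L)))) (F 672 (V (S (T (F 80 L) (F 16 L)) (S (F 64 L) (F 64 L))) (T (F 80 (S L L)) (F 16 L)))))))) v3_22) (T v3_23 v3_24)) (S (T (V v3_25 (U (S (F 676 (T (S L (T (S (F 32 L) (F 32 L)) L)) (S L (S L L)))) (T (F 165 (V (S (T (F 1 L) (F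 1 L)) (S L L)) (S (F 1 L) (F 1 L)))) (F 672 (V (S (F 80 (T L L)) (S (F 64 L) (F 64 L))) (S (F 80 L) (F 16 L)))))) (S (F 676 (T (T (S (F 32 L) (F 32 L)) L) (S L L))) (T (F 165 (V (V (S L L) (S (F 1 L) (F 1 L))) (S (F 1 L) (F 1 L)))) (F 672 (V (S (F 16 L) (F 64 L)) (F 16 L))))))) v3_26) (T v3_27 v3_28)))
noncomputable def v3_30 : Tr := (T (V (U (F 69 (S (T (V (S (F 16 L) L) (F 16 L)) (V (S L L) (S (F 16 L) L))) (T (V (S L L) L) (V (S L L) (S L L))))) (S (T (F 77 (V (S L L) L)) (V (F 69 (S L L)) (F 76 L))) (F 69 (T (V (S L L) L) (V (S L L) (S L L)))))) (U (T (S (F 78 (T (F 16 L) L)) (F 7 (V (S (F 4 L) (F 4 L)) (F 32 L)))) (S (F 76 (V L (S (F 16 L) (F 16 L)))) (V (F 69 (S L L)) (S (F 14 L) (F 7 L))))) (T (S (F 78 (T (F 16 L) L)) (F 7 (V (F 4 L) (F 32 L)))) (S (V (F 76 L) (F 14 L)) (S (F 68 L) (F 5 L)))))) (V (U (S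 (T (V (S (F 68 L) (F 68 L)) (S (F 76 L) (F 68 L))) (V (S (F 68 L) (F 68 L)) (S (F 68 L) (F 68 L)))) (T (V (F 69 (T (S L L) (S L L))) (S (F 68 L) (F 69 (S L L)))) (V (S (F 68 L) (F 69 (S L L))) (S (F 68 L) (S (F 68 L) (F 68 L)))))) (S (T (V (S (F 76 L) (F 69 L)) (F 68 L)) (V (S (F 68 L) (F 68 L)) (S (F 76 L) (F 68 L)))) (T (V (F 69 (S L L)) (S (F 68 L) (F 69 (S L L)))) (V (S (F 68 L) (F 69 (S L L))) (S (F 68 L) (S (F 68 L) (F 68 L))))))) (U (S (T (V (F 76 (S L L)) (F 12 L)) (V (S (F 76 L) (F 68 L)) (F 8 L))) (T (V (S (F 68 L) (F 5 L)) (S (F 12 L) (F 5 L))) (V (S (F 4 L) (F 4 L)) (S (F 4 L) (F 4 L))))) (S (T (V (F 76 (S L L)) (F 12 L)) (V (S (F 76 L) (F 68 L)) (F 8 L))) (T (V (F 4 L) (F 4 L)) (V (S (F 4 L) (F 4 L)) L))))))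
noncomputable def v3_31 : Tr := (T (V (U (S (T (F 77 (V (S L L) L)) (V (F 69 (S (F 16 L) L)) (F 76 L))) (F 69 (T (V (S L L) L) (V (S L L) (S L L))))) (S (T (F 77 (V (S L L) L)) (V (F 69 L) (F 76 L))) (F 69 (T (S L L) (V (S L L) (S L L)))))) (U (T (S (F 78 (T (F 16 L) L)) (F 7 (V (F 4 L) (F 32 L)))) (S (F 76 (S L L)) (S (F 5 L) (F 5 L)))) (T (S (F 78 (T (F 16 L) L)) (F 7 (T (F 32 L) L))) (S (F 76 (S L L)) (S (F 5 L) (F 5 L)))))) (V (U (S (T (V (S (F 76 L) (F 69 L)) (F 68 L)) (V (S (F 68 L) (F 68 L)) (S (F 76 L) (F 68 L)))) (T (V (F 69 (S L L)) (S (F 68 L) (F 69 (S L L)))) (V (S (F 68 L) (F 69 (S L L))) (S (F 68 L) (F 68 L))))) (S (T (V (F 68 L) (F 68 L)) (V (S (F 76 L) (F 68 L)) (S (F 76 L) (F 68 L)))) (T (F 69 (V (S L L) (S L L))) (V (T (F 69 (S L L)) (F 68 L)) (S (F 68 L) (F 68 L)))))) (U (S (T (V (F 76 (S L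 L)) (F 12 L)) (V (S (F 76 L) (F 68 L)) (F 8 L))) (T (V (F 4 L) (F 4 L)) (V (S (F 68 L) (F 4 L)) L))) (S (T (V (F 76 (S L L)) (F 12 L)) (V (S (F 76 L) (F 68 L)) (F 8 L))) (T (S (F 4 L) (F 4 L)) (V (S (F 68 L) (F 4 L)) L))))))
noncomputable def v3_32 : Tr := (U (S (F 76 (T (V (U (S (T L L) (T (V (F 32 L) (F 32 L)) (V L L))) (S (T (F 16 L) L) (T (T (F 32 L) L) (S L L)))) (S (T (F 16 L) (S (F 16 L) (F 16 L))) (T (S (F 16 L) (F 16 L)) (V L (F 16 L))))) (V (U (S (T (S L L) (S (F 2 L) L)) (T (V (S L L) L) (V (S L L) L))) (S (T L L) (T (V (S L L) L) (V (S L L) L)))) (U (S (T (F 16 L) (S (F 2 L) (F 2 L))) (T (S L L) (V L L))) (S (T (F 16 L) (S (F 2 L) (F 2 L))) (T (S L L) (V L L))))))) v3_30) (S (T (F 76 (V (U (S (T (F 16 L) L) (T (S (F 32 L) (F 32 L)) (S L L))) (S (S L L) (T (S (F 32 L) (F 32 L)) (S L L)))) (S (T (F 16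 L) (S (F 16 L) (F 16 L))) (T (S (F 16 L) (F 16 L)) (S L L))))) (V (S (F 76 (T (S L L) (T L L))) (T (V (S (F 76 L) (F 68 L)) (F 76 (S L L))) (V (S (F 76 L) (F 68 L)) (F 76 (U L L))))) (F 76 (S (T L (S (F 2 L) L)) (T (U (S L L) L) (U (V L L) (S L L))))))) v3_31))
noncomputable def v3_33 : Tr := (V (S (T (F 133 (V (U (T (S (F 8 L) (F 8 L)) (S (F 8 L) (F 8 L))) (V (S L L) (S (F 8 L) (F 8 L)))) (U (V (S (F 8 L) (F 8 L)) (F 9 (S L (S L L)))) (F 9 (T (S L L) (S L L)))))) (F 164 (U (V (S (T (F 64 L) (F 16 L)) (T (F 64 L) (F 80 (U (S L L) L)))) (T (V (F 64 L) (F 1 L)) (F 1 L))) (V (T (S (F 64 L) (F 64 L)) (S (F 1 L) (F 64 L))) (T (F 65 (S L L)) (F 1 L)))))) (F 161 (T (U (V (T (S (F 32 L) (F 32 L)) (S (F 32 L) (T (F 32 L) (F 16 L)))) (S (S (F 32 L) (F 32 L)) (T (F 32 L) (F 32 L)))) (T (V (S (F 32 L) (F 32 L)) (S (F 32 L)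 (F 32 L))) (V (S (F 32 L) (F 32 L)) (S (F 32 L) (F 32 L))))) (V (U (S (T (S (F 32 L) (F 16 L)) (F 16 L)) (T (F 16 L) (F 16 L))) (S (T (F 32 L) (F 16 L)) (T (F 16 L) (F 16 L)))) (U (T (S (F 32 L) (F 32 L)) L) (V (S (F 32 L) (F 32 L)) (F 33 (S (S L L) (T L L))))))))) (F 672 (S (T (V (S (F 16 L) (F 80 (U L L))) (F 16 L)) (V (U (F 16 L) (F 16 L)) (F 16 L))) (T (F 80 (U (V (S (S L L) (T L L)) L) (V (S L (S L L)) L))) (V (U (S (F 16 L) (S (F 80 L) (F 64 L))) (S (F 16 L) (S (F 80 L) (F 64 L)))) (U (F 16 L) (F 16 L)))))))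
noncomputable def v3_34 : Tr := (V (S (U (F 164 (T (V (T (S (F 64 L) (F 64 L)) (S (F 64 L) (F 64 L))) (F 65 (S (S L L) (S L L)))) (V (V (S (F 64 L) (F 64 L)) (S (F 1 L) (F 65 (T L L)))) (T (F 65 (S L L)) (F 1 L))))) (F 645 (T (V (V L (T (F 4 L) (F 4 L))) (S (F 4 L) (F 4 L))) (V (U (S (F 4 L) (F 4 L)) (S (F 4 L) (F 4 L))) (S (F 4 L) (F 4 L)))))) (F 161 (T (U (V (T (S (F 32 L) (F 32 L)) (S (F 32 L) (F 32 L))) (V (S (F 32 L) (F 32 L)) (F 33 (T L L)))) (V (S (F 32 L) (F 32 L)) (F 33 (U (S L L) L)))) (U (V (V (T (S (F 32 L) (F 48 (S L L))) (U (F 16 L) (F 48 (S L L)))) (S (F 32 L) (F 32 L))) (S (F 33 (T L L)) (T (F 33 (S L L)) (F 1 L)))) (V (U (V (F 48 (S L L)) (F 32 L)) (S (S (F 33 L) (F 48 L)) (F 48 L))) (F 33 (U (S L L) (S L L)))))))) (F 676 (U (S (T (S (F 32 L) (F 32 L)) L) (T (S (F 32 L) (S (F 32 L) (F 32 L)))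 (V (U (F 32 L) (F 32 L)) (F 32 L)))) (S (T (F 32 L) L) (T (S (F 32 L) (F 32 L)) (V (S (F 32 L) (F 32 L)) (F 32 L)))))))
noncomputable def v3_35 : Tr := (U (V (S (T (U (V (S (F 164 (V (F 16 L) (F 1 L))) (F 168 (T (F 64 L) (F 16 L)))) (F 676 (S L L))) (V (V (F 168 (S (F 16 L) (S (F 16 L) (F 64 L)))) (F 676 (T L (S (F 8 L) (F 8 L))))) (F 676 (S L L)))) (F 680 (S (U (V (S (F 8 L) L) (F 8 L)) (U (T (F 8 L) (F 8 L)) (F 8 L))) (U (T (S L L) L) (T L L))))) (T (U (V (F 169 (S (T L L) (S L L))) (S (F 672 L) (F 161 (V (F 16 L) (F 1 L))))) (V (F 169 (S (T L L) (S L L))) (S (F 672 L) (F 161 (V (F 16 L) (F 1 L)))))) (F 168 (S (U (V L (F 1 L)) (T (F 1 L) (F 1 L))) (V (U (S (F 64 L) (F 64 L)) (S (F 64 L) (F 64 L))) (U (F 1 L) (F 1 L))))))) (F 672 (S (T (U (S (F 16 L) (F 16 L)) (S (F 16 L) (F 16 L))) (U (S (F 16 L) (F 16 L)) (S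 (F 18 L) (F 16 L)))) (T (S (U (S (F 16 L) (F 16 L)) (S (F 16 L) (F 16 L))) (U L L)) (U (S L L) (S L L)))))) (V (S (T (V (U (F 168 (S (F 17 (T L L)) (T (S (F 17 L) (F 80 L)) (F 1 L)))) (F 164 (V (S (F 17 L) (T (S (F 17 L) (F 80 L)) (F 17 L))) (F 1 L)))) (F 676 (U L L))) (F 680 (U (V (S (S (F 8 L) (F 8 L)) L) (S (F 8 L) (F 8 L))) (S (S (F 8 L) (F 8 L)) (V L (F 8 L)))))) (T (F 161 (U (T (V (S (F 16 L) (F 16 L)) (F 1 L)) (S (F 17 (U (S L L) L)) (V (F 16 L) (F 17 L)))) (S (T (V (F 17 L) (F 33 L)) (F 17 (S L L))) (F 17 (U (T L L) (S L L)))))) (F 168 (U (S (T (F 1 L) (F 1 L)) (V (T (F 64 L) (F 65 L)) (F 1 L))) (S (S (F 1 L) (F 1 L)) (V (F 65 (T L L)) (F 1 L))))))) (F 672 (S (T (U (F 16 L) (F 16 L)) (U (F 16 L) (F 16 L))) (T (U (S (F 16 L) L) (S (F 16 L) (F 16 L))) (U (S (F 16 L) L) (S (F 16 L) L)))))))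
noncomputable def v3_36 : Tr := (V (S (T (V (U (T (F 37 (S (S (F 4 L) (F 32 L)) (F 32 L))) (F 169 (S L L))) (T (F 37 (S (F 4 L) (F 32 L))) (F 169 (S L L)))) (F 161 (U (S (T (F 32 L) (F 32 L)) L) (T (S (F 32 L) (F 32 L)) L)))) (F 161 (U (V (T (S (F 16 L) (F 16 L)) (S (F 16 L) (F 16 L))) (S L (S (F 16 L) (F 16 L)))) (V (T (S (F 16 L) (F 16 L)) (S (F 16 L) (F 16 L))) (T L (S (F 16 L) (F 16 L))))))) (T (U (V (F 41 (T L (S (F 4 L) (F 4 L)))) (S (F 161 L) (F 41 (T L (F 4 L))))) (V (F 41 (T L (S (F 4 L) (F 4 L)))) (F 161 (T L (S (F 16 L) (F 16 L)))))) (F 169 (U (V (T (S L L) (S L L)) (T (S L L) (S L L))) (T (V (S L L) (S L L)) (V (S L L) (S L L))))))) (F 161 (S (T (U (S (T (F 33 (V L L)) (F 1 L)) (T (F 1 L) (F 1 L))) (V (T (S (F 33 L) (F 32 L)) (F 1 L)) (F 33 (S L L)))) (U (V (T (S (F 1 L) (F 1 L)) (F 1 L)) (S (F 1 L)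 (F 1 L))) (V (S (F 1 L) (F 1 L)) (S (F 1 L) (F 1 L))))) (T (V (U (S L L) (S L L)) (U (S (F 1 L) (F 1 L)) (S (F 1 L) (F 1 L)))) (U (V (S L L) (S (F 1 L) (F 1 L))) (S (T (F 1 L) (F 1 L)) (V L (F 1 L))))))))
noncomputable def v3_37 : Tr := (V (S (T (U (V (T (F 37 (S (F 4 L) (F 32 L))) (F 169 (S (U (F 16 L) (F 16 L)) L))) (F 165 (T (S L L) (S L L)))) (F 37 (V (V (T (F 34 (S L L)) (F 36 (S L L))) (S (F 4 L) (F 4 L))) (U (F 4 L) (F 5 (S L L)))))) (F 161 (U (T (V (S (F 16 L) (F 16 L)) L) (S (S (F 16 L) (F 16 L)) (S (F 16 L) (F 16 L)))) (V (T (F 16 L) (F 16 L)) (T (F 1 L) (F 17 (S L L))))))) (T (U (T (V (F 41 (S (F 32 L) (F 2 L))) (F 161 L)) (F 41 (V (S (F 4 L) (F 2 L)) (S (F 4 L) (F 4 L))))) (S (T (F 37 (V (F 34 L) (F 4 L))) (F 169 L)) (F 41 (V (F 2 L) (S (F 4 L) (F 4 L)))))) (F 169 (U (T (S (S L L) (S L L)) (S (S L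 L) (S L L))) (T (S L L) (S L L)))))) (F 161 (S (U (T (F 33 (V (S (S L L) (T L L)) (S L L))) (T (S (F 1 L) (F 1 L)) (S (F 1 L) (F 1 L)))) (T (F 33 (U (S L L) L)) (S (F 33 (T L L)) (F 1 L)))) (T (U (V (S (F 1 L) L) (F 1 L)) (T (F 1 L) (F 1 L))) (U (S (S (F 1 L) (F 1 L)) (T (F 1 L) (F 1 L))) (T (S (F 1 L) (F 1 L)) (S (F 1 L) (F 1 L))))))))
noncomputable def v3_38 : Tr := (V (F 161 (S (T (U (V (S (S (F 16 L) (F 16 L)) (F 16 L)) (S (V (F 16 L) (F 1 L)) (F 17 (T L L)))) (V (S (F 16 L) (F 16 L)) (F 17 (S (T L L) (T L L))))) (U (V (S (F 16 L) (F 16 L)) (F 17 (S (T L L) (T L L)))) (S (F 17 (T (S L L) (S L L))) (V (F 16 L) (F 17 (S L L)))))) (T (U (S (T (F 16 L) (F 16 L)) (T (F 16 L) (F 16 L))) (S (T (F 16 L) (F 17 (S L L))) (S (F 16 L) (F 16 L)))) (U (V (S (F 16 L) (F 16 L)) (F 17 (S (T L L) (T L L)))) (V (S (F 16 L) (F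 16 L)) (F 17 (T (S L L) (S L L)))))))) (F 672 (S (T (U (S (S (F 64 L) (F 64 L)) (S (F 64 L) (F 64 L))) (U (S (F 64 L) (F 64 L)) (F 64 L))) (V (U (S (F 8 L) (F 72 (T L L))) (S (F 8 L) (F 72 (S L L)))) (U L L))) (T (U (V (F 72 (T (S L L) (S L L))) (S (F 64 L) (F 64 L))) (V (F 72 (T (S L L) (S L L))) (S (F 64 L) (F 64 L)))) (F 72 (U (S (T (S L L) (S L L)) (T (S L L) (S L L))) (T (S (S L L) (S L L)) (S (S L L) (S L L)))))))))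
noncomputable def v3_39 : Tr := (U (V (F 169 (S (T (U (S (V (S L L) (S L L)) (V L L)) (S (T (S L L) (V L (S (F 1 L) (F 1 L)))) (T (S L L) L))) (U (S (V L (T (F 1 L) (F 1 L))) (T L L)) (V (T (S L L) L) (S (T (F 1 L) (F 1 L)) (T (F 1 L) (F 1 L)))))) (T (U (T (S L L) (S L L)) (T (S L L) (S L L))) (U (V (S L L) (S L L)) (S (T L L) (S L L)))))) (S (F 672 (T (U (V (S (F 64 L) (F 64 L)) (S (F 64 L) (F 64 L))) (V (S (F 64 L) (F 64 L)) (S (F 64 L) (F 64 L)))) (V (S (U (F 8 L) (F 8 L)) (F 72 (U (T L L) (T L L)))) (U L L)))) (F 161 (T (U (V (S (F 17 (T L L)) (F 16 L)) (S (F 1 L) (F 1 L))) (V (F 17 (S (T L L) (T L L))) (S (F 1 L) (F 1 L)))) (F 17 (U (S (T (S L L) (S L L)) (T (S L L) (S L L))) (S (T (S L L) (T L L)) (T (S L L) (S L L))))))))) v3_38)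
noncomputable def v3_40 : Tr := (U (V (S (T (U (S (F 68 L) (F 68 L)) (S (F 68 L) (F 68 L))) (U (V (F 68 L) (F 68 L)) (V (F 68 L) (F 68 L)))) (T (F 69 (U (V (S L L) (S L L)) (V (S L L) (S L L)))) (V (S (T (F 68 L) (F 68 L)) (F 69 (U (S L L) (S L L)))) (U (S (F 68 L) (F 68 L)) (S (F 68 L) (F 68 L)))))) (S (T (V (F 76 (U (S L L) L)) (S (F 76 L) (F 12 L))) (V (T (S (F 76 L) (F 68 L)) (F 64 L)) (S (F 72 L) (F 8 L)))) (T (U (S (F 4 L) (F 4 L)) (S (F 4 L) (F 4 L))) (V (T (S (F 68 L) (F 4 L)) L) (S L L))))) (V (S (T (U (T (F 68 L) (F 68 L)) (S (F 76 L) (F 68 L))) (U (V (F 68 L) (F 68 L)) (S (F 68 L) (F 68 L)))) (T (F 69 (U (V (S L L) (S L L)) (V (S L L) (S L L)))) (U (S (S (F 68 L) (F 68 L)) (V (F 69 L) (F 68 L))) (S (S (F 68 L) (F 68 L)) (V (F 69 L) (F 68 L)))))) (S (T (V (F 76 (U L L)) (S (F 76 L) (F 12 L))) (U (V (S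 (F 76 L) (F 68 L)) (F 12 L)) (S (F 76 L) (T (F 76 L) (F 68 L))))) (T (U (F 4 L) (S (F 12 L) (F 5 L))) (U (T (F 4 L) L) (T (F 4 L) L))))))
noncomputable def v3_41 : Tr := (S (F 76 (T (U (V (S (T L L) (T (U (F 32 L) (F 32 L)) (U L L))) (S (T (F 16 L) (F 16 L)) (T (F 16 L) (S (F 16 L) L)))) (V (S (T L L) (T (T (F 32 L) L) (U L L))) (U (S (F 16 L) (S (F 16 L) (F 16 L))) (S (F 16 L) (F 16 L))))) (U (V (S (T (S L L) (S (F 2 L) L)) (T (U (S L L) (S L L)) (U (T L L) (T L L)))) (S (T L (V (F 2 L) (F 2 L))) (T (V L L) (U (S (F 2 L) L) (S (F 2 L) L))))) (V (S (T (S (F 2 L) L) (S (F 2 L) L)) (T (U L L) (U (S L L) (S (F 2 L) L)))) (S (U (S (F 2 L) (F 2 L)) (F 2 L)) (T (V L L) (U L L))))))) (T (U (V (S (T (F 77 (U (S L L) (S L L))) (S (F 76 (V L L)) (F 69 (U L L)))) (F 69 (T (S (U L L) (U L L)) (U (V (S L L) L) (V (S L L) L)))))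 (T (F 15 (V (U (S (F 4 L) (S (F 4 L) (F 4 L))) (S (F 4 L) (S (F 4 L) (F 4 L)))) (U L L))) (S (V (F 76 (S L L)) (F 14 (S (F 4 L) L))) (S (S (F 12 L) (F 5 L)) (T (F 5 L) (F 5 L)))))) (V (F 69 (T (U (S (F 16 L) (S (F 16 L) (S (F 32 L) (F 32 L)))) (S (F 48 (S L L)) (T (F 48 (S L L)) (F 32 L)))) (S (U (V (S (F 16 L) (F 16 L)) (F 16 L)) (V (F 16 L) (F 16 L))) (U (S L L) (S L L))))) (U (T (F 15 (S (F 4 L) (S (F 4 L) L))) (S (F 76 (S (F 16 L) L)) (S (F 13 L) (F 7 L)))) (T (F 79 (S L (S L L))) (S (F 78 (S L L)) (F 7 (T (F 32 L) L))))))) v3_40))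
noncomputable def v3_42 : Tr := (T (F 18980 (U (V (U (S v3_11 v3_13) (S (T (V (U (S (V (F 261 (T (F 64 L) (S L L))) (F 37 (T (F 64 L) (T (F 64 L) L)))) (F 37 (T (F 66 (V L L)) (V (T (F 66 L) (F 2 L)) (S (F 64 L) (F 64 L)))))) (V (F 261 (T (S (F 64 L) (F 72 L)) (S (S L (F 64 L)) (F 64 L)))) (F 39 (T (S (S (F 2 L) (F 2 L)) (F 2 L)) (S (S L L) (S L L)))))) (F 39 (T (S (V (S (F 1 L) L) (F 1 L)) (V L (F 1 L))) (S (V (V (S L L) (F 5 (U (S L L) L))) (F 5 (U L L))) (V (U L L) (F 5 (U (S L L) L))))))) v3_14) (T (F 39 (V (T (S (V (F 2 L) (S (F 2 L) (F 2 L))) (S (F 2 L) (F 2 L))) (S (V (U (S (F 2 L) (F 34 L)) (F 2 L)) (U L (S (F 2 L) (F 2 L)))) (V (S (F 2 L) (F 34 L)) (U (F 2 L) (F 2 L))))) (U (T (V (S (F 2 L) (F 2 L)) (S (F 1 L) (F 2 L))) (V (S L L) (S L L))) (T (S L (F 2 L)) (S (V L (F 1 L)) (V L L)))))) v3_15))) v3_16)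 v3_20)) (U (V (F 18980 v3_29) (F 16973 v3_32)) (V (F 18980 (S (T (U v3_33 v3_34) v3_35) (T (U v3_36 v3_37) v3_39))) (F 16973 v3_41))))
noncomputable def v3_43 : Tr := (T (V (U (U (U (V (F 65 (S (U (V (T (F 19 L) (F 1 L)) (F 17 L)) (F 17 L)) (T (F 16 L) (S L (V L (T (F 16 L) (F 2 L))))))) (F 18 (S (F 3 (T (F 1 L) L)) (T (F 17 L) (S (F 16 L) (F 16 L)))))) (F 65 (S (F 17 (V L (F 4 L))) (T (F 18 L) (V (T (F 16 L) (S (F 2 L) (F 2 L))) (F 18 (S L L))))))) (F 83 (U (S (F 1 L) (T (F 1 L) (T L (S L L)))) (F 1 L)))) (F 115 L)) (F 18 (U (U (S (T (F 19 L) (F 2 L)) (T (F 17 L) (T (F 16 L) L))) (F 17 (S (F 4 L) L))) (F 19 L)))) (V (U (S (T (U (V (F 96 (T L (S (F 1 L) (F 1 L)))) (F 48 L)) (F 112 (S (F 4 L) L))) (F 48 (U (V L L) (F 1 L)))) (T (U (V (T (S (F 80 (T L L)) (F 17 (U (S L L) (S (F 1 L) (F 1 L))))) (S (S (F 48 L) (F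 16 L)) (S (F 16 L) (F 16 L)))) (U (S (F 48 L) (F 16 L)) (S (F 50 L) (F 17 L)))) (F 80 (S (T (F 1 L) (F 1 L)) (V (T (F 16 L) (F 16 L)) L)))) (V (U (T (S (F 48 L) (S (F 16 L) (F 16 L))) (F 52 (S L (U (S L L) L)))) (F 52 (U (S (F 1 L) L) (F 1 L)))) (F 48 (U (U (S (F 4 L) L) L) (S (F 1 L) L)))))) (F 112 (U (T (F 12 (V L L)) (F 2 (T L L))) (F 14 L)))) (U (S (F 50 (U (T L (S L L)) (S (F 1 L) L))) (T (U (V (T (F 18 L) (F 48 L)) (F 50 (S L L))) (F 50 (T L L))) (F 48 (U (S (S L L) (V (S L L) L)) (V L (F 8 L)))))) (F 114 (U (T (F 4 L) (T L L)) (F 6 L))))))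
noncomputable def v3_44 : Tr := (S (U (T (F 193 (V (S L (S (F 4 L) (F 4 L))) (F 5 (S L L)))) (U (V (T (F 193 (S (V (F 1 L) (F 5 (S L L))) (S (F 4 L) (F 4 L)))) (S (F 160 (V (F 1 L) (F 4 L))) (F 40 (U (V (F 2 L) (F 1 L)) (F 3 (S L L)))))) (F 169 (S (S L L) (S L L)))) (F 232 (V (S (T (F 8 L) L) (T (F 8 (S L L)) L)) (F 8 (S L (S L L))))))) (F 233 (U (T L (V (S L (S L L)) L)) (S L L)))) (T (F 201 (U (U (V (S L (F 8 L)) L) (S L (F 8 L))) L)) (V (U (S (T (F 201 (U (S L L) L)) (U (V (F 74 L) (V (F 73 L) (F 168 L))) (F 200 (T (F 16 L) (F 1 L))))) (F 73 (U (T (F 16 L) (V (S (F 16 L) (F 16 L)) L)) (V (F 16 L) (F 1 L))))) (F 201 (U (S (V (F 8 L) (F 1 L)) (F 8 (S L L))) (F 9 (S L L))))) (F 137 (U (U (T (V (S (F 1 L) (F 1 L)) (F 2 L)) (S (S (F 2 L) (F 2 L)) (U (S (F 2 L) (F 2 L)) (F 2 L)))) (F 3 (S (S L L) (U (S L L) L))))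 (F 3 (U (S L L) L)))))))
noncomputable def v3_45 : Tr := (T (V (F 160 (U (S (T (U (S (F 32 L) (S (F 32 L) (F 32 L))) (F 48 (S L L))) (U (U (S (F 32 L) (F 32 L)) (F 32 L)) (F 32 L))) (T (U (V (S (V (F 16 L) (F 32 L)) (F 16 L)) (S (F 32 L) (F 32 L))) (F 48 (T L (S L L)))) (U (V (U (V (S (F 2 L) (F 2 L)) (F 32 L)) (F 34 (T (S L L) (S L L)))) (S (F 32 L) (F 32 L))) (V (F 34 (U (S L L) (T (F 1 (S L L)) L))) (F 32 L))))) (F 48 (U (T (S L L) (S L (F 4 (U (S L (S L L)) L)))) (F 4 (T L (S L L))))))) (F 33 (U (U (S (T (F 1 L) L) (T (F 1 L) (S (F 1 L) (F 1 L)))) (T (S (F 3 L) (F 1 L)) (S (F 1 L) (F 1 L)))) (U (S (F 1 L) (F 1 L)) (F 33 (S (F 8 L) L)))))) (V (U (U (S (F 33 (T (V (T (T (F 1 L) (F 4 L)) (F 4 L)) L) (T (S (F 4 L) (F 4 L)) (F 4 L)))) (F 17 (T (S (T (F 5 (U (S L L) L)) (F 1 L)) (T (F 1 L) (F 1 L))) (V (U (S (F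 1 L) (F 1 L)) (F 1 L)) L)))) (F 17 (S (T (T (F 5 (S L L)) (F 4 L)) (F 4 L)) (T (U (S (F 5 (S L L)) (F 1 L)) (F 5 (S L L))) (T (F 1 L) (F 1 L)))))) (F 17 (U (S (T (F 5 L) (F 20 L)) (T (F 5 (U L (F 1 (S L L)))) (S (F 5 L) (F 1 L)))) (T (F 37 (S L L)) (S (F 52 L) (F 33 (S (F 4 L) L))))))) (U (S (F 33 (U (T L L) L)) (T (F 33 (U (T (S (F 1 L) (F 1 L)) L) (S (F 1 L) (F 1 L)))) (U (S (F 33 L) (F 17 L)) (F 33 (T L (S (F 4 L) (F 4 L))))))) (F 33 (S (T L (F 16 L)) (T (U (F 1 L) (F 5 L)) (U (S (F 4 L) (F 4 L)) (F 4 L))))))))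
noncomputable def v3_46 : Tr := (V (U (U (S (T (V (U (V (F 98 (T L (S (F 8 L) (F 8 L)))) (F 68 L)) (F 102 (S L L))) (F 69 (S L (S L L)))) (U (V (F 36 L) (F 5 (S (F 2 L) (F 4 L)))) (F 37 (S (T (F 2 L) L) L)))) (T (T (F 66 (V (F 2 L) (S (F 16 L) (F 2 L)))) (F 38 (U (S L L) L))) (F 36 (V (U (S (F 16 L) (F 16 L)) (S (F 16 L) (F 16 L))) (U (S (F 32 L) (F 32 L)) (S (F 32 L) (F 32 L))))))) (T (S (F 68 (V (F 18 (U (S L L) (S (F 1 (S L L)) L))) (T (F 48 L) (F 32 L)))) (V (F 98 (S (S (F 8 L) (F 8 L)) L)) (F 3 (S (F 34 (S L L)) (T (F 6 L) (F 36 L)))))) (F 36 (S (S (T (F 34 (U L (F 1 (S L L)))) (F 32 L)) (F 48 (U (S L L) L))) (V (S (F 16 L) (F 16 L)) (S (F 32 L) (F 32 L))))))) (F 39 (U (S (T (F 2 (U (S L L) L)) (U (T (F 2 (S L L)) L) (F 2 (S L L)))) (T (F 2 (U (S L L) L)) (S L L))) (F 2 (S (S L L) (T (F 4 (S L L)) (S L L)))))))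 (F 5 (U (S (U (T (S (F 2 L) (F 2 L)) (T (S (F 2 L) (F 2 L)) L)) (T (F 2 L) (S (F 2 L) (F 2 L)))) (T (U (S (F 2 L) L) (T (F 3 L) (F 2 L))) (U (U L (S (F 4 L) (F 4 L))) (S (F 4 L) (F 4 L))))) (U (S (F 2 L) (T (F 3 (T (F 1 L) L)) (F 4 L))) (T (F 35 L) (S (F 34 L) (F 36 (S (F 4 L) (F 8 L)))))))))
noncomputable def v3_47 : Tr := (V (F 144 (U (S (U (T (U (S (S (F 32 L) (F 32 L)) (S (F 32 L) (F 32 L))) (S (F 32 L) (F 32 L))) (S (T (F 32 L) (F 32 L)) (T (F 32 L) (F 32 L)))) (T (S (F 32 L) (F 32 L)) (S (S (F 32 L) (F 32 L)) (S (F 32 L) (F 32 L))))) (U (T (V (S L L) (U (S (F 32 L) (F 32 L)) (F 32 L))) (U (S (F 32 L) (F 32 L)) (S (F 32 L) (F 32 L)))) (T (S (F 32 L) (V (F 16 L) (F 32 L))) (S (F 32 L) (F 32 L))))) (U (S (T (F 48 (S L (S L L))) (S (F 32 L) (F 32 L))) (T (F 48 (S L (S L L))) (U (F 32 L) (F 48 L)))) (F 48 (S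 (T (F 4 (S L L)) L) (T L L)))))) (U (S (T (F 129 (U (S L L) (S L (S (F 4 L) (F 4 L))))) (U (S (F 17 L) (F 129 (V (S (F 4 L) (F 4 L)) L))) (F 145 (U (S L L) (S L L))))) (F 129 (U (T (V (U (S (F 4 L) (F 4 L)) (F 4 L)) L) (S (T (F 4 L) (S (F 4 L) (F 4 L))) (T (F 4 L) (F 4 L)))) (T (U (S (F 4 L) (F 4 L)) (S (F 4 L) (F 4 L))) (T (S (F 4 L) (F 4 L)) (S (F 4 L) (F 4 L))))))) (F 129 (S (U (T (S (F 2 L) (F 4 L)) (S (F 4 L) (F 4 L))) (T (F 6 (S L L)) (F 4 L))) (U (T (S (F 4 L) (F 4 L)) (S (F 4 L) (F 4 L))) (T (F 4 L) (F 4 L)))))))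
noncomputable def v3_48 : Tr := (T (F 1284 (V (F 132 (U (U (T (F 3 (S (S L L) (U (S L L) L))) (S (S (F 2 L) (F 2 L)) L)) (T (F 3 (S L L)) (S (F 2 L) (S (F 2 L) (F 1 L))))) (U (T (F 3 (S L L)) (S (F 2 L) (S (F 2 L) (F 1 L)))) (F 3 (S L L))))) (U (U (T (F 228 (S L L)) (S (F 100 L) (F 192 (S (F 1 L) L)))) (F 224 (T (S (F 4 L) (F 4 L)) (S (S (F 4 L) (F 4 L)) (T (F 4 L) L))))) (F 228 (U (T L (S L (S L L))) (S L L)))))) (V (F 1348 (U (S (T (U (S (F 16 L) (F 64 L)) (T (F 80 L) (F 16 L))) (T (V L L) (U L L))) (U (T (V (F 64 L) (S (F 64 L) (F 64 L))) (S L (U (F 64 L) (F 64 L)))) (T (S (F 64 L) (F 64 L)) (T (S (F 64 L) (F 64 L)) (V (F 72 (S L L)) (F 64 L)))))) (U (T (S (F 80 (S L L)) (F 64 L)) (S (S (F 16 L) (F 16 L)) (S (F 64 L) (V (F 72 L) (F 64 L))))) (T (F 80 (S L L)) (S (F 16 L) (V (F 72 L) (F 64 L))))))) (U (S (F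 1356 (U (T (S L L) (V (S L L) (S (F 2 L) L))) (T L (T L L)))) (T (F 1284 (T (S (F 32 L) (F 128 L)) (S L L))) (T (F 1284 (V L L)) (S (F 1280 L) (F 1280 L))))) (F 1284 (T (U (S (F 36 L) (S (F 36 L) (F 192 L))) (S (F 100 L) (F 160 (V (F 8 L) (F 1 L))))) (U (S (F 36 (S L L)) (T (F 4 L) (F 4 L))) (F 36 (U (S (F 16 L) L) L))))))))
noncomputable def v3_49 : Tr := (V (U (S (F 324 v3_45) (T (F 69 v3_46) (F 324 v3_47))) (F 1364 (U (T (F 41 (U (S (T (F 1 L) L) (F 1 (U (S (S L L) (S L L)) L))) (F 1 (S L L)))) (S (F 9 (U (T (F 1 (S L L)) (S (F 8 L) (F 1 (S L L)))) (F 9 (T L L)))) (U (S (F 40 (T (F 8 L) (V (F 8 L) L))) (F 33 (T L L))) (F 41 (S L (S L L)))))) (F 57 (S (F 2 L) L))))) (U (S (F 1356 (T (V (U (T (F 48 (U (S L L) L)) (U L L)) (F 48 (U (S L (S L L)) L))) (U (U (S (F 18 L) (F 16 L)) (F 16 L)) (T (F 48 L) (F 16 L))))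 (V (U (S (T L (T (F 2 L) (F 2 L))) (U (T L L) (T L L))) (U (S (F 2 L) L) (T (F 2 L) (F 2 L)))) (U (S (T (F 2 L) (F 2 L)) (T (S L L) (U (S (F 2 L) (F 2 L)) (F 2 L)))) (S (F 2 L) (U (T (F 16 L) (F 2 L)) (F 2 L))))))) v3_48) (F 1348 (U (U (T (F 112 (S (S (F 8 L) L) (T (F 8 L) (S L L)))) (S (F 18 (V L (F 2 L))) (T (F 80 (V (S (F 1 L) L) (S (F 1 L) (S (F 1 L) (F 1 L))))) (S (V (F 80 L) (F 18 L)) (V (F 72 L) (S (F 80 L) (F 64 L))))))) (S (F 50 (T (F 9 L) L)) (T (F 113 L) (V (F 88 (S L L)) (T (F 112 L) (S (F 50 L) (F 80 L))))))) (F 113 (U (S (F 4 L) (V (F 1 (S L L)) (S (F 4 L) L))) (F 5 L)))))))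
noncomputable def v3_50 : Tr := (U (S (F 20004 (T (U v3_3 v3_5) (U v3_8 (V (S (T (U (V (V (S (F 352 (S L L)) (T (S (F 352 L) (F 320 L)) (F 352 L))) (F 336 (S (S (F 2 L) (F 2 L)) (T L (F 2 L))))) (F 368 (T (S (F 8 L) L) L))) (F 352 (V (V (T L L) (T (S (F 3 L) (F 2 L)) (F 2 L))) (T (F 2 L) (F 2 L))))) (F 368 (U (V (S L (U L L)) (S L L)) (V (U (S (F 4 L) L) L) L)))) v3_9) (F 336 (S (T (F 18 (U (T L L) (S L L))) (U (V (F 2 L) (F 18 L)) (F 18 (V L L)))) (T (U (V (S L (S L L)) (S (F 18 L) (F 16 L))) (V (S (F 2 L) L) (S (F 18 L) (F 16 L)))) (U (V (S (F 2 L) (T (F 2 L) (F 2 L))) (S (F 2 L) (T (F 2 L) (F 2 L)))) (S (T (F 2 L) (F 2 L)) (V (T (F 2 L) (F 2 L)) (S (F 2 L) (F 2 L)))))))))))) v3_42) (S (F 20013 v3_43) (T (F 28196 (V (U v3_44 (F 233 (U (S L (F 4 (S L L))) (F 5 L)))) (F 169 (U (S (U (T (F 1 (S L L)) (U (S L L)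 L)) (F 1 (S L L))) (U (T (F 1 (V (S L L) L)) (U (V (S L L) L) (V L L))) (F 1 (U (S L (S L L)) L)))) (F 1 (S L (S L L))))))) (F 16964 v3_49))))
noncomputable def v3_51 : Tr := (V (F 269 (U (S (T (V (F 6 L) L) (V (F 6 (S L L)) (T (S (F 2 L) (F 2 L)) (S (F 2 L) (F 2 L))))) (T (S L L) (T L (S (S (F 2 L) (F 2 L)) L)))) (S (T (V (F 6 L) L) (V (F 6 L) (S (F 2 L) (F 2 L)))) (T (S L L) (S L L))))) (U (S (F 133 (T (V (S (K 4) (T (K 4) (F 32 L))) (K 4)) (V (T (S (F 32 L) (F 32 L)) (S (F 32 L) (F 32 L))) (U (K 4) (S (S L L) (T L (S (F 32 L) (F 32 L)))))))) (T (V (F 269 (T L (S L L))) (U (K 4) (T (F 5 L) (S (F 133 L) (F 13 L))))) (F 13 (V (T (S (F 4 L) (F 2 L)) (S (F 4 L) (F 4 L))) (T (V (S (F 4 L) (F 4 L)) (S (F 4 L) (F 4 L))) (S (V (F 4 L) (F 4 L)) (S (F 4 L) (F 4 L)))))))) (S (T (V (F 13 (T (S (F 2 L) (F 2 L)) (S (F 4 L)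 (F 2 L)))) (F 133 (T (S L L) (S L L)))) (F 133 (V (T (S (F 32 L) (F 32 L)) (S (F 32 L) (F 32 L))) (S (T L L) (T L L))))) (T (V (F 269 (S (S L L) L)) (T (F 5 L) (S (F 133 L) (F 13 L)))) (V (F 13 (T (S (F 4 L) (F 2 L)) (S (F 4 L) (F 4 L)))) (F 133 (V (T (S (F 32 L) (F 32 L)) (S (F 32 L) (F 32 L))) (S L L))))))))
noncomputable def v3_52 : Tr := (S (T (V (F 333 (U (K 3) (T (S (K 3) L) (S (V (F 2 L) (K 3)) (S L L))))) (U (K 4) (S (K 4) (T (K 4) (U (K 4) (S (K 4) (V (F 333 L) (F 133 (S (K 4) L))))))))) (V (F 204 (U (V (F 34 (T (S (K 1) L) (S L L))) (T (K 3) (S (K 3) (U (K 3) (V (F 34 L) (F 32 L)))))) (V (F 34 (T (S L L) (S L L))) (T (F 34 (S (S L L) (T L (S L L)))) (S (V (F 34 L) (F 2 L)) (V (F 34 (S L L)) (S (F 32 L) (F 32 L)))))))) (U (F 141 (S (K 4) (T (K 4) (V (S (K 4) (T (K 4) L)) (K 4))))) (S (F 196 (T (T (K 3)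 (V (F 16 L) (S (K 3) L))) (V (T (F 16 L) (F 16 L)) (V L (F 1 L))))) (T (F 133 (V (V (T (F 34 L) (F 32 L)) L) (U (K 4) (S L L)))) (V (F 140 (T (S (F 4 L) (F 64 L)) (S (F 4 L) (F 64 L)))) (S (F 132 L) (F 132 L)))))))) (T (V (F 269 (T (S (S (F 4 L) (F 4 L)) (S (F 4 L) (F 36 L))) (S (U (S (K 4) (F 4 L)) (S (F 4 L) (F 4 L))) (S L L)))) (U (F 269 (S (K 4) (V (T (K 4) (S (K 4) L)) (K 4)))) (S (T (F 263 (U (K 4) (S (K 4) L))) (V (F 269 (S L L)) (T (F 261 (S L L)) (F 5 L)))) (F 261 (T (V (F 96 L) (S (F 64 L) (F 96 L))) (V (S (F 32 L) (F 96 L)) (S (S L L) L))))))) v3_51))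
noncomputable def v3_53 : Tr := (T (V (F 333 (S (T (S L L) (U (S (F 2 L) (F 2 L)) (F 2 L))) (V L (U (S L L) L)))) (U (V (F 261 (S (F 6 (T L (S L L))) (T (F 4 L) (T (F 4 L) (F 2 L))))) (T (F 263 (S (F 6 (U (K 1) (S (K 1) L))) L)) (S (F 196 (T (S (F 3 L) (F 66 L)) (F 1 L))) (F 133 (V (S (F 2 L) (F 2 L)) L))))) (T (F 261 (S (F 6 (V (F 1 L) (T (F 17 L) (F 16 L)))) (V (F 68 L) (F 64 L)))) (V (F 325 (S (F 2 L) (S (F 2 L) L))) (F 388 (S (T (F 66 (S (F 16 L) L)) (F 3 L)) (S (F 64 L) (F 64 L)))))))) (V (F 204 (T (F 34 (V (U L L) (U (S (S L L) (S L L)) (S L (S L L))))) (V (F 34 (S L (S L L))) (S (U (F 2 L) (F 2 L)) (U (V (F 34 L) (T (F 34 L) (F 32 L))) (F 34 (T L L))))))) (U (S (F 196 (T (V (V (F 66 L) (F 2 L)) (T (F 1 L) (F 1 L))) (V (S (F 16 L) (F 16 L)) (S (F 1 L) (F 1 L))))) (T (V (F 133 (T (F 2 L) (V (F 34 L) (F 4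 L)))) (S (F 132 L) (F 133 (S L L)))) (V (V (F 140 (S (F 4 L) (F 64 L))) (F 196 L)) (S (F 196 L) (F 132 L))))) (S (F 196 (V (T (S (F 3 L) (F 66 L)) (S (F 3 L) (F 16 L))) (T (F 1 L) (F 1 L)))) (T (F 133 (V (S (S (F 6 L) (F 2 L)) (F 2 L)) (S L L))) (V (F 140 (S (F 4 L) (F 64 L))) (F 644 (S L L))))))))
noncomputable def v3_54 : Tr := (T (F 261 (V (T (S (F 36 L) (F 96 L)) (S (V (F 36 L) (F 32 L)) (F 32 L))) (U (V (T (F 96 (S L L)) (S (S (F 32 L) (F 32 L)) (F 32 L))) (T (S (S (F 64 L) (F 64 L)) (F 64 L)) (S (S L L) (S L L)))) (T (V (F 64 L) (S (F 64 L) (F 64 L))) (S (V (F 32 L) L) (V (F 32 L) L)))))) (V (F 269 (U (S (T (S (F 4 L) (F 4 L)) (V (F 6 L) (S (F 2 L) (F 2 L)))) (T L (S L L))) (S (T (S (F 4 L) (F 4 L)) (T (F 2 L) (F 2 L))) (T L (S L L))))) (U (S (T (V (F 261 (T (S (F 32 L) (F 32 L)) (V (F 34 L) (F 2 L)))) (F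 133 (T (S L L) (S L L)))) (F 133 (V (S (T (F 32 L) (F 32 L)) (T (F 32 L) (F 32 L))) (S (T L L) (T L L))))) (T (V (F 269 (S L L)) (S (T (F 261 L) (F 133 L)) (F 5 L))) (V (F 13 (T (S (F 2 L) (F 2 L)) (S (F 4 L) (F 4 L)))) (F 133 (T (S L L) (S L (S (F 32 L) (F 32 L)))))))) (S (V (T (F 261 (S (F 2 L) (F 32 L))) (F 133 (V (F 34 (S L L)) L))) (F 133 (T (S L L) (S (S L L) (S L L))))) (V (F 13 (T (S (F 2 L) (F 2 L)) (T (F 2 L) (V (F 6 L) (F 4 L))))) (T (T (F 261 L) (S (F 133 L) (F 261 L))) (F 133 (T (S L L) (S L L)))))))))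
noncomputable def v3_55 : Tr := (T (F 261 (U (V (F 36 (S (T (F 8 L) (S (F 8 L) (F 8 L))) (T L L))) (U (T (S (F 71 (V L L)) (T (F 68 L) (F 4 L))) (V (F 6 (S (F 16 L) L)) (S (F 7 L) (S (F 3 L) (F 2 L))))) (F 3 (T (F 17 (V L L)) (V (S (F 17 L) (F 16 L)) (S (F 17 L) L)))))) (V (F 36 (U (S (F 24 L) (S (F 9 L) (F 1 L))) (F 25 L))) (F 7 (U (V (T (F 1 L) L) (F 1 (V L L))) (F 1 L)))))) (U (V (F 461 (T (U (S L (S L L)) (S L L)) (U (S L (S L L)) (S L L)))) (U (T (F 388 (V (F 66 (S (S (F 16 L) L) (S L L))) (S (F 3 L) (S (F 1 L) (F 64 L))))) (V (F 388 (S (F 3 L) (S (F 18 L) (F 64 L)))) (F 644 (S (F 3 L) (S (F 2 L) L))))) (T (F 389 (V (S (F 3 L) (F 2 L)) (S (F 3 L) (S (F 1 L) (F 1 L))))) (F 196 (S (F 3 (S L L)) (V (F 66 L) (F 1 L))))))) (F 452 (V (F 40 (U (S (F 8 (T L L)) (S L L)) (F 8 (T L L)))) (U (T (F 33 (V L (S L L)))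 (V (F 33 (S (F 2 L) L)) (F 1 L))) (F 33 (V L (T L L))))))))
noncomputable def v3_56 : Tr := (T (F 261 (U (V (T (F 100 (U (S L L) L)) (S (F 36 (S L L)) (F 32 L))) (T (S (V (F 68 L) (F 64 L)) (S (F 64 L) (F 64 L))) (S (V L (S L L)) (V L (S L L))))) (V (F 100 (U (S L L) L)) (T (F 65 (S L L)) (S (V (F 65 L) (F 3 L)) (S (F 64 L) (F 64 L))))))) (U (V (F 269 (S (T (V (F 4 L) L) (V (F 6 (S L L)) (U (F 2 L) (F 2 L)))) (T (S L L) (S L L)))) (S (F 133 (T (U (V (F 2 L) (T (F 2 L) L)) (V (F 2 L) (S (F 2 L) (F 2 L)))) (V (U (V (F 34 (S L L)) (S (F 2 L) (F 2 L))) (V (F 34 L) (F 2 L))) (U (S L L) L)))) (V (F 269 (T (U L L) (U (T L (S (F 2 L) (F 2 L))) (T (S (F 2 L) (F 2 L)) (S (F 2 L) (F 2 L)))))) (T (F 261 (T (S L L) (U (S (F 2 L) (F 2 L)) (F 2 L)))) (F 133 (U (S L L) (U L (S (F 2 L) (F 2 L))))))))) (V (F 269 (U (T (S (F 6 L)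 (F 4 L)) (S (F 6 L) (F 2 L))) (T (F 6 (S L L)) (S (F 6 L) (F 2 L))))) (T (F 261 (S (V (F 2 L) (F 3 (U (S L L) L))) (V (F 32 L) (S (F 2 L) (F 2 L))))) (F 133 (V (S (F 2 L) (F 34 (U (S L L) L))) (U (S (V (F 2 L) (F 1 L)) (S (F 2 L) (F 2 L))) (F 3 (S L (S L L))))))))))
noncomputable def v3_57 : Tr := (U (S (F 204 (T (F 34 (V (S L L) (T (S L L) (V L (S L L))))) (V (F 34 (T L (S L L))) (T (V (F 34 (S L L)) (S (F 2 L) (F 34 (U L L)))) (S (V (F 34 L) L) (V (F 34 (S L L)) (S L (T (F 32 L) (F 32 L))))))))) (T (F 269 (V (T (F 4 L) (S (F 6 L) (F 4 L))) (T (S (F 6 (S L L)) (S (F 4 L) (F 4 L))) (S (F 6 (U L L)) (V (F 6 L) (S (F 2 L) (F 2 L))))))) (F 137 (V (F 38 (T (S L (V L L)) (S (S L L) (V (S L L) (U L L))))) (T (F 34 (S (V (F 8 L) (U (S (F 8 L) (F 8 L)) (F 8 L))) (V (U (F 8 L) (F 8 L)) (T (S L L) (S L L))))) (S (F 36 (V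 (U (F 8 L) (F 8 L)) (U (V (S (F 8 L) (F 8 L)) L) (V (F 8 L) L)))) (V (F 6 (T (S (F 2 L) L) (S L L))) (S (T (F 34 (T L L)) (S (F 4 L) (F 2 L))) (T (F 2 L) (F 2 L)))))))))) (F 328 (S (F 18 (T (V (F 1 L) (T (S (F 1 L) (F 1 L)) (S (F 1 L) (S (F 1 L) (F 1 L))))) (V (U (F 1 L) (F 1 L)) (T (V (F 1 L) (S L (S (F 1 L) (F 1 L)))) (S (S L L) (V (F 1 L) (S L L))))))) (T (F 80 (V (S (S (F 8 L) (F 8 L)) (S L L)) (T (S (S (F 8 L) (F 8 L)) (S L L)) (U (S (F 8 L) (S (F 8 L) (F 8 L))) (S (F 8 L) (F 8 L)))))) (F 66 (V (T (U (S (F 2 L) (F 2 L)) (F 2 L)) (S (S (F 2 L) (F 2 L)) (U (S (F 2 L) (F 2 L)) (F 2 L)))) (T (U (S (S (F 2 L) (F 2 L)) (V (F 2 L) (S (F 2 L) (F 2 L)))) (S (F 2 L) (U (F 2 L) (F 2 L)))) (U (S (V (F 2 L) (U (S (F 2 L) (F 2 L)) (F 2 L))) (V (S (F 2 L) (F 2 L)) (T (S (F 2 L) (F 2 L)) L))) (S (U (S (F 2 L) (F 2 L)) (F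 2 L)) (T (S (F 2 L) L) (S L L)))))))))))
noncomputable def v3_58 : Tr := (T (V (F 204 (U (S (V (T (F 34 L) (F 2 L)) (T L L)) (V (T (F 34 (S L L)) (T (F 34 L) (F 32 L))) (T (S L (T (F 32 L) (F 32 L))) (S L L)))) (T (V (F 34 (S L L)) (S L (V (F 32 L) L))) (V (S (F 2 L) (F 34 (S L L))) (S L (S L L)))))) (U (F 140 (S (T (T (K 4) (V (F 4 L) (F 5 L))) (V (F 4 L) (F 5 (S (F 8 L) L)))) (T (V (S (T (F 4 L) (F 4 L)) (S L L)) (T (S (F 4 L) L) (S (F 4 L) L))) (V (S (F 4 L) (S (F 4 L) L)) (S (S (F 5 L) (F 4 L)) L))))) (S (F 196 (T (V (S (F 17 L) (F 16 L)) (F 1 L)) (F 17 (V (S L L) L)))) (T (V (F 140 (S (S (F 4 L) (F 4 L)) L)) (T (F 132 L) (F 140 L))) (F 140 (V (V (F 4 L) (S (F 5 L) (F 4 L))) (S (F 5 (S L L)) L))))))) (F 204 (V (U (V (S (T L L) (T L (S L L))) (S (T L (F 1 L)) (T (S L L) (S L L)))) (S (V (S L L) (S L L)) (V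 (T L L) (T (S L L) (S L L))))) (U (S (T (V (F 1 L) (F 5 L)) (F 5 (S L L))) (V (T (T L L) L) (T (T (S (F 5 L) (F 4 L)) (F 5 (S L L))) (F 5 (S L L))))) (T (S (S (F 1 L) (F 1 L)) (V (S (F 1 L) L) (S (F 5 L) (F 1 L)))) (S (F 5 (S L L)) (V (S (F 1 L) L) (F 5 L))))))))
noncomputable def v3_59 : Tr := (U (S (T (V (S (T (F 64 L) L) (T (F 64 L) (S (F 64 L) (F 64 L)))) (S (T L L) (T (V (F 64 L) (F 64 L)) L))) (V (S (S L L) (V (S (F 64 L) (F 64 L)) L)) (S (S L L) (T L (S (F 8 L) (F 8 L)))))) (T (V (S (T (F 64 L) (F 64 L)) (T (F 64 L) (F 64 L))) (S (T (S (F 64 L) (F 64 L)) (S (F 64 L) (F 64 L))) (T (S (F 64 L) (F 64 L)) (S (F 64 L) (F 64 L))))) (V (T (S (S (F 64 L) (F 64 L)) (F 64 L)) (S (S (F 64 L) (F 64 L)) (F 64 L))) (S (V L (S (F 8 L) (F 8 L))) (V (S (F 64 L) (F 64 L)) (T (F 72 (S L L)) (F 8 L))))))) (S (T (V (T (S (F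 64 L) (F 64 L)) (S (F 64 L) (F 64 L))) (V (S L (T (F 64 L) (F 64 L))) (S L L))) (V (S L (V (F 64 L) L)) (S (S L L) (S L L)))) (T (V (T (S (F 64 L) (F 64 L)) (S (F 64 L) (F 64 L))) (S (T (S (F 64 L) (F 64 L)) (S (F 64 L) (F 64 L))) (T (S (F 64 L) (F 64 L)) (S (F 64 L) (F 64 L))))) (V (T (S (F 64 L) (F 64 L)) (S (S (F 64 L) (F 64 L)) (S (F 64 L) (F 64 L)))) (S (S L L) (T (S (F 64 L) (F 64 L)) (V (F 64 L) (F 8 L))))))))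
noncomputable def v3_60 : Tr := (U (S (F 140 (T (V (T (S (F 4 L) L) (S (F 4 L) L)) (S (S (F 8 L) (F 8 L)) (T (F 8 L) (F 8 L)))) (V (S (S (F 4 L) (F 4 L)) (T L (F 8 L))) (S (F 12 (T L (F 16 L))) (F 8 L))))) (T (V (S (F 140 (T (S (F 64 L) (F 64 L)) L)) (F 137 (T (S (F 32 L) (F 32 L)) (S (F 32 L) (F 8 L))))) (F 172 (S (T (S L L) L) (T (S L L) (S L L))))) (V (S (F 140 (V L (S (F 8 L) (F 8 L)))) (F 168 (T (S (F 64 L) (F 64 L)) L))) (F 168 (S (T (F 16 L) (F 16 L)) (T (S (F 16 L) (F 16 L)) L)))))) (S (F 140 (T (V (T (S (F 4 L) L) L) (V L (S (F 9 L) (F 8 L)))) (V (S (F 4 L) (S (F 4 L) L)) (S (F 13 (T L L)) (F 8 L))))) (T (F 140 (V (S (S L L) (T (S (F 64 L) (F 64 L)) (S (F 64 L) (F 64 L)))) (S (V L (F 8 L)) (T (S (F 8 L) (F 8 L)) (S (F 8 L) (F 8 L)))))) (V (S (F 140 (T L (S (F 8 L) (F 8 L)))) (F 168 (S L L))) (F 172 (S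 (S L L) (T (S L L) L)))))))
noncomputable def v3_61 : Tr := (T (F 140 (V (U (S (T (V (F 70 (S L L)) (S (F 64 L) (F 64 L))) (V (F 68 (V (S (F 8 L) (F 8 L)) L)) (V (F 64 L) (S (F 64 L) (F 64 L))))) (T (V (F 66 (S L L)) (T (F 66 (S L L)) (F 64 L))) (V (F 66 (S L L)) (T (S (F 64 L) (F 64 L)) (S (F 64 L) (F 64 L)))))) (S (T (V (F 70 (S L L)) (T (F 66 (S L L)) (F 64 L))) (V (F 66 (S (S (F 8 L) (F 8 L)) L)) (S (F 64 L) (S (F 64 L) (F 64 L))))) (T (V (F 66 L) (V (F 66 (S L L)) (S (F 64 L) (F 64 L)))) (V (F 66 (S L L)) (T (F 64 L) (S (F 64 L) (F 64 L))))))) v3_59)) (V (U (S (F 140 (V (T (F 68 (V L (S L L))) (S (F 4 L) (F 68 (V L (T L L))))) (T (S (T (F 4 L) (F 4 L)) (T (F 64 L) (F 64 L))) (S (S (F 4 L) (F 4 L)) (V (F 4 L) (F 4 L)))))) (F 137 (T (V (T (F 34 (S L L)) (S (F 32 L) (F 32 L))) (T (S (F 32 L) (F 32 L)) (S (F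 32 L) (F 32 L)))) (V (T (S (F 32 L) (F 32 L)) L) (S (T (S (F 32 L) (F 32 L)) L) (S L L)))))) (S (F 140 (V (T (F 68 (S L (S L L))) (V (F 68 (S L L)) (S (F 68 L) (F 4 L)))) (T (S (S (F 4 L) (F 4 L)) (T (F 64 L) (F 64 L))) (S (S (F 4 L) (F 4 L)) (T (F 4 L) (F 4 L)))))) (F 137 (T (V (T (F 34 (S L L)) (F 32 L)) (T (S (F 32 L) (F 32 L)) (S (F 32 L) (F 32 L)))) (T (V (S (F 32 L) (F 32 L)) (S (S (F 32 L) (F 32 L)) L)) (V L (S L L))))))) v3_60))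
noncomputable def v3_62 : Tr := (V (F 141 (U (S (T (V (F 6 (S L L)) (V (F 2 L) L)) (V (S (F 6 L) (F 2 L)) (T L L))) (T (V (F 2 L) (T (S (F 2 L) (F 2 L)) (S (F 2 L) (F 2 L)))) (V (S (F 2 L) (F 2 L)) (S L L)))) (S (T (V (F 6 L) (S (F 2 L) (F 2 L))) (V (F 6 (S L L)) (T L L))) (T (V (F 2 L) (S (F 2 L) (F 2 L))) (V (F 2 L) (T (S (F 2 L) (F 2 L)) L)))))) (U (S (T (V (F 141 (T (S L L) (S L L))) (T (F 132 L) (F 140 (S L L)))) (F 140 (V (T L L) (S L (S L L))))) (T (F 133 (V (T (S (F 32 L) (F 32 L)) (S (F 32 L) (F 32 L))) (V (T (S (F 32 L) (F 32 L)) (S (F 32 L) (F 32 L))) (S L L)))) (F 140 (V (S (T (F 64 L) (F 64 L)) (T (F 64 L) (F 64 L))) (S (S L L) (T (S (F 64 L) (F 64 L)) L)))))) (S (T (V (F 140 (S L (S (F 64 L) (F 64 L)))) (S (F 132 L) (F 132 L))) (F 140 (V (S L L) (S L L)))) (T (F 133 (V (T (S (F 32 L) (F 32 L)) (S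 (F 32 L) (F 32 L))) (V (S (S (F 32 L) (F 32 L)) (S (F 32 L) (F 32 L))) (S L L)))) (F 140 (V (S (T (F 64 L) (F 64 L)) (T (F 64 L) (F 64 L))) (S (S L L) (T (S (F 64 L) (F 64 L)) L))))))))
noncomputable def v3_63 : Tr := (V (U (S (F 140 (T (V (F 68 (S L L)) (S (F 4 L) (S (F 4 L) (F 64 L)))) (V (V (F 68 (S L L)) (F 4 L)) (S (F 4 L) (T (F 4 L) (F 4 L)))))) (T (F 141 (V (V (F 2 L) L) (T (S L L) (S L L)))) (T (F 141 (V L (S L L))) (V (F 137 L) (S (F 140 L) (F 137 L)))))) (S (F 140 (V (T (F 68 (V (F 8 L) L)) (T (F 68 L) (F 4 L))) (T (S (F 4 L) (F 64 L)) (T (F 4 L) (F 4 L))))) (T (F 141 (V (S (F 2 L) (F 2 L)) (T (S L L) (S L L)))) (V (F 137 (T (F 32 L) (S (F 4 L) (F 4 L)))) (S (F 140 L) (F 137 L)))))) (U (S (F 140 (V (T (T L L) (S (F 4 L) (S (F 4 L) L))) (T (S (F 1 L) (S (F 8 L) (F 8 L))) (F 9 (S (S (F 8 L) (F 8 L)) (S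 L L)))))) (T (F 140 (V (S (S L L) (T (S (F 64 L) (F 64 L)) (S (F 64 L) (F 64 L)))) (V (S L L) (S (F 8 L) (S (F 8 L) (F 8 L)))))) (V (S (F 140 (S L L)) (S (F 140 L) (F 168 L))) (F 172 (S (S L L) (T L L)))))) (S (F 140 (V (T (S (F 4 L) L) (S (F 4 L) (F 4 L))) (T (S (F 1 L) L) (F 12 (V (S (F 16 L) L) (S (F 16 L) (F 16 L))))))) (T (F 140 (V (S L (T (F 64 L) (S (F 64 L) (F 64 L)))) (V (S L L) (S (F 8 L) (S (F 8 L) (F 8 L)))))) (V (S (F 140 L) (S (F 140 L) (F 168 L))) (F 172 (S L (T L L))))))))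
noncomputable def v3_64 : Tr := (T (U (V (F 204 (S (V (F 2 L) (T (S (F 3 L) (F 2 L)) (F 3 (S L L)))) (T (F 34 (V L (U (S L L) L))) (V (F 34 (T L L)) (V (F 2 L) L))))) (V (F 204 (T (S (S (F 1 L) (F 1 L)) (T (S L L) L)) (S (F 1 L) (U (S (F 1 L) L) (F 1 L))))) (F 644 (T (S (F 2 L) (S (F 2 L) L)) (U (S (F 18 L) (F 2 L)) (F 2 L)))))) (F 196 (V (F 18 (S (T (F 16 L) (F 16 L)) (V (T (F 1 L) (F 1 L)) (T (S (F 16 L) (F 1 L)) (S (F 16 L) (F 16 L)))))) (V (F 19 (U (S L (T (S L L) L)) (T L L))) (T (F 3 (U (S (F 4 L) L) L)) (F 1 L)))))) (F 204 (U (V (T (S (F 3 (V L L)) (V (F 2 L) L)) (V (S (F 3 L) (S (F 2 L) (F 2 L))) (U (S (F 3 L) (F 1 L)) (F 1 L)))) (S (T (S (F 1 L) (F 1 L)) (F 1 L)) (T (U (V (F 1 L) (F 1 L)) (S (F 1 L) (F 1 L))) (U (F 1 L) (F 1 L))))) (V (F 3 (U (S L (T L (S L L))) (T L L))) (S (F 1 L) (T (T (F 1 L) (F 1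 L)) (F 1 L)))))))
noncomputable def v3_65 : Tr := (U (V (F 140 (T (F 66 (S (U (V (F 8 L) (S L L)) (S (S (F 8 L) (F 8 L)) L)) (U (T L (S L L)) (S L L)))) (S (U (V (F 70 L) (S (F 68 L) (F 66 L))) (V (F 70 L) (S (F 6 L) (F 66 L)))) (U (V (F 66 L) (V (F 66 L) (F 64 L))) (F 66 (V L (S L L))))))) (S (T (V (F 140 (S (S L L) (U (F 64 L) (S (F 64 L) (F 64 L))))) (U (F 132 L) (F 644 L))) (V (F 140 (U L (S (F 4 L) (F 64 L)))) (S (F 644 L) (F 140 (U L (S (F 1 L) (F 1 L))))))) (T (F 133 (V (U (S (S (F 32 L) (F 32 L)) (S (F 32 L) (F 32 L))) (V (F 34 (S L L)) (S (F 32 L) (F 32 L)))) (U (S L (T L (S (F 32 L) (F 32 L)))) (S L L)))) (F 140 (U (V (S (S (F 64 L) (F 64 L)) (S (F 64 L) (F 64 L))) (S L (T (S (F 64 L) (F 64 L)) L))) (V (T (F 64 L) (S (F 64 L) (F 64 L))) (S L (T (F 64 L) (F 64 L))))))))) (V (F 397 (U (T (S (S (F 2 L)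 (F 2 L)) L) (S (T (F 2 L) (S (F 2 L) (F 2 L))) (S L L))) (T (S (F 2 L) L) (S (F 2 L) L)))) (S (V (F 140 (T (F 66 (U (S L L) (T (F 16 L) (F 16 L)))) (U (F 4 L) (F 3 (S (F 16 L) L))))) (F 644 (T (S (F 1 L) L) (S (F 2 L) L)))) (U (T (F 133 (V (F 34 (S L (S L L))) L)) (F 140 (S (T (F 64 L) (F 1 L)) (V (F 64 L) (S (F 64 L) (F 64 L)))))) (T (F 389 (V (S (F 16 L) (F 16 L)) (S (F 1 L) L))) (F 140 (V (F 66 (S L L)) (T (F 65 (S L L)) (F 1 L)))))))))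
noncomputable def v3_66 : Tr := (V (S (F 204 (V (T (F 34 (U (U L L) (S L L))) (U (S (F 2 L) (F 32 L)) (S (F 2 L) (F 2 L)))) (T (U (S L L) L) (U (S L L) L)))) (T (F 141 (U (V (S (F 2 L) (F 2 L)) (S L L)) (V (F 2 L) (S L L)))) (V (F 137 (U (S (F 36 (T L L)) (F 2 L)) (S (F 36 (V (F 8 L) L)) (S (F 34 L) (F 2 L))))) (F 140 (S (U (S (F 4 L) L) (F 4 L)) (U (T (F 64 L) (F 64 L)) (S (F 64 L) (F 64 L)))))))) (F 140 (S (T (V (U (S (F 4 L) L) (S (F 5 L) (F 4 L))) (U (S (F 5 L) (F 1 L)) (S (F 5 L) (F 1 L)))) (V (U (F 4 L) (S (F 5 L) (F 4 L))) (F 5 (U (V L (S (F 8 L) (F 8 L))) (T L (F 8 L)))))) (T (V (U (T (S (F 64 L) (F 64 L)) L) (T (S (F 64 L) (F 64 L)) L)) (U (T L (S (F 8 L) (F 8 L))) (S (F 1 L) (T (F 8 L) (F 8 L))))) (V (U (S L L) (S L L)) (U (S (F 9 (T L L)) (S (F 8 L) (F 8 L))) (S (F 9 (S L L)) (T (F 8 L) (F 9 L)))))))))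
noncomputable def v3_67 : Tr := (V (F 328 (S (F 18 (T (U (V (F 1 L) (T (S (F 1 L) (F 1 L)) (S (F 1 L) (F 1 L)))) (T (F 1 L) (S (F 1 L) (F 1 L)))) (U (V (S (F 1 L) (F 1 L)) (S (T (F 1 L) L) (T (S (F 1 L) (F 1 L)) (V (F 1 L) L)))) (V (F 1 L) (S (F 16 L) (T (F 1 L) (F 1 L))))))) (T (F 80 (U (V (U (S (F 8 L) (F 8 L)) (F 8 L)) (T (S (F 8 L) L) (U (S (F 8 L) (F 8 L)) (S (F 8 L) (F 8 L))))) (V (T (F 8 L) (F 8 L)) (U (T (F 8 L) (F 8 L)) (S (F 8 L) (F 8 L)))))) (F 66 (U (V (U (T (F 2 L) (S (F 2 L) (F 2 L))) (T (F 2 L) (S (F 2 L) (F 2 L)))) (T (U (S (F 2 L) (S (F 2 L) (F 2 L))) (S (F 2 L) (F 2 L))) (U (S (S (F 2 L) (F 2 L)) (V (F 2 L) (S (F 2 L) L))) (S (F 2 L) (U (S (F 2 L) (F 2 L)) (F 2 L)))))) (V (U (T (F 2 L) (F 2 L)) (S (F 2 L) (F 2 L))) (U (T (S (F 2 L) (F 2 L)) (S (F 2 L) (T (F 2 L) (F 2 L)))) (T (F 2 L) (S (F 2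 L) (F 2 L)))))))))) (S v3_64 (T v3_65 (U v3_66 (F 140 (V (U (T (S (F 6 (V (F 1 L) L)) (F 66 (T (S L L) (S L L)))) (S (V (F 6 L) (F 4 L)) (V (F 66 (U (S (F 8 L) L) (S (F 8 L) (F 8 L)))) (S (F 4 L) (F 64 L))))) (T (F 66 (S (S (F 8 L) (F 8 L)) (S (T (F 8 L) (F 8 L)) L))) (S (F 6 (S (F 16 L) L)) (V (F 70 (T L L)) (V (F 70 (U (S L L) L)) (F 4 L)))))) (S (F 5 (T (U (V (S L L) L) (S L L)) (U (V L (S (F 8 L) (F 8 L))) (T L (F 8 L))))) (T (V (U (T (F 64 L) (F 64 L)) (F 64 L)) (U (T (F 1 L) (F 1 L)) (F 1 L))) (U (V (S (F 4 L) L) (F 9 (U (S (F 8 L) L) L))) (V (S (F 5 L) (F 1 L)) (F 9 (S (F 8 L) L))))))))))))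
noncomputable def v3_68 : Tr := (T (U (V (F 333 (U (S (T (V L (S L L)) (V (F 2 L) (V (S (F 2 L) (F 2 L)) (T (F 2 L) (S (F 2 L) (F 2 L)))))) (T (V (F 16 L) (S L (F 16 L))) (V (S L L) (T (S L L) (S L L))))) (S (T (V (F 2 L) (U L (F 2 L))) (V (F 2 L) (T (S (F 2 L) (F 2 L)) (S (F 2 L) (F 2 L))))) (T (V (F 16 L) (S (F 16 L) (F 16 L))) (V (S (F 2 L) L) (T (S (F 2 L) L) (S (F 2 L) L))))))) (U v3_52 (S v3_53 v3_54))) (V (F 333 (S (T (U (V (F 2 L) (S (F 2 L) (F 16 L))) (S (F 2 L) (F 16 L))) (U (V (F 2 L) (T (F 2 L) (F 2 L))) (T (F 2 L) (F 2 L)))) (T (U (T (F 16 L) (S L (F 16 L))) (S (F 16 L) (F 16 L))) (U (V L (T L (S (F 2 L) L))) (V L (S (S (F 2 L) (F 2 L)) L)))))) (S v3_55 v3_56))) (U (V v3_57 (U (S v3_58 v3_61) (S (T (V (F 204 (S (T (V (F 2 L) (T (F 2 L) L)) (V (F 2 L) L)) (T (V (F 34 (U L L)) (V (F 34 (U (S L L) L))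 (S L L))) (V (F 34 (U (S L L) L)) (U L L))))) (U (S (F 196 (V (T (F 16 L) (F 17 L)) (T (F 1 L) (F 17 L)))) (V (F 140 (T (S (F 4 L) L) (T (F 4 L) (F 4 L)))) (F 644 (T (T L L) (S (F 18 L) (F 16 L)))))) (V (F 140 (S (F 5 (T (S L L) L)) (T (S (F 4 L) L) (S (F 5 L) (F 4 L))))) (F 644 (S (S (F 2 L) (F 2 L)) (T (S (F 2 L) L) (F 2 L))))))) (F 204 (V (U (S (V (S (F 2 L) L) (S (F 1 L) L)) (V (T L L) (T L L))) (S (T L (F 1 L)) (T (V (F 2 L) L) (V L L)))) (S (T (V (S (F 1 L) (F 1 L)) (F 1 L)) (S (F 5 L) (F 1 L))) (T (V (U L (S (F 1 L) (F 1 L))) (U (S (F 5 L) (F 1 L)) (F 1 L))) (V (U (F 1 L) (F 1 L)) (T (F 1 L) (F 5 L)))))))) (T v3_62 v3_63)))) v3_67))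
noncomputable def v3_69 : Tr := (T (V (F 66 (T (S (F 32 L) (F 32 L)) (S L (S (F 32 L) (F 32 L))))) (U (T (F 67 (S (S (K 4) L) L)) (S (V (F 66 L) (V (F 66 L) (F 64 L))) (F 66 (T (S (F 32 L) (F 40 L)) (S L (F 8 L)))))) (T (F 67 (S (V L L) L)) (S (V (F 66 L) (S (F 64 L) (F 66 L))) (F 66 (T (F 32 L) L)))))) (V (F 66 (T (S (U (S L L) L) (S L L)) (S (V L (U (S L L) L)) (V L (S L L))))) (U (S (T (V (F 66 (S L L)) (S (T (F 2 L) (F 2 L)) (S (F 2 L) (F 2 L)))) (V (T (F 66 (S L L)) (F 2 L)) (T (S (F 2 L) (F 2 L)) (F 34 (S (S L L) (S L L)))))) (T (V (F 66 L) (T (F 66 L) (F 10 (S L L)))) (V (F 66 (T L (S L L))) (V (S (F 2 L) (F 2 L)) (F 10 (T (S L L) (S L L))))))) (S (T (V (F 66 (S L L)) (V (S (F 2 L) (F 66 L)) L)) (V (V (F 66 (S L L)) (S (F 2 L) (F 66 L))) (T (S (F 2 L) (F 2 L)) (F 34 (S (S L L) (S L L)))))) (T (F 66 (V L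 (T L (S L L)))) (V (F 66 (S L L)) (T (F 2 L) (S (F 2 L) (F 10 L)))))))))
noncomputable def v3_70 : Tr := (S (T (V (F 66 (T (S (F 32 L) (F 36 L)) (S L (F 32 L)))) (T (F 65 (V (S (F 32 L) (F 32 L)) (S L (F 32 L)))) (S (V (F 66 (S L (F 32 L))) (S (F 64 L) (F 64 L))) (F 66 (V (F 32 L) (T (S (F 32 L) (F 32 L)) L)))))) (V (F 66 (T (S (S L L) L) (S (U (S L L) L) (U (S L L) L)))) (U (S (T (V (F 66 (S L L)) (T (F 64 L) (S (F 2 L) (F 66 L)))) (V (F 66 (T L (S L L))) (T (S (F 2 L) (F 2 L)) (S (F 34 (S L L)) (F 2 L))))) (T (F 66 (V L (T L (S L (F 8 L))))) (V (F 66 (S L L)) (T (F 2 L) (S (F 2 L) (F 10 L)))))) (S (T (V (F 66 L) (S (F 64 L) (F 64 L))) (V (F 66 (S L L)) (T (S (F 2 L) (F 66 L)) (V (F 2 L) (F 32 L))))) (T (F 66 (T L (S L L))) (V (F 66 (S L L)) (T (F 66 (S L L)) (F 2 L)))))))) (T (F 67 (V (S L L) (T (S L (F 8 L))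 (V (S L (F 8 L)) (S (S L L) (F 8 L)))))) (V (F 66 (T (S L (F 32 L)) (S (V L L) (S L L)))) (U (S (T (F 66 (S L (S (F 8 L) (F 8 L)))) (V (F 66 L) (F 10 (T (S (F 2 L) (F 2 L)) (S L L))))) (F 74 (T (T (F 16 L) L) (V (S L L) (T L (S L L)))))) (T (F 66 (S (S L (F 8 L)) (F 40 (V L L)))) (V (F 66 (S L (F 8 L))) (S (V (F 66 L) (F 10 (T (S (F 2 L) (F 2 L)) L))) (F 74 (S (S L L) L)))))))))
noncomputable def v3_71 : Tr := (V (F 66 (U (S (T (F 36 (V L (S L L))) (V (S (F 4 L) (F 4 L)) (T (S (F 4 L) (F 32 L)) (S L L)))) (T (V (F 36 (S L L)) (F 32 L)) (V (T (F 36 (S L L)) (S (F 32 L) (F 32 L))) (T (S (F 32 L) (F 32 L)) (S L (S (F 32 L) (F 32 L))))))) (S (T (F 36 (V L (S L L))) (V (T (F 36 L) (S (F 4 L) (F 36 L))) (T L (S (F 4 L) L)))) (T (V (F 36 (S L L)) (F 32 L)) (V (T (F 36 (S L L)) (S (F 32 L) (F 32 L))) (T (F 32 L) (S L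 (F 32 L)))))))) (U (S v3_69 (T (F 67 (V (T L (S L L)) (T (S L (F 8 L)) (V (S L (F 8 L)) (S (U (S (F 8 L) (F 8 L)) L) (F 8 L)))))) (V (F 66 (T (S L (S (F 32 L) (F 32 L))) (S (V L (S L L)) (V (F 32 L) L)))) (U (S (T (F 66 (V L (T (F 8 L) (S (F 8 L) (F 8 L))))) (V (F 66 (S L L)) (F 10 (T (S L (F 2 L)) (S L L))))) (F 10 (T (T (F 34 (S L L)) (S (F 2 L) (F 34 L))) (V (S (F 2 L) (F 2 L)) (T (S (F 2 L) (F 2 L)) (S L (F 2 L))))))) (S (T (F 66 (V (F 32 L) (T (F 8 L) (S (F 8 L) (F 8 L))))) (V (F 66 (S L L)) (F 10 (T (S L (F 2 L)) (S L L))))) (F 10 (T (T (F 34 L) (F 2 L)) (V (S (F 2 L) (F 2 L)) (T (F 2 L) (V (F 2 L) L)))))))))) v3_70))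
noncomputable def v3_72 : Tr := (S (T (U (V (F 67 (S (S L L) L)) (V (F 66 (T (S (F 32 L) (F 32 L)) (S L (F 32 L)))) (F 65 (T (S L (F 32 L)) (S (S L L) L))))) (F 65 (V (S (F 32 L) (F 32 L)) (V (S (S (F 32 L) (F 32 L)) (F 32 L)) (S L L))))) (U (V (F 66 (T (S L L) (S (S L L) (S L L)))) (S (T (V (F 66 (S L L)) (U (F 64 L) (F 64 L))) (V (F 66 (U (S L L) L)) (T (V (F 64 L) L) (S (S (F 32 L) (F 32 L)) (S (F 2 L) (F 2 L)))))) (T (F 66 (V L (U (S L L) L))) (U (V (F 66 L) (V (F 66 (S L L)) (F 2 L))) (V (F 66 L) (V (F 66 (S L L)) (F 64 L))))))) (V (F 66 (T (S L (F 32 L)) (U (S L L) L))) (S (T (V (F 66 L) (F 64 L)) (V (F 66 (S L L)) (U (S (F 96 L) (F 66 L)) (F 96 L)))) (T (V (F 66 L) (F 64 L)) (F 66 (U (S (S L L) L) (S L L)))))))) (F 66 (T (U (V (S (F 32 L) (F 32 L)) (T (F 32 L) (U (F 32 L) (F 32 L)))) (V (F 32 L) (U (S (F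 32 L) (F 40 L)) (F 32 L)))) (U (V (T (S (F 32 L) (F 32 L)) (S (S L L) (S L (F 32 L)))) (S (T (U L (S (F 32 L) (F 32 L))) (V (S L L) (T (S L L) (U (S L (F 8 L)) (S (F 8 L) (F 8 L)))))) (T (F 40 (U (S L L) (S L L))) (V L (U (T (F 8 L) (F 8 L)) (S (F 8 L) (F 8 L))))))) (V (T (S (F 32 L) (F 32 L)) (S L (S (F 32 L) (F 32 L)))) (S (T (T (F 32 L) L) (U (S L L) L)) (T (F 40 (U L L)) (U (S (F 8 L) (F 8 L)) (S (F 8 L) (F 40 L))))))))))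
noncomputable def v3_73 : Tr := (T (F 14 (V (U (T (S (F 4 L) (S (F 32 L) (F 32 L))) (S (S L L) (V L L))) (T (S (F 4 L) (S (F 32 L) (F 32 L))) (S (S L L) (V L L)))) (U (T (S (S L L) (S L L)) (S (V L (S L L)) (V L (S L L)))) (T (S L L) (S (V L (S L L)) (V L (S L L))))))) (V (U (S (T (V (F 12 L) (F 14 (S L L))) (V (S (F 72 L) (F 8 L)) (S (F 136 L) (F 10 L)))) (T (V (F 4 L) (S (F 10 L) (F 10 L))) (V (S (F 8 L) L) (S (F 8 L) (F 8 L))))) (S (T (V (F 12 L) (F 14 (S L L))) (V (F 8 L) (F 8 L))) (T (V (F 4 L) (S (F 10 L) (F 10 L))) (V L (S (F 8 L) (F 8 L)))))) (U (S (T (V (S (F 14 L) (F 10 L)) (S (F 10 L) (F 10 L))) (V (T (F 10 L) (F 138 (S L L))) (F 138 (S (S L L) (S L L))))) (T (V (S (F 10 L) (F 10 L)) (S (F 10 L) (F 10 L))) (V (T (F 10 L) (S (F 138 L) (F 10 L))) (T (F 10 L) (F 138 (S L L)))))) (S (T (V (F 10 L) (S (F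 138 L) (F 10 L))) (V (T (F 10 L) (F 138 (S L L))) (F 138 (T L L)))) (T (V (S (F 10 L) (F 10 L)) (S (F 10 L) (F 10 L))) (V (T (F 10 L) (S (F 138 L) (F 10 L))) (T (F 10 L) (F 138 (S L L)))))))))
noncomputable def v3_74 : Tr := (T (V (F 14 (T (S L (T (F 32 L) L)) (S (U (S L L) L) (U (V L L) (S L L))))) (T (F 14 (S (S L L) (S L L))) (S (V (F 14 (S L L)) (T (F 14 L) (F 10 L))) (V (F 14 (U L L)) (T (F 14 L) (F 10 L)))))) (V (U (S (T (V (F 12 L) (F 14 (S L L))) (V (F 8 L) (F 8 L))) (T (V (F 4 L) (S (F 10 L) (F 10 L))) (V L (S (F 8 L) (F 8 L))))) (S (T (V (F 12 L) (F 14 (S L L))) (S (F 8 L) (F 8 L))) (T (V (F 4 L) (S (F 14 L) (F 10 L))) (V L (S (F 10 L) (F 8 L)))))) (U (S (T (V (F 10 L) (S (F 138 L) (F 10 L))) (V (T (F 10 L) (F 138 (S L L))) (F 138 (S L L)))) (T (V (S (F 10 L) (F 10 L)) (S (F 10 L) (F 10 L))) (V (T (F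 10 L) (F 10 L)) (T (F 10 L) (F 138 (S L L)))))) (S (T (V (F 10 L) (F 10 L)) (F 138 (V (T L L) (S L L)))) (T (V (S (F 10 L) (F 10 L)) (S (F 10 L) (F 10 L))) (V (S (F 10 L) (F 10 L)) (S (F 138 (S L L)) (F 10 L))))))))
noncomputable def v3_75 : Tr := (U (S (T (F 14 (V (T (S (F 4 L) (S (F 4 L) (F 4 L))) (S (S (F 4 L) (F 4 L)) (V (F 4 L) L))) (U (T (S L L) (S (V (F 4 L) (F 2 L)) (V L L))) (T (S (F 4 L) L) (S (S (F 2 L) L) (S L L)))))) (V (U (S (T (F 78 (S (F 2 L) L)) (F 200 (V (F 8 L) (S (F 24 L) (F 16 L))))) (T (F 14 (V (S (F 4 L) (F 4 L)) L)) (V (F 200 (S (F 8 L) L)) (F 138 (S L L))))) (S (T (F 78 (S (F 2 L) L)) (F 200 (V (F 8 L) (F 16 L)))) (T (F 14 (V L L)) (T (F 10 L) (F 136 L))))) (U (S (F 138 (T (V (F 16 L) (S (F 16 L) L)) (V L (S L L)))) (T (V (F 14 (S (F 2 L) L)) (F 138 (S L L))) (F 138 (V (S L L) (S L L)))))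 (S (F 138 (T (V (F 16 L) (S (F 16 L) (F 16 L))) (V L (S L L)))) (T (V (F 14 L) (F 138 (S L L))) (F 138 (V (S L L) (S L L)))))))) v3_73) (S (T (F 14 (V (T (S (F 4 L) (S (F 4 L) (F 4 L))) (S (S (F 4 L) (F 4 L)) (S L L))) (U (T (S (F 4 L) L) (S (S (F 2 L) (F 2 L)) (S L L))) (T (S (F 4 L) L) (S (S (F 2 L) (F 2 L)) (S L L)))))) (V (U (S (T (F 78 (S (F 2 L) L)) (F 200 (V (F 8 L) (F 16 L)))) (T (F 14 (S L L)) (S (F 136 L) (F 136 L)))) (S (T (F 78 (S (F 2 L) L)) (F 200 (S (F 8 L) L))) (T (F 14 (S L L)) (S (F 200 L) (F 136 L))))) (U (S (F 138 (T (V (F 16 L) (S (F 16 L) (F 16 L))) (V L (S L L)))) (T (V (F 14 L) (F 138 (S L L))) (F 138 (V (S L L) (S L L))))) (T (S (F 142 (V L (S L L))) (V (F 14 L) (F 138 L))) (F 138 (S (T L L) (V (S L L) (S L L)))))))) v3_74))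
noncomputable def v3_76 : Tr := (U (S (F 137 (T (V (T (S (F 32 L) (F 32 L)) (S (F 32 L) (F 32 L))) (V (T (S (F 32 L) (F 32 L)) (S (F 32 L) (F 40 L))) (T (S (F 32 L) (F 40 (S L L))) (F 40 (S (S L L) L))))) (V (S (T (F 32 L) (F 32 L)) (T (F 32 L) (F 32 L))) (T (S (V (F 32 L) (F 40 (S L L))) (F 40 (V L L))) (S (F 40 (V L L)) (F 8 L)))))) (T (V (F 13 (S (T (F 4 L) (F 4 L)) L)) (T (F 13 (S (V (F 4 L) (F 20 L)) (V (F 16 L) (F 20 (S L L))))) (F 169 (S (V (F 16 L) (F 16 L)) (S L L))))) (F 137 (V (S (T (F 32 L) (F 8 L)) (T (F 8 L) (F 8 L))) (T (S (F 8 L) (F 8 L)) (S (F 8 L) (F 8 L))))))) (S (F 137 (T (V (T (S (F 32 L) (F 32 L)) (S (F 32 L) (F 32 L))) (S (T (S (F 32 L) (F 32 L)) (S (F 32 L) (F 32 L))) (T (S (F 32 L) (F 32 L)) (V (F 32 L) (F 40 (S L L)))))) (V (T (S (F 32 L) (F 32 L)) (S (F 32 L) (F 32 L))) (S (V (S (F 32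 L) (F 32 L)) (F 40 (T (S L L) (S L L)))) (T (V (F 32 L) (F 40 L)) (F 8 L)))))) (T (F 13 (V (T (S (F 2 L) (F 2 L)) (S (F 4 L) (F 4 L))) (T (V L (S (F 20 (S L L)) (F 16 L))) (S (V (F 4 L) (F 20 (S L L))) (F 20 (V (S L L) L)))))) (F 137 (V (T (S (F 32 L) (F 8 L)) (S (F 8 L) (F 8 L))) (T (S (F 8 L) (F 8 L)) (S (F 8 L) (F 8 L))))))))
noncomputable def v3_77 : Tr := (V (F 137 (U (S (T (V (T (F 34 (S L L)) (S (F 2 L) (F 2 L))) (S L L)) (V (S L L) (T (S L (F 8 L)) (S (F 8 L) (F 8 L))))) (T (V (T (S (F 2 L) (F 2 L)) (S (F 2 L) (F 2 L))) (S L L)) (V (T (S (F 2 L) (F 2 L)) L) (S (S (F 8 L) (F 8 L)) (S (F 8 L) (F 8 L)))))) (S (T (V (T (F 34 (S L L)) (F 2 L)) (S L L)) (V (S L L) (T L (S L (F 8 L))))) (T (V (S (F 2 L) (F 2 L)) (S L L)) (V (V (S (F 2 L) (F 2 L)) L) (V L (S (F 8 L) (F 8 L)))))))) (U (S (T (F 137 (V (V (S L L)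 (S (S (F 8 L) (F 8 L)) (F 8 L))) (S (T (F 40 (V L L)) (F 8 L)) (T (F 8 L) (F 8 L))))) (F 168 (V (S (T (F 64 L) (F 64 L)) (T (F 64 L) (F 64 L))) (S (S L L) (T (F 64 L) (F 64 L)))))) (F 169 (T (V (T (S L L) (S L L)) (S (S L L) L)) (V (T (S L L) L) (T (S L L) (S L L)))))) (S (T (S (V (F 137 (T (F 32 L) L)) (F 168 (T (V (F 80 (S L L)) (F 16 L)) (S (F 16 L) (F 64 L))))) (F 169 (V (T L L) (T L L)))) (F 168 (V (S (T (S (F 64 L) (F 64 L)) (F 64 L)) (T (F 64 L) (F 64 L))) (S (S L L) (T (F 64 L) (F 64 L)))))) (F 169 (T (V (T (S L L) (S L L)) (S (S L L) (S L L))) (V (S (S L L) L) (S (S L L) L)))))))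
noncomputable def v3_78 : Tr := (V (F 265 (U (S (T (V (F 32 L) (S (F 32 L) (F 32 L))) (S (V L (T (F 32 L) (F 2 L))) (T L L))) (T (V (F 32 L) (T (F 40 L) (F 8 L))) (V (S L L) (T (S (F 8 L) (F 8 L)) (S (F 8 L) (F 8 L)))))) (S (T (V (F 32 L) (S (F 32 L) (F 32 L))) (S (T L L) (T L L))) (T (V (F 32 L) (S (F 32 L) (F 32 L))) (V (S (F 32 L) L) (T (F 8 L) (S (F 8 L) (F 8 L)))))))) (U (S (T (V (V (F 269 (S L L)) (F 41 (T (F 32 L) L))) (F 41 (T (S (F 32 L) (F 32 L)) (S (F 4 L) (F 4 L))))) (F 169 (V (T (S L L) (S L L)) (T (S L L) (S L L))))) (F 41 (T (V (T (F 34 (S L L)) (S (F 2 L) (F 2 L))) (T L L)) (V (T (S (F 2 L) (F 2 L)) (S (F 4 L) (F 4 L))) (T (S (F 4 L) (F 4 L)) (F 4 L)))))) (S (T (V (T (F 269 L) (F 41 (S (F 32 L) (F 2 L)))) (F 41 (S (T (F 32 L) (F 4 L)) (S L L)))) (F 41 (V (T (S (F 4 L) (F 2 L)) (S (F 4 L) (F 4 L)))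 (T (S (F 4 L) (F 4 L)) (S (F 4 L) (F 4 L)))))) (F 41 (T (V (T (F 34 (S L L)) (S (F 2 L) (F 2 L))) (T L L)) (V (T (S (F 2 L) (F 2 L)) (S (F 4 L) (F 2 L))) (T (S (F 4 L) (F 4 L)) (S (F 4 L) (F 4 L)))))))))
noncomputable def v3_79 : Tr := (V (U (S (F 137 (T (V (T (S (F 2 L) (F 2 L)) (S (F 2 L) (F 10 L))) (T (S (F 8 L) (F 10 L)) (S (F 8 L) (F 10 L)))) (V (S (S (F 2 L) (F 2 L)) (F 10 (T L L))) (S (F 8 L) (F 8 L))))) (T (F 265 (V (T L (S (F 10 L) (F 8 L))) (F 10 (T (S L L) (S L L))))) (F 169 (T (V (S (F 2 L) (F 2 L)) (S (F 2 L) (F 2 L))) (V (S (F 2 L) (F 2 L)) L))))) (S (T (V (F 265 (T L (S (F 2 L) (F 2 L)))) (F 137 (T (S (F 2 L) (F 2 L)) (S (F 8 L) (F 10 L))))) (F 137 (V (T (F 2 L) (F 10 (S L L))) (S (F 8 L) (F 8 L))))) (T (F 265 (T (V L (S (F 10 L) (F 8 L))) (V (S (F 10 L) (F 8 L)) (F 10 (S L L))))) (F 169 (S (V (T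 (F 2 L) (F 2 L)) L) (T (V (F 2 L) (F 2 L)) (S (F 2 L) (F 2 L)))))))) (F 169 (U (S (T (V (S (S L L) L) (S L L)) (V (S L L) (S L L))) (T (V (S L L) (S L L)) (V (S L L) L))) (S (T (V (S (S L L) L) (S L L)) (V (S L L) (S L L))) (T (V (S L (S L L)) (S L L)) (V (S L L) L))))))
noncomputable def v3_80 : Tr := (U (S (F 137 (T (V (T (S (F 32 L) (F 32 L)) (S (F 32 L) (F 32 L))) (T (S (S (F 32 L) (F 32 L)) (S (F 32 L) (F 32 L))) (S (S (F 32 L) (F 32 L)) (S (F 32 L) (F 32 L))))) (V (T (S (F 32 L) (F 32 L)) (S (F 32 L) (F 32 L))) (V (T (S (F 32 L) (F 32 L)) (S (F 32 L) (F 32 L))) (S (T (F 32 L) (F 40 (S L L))) (T (F 40 (S L L)) (F 8 L))))))) (T (F 13 (V (T (S (F 2 L) (F 2 L)) (S (F 4 L) (F 2 L))) (V (T L (S (F 4 L) (F 4 L))) (T (S (F 4 L) (F 16 L)) (F 20 (S (S L L) (S L L))))))) (F 137 (V (T (S (F 32 L) (F 32 L)) L) (S (T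 (F 8 L) (F 8 L)) (T (F 8 L) (F 8 L))))))) (S (F 133 (T (V (S (S (F 32 L) (F 32 L)) (S (F 32 L) (F 32 L))) (T (V (S (F 32 L) (F 32 L)) L) (S (S (F 32 L) (F 32 L)) (F 32 L)))) (V (T (S (F 32 L) (F 32 L)) (S (F 32 L) (F 32 L))) (S (T (S (F 32 L) (F 32 L)) (S (F 32 L) (F 32 L))) (T (F 32 L) (V (F 32 L) (F 40 (S L L)))))))) (T (F 13 (V (T (F 2 L) (S (F 4 L) (F 2 L))) (T (S (F 4 L) (F 16 L)) (S (F 4 L) (V (F 4 L) (F 20 (S L L))))))) (F 137 (V (T (S (F 32 L) (F 32 L)) L) (T (S (F 40 (U (S L L) L)) (F 8 L)) (S (F 8 L) (F 8 L))))))))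
noncomputable def v3_81 : Tr := (V (F 137 (U (S (T (V (T (F 34 (S L L)) (F 2 L)) (T (S (F 32 L) (F 32 L)) L)) (V (T (S (F 2 L) (F 2 L)) L) (T L (S L (F 8 L))))) (T (V (S (F 2 L) (F 2 L)) (S L L)) (V (T (F 2 L) (S (F 2 L) (F 2 L))) (S L (S (F 8 L) (F 8 L)))))) (S (T (V (T (F 34 L) (F 2 L)) (T (S (F 32 L) (F 32 L)) L)) (V (S (F 2 L) (F 2 L)) (S L L))) (T (V (S (F 2 L) (F 2 L)) (T (S (F 2 L) (F 2 L)) L)) (V (S (F 2 L) (F 2 L)) (S L (S (F 8 L) (F 8 L)))))))) (U (S (T (V (F 137 (S (T (F 32 L) L) L)) (F 168 (S (T (S (F 16 L) (F 64 L)) L) (T (F 64 L) (F 64 L))))) (V (F 137 (S (V L (S (F 8 L) (F 8 L))) (T (F 8 L) (F 8 L)))) (F 168 (S (S L L) (T (F 64 L) (F 64 L)))))) (F 169 (T (V (T (S L L) (S L L)) (S (T L L) (S L L))) (V (S (S L L) L) (S (S L L) (S L L)))))) (S (T (V (F 137 (S (T (F 32 L) L) L)) (F 168 (S (T (S (F 16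 L) (F 64 L)) L) (T (F 64 L) (F 64 L))))) (V (V (F 137 (S L L)) (F 168 (S L (S (F 64 L) (F 64 L))))) (F 168 (S L (T (F 64 L) (F 64 L)))))) (F 137 (T (V (V (S L (F 8 L)) (T (F 8 L) (F 8 L))) (T (S (F 8 L) (F 8 L)) (S (F 8 L) (F 8 L)))) (V (S (S (F 8 L) (F 8 L)) (S (F 8 L) (F 8 L))) (S (S (F 8 L) (F 8 L)) (S (F 8 L) (F 8 L)))))))))
noncomputable def v3_82 : Tr := (V (F 265 (U (S (T (V (F 32 L) (S (F 32 L) (F 32 L))) (S (S L L) (S L L))) (T (V (F 32 L) (F 32 L)) (V L (S L (S (F 8 L) (F 8 L)))))) (S (T (S (F 32 L) (F 32 L)) (V (S (F 32 L) (F 32 L)) L)) (T (S (F 32 L) (F 32 L)) (V L (S (F 8 L) (F 8 L))))))) (U (S (T (V (F 265 (T (F 32 L) (S (F 32 L) (F 8 L)))) (F 41 (T (S (F 32 L) (F 32 L)) (S (F 4 L) (F 4 L))))) (F 41 (S (V (T (F 4 L) (F 4 L)) (T (F 4 L) (F 4 L))) (V (T (F 2 L) (F 4 L)) (S (F 4 L) (F 4 L)))))) (F 41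 (T (T (S (S (F 2 L) (F 2 L)) (F 2 L)) (V (F 2 L) L)) (V (V (S (F 2 L) (F 2 L)) L) (T (S (F 4 L) (F 4 L)) (S (F 4 L) (F 4 L))))))) (S (T (V (F 269 (T L (S L L))) (F 41 (T (S (F 32 L) (F 32 L)) (S (F 4 L) (F 4 L))))) (V (T (F 265 (S (F 2 L) (F 8 L))) (F 169 (S L L))) (F 169 (T (S L L) (S L L))))) (F 41 (T (T (V (F 34 L) (S (F 2 L) (F 34 L))) (V (F 2 L) L)) (V (T (S (F 2 L) (F 2 L)) (S (F 2 L) (F 2 L))) (T (S (F 4 L) (F 4 L)) (S (F 4 L) (F 4 L)))))))))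
noncomputable def v3_83 : Tr := (S (T (V (U (T (F 269 (S (T L (S (S (F 2 L) (F 2 L)) L)) (T L (S L L)))) (S (F 141 (V (S (F 2 L) (F 2 L)) (T (S (F 2 L) (F 2 L)) (S L L)))) (F 265 (V (S (F 32 L) (F 32 L)) (T (F 34 (S L L)) (S (F 2 L) (F 2 L))))))) (T (F 269 (S (S (T (F 2 L) (F 2 L)) L) (S L L))) (S (F 141 (V (S (F 2 L) (F 2 L)) (V (S (F 2 L) (F 2 L)) (S L L)))) (F 265 (V (F 32 L) (T (F 32 L) (F 2 L))))))) v3_80) v3_81) (T v3_82 (V (U (S (F 137 (T (V (T (F 2 L) (F 2 L)) (T (S (F 2 L) (F 2 L)) (S (F 2 L) (F 10 L)))) (V (S (F 2 L) (F 2 L)) (S (F 8 L) (F 8 L))))) (F 265 (T (V (S L L) (F 10 (T (S L L) (S L L)))) (F 10 (T (S (V L L) (V L L)) (S (S L L) (T L L))))))) (S (F 137 (T (V (S (F 2 L) (F 2 L)) (T (F 2 L) (F 10 (S L L)))) (V (S (F 2 L) (F 2 L)) (S (F 8 L) (S (F 8 L) (F 8 L)))))) (F 265 (T (V (S L L) (T (F 8 L)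 (F 10 (S L L)))) (F 10 (T (S (V L L) (V L L)) (S (S L L) (S L L)))))))) (F 169 (U (S (T (V (T (S L L) L) (S L L)) (V (S L L) (S L L))) (T (V (S L (S L L)) (S L L)) (V (S L L) (S L L)))) (S (T (V (T (S L L) L) (S (S L L) L)) (V (S L L) (S L L))) (T (T (S L (V (F 2 L) L)) (S L L)) (V (S L L) (S L L)))))))))
noncomputable def v3_84 : Tr := (T (F 14 (U (V (T (S (F 4 L) (F 4 L)) (S (F 4 L) (S L L))) (T (S L L) (S (U (F 2 L) (F 2 L)) (U L L)))) (V (U (T (F 4 L) (S (F 6 L) (F 4 L))) (S (F 4 L) (F 4 L))) (T (S L L) (S (S (F 2 L) L) (U L L)))))) (U (V (S (F 204 (V (U L L) (U (T (F 8 L) (S (F 8 L) (F 8 L))) (T (F 8 L) (S (F 8 L) (F 8 L)))))) (T (V (F 76 (S (F 16 L) L)) (F 14 (S L L))) (T (S (F 136 L) (F 136 L)) (S (F 136 L) (F 136 L))))) (S (F 138 (T (U (S (F 16 L) (F 16 L)) (S (F 16 L) (F 16 L))) (T (U L L) (U L L))))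 (T (T (F 14 (V L L)) (F 138 (U L L))) (F 138 (U (V L (S L L)) (V L (S L L))))))) (V (U (S (F 204 (T (F 8 L) (S (F 8 L) L))) (T (F 14 (S (F 4 L) L)) (F 200 (S L L)))) (S (F 206 (T L (S L L))) (T (F 78 (S L L)) (F 140 (S (F 2 L) L))))) (F 138 (S (U (T (F 16 L) (T (F 16 L) (S (F 2 L) (F 2 L)))) (T (S (F 18 L) (F 16 L)) (S (F 18 (S L L)) (F 16 L)))) (T (U (V (F 16 L) (S (F 16 L) (F 16 L))) (V (F 16 L) (F 16 L))) (U (S L L) (S L L))))))))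
noncomputable def v3_85 : Tr := (U (V (S (T (V (S (F 12 L) (F 12 L)) (F 14 (U (S L L) L))) (U (S (F 8 L) (F 8 L)) (S (F 8 L) (F 8 L)))) (T (V (T (F 6 L) (F 4 L)) (S (S (F 10 L) (F 10 L)) (F 2 L))) (V (S L L) (S (S (F 8 L) (F 8 L)) L)))) (S (T (U (S (F 10 L) (F 10 L)) (S (F 10 L) (F 10 L))) (F 138 (U (V (S L L) (S L L)) (V (S L L) (S L L))))) (T (U (V (F 10 L) (F 10 L)) (V (F 10 L) (F 10 L))) (V (U (S (F 10 L) (F 10 L)) (S (F 10 L) (F 10 L))) (T (S (F 10 L) (F 10 L)) (F 138 (U (S L L) (S L L)))))))) (V (S (T (V (S (F 12 L) (F 12 L)) (F 14 (U L L))) (U (F 8 L) (S (F 136 L) (F 8 L)))) (T (U (V (F 12 L) (F 14 (S L L))) (T (F 14 L) (S (F 14 L) (F 6 L)))) (U (S (F 8 L) L) (S (F 8 L) L)))) (S (T (U (S (F 10 L) (F 10 L)) (S (F 14 L) (F 10 L))) (F 138 (U (V (S L L) (S L L)) (V (S L L) (S L L))))) (T (U (V (F 10 L) (F 10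 L)) (S (F 10 L) (F 10 L))) (U (T (S (F 10 L) (F 10 L)) (V (F 10 L) (F 138 L))) (T (S (F 138 L) (F 10 L)) (V (F 10 L) (F 138 L))))))))
noncomputable def v3_86 : Tr := (V (F 269 (T (S (V L (T L (U (F 2 L) (F 2 L)))) (V L (U L L))) (S (U (V (F 2 L) (T (S (F 2 L) (F 2 L)) (S (F 2 L) (F 2 L)))) (V (F 2 L) (T (F 2 L) (S (F 2 L) (F 2 L))))) (V (U L L) (U (T L (S (F 2 L) (F 2 L))) (T L (S (F 2 L) (F 2 L)))))))) (S (T (F 133 (V (U (V (F 34 (T L (S L L))) (S (F 32 L) (F 32 L))) (F 34 (S (T L L) (T L L)))) (U (S (T (F 32 L) (F 32 L)) (T (F 32 L) (F 32 L))) (V (S (F 32 L) (F 32 L)) (S L L))))) (F 137 (U (V (T (S (F 32 L) (F 32 L)) (S (F 32 L) (F 32 L))) (S (T (F 32 L) (F 32 L)) (T (F 32 L) (S (F 32 L) (F 8 L))))) (S (V (S (F 32 L) (F 32 L)) (T (F 32 L) (F 32 L))) (V (S (F 32 L) (F 32 L)) (T (F 32 L) (F 32 L))))))) (T (F 13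 (U (V (S (V (F 2 L) (F 4 L)) (F 2 L)) (T (S (F 4 L) (F 16 L)) (S (F 4 L) (F 20 (U (S L L) L))))) (V (S (F 6 (T L L)) (F 2 L)) (S (T (F 4 L) (F 4 L)) (T (F 2 L) (F 4 L)))))) (F 137 (V (U (S (T (F 32 L) (F 32 L)) L) (V (F 34 (T (S L L) (S L L))) (S (F 32 L) (F 32 L)))) (U (T (S (S (F 32 L) (F 8 L)) (F 8 L)) (S (F 8 L) (F 8 L))) (T (S (F 32 L) (F 8 L)) (S (F 8 L) (F 8 L)))))))))
noncomputable def v3_87 : Tr := (V (F 269 (U (T (S (S (F 2 L) (F 2 L)) L) (S (T (F 2 L) (S (F 2 L) (F 2 L))) (V (F 2 L) (U (F 2 L) (F 2 L))))) (T (S (F 2 L) L) (S (S (F 2 L) (F 2 L)) (V (F 2 L) (S (F 2 L) (F 2 L))))))) (S (F 133 (T (U (V (F 34 (T (S L L) (S L L))) (S (S (F 32 L) (F 32 L)) (S (F 32 L) (F 32 L)))) (V (F 34 (S L L)) (V (F 34 (S L L)) (F 2 L)))) (U (V (V (F 34 (S L L)) (S (F 32 L) (F 32 L))) (S (S (F 32 L) (F 32 L)) (S (F 32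 L) (F 32 L)))) (V (F 34 (U (S L L) L)) (S (F 32 L) (F 32 L)))))) (T (F 13 (U (V (S (F 6 (S L L)) (F 2 L)) (V (T (F 2 L) (F 6 (S L L))) (S (F 4 L) (F 4 L)))) (F 6 (V (S L L) (U (S L L) (S L L)))))) (F 137 (U (V (T (F 34 (S L L)) (S (F 34 (S L L)) (F 2 L))) (V (S (F 32 L) (F 32 L)) (S (T (F 32 L) (F 40 (S L L))) (U (F 8 L) (F 40 (S L L)))))) (V (F 34 (U (S L L) (S L L))) (U (V (F 32 L) (F 40 (S L L))) (T (T (F 34 L) (F 40 L)) (F 40 L)))))))))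
noncomputable def v3_88 : Tr := (V (F 137 (S (T (U (T (S (F 34 (V L L)) (F 2 L)) (S (F 2 L) (F 2 L))) (V (F 34 (S L L)) (S (T (F 34 L) (F 32 L)) (F 2 L)))) (V (U (S (F 2 L) (F 2 L)) (S (F 2 L) (F 2 L))) (U (S L L) (S L L)))) (T (U (V (S (F 2 L) (F 2 L)) (S (S (F 2 L) (F 2 L)) (F 2 L))) (V (S (F 2 L) (F 2 L)) (S (F 2 L) (F 2 L)))) (U (V (S (F 2 L) (F 2 L)) (S L L)) (T (S (F 2 L) (F 2 L)) (V (F 2 L) L)))))) (S (T (V (F 137 (U (T (S (F 32 L) (F 32 L)) L) (S (T (F 32 L) (F 32 L)) L))) (U (S (F 140 (T (T (F 64 L) (F 8 L)) (F 8 L))) (F 169 (T L L))) (S (F 140 (T (F 64 L) (F 8 L))) (F 169 (T L L))))) (U (V (T (F 137 L) (F 168 (S L (F 64 L)))) (F 168 (S L (T (F 64 L) (F 64 L))))) (V (F 137 (S L (T (F 8 L) (F 8 L)))) (F 168 (S L (T (F 64 L) (F 64 L))))))) (F 137 (T (U (V (S L (S (F 8 L) (F 8 L))) (S (T (F 8 L) (F 8 L))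 (S (F 8 L) (F 8 L)))) (V (S L (S (F 8 L) (F 8 L))) (S (T (F 8 L) (F 8 L)) (S (F 8 L) (F 8 L))))) (U (V (S (T (F 8 L) (F 8 L)) (S (F 8 L) (F 8 L))) (S (T (F 8 L) (F 8 L)) (S (F 8 L) (F 8 L)))) (S (V (T (F 8 L) (F 8 L)) (T (F 8 L) (F 8 L))) (V (S (F 8 L) (F 8 L)) (S (F 8 L) (F 8 L)))))))))
noncomputable def v3_89 : Tr := (V (F 137 (S (T (F 34 (U (V (S L L) (T (S L L) (S L L))) (U (S L L) L))) (U (V (F 2 L) (T (F 2 L) L)) (S (F 2 L) (F 2 L)))) (T (U (S (S (F 2 L) (F 2 L)) (S (F 2 L) (F 2 L))) (T (F 34 (S L L)) (F 2 L))) (U (T (S (F 2 L) (F 2 L)) (S (F 2 L) (F 2 L))) (S (S (F 2 L) (F 2 L)) (S (F 2 L) (F 2 L))))))) (S (T (U (V (F 141 (S (S L L) (S L L))) (S (F 140 (T (F 64 L) (F 8 L))) (F 169 (T (U (F 16 L) (F 16 L)) L)))) (F 140 (V (U (F 64 L) (F 66 (S L L))) (V (S (F 64 L) (F 64 L)) (S (S (F 9 L) (F 8 L)) (F 72 (T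 L L))))))) (U (S (V (F 137 L) (F 168 (T (F 16 L) (F 1 L)))) (F 168 (V (T (F 64 L) (F 64 L)) (S (F 1 L) (F 64 L))))) (T (S (F 140 (V (F 64 L) (F 9 L))) (F 169 L)) (F 168 (V (S (F 64 L) (F 64 L)) (F 1 L)))))) (F 137 (T (U (S (V L (S (F 8 L) (F 8 L))) (T (S (F 8 L) (F 8 L)) (S (F 8 L) (F 8 L)))) (V (S (F 2 L) (F 10 (T L L))) (S (F 8 L) (F 8 L)))) (U (S (T (S (F 8 L) (F 8 L)) (S (F 8 L) (F 8 L))) (T (S (F 8 L) (F 8 L)) (S (F 8 L) (F 8 L)))) (S (T (F 8 L) (F 8 L)) (T (F 8 L) (F 8 L))))))))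
noncomputable def v3_90 : Tr := (U (V (F 265 (T (S (U (S (F 32 L) (F 32 L)) (S (F 32 L) (F 32 L))) (U (S (F 32 L) (F 32 L)) (S (F 32 L) (F 32 L)))) (S (T (U (S (F 32 L) (F 32 L)) (S (F 32 L) (F 32 L))) (U L L)) (U (S L L) (S L L))))) (S (T (F 13 (U (V (S (F 2 L) (F 2 L)) (T (V (F 2 L) (F 16 L)) (S (F 16 L) (F 16 L)))) (V (S (F 2 L) (F 2 L)) (V (S (F 2 L) (F 18 (T L L))) (T (F 16 L) (S (F 16 L) (F 16 L))))))) (U (V (T (F 265 L) (F 137 (V (F 2 L) (F 8 L)))) (F 169 (T (S L L) (S L L)))) (V (T (F 265 L) (F 137 (V (F 2 L) (F 8 L)))) (F 169 (T (S L L) (S L L)))))) (F 41 (T (T (U (V (F 34 L) (S (F 2 L) (F 34 L))) (F 34 (U (S L L) L))) (U (S (S (F 2 L) (F 2 L)) (F 2 L)) (S (F 2 L) (F 2 L)))) (T (U (V (F 2 L) L) (S (F 2 L) (F 2 L))) (V (U (F 2 L) (F 2 L)) (U (S (F 4 L) (F 4 L)) (S (F 4 L) (F 4 L))))))))) (V (F 265 (T (S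 (U (F 32 L) (F 32 L)) (U (F 32 L) (F 32 L))) (S (U (T (F 32 L) L) (S (F 32 L) (F 32 L))) (U (S L L) (S (F 32 L) (F 32 L)))))) (S (U (T (V (F 269 L) (F 41 (T (F 34 (S L L)) (S (T (F 34 L) (F 36 L)) (F 2 L))))) (F 137 (S (V (F 2 L) (S (F 8 L) (F 8 L))) (T (F 10 (U (S L L) L)) (V (F 10 L) (F 8 L)))))) (T (F 13 (V (F 2 L) (V (F 2 L) (T (F 18 L) (S (S (F 20 L) (F 18 L)) (F 18 L)))))) (F 393 (T (S (V (F 16 L) (F 4 L)) (T (F 4 L) (F 4 L))) (U (S (F 4 L) (F 4 L)) (S (F 4 L) (F 4 L))))))) (F 41 (T (U (V (F 34 (S L L)) (T (F 34 (S L L)) (F 2 L))) (T (F 34 (S L L)) (V (F 34 L) (F 2 L)))) (U (T (S (F 2 L) (F 2 L)) (V (F 2 L) (S (F 4 L) (F 6 L)))) (T (S (F 2 L) (F 2 L)) (V (F 2 L) (F 6 (S L L))))))))))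
noncomputable def v3_91 : Tr := (V (F 265 (S (T (U (T (S (F 2 L) (F 2 L)) (S (F 2 L) (F 2 L))) (U (S (F 2 L) (F 2 L)) (F 2 L))) (U (V (S (F 2 L) (F 2 L)) (F 10 (S (T L L) (T L L)))) (V (S (F 2 L) (F 2 L)) (F 10 (S (T L L) (S L L)))))) (T (V (U L L) (U (T (F 8 L) (F 10 (S L L))) (T (F 8 L) (F 10 (S L L))))) (F 10 (U (T (S (S L L) (S L L)) (S (S L L) (S L L))) (S (T (S L L) (S L L)) (T (S L L) (S L L)))))))) (F 137 (S (T (U (V (T (V (F 2 L) (F 8 L)) (F 10 (S L L))) (T (S (F 8 L) (F 8 L)) (F 8 L))) (V (F 10 (T (S L L) (S L L))) (S (F 8 L) (F 8 L)))) (U (T (S (F 8 L) (F 8 L)) (S (F 8 L) (F 8 L))) (T (S (F 8 L) (F 10 (S L L))) (S (F 8 L) (F 8 L))))) (T (U (V (F 10 (T (S L L) (S L L))) (S (F 8 L) (F 8 L))) (T (F 10 (S (S L L) (S L L))) (V (F 10 (S L L)) (F 8 L)))) (U (V (F 10 (T (S L L) (S L L))) (S (F 8 L) (F 8 L)))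 (V (F 10 (S (S L L) (S L L))) (S (F 8 L) (F 8 L))))))))
noncomputable def v3_92 : Tr := (U (V (S (F 137 (T (U (V (S (F 2 L) (F 2 L)) (S (F 2 L) (F 2 L))) (V (S (F 2 L) (F 2 L)) (S (F 2 L) (F 2 L)))) (U (V (S (F 2 L) (F 2 L)) (T (F 10 (S L L)) (F 8 L))) (V (S (F 2 L) (F 2 L)) (F 10 (T (S L L) (S L L))))))) (F 265 (T (V (U L L) (T (U (F 8 L) (F 8 L)) (F 10 (U (S L L) (S L L))))) (F 10 (U (T (S (S L L) (S L L)) (S (S L L) (S L L))) (T (S (T L L) (S L L)) (S (S L L) (S L L)))))))) (F 169 (S (T (U (T (V (S L L) (S L L)) (V L L)) (T (S (S L L) (V (S (F 2 L) (F 2 L)) L)) (S (S L L) L))) (U (S (T L L) (T L L)) (S (T L L) (T L L)))) (T (U (T (V (S (F 2 L) (F 2 L)) L) (S L L)) (V (T (S (F 2 L) (F 2 L)) (S (F 2 L) (F 2 L))) (S (S L L) L))) (U (V (S L L) (S L L)) (T (S L L) (S L L))))))) v3_91)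
noncomputable def v3_93 : Tr := (U (V (F 16973 v3_75) (F 5193 (U (S (T (V (U (S (F 13 (T (V (F 2 L) (S (F 6 (T L L)) (F 2 L))) (V (F 6 (T L (S L L))) (S (T (F 4 L) (F 4 L)) (T (F 4 L) (F 4 L)))))) (T (F 269 (V L (S L L))) (V (F 269 (S (S (F 2 L) L) L)) (T (F 13 (V (F 2 L) (F 4 L))) (F 393 (S L L)))))) (S (F 13 (T (V (F 2 L) (S (F 6 (T L L)) (F 2 L))) (V (F 6 (T L L)) (S (S (F 4 L) (F 4 L)) (T (F 6 (S L L)) (F 4 L)))))) (F 265 (T (V (F 32 L) (S (F 32 L) (F 32 L))) (V (S (F 34 (S L L)) (F 32 L)) (T (S (F 34 L) (F 32 L)) (S (F 2 L) (F 2 L)))))))) v3_76) v3_77) (T v3_78 v3_79)) v3_83))) (V (F 16973 (S v3_84 (T (F 14 (U (V (T (S L (V (F 32 L) (F 32 L))) (S (V L L) (U (S L L) (S L L)))) (T (S (S L L) (S L L)) (S (U (S L L) (S L L)) (U (S L L) (S L L))))) (V (T (U (S (F 36 L) (F 32 L)) (F 32 L)) (S (V L L) (U L L)))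 (T (S (S L L) (T (F 32 L) L)) (S (U L L) (U (S L L) (S L L))))))) v3_85))) (F 5193 (S (T (U v3_86 v3_87) (U v3_88 v3_89)) (T v3_90 v3_92)))))
noncomputable def v3_94 : Tr := (S (F 480 (U (T (V (F 20 (T L L)) (T L (S (F 4 L) (F 4 L)))) (U (V (F 4 L) (S (F 5 L) (F 4 L))) (S (F 5 L) (F 4 L)))) (T (F 20 (S L L)) (F 4 L)))) (T (U (U (V (F 229 (T (S (F 1 L) L) (S (F 1 L) L))) (S (F 448 (T (V (F 40 (S (F 8 L) L)) (F 33 L)) (F 9 (T L L)))) (T (F 193 (V (F 16 L) (F 1 L))) (F 69 (U (V (F 2 L) (F 1 L)) (F 3 (S L L))))))) (F 453 (V (F 1 (T L (S L L))) (T (S (F 1 L) L) (S (F 1 (S L L)) L))))) (F 485 (U (V L (T L (S L L))) L))) (V (F 228 (U (U (S (V (F 16 L) (T (F 1 L) (F 1 L))) (T (T (F 16 L) (F 16 L)) (U (T (F 16 L) (F 16 L)) (F 16 L)))) (F 17 (T (T L L) (U (T L L) L)))) (F 17 (U (T L L) L)))) (U (T (S (F 484 (U (S L L) L))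 (U (V (F 69 (V (F 2 L) (F 1 L))) (F 340 L)) (F 452 (S (F 1 L) (F 16 L))))) (F 324 (U (S (F 6 L) (V (F 2 L) (S (F 6 L) (F 4 L)))) (V (F 3 L) (F 6 L))))) (F 484 (U (T (V (F 8 L) (F 1 L)) (F 1 (S (F 1 L) L))) (F 9 (T L L))))))))
noncomputable def v3_95 : Tr := (T (F 541 (V (U (T (S (F 32 L) (F 32 L)) (S (S L L) (U (S (F 32 L) (F 32 L)) (F 32 L)))) (T (F 32 L) (U (S (F 4 L) (F 32 L)) (F 32 L)))) (U (T (S L (S (F 32 L) (F 32 L))) (U (S L L) (S L L))) (U (T (F 32 L) L) (S (F 32 L) (F 32 L)))))) (V (U (S (F 529 (T (F 96 (U (S L L) L)) (S (T (F 32 L) (F 2 L)) (T L L)))) (T (F 541 (U (V (S L L) (S L L)) (S L L))) (S (F 529 (V L L)) (T (F 513 L) (F 513 L))))) (F 529 (S (U (T (F 96 L) (T (F 96 L) (F 66 L))) (T (F 100 L) (F 34 (V (F 16 L) (F 2 L))))) (U (T (F 96 (S L L)) (S (F 64 L) (F 64 L))) (F 96 (U (T (F 1 L) L) L))))))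 (F 533 (U (S (T (U (T (F 32 L) (F 2 L)) (S (F 34 L) (F 32 L))) (U (V (S (F 2 L) (F 2 L)) (F 2 L)) (S (F 2 L) (F 2 L)))) (T (S (V L L) (U L L)) (U (T L (U (F 2 L) (F 2 L))) (S (S (F 2 L) (F 2 L)) (V (F 2 L) (F 10 (T L L))))))) (U (S (T (F 34 (S L L)) (F 2 L)) (T (S (F 32 L) (F 32 L)) (T (F 2 L) (V (F 2 L) (F 10 L))))) (S (F 34 (T L L)) (T (F 32 L) (V (F 2 L) (F 10 L)))))))))
noncomputable def v3_96 : Tr := (U (S (F 529 (T (F 96 (V (U (U (S (F 24 L) (F 8 L)) (F 8 L)) (S (F 24 L) (F 8 L))) (U (S (F 24 (U (T L L) L)) (U L L)) (F 24 (U (T L (S (F 1 L) L)) L))))) (V (U (U (S (F 102 (T L L)) (T (F 100 L) (F 6 (T (F 4 L) L)))) (F 36 (S (F 18 (S L L)) (T (S (F 18 L) (F 2 L)) (S (F 18 L) (F 16 L)))))) (F 38 (U (S (F 2 L) (T (F 2 L) (S (F 2 L) L))) (T (F 2 L) (F 2 L))))) (F 66 (U (U (S (F 18 (T (S L L) (U (S L L) L))) (T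 (S (F 2 L) (F 2 L)) L)) (S (F 18 (T L L)) (T (F 2 L) (S (F 2 L) L)))) (U (S (F 18 (S L L)) (T (F 2 L) (S (F 18 L) (F 2 L)))) (F 18 (T L L)))))))) v3_95) (F 533 (U (U (S (F 38 (T (S (F 8 L) L) (S (F 8 L) (T L L)))) (T (F 96 (V (F 4 L) L)) (S (F 34 (V (T (F 8 L) (T (F 8 L) (F 8 L))) (S (F 8 L) L))) (T (V (F 96 L) (F 34 L)) (V (S (F 34 L) (F 32 L)) (F 10 L)))))) (S (F 39 (T (F 1 L) L)) (T (F 100 L) (V (S (F 38 L) (T (F 100 L) (F 34 L))) (F 42 (T L L)))))) (F 34 (U (S (F 25 L) (T (F 25 L) (V (F 9 L) (F 20 (S (F 1 L) L))))) (F 29 L))))))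
noncomputable def v3_97 : Tr := (V (F 130 (U (T (U (S (S (F 2 L) (F 2 L)) (S (S (F 2 L) (F 2 L)) L)) (S (F 2 L) (S (F 2 L) (F 2 L)))) (S (U (T (F 2 L) L) (S (F 18 L) (F 2 L))) (U (U L (S (F 8 L) (F 8 L))) (T (F 8 L) (F 8 L))))) (U (T (F 2 L) (S (F 18 (S (F 1 L) L)) (F 8 L))) (S (F 50 L) (T (F 34 L) (F 40 (S (F 4 L) L))))))) (U (U (T (S (V (F 162 (T L (S L L))) (U (V (F 160 L) (F 41 (S L (T (F 1 L) (F 1 L))))) (F 169 (T L L)))) (U (V (F 130 (S (F 2 L) (F 8 L))) (F 136 L)) (F 138 (T (S (F 2 L) L) L)))) (S (S (V (F 160 (S (F 32 L) (F 4 L))) (F 41 L)) (F 137 (U (S L L) L))) (F 136 (V (U (S (F 16 L) (F 16 L)) (S (F 16 L) (F 16 L))) (U (S (F 32 L) (F 32 L)) (S (F 32 L) (F 32 L))))))) (S (T (F 160 (V (S (F 48 L) (F 16 L)) (F 36 (U (S L L) (T (F 1 (S L L)) L))))) (V (F 3 (T (F 5 (S L L)) (S (F 20 L) (F 17 L)))) (F 41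 (T (S (F 1 L) (F 1 L)) L)))) (F 136 (T (T (S (F 18 (U L (F 1 (S L L)))) (F 16 L)) (F 48 (U (S L L) L))) (V (S (F 16 L) (F 16 L)) (S (F 32 L) (F 32 L))))))) (F 139 (U (T (S (F 2 (U (S L L) L)) (U (S (F 2 (S L L)) L) (F 2 (S L L)))) (S (F 2 (U (T L L) L)) (S L L))) (F 2 (T (S L L) (S (S (F 1 L) L) (S L L))))))))
noncomputable def v3_98 : Tr := (V (U (S (F 6 (U (T (S L L) (V L (U (S (F 8 L) (F 8 L)) (F 8 L)))) (T (T L (S (F 8 L) (F 8 L))) (U (S (F 8 L) (F 8 L)) (S (F 8 L) (F 8 L)))))) (F 18 (U (T (T L (V L (S (F 16 L) (F 16 L)))) (T (S (F 16 L) (S (F 16 L) (F 16 L))) (S (F 16 L) (F 16 L)))) (T (U (S (F 16 L) (F 16 L)) (S (F 16 L) (F 16 L))) (S (T (F 16 L) (F 16 L)) (T (F 16 L) (F 16 L))))))) (F 6 (T (U (S (S (F 2 L) (F 8 L)) (T (F 8 L) (F 8 L))) (S (F 10 (S L L)) (F 8 L))) (U (S (S (F 8 L) (F 8 L)) (T (F 8 L) (F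 8 L))) (S (F 8 L) (F 8 L)))))) (F 20 (U (S (U (T (U (T (S (F 16 L) (F 16 L)) (S (F 16 L) (F 16 L))) (S (F 16 L) (F 16 L))) (V (U (S (F 16 L) (F 16 L)) (F 16 L)) (S L L))) (T (S (F 16 L) (F 16 L)) (S (V (F 16 L) (F 32 L)) (F 16 L)))) (T (U (T (S (F 16 L) (F 16 L)) (S (F 16 L) (F 16 L))) (T (S (F 16 L) (F 16 L)) (S (F 16 L) (F 16 L)))) (U (U (S (F 16 L) (F 16 L)) (S (F 16 L) (F 16 L))) (T (F 16 L) (F 16 L))))) (U (T (S (F 48 (T L (S L L))) (S (F 16 L) (F 16 L))) (S (F 48 (S L (S L L))) (U (F 16 L) (F 48 L)))) (F 48 (T (S (S (F 4 L) L) L) (S L L)))))))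
noncomputable def v3_99 : Tr := (S (T (F 29 (V (U (U (T (S (F 6 L) (F 2 L)) (F 6 (S L (S L L)))) (F 6 (S (S L L) (T L L)))) (F 6 (U (T L L) (S (F 24 L) (F 16 L))))) (U (T (F 6 (S (U (T L (S L L)) (T (F 16 L) (F 16 L))) (U (U (S L L) L) L))) (S (U (V (F 6 (S L L)) (T (V (F 6 L) (F 5 L)) (F 5 L))) (F 7 (S L (S L L)))) (U (V (F 6 (S L L)) (U (V (F 6 L) (F 20 (S L L))) (F 22 (S (S L L) (S L L))))) (F 6 (V L (U (S (F 4 L) (F 4 L)) (S (F 20 (S L L)) (F 4 L)))))))) (F 7 (U (S (S L L) (T L (F 4 (U (T L (S L L)) L)))) (F 4 (S L (T L L)))))))) (F 276 v3_97)) (F 21 (T (V (U (T (F 66 (U (S L L) L)) (S (F 66 (U (S (S (F 16 L) (F 16 L)) L) (S (F 16 L) (F 16 L)))) (U (T (F 66 L) (F 18 L)) (F 66 (S L (S (F 4 L) (F 4 L))))))) (F 66 (T (S L (F 1 L)) (S (U (F 16 L) (F 20 L)) (U (S (F 4 L) (F 4 L)) (F 4 L)))))) (U (U (T (F 66 (S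 (V L (S (S (F 16 L) (F 4 L)) (F 4 L))) (S (S (F 4 L) (F 4 L)) (F 4 L)))) (F 18 (S (T (S (F 18 (U (S L L) L)) (F 16 L)) (S (F 16 L) (F 16 L))) (V L (U (S (F 16 L) (F 16 L)) (F 16 L)))))) (F 18 (T (S (S (F 18 (T L L)) (F 2 L)) (F 2 L)) (S (U (T (F 18 (S L L)) (F 16 L)) (F 18 (S L L))) (S (F 16 L) (F 16 L)))))) (F 18 (U (T (S (F 18 L) (F 3 L)) (S (F 18 (U L (F 1 (S L L)))) (T (F 18 L) (F 16 L)))) (S (F 50 (T L L)) (T (F 35 L) (F 48 (T (F 4 L) L)))))))) v3_98)))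
noncomputable def v3_100 : Tr := (T (F 23629 (V (U (S (U (T (F 19 L) (V (F 19 (S L L)) (S (F 18 L) (F 3 L)))) (F 19 (U L (F 1 L)))) (F 3 (T (U (S (F 4 L) (F 4 L)) (F 5 L)) (U (T (S (F 4 L) L) (V L (S L L))) (V (F 4 L) L))))) (F 83 (U (S (F 1 L) (S L L)) (F 3 L)))) (U (S (T (U (V (F 3 L) (F 65 (S L (S (F 16 L) (F 16 L))))) (F 67 (S (F 2 L) L))) (U (V (U (S (F 2 L) (F 2 L)) (F 3 (S L L))) (S (T (F 66 (S L L)) (F 34 (U (S L L) (S (F 1 L) (F 1 L))))) (T (F 3 (S L L)) (S (F 2 L) (F 2 L))))) (F 66 (T (S (F 16 L) (F 16 L)) (V L (S (F 1 L) (F 1 L))))))) (T (F 3 (U (V L L) (F 1 L))) (V (F 3 (U (U (S L L) L) (S L L))) (U (S (T (F 3 L) (S (F 2 L) (F 2 L))) (F 11 (T L (U (S L L) L)))) (F 11 (U (T (F 1 L) L) (F 1 L))))))) (F 67 (U (S (F 3 (V L L)) (F 4 (S L L))) (F 7 L)))))) (F 585 (V v3_96 (U v3_99 (F 597 (U (S (F 19 (U (T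 (S (F 4 L) L) (F 4 (U (T (S L L) (S L L)) L))) (F 4 (T L L)))) (T (F 17 (U (S (F 8 (S L L)) (T (F 1 L) (F 8 (S L L)))) (F 9 (S L L)))) (U (T (F 18 (S (F 8 L) (V L (F 8 L)))) (F 3 (S L L))) (F 19 (T L (S (F 4 L) L)))))) (F 23 (T (F 1 L) L))))))))
noncomputable def v3_101 : Tr := (U (S (F 5193 v3_68) (T (F 23625 (U v3_71 (V (F 66 (S (T (F 36 (U (S L L) (S L L))) (U (V (T (F 36 L) (F 4 L)) (T L (S (F 4 L) L))) (V (F 36 (S L L)) (T (F 32 L) L)))) (T (U (V (F 36 L) (F 32 L)) (F 36 (V L L))) (U (V (T (F 32 L) (S (F 32 L) (F 32 L))) (T (F 32 L) (S (F 32 L) (F 32 L)))) (T (S (F 32 L) (F 32 L)) (V (S (F 36 L) (F 32 L)) (S (F 32 L) (F 32 L)))))))) v3_72))) v3_93)) (S (F 7241 (T (V (F 165 (U (U (T (S (F 19 L) (F 16 L)) (S (F 3 L) (S (F 2 L) L))) (F 3 (T (F 1 L) L))) (F 19 L))) (U (U (U (V (F 165 (T (F 17 (S (F 4 L) L)) (S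 (F 3 L) (T (F 2 L) (F 2 L))))) (F 385 (S (F 3 (T (F 1 L) L)) (T (S (F 35 L) (F 48 L)) (T (F 1 L) (V (S (F 3 L) (F 17 L)) (F 1 L))))))) (F 193 (S (F 19 (T (F 1 L) L)) (T (F 35 (V (F 1 L) L)) (V (F 18 (S (F 8 L) L)) (S (F 3 L) (F 17 (S L L)))))))) (F 485 (U (S (F 4 L) (T (F 4 L) (S L (T L L)))) (F 4 L)))) (F 487 L))) (V (F 229 (U (S (F 1 (U (T (T L L) (V L (T L L))) (T L L))) (T (U (U (T L L) L) (S (F 1 L) L)) (U (U (V L (T L L)) (V L L)) (V L (F 1 (T L L)))))) (F 1 (T L (T L L))))) (U v3_94 (F 485 (U (T L (F 1 (S L L))) (F 5 L))))))) v3_100))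
noncomputable def treeV3 : Tr := (F 0x7ffffffffffffffffffffffffffffffffffffffffffffffffff1fffffffe3c3cfffc7ffff (V v3_50 v3_101))

theorem pV3 : chkV par treeV3 192 64 192 64 256 256 374491 748983 Lc = true := by decide +kernel


end Pool.Agent.Lib.H56.Gen.D4
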