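import Pool.Agent.Lib.H56.Gen.D4.Par
import Pool.Agent.Lib.H56.Gen.D4.Cos

/-!
# Certificate tree V, part 1
-/

set_option maxRecDepth 100000

namespace Pool.Agent.Lib.H56.Gen.D4

open Tr

noncomputable def v4_0 : Tr := (T (U (V (U (S (T (V (T (F 5 L) (V (F 9 L) (F 36 L))) (S (F 36 L) (F 4 L))) (U (K 1) (V (F 40 (S (F 2 L) (F 8 L))) (F 36 L)))) (T (V (F 9 (S L L)) (F 5 (T L L))) (U (K 1) (V (F 9 L) (S (F 36 L) (F 9 L)))))) (S (T (V (S (F 36 L) (F 1 L)) (F 36 L)) (V (F 40 (S L L)) (F 36 L))) (T (V (F 1 L) (F 5 (S L L))) (V (F 9 (S L L)) (S (F 32 L) (F 1 L)))))) (U (S (F 36 (V (T L L) (T L L))) (T (V (F 4 L) (F 36 L)) (F 36 (V (T L (S L L)) (S L L))))) (F 36 (S (T L (S L L)) (T (V L L) (V (S L L) L)))))) (V (U (T (F 37 (U (T L L) L)) (V (F 41 (S L L)) (S (F 44 L) (F 33 L)))) (T (F 37 L) (F 40 (S (F 2 L) (F 8 L))))) (F 36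 (T (V L L) (V (S L L) L))))) (U (V (F 40 (U (K 2) (S (V (T L (F 8 L)) (F 2 (T L L))) (T (V (F 8 (S L L)) (S L L)) (V (F 8 L) L))))) (U (F 36 (S (T (V L L) (V (K 2) (S L L))) (T (V (K 2) (T L L)) (K 2)))) (S (F 36 (V (F 2 (T L L)) (T L (F 2 L)))) (T (F 36 (V (S (F 2 L) L) L)) (F 40 (V (S (F 2 L) L) (F 2 (S L L)))))))) (V (F 40 (S (U (V L (S (F 2 L) L)) (S (F 2 L) L)) (U (V (F 8 (T L L)) (T L L)) (F 8 (T L L))))) (F 36 (T (U (V (F 2 (S L L)) L) (S (F 2 L) L)) (F 2 (U (S (S L L) (V L L)) (S (F 4 L) L))))))))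
noncomputable def v4_1 : Tr := (U (V (U (S (T (V (F 9 (S L L)) (F 1 L)) (F 9 (V L (V L (S L L))))) (T (V (F 9 (S L L)) (F 1 L)) (F 9 (V L (S L L))))) (S (T (V (F 9 L) (F 1 L)) (V (F 9 L) (S (F 1 L) (F 9 L)))) (T (V (F 9 (S L L)) (F 1 L)) (F 9 (S L L))))) (U (S (T (V (F 5 (S L L)) (S (F 4 L) (F 4 L))) (V (U (K 1) (S (F 4 L) (F 1 L))) (T (S (F 36 L) (F 4 L)) (S (F 36 L) (F 4 L))))) (T (V (S (F 5 L) (F 1 L)) (F 5 (T L (S L L)))) (V (S (S (F 1 L) (F 1 L)) (S (F 1 L) (F 1 L))) (T (S (F 4 L) (S (F 5 L) (F 1 L))) (U (K 1) (S (F 4 L) (F 1 L))))))) (S (T (V (F 5 (S L L)) (F 4 L)) (V (T (F 5 (S L L)) L) (S (F 36 L) (S (F 4 L) (F 4 L))))) (T (V (F 1 L) (F 5 (U L L))) (V (S (S (F 1 L) (F 1 L)) (F 1 L)) (S (V L (S (F 4 L) (F 4 L))) (V (S (F 1 L) (F 1 L)) (S L L)))))))) (V (S (T (U (S (F 1 L) (F 9 L)) (F 9 L)) (F 9 (U (S L L) (F 1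 (S L L))))) (F 9 (U (T (V L L) (S L L)) (T (S L L) L)))) (S (T (U (V (F 5 L) (F 36 L)) (F 37 (S L L))) (U (V (F 32 L) (F 36 L)) (F 36 (T L L)))) (T (U (V (F 1 L) (F 5 (S L L))) (S (F 5 L) (F 1 L))) (U (V (S (F 1 L) (F 1 L)) (T (S (F 36 L) (F 1 L)) L)) (V (F 1 L) (S (F 36 L) (F 1 L))))))))
noncomputable def v4_2 : Tr := (V (U (F 9 (S (T (V L (S (K 3) L)) (V (S (K 3) L) (K 3))) (T (V L (S L L)) (V (S L L) (S (K 3) (S L L)))))) (S (T (F 9 (V L (S L L))) (V (F 9 L) (S (F 40 L) (F 9 L)))) (F 9 (T (V L (S L L)) (V (S L L) (S (S L L) (S L L))))))) (U (S (F 61 (T (V (K 0) (S (S (K 0) (K 0)) (K 0))) (K 0))) (T (V (F 9 (U (K 3) (T (S L L) (S (K 3) L)))) (U (K 1) (T (S (K 1) (V (F 1 L) L)) (K 1)))) (K 1))) (S (T (V (S (S (F 32 L) (F 32 L)) (S L L)) (F 36 (T (T L L) (V (S (F 2 L) L) L)))) (V (F 40 (U (K 2) (S (F 1 L) L))) (V (T (F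 32 L) (F 40 L)) (S (F 44 L) (F 32 L))))) (T (V (T (S (F 1 L) (F 1 L)) (S (V (F 9 L) (F 8 L)) (F 9 (S L L)))) (T (S (S (F 32 L) L) (V (F 1 L) L)) (S (V (F 32 L) (F 32 L)) (V L (S L L))))) (V (S (U (F 9 (T L (K 3))) (F 40 (S L L))) (F 9 (U (T L (S L L)) (S L L)))) (S (T (V (F 32 L) (F 32 L)) (F 40 (U (K 2) L))) (U (T (V (F 8 L) L) (K 1)) (V (S (F 40 L) (F 8 L)) (T (F 32 L) (F 56 (S L L)))))))))))
noncomputable def v4_3 : Tr := (U (S v4_0 (T v4_1 (U v4_2 (V (F 9 (S (U (T (S (F 1 (S L L)) L) (F 1 (V L (S L L)))) (F 1 (T (S L L) L))) (U (T (S L L) (V L (S (F 1 L) L))) (T (S (F 1 L) L) (F 1 (V L L)))))) (S (T (V (U (S (F 40 L) (F 32 L)) (F 40 L)) (F 36 (U (T L L) L))) (F 40 (U (V (S (F 1 L) L) (S (F 2 L) L)) (S (F 2 L) L)))) (T (U (V (F 9 (T (S L L) (S L L))) (S (T (F 32 L) (F 32 L)) (T L (S (F 32 L) L)))) (V (S (F 40 L) (F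 9 L)) (T (F 32 L) (F 32 L)))) (U (V (S (F 40 (S L L)) (V (F 9 L) (F 40 (S L L)))) (S (T (F 32 L) (F 40 L)) (V (F 40 (U L (F 1 L))) (T (F 32 L) (F 56 (S L L)))))) (F 40 (V (S (F 1 L) (F 8 L)) (F 1 (S L (S L L)))))))))))) (S (T (V (F 40 (U (U (S (F 2 L) (F 8 L)) (F 10 L)) (F 10 L))) (F 36 (U (T (F 8 L) L) (F 10 L)))) (F 40 (V (U (S L (F 8 (T L L))) (F 11 L)) (F 2 (U (U (S (F 4 L) L) (F 4 L)) (F 5 L)))))) (T (V (F 9 (U (U (T (S (F 1 L) L) (F 1 (S L L))) (F 1 (S (F 2 L) L))) (F 1 L))) (U (U (T (F 37 L) (V (F 33 L) (F 36 L))) (F 37 (T (F 2 L) L))) (F 45 L))) (F 40 (V (F 8 (U (U (S L (S L L)) (F 4 (S L L))) (F 4 L))) (U (U (S (T (F 2 (S L L)) (F 1 L)) (V (F 8 (T L (F 4 L))) (T L (F 1 L)))) (F 1 (S (F 4 L) (F 1 (S L L))))) (F 11 L)))))))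
noncomputable def v4_4 : Tr := (T (U (V (U (S (V (S (F 16 L) (F 16 L)) (T (F 16 L) (F 16 L))) (V (T (F 16 L) (F 16 L)) (T (F 16 L) (F 16 L)))) (T (V (F 16 L) (F 16 L)) (V (F 16 L) (F 16 L)))) (U (S (T (V (S (F 16 L) (F 16 L)) (T L (S (F 8 L) (F 24 L)))) (V (F 24 (S L L)) (T (F 8 L) (F 24 L)))) (T (V L (S (F 8 L) (F 8 L))) (V L (F 8 L)))) (S (T (V (F 16 L) (S (F 16 L) (F 16 L))) (F 24 (V L (S L L)))) (V (T (F 16 L) (F 24 L)) (T L (F 8 L)))))) (V (T (S (F 16 L) (F 16 L)) (V (F 16 L) (F 16 L))) (T (U (S (F 16 L) (F 16 L)) (F 16 L)) (F 24 (U (S (S L L) (S L L)) (S L L)))))) (U (V (U (S (T (V (F 16 L) (F 16 L)) (V (S (F 16 L) (F 16 L)) (F 24 (S L L)))) (T (V (S (F 16 L) (F 16 L)) (S (F 16 L) (F 16 L))) (V (V (F 16 L) (F 24 (S L L))) (F 24 (S L (S L L)))))) (S (V (T (F 16 L) (F 24 L)) (F 24 (T L L))) (T (V (F 16 L) (F 16 L))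 (F 24 (V (S L L) (S L L)))))) (U (S (F 24 (V (T (S (K 2) L) (K 2)) (K 2))) (T (V (F 8 L) (F 8 L)) (F 24 (V (S L L) (K 2))))) (F 24 (S (T (V L L) (S L L)) (T (V L L) (V L L)))))) (V (T (U (S (F 16 L) (F 16 L)) (F 16 L)) (F 24 (U (S (S L L) (S L L)) (F 1 (S L L))))) (F 24 (U (S (T L L) (T L L)) (S L L))))))
noncomputable def v4_5 : Tr := (V (U (S (T (V (S (F 48 L) (F 16 L)) (F 48 (T L L))) (V (F 48 (S L (T L L))) (S (F 48 L) (S (F 48 L) (F 32 L))))) (T (V (T (V (F 17 L) (F 16 L)) (S (F 16 L) (S (F 16 L) (F 16 L)))) (V (S (F 16 L) (T (F 16 L) (F 16 L))) (S (F 32 L) (S L L)))) (V (T (S (S (F 16 L) (F 16 L)) (V (F 16 L) (S (F 16 L) (F 16 L)))) (S (V (F 16 L) (F 48 (S L L))) (V (T (F 16 L) (F 16 L)) (S (F 16 L) L)))) (S (T (F 32 L) (F 32 L)) (V (T L (S (F 32 L) L)) (T (F 32 L) (F 32 L))))))) (S (F 48 (T (V L L) (V (S L L) (S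 L L)))) (T (V (T (F 16 L) (S (F 48 L) (F 16 L))) (S (F 48 (T L L)) (V (S (F 48 L) (F 16 L)) (F 32 L)))) (V (S (V (F 16 L) (F 48 (S L L))) (T (T (F 16 L) (F 16 L)) (V (S (F 16 L) (F 16 L)) (F 16 L)))) (V (S (F 48 L) (T (F 48 (S L L)) (F 32 L))) (T (F 32 L) (F 32 L))))))) (U (S (T (V (S (F 32 L) (F 32 L)) (F 40 (S L L))) (F 40 (V (S L L) L))) (T (V (S (S (F 32 L) (F 32 L)) (T (S (F 32 L) (F 32 L)) (F 32 L))) (F 40 (S L (S L L)))) (V (S (F 40 (S L L)) (V (F 32 L) (F 40 L))) (F 40 (S L L))))) (S (T (V (F 32 L) (F 40 L)) (V (F 32 L) (F 40 L))) (T (V (V (S (F 48 L) (F 32 L)) (F 32 L)) (F 40 (S L L))) (V (T (F 32 L) (F 40 (S L L))) (F 40 (S L L)))))))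
noncomputable def v4_6 : Tr := (U (F 112 (S (T (V (F 48 (S (T L L) (U (K 2) (T L L)))) (T (F 32 L) (F 40 (S L L)))) (F 40 (V (F 11 (S (K 0) (K 0))) (S (S L L) (T L L))))) (T (V (U (K 1) (S (F 48 (T (V L L) (F 11 (S (K 0) (K 0))))) (T (V (S (F 16 L) (F 16 L)) L) (F 61 (S (K 0) (K 0)))))) (V (S (T (F 32 L) (F 40 L)) (U (K 1) (T (F 32 L) (F 32 L)))) (S (F 40 (S L L)) (T (F 32 L) (F 40 L))))) (F 40 (V (K 2) (U (K 2) (S (S L L) (V (K 2) L)))))))) (S (F 113 (T (V (T (F 16 L) (S (F 24 L) (F 16 L))) (S (F 24 L) (F 16 L))) (V (V (S (F 24 L) (F 16 L)) (T (F 16 L) (F 24 L))) (S (F 24 L) (S (F 24 L) (F 8 L)))))) (T (V (S (F 115 (T (V L L) (V (S L L) L))) (V (F 50 (T (S (F 4 L) L) (U L (F 32 L)))) (F 112 (T (V (F 16 L) (F 32 L)) (U (F 32 L) (F 48 (S L L))))))) (F 113 (S (T (F 16 L) (F 8 L)) (T (T L L) (V L (F 8 L)))))) (F 49 (V (U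 (S (F 36 (T (S L L) (F 1 (S L (K 1))))) (V (T (S (F 32 L) (F 32 L)) (K 1)) (T (S (F 20 L) (F 16 L)) (F 20 L)))) (S (F 36 (T L (F 1 L))) (S (T (F 32 L) (F 48 L)) (V (T (F 32 L) (F 56 L)) (F 48 (S L L)))))) (F 20 (S (T L L) (U (T (S L L) L) (T L L)))))))))
noncomputable def v4_7 : Tr := (U (V v4_6 (F 117 (U (S (T (V (S L L) L) (V (S L L) (S (F 8 L) L))) (T (V (S L (T L L)) (S L L)) (V (S L (S L L)) (S L L)))) (S (T (V L L) (V (S (F 8 L) L) L)) (T (V (S L (S L L)) L) (V (S L (S L L)) (S L L))))))) (F 49 (V (S (F 36 (U (T (V L L) (F 1 (V (S L L) L))) (T L (F 1 L)))) (T (U (V (S (F 36 (T L L)) (V (T (F 32 L) (F 32 L)) (F 36 (T L (S L L))))) (F 36 (T (S (F 1 L) L) (V L (F 1 (S L L)))))) (F 36 (V (T L (S (F 1 L) L)) (F 1 (T L L))))) (U (V (S (F 36 (T L (F 1 L))) (V (T (F 32 L) (F 56 (S L L))) (F 48 (S L L)))) (F 20 (S (F 1 L)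 (U (S (F 1 L) L) (F 1 L))))) (F 48 (V (F 1 (S (F 4 (S L L)) (S L L))) (F 2 L)))))) (F 20 (S (F 1 (U (T (S L L) (V L L)) (T L L))) (U (T (V (S (F 1 L) L) L) (V (S (F 1 L) L) L)) (F 1 (T (T L L) (S L L)))))))))
noncomputable def v4_8 : Tr := (U (S (F 113 v4_4) (T (F 112 (U v4_5 (V (S (F 48 (T (V L L) (V (S L L) L))) (T (U (V (S (F 48 L) (F 16 L)) (F 48 (T L L))) (F 48 (V L L))) (U (V (S (F 48 L) (T (F 16 L) (F 48 (V L L)))) (F 48 (T L (S (F 1 L) L)))) (F 48 (V (T L L) L))))) (S (T (V (F 48 L) (S (F 48 L) (F 40 L))) (V (F 48 L) (F 40 (S (F 1 L) L)))) (T (V (U (S (F 48 L) (F 32 L)) (F 48 L)) (F 40 (U (S L L) (F 1 L)))) (F 40 (U (V (S (F 1 L) L) L) (F 1 (V L L))))))))) v4_7)) (F 115 (S (T (V (U (S L L) (F 8 L)) (F 8 (U (T L L) (F 2 L)))) (F 8 (V (U (T L (F 1 L)) (F 1 L)) (U (S L L) (F 3 L))))) (T (V (U (U (T (S (F 1 L) L)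 (S (F 8 L) L)) (S (F 8 L) L)) (F 8 L)) (F 8 (U (U (S L (T L L)) (S L L)) L))) (V (U (U (S (F 12 (S L L)) (T (T L (F 8 L)) (F 12 (S L L)))) (F 12 (S L L))) (F 12 L)) (F 8 (U (U (S (F 1 L) (S (F 1 L) L)) (F 1 L)) (F 1 L))))))))
noncomputable def v4_9 : Tr := (T (U (V (F 17 (U (S (K 3) (T (V (S (F 2 (S (K 0) L)) L) (S (K 3) (S (K 3) L))) (V (S (K 3) L) (K 3)))) (S (F 3 (V (S L (S L L)) (U (K 0) (S (K 0) L)))) (V (S (F 2 (T L (F 4 L))) (T L (F 3 (S L L)))) (S (F 3 (V L (S L L))) (T (S (F 2 L) L) (F 3 (S L L)))))))) (U (K 1) (S (F 56 (V (K 1) (S (F 1 L) L))) (T (V (S (F 56 (V L L)) (V (F 9 (T L (F 3 (S L L)))) (F 56 (U (K 1) L)))) (F 56 (U (K 1) (S L (S L L))))) (F 57 (V (U (K 1) (S (K 1) L)) (K 1))))))) (F 56 (V (S (U (V (F 4 L) L) (F 4 L)) (F 4 (U (V (S L L) (S L (S L L))) (S L L)))) (S (U (V L L) L) (U (V (S L (V (F 4 L)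 L)) (S L (S L L))) (V (F 4 L) L)))))) (F 56 (U (F 4 (V (U (S (K 0) (V (U (K 0) (S (K 0) L)) (K 0))) (S (S (K 0) L) (V (S L L) L))) (U (K 0) (U (K 0) (S (K 0) (S (K 0) L)))))) (V (F 4 (S (S L L) (V L (S L L)))) (U (S (F 1 L) (S (F 4 L) L)) (S (F 1 L) (F 4 L)))))))
noncomputable def v4_10 : Tr := (T (U (V (F 48 (U (F 3 (S (V (K 1) (U (K 1) (S L (F 1 (S (K 0) (K 0)))))) (F 1 (T (V (K 0) (S (K 0) (K 0))) (K 0))))) (S (F 3 (V (S L (S L L)) (S L (S L L)))) (V (F 1 (S (F 4 (U (K 0) L)) (U (K 1) (S L L)))) (F 2 (S (F 4 (V L L)) (V (S (F 4 (S L L)) L) L))))))) (U (S (F 12 (V (F 2 (S (T L (F 4 L)) (T (S L L) (F 4 L)))) (U (K 3) (T L (F 3 L))))) (F 20 (V (S (F 2 (V (S L L) (S L L))) (S L L)) (S (F 2 (T (S L L) L)) (S L L))))) (F 20 (S (F 3 (V (S L (S L L)) (S L (S L L)))) (V (S (F 2 (T L (F 4 L))) (T L (F 1 L))) (S (F 2 (T L (F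 4 L))) L)))))) (F 48 (V (S (F 3 (U (V L L) L)) (U (V (F 1 (S (F 4 L) (S L L))) (F 2 (S (F 4 L) (S (F 4 L) L)))) (F 3 (V L L)))) (F 2 (S (F 4 (U (V L L) L)) (U (V (S (F 4 L) L) (F 4 (S L L))) (F 4 (S L L)))))))) (F 48 (U (F 2 (V (U (F 5 (S (K 0) (K 0))) (S (F 4 (S L L)) (V L (F 4 L)))) (F 4 (U (S (V (S L L) (K 1)) (V (S L (K 0)) (S L (S L L)))) (S (S L L) (V (S L L) (S L L))))))) (F 1 (V (S (F 4 (S L L)) (V L (F 4 (S L L)))) (F 4 (U (S L (S L L)) L)))))))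
noncomputable def v4_11 : Tr := (V (F 42 (U (S (F 56 (T (U (V (F 4 (U (K 0) (U (K 0) (S (K 0) (S (K 0) L))))) (F 1 (U (S (V (K 1) (S L (K 1))) (K 1)) (S (V L L) (V (F 1 (S (K 0) (K 0))) L))))) (V (U (S L (S L L)) (S (F 1 L) (F 4 L))) (F 1 (U (S L (S L L)) (S L L))))) (U (F 1 (V (K 1) (S (V (K 1) L) (K 1)))) (V (S (F 1 L) L) (F 1 (S L L)))))) v4_9) (F 56 (S (U (V L (F 1 L)) (F 5 L)) (U (V (F 4 (S L L)) (S (F 1 L) L)) (F 5 L)))))) (F 21 (U (S (F 60 (T (U (V (U (S (V (S L L) (S (K 1) L)) (V (S L (K 0)) (S (S L L) (S L L)))) (S (V L L) (V (S L L) (S L L)))) (U (S (K 1) (V (U (K 1) (S (K 1) L)) (K 1))) (S (V L (K 1)) (V (S L L) L)))) (V (U (S L (S L L)) L) (U (S L (S L L)) (S L L)))) (U (V (S (V L L) (V L (S L L))) (U (K 1) (S (K 1) L))) (V (S L L) (S L L))))) v4_10) (F 60 (S (U (S L L) (F 1 L)) (U (V (S L L) (S L L)) L))))))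
noncomputable def treeV4 : Tr := (F 0x7ffffffffffffffffffffffffffffffffffffffffffffffffff9fffffffffe7e7ffc7ffff (T (V (F 50 v4_3) v4_8) v4_11))

theorem pV4 : chkV par treeV4 64 64 384 128 256 256 374491 748983 Lc = true := by decide +kernel

noncomputable def v5_0 : Tr := (U (S (F 76 (T (V (S (F 4 L) (T (F 4 L) (F 4 L))) (S (F 4 L) L)) (V (S (F 4 L) (F 4 L)) (S (F 4 L) (F 4 L))))) (T (V (F 20 (S (F 10 (T (V (U L L) L) (T L L))) (T (S (V (T (F 8 L) (S (F 10 L) (F 8 L))) (F 10 (S L L))) (V (T L L) (T (F 8 L) (F 8 L)))) (V (S (F 10 (T L L)) (T (F 2 L) (F 2 L))) (F 10 (U L L)))))) (F 76 (S (T L (F 4 L)) (V (T (T L (F 4 L)) (S (F 4 L) (F 4 L))) (S L L))))) (F 80 (V (S (F 12 (T L L)) (T (V (S (F 12 L) (F 8 L)) (F 12 (S L L))) (T (F 4 L) (F 4 L)))) (S (F 12 (S L L)) (T (F 4 L) (F 4 L))))))) (S (F 92 (T (V (S L (S L L)) (S L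 L)) (V (S L L) (S L L)))) (T (F 12 (V (S (F 10 (T (U L L) (S L L))) (T (S (F 10 (U (T L L) (S L L))) (U (T (F 8 L) (F 8 L)) (S (F 8 L) (F 8 L)))) (F 10 (U (V (S L L) L) (V (S L L) L))))) (S (T (F 2 L) (F 10 L)) (T (V (F 2 L) (F 2 L)) (F 10 (V L L)))))) (F 88 (V (S (T (F 4 L) (F 4 L)) (T (U (S (F 4 L) (F 4 L)) (S (F 4 L) (F 4 L))) (S (F 4 L) L))) (S (S (F 4 L) (F 4 L)) (T L L)))))))
noncomputable def v5_1 : Tr := (V v5_0 (F 72 (U (S (T (V (S (F 8 L) (F 8 L)) (S (S (F 24 L) (F 8 L)) (S (F 8 L) (F 8 L)))) (V (S (S (F 8 L) (F 8 L)) (S (F 8 L) (F 8 L))) (S (T (S (F 8 L) (F 8 L)) (V (F 8 L) (S (F 8 L) (F 8 L)))) (T (S (F 8 L) (F 8 L)) (S L L))))) (T (V (S (S (F 8 L) (F 8 L)) (T (F 8 L) (F 8 L))) (S (T (F 8 L) (S (F 8 L) (F 8 L))) (T (S (F 8 L) (F 8 L)) (S (F 8 L) L)))) (V (S (S (F 4 L) (F 4 L)) (T (F 4 L) (F 4 L))) (S (T (S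 L L) (S L L)) (T (S L L) (S L L)))))) (S (T (V (S (F 8 L) (F 8 L)) (S (F 8 L) (S (F 8 L) (F 8 L)))) (V (S (F 8 L) (S (F 8 L) (F 8 L))) (S (T (F 8 L) (U (F 8 L) (F 8 L))) (T (S (F 8 L) (F 8 L)) (S L L))))) (T (V (S (F 8 L) (T (F 8 L) (F 8 L))) (S (T (F 8 L) (F 8 L)) (T (S (F 8 L) (F 8 L)) L))) (V (S L (T (F 4 L) (F 4 L))) (S (T L (S L L)) (T L L))))))))
noncomputable def v5_2 : Tr := (V (S (F 76 (T (U (V (U (F 4 L) (F 4 L)) L) (V (S (F 4 L) (F 4 L)) L)) (U (V (S (F 4 L) (F 4 L)) (S (F 4 L) (F 4 L))) (V (F 4 L) (F 4 L))))) (T (F 12 (U (V (S (F 10 (U (S L L) (S L L))) (U (T (V (S (F 10 L) (F 8 L)) (F 10 L)) (F 10 (S L L))) (F 10 (T (U (S L L) L) (S L L))))) (S (F 2 L) (T (S (F 10 L) (F 2 L)) (F 10 (T L L))))) (V (F 10 (S (T L L) (U (T (T L L) L) (T L L)))) (S (F 2 L) (T (F 2 L) (F 10 (S L L))))))) (F 88 (U (V (S (S (F 4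 L) (F 4 L)) (T (U (F 4 L) (F 4 L)) L)) (S (F 4 L) (S (F 4 L) L))) (V (S (F 4 L) (U (S (F 4 L) (F 4 L)) (F 4 L))) (U (S (F 4 L) (F 4 L)) (F 4 L))))))) (F 72 (S (T (U (V (F 8 L) (S (F 8 L) (F 8 L))) (V (F 8 L) (S (F 24 L) (F 8 L)))) (U (V (S (F 8 L) (F 8 L)) (S (T (F 8 L) (S (F 8 L) (F 8 L))) (T (F 8 L) L))) (V (F 12 (S L L)) (T (S (F 9 L) (F 8 L)) (S (F 8 L) (F 8 L)))))) (T (U (V (S (F 8 L) (T (F 8 L) (F 8 L))) (S (S (F 8 L) (F 8 L)) (T (F 8 L) L))) (V (T (F 8 L) (F 8 L)) (S (F 8 L) (T (F 8 L) (F 8 L))))) (U (V (S (S (F 8 L) (F 4 L)) (S (F 4 L) (F 4 L))) (S (T L L) (T L L))) (S (V (F 8 L) (S L L)) (V (S (F 4 L) (F 4 L)) (S L L))))))))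
noncomputable def v5_3 : Tr := (S (T (V (S (T (F 9 L) (F 17 L)) (F 17 (S L L))) (U (S (T (F 9 (S L L)) (V (F 9 L) (S (F 8 L) (F 1 L)))) (T (F 1 L) (S (F 1 L) (F 1 L)))) (S (V (F 9 (S L L)) (T (F 9 L) (F 8 L))) (T (F 1 L) (S (F 1 L) (F 17 L)))))) (V (F 17 (S (T (S L L) (S L L)) (U L (S (F 2 L) (F 2 L))))) (U (S (V (F 17 (T L L)) (T (S (F 8 L) (F 16 L)) (F 48 (S (S (K 3) L) L)))) (T (V (F 17 L) (V (F 17 L) (F 1 L))) (F 48 (V (S (F 16 L) (F 16 L)) (S L (S (F 16 L) (F 16 L))))))) (S (V (S (F 24 L) (F 17 L)) (T (F 8 L) (F 48 (S (S (F 3 L) (F 2 L)) L)))) (T (F 17 (S (S L L) L)) (F 48 (V (F 16 L) (S L (F 16 L))))))))) (T (V (F 17 (S (S L L) L)) (S (T (S (F 1 L) (F 1 L)) (V (F 17 L) (S (F 1 L) (F 17 L)))) (T (F 1 L) (F 17 (S L (F 2 L)))))) (F 17 (V (S (S (F 2 L) (F 2 L)) (F 2 L)) (S (V (T L (F 2 L)) (U (T (S (F 2 L) (F 2 L))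 (S (F 2 L) (F 2 L))) (T (S (F 2 L) (F 2 L)) (F 2 L)))) (V (S (F 2 L) (F 2 L)) (U (S (F 2 L) (F 2 L)) (S (F 2 L) (F 2 L)))))))))
noncomputable def v5_4 : Tr := (V (F 17 (U (S (T (S (T (F 4 L) L) (S L L)) (V (S (F 4 L) (F 2 L)) (S L L))) (T (V (S L (T L L)) (S L L)) (S (S L L) (T L (F 2 L))))) (S (T (S (S (F 4 L) (F 4 L)) (S L L)) (V (S (F 4 L) (F 2 L)) (S L (F 2 L)))) (T (V (S L (T L L)) (S L L)) (S (S L (F 2 L)) (T L (F 2 L))))))) (U (S (T (V (F 17 (S (T (S (F 4 L) (F 4 L)) (S (F 4 L) L)) (S L L))) (U (S (K 1) (T (S (F 1 L) (F 1 L)) (F 17 (V L (K 4))))) (S (T (S (F 9 (S L L)) (F 1 L)) (V (F 9 L) (S (K 1) (F 1 L)))) (V (F 1 L) (T (F 1 L) (S (F 1 L) (F 17 L))))))) (F 17 (V (S (U (K 4) (S L L)) (T L L)) (U (K 4) (S (K 4) (T (V L (S (S (K 4) L) L)) (V (S (K 4) (F 2 L)) (K 4)))))))) (T (V (F 17 (S (S L L) (S L L))) (U (S (T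 (F 1 L) (F 17 (S L L))) (F 17 (T (S L L) L))) (S (T (F 1 L) (F 17 (S L L))) (F 17 (T L L))))) (F 49 (V (S (S L L) L) (U (S (V (S L L) (S (K 3) (S (K 3) L))) (V L (T L L))) (S (V (S L L) (T (S L L) (S L L))) (T (S L L) L))))))) v5_3))
noncomputable def v5_5 : Tr := (S (T (U (V (F 17 (S (T (F 4 L) (F 4 L)) (S L L))) (S (V (F 9 (T L L)) (T (F 8 L) (F 8 L))) (T (S (F 1 L) (F 1 L)) (S (F 1 L) (F 1 L))))) (V (F 17 (S (S (F 4 L) (F 4 L)) L)) (S (T (F 9 L) (F 72 L)) (T (F 1 L) (F 17 (S L L)))))) (U (V (F 17 (S (T L L) (T L (F 2 L)))) (S (U (T (S (F 24 L) (F 17 L)) (F 48 (V (F 2 L) (S (F 3 L) (F 1 L))))) (T (F 24 (S (F 1 L) L)) (F 112 (S (F 1 L) L)))) (T (F 17 (U (S L L) L)) (F 48 (V (S (F 16 L) (F 16 L)) (U (S (F 1 L) (F 16 L)) (F 1 L))))))) (S (F 80 (V (S (F 18 L) (F 17 L)) (U (T (F 2 L) (F 3 L)) (F 3 L)))) (F 49 (V L (U (T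 L (F 1 L)) (F 1 L))))))) (T (U (V (F 17 (S L L)) (S (T (F 1 L) (F 17 (S L L))) (T (F 1 L) (F 17 L)))) (V (F 17 (S L L)) (S (T (F 1 L) (F 17 L)) (F 17 (T L (S (F 2 L) (F 2 L))))))) (F 49 (U (V (S (S L L) L) (S (U (T (S L L) L) (S L L)) (U (S L L) L))) (V (S L (F 1 L)) (S (U L (F 1 L)) L))))))
noncomputable def v5_6 : Tr := (V (F 1192 (U (S (T (V (S (S (F 64 L) (F 64 L)) (S (F 64 L) L)) (S (F 64 L) (F 64 L))) (S (T (F 64 L) (F 80 (S L L))) (V (S (F 64 L) (F 64 L)) (F 64 L)))) (T (V (S L (S (F 1 L) (F 1 L))) (S (S (F 64 L) (F 64 L)) (S (F 64 L) (F 64 L)))) (S (V (S (F 64 L) (F 64 L)) (F 64 L)) (V (T (F 1 L) (F 64 L)) (S (F 64 L) (F 64 L)))))) (S (T (V (S (F 64 L) (S (F 64 L) (F 64 L))) (S (F 68 L) (F 64 L))) (S (T (F 64 L) (F 80 L)) (V (S (F 64 L) (F 64 L)) (F 64 L)))) (T (V (S L (S (F 1 L) (F 1 L))) (S (S (F 64 L) (F 64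 L)) (S (F 64 L) (F 64 L)))) (V (S (S (F 64 L) (F 64 L)) (T (F 1 L) (F 64 L))) (S (F 64 L) (S (F 64 L) (F 64 L)))))))) (F 1033 (U (S (T (V (F 20 (S (F 8 L) L)) (F 12 L)) (F 84 (V (S (F 4 L) L) (S (F 4 L) (F 4 L))))) (T (V (F 20 (S L (S L L))) (T (F 4 L) (F 20 L))) (F 20 (V (S L L) (S (F 2 L) L))))) (S (T (V (F 20 (S (F 8 L) L)) (F 12 L)) (F 84 (V (S (F 4 L) L) (S (F 4 L) (F 4 L))))) (T (F 20 (V (S L (S L L)) (S L L))) (V (F 20 (S L L)) (F 80 (S (F 8 L) L))))))))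
noncomputable def v5_7 : Tr := (V (U (S (T (F 5 (V (S L L) (S (T (F 1 L) (F 1 L)) L))) (V (F 5 (S (S L L) (S L L))) (F 132 (S (S L L) (T (F 32 L) (S (F 32 L) (F 32 L))))))) (F 5 (T (V (S L L) (S L L)) (V (S L L) (S (T (F 1 L) (F 1 L)) L))))) (S (T (V (F 5 (S L L)) (S (F 132 (T (F 32 L) L)) (F 5 L))) (V (F 5 (T (S L L) (S L L))) (F 132 (S (S L L) (T (F 32 L) L))))) (F 5 (T (V (S L L) (S L L)) (V (S L L) (T L (S (F 1 L) (F 1 L)))))))) (U (S (T (F 132 (V (S (S L L) (T (F 32 L) (F 32 L))) (S (S L L) (S L L)))) (V (F 132 (S (S L L) (S L L))) (S (F 128 L) (F 128 L)))) (T (F 132 (V (S (T (F 32 L) (F 32 L)) (T (F 32 L) (F 32 L))) (S (T (F 32 L) L) (T (F 32 L) (F 32 L))))) (V (F 129 (S (T (F 16 L) L) (T (F 16 L) L))) (S (F 128 L) (S (F 128 L) (F 129 L)))))) (S (T (F 132 (V (S (S L L) (T (F 32 L) (F 32 L))) (S (S L L) (S L L))))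 (V (T (F 132 (S L L)) (F 128 L)) (S (F 128 L) (F 128 L)))) (T (F 132 (V (S (T (F 32 L) (F 32 L)) (T (F 32 L) (F 32 L))) (S (S L L) (T (F 32 L) (F 32 L))))) (T (V (F 133 (S L L)) (S (F 132 L) (F 129 L))) (V (F 129 (S L L)) (F 128 L)))))))
noncomputable def v5_8 : Tr := (V (U (S (T (V (S (F 129 (T (S (F 16 L) (F 16 L)) L)) (T (F 5 L) (F 129 L))) (S (F 128 L) (F 128 L))) (V (S (F 160 (S L L)) (F 129 (T L (S (F 2 L) (F 2 L))))) (F 160 (S L L)))) (T (V (F 5 (T (S L L) (S L L))) (F 129 (S (T L L) (T L L)))) (F 129 (V (T (S L L) (S L L)) (S (T L (F 2 L)) (S L L)))))) (S (T (V (S (F 132 (T L L)) (T (F 5 L) (F 129 L))) (S (F 128 L) (F 128 L))) (V (S (F 160 (S L L)) (F 129 (T L (F 2 L)))) (F 160 (S L L)))) (T (V (F 5 (T (S L L) (S L L))) (F 129 (S (S L L) (T L L)))) (V (F 129 (T (S L L) (S L L))) (S (F 160 L) (F 129 (S L L)))))))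 (U (S (T (V (S (F 160 L) (F 128 L)) (F 160 (S L L))) (F 160 (S L (S L L)))) (T (V (S (F 128 L) (F 129 (S L L))) (S (F 128 L) (F 128 L))) (F 160 (V (T (S (F 32 L) (F 32 L)) L) (S L L))))) (S (T (T (S (F 160 L) (F 128 L)) (F 160 (S L L))) (F 160 (S L L))) (T (V (S (F 128 L) (F 129 (S L L))) (S (F 160 L) (F 128 L))) (F 160 (V (S L L) (S (F 2 L) L)))))))
noncomputable def v5_9 : Tr := (V (F 1192 (U (S (T (V (S (F 64 L) (S (F 64 L) (F 64 L))) (S (F 68 L) (F 64 L))) (S (T (F 64 L) (F 80 L)) (T (F 64 L) (F 64 L)))) (T (V (S L (S (F 1 L) (F 1 L))) (S (F 64 L) (S (F 64 L) (F 64 L)))) (S (V (S (F 64 L) (F 64 L)) (F 64 L)) (V (S (F 64 L) (F 64 L)) (F 64 L))))) (S (T (V (S (F 64 L) (F 64 L)) (S (F 68 L) (F 64 L))) (V (S (F 80 L) (F 64 L)) (F 80 (S (F 4 L) L)))) (T (S (T (S (F 64 L) (F 64 L)) (S (F 64 L) (F 64 L))) (V (S (F 64 L)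 (F 1 L)) (F 64 L))) (S (T (F 64 L) (F 64 L)) (V (S (F 64 L) (F 64 L)) (F 64 L))))))) (F 1033 (U (S (T (F 12 (T L (S (F 10 L) (F 8 L)))) (F 84 (V (S (F 4 L) L) (S (F 4 L) (F 4 L))))) (T (V (F 20 (S L L)) (F 4 L)) (V (F 20 (S L L)) (F 80 (S (F 8 L) L))))) (S (T (F 12 (T L (S (F 10 L) (F 8 L)))) (F 84 (V (S (F 4 L) L) (S (F 4 L) (F 4 L))))) (T (V (F 20 (S L L)) (F 4 L)) (V (F 20 (S (F 2 L) L)) (F 80 (S (F 8 L) L))))))))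
noncomputable def v5_10 : Tr := (V (U (S (T (F 5 (V (S L L) (S (T (F 1 L) (F 1 L)) (T (F 1 L) (F 1 L))))) (V (F 5 (T (S L L) (S L L))) (F 132 (S (S L L) (T (F 32 L) L))))) (F 5 (T (V (S L L) (S L L)) (V (S L L) (T (S (F 1 L) (F 1 L)) (S (F 1 L) (F 1 L))))))) (S (T (V (F 5 (S L L)) (F 132 (S L (T (F 32 L) (F 32 L))))) (S (V (S (F 132 L) (F 5 L)) (F 132 (S L L))) (V (F 5 (S L L)) (F 132 (T (F 32 L) L))))) (F 5 (T (V (S L L) (S L L)) (V (S L L) (T (S (F 1 L) (F 1 L)) (S (F 1 L) (F 1 L)))))))) (U (S (T (F 132 (V (S L L) (S (S L L) (S L L)))) (V (F 132 (S L (S L L))) (S (F 132 L) (F 128 L)))) (T (F 132 (S (V (T (F 32 L) (F 32 L)) (S L L)) (T (V (F 32 L) (F 32 L)) (V (F 32 L) (S (F 32 L) (F 32 L)))))) (V (S (S (F 132 L) (F 129 L)) (F 129 (T (F 16 L) L))) (S (F 128 L) (F 128 L))))) (S (T (F 132 (S (T L L) (V L (S L L)))) (V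 (T (F 132 (S L L)) (F 128 L)) (S (F 132 L) (F 128 L)))) (T (F 132 (T (S (V (F 32 L) (F 32 L)) (V (F 32 L) (F 32 L))) (S (V (F 32 L) L) (V (F 32 L) (F 32 L))))) (V (S (S (F 132 L) (F 129 L)) (F 129 (S L L))) (S (F 128 L) (F 128 L)))))))
noncomputable def v5_11 : Tr := (S (T v5_9 (F 1065 (V (U (S (T (F 36 (V (S L L) L)) (S (F 40 L) (F 32 L))) (T (V (S (F 36 (T L L)) (S (F 4 L) (F 4 L))) (S (F 36 L) (F 32 L))) (S (F 32 L) (S (F 32 L) (F 32 L))))) (S (T (F 36 (V (S L L) L)) (F 32 L)) (T (V (T (S (F 36 L) (F 4 L)) (F 32 L)) (S (F 36 L) (F 32 L))) (S (F 32 L) (S (F 32 L) (F 32 L)))))) (U (S (F 40 (T L L)) (T (S (F 32 L) (F 32 L)) (F 32 L))) (S (F 40 (T L L)) (T (S (F 32 L) (F 32 L)) (F 32 L))))))) (F 1064 (T v5_10 (V (U (S (T (V (S (F 132 (S L L)) (T (F 5 L) (F 129 L))) (S (F 160 L) (F 128 L))) (F 160 (V (S L (S L L)) (S L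 L)))) (T (V (T (F 5 (S L L)) (S (F 129 L) (F 5 L))) (F 129 (T (S L L) (S L L)))) (V (F 129 (T (S L L) (S L L))) (S (F 160 L) (F 129 L))))) (S (T (V (S (F 132 (S L L)) (V (F 5 (S L L)) (F 129 L))) (S (F 160 L) (F 128 L))) (F 160 (V (S L L) (S L L)))) (T (V (T (F 5 (S L L)) (F 129 (S L L))) (F 129 (T (S L L) (S L L)))) (S (V (F 129 (S L L)) (F 160 L)) (F 129 (T (S L L) L)))))) (U (S (T (T (S (F 160 L) (F 128 L)) (F 160 (S L L))) (F 160 (S L L))) (T (V (S (F 128 L) (F 129 (S L L))) (S (F 160 L) (F 128 L))) (F 160 (S L (S L L))))) (S (F 160 (T (T (S L L) (S L L)) (S L L))) (T (V (S (F 128 L) (F 129 L)) (F 160 (S L L))) (F 160 (S L L)))))))))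
noncomputable def v5_12 : Tr := (T (V (F 1033 (U (S (T (V (T (F 4 L) (F 16 L)) (S (F 4 L) L)) (V (S (F 16 L) (F 16 L)) (S (F 80 L) (F 16 L)))) (T (V (T (F 20 (S L L)) (S (F 20 L) (F 17 L))) (S L L)) (V (S (F 16 L) (S (F 16 L) (F 16 L))) (S (F 16 L) (S (F 16 L) (F 16 L)))))) (S (T (V (S (F 4 L) (F 4 L)) (S (F 4 L) (F 4 L))) (V (S (F 80 L) (F 16 L)) (S (F 80 L) (F 16 L)))) (T (V (T (F 20 (S L L)) (S (F 20 L) (F 17 L))) (S L L)) (V (S (F 16 L) (F 16 L)) (S (F 16 L) (F 16 L))))))) (U (S (T (V (F 1033 (S (F 8 L) L)) (F 1089 L)) (F 1029 (V (S (F 72 L) (F 64 L)) (S (F 72 L) (F 8 L))))) (T (V (S (F 1033 L) (F 1025 L)) (S (F 1033 L) (F 1025 L))) (V (F 1025 L) (F 1029 (S (F 64 L) L))))) (S (T (V (F 1033 (S (F 8 L) L)) (F 1089 L)) (F 1029 (V (S (F 72 L) (F 64 L)) (S (F 72 L) (F 8 L))))) (T (F 1033 (V (S L L) (S L L))) (V (F 1025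 L) (F 1029 (S (F 64 L) L))))))) (V (F 1065 (U (S (T (V (S (F 32 L) (F 32 L)) (F 32 L)) (S (F 40 L) (F 32 L))) (T (V (S (F 32 L) L) (S (F 32 L) (F 32 L))) (S (F 32 L) (F 32 L)))) (S (T (V (S (F 40 L) (F 32 L)) (F 32 L)) (S (F 40 L) (F 32 L))) (T (V (S (F 32 L) (F 32 L)) (S (F 32 L) (F 32 L))) (S (F 32 L) (F 32 L)))))) (F 1029 (U (S (T (S (F 72 L) (S (F 72 L) (F 80 L))) (F 88 (S L L))) (T (V (F 80 (S L L)) (S (F 80 L) (F 48 L))) (F 80 (V L (S (F 2 L) (F 2 L)))))) (S (F 72 (T (V L (S (F 4 L) L)) (S (F 4 L) (F 4 L)))) (T (T (S (F 16 L) (F 16 L)) (F 80 (S L L))) (F 80 (S L (S (F 2 L) (F 2 L))))))))))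
noncomputable def v5_13 : Tr := (T (V (F 1033 (U (S (T (V (S (F 4 L) (F 4 L)) L) (V (S (F 80 L) (F 16 L)) (F 80 (S L L)))) (T (V (T (F 20 (S L L)) (S (F 20 L) (F 17 L))) (S L L)) (V (S (F 16 L) (F 16 L)) (S (F 16 L) (F 16 L))))) (S (T (V (S (F 4 L) (F 4 L)) L) (V (S (F 80 L) (F 16 L)) (F 64 L))) (T (V (S (F 16 L) (F 16 L)) (S L L)) (V (S (F 16 L) (F 16 L)) (S (F 16 L) (F 16 L))))))) (U (S (T (V (F 1033 L) (F 1089 L)) (F 1037 (V L (S (F 8 L) (F 8 L))))) (T (V (F 1033 (S L L)) (F 1025 L)) (V (F 1025 L) (F 1029 (S (F 64 L) (F 16 L)))))) (S (T (V (F 1033 L) (F 1089 L)) (F 1037 (V L (S (F 8 L) (F 8 L))))) (T (V (F 1025 L) (F 1025 L)) (V (F 1025 L) (F 1029 (S (F 64 L) (F 16 L)))))))) (F 1029 (V (F 80 (U (S (T (V L L) L) (T (V (S L L) (S L L)) (S L L))) (S (T (S L L) L) (T (S (S L L) (S L L)) (S (F 2 L) (F 2 L)))))) (U (S (T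 (S (F 72 L) (F 64 L)) (F 88 (S L L))) (T (V (F 80 (S L L)) (F 16 L)) (F 112 (S L L)))) (S (T (S (F 72 L) (F 80 L)) (F 88 (S L L))) (T (V (F 80 (S L L)) (F 16 L)) (F 112 (S L L))))))))
noncomputable def v5_14 : Tr := (U (S (F 1033 (T (V (U (S (F 72 (T (V (F 8 L) (F 8 L)) L)) (T (S (F 12 (T L L)) (T (F 4 L) (F 4 L))) (S (F 72 L) (T (F 64 L) (F 80 L))))) (S (F 72 (T (T (F 8 L) (F 8 L)) L)) (T (S (F 12 (S L L)) (S (F 4 L) (F 4 L))) (S (F 72 L) (F 64 L))))) (F 72 (U (S (T L L) (T (V L L) (V L L))) (S (T L L) (T (V L L) (S L L)))))) (V (F 80 (S (T (S (F 4 L) (F 4 L)) (F 4 L)) (T (S (S (F 4 L) (F 4 L)) (T L (F 4 L))) (S (F 4 L) (F 4 L))))) (F 72 (U (S (T L L) (T (S L L) (S (F 4 L) (F 4 L)))) (S (T L L) (T (S (F 4 L) L) (S (F 4 L) (F 4 L))))))))) v5_12) (S (F 1033 (T (V (S (F 72 (T (U (S (F 8 L) (F 8 L)) (F 8 L)) (S (F 8 L) L)))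 (T (S (F 12 (U L L)) (V (F 4 L) (F 8 L))) (V (S (F 72 L) (F 64 L)) (F 72 (S L L))))) (F 72 (U (S (T L L) (T (V L L) (S L L))) (S (T (F 8 L) L) (T (T L L) (S L L)))))) (V (S (F 88 (T (S L L) L)) (T (V (F 80 L) (F 72 L)) (F 88 (S L L)))) (F 72 (S (T (S L L) (S (F 4 L) (F 4 L))) (T (V L L) (V (F 4 L) L))))))) v5_13))
noncomputable def v5_15 : Tr := (U (V (F 20 (S (T (T (U (S L L) (S (F 8 L) L)) (U (S (F 8 L) L) L)) (U (V (S (F 2 L) L) (F 2 L)) (V (S (F 2 L) (F 2 L)) (F 2 L)))) (T (U (S (T L L) (T L L)) (S (T L L) (T L L))) (U (S (T L L) (T L L)) (S (S L L) (T L L)))))) (S (V (T (S (F 76 L) (F 20 L)) (F 92 (U (S L L) (S L L)))) (F 76 (U (T L (F 4 L)) (S (F 4 L) L)))) (T (V (F 20 (U (S L L) (S L L))) (S (F 4 L) (F 4 L))) (T (F 20 (U (S (F 2 L) L) (S (F 2 L) L))) (F 80 (U (S (F 8 L) L) L)))))) (V (F 20 (S (U (T (V L (S (F 10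 L) (F 8 L))) (U (S (F 10 L) (F 2 L)) (F 2 L))) (T (S (S (F 10 L) (F 8 L)) L) (S (F 10 L) (F 2 L)))) (T (U (S (S L L) (T L L)) (S L (S L L))) (U (S (T L (F 2 L)) (S L L)) (S (S (F 2 L) L) L))))) (S (F 12 (U (T (S (F 10 L) (F 8 L)) (F 10 (T L L))) (T (T (F 2 L) (F 10 L)) (F 10 (S L L))))) (F 20 (T (U (V (S (F 8 L) L) L) (S L L)) (U (S (F 2 L) (T L (F 2 L))) (V (S (F 2 L) (F 2 L)) (F 2 L))))))))
noncomputable def v5_16 : Tr := (V (S (T (U (V (F 5 (S L L)) (F 132 (S L (T (F 32 L) (F 32 L))))) (S (V (F 5 (T L (F 1 L))) (F 132 L)) (F 5 (V L (T (F 1 L) (F 1 L)))))) (U (V (S (V (F 5 L) (F 132 L)) (F 133 (T L (S L L)))) (F 132 (S L L))) (F 132 (S (T L L) (V (T (F 32 L) (S (F 32 L) (F 32 L))) L))))) (F 5 (T (U (S (T L (S (F 1 L) (F 1 L))) (T L L)) (V (S L L) (S (T (F 1 L) (F 1 L)) (T (F 1 L) (F 1 L))))) (U (V (S L L) (T (S (F 1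 L) (F 1 L)) (S (F 1 L) (F 1 L)))) (S (T (V (F 1 L) (F 1 L)) (V (F 1 L) (F 1 L))) (V L (T (F 1 L) (F 1 L)))))))) (S (T (F 132 (U (S (T L L) (T L L)) (S (T L L) (T L L)))) (V (T (F 132 (U L L)) (S (F 128 L) (F 128 L))) (U (S (F 160 L) (F 132 L)) (F 128 L)))) (T (F 132 (U (T (S (V (F 32 L) (F 32 L)) (S (F 32 L) (F 32 L))) (S (V (F 32 L) L) (V (F 32 L) (F 32 L)))) (T (S (V (F 32 L) (F 32 L)) (V (F 32 L) (F 32 L))) (S (V (F 32 L) L) (V (F 32 L) (F 32 L)))))) (V (T (S (F 132 (S L L)) (F 129 (S L L))) (F 129 (U (S L (F 16 L)) L))) (U (S (F 128 L) (F 128 L)) (S (F 128 L) (F 128 L)))))))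
noncomputable def v5_17 : Tr := (V (S (F 132 (T (U (S (V (T (F 32 L) (F 32 L)) L) (T (S (F 32 L) (F 32 L)) (S (F 32 L) (F 32 L)))) (S (V (T (F 32 L) (F 32 L)) L) (T (S (F 32 L) (F 32 L)) (S (F 32 L) (F 32 L))))) (U (S (T L L) (V (T (F 32 L) (F 32 L)) L)) (S (S L L) (V (T (F 32 L) (F 32 L)) L))))) (F 5 (T (U (V (S L L) (S (S (F 1 L) (F 1 L)) (S (F 1 L) (F 1 L)))) (S (T (S (F 1 L) (F 1 L)) (S (F 1 L) (F 1 L))) (V L (S (F 1 L) (F 1 L))))) (U (T (S (S (F 1 L) (F 1 L)) (S (F 1 L) (F 1 L))) (S (V (F 1 L) (F 1 L)) (V (F 1 L) (F 1 L)))) (T (S (S (F 1 L) (F 1 L)) (S (F 1 L) (F 1 L))) (S (S (F 1 L) (F 1 L)) (S (F 1 L) (F 1 L)))))))) (S (T (F 132 (U (S (T L L) (T L L)) (S (S L L) (S L L)))) (U (V (F 132 (S L L)) (F 128 L)) (V (F 132 (S L L)) (F 128 L)))) (T (F 132 (U (S (V (T (F 32 L) (F 32 L)) L) (T (S (F 32 L) (F 32 L)) (V (F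 32 L) (F 32 L)))) (T (S (S (F 32 L) (F 32 L)) (S (F 32 L) (F 32 L))) (S (S L (F 32 L)) (S (F 32 L) (F 32 L)))))) (V (F 129 (U (T (S (F 16 L) (F 16 L)) L) (T (S (F 16 L) (F 16 L)) L))) (U (S (F 132 L) (F 129 L)) (F 128 L))))))
noncomputable def v5_18 : Tr := (U (V (S (T (V (T (S (S (F 132 L) (F 128 L)) (S (F 128 L) (F 129 (T L L)))) (S (F 128 L) (F 128 L))) (U (F 128 L) (F 160 (S L L)))) (F 160 (U (V (S L L) L) (S L (S L L))))) (T (T (U (V (F 5 (S (S (F 1 L) (F 1 L)) L)) (F 129 (S L L))) (F 129 (V (S (S (F 16 L) (F 16 L)) (S (F 16 L) (F 16 L))) (S L (F 16 L))))) (F 129 (U (S (S L L) (S L L)) (S L L)))) (F 129 (T (U (S L L) (S L L)) (U (V (S (F 2 L) (F 2 L)) (S (F 2 L) (F 2 L))) (V (S (F 2 L) (F 2 L)) (F 2 L))))))) (S (F 160 (T (U (S L (S L L)) (S L (S L L))) (S (S L L) (S L L)))) (T (U (S (F 128 L) (F 128 L)) (S (F 128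 L) (F 128 L))) (F 160 (U (S L L) (S L L)))))) (V (S (T (V (S (T (F 132 (S L L)) (F 160 (S L L))) (T (F 133 (U L L)) (F 128 L))) (F 160 (U (S L L) (S (F 8 L) L)))) (F 160 (U (S L L) (S L L)))) (F 129 (T (U (T (V (S (F 16 L) (F 16 L)) L) (S L L)) (T (V (S (F 16 L) (F 16 L)) L) (S L L))) (U (V (T L (S (F 2 L) (F 2 L))) (S (F 2 L) (F 2 L))) (S (T (F 2 L) (F 2 L)) (T L (F 2 L))))))) (S (F 160 (T (U (S L L) (S L L)) (U L L))) (T (S (F 160 (U (S L L) L)) (U (F 128 L) (F 128 L))) (F 160 (U (S L L) L))))))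
noncomputable def v5_19 : Tr := (U (V (F 1033 (S (T (V (T (S (F 4 L) (F 4 L)) L) (S L L)) (V (U (F 16 L) (F 16 L)) (S (F 64 L) L))) (T (V (T (U (F 4 L) (F 20 (S L L))) (S (F 16 L) (F 16 L))) (U (S (F 4 L) L) (S (F 4 L) L))) (U (V (S (F 16 L) (F 16 L)) (S (F 16 L) (F 16 L))) (V (S (F 16 L) (F 16 L)) (S (F 16 L) (F 16 L))))))) (S (T (V (F 1033 (S L L)) (F 1089 (T L (S (F 96 L) (F 64 L))))) (F 1029 (V (S (F 64 L) (F 64 L)) (S (F 72 (S L L)) L)))) (T (V (S (F 1025 L) (F 1025 L)) (S (F 1025 L) (F 1025 L))) (T (S (F 1025 L) (F 1025 L)) (F 1029 (S L L)))))) (V (F 1033 (S (T (U (V (F 4 L) L) (V (F 4 L) (F 4 L))) (U (T (F 16 L) (F 80 (S L L))) (V (F 80 (S (F 8 L) L)) (F 64 L)))) (T (V (U (T (F 20 (S L L)) (F 16 L)) (T (F 20 (S L L)) (F 16 L))) (U L L)) (U (S (S (F 16 L) (F 16 L)) (S (F 16 L) (F 16 L))) (S (F 16 L) (S (F 16 L)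 (F 16 L))))))) (S (T (S (F 1097 (V L (T (F 32 L) (F 32 L)))) (V (F 1033 L) (F 1089 L))) (F 1037 (V (S L L) (U (S (F 8 L) (F 8 L)) (F 8 L))))) (T (U (S (F 1025 L) (F 1025 L)) (S (F 1033 L) (F 1025 L))) (V (S (F 1037 (S L L)) (F 1057 L)) (F 1029 (S L L)))))))
noncomputable def v5_20 : Tr := (S (F 1033 (T (U (V (S (F 72 (T (V (F 8 L) (F 8 L)) L)) (T (S (T (F 12 L) (F 72 L)) (T (F 4 L) (F 4 L))) (S (F 72 (S L L)) (S (F 64 L) (F 64 L))))) (F 72 (S (T (S (F 8 L) L) (S L L)) (T (U (S L L) (S (F 8 L) L)) (U (S L L) (S L L)))))) (V (S (F 76 (U (T L L) (S L L))) (T (F 12 (U (S (F 2 L) L) (S (F 2 L) L))) (F 72 (U L L)))) (F 72 (S (T (S (F 8 L) L) L) (T (U L L) (U L L)))))) (U (V (S (F 88 (U L L)) (T (V (F 80 L) (F 72 L)) (F 88 (S L L)))) (F 72 (S (T (S L L) L) (T (S L L) (S (F 4 L) (F 4 L)))))) (F 72 (V (S (T (F 4 L) (F 4 L)) (T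 (U (F 4 L) (F 4 L)) (F 4 L))) (S (T L L) (T (S L L) (S (F 4 L) (F 4 L))))))))) (T v5_19 (F 1029 (U (V (F 80 (S (T (U (S L L) (S L L)) (S L L)) (T (U (S (S L L) (S L L)) (S L (S L L))) (S L L)))) (S (T (V (S (F 72 L) (F 80 L)) (F 72 (S L L))) (F 88 (U (S (F 2 L) L) L))) (T (V (T (F 16 L) (F 80 L)) (S (F 64 L) (F 16 L))) (F 112 (U (S L L) (S L L)))))) (F 80 (V (S (T (U (S (F 4 L) L) L) (S (F 4 L) L)) (T (U (S L L) (S L L)) (U L (F 2 L)))) (S (U (T (S (F 4 L) L) (F 4 L)) (T (S (F 4 L) (F 4 L)) (F 6 (S L L)))) (T (U (S L L) (S L L)) (U (F 2 L) (F 2 L))))))))))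
noncomputable def v5_21 : Tr := (U (V (U (S (T v5_6 (F 1065 (V (U (S (T (F 36 (V (S L (S L L)) (S (F 4 L) L))) (S (F 32 L) (F 32 L))) (T (V (S (T (F 4 L) (F 36 L)) (T (F 4 L) (F 32 L))) (S (F 32 L) (F 32 L))) (V (S (F 32 L) (F 32 L)) (S (F 36 L) (F 32 L))))) (S (T (F 36 (V (S L (S L L)) (S (F 4 L) L))) (S (F 40 L) (F 32 L))) (T (V (S (F 36 (T L L)) (S (F 4 L) (F 4 L))) (S (F 32 L) (F 32 L))) (V (S (F 32 L) (F 32 L)) (F 32 L))))) (U (S (F 40 (T (S (F 4 L) L) L)) (T (V (S (F 36 L) (F 32 L)) (F 32 L)) (S (F 40 L) (F 32 L)))) (S (F 40 (T (S (F 4 L) L) L)) (T (V (S (F 36 L) (F 32 L)) (F 32 L)) (S (F 40 L) (F 32 L)))))))) (F 1064 (T v5_7 v5_8))) v5_11) v5_14) (V (S (F 1033 (T v5_15 (U (V (S (F 80 (T (U (V (S (F 12 L) (F 8 L)) (F 8 L)) (S (F 8 L) (F 8 L))) (S L L))) (T (V (T (F 20 (S (S (F 2 L) L) (S L L))) (F 80 (S L L))) (F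 80 (U L L))) (F 80 (U (S L L) (S L L))))) (F 80 (S (T (U (F 4 L) (F 4 L)) (F 4 L)) (T (U (S (F 4 L) L) (S (F 4 L) L)) (S L L))))) (F 80 (V (S (T (U (S (F 12 L) (F 8 L)) (F 8 L)) (S (F 4 L) L)) (T (U (S (S (F 8 L) (F 8 L)) (T (S (F 8 L) (F 8 L)) (F 8 L))) (S (F 8 L) (T (F 8 L) (F 8 L)))) (U (S (F 8 L) L) L))) (S (U (S (F 12 L) (F 4 L)) (F 4 L)) (T (U L L) (S (F 4 L) L)))))))) (F 1064 (T (U v5_16 v5_17) v5_18))) v5_20))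
noncomputable def v5_22 : Tr := (U (S (T (V (U (S (T L (F 8 L)) (T (S L L) (S (F 16 L) L))) (S (T L (F 8 L)) (T (S L L) L))) (S (S (F 8 L) (F 8 L)) (T (S (F 8 L) L) (F 8 L)))) (V (S (T (F 8 L) (F 24 L)) (T (S (F 16 L) (F 16 L)) (F 16 L))) (F 24 (S L L)))) (T (V (U (S (T (V (S L L) L) (S L L)) (T (V (T (S (F 1 L) (F 1 L)) (S (F 1 L) (F 1 L))) (S (F 1 L) (F 1 L))) (S (F 1 L) (T (F 1 L) (F 17 L))))) (S (T (S L (S L L)) (S (F 16 L) (F 16 L))) (T (V (S (S (F 1 L) (F 1 L)) (S (F 1 L) (F 1 L))) (S (F 1 L) (F 1 L))) (V (F 17 (S L L)) (F 16 L))))) (U (S (T (S (F 16 L) L) (F 16 L)) (T (S L L) (F 16 L))) (S (T L (F 16 L)) (T (S (F 16 L) (F 16 L)) (F 16 L))))) (V (S (T (S (F 16 L) (F 16 L)) (F 16 L)) (T (S (F 16 L) (F 17 L)) (F 17 (S L L)))) (S (S (F 24 L) (F 16 L)) (S (F 16 L) (F 16 L)))))) (S (T (V (U (S (S (F 8 L) L) (T (S L L)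 L)) (S (S (F 8 L) L) (T (S L L) L))) (S (S (F 8 L) (F 8 L)) (T L (F 8 L)))) (V (S (F 24 (S L L)) (S (F 16 L) (F 16 L))) (F 24 (S L L)))) (T (V (U (S (T (S L L) L) (T (V (T (S (F 1 L) (F 1 L)) (F 1 L)) (S (F 1 L) (F 1 L))) (T (F 1 L) (F 17 (S L L))))) (S (T (S L L) L) (T (V (S (F 1 L) (F 1 L)) L) (S (F 16 L) (F 17 L))))) (S (T (S L L) (S (F 16 L) (F 16 L))) (T (S L L) (S (F 16 L) (F 16 L))))) (V (S (T (S (F 16 L) (F 16 L)) (F 16 L)) (T (S (F 16 L) (F 17 L)) (F 17 L))) (S (F 16 L) (S (F 16 L) (F 16 L)))))))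
noncomputable def v5_23 : Tr := (S (T (U (V (S (T (S (F 8 L) L) L) (T (S L L) L)) (S (S (F 8 L) (F 8 L)) (S (F 8 L) L))) (S (V (T L (F 8 L)) (F 8 L)) (V (U (S L L) L) (S (F 8 L) (F 16 L))))) (U (V (S (F 24 (S L L)) (S (F 16 L) (F 16 L))) (F 24 (S L L))) (V (S (F 24 L) (F 16 L)) (F 24 (S L L))))) (T (U (V (S (T (V (S L L) L) (S (F 16 L) (F 16 L))) (T (V (S (S L L) (U (F 1 L) (F 1 L))) (S L L)) (V (F 17 (U L L)) (F 16 L)))) (S (T (S (F 16 L) (F 16 L)) (F 16 L)) (T (V L (F 16 L)) (F 16 L)))) (V (S (T (S L L) (S (F 16 L) (F 16 L))) (T (S (S L L) (U (F 1 L) (F 17 (S L L)))) (F 17 (U (S L L) L)))) (S (T L (F 16 L)) (U (S (F 16 L) (F 16 L)) (S (F 16 L) (F 16 L)))))) (U (V (S (S (F 16 L) (F 16 L)) (S (F 16 L) (F 16 L))) (S (F 16 L) (F 16 L))) (V (S (S (F 16 L) (F 16 L)) (S (F 16 L) (F 17 L))) (S (F 24 L) (F 16 L))))))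
noncomputable def v5_24 : Tr := (U (V v5_22 (U (S (T (V (S (S (F 8 L) (F 8 L)) (S (F 8 L) (F 8 L))) (S (V (F 8 L) (T (F 8 L) (F 24 L))) (T (S (F 8 L) (F 8 L)) (F 24 (S L L))))) (F 24 (V (S L L) (S (T (S L L) L) (S L L))))) (T (V (S (T L (F 24 (S L L))) (T (S (F 16 L) (F 16 L)) (F 16 L))) (S (F 24 (T (V (S L L) (S L L)) (S L L))) (T (V (F 16 L) (F 24 (S L L))) (F 24 (S L L))))) (F 24 (V (S L (S L L)) (S (S L L) (S L L)))))) (S (T (V (S (S (F 24 L) (F 8 L)) (T (F 8 L) (F 24 L))) (S (T (S (F 8 L) (F 8 L)) (F 24 (S L L))) (T (S (F 8 L) (F 24 L)) (F 24 L)))) (F 24 (V (S L L) (S (T L L) (S L L))))) (T (V (S (T L (F 24 L)) (T (S (F 16 L) (F 16 L)) (F 16 L))) (S (F 24 (T (U (S L L) L) L)) (T (S (F 16 L) (F 16 L)) (F 24 (S L L))))) (V (S (F 24 L) (F 16 L)) (F 24 (S L (S L L)))))))) (V v5_23 (S (T (U (V (S (F 8 L) (F 24 (S L L)))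 (S (T (F 8 L) (F 24 L)) (F 24 (U L L)))) (S (V (F 24 (S L L)) (T (F 8 L) (F 24 L))) (F 24 (V (S L L) (S L L))))) (F 24 (U (S (V L (S L L)) (V L L)) (S (S L L) (S L L))))) (T (U (V (S (T (F 16 L) (F 24 L)) (S (F 16 L) (F 16 L))) (S (F 24 (U (S L L) L)) (T (S (F 16 L) (F 16 L)) (F 24 L)))) (S (V (S (F 24 L) (F 16 L)) (F 24 (S L L))) (V (S (F 16 L) (F 16 L)) (T (F 16 L) (F 24 L))))) (F 24 (U (V (S L L) (S L L)) (S (S L L) (V L L))))))))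
noncomputable def v5_25 : Tr := (T (V (U (S (F 12 (U (T (V L L) (S (F 1 L) L)) (F 1 (T L L)))) (T (V (F 12 (U (S L (U (T L L) L)) (S (F 1 L) L))) (U (T (F 4 L) (F 12 (S L L))) (F 12 (S (F 1 L) L)))) (F 12 (U (S (T L L) (U (T L L) L)) (T L L))))) (F 44 (U (S L (T L L)) (F 1 L)))) (U (S (T (U (S (F 4 L) (F 4 L)) (F 36 L)) (U (V (F 4 L) (S (F 36 L) (F 4 L))) (F 36 (T L (F 2 L))))) (T (U (V (S (F 12 L) (F 4 L)) (U (S (F 6 L) (F 4 L)) (F 4 L))) (V (F 4 L) (F 4 L))) (V (F 12 (U (U (S L L) L) L)) (U (S (S (F 4 L) (F 4 L)) L) (S (F 36 L) (F 4 L)))))) (F 36 (U (T (S (F 6 L) L) (F 2 (S (F 2 L) L))) (F 7 L))))) (V (U (S (U (T (F 12 L) (F 56 (S (F 1 L) L))) (F 60 L)) (U (T (S (F 12 L) (S (F 8 L) (F 8 L))) (F 56 (S L L))) (F 56 (S (F 1 (S L L)) (S L L))))) (F 60 (S L L))) (U (S (U (T (F 36 (V (F 2 (S L L)) (U (T L (F 2 (S L L))) (F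 2 L)))) (F 56 (U (S (F 1 (S L L)) L) (F 1 L)))) (F 44 (T L (F 1 L)))) (U (T (V (F 8 L) (F 24 (U (S L L) L))) (F 56 (S (S L L) L))) (F 56 (S (S (F 1 L) L) L)))) (F 60 (S L L)))))
noncomputable def v5_26 : Tr := (T (V (U (S (U (T (F 12 (S (S (F 2 L) (F 2 L)) L)) (F 36 (S (F 4 L) L))) (F 44 (T (V L L) L))) (T (U (U (F 4 L) (F 5 (S L L))) (T (F 5 (S L L)) (F 4 L))) (U (S (F 36 (S L L)) (F 4 L)) (F 36 (S L L))))) (S (F 44 (U (T L L) L)) (T (F 5 (U L (S (F 10 L) (F 1 L)))) (F 36 (U L (F 16 L)))))) (U (U (S (F 44 (T (S L L) L)) (T (S (F 12 L) (F 4 L)) (F 36 (V L L)))) (S (F 44 (T L L)) (T (T (F 12 L) (F 36 L)) (F 36 (S (F 4 L) L))))) (U (S (F 44 (S L L)) (T (F 12 (S (F 2 L) L)) (F 36 (S (F 4 L) L)))) (F 44 (T (S (F 1 L) L) L))))) (V (U (S (F 36 (U (S (S (F 4 L) (F 4 L)) (S L L)) (T (F 4 L) (F 4 L)))) (T (F 36 (U (S L (S L L))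 (S L L))) (S (F 32 L) (F 32 L)))) (F 36 (S (T (F 4 L) (F 4 L)) (U (S L L) L)))) (U (S (F 44 (U (S L L) L)) (T (S (F 32 L) (F 32 L)) (F 32 L))) (F 44 (U (T (S L L) L) (S (F 1 L) L))))))
noncomputable def v5_27 : Tr := (V (U (U (S (T (F 5 (U (S (S L L) (S L L)) (S L L))) (V (F 5 (U (S L L) L)) (S (F 4 L) (F 4 L)))) (F 5 (T (U (S (S L L) L) (S L L)) (S (T L L) (T L L))))) (F 5 (S (T (S (S L L) (S L L)) (U (S L L) (S L L))) (T (S (S L L) (S L L)) (U (S L L) (S L L)))))) (F 5 (U (S (T (S L L) (S L L)) (T (S L L) (S L L))) (S (T (S (F 1 L) (F 1 L)) (S (F 2 L) (F 2 L))) (T (S (F 1 L) (F 1 L)) (S (F 1 L) (F 1 L))))))) (U (S (T (U (U (S (F 4 L) (F 4 L)) (F 4 L)) (U (F 4 L) (F 5 (S L L)))) (U (V (S (F 36 L) (F 4 L)) (S (F 36 L) (F 4 L))) (S (F 36 (S L L)) (F 4 L)))) (U (T (F 5 (U (S (S L L) (S L L)) (S (S L L) L))) (V (S (F 4 L)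 (F 5 (S L L))) L)) (T (F 5 (U (S L L) (S L L))) (S (T (F 5 L) (F 1 L)) (F 5 (T L L)))))) (S (T (U (V (F 5 (S L L)) (F 4 L)) (F 5 L)) (U (T (F 4 L) (F 36 L)) (F 36 L))) (F 5 (U (T (U (S L L) L) (U (S L L) L)) (T (S L L) L))))))
noncomputable def v5_28 : Tr := (U (S v5_26 (T v5_27 (V (U (U (S (T (S (F 36 (T L L)) (T (F 5 (S L L)) (F 33 L))) (F 32 L)) (T (V (F 5 (U (S L L) L)) (F 1 L)) (F 33 (U (S L L) L)))) (S (T (S (F 36 L) (T (F 5 L) (F 33 L))) (F 32 L)) (T (S (T (F 5 L) (F 33 L)) (F 5 (S L L))) (F 33 (S L L))))) (U (S (T (F 36 (S L (S (F 16 L) (F 16 L)))) (F 33 L)) (T (F 5 (T L (S (F 2 L) (F 2 L)))) (F 33 L))) (F 33 (S (S (F 8 L) (F 8 L)) (T (F 8 L) (F 2 L)))))) (U (S (T (U (S (F 32 L) (F 32 L)) (F 32 L)) (S (F 32 L) (F 32 L))) (T (U (T (S (F 32 L) (F 1 L)) (F 32 L)) (S (F 32 L) (F 33 (S L L)))) (S (F 32 L) (F 32 L))))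 (S (U (F 32 L) (F 36 L)) (T (F 33 (U (S L L) L)) (F 48 (S L L)))))))) (U (S (F 36 (T (U (V (T (V (F 17 (S (F 2 L) L)) (F 5 L)) (F 5 L)) (S (F 5 L) (F 4 L))) (F 5 (V (F 1 L) L))) (U (V (F 5 (S L L)) (F 4 L)) (F 5 L)))) (T (F 5 (T (U (S (S (F 1 L) (F 1 L)) (S (F 1 L) (F 1 L))) (F 3 (S L L))) (U (V (S (F 3 L) (F 1 L)) (S (F 2 L) (S (F 2 L) (F 2 L)))) (F 3 (S L L))))) (U (S (F 36 (V (F 17 (S L L)) (F 2 L))) (F 33 (T (V (F 9 L) (F 8 L)) (F 3 L)))) (F 101 (S (T L (F 1 L)) (F 1 (S (S L L) L))))))) (F 109 (U (S L (T L (F 1 (S L L)))) (F 1 L)))))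
noncomputable def v5_29 : Tr := (V (F 1033 (U (S (T (U (S (F 4 L) (F 4 L)) (V (F 20 L) (F 4 L))) (F 80 (U (V L L) (S L L)))) (T (U (T (V (F 20 L) (F 4 L)) (S (F 16 L) (F 16 L))) (S (F 20 (T L L)) (V (F 21 (T L L)) (F 16 L)))) (U (S (S (F 80 L) (F 16 L)) (F 16 L)) (S (F 80 (S L L)) (F 16 L))))) (S (U (T (S (F 12 (S (F 2 L) (F 8 L))) (F 20 L)) (F 80 L)) (F 20 (T (T (F 8 L) (F 2 L)) (S (F 10 L) (F 2 L))))) (T (F 20 (U (S (S L L) (V (S (F 32 L) (F 32 L)) L)) (V (S (F 32 L) (F 32 L)) L))) (F 80 (U (S L L) L)))))) (U (S (F 1097 (U (T (T L (S (F 32 L) (F 32 L))) (V (F 32 L) (F 32 L))) (T (V (F 32 L) (F 32 L)) (S (F 40 L) (F 32 L))))) (T (U (S (F 1033 L) (F 1025 L)) (F 1033 (S L L))) (F 1037 (U (V (S (F 16 L) (F 16 L)) L) (T L (S (F 16 L) (F 16 L))))))) (F 1033 (T (S (F 72 (U (S (F 8 L) L) (S (F 8 L) L))) (U (S (F 64 L) L) (F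 64 L))) (S (F 72 (U L (F 4 L))) (F 80 (U (S L L) L)))))))
noncomputable def v5_30 : Tr := (S (F 1033 (T (V (U (S (F 76 (U L L)) (T (F 12 (U (T L (F 2 L)) (S (F 2 L) (F 2 L)))) (S (F 72 L) (V (F 80 L) (F 72 L))))) (F 76 (S (S L L) (U (T L (S (F 4 L) (F 4 L))) (T (F 4 L) (F 4 L)))))) (F 72 (U (U (T (S (F 8 L) (S (F 8 L) (F 8 L))) (S (F 8 L) L)) (S (F 8 L) (T (F 8 L) L))) (U (S (F 8 L) (T (F 8 L) (F 8 L))) (S (F 12 L) (F 8 L)))))) (F 72 (V (U (S (S (F 4 L) (F 4 L)) (U (S (F 4 L) (F 4 L)) (F 4 L))) (S (F 4 L) (S (F 4 L) (F 4 L)))) (U (S (T L (F 4 L)) (T (S (F 4 L) L) (F 4 L))) (S (F 4 L) (T (F 4 L) (F 6 L)))))))) (T v5_29 (F 1069 (V (U (S (T (U L L) L) (T (U (S L L) L) (S (F 16 L) (F 16 L)))) (T (S L (U L (F 16 L))) (S (F 16 L) (F 16 L)))) (U (S (T (U (S (F 8 L) (F 8 L)) (F 8 L)) (F 24 (U L L))) (T (U (T L (F 16 L)) (S (F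 16 L) (F 16 L))) (S (F 16 L) (F 16 L)))) (U (S (T (F 8 L) (F 24 L)) (T (F 16 L) (F 24 L))) (F 24 (S L (S L L)))))))))
noncomputable def v5_31 : Tr := (V (U (S (T (V (U (S (S (F 8 L) (F 8 L)) (T L (F 16 L))) (S (F 24 L) (F 16 L))) (U (S (F 24 L) (S (F 24 L) (F 16 L))) (F 24 (S (F 1 L) L)))) (F 24 (U (S L (S L L)) (F 1 (S L L))))) (T (V (U (S (T (S L L) (F 16 L)) (U (S (F 16 L) (F 17 (T L L))) (F 17 (S L L)))) (S (F 16 L) (F 17 (T L (F 1 L))))) (U (S (S (F 16 L) (F 16 L)) (S (F 16 L) (F 16 L))) (S (F 16 L) (F 16 L)))) (U (S (S (F 16 L) (F 16 L)) (S (F 16 L) (F 16 L))) (F 48 (S L L))))) (F 48 (U (S (F 1 (S (F 4 L) L)) (S (F 1 (S L L)) (F 8 (S L L)))) (F 11 L)))) (U (S (F 24 (U (T (S (V L L) (V L L)) (F 1 (S L L))) (U (V L (F 1 (S L L))) (F 1 (S L L))))) (T (V (U (S (F 24 (S L L)) (S (F 16 L) (F 16 L))) (S (F 24 L) (F 16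 L))) (U (S (F 24 (S L L)) (S (F 24 L) (F 16 L))) (F 24 (S L L)))) (F 24 (U (V L L) (F 1 (S L L)))))) (F 56 (U (S L (S L L)) (F 1 L)))))
noncomputable def v5_32 : Tr := (U (S (T (F 1033 (U v5_1 v5_2)) (F 77 (U v5_4 (V (F 17 (S (T (U (S (S (F 4 L) (F 4 L)) (S (F 4 L) L)) (V (F 4 L) (F 4 L))) (U (S (S L L) L) (S (F 4 L) (F 2 L)))) (T (U (V (S L (S L L)) (S (F 4 L) L)) (S (S L L) (U L L))) (U (S (S (F 2 L) (F 2 L)) (S (F 2 L) (F 2 L))) (S (F 2 L) (F 2 L)))))) v5_5)))) (T v5_21 (F 1069 v5_24))) (S (F 1101 v5_25) (T (V (F 1065 v5_28) (U v5_30 (F 1033 (S (F 72 (U (T (U (V (F 12 (S (F 8 L) L)) (F 8 L)) (F 12 L)) (S (F 5 (S (F 4 L) (F 8 L))) (F 6 (S L L)))) (F 13 (T L (F 4 L))))) (T (V (F 20 (U (S (U (T (S (F 10 L) (F 2 L)) (F 10 L)) (F 10 L)) (U (T (S (F 32 L) (F 32 L)) (F 2 L)) (F 34 (S L L)))) (F 42 (U (U L (F 4 L)) (F 6 L)))))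 (U (U (T (S (F 76 L) (S (F 76 L) (F 80 L))) (F 88 (U (S (F 4 L) L) (S (F 4 L) (F 2 L))))) (F 80 (S (F 12 L) (T (S (F 12 L) (F 8 L)) (F 6 L))))) (F 124 (U L (F 1 (S (F 2 L) (F 1 L))))))) (F 112 (U (U (S (S (F 2 L) (F 2 L)) (T L (F 2 L))) (S (F 3 L) (F 2 L))) (F 3 (S (F 4 L) L))))))))) (F 1069 v5_31))))
noncomputable def treeV5 : Tr := (F 0x7ffffffffffffffffffffffffffffffffffffffffffffffffff3ffffffff3e7cfffc7ffff v5_32)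

theorem pV5 : chkV par treeV5 192 64 320 64 128 128 374491 748983 Lc = true := by decide +kernel

noncomputable def v6_0 : Tr := (T (F 76 (V (T (F 34 (V L (S L L))) (S (V (F 34 L) (F 2 L)) (F 34 (V (S L L) (U (S L L) L))))) (U (S (V (T (F 2 L) L) (T L L)) (V (T (F 34 (S L L)) (S (F 2 L) (S (F 32 L) (F 32 L)))) (T (S L L) (S L L)))) (V (S (T (F 34 L) (F 2 L)) (T (F 34 (S L L)) (S (F 2 L) (F 2 L)))) (S (T (F 2 L) L) (T L (S L L))))))) (V (U (S (F 204 (T (V (F 16 L) (S L L)) (U (K 3) (T (S L L) (K 3))))) (V (F 193 (T (F 8 L) (S (F 8 L) L))) (T (F 196 (S (T (F 40 L) (F 8 L)) (S (F 32 L) (F 32 L)))) (V (S (F 200 L) (F 193 L)) (S (F 76 L) (F 65 L)))))) (S (T (F 204 (V (F 16 L) L)) (V (F 200 L) (F 76 (V (S (F 2 L) (F 2 L)) L)))) (V (F 193 (T (F 8 L) L)) (T (S (F 204 L) (F 193 L)) (T (S (F 204 L) (F 193 L)) (F 192 L)))))) (U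 (S (F 76 (V (T L (S L L)) (T L (S (F 1 L) L)))) (T (V (S (F 76 L) (F 68 L)) (S (F 76 L) (S (F 76 L) (F 68 L)))) (V (S (F 76 (T L L)) (T (F 68 L) (F 68 L))) (F 76 (S (S L L) (T L L)))))) (S (F 76 (T (V L L) (V (S (F 1 L) L) (S (F 5 L) (F 1 L))))) (T (F 76 (V (V L (S L L)) (V (S L L) L))) (V (S (F 76 (T L L)) (S (F 68 L) (F 68 L))) (S (F 76 L) (S (F 76 L) (F 68 L)))))))))
noncomputable def v6_1 : Tr := (U (S (T (V (F 69 (T (S L L) (S L L))) (S (S (F 68 L) (F 68 L)) (T (F 69 (S L L)) (F 68 L)))) (V (S (T (F 68 L) (F 68 L)) (T (F 69 (S L L)) (F 65 L))) (S (T (F 68 L) (F 68 L)) (T (F 68 L) (F 100 (V L L)))))) (T (V (S (F 69 (T L L)) (F 193 (S L L))) (F 69 (T (S (S L L) L) (S (S L L) (S L L))))) (V (S (S (F 65 L) (F 65 L)) (S (F 65 L) (F 65 L))) (S (V (F 69 (T L L)) (F 100 (T L L))) (V (T (F 69 L) (F 97 L)) (F 101 (T (S L L)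 (S L L)))))))) (S (T (V (F 69 (T (S L L) (S L L))) (S (S (F 68 L) (F 68 L)) (S (F 68 L) (F 68 L)))) (V (S (S (F 68 L) (F 64 L)) (T (F 65 L) (F 65 L))) (S (S (F 68 L) (F 68 L)) (T (F 68 L) (F 100 (V L L)))))) (T (V (S (S (F 69 L) (F 193 L)) (F 193 (S L L))) (F 69 (T (S L L) (S (S L L) (S L L))))) (V (S (S (F 65 L) (F 65 L)) (F 65 L)) (S (T (S (F 100 L) (F 69 L)) (V (F 97 L) (F 100 L))) (V (T (F 69 L) (F 97 L)) (S (F 100 (S L L)) (F 97 (S L L)))))))))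
noncomputable def v6_2 : Tr := (T (V (F 193 (U (T (S (F 24 (S L L)) (V (F 8 L) (F 16 L))) (S (V (F 8 L) (F 16 L)) (S L L))) (T (S (F 24 (S L L)) (S (F 16 L) (F 16 L))) (S (S (F 16 L) (F 16 L)) (S L L))))) (U (S (V (F 69 (T (S (F 18 L) (F 2 L)) (V (S (F 2 L) (F 2 L)) L))) (T (F 69 (S (T (F 16 L) (F 16 L)) L)) (T (S (F 76 L) (F 69 L)) (S (F 76 L) (F 69 L))))) (F 69 (T (V (S (F 2 L) (F 2 L)) (S (S L L) (S L L))) (V (T (S (F 2 L) (F 2 L)) (S (F 2 L) (F 2 L))) (T (S L L) (S L L)))))) (S (V (F 69 (T (S (F 18 L) (F 2 L)) (V (S (F 2 L) (F 2 L)) L))) (T (F 69 (S (S (F 16 L) (F 16 L)) L)) (S (F 76 (S L L)) (F 69 (T L L))))) (F 69 (T (V (S (F 2 L) (F 2 L)) (T (S (F 2 L) (F 2 L)) L)) (V (T (S (F 2 L) (F 2 L)) (S (F 2 L) (F 2 L))) (T (S L L) (S L L)))))))) (V (F 193 (U (S (T (S (S L L) (S L L)) (V L (S (T L L) (S L L)))) (T (S (S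 L L) (S L L)) (V L (S L L)))) (S (T (S L L) (V L (S (S L L) L))) (T (S L L) (V L (S L L)))))) v6_1))
noncomputable def v6_3 : Tr := (T (V (F 193 (T (S (F 24 (U (S L L) L)) (S L L)) (S (S L (S L L)) (U (S L L) L)))) (U (S (T (V (F 205 (S L L)) (S (F 76 L) (F 69 (S (F 16 L) L)))) (V (F 197 (S L (S L L))) (T (F 69 L) (F 68 L)))) (T (F 69 (V (S (F 2 L) (F 2 L)) (V (S (F 2 L) (F 2 L)) (S L L)))) (V (F 193 (S (S (F 16 L) (F 16 L)) L)) (F 69 (T (S L L) (S L L)))))) (S (T (F 76 (V (F 34 L) (V (F 34 (S L L)) L))) (V (F 197 (S L L)) (S (F 76 L) (F 68 L)))) (T (F 69 (V (F 2 L) (V (S (F 2 L) (F 2 L)) L))) (V (F 193 (S (F 16 L) L)) (F 69 (S (S L L) (S L L)))))))) (V (F 193 (U (S (T (S L L) (V L (S (S L L) L))) (T (S L L) (S (S L L) L))) (S (T (S L L) (V L (S L L))) (T (S L L) (S L L))))) (U (S (T (V (S (F 68 L) (S (F 69 L) (F 193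 L))) (S (F 68 L) (S (F 68 L) (F 68 L)))) (V (S (F 64 L) (S (F 65 L) (F 65 L))) (S (S (F 68 L) (F 68 L)) (T (F 68 L) (F 68 L))))) (T (V (V (F 193 (S L L)) (F 65 L)) (F 69 (T (S L L) (S (S L L) (S L L))))) (V (S (S (F 65 L) (F 65 L)) (F 65 L)) (S (T (F 68 L) (S (F 96 L) (F 96 L))) (T (F 65 L) (S (F 96 L) (F 97 L))))))) (S (T (V (S (F 196 L) (F 193 L)) (S (F 68 L) (F 68 L))) (V (S (F 192 L) (F 64 L)) (S (F 68 L) (S (F 68 L) (F 68 L))))) (T (V (F 193 (S L L)) (S (T (F 69 L) (F 68 L)) (F 69 (T L (S L L))))) (V (F 193 (S (T L L) (S L L))) (V (S (F 96 L) (F 65 L)) (S (S (F 68 L) (F 96 L)) (F 96 L)))))))))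
noncomputable def v6_4 : Tr := (U (S v6_0 v6_2) (S (T (F 76 (V (F 34 (T (U (S L L) L) (U (S (S L L) (V L L)) (S L (S L L))))) (U (S (V (S (F 2 L) (F 2 L)) (S (F 2 L) L)) (V (T (F 34 L) (S (F 2 L) (F 2 L))) (T L (S (F 2 L) L)))) (S (V (F 2 L) L) (T (V (F 34 L) (F 2 L)) (V (F 2 L) L)))))) (V (U (S (F 200 (V (S L L) (T (F 8 L) (S (F 8 L) L)))) (T (F 193 (S (S (F 8 L) (F 8 L)) L)) (V (F 193 L) (S (F 200 L) (F 192 L))))) (S (F 200 (V L (T (F 8 L) (S (F 8 L) (F 8 L))))) (T (F 193 (S (F 8 L) L)) (V (F 193 L) (S (F 200 L) (F 193 L)))))) (U (S (F 76 (T (T L L) (V L (F 1 L)))) (T (F 76 (V (S L L) (S L L))) (V (S (F 76 (S L L)) (S (F 68 L) (F 68 L))) (F 76 (T L (S (F 1 L) L)))))) (V (S (F 76 (T (F 2 L) L)) (T (F 76 (T (F 2 L) L)) (S (F 76 L) (F 68 L)))) (F 76 (S (T (F 1 L) (F 1 L)) (T (S (F 1 L) L) (S (F 1 L) L)))))))) v6_3))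
noncomputable def v6_5 : Tr := (V (U (S (T (V (S (F 76 (S L L)) (T (F 69 L) (F 68 L))) (F 76 (S (S L L) (V L L)))) (V (S (S (F 76 L) (F 68 L)) (S (F 68 L) (F 68 L))) (S (F 76 (T L (F 4 L))) (F 100 (T L L))))) (T (V (S (F 69 (T L (S L L))) (T (F 5 L) (F 5 L))) (S (S (F 68 L) (F 68 L)) (T (F 5 L) (F 37 (S L L))))) (V (S (T (F 69 (S L L)) (F 68 L)) (F 69 (T (S L L) (S L L)))) (S (F 100 (T (S L L) (S L L))) (T (S (F 100 L) (F 37 L)) (F 100 (S L L))))))) (S (T (V (S (F 76 (S L L)) (S (F 76 L) (F 68 L))) (F 76 (S L (T L L)))) (V (S (S (F 76 L) (F 68 L)) (S (F 68 L) (F 68 L))) (S (F 76 L) (T (F 76 L) (F 100 L))))) (T (V (F 69 (S (T L L) (T L L))) (S (S (F 68 L) (F 68 L)) (S (F 5 L) (F 5 L)))) (V (S (S (F 68 L) (F 68 L)) (F 69 (T (S L L) (S L L)))) (S (V (F 68 L) (F 100 (S L L))) (F 100 (T (S L L) (S L L)))))))) (U (S (F 108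 (T (V (S (S L L) (V (T L L) L)) (S (F 1 L) (V L (F 1 L)))) (V (S (S (F 1 L) (F 1 L)) (T L L)) (S (F 1 L) (F 1 L))))) (T (S (V (T (F 36 L) (F 100 L)) (T (F 44 L) (F 356 (S (F 4 L) L)))) (V (S (F 36 L) (F 36 L)) (F 36 L))) (V (S (F 100 (T L L)) (T (F 36 L) (F 100 L))) (F 100 (T (S (F 1 L) L) (S (F 9 L) (F 1 L))))))) (S (F 76 (T (V (V L (S (F 5 L) (F 4 L))) (F 5 (T (S L L) L))) (V (S (F 5 L) (V (F 4 L) (F 5 L))) (F 5 L)))) (T (S (V (T (F 44 L) (F 100 L)) (F 292 (T (F 8 L) (S (F 10 L) (F 2 L))))) (V (S (F 36 L) (F 36 L)) (F 36 L))) (F 100 (V (S (S L L) (T L L)) (T (S (F 9 L) (F 1 L)) (S (F 9 L) (F 1 L)))))))))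
noncomputable def v6_6 : Tr := (V (U (S (T (V (S (F 68 L) (V (F 68 L) (F 100 (S L L)))) (F 100 (S (T (F 8 L) (F 8 L)) (S L L)))) (F 100 (V (S (T L L) (T (S L L) (S L L))) (S (S (F 9 L) (F 1 L)) (S (F 1 L) L))))) (T (V (S (V (F 68 L) (F 100 (S L L))) (V (F 69 (T L (S (F 4 L) (F 4 L)))) (F 100 (S L L)))) (F 100 (S (T L L) (T (S L L) (S L L))))) (F 100 (V (S (T (S L L) (S L L)) (T (S L L) (S L L))) (S (T L L) (T L L)))))) (S (T (V (S (F 68 L) (V (F 68 L) (F 100 L))) (F 100 (S (T (F 8 L) (F 9 L)) (S L L)))) (F 100 (V (S (S L L) (T L L)) (S (F 9 (S L L)) (T (F 1 L) (F 1 L)))))) (T (V (S (T (F 68 L) (F 100 (S L L))) (T (V (F 69 L) (F 100 L)) (F 100 (S L L)))) (F 100 (S (T L L) (T (S L L) L)))) (F 100 (V (S (T (S L L) (S L L)) (T (S L L) (S L L))) (S (S L L) (T L L))))))) (F 100 (U (S (F 9 (T (V (T (S L L) L) L) (V (S L L) L)))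 (T (V (S (T (F 1 L) (F 1 L)) (S L L)) (S (F 9 L) (S (F 1 L) (F 1 L)))) (V (S (F 1 L) (T (F 1 L) (F 1 L))) (S (F 9 L) (F 1 L))))) (S (F 9 (T (V (T (S L L) L) L) (T L L))) (T (V (S (S (F 1 L) (F 1 L)) (S L L)) (S (F 9 L) (F 1 L))) (V (S (F 1 L) (T (F 1 L) (F 1 L))) (F 1 L)))))))
noncomputable def v6_7 : Tr := (V (U (S (T (F 76 (V (V L (S L L)) (S L (T L L)))) (V (S (F 76 (S L L)) (F 68 L)) (S (F 76 L) (S (F 76 L) (F 100 L))))) (T (V (F 69 (T (S L L) (S L L))) (S (S (F 68 L) (F 68 L)) (S (F 68 L) (F 5 L)))) (V (S (S (F 68 L) (F 68 L)) (V (F 69 (S L L)) (F 68 L))) (S (T (F 68 L) (F 100 L)) (F 100 (T (S L L) (S L L))))))) (S (T (F 76 (V (T L L) (T L L))) (V (S (F 76 L) (F 68 L)) (F 76 (S (F 1 L) L)))) (T (V (F 69 (S (S L L) (T L L))) (S (F 68 L) (F 4 L))) (V (S (F 68 L) (F 69 (T L (S L L)))) (V (S (F 68 L) (F 68 L)) (F 100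 (S L (S L L)))))))) (U (S (F 76 (T (V (V L (S (F 5 L) (F 4 L))) (F 5 (T L L))) (V (S (F 5 L) (T (F 4 L) (F 5 L))) (F 5 L)))) (V (T (T (S (F 44 L) (F 36 L)) (S (F 100 L) (F 36 L))) (F 100 (S L (T L L)))) (T (S (F 300 (T L (S (F 2 L) (F 2 L)))) (F 36 L)) (F 356 (T (S (F 4 L) L) L))))) (S (F 76 (T (V (S (F 1 L) (S (F 4 L) (F 4 L))) (F 5 (S L L))) (F 5 (V (U (S L L) L) L)))) (T (S (V (T (F 44 L) (F 100 L)) (F 300 (T L (F 2 L)))) (V (F 36 L) (F 292 L))) (F 100 (V (S (S (F 1 L) L) (S L L)) (S (F 9 L) (F 1 L))))))))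
noncomputable def v6_8 : Tr := (V (U (S (V (T (T (F 68 L) (F 68 L)) (F 100 (S L (T L L)))) (F 100 (T (S (S (F 9 L) (F 8 L)) L) (S (F 9 L) (S (F 1 L) (F 1 L)))))) (T (V (T (S (F 68 L) (F 68 L)) (V (F 68 L) (F 100 (S L L)))) (F 100 (S (T L L) (T L L)))) (F 100 (V (S (T (S L L) (S L L)) (T (S L L) (S L L))) (S (T L (F 1 L)) (T L L)))))) (S (T (V (S (F 76 L) (F 68 L)) (F 100 (S (F 9 (S L L)) (S (F 1 L) L)))) (F 100 (V (S (S (F 1 L) L) (S L L)) (S (F 9 L) (F 1 L))))) (T (V (T (S (F 68 L) (F 68 L)) (V (F 68 L) (F 100 (S L L)))) (F 100 (S (S L L) (T L L)))) (F 100 (V (S (T L L) (T (S L L) (S L L))) (S (T (F 1 L) (F 1 L)) (S L L))))))) (F 100 (U (S (F 9 (T (T (S L L) L) (S L L))) (T (V (S (F 1 L) (T L (F 1 L))) (S (F 9 L) (F 1 L))) (V (S (F 1 L) (S (F 1 L) (F 1 L))) (F 1 L)))) (S (F 9 (T (S L L) L)) (T (V (S (F 1 L) (T (F 1 L)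 (F 1 L))) (F 1 L)) (S (F 1 L) (T (F 1 L) (F 1 L))))))))
noncomputable def v6_9 : Tr := (U (S (F 76 (T (V (U (S (V (T L (F 1 L)) (S (F 1 L) (F 1 L))) (V (T (S L L) (S L L)) (T (S (F 1 L) L) (S (F 5 L) (F 4 L))))) (V (S (S (F 1 L) L) (T (S L L) (S (F 1 L) L))) (S (S (F 5 L) (F 1 L)) (T L (S (F 5 L) (F 4 L)))))) (S (F 5 (T (S L L) L)) (T (V (T (S (F 5 L) (F 4 L)) (V (F 1 L) (F 5 L))) (F 5 (S L L))) (F 5 (U (S L L) L))))) (V (U (S (V (T (F 1 L) (F 5 L)) (F 5 L)) (V (T (S (F 4 L) L) (S (F 5 (S L L)) (T (F 4 L) (F 4 L)))) (F 5 (T (T L L) L)))) (S (T (T (F 1 L) (F 5 L)) (F 5 (S L L))) (V (T (S (F 1 L) L) (V L (F 5 (S L L)))) (F 5 (T (S L L) L))))) (F 5 (S (S L L) (T (S L L) L)))))) (T v6_5 v6_6)) (S (F 76 (T (V (S (T (V (F 1 L) (F 1 L)) (V (F 1 L) (F 5 L))) (V (T (T L L) (U L L)) (T (S (F 1 L) L) (U (F 1 L) (F 1 L))))) (S (F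 5 (T L L)) (T (V (S (F 5 L) (F 1 L)) (F 5 L)) (F 5 (U L L))))) (V (S (T (S (F 5 L) (F 1 L)) (V (F 1 L) (F 5 L))) (T (V (U L (S (F 5 L) (F 1 L))) (V (F 1 L) (F 5 L))) (V (U (V (F 1 L) (F 5 L)) (T (F 1 L) (F 5 L))) (F 5 (S L L))))) (F 5 (S L (T (S L L) L)))))) (T v6_7 v6_8)))
noncomputable def v6_10 : Tr := (U (V (F 193 (S (T (U L L) (V (S L L) (U (S L L) L))) (T (U L L) (V L (U L L))))) (S (T (T (V (S (F 196 L) (F 193 L)) (S (F 68 L) (F 68 L))) (V (S (F 192 L) (F 192 L)) (S (F 68 L) (F 68 L)))) (V (U (S (F 192 L) (F 192 L)) (F 192 L)) (U (S (F 68 L) (F 68 L)) (S (F 76 L) (F 68 L))))) (T (V (F 193 (U (S L L) (S L L))) (U (S (F 68 L) (S (F 65 L) (F 65 L))) (S (F 68 L) (S (F 65 L) (F 193 L))))) (V (F 193 (U (S (S L L) L) (S L L))) (U (S (S (F 96 L) (F 96 L)) (T (F 65 L) (F 96 L))) (S (F 96 L) (F 96 L))))))) (V (F 193 (T (S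 (S L L) (S L L)) (S (U L L) (U L L)))) (S (V (T (S (F 200 L) (F 192 L)) (S (F 192 L) (F 192 L))) (T (F 196 (U (S (F 8 L) L) (F 8 L))) (S (F 332 (U L (F 1 L))) (T (F 196 L) (F 448 L))))) (T (U (V (F 193 L) (S (F 196 L) (F 193 L))) (F 193 (S (S L L) L))) (V (F 193 (U (S L L) L)) (U (T (F 192 L) (F 224 (S L L))) (F 224 (S L L))))))))
noncomputable def v6_11 : Tr := (T (U (V (F 193 (S (T (S (F 24 L) (F 8 L)) (U (F 8 L) (F 8 L))) (T (S (F 8 L) L) (S L L)))) (S (T (F 204 (U (V (F 16 L) (V (S (F 16 L) (F 16 L)) L)) (V (F 16 L) (T (F 16 L) L)))) (V (F 197 (U (T (F 8 L) L) (S (F 8 L) L))) (U (S (F 76 L) (F 196 L)) (F 196 (S (F 8 L) L))))) (F 69 (T (U (V (F 2 L) (U (F 2 L) (F 2 L))) (U (S (F 2 L) (F 2 L)) (F 2 L))) (U (V (S (F 2 L) (F 2 L)) (V (S (F 2 L) (S (F 2 L) (F 2 L))) (S L L))) (V (S (F 2 L) (F 2 L)) (T (S (F 2 L) (F 2 L))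 (S (F 2 L) (F 2 L))))))))) (V (F 193 (T (S (F 24 (S L L)) (S (F 8 L) (F 8 L))) (S (S (F 8 L) (F 8 L)) (S L L)))) (F 196 (U (T (S (F 40 (U L L)) (S (F 32 L) (F 32 L))) (S (S (F 8 L) (S (F 32 L) (F 32 L))) (V (F 32 L) (U (S (F 32 L) (F 32 L)) (F 32 L))))) (T (S (F 40 L) (S (F 40 L) (F 32 L))) (S (V (F 40 L) (F 8 L)) (U (S (F 32 L) (F 32 L)) (F 32 L)))))))) v6_10)
noncomputable def v6_12 : Tr := (V (S (T (F 76 (U (V (S L L) (S (F 1 L) L)) (V L L))) (V (U (S (F 76 L) (F 68 L)) (F 76 (S (F 1 L) L))) (F 76 (U (S (F 1 L) L) (S (F 1 L) (F 1 L)))))) (T (V (U (S (S (F 76 L) (F 69 L)) (F 69 (S L L))) (F 69 (S L (S L L)))) (U (T (F 68 L) (F 68 L)) (S (F 76 (S L L)) (F 68 L)))) (V (U (T (F 69 (S L L)) (F 68 L)) (T (F 69 (S L L)) (F 68 L))) (U (T (F 68 L) (F 100 (S L L))) (T (F 68 L) (F 100 (S L L))))))) (S (F 332 (T (U (V (T L (S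 (F 2 L) (F 2 L))) (F 2 L)) (V L (F 2 L))) (U (U (S (F 2 L) (F 2 L)) (F 2 L)) (S (F 2 L) (F 2 L))))) (U (T (S (F 76 (V (T L (F 4 L)) (F 5 (T L L)))) (V (F 36 L) (F 292 L))) (F 100 (V (S (F 1 L) L) (S (F 9 L) (F 1 L))))) (T (V (S (F 108 (U L (S (F 1 L) L))) (S (F 100 L) (F 36 L))) (F 292 (S (F 10 (S L L)) (T (F 8 L) (F 2 L))))) (F 100 (V (S (F 1 L) (T L (F 1 L))) (S (F 9 L) (F 1 L))))))))
noncomputable def v6_13 : Tr := (U (V (S (T (V (S (F 76 (U L (F 1 L))) (T (F 68 L) (F 68 L))) (F 356 (U (S (F 4 L) L) (S (F 4 L) L)))) (F 100 (S (U (V (F 1 L) (F 9 L)) (F 9 (U (T L L) L))) (U (V L (F 1 L)) (T (S (F 1 L) (F 1 L)) (S (F 1 L) (F 1 L))))))) (V (T (S (U (F 68 L) (F 68 L)) (U (T (F 68 L) (F 100 (S L L))) (F 100 (T L L)))) (F 100 (U (S (T L L) (T (S L L) (S L L))) (S (S L L) (T L L))))) (F 100 (T (U (S L (S L L)) (S (T (F 1 L)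 (F 1 L)) (S L L))) (U (S (S (F 1 L) (F 1 L)) (T L (F 1 L))) (S (F 1 L) (T (F 1 L) (F 1 L)))))))) (F 356 (S (T (U (S (F 4 L) (F 4 L)) (F 4 L)) (U (F 4 L) (F 4 L))) (T (T (U (S L L) (S (F 4 L) L)) (U (S (F 4 L) L) L)) (U (T (S (F 4 L) L) L) (S (F 4 L) L)))))) (V (S (F 324 (T (U (V (S (F 8 L) L) (F 10 (S L L))) (V (F 8 L) (F 10 L))) (U (S (F 10 (S L L)) (S (F 2 L) (F 2 L))) (F 10 (T L L))))) (U (T (V (T (F 68 L) (F 100 (S L L))) (F 356 (S L (T L L)))) (F 100 (V (S (T (F 1 L) (F 1 L)) (S L L)) (T (F 1 L) (F 1 L))))) (F 100 (T (S (T (F 1 L) (F 1 L)) (V L (F 1 L))) (V (S (F 1 L) (T (F 1 L) (F 1 L))) (F 1 L)))))) (F 356 (S (U (T (F 4 L) (F 4 L)) (F 4 L)) (U (T (S (F 4 L) L) (S (F 4 L) L)) (T (S (F 4 L) L) (S (F 4 L) L)))))))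
noncomputable def v6_14 : Tr := (S (F 76 (T (U (V (S (T (F 1 L) (F 1 L)) (T (V L (S (F 1 L) (F 1 L))) (U (T (F 1 L) (F 1 L)) (F 1 L)))) (S (F 5 (S L L)) (T (V (F 1 L) (F 5 L)) (F 5 (S L L))))) (V (S (F 3 (T L L)) (V (F 3 (T L (S L L))) (S (F 1 L) (F 1 L)))) (F 5 (U (S (F 8 L) L) L)))) (U (V (S (T (F 1 L) (F 5 L)) (T (V (T (F 1 L) (F 1 L)) (F 5 (S L L))) (F 5 (U (T L L) (S L L))))) (F 5 (S L (T L L)))) (V (S (F 5 (S (F 8 L) L)) (T (T (F 1 L) (F 5 L)) (F 5 (T L L)))) (F 5 (S (F 8 L) L)))))) (T (U v6_12 (V (S (F 76 (U (V (T (F 2 L) L) (T (F 1 L) (F 1 L))) (V (T (F 2 L) (S (F 3 L) (F 2 L))) (S (F 1 L) (F 1 L))))) (T (V (F 196 (S (U (S (F 8 L) L) (F 8 L)) (U (T (F 32 L) (F 32 L)) (F 32 L)))) (U (S (F 76 L) (F 68 L)) (F 76 L))) (U (V (F 68 L) (F 100 (T L L))) (V (F 196 L) (F 324 (T L (F 2 L))))))) (S (F 332 (U (T (V L (F 2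 L)) (F 2 L)) (T (F 2 L) (F 2 L)))) (U (T (V (V (F 76 L) (F 356 (S (S (F 4 L) (F 4 L)) L))) (F 364 (U (S L L) (S L L)))) (F 356 (S (T (F 4 L) (F 4 L)) (T L L)))) (F 100 (T (V (V (S (F 9 L) (F 8 L)) (F 9 (U (S L L) L))) (F 9 (T L L))) (S (F 9 L) (F 1 L)))))))) v6_13))
noncomputable def v6_15 : Tr := (T (V (U (F 137 (S (K 5) (T (V (T (S (K 5) L) (K 5)) (K 5)) (K 5)))) (S (V (F 152 (T (S L L) (T (S (K 4) L) (K 4)))) (T (S (F 28 L) (F 24 L)) (U (K 1) (S (F 28 L) (F 24 L))))) (T (V (F 137 (S (S L L) L)) (S (F 8 L) (F 8 L))) (V (S (S (F 136 L) (F 136 L)) (F 137 (T L L))) (U (K 1) (S (F 8 L) (F 8 L))))))) (U (S (F 284 (V (K 3) (T (T L (K 3)) (K 3)))) (T (U (K 1) (V (S (K 1) (S (K 1) (F 12 L))) (F 76 (S (S (F 8 L) (F 8 L)) (S L L))))) (K 1))) (S (F 28 (V (T (T L L) (U (K 4) (T (F 1 L) (V (F 1 L) (F 5 L))))) (F 5 (T (T L L) (S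 L L))))) (T (V (S (T (F 28 L) (F 12 L)) (T (F 12 L) (F 12 L))) (S (F 28 (V L (F 5 (S L L)))) (F 76 (T L L)))) (V (S (T (F 12 L) (F 76 (S L L))) (T (S (F 72 L) (F 72 L)) (F 72 L))) (F 76 (S (F 9 (T (S L L) L)) (V (S L L) (F 1 L))))))))) (V (U (K 1) (S (K 1) (T (U (K 1) (S (K 1) (V (F 200 (S L L)) (S (K 1) (F 72 L))))) (K 1)))) (U (K 1) (S (F 348 (V (K 2) (T L (K 2)))) (U (K 1) (T (V (F 328 (S (K 4) (T L (K 4)))) (F 340 (S (F 4 L) L))) (K 1)))))))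
noncomputable def v6_16 : Tr := (U (S (T (V (U (K 1) (S (F 8 L) (T (F 9 L) (F 72 L)))) (F 76 (S (U (K 4) (T L L)) (U (K 4) (T (S L L) (S L L)))))) (F 509 (S (K 0) (K 0)))) (T (V (S (T (S (F 9 L) (F 73 L)) (F 73 (V L L))) (F 73 (T (S L L) (S L L)))) (S (V (S (F 72 L) (F 72 L)) (F 76 (T L L))) (T (V (F 73 L) (F 76 (S L (F 32 L)))) (V (F 73 L) (F 72 L))))) (V (S (U (K 1) (V (F 73 (S L L)) (F 72 L))) (F 73 (T (S L L) (S L L)))) (U (K 1) (S (T (F 72 L) (K 1)) (T (F 73 (S L L)) (F 65 L))))))) (S (T (V (S (S (F 8 L) (F 8 L)) (T (F 8 L) (S (F 72 L) (F 72 L)))) (S (F 76 (T (S L L) (S L L))) (V (S (F 72 L) (F 72 L)) (F 76 (T L L))))) (V (S (T (S (F 72 L) (F 72 L)) (S (F 72 L) (F 72 L))) (T (S (F 72 L) (F 72 L)) (S (F 72 L) (F 72 L)))) (S (V (F 72 L) (F 76 (T L (F 1 L)))) (T (V (F 72 L) (F 76 L)) (F 64 L))))) (T (V (S (T (F 9 L)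 (F 73 (V L L))) (F 73 (T (S L L) (S L L)))) (S (T (V (F 72 L) (F 76 L)) (S (F 72 L) (F 72 L))) (V (F 73 (T L L)) (S (F 72 L) (F 72 L))))) (V (S (V (S (F 72 L) (F 73 L)) (S (F 72 L) (F 72 L))) (F 73 (T (S L L) (S L L)))) (S (T (S (F 72 L) (F 72 L)) (F 64 L)) (T (S (F 72 L) (F 72 L)) (F 64 L)))))))
noncomputable def v6_17 : Tr := (T (V (U (S (T (V (F 137 (S L L)) (S (T (F 9 L) (F 9 L)) (T (F 137 L) (F 9 L)))) (S (K 1) (V (F 137 L) (T (F 9 L) (K 1))))) (T (V (F 137 (S L (F 2 L))) (S (F 137 (T L L)) (F 73 (V (F 2 L) L)))) (F 73 (V (S (F 2 L) (F 2 L)) (S (T L L) (T L L)))))) (S (T (V (F 137 (S L L)) (V (F 137 (S L L)) (S (F 9 L) (F 9 L)))) (V (F 137 (S (S L L) L)) (S (T (F 9 L) (S (F 72 L) (F 72 L))) (T (F 9 L) (F 73 (S L L)))))) (T (F 137 (V L (S (S L L) L))) (F 73 (V (S (F 2 L) (F 2 L)) (S (T L L) (T (F 2 L) L))))))) v6_16)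 (V (U (F 73 (S (K 5) (T (V (F 6 (S (T L L) L)) (S (K 5) (T L (S (K 5) (F 4 L))))) (F 6 (V (S (K 0) L) (K 0)))))) (S (T (V (F 201 (S (U (K 4) (S L L)) (V (F 2 L) (S L L)))) (S (T (F 72 L) (F 72 L)) (V (F 73 (S L L)) (F 72 L)))) (F 97 (U (K 5) (V (F 10 (S (V L (K 0)) (S L L))) (S (K 5) L))))) (V (F 233 (T (S (S L L) L) (S (S L L) L))) (T (F 73 (S (T L L) (T (F 2 L) (F 4 L)))) (F 97 (S (S L L) L)))))) (U (S (K 1) (T (V (S (K 1) (S (K 1) (F 65 L))) (K 1)) (K 1))) (S (T (V (U (K 1) (T (S (F 72 L) (F 72 L)) (F 64 L))) (S (S (F 324 L) (F 320 L)) (S (F 320 L) (F 320 L)))) (S (K 1) (T (V (F 320 L) (F 324 L)) (K 1)))) (T (V (S (S (F 64 L) (F 64 L)) (T (F 65 L) (F 65 L))) (S (T (F 64 L) (F 320 L)) (S (F 64 L) (F 64 L)))) (V (S (S (F 96 L) (F 96 L)) (F 97 (S L L))) (F 352 (S (S L L) (S L L)))))))))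
noncomputable def v6_18 : Tr := (V (U (S (T (V (F 152 (S L L)) (V (F 152 L) (F 28 L))) (V (F 152 (S L (S L L))) (S (F 280 L) (F 24 L)))) (T (V (F 137 (S L L)) (V (S (F 152 L) (F 136 L)) (F 8 L))) (V (S (F 136 L) (F 137 (S L L))) (S (F 8 L) (F 8 L))))) (S (F 152 (T (V L (S (F 8 L) L)) (V (S L L) (S (F 1 L) L)))) (T (V (S (F 152 L) (F 137 L)) (S (F 136 L) (F 136 L))) (V (S (F 136 L) (F 137 L)) (S (F 136 L) (F 136 L)))))) (U (S (T (F 28 (V (S (F 1 L) L) (F 1 L))) (F 280 (V (S (F 8 L) (V L (F 10 (T L L)))) (F 10 (S L L))))) (T (V (S (S (F 28 L) (F 12 L)) (F 8 L)) (T (S (F 284 L) (F 76 L)) (F 76 (S (F 9 (S L L)) L)))) (V (S (T (F 28 L) (F 328 L)) (T (F 72 L) (F 72 L))) (F 332 (S (T (F 4 L) (F 4 L)) (T (S L L) L)))))) (S (F 284 (T (V (T L L) (F 2 L)) (V (V L (S (F 2 L) (F 2 L))) (F 2 L)))) (T (V (S (F 28 (S L L)) (F 8 L)) (T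 (F 28 (S (F 5 L) L)) (F 332 (S (F 4 L) L)))) (V (S (F 88 (V L (F 1 L))) (F 72 L)) (F 332 (S (T (F 4 L) (F 4 L)) (T L L))))))))
noncomputable def v6_19 : Tr := (V (U (S (V (T (S (F 152 L) (S (F 152 L) (F 200 L))) (F 248 (U (K 2) (T (S (K 2) L) (K 2))))) (F 88 (T (S (S (F 1 L) (F 1 L)) (V L (S (F 1 L) (F 1 L)))) (U (K 4) (F 1 L))))) (T (V (V (F 136 L) (F 200 (S (S L L) L))) (S (S (F 72 L) (F 72 L)) (S (F 72 L) (F 72 L)))) (V (F 232 (S (U (K 3) L) (U (S L L) L))) (F 352 (S (S L L) (S L L)))))) (S (V (T (F 152 (S (F 1 L) L)) (F 456 (S (T (F 2 L) (F 3 L)) (T L (F 1 L))))) (F 280 (T (T L (S (F 3 L) (F 2 L))) (S (F 3 L) (F 2 L))))) (T (V (F 200 (S L L)) (S (F 328 (S L L)) (S (F 200 L) (F 72 L)))) (V (F 232 (S (T L (F 1 L)) L)) (F 352 (S (F 4 L) L)))))) (U (S (F 344 (V (T (S (F 4 L) (S L L)) (S (F 4 L) L)) (T (F 4 L) (F 4 L))))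 (V (T (F 328 (S (V L (F 4 L)) (T (S L L) L))) (S (F 336 L) (F 352 L))) (F 324 (T (S (F 4 L) (S (F 4 L) L)) (S (F 6 L) (F 4 L)))))) (S (F 344 (V (T (S (F 4 L) L) L) (S (F 4 L) (F 4 L)))) (V (T (F 328 (S (S (F 4 L) L) (S L L))) (F 352 (S (F 2 L) L))) (F 340 (T (S (F 4 L) L) L))))))
noncomputable def v6_20 : Tr := (U (S (T (V (S (F 8 L) (T (F 9 L) (S (F 72 L) (F 72 L)))) (S (F 76 (T (S L L) (S L L))) (V (S (F 72 L) (F 72 L)) (S (F 76 L) (F 72 L))))) (V (S (T (S (F 72 L) (F 72 L)) (F 72 L)) (T (S (F 72 L) (F 72 L)) (S (F 72 L) (F 72 L)))) (S (V (F 72 L) (F 328 (S (F 8 L) L))) (T (F 72 L) (F 72 L))))) (T (S (V (V (F 9 L) (F 72 L)) (T (F 72 L) (F 72 L))) (V (F 73 (T L (S L L))) (T (F 73 (V L L)) (F 72 L)))) (V (S (T (S (F 72 L) (F 73 L)) (F 72 L)) (F 73 (T (S L L) (S L L)))) (S (T (S (F 72 L) (F 72 L)) (F 72 L)) (T (F 72 L)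 (F 72 L)))))) (S (T (V (S (F 8 L) (S (F 72 L) (F 72 L))) (S (F 76 (T L L)) (S (F 72 L) (F 72 L)))) (V (S (S (F 72 L) (F 72 L)) (S (F 72 L) (F 72 L))) (S (F 328 (T L L)) (T (F 72 L) (F 320 L))))) (T (V (S (T (F 9 L) (F 72 L)) (F 73 (T L L))) (S (T (F 72 L) (F 72 L)) (T (F 72 L) (F 72 L)))) (V (S (S (F 72 L) (F 72 L)) (F 73 (T L L))) (S (S (F 72 L) (F 72 L)) (S (F 72 L) (F 72 L)))))))
noncomputable def v6_21 : Tr := (V (U (S (V (F 200 (T (S (T (F 32 L) (F 32 L)) (V (F 34 L) (F 32 L))) (S (V (F 34 (S L L)) (F 2 L)) (F 34 (T L L))))) (T (S (S (F 72 L) (F 72 L)) (V (F 73 L) (F 72 L))) (S (F 96 L) (F 96 L)))) (V (F 233 (T (S (S L L) L) (S L L))) (T (F 73 (S (T L L) (T (F 2 L) (F 4 L)))) (F 97 (S L (F 2 L)))))) (S (V (F 200 (T (S (V (F 34 (S L L)) L) (F 34 (T L L))) (S (F 2 L) (F 34 (S L L))))) (T (F 200 (S (T L L) (S L L)))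 (F 224 (S (S (F 1 L) (F 1 L)) L)))) (V (F 233 (T (S L L) (S L L))) (T (F 73 (S (V (S (F 2 L) (F 6 L)) L) (V (F 6 L) (F 4 L)))) (F 225 (S (S L L) L)))))) (U (S (T (V (S (T (F 72 L) (F 320 L)) (S (F 64 L) (F 64 L))) (S (F 320 L) (S (F 320 L) (F 320 L)))) (F 352 (V (S (S L L) (S L L)) (S L L)))) (T (S (V (F 64 L) (S (F 320 L) (F 320 L))) (V (S (F 65 L) (F 65 L)) (F 64 L))) (V (S (F 352 (S L L)) (F 97 (S L L))) (F 352 (S L L))))) (S (T (V (T (S (F 72 L) (F 72 L)) (S (F 328 L) (F 320 L))) (S (F 320 L) (F 320 L))) (F 352 (V (S L L) (S (F 2 L) L)))) (T (V (S (F 64 L) (F 65 L)) (S (F 320 L) (F 320 L))) (F 352 (V (S L L) (S L L)))))))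
noncomputable def v6_22 : Tr := (V (U (S (T (F 76 (V (S (T L (F 1 L)) (T (S L L) L)) (S (F 9 L) (S (F 1 L) (F 1 L))))) (F 324 (V (U (K 4) (S (F 8 L) L)) (S (F 12 L) (F 4 L))))) (T (V (F 76 (S (T (S L L) (S L L)) (T (S L L) (V L L)))) (S (F 76 (V L (F 1 L))) (T (F 76 L) (F 324 L)))) (V (S (T (F 68 L) (F 324 (S (K 4) L))) (T (F 68 L) (F 68 L))) (F 324 (S L (S L L)))))) (S (T (F 76 (V (S (T (F 1 L) (F 1 L)) (T L L)) (S (F 9 L) (F 1 L)))) (F 324 (V (S (S (F 8 L) (F 8 L)) (S L L)) (S (F 12 L) (F 4 L))))) (T (V (F 76 (S (T (S L L) (S L L)) (T (S L L) (V L L)))) (S (F 332 (T L L)) (T (F 76 L) (F 324 L)))) (S (V (T (F 68 L) (F 324 L)) (F 324 L)) (V (T (F 68 L) (F 68 L)) (F 324 L)))))) (F 324 (U (S (T (S (F 12 L) (F 4 L)) (F 4 L)) (S (T (S (F 4 L) (F 4 L)) (F 4 L)) (T (S L L) L))) (S (T (F 12 (S L L)) (F 4 L)) (T (S (F 4 L) L)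 (S (F 4 L) L))))))
noncomputable def v6_23 : Tr := (T (V (U (S (T (F 76 (V (S (T (F 1 L) (F 1 L)) (T L (S (F 1 L) (F 1 L)))) (S (F 9 L) (F 1 L)))) (F 324 (V (S (S (F 8 L) (F 8 L)) (S L L)) (F 4 L)))) (T (V (F 76 (S (T (S L L) (S L L)) (T (S L L) (S L L)))) (F 324 (T (S (F 8 L) (S (F 8 L) (F 8 L))) (S (F 8 L) L)))) (S (F 324 (V (T L L) L)) (V (T (F 68 L) (F 324 (S L L))) (F 324 L))))) (S (T (F 76 (V (S (S (F 1 L) (F 1 L)) (V L (F 1 L))) (S (F 9 L) (F 1 L)))) (F 324 (V (S (F 8 L) L) (F 4 L)))) (T (V (S (F 76 (T L (S (F 1 L) L))) (V (F 72 L) (F 76 (S L L)))) (F 324 (T (S (F 8 L) (S (F 8 L) (F 8 L))) L))) (S (F 324 (T (S L L) L)) (V (F 320 L) (F 324 L)))))) (F 324 (S (T (S (F 12 L) (F 4 L)) (F 4 L)) (T (S L (T L L)) (T (S (F 4 L) L) L))))) (V (U (S (F 324 (V (T (S (F 4 L) L) (S (F 6 L) (F 2 L))) (S (F 6 L) (F 4 L)))) (T (V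 (S (F 324 L) (F 320 L)) (F 324 L)) (F 356 (V (S L L) L)))) (S (F 324 (V (T L (F 4 L)) (F 4 L))) (T (F 324 (V (S L L) L)) (F 352 (V L (F 8 L)))))) (F 324 (S (S (F 4 L) (F 4 L)) (T (S (F 4 L) L) (F 6 (S L L)))))))
noncomputable def v6_24 : Tr := (U (S (F 340 (T (V (S (V (T (S (F 4 L) (F 4 L)) (F 4 L)) (S (F 4 L) (F 4 L))) (V (T (U (S (F 4 L) (T (F 4 L) (F 4 L))) (T (S (F 4 L) (F 4 L)) (S (F 4 L) (F 4 L)))) (U (F 23 (S (K 0) (K 0))) (T (F 4 L) (F 4 L)))) (T (S (F 4 L) (F 4 L)) (S (F 4 L) (F 4 L))))) (S (F 4 L) (T (F 4 L) (F 4 L)))) (V (S (T (S (F 4 L) (F 4 L)) L) (V (U (K 3) (S L L)) (S L L))) (S L L)))) (T v6_22 (F 324 (V (U (S (F 47 (S (K 0) (K 0))) (T (U (K 4) (V (S (K 4) (S (K 4) L)) L)) (K 4))) (S (T (V (S (F 4 L) L) (F 4 L)) (S (F 4 L) (F 4 L))) (T (V (S (S L L) (S L L)) (S (F 4 L) L)) (V (S (F 2 L) (F 2 L)) (F 2 L)))))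 (S (S (F 4 L) (F 4 L)) (V (S (F 4 L) L) (F 4 L))))))) (S (F 340 (T (V (S (V (T (F 4 L) (F 4 L)) (F 4 L)) (T (V (U (T (F 4 L) (F 4 L)) (S (F 4 L) (F 4 L))) (S (F 4 L) (F 4 L))) (V (U (S (F 4 L) (F 4 L)) (S (F 4 L) (F 4 L))) (F 4 L)))) (S (F 4 L) (T (F 4 L) (F 4 L)))) (V (S (T (S (F 4 L) (F 4 L)) L) (T (U L L) (S L L))) (S (F 4 L) L)))) v6_23))
noncomputable def v6_25 : Tr := (T (U (V (U (S (F 152 (T (T L L) (V L (S (F 1 L) (F 1 L))))) (T (T (F 136 L) (S (F 136 L) (F 136 L))) (V (F 136 L) (S (F 152 L) (F 136 L))))) (S (F 152 (T (S (F 1 L) L) (V (F 1 L) (F 1 L)))) (T (S (F 152 L) (F 136 L)) (S (F 392 L) (F 136 L))))) (S (F 280 (T (U (S (F 10 L) (F 8 L)) (F 9 (T L L))) (S (F 10 (T L L)) (V (S (F 2 L) (F 2 L)) (F 10 L))))) (V (T (U (F 24 L) (F 392 (S (F 4 L) L))) (F 328 (S (U (S (F 4 L) (F 4 L)) (F 4 L)) (U (S L L) L)))) (U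 (F 268 (T (T (F 8 L) (S (F 10 L) (F 2 L))) (S (F 10 L) (T (F 2 L) (F 2 L))))) (F 280 (T (V (F 8 L) (F 10 L)) (S (F 10 L) (F 2 L)))))))) (V (S (F 408 (U (T L L) L)) (T (U (S (F 408 L) (F 137 L)) (F 408 L)) (F 392 (V L (S (F 4 L) (F 1 L)))))) (S (F 412 (U (T L (F 1 (S L L))) (F 1 (S L L)))) (U (V (F 392 (T (F 4 L) (S (F 5 L) (F 1 L)))) (F 348 (T L L))) (F 472 (V (T L L) (F 2 (T L L)))))))) (U (V (S (F 408 (U (T (V (S (F 1 L) L) (T L (S (F 1 L) (F 1 L)))) (V (T (F 1 L) (F 3 L)) (T (F 1 L) (F 3 (S L L))))) (T (V (F 1 L) (F 1 L)) (F 3 (V L L))))) (T (F 200 (U (V (S L L) (S (F 1 L) (S (F 1 L) L))) (V (S (F 1 L) (F 2 L)) (S (F 5 L) (F 1 L))))) (F 480 (U (V (S (F 2 L) (F 2 L)) (S (F 2 L) L)) (V (F 2 L) (S (F 3 L) (F 2 L))))))) (S (F 344 (V (U (S (F 4 L) L) (F 1 L)) (T (F 4 L) (F 4 L)))) (V (T (F 328 (S (V (F 4 L) (F 4 L)) (S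 L L))) (F 352 (S (F 2 L) L))) (F 336 (S (V (S (F 4 L) (F 4 L)) (F 8 L)) (S L L)))))) (V (F 456 (S (U (T (F 2 L) (F 3 L)) (F 3 L)) (U (S (T (F 2 L) (F 3 L)) (V (F 1 L) (F 1 L))) (S (F 3 L) (F 1 L))))) (F 336 (S (F 5 (V (F 8 (S L L)) (F 4 L))) (U (T (V (F 5 L) (F 12 L)) (F 3 (S (F 8 L) L))) (F 5 (T L (F 8 L)))))))))
noncomputable def v6_26 : Tr := (V (S (T (V (F 137 (S L L)) (S (S (F 136 L) (F 136 L)) (V (F 137 L) (F 136 L)))) (V (F 137 (U L L)) (F 200 (U (S (S L L) L) (S L L))))) (F 137 (T (V L (U (S L (F 2 L)) L)) (U (V (F 2 L) (S (S (F 2 L) (F 2 L)) (F 2 L))) (S (S (F 2 L) (F 2 L)) (F 2 L)))))) (S (T (V (S (T (F 136 L) (F 8 L)) (U (S (F 72 L) (F 72 L)) (F 200 (S L L)))) (V (U (S (F 76 L) (F 72 L)) (F 72 L)) (S (F 332 (U (S L L) L)) (U (F 72 L) (F 328 L))))) (U (V (S (F 72 L) (F 72 L)) (F 328 (S L (S L L)))) (V (S (F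 328 (S L L)) (F 200 (S L L))) (F 328 (S L L))))) (T (V (S (T (S (F 136 L) (F 136 L)) (U (F 73 L) (F 200 L))) (F 73 (U (V (S (F 2 L) (F 2 L)) L) (T (S (F 2 L) (F 2 L)) (F 2 L))))) (U (S (S (F 72 L) (F 72 L)) (S (F 72 L) (F 72 L))) (S (F 72 L) (F 72 L)))) (V (V (S (F 200 (U L L)) (F 73 (U L (F 2 L)))) (U (S (F 72 L) (F 72 L)) (F 72 L))) (U (S (T (F 72 L) (F 328 L)) (S (F 72 L) (F 72 L))) (V (F 72 L) (F 328 (S L L))))))))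
noncomputable def v6_27 : Tr := (U (V (S (S (U (V (F 232 (T L (F 1 L))) (T (F 200 L) (F 480 L))) (F 200 (V (T (F 2 L) (F 3 L)) (T (F 1 L) (F 3 L))))) (V (F 233 (U (T L L) (S L L))) (T (F 200 (S L L)) (F 480 (S L L))))) (F 224 (U (V (F 36 (T (S L L) L)) (T (S (V (F 36 L) (F 4 L)) (F 36 (S L L))) (S (F 32 L) (F 33 L)))) (V (F 36 (S L L)) (T (S (S (F 4 L) (F 36 L)) (F 36 L)) (F 33 (S L L))))))) (S (V (T (F 328 (U (S L (S L L)) (T L L))) (F 480 (U (S L L) L))) (T (S (F 320 L) (F 320 L)) (F 352 (S L L)))) (V (S (T (T (F 72 L) (F 320 L)) (F 480 (S L L))) (T (T (F 192 L) (F 224 L)) (F 480 (S L L)))) (T (U (S (F 320 L) (F 320 L)) (F 320 L)) (F 352 (S L L)))))) (V (F 224 (S (S (F 5 (U (V L L) L)) (T (V (F 36 L) (F 5 (S L L))) (F 5 L))) (U (V (F 36 L) (T (F 36 (S L L)) (F 33 L))) (F 37 (S (S L L) L))))) (S (T (F 328 (U (V (S (F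 3 L) (F 1 L)) L) (F 1 L))) (F 480 (S L L))) (F 448 (T (S (V (S (F 1 L) (F 1 L)) L) (T L (S (F 1 L) (F 1 L)))) (S (F 1 L) (F 1 L)))))))
noncomputable def v6_28 : Tr := (T (U (V (S (F 324 (U (T (V (S (F 8 L) (T (F 8 L) (F 8 L))) (F 12 (S L L))) (S (S (F 12 L) (F 4 L)) L)) (T (V (T (F 8 L) (F 8 L)) (F 12 (S L L))) (S (S (F 12 L) (F 4 L)) L)))) (T (U (V (F 76 (S (V L (S (F 1 L) (F 1 L))) (T L L))) (F 324 (S (F 8 L) (S (F 8 L) L)))) (V (S (F 328 (V L (F 8 L))) (T (F 76 L) (F 328 L))) (F 332 (S L (S L L))))) (S (F 324 (U (S L L) (S L L))) (V (T (F 320 L) (F 320 L)) (F 324 (S L L)))))) (F 324 (S (T (S (F 12 L) (F 4 L)) (F 4 L)) (T (U L L) (S (F 4 L) L))))) (V (S (F 332 (U (T (S (F 4 L) L) (S (F 4 L) L)) (T (S (F 4 L) (F 4 L)) (S (F 5 L) (F 4 L))))) (U (T (F 328 (V (S (S (F 8 L) (F 8 L)) L) (S (F 8 L) (F 8 L)))) (F 324 (S L L)))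 (F 324 (T (S (F 8 L) (T (F 8 L) (F 8 L))) (S (F 8 L) L))))) (F 324 (S (F 12 (T L L)) (T (S (F 4 L) L) (S (F 4 L) (F 4 L))))))) (U (V (S (F 324 (V (T (S (F 4 L) L) (S (F 6 L) (F 2 L))) (T (F 4 L) (F 6 L)))) (T (V (S (F 320 L) (F 320 L)) (F 324 (S (F 2 L) L))) (F 352 (V (S (F 8 L) L) (F 8 L))))) (F 340 (S L (T (S L L) (F 2 L))))) (F 324 (V (S (T (S (F 4 L) L) (F 6 (S L L))) (T (S L L) (S (F 2 L) (F 2 L)))) (S (F 6 L) (T (F 4 L) (F 6 L)))))))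
noncomputable def v6_29 : Tr := (V (S v6_25 (T (U v6_26 (V (S (T (V (F 137 L) (F 136 L)) (F 200 (V (S (F 32 L) (F 32 L)) (U L (F 1 L))))) (F 137 (T (S (S L L) (U (F 2 L) (F 2 L))) (S (U (F 2 L) (F 6 L)) (V (F 6 L) (F 2 L)))))) (S (T (U (V (F 200 (S L L)) (F 328 L)) (F 456 (V (S L L) L))) (F 328 (U (V (S (F 1 L) (S (F 1 L) (F 1 L))) L) (S (F 1 L) (F 1 L))))) (T (V (F 200 (S (T L L) (U (S (F 32 L) (F 32 L)) (F 32 L)))) (U (S (F 328 L) (F 72 L)) (F 456 (S L (S L L))))) (U (V (F 200 (S L L)) (F 328 (S L L))) (F 456 (S (S L L) (S L L)))))))) v6_27)) (S (F 340 (T (U (V (S (T (F 4 L) (F 4 L)) (U (T (S (F 4 L) (F 4 L)) (S (F 4 L) (F 4 L))) (T (F 4 L) (F 4 L)))) (T (F 4 L) (S (F 4 L) (F 4 L)))) (V (S (S (F 5 L) (F 4 L)) (T (S (F 4 L) (F 4 L)) (F 4 L))) (S (F 5 L) (F 4 L)))) (U (S (V (T (F 4 L) (F 4 L)) (F 4 L)) (V (U L L) L))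 (V (U (S (F 5 L) (F 4 L)) (F 5 L)) (F 4 L))))) v6_28))
noncomputable def v6_30 : Tr := (T (F 324 (U (V v6_4 v6_9) (V (S (T (F 204 (U (V (T (S (F 16 L) (F 16 L)) (S L (U (F 16 L) (F 16 L)))) (T (S L (U L L)) (S (S (F 1 L) L) (U (V L L) (S L L))))) (V (U (S (F 16 L) (F 16 L)) (F 16 L)) (U (S (F 1 L) (T (F 16 L) L)) (T (F 1 L) (F 1 L)))))) (U (V (S (F 200 (V (T (F 32 L) L) (T (F 8 L) (S (F 8 L) L)))) (V (T (F 201 L) (S (F 200 L) (F 193 L))) (T (F 200 L) (S (F 200 L) (F 192 L))))) (S (F 76 (T (V (F 2 L) (F 1 L)) (V (F 3 (U (S L L) L)) (F 1 L)))) (T (F 76 (V (U (S (F 2 L) (F 2 L)) (F 2 L)) (T L L))) (V (U (F 196 (S (F 8 L) L)) (F 200 (S (F 8 L) L))) (F 76 (U (S (F 1 L) L) (F 1 L))))))) (F 200 (V (S (T (F 8 L) (S (F 9 L) (F 1 L))) (V (T (F 32 L) (F 32 L)) (T (F 32 L) L))) (S (F 9 (T L L)) (U (T (S (F 9 L) (F 8 L)) (V (S (F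 9 L) (F 8 L)) (F 9 L))) (F 9 (T L (S L L))))))))) v6_11) v6_14))) (F 76 (U (V (U (S v6_15 v6_17) (S (T v6_18 v6_19) (T (V (U (S (T (V (F 137 (S L L)) (S (T (F 137 L) (F 136 L)) (F 137 (S L L)))) (V (F 137 (S L L)) (S (S (F 8 L) (F 72 L)) (T (F 137 L) (F 73 (S L L)))))) (T (F 137 (V L (S (S L L) L))) (F 73 (V (S (F 2 L) (F 6 L)) (S (V (S (F 2 L) (F 2 L)) L) (T (F 2 L) (F 2 L))))))) (S (T (V (F 137 L) (S (F 136 L) (F 137 (S L L)))) (V (F 137 (S L (F 2 L))) (T (S (F 136 L) (F 137 L)) (F 200 (S (S L L) L))))) (F 137 (T (S (S L L) L) (V (F 2 L) (S (T (F 2 L) (S (F 2 L) (F 2 L))) (S (F 2 L) (F 2 L)))))))) v6_20) v6_21))) v6_24) v6_29)))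
noncomputable def v6_31 : Tr := (V (F 96 (U (S (T (V L (S L L)) (V L (S L L))) (T (V L (S L L)) (V L (S (F 2 L) (F 2 L))))) (S (T (S L L) (S L L)) (T (V L (S L L)) (S L (S (F 2 L) (F 2 L))))))) (U (S (T (V (F 96 (S (S L L) (S L L))) (T (F 34 (S L L)) (V (S (F 34 L) (F 48 L)) (F 50 (S (S L L) L))))) (V (T (F 96 (S L L)) (F 48 (S L L))) (F 48 (S (T (V L (S (F 16 L) (F 16 L))) (S L L)) (T L (S L L)))))) (T (V (S (F 96 (S L L)) (F 80 (S L L))) (S (T (F 18 L) (F 48 L)) (F 16 L))) (F 48 (V (S (V (S (F 2 L) (F 2 L)) L) (T (F 2 L) (F 2 L))) (S (T L L) (T L L)))))) (S (T (V (F 96 (S (S L L) L)) (S (F 34 (T L L)) (T (F 34 L) (F 48 L)))) (V (S (S (F 32 L) (F 48 L)) (T (F 96 L) (F 48 L))) (F 48 (S (T (S L L) (S L L)) (T (S L L) (S L L)))))) (T (S (V (F 96 L) (T (F 18 L) (F 48 L))) (V (F 80 L) (F 16 L))) (F 48 (V (S (T (F 2 L) (F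 2 L)) (S (F 2 L) (F 2 L))) (S (T L L) (T L L))))))))
noncomputable def v6_32 : Tr := (V (U (S (T (V (S (F 136 L) (F 136 L)) (S (F 136 L) (F 136 L))) (V (S (F 200 L) (F 136 L)) (S (F 136 L) (F 136 L)))) (T (V (S (F 8 L) (F 128 L)) (S (S (F 136 L) (F 136 L)) (F 128 L))) (V (S (F 136 L) (F 128 L)) (S (F 136 L) (F 136 L))))) (S (T (V (S (F 136 L) (F 136 L)) (S (F 136 L) (F 136 L))) (V (S (F 200 L) (F 136 L)) (S (F 200 L) (F 136 L)))) (T (V (S (F 8 L) (F 128 L)) (S (F 136 L) (F 128 L))) (V (S (F 136 L) (F 128 L)) (S (F 136 L) (F 136 L)))))) (U (S (T (V (S (F 136 L) (F 136 L)) (F 170 (T (S L L) (S L L)))) (V (S (F 136 L) (F 136 L)) (F 168 (S (T (F 16 L) L) (S L L))))) (T (V (T (F 136 L) (F 136 L)) (F 170 (S (T L L) (T L L)))) (F 168 (S (V (S L L) (S L L)) (V (S L L) (S L L)))))) (S (T (V (S (F 136 L) (F 136 L)) (F 138 (S (S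 L L) (S L L)))) (V (S (F 136 L) (F 136 L)) (F 168 (S (S L L) (S L L))))) (T (V (S (F 136 L) (F 136 L)) (F 170 (T (S L (S L L)) (S L L)))) (F 168 (S (V (S L L) (S L L)) (V (S L L) (S L L))))))))
noncomputable def v6_33 : Tr := (S (F 2372 (T (V (U (S (F 96 (T (S L (S L L)) (V L (S (F 16 L) L)))) (T (V (F 96 (S L L)) (F 64 L)) (F 96 (V (S L L) (S L L))))) (S (F 96 (T (S L L) (S L L))) (T (T (S (F 96 L) (F 64 L)) (F 64 L)) (F 96 (V L (S L L)))))) (U (S (T (V (F 66 (S (S (F 2 L) (F 2 L)) L)) (V (F 66 (S L L)) (F 2 L))) (V (F 96 (S (T (F 16 L) (F 16 L)) L)) (S (F 34 (T L L)) (F 2 L)))) (T (F 66 (V (S L L) (T (S L L) (S L L)))) (V (S (F 64 L) (F 64 L)) (T (F 66 (S L L)) (V (F 66 L) (F 18 (S L (F 2 L)))))))) (S (T (V (F 66 (S (F 2 L) L)) (V (F 66 (S L L)) (F 2 L))) (V (F 96 (S L L)) (S (F 34 (T L L)) (F 2 L)))) (T (F 66 (V (S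 L L) (S (S L L) (S L L)))) (V (S (F 96 L) (F 64 L)) (V (F 66 (S L L)) (S (F 2 L) (F 18 L)))))))) v6_31)) (T (F 2306 v6_32) (F 2308 (V (U (S (T (V (F 200 (S L L)) (F 168 (S L L))) (F 232 (V (S L L) (S L L)))) (T (V (S (F 168 L) (F 160 L)) (F 168 (S L L))) (F 184 (V (S L L) (S L L))))) (S (T (V (F 200 (S L L)) (F 136 L)) (F 232 (V (S L L) (S L L)))) (T (V (S (F 168 L) (F 176 L)) (F 168 (S L L))) (F 168 (S L (T L (F 4 L))))))) (U (S (T (V (F 168 (S (S L L) L)) (S (S (F 40 L) (F 168 L)) (F 168 (S L L)))) (V (F 168 (S (T (F 2 L) (F 2 L)) L)) (S (F 40 L) (F 40 L)))) (F 168 (T (V (S L L) (S (S L L) (S L L))) (V (S L L) (S (S L L) (S L L)))))) (S (T (V (F 168 (S L L)) (V (F 168 (S L L)) (S (F 40 L) (F 168 L)))) (S (F 104 (V (S (F 2 L) (F 2 L)) (T L L))) (V (F 168 L) (F 40 L)))) (F 168 (T (V (S L L) (S (S L L) (S L L))) (V (S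 L L) (S (S L L) (S L L)))))))))))
noncomputable def v6_34 : Tr := (T (V (U (S (F 96 (T (S L L) (S L L))) (T (T (F 64 L) (F 64 L)) (F 96 (V L (S L L))))) (S (F 96 (T (S (F 16 L) L) (S L L))) (T (S (F 96 L) (F 64 L)) (F 96 (V L L))))) (U (S (T (F 66 (V (S (F 2 L) L) (S L L))) (V (F 96 (S L L)) (S (F 34 (S L L)) (S (F 34 L) (F 66 L))))) (T (F 66 (V (S L L) (S L L))) (V (F 64 L) (S (F 66 (S L L)) (S (F 66 L) (F 80 L)))))) (S (T (F 66 (V (S (F 2 L) (F 2 L)) (S L L))) (V (F 96 (S L L)) (V (F 96 (T (S (F 16 L) (F 16 L)) L)) (F 34 (S L L))))) (T (F 66 (V (S L L) (S L L))) (V (F 64 L) (S (F 66 (S L L)) (F 64 L))))))) (V (F 96 (U (S (T (S L L) (S L L)) (T (S L L) (S L (S (F 2 L) (F 2 L))))) (S (T (S L L) (S L L)) (T (S L L) (S L (F 2 L)))))) (U (S (T (V (F 96 (S L L)) (S (T (F 34 L) (F 32 L)) (T (F 34 L) (F 48 L)))) (V (V (F 96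 (S L (F 2 L))) (F 48 (S L L))) (F 48 (S (T (S L L) (S L L)) (T L L))))) (T (V (S (F 96 L) (F 80 L)) (S (F 48 (T L L)) (F 80 (S L L)))) (F 48 (V (S (T (F 2 L) (F 2 L)) (S (F 2 L) (F 2 L))) (S (T L L) (S L L)))))) (S (T (V (F 96 (S L L)) (S (F 32 L) (T (F 96 L) (F 48 L)))) (V (F 96 (S L (T (F 2 L) (F 2 L)))) (F 48 (S (T (S L L) (S L L)) (T L L))))) (T (V (F 96 (S L L)) (S (T (F 80 L) (F 48 L)) (F 80 (S L L)))) (F 48 (V (S (S (F 2 L) (F 2 L)) (F 2 L)) (S (T L L) (S L L)))))))))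
noncomputable def v6_35 : Tr := (T (F 2306 (V (U (S (T (V (S (F 200 L) (F 136 L)) (S (F 136 L) (F 136 L))) (V (F 136 L) (S (F 200 L) (F 136 L)))) (T (V (S (F 8 L) (F 128 L)) (S (F 136 L) (F 128 L))) (V (S (F 136 L) (F 160 L)) (S (F 136 L) (F 136 L))))) (S (T (V (S (F 200 L) (F 136 L)) (S (F 200 L) (F 136 L))) (V (F 136 L) (F 136 L))) (T (V L (S (F 136 L) (F 128 L))) (V (F 128 L) (S (F 136 L) (F 160 L)))))) (U (S (T (V (S (F 138 L) (F 136 L)) (F 138 (S L L))) (F 168 (V (S L L) (S (S L L) L)))) (T (V (S (F 136 L) (F 136 L)) (F 170 (T (S L L) (S L L)))) (F 168 (V (S L (S L L)) (S L L))))) (S (T (V (S (F 138 L) (F 136 L)) (F 138 (S L L))) (V (F 136 L) (F 168 (S (S L L) L)))) (T (V (S (F 136 L) (F 136 L)) (F 170 (T (S L L) (S L L)))) (F 168 (S (T L L) (V L L)))))))) (F 2308 (V (U (S (T (T (S (F 200 L) (F 168 L)) (F 136 L))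 (F 232 (V L (S L L)))) (T (V (F 136 L) (F 168 (S L L))) (F 168 (V (S (F 4 L) (F 4 L)) L)))) (S (T (S (F 200 L) (F 136 L)) (F 232 (V L (S L L)))) (T (S (F 168 (S L L)) (F 160 L)) (V (F 240 (S (F 2 L) L)) (F 168 L))))) (U (S (T (F 168 (V (S L L) (S (S L L) (S L L)))) (S (F 104 (V (S (F 2 L) (F 2 L)) (S L L))) (F 168 (T (S L L) (S L L))))) (F 168 (T (V (S L L) (S L L)) (V (S L L) (S (S L L) L))))) (S (T (F 168 (V (S L L) (S (S L L) L))) (S (T (F 168 L) (F 104 (V (F 2 L) L))) (F 168 (T L L)))) (F 168 (T (V (S L L) (S L L)) (V (S L (F 4 L)) (S L L)))))))))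
noncomputable def v6_36 : Tr := (V (U (S (T (V (T (F 1 L) (F 1 L)) (F 17 (S (T L L) (T L L)))) (F 17 (V (S (T L (V (F 4 L) (F 4 L))) (T L L)) (S (T (S L L) (S L L)) (T L L))))) (T (V (S (F 1 L) (F 17 (S L L))) (F 17 (T (S L L) (S L L)))) (F 17 (V (S (S L L) (S L L)) (S (S L L) (S L L)))))) (S (T (V (S (F 1 L) (F 1 L)) (V (S (F 1 L) (F 17 L)) (F 17 (S (S L L) L)))) (S (V (T (F 1 L) (F 33 L)) (T (F 17 (S L L)) (S (F 48 L) (F 17 L)))) (F 17 (V (T L L) (T L L))))) (T (V (S (F 1 L) (F 17 (S L L))) (F 17 (S (S L L) L))) (F 17 (V (S (T L L) (S L L)) (S (S L L) (S L L))))))) (U (S (T (V (S (T (F 17 (S L L)) (F 16 L)) (F 17 (T L L))) (S (S (F 16 L) (F 16 L)) (F 17 (T L L)))) (V (S (S (F 16 L) (F 16 L)) (F 17 (T L L))) (S (F 16 L) (S (F 16 L) (F 16 L))))) (F 17 (T (V (T L (S L L)) (S (S L L) L)) (V (S (S L L) (S L L)) (S (T L L)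 (S L L)))))) (S (T (V (S (T (F 17 (S L L)) (F 16 L)) (F 17 (T L L))) (S (F 16 L) (F 16 L))) (V (S (S (F 16 L) (F 16 L)) (F 17 (T L L))) (S (F 144 (T L (S (F 2 L) (F 2 L)))) (F 16 L)))) (T (F 17 (V (S (S L L) L) (S (S L L) L))) (V (F 17 (S (T L L) (S L L))) (S (F 16 L) (F 17 (S L L))))))))
noncomputable def v6_37 : Tr := (U (S (T (V (F 37 (T (S (V (F 4 L) (F 4 L)) L) (S (V (F 4 L) (S (F 4 L) (F 4 L))) (V (F 4 L) (F 4 L))))) (S (F 100 (T (V (S (F 32 L) (F 32 L)) L) (S L L))) (F 37 (T L (V (F 4 L) (F 4 L)))))) (F 100 (V (T (S (V (S (F 32 L) (F 32 L)) (S (F 32 L) (F 32 L))) (V (F 32 L) (F 32 L))) (S (V (S (F 32 L) (F 32 L)) L) (V (S (F 32 L) (F 32 L)) (S (F 32 L) (F 32 L))))) (S (T (S L L) (S L L)) (V (T (F 32 L) (S (F 32 L) (F 32 L))) (S L L)))))) (T (F 37 (V (S (T L L) (T L L)) (S (T L L) (S L L)))) (V (S (F 97 (T (V (F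 16 L) (F 16 L)) (V L (S (F 16 L) (F 16 L))))) (T (F 37 L) (F 97 (V L (S (F 16 L) (F 16 L)))))) (F 37 (T (S (V (F 4 L) (F 4 L)) L) (S (V (F 4 L) (S (F 4 L) (F 4 L))) (V (S (F 4 L) (F 4 L)) (S (F 4 L) (F 4 L))))))))) (S (T (V (S (F 69 (T (V L (S (F 4 L) (F 4 L))) (V (S (F 4 L) (F 4 L)) (S (F 4 L) (F 4 L))))) (F 37 (T L (V (S (F 4 L) (F 4 L)) (F 4 L))))) (S (F 100 (T (S L L) (S L L))) (T (F 37 L) (F 100 (V (S (F 32 L) (F 32 L)) L))))) (V (S (F 100 (V (T (S (F 32 L) (F 32 L)) (S (F 32 L) (F 32 L))) (S L L))) (F 97 (T (V (S (F 16 L) (F 16 L)) (S (F 16 L) (F 16 L))) (V L (S (F 16 L) (F 16 L)))))) (F 100 (S (T (S L L) (S L L)) (T (V (S (F 32 L) (F 32 L)) L) (S L L)))))) (T (F 37 (V (S (T L L) (T L L)) (S (T L L) (T L L)))) (V (T (S (F 97 (V L (F 16 L))) (F 37 L)) (F 97 (S (V L (S (F 16 L) (F 16 L))) (S L L)))) (F 37 (T (S (V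 (S (F 4 L) (F 4 L)) (S (F 4 L) (F 4 L))) L) (S (V (S (F 4 L) (F 4 L)) (S (F 4 L) (F 4 L))) (V (S (F 4 L) (F 4 L)) (S (F 4 L) (F 4 L))))))))))
noncomputable def v6_38 : Tr := (U (S (T (V (S (F 36 (T L L)) (T (F 4 L) (F 36 (S L L)))) (F 36 (S (T (F 1 L) (F 1 L)) (T L (S (F 1 L) (F 1 L)))))) (V (F 36 (S (T L (S (F 1 L) (F 1 L))) (T L L))) (F 160 (S (S (F 8 L) (F 8 L)) L)))) (T (V (F 5 (S (T L L) (T L L))) (S (T (F 5 L) (F 36 L)) (F 5 (T L L)))) (V (S (T (F 36 (V (S (F 32 L) (F 32 L)) L)) (S (F 36 L) (F 33 L))) (F 33 (T (V (F 16 L) (S (F 16 L) (F 16 L))) (S L L)))) (S (F 160 (T L L)) (T (F 32 L) (F 160 L)))))) (S (T (V (S (F 36 (T L L)) (T (F 4 L) (F 36 L))) (F 36 (S (T (F 1 L) (F 1 L)) (T L (S (F 1 L) (F 1 L)))))) (V (S (T (F 36 L) (F 160 L)) (F 36 (T L L))) (F 160 (S (F 8 L) L)))) (T (V (F 5 (S (T L L) (T L L))) (S (F 36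 (T L L)) (F 5 (T L L)))) (V (S (T (F 36 (S L L)) (F 32 L)) (T (F 5 (V L (S (F 4 L) (F 4 L)))) (F 33 (S L L)))) (F 160 (S (S L L) (T L L)))))))
noncomputable def v6_39 : Tr := (V (U (S (T (F 13 (V (T (S L L) (S L L)) (T (S L L) (S L L)))) (V (S (S (F 9 L) (F 9 L)) (S (F 9 L) (F 9 L))) (F 13 (T (S L L) (S L (S L L)))))) (T (F 13 (V (S (S L L) (S L L)) (S (S L L) (S L L)))) (V (S (S (F 9 L) (F 9 L)) (S (F 9 L) (F 9 L))) (F 13 (T (S L L) (S L (S L L))))))) (S (T (F 13 (V (S (T L L) (S L L)) (T (S L L) (S L L)))) (V (S (S (F 9 L) (F 9 L)) (S (F 9 L) (F 9 L))) (F 13 (T (S L L) (S (V L (S (F 4 L) (F 4 L))) (S L L)))))) (T (V (S (F 13 (S L L)) (F 9 L)) (F 13 (T L (S L L)))) (V (S (S (F 9 L) (F 9 L)) (F 9 L)) (F 13 (T (S L L) (S (S L L) (S L L)))))))) (U (S (T (F 13 (V (T (S L L) (S L L)) (T (S L L) (S L L)))) (S (V (T (F 13 L)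 (S (F 69 L) (F 13 L))) (T (F 5 L) (F 69 L))) (V (F 13 (T L (S L L))) (S (F 5 L) (F 5 L))))) (T (F 13 (V (S (S L L) L) (T L (S L L)))) (V (F 13 (T (S L L) (S (S L L) (S L L)))) (T (F 13 (S L L)) (S (F 5 L) (F 5 L)))))) (S (T (F 13 (V (T (S L L) (S L L)) (T (S L L) (S L L)))) (S (T (F 13 (V L L)) (V (F 69 (S L L)) (S (F 324 L) (F 69 L)))) (V (F 13 (T L (S L L))) (S (F 5 L) (F 5 L))))) (T (F 13 (V (T L (S L L)) (T L (S L L)))) (V (F 13 (T (S L L) (S (S L L) (S L L)))) (T (F 13 (S L L)) (S (F 5 L) (F 5 L))))))))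
noncomputable def v6_40 : Tr := (V (U (S (T (V (S (F 1 L) (F 1 L)) (T (S (F 1 L) (F 17 L)) (F 17 (S (S L L) L)))) (S (V (T (F 1 L) (S (F 33 L) (F 17 L))) (T (F 17 (S L L)) (S (F 48 L) (F 17 L)))) (F 17 (V (T L L) (T L L))))) (T (V (S (F 1 L) (F 1 L)) (F 17 (T (S L L) (S L L)))) (F 17 (V (T (S L L) (S L L)) (S (T L L) (S L L)))))) (S (T (V (S (F 1 L) (F 1 L)) (T (S (F 1 L) (F 17 L)) (S (F 1 L) (F 17 L)))) (S (V (F 33 (T L L)) (T (S (F 48 L) (F 17 L)) (F 48 (S L L)))) (F 17 (V (T L L) (T L L))))) (T (V (T (F 65 (S L L)) (F 1 L)) (F 17 (S (S L L) (S L L)))) (F 17 (V (S (T L L) (S L L)) (T (S L L) (S L L))))))) (U (S (T (V (S (S (F 16 L) (F 16 L)) (F 17 (T L L))) (S (F 16 L) (F 16 L))) (V (S (S (F 16 L) (F 16 L)) (S (F 16 L) (F 16 L))) (S (F 144 (T L (F 2 L))) (F 16 L)))) (T (V (F 17 (S (S L L) L)) (S (S (F 16 L) (F 17 L))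 (F 17 (S L L)))) (V (F 17 (S (T L L) (S L L))) (S (F 16 L) (F 17 (T L L)))))) (S (T (V (S (S (F 16 L) (F 16 L)) (F 17 (T L L))) (S (F 16 L) (F 16 L))) (V (S (F 48 (T L L)) (F 16 L)) (F 144 (S (S (F 2 L) L) (S L L))))) (T (V (F 17 (S (S L L) (S L L))) (S (S (F 16 L) (F 17 L)) (F 17 (S L L)))) (V (F 17 (S (T L L) (S L L))) (S (F 16 L) (S (F 16 L) (F 17 L))))))))
noncomputable def v6_41 : Tr := (U (S (T (V (T (S (F 69 (V L (S (F 4 L) (F 4 L)))) (F 37 (V (S (F 4 L) (F 4 L)) L))) (F 100 (S (V (S (F 32 L) (F 32 L)) L) (U (S (F 32 L) (F 32 L)) (S (F 32 L) (F 32 L)))))) (S (F 100 (T (S L L) (S L L))) (T (F 37 L) (F 100 (V (S (F 32 L) (F 32 L)) L))))) (V (S (F 100 (T (V (S (F 32 L) (F 32 L)) L) (S L L))) (F 97 (V (S L L) (T (S (F 16 L) (F 16 L)) (S (F 16 L) (F 16 L)))))) (F 100 (S (T (S L L) (S L L)) (T (S L L) (S L L)))))) (T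 (F 37 (T (V (S L L) (S L L)) (V (S L L) (S L L)))) (V (S (F 97 (T (V L (S (F 16 L) (F 16 L))) (S L L))) (T (F 33 L) (F 97 (S L L)))) (S (F 100 (T (U (S (F 32 L) (F 32 L)) (S (F 32 L) (F 32 L))) (V (S (F 32 L) (F 32 L)) L))) (F 37 (T L (U (S (F 4 L) (F 4 L)) (S (F 4 L) (F 4 L))))))))) (S (T (V (S (V (F 69 (T L (S (F 4 L) (F 4 L)))) (F 100 (S L L))) (T (F 37 (T L (S (F 4 L) (F 4 L)))) (F 97 (V L (S (F 16 L) (F 16 L)))))) (S (F 100 (T (S L L) L)) (T (S (F 100 L) (F 37 L)) (F 100 (S L L))))) (V (S (V (F 96 L) (F 100 (T L L))) (F 97 (T (V L (S (F 16 L) (F 16 L))) (S L L)))) (F 100 (S (T L L) (T (S L L) (S L L)))))) (T (S (T (F 37 (V L L)) (V (F 97 (V L (S (F 16 L) (F 16 L)))) (F 37 (U L (S (F 4 L) (F 4 L)))))) (F 37 (V (T L L) (T L L)))) (V (F 97 (S (T L (S L L)) (T L (S L L)))) (S (F 100 (V (T (S (F 32 L) (F 32 L)) (S (F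 32 L) (F 32 L))) (S L L))) (T (F 37 (S (T (F 4 L) (F 4 L)) L)) (F 97 (V L (S (F 16 L) (F 16 L))))))))))
noncomputable def v6_42 : Tr := (V (U (S (T (F 13 (V (S (T L L) (S L L)) (T (S L L) (S L L)))) (V (S (S (F 9 L) (F 9 L)) (S (F 9 L) (F 9 L))) (S (T (F 13 L) (F 73 (V L (S (F 16 L) (F 16 L))))) (F 13 (T L (S L L)))))) (T (V (S (F 9 L) (F 9 L)) (F 13 (T (S L L) (S L L)))) (V (S (F 9 L) (F 9 L)) (T (F 13 (S L L)) (S (F 13 (S L L)) (F 9 L)))))) (S (T (V (S (S (F 9 L) (F 9 L)) (F 9 L)) (F 13 (S (T L L) (S L L)))) (V (S (F 73 (T L L)) (F 9 L)) (S (T (F 13 L) (F 73 (V L (S (F 16 L) (F 16 L))))) (F 13 (T L (S L L)))))) (T (V (S (F 9 L) (F 137 (S L L))) (F 13 (T (S L L) (S L L)))) (V (S (F 9 L) (F 9 L)) (S (S (F 9 L) (F 9 L)) (S (F 9 L) (F 9 L))))))) (U (S (T (F 13 (V (T (S L L) (S L L)) (S (T L L) (T L L)))) (T (V (F 13 (S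 L L)) (S (F 69 L) (F 13 L))) (S (V (F 69 (S L L)) (F 324 L)) (V (F 5 L) (F 69 L))))) (T (F 13 (V (T (S L L) (S L L)) (T (S L L) (S L L)))) (V (F 13 (T (S L L) (S (S L L) (S L L)))) (S (S (F 5 L) (F 5 L)) (S (F 5 L) (F 5 L)))))) (S (T (F 13 (V (T (S L L) (S L L)) (T (S L L) (S L L)))) (V (T (F 13 (S L L)) (S (F 69 L) (F 5 L))) (S (T (F 261 L) (F 324 L)) (T (F 13 L) (F 325 (S L L)))))) (T (F 13 (V (T (S L L) (S L L)) (T (S L L) (S L L)))) (V (T (F 13 (S L L)) (S (F 5 L) (F 13 (S L L)))) (S (F 5 L) (S (F 5 L) (F 5 L))))))))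
noncomputable def v6_43 : Tr := (S (T (F 836 v6_40) (V (F 324 v6_41) (F 596 (U (S (T (F 36 (V (S (T L L) (T L L)) (S (S (F 1 L) (F 1 L)) (V L (S (F 1 L) (F 1 L)))))) (V (S (F 36 (V L (F 1 L))) (T (F 36 L) (F 160 L))) (F 160 (S (F 8 L) L)))) (T (V (S (T (F 5 L) (F 36 L)) (F 5 (T L L))) (S (F 132 (T L (S (F 2 L) (F 2 L)))) (F 4 L))) (V (S (F 36 (T L L)) (T (F 36 (V (S (F 32 L) (F 32 L)) L)) (F 33 (S L L)))) (F 160 (S (S L L) (S L L)))))) (S (T (F 36 (V (S (S L L) (T L L)) (S (F 1 L) (T (F 1 L) (F 1 L))))) (V (S (F 164 (T L L)) (T (F 36 L) (F 160 L))) (F 160 (S (F 8 L) L)))) (T (S (T (F 4 L) (F 36 (V L (S (F 1 L) (F 1 L))))) (V (F 5 (T L L)) (F 4 L))) (V (S (T (F 36 L) (F 160 L)) (T (S (F 36 L) (F 5 L)) (F 33 L))) (F 160 (S L (S L L)))))))))) (F 84 (T (F 13 (V (U (S (T (V (S (T (F 2 L) (F 2 L)) (T (F 2 L) (F 2 L))) (S L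 L)) (V (S (S L L) (S L L)) (S (S L L) L))) (T (V (S (T (F 2 L) (F 2 L)) (T (F 2 L) (F 2 L))) (S L L)) (V (S (T (F 2 L) (F 2 L)) (T (F 2 L) (F 2 L))) (S L L)))) (S (T (V (S (T (F 2 L) (F 2 L)) (T (F 2 L) (F 2 L))) (S L L)) (V (S (S L L) (T (F 2 L) (F 2 L))) (T L (S L L)))) (T (V (T (S (F 2 L) (F 2 L)) (S (F 2 L) (F 2 L))) (S L L)) (V (S (T (F 2 L) (F 2 L)) (T (F 2 L) (F 2 L))) (S L L))))) (U (S (T (V (S L L) (S L L)) (V (S L L) (T L (S L L)))) (T (V (S L L) (S L L)) (V (S L L) (S L L)))) (S (T (V (S L L) (S L L)) (V (S (S L L) L) (S (S L L) L))) (T (V (S L L) (S L L)) (V (S L L) (S L L))))))) v6_42)))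
noncomputable def v6_44 : Tr := (U (V (S (F 96 (T (U L L) (U (S L L) L))) (T (V (S (F 96 L) (F 64 L)) (S (F 96 L) (F 64 L))) (F 96 (U (S L L) (S L L))))) (S (T (F 66 (U (S (T (F 2 L) (S (F 2 L) (F 2 L))) (S L L)) (V (S (F 2 L) (F 2 L)) (S (S (F 2 L) (F 2 L)) L)))) (V (F 96 (U L L)) (U (T (F 98 (S L L)) (V (F 96 L) (F 34 L))) (F 96 (T (S (F 16 L) (F 16 L)) (S L L)))))) (T (V (S (F 64 L) (F 64 L)) (F 66 (U (S L L) (S L L)))) (S (U (F 64 L) (S (F 96 L) (F 64 L))) (U (F 64 L) (F 64 L)))))) (V (F 96 (S (T (V L L) (U L L)) (T (U (S L L) (S L L)) (U (S L L) (S L L))))) (U (S (T (F 66 (V (F 2 L) (S (F 2 L) L))) (F 96 (V L (T (S (F 16 L) (F 16 L)) (S (F 16 L) (F 16 L)))))) (T (F 66 (V L (S L L))) (S (F 96 (S L L)) (F 64 L)))) (S (F 96 (T (T (F 16 L) (S (F 16 L) (F 16 L))) (S (S (F 16 L) L) L))) (T (F 66 (T L L)) (F 96 (S L L)))))))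
noncomputable def v6_45 : Tr := (U (V (F 96 (S (T (U (S L L) L) (U L L)) (T (U (S L L) (S L L)) (S L (U (F 2 L) (F 2 L)))))) (S (T (S (U (V (F 96 L) (F 32 L)) (F 96 (T L (S L L)))) (V (F 96 (T L L)) (V (F 96 (U L L)) (F 48 (U L L))))) (U (V (F 96 (S L (S (F 2 L) (F 2 L)))) (F 48 (S (T L L) (T L L)))) (V (F 96 (S L (S (F 2 L) (F 2 L)))) (F 48 (S (T L L) (T L L)))))) (T (V (F 96 (U (S L L) (S L (F 2 L)))) (U (S (V (F 96 L) (F 48 L)) (F 80 L)) (F 96 (S (T L (S (F 2 L) (F 2 L))) (T (F 2 L) (F 2 L)))))) (F 48 (U (V (S (F 2 L) (F 2 L)) (S (S L L) (V (F 2 L) L))) (V (S (F 2 L) (F 2 L)) (S (V (S (F 2 L) (F 2 L)) L) (T (F 2 L) (F 2 L))))))))) (V (F 96 (S (T (U L L) (S L L)) (T (U L L) (U (S (F 2 L) (F 2 L)) (F 2 L))))) (S (U (T (F 96 (V L (S L (T (F 2 L) (F 2 L))))) (F 48 (V (S (F 2 L) (F 2 L)) (S (V (S (F 2 L) (F 2 L)) L) (T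 (F 2 L) (F 2 L)))))) (F 96 (T (S L (T (F 2 L) (F 2 L))) (V (S (F 2 L) (F 2 L)) (S (S (F 2 L) (F 2 L)) (S (F 2 L) (F 2 L))))))) (F 112 (U (T (V (S L L) (S (T L L) (S L L))) (V (S L L) (S (S L L) (S L L)))) (T (V (S L L) (S (S L L) L)) (V L (S L L))))))))
noncomputable def v6_46 : Tr := (U (V (S (T (U (V (F 136 L) (F 136 L)) (V (F 136 L) (F 136 L))) (U (S (F 136 L) (F 136 L)) (S (F 136 L) (F 136 L)))) (T (V (S L L) (S (T (F 136 L) (F 136 L)) (S (F 128 L) (F 128 L)))) (V (S (F 128 L) (F 128 L)) (S (S (F 136 L) (F 136 L)) (F 128 L))))) (S (T (V (U (F 136 L) (F 136 L)) (F 138 (U (S L L) (S L L)))) (V (U (F 136 L) (F 136 L)) (F 168 (U (S L L) (S L L))))) (T (V (U (S (F 136 L) (F 136 L)) (S (F 136 L) (F 136 L))) (U (S (F 138 L) (F 168 L)) (S (S (F 138 L) (F 168 L)) (F 168 (S L L))))) (F 168 (U (V (S L L) (S L L)) (S (T L L)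 (T L L))))))) (V (S (T (U (V (F 136 L) (F 136 L)) (S (F 136 L) (F 136 L))) (V (F 200 (U (S L L) L)) (S (F 136 L) (F 136 L)))) (T (V (U L (F 128 L)) (S (T (F 136 L) (F 136 L)) (S (F 128 L) (F 128 L)))) (V (S (F 128 L) (F 128 L)) (U (S (F 168 L) (F 160 L)) (F 168 (S L L)))))) (S (T (U (V (F 136 L) (F 138 (S L L))) (V (F 136 L) (F 138 (S L L)))) (U (V (F 136 L) (F 168 (S L L))) (V (F 136 L) (F 168 (S L L))))) (T (V (U (S (F 136 L) (F 136 L)) (S (F 136 L) (F 136 L))) (U (S (S (F 138 L) (F 168 L)) (F 168 (S L L))) (F 170 (U (S L L) (S L L))))) (F 168 (U (S (T L L) (T L L)) (S (S L L) (T L L))))))))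
noncomputable def v6_47 : Tr := (U (V (S (T (U (S (F 200 L) (F 136 L)) (F 200 (V L (S (F 2 L) (F 2 L))))) (F 232 (U (S L L) (S L L)))) (T (V (S (F 136 L) (F 160 L)) (S (F 168 (S L L)) (F 160 L))) (S (V (F 240 (T L (F 2 L))) (F 168 L)) (F 176 (T L L))))) (F 168 (S (T (U (V (S L L) (S L L)) (V (S L L) (S L L))) (U (T (S L L) (S (S (F 2 L) (F 2 L)) L)) (V (S (F 2 L) (F 2 L)) (T L (S (F 2 L) (F 2 L)))))) (T (U (S (S L L) (S L L)) (S (S L L) (S L L))) (U (V L (S L L)) (S L L)))))) (V (S (F 200 (U (T (T L (S (F 2 L) (F 2 L))) (S (F 2 L) (F 2 L))) (T (T L (S (F 2 L) (F 2 L))) (F 6 (S L L))))) (T (U (S (F 168 L) (F 160 L)) (F 168 (S L L))) (F 184 (U (S (S (F 2 L) (F 2 L)) L) (S (F 2 L) (S (F 2 L) (F 2 L))))))) (F 168 (S (U (T (T (S L L) (S L L)) (V (S (F 2 L) (F 2 L)) (S (S (F 2 L) (F 2 L)) (F 2 L)))) (T (S (T L (F 2 L)) L) (S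 (F 2 L) (F 2 L)))) (T (U (S (S L L) (S L L)) (S L L)) (U (S L L) (S (S (F 2 L) (F 2 L)) (S (F 4 L) (F 4 L)))))))))
noncomputable def v6_48 : Tr := (V (S (T (V (U (S (F 1 L) (F 1 L)) (V (F 65 (S L L)) (F 1 L))) (U (S (F 1 L) (F 17 (T L L))) (S (F 1 L) (F 17 (T L L))))) (V (U (S (F 33 (T L L)) (F 1 L)) (F 33 (T (S L L) (S L L)))) (S (U (T (F 16 L) (F 48 L)) (T (S (F 48 L) (F 17 L)) (F 48 L))) (F 17 (U (T L L) (T L L)))))) (T (V (F 65 (U (T L (S L L)) (S L L))) (F 17 (U (S (S L L) (S L L)) (S (T L L) (S L L))))) (U (F 17 (V (S (T L L) (S L L)) (S (T L L) (S L L)))) (V (T (V (F 65 L) (F 17 L)) (F 17 (S L L))) (F 17 (S (T L L) (S L L))))))) (S (T (V (U (S (F 16 L) (F 17 (T L L))) (S (F 16 L) (F 17 (T L L)))) (S (F 144 (U (S L L) L)) (U (F 16 L) (F 16 L)))) (V (U (S (S (F 48 L) (F 16 L)) (F 16 L)) (S (F 48 (S L L)) (F 16 L)))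 (F 144 (S (U (T (F 2 L) (F 2 L)) (S (F 2 L) (F 2 L))) (U (S L L) L))))) (T (U (V (F 17 (S (T L L) (S L L))) (S (S (F 16 L) (F 17 L)) (F 17 (S L L)))) (F 17 (V (S (T L L) (S L L)) (S (S L L) (S L L))))) (U (V (F 17 (S (T L L) (S L L))) (S (F 16 L) (F 17 (S L L)))) (S (V (F 17 (T L L)) (F 144 (S L L))) (F 17 (T (S L L) (V L L))))))))
noncomputable def v6_49 : Tr := (V (S (U (T (V (S (F 33 (V (F 2 L) L)) (F 65 L)) (S (F 1 L) (F 17 (T L L)))) (S (V (F 33 (S L L)) (F 48 (S L L))) (T (V (F 65 L) (F 17 L)) (S (V (F 33 L) (F 48 L)) (F 17 L))))) (T (T (F 65 (S L L)) (S (F 33 (V (F 2 L) L)) (V (F 97 L) (F 17 L)))) (V (F 33 (T (S (F 2 L) (F 2 L)) (S (F 2 L) (V (F 2 L) (F 4 L))))) (S (F 48 L) (F 17 (T L (S (F 4 L) (F 4 L)))))))) (T (U (V (F 65 (S L L)) (F 17 (S (S L L) L))) (V (F 65 (S L L)) (F 17 (U (S L (F 2 L)) (S (F 2 L) (F 2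 L)))))) (U (V (S (V (F 65 L) (F 17 L)) (F 81 (T L (S L L)))) (F 17 (T (S L L) (S L L)))) (F 17 (T (V (S (F 2 L) (F 2 L)) L) (V (S (F 2 L) (F 2 L)) L)))))) (S (T (U (V (S (F 16 L) (S (F 16 L) (F 17 L))) (F 144 (S L (S L L)))) (S (F 144 (S L L)) (V (F 17 (S L L)) (F 144 L)))) (U (V (F 48 (S (T L (F 1 L)) (S L L))) (F 144 (S (F 2 L) (S (F 2 L) L)))) (F 144 (S (T (F 2 L) (F 2 L)) (T L (S (F 2 L) (F 2 L))))))) (T (F 17 (U (S (T (S L L) (S L L)) (T (S L L) (S L L))) (V (S (S L L) L) (U (S (S (F 1 L) (F 1 L)) L) (S (F 1 L) (F 1 L)))))) (U (V (F 17 (S (S L L) (S L L))) (S (F 144 L) (T (F 17 L) (F 144 L)))) (V (F 17 (S L L)) (F 144 (S L (T (F 32 L) (F 32 L)))))))))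
noncomputable def v6_50 : Tr := (S (T (U (V (S (V (F 69 (T L (S (F 4 L) (F 4 L)))) (F 100 (S L L))) (F 97 (T (U (F 16 L) (F 16 L)) (V L (S (F 16 L) (F 16 L)))))) (S (F 100 (T L L)) (T (S (F 100 L) (F 37 L)) (F 100 L)))) (V (S (T (V (F 69 L) (F 100 L)) (F 100 L)) (F 97 (V (S L L) (T (S (F 16 L) (F 16 L)) (S (F 16 L) (F 16 L)))))) (F 100 (S (T L L) (T L L))))) (V (U (S (V (F 96 L) (F 100 (S L L))) (F 97 (T (S L L) (S L L)))) (S (T (F 100 L) (F 96 L)) (F 97 (T L L)))) (F 100 (U (S (T L L) (T L L)) (S (T L (S (F 1 L) (F 1 L))) (T L L)))))) (T (S (U (T (F 37 (V L L)) (F 97 (V (S L L) (U (S (F 16 L) (F 16 L)) (F 16 L))))) (T (F 37 (V L L)) (F 97 (V L (U (S (F 16 L) (F 16 L)) (F 16 L)))))) (U (V (S (F 33 L) (F 33 L)) (F 37 (T L L))) (V (S (F 33 L) (F 33 L)) (F 37 (T L L))))) (U (V (F 97 (S (T L (S L L)) (T L L))) (T (F 100 (S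 (V (S (F 32 L) (F 32 L)) L) (U (S (F 32 L) (F 32 L)) (S (F 32 L) (F 32 L))))) (S (F 100 (V (S (F 32 L) (F 32 L)) L)) (F 97 (V L (S (F 16 L) (F 16 L))))))) (V (F 97 (S (T L L) (T L L))) (F 100 (T (S (U (S (F 32 L) (F 32 L)) (F 32 L)) (U (S (F 32 L) (F 32 L)) (F 32 L))) (S L (U (S (F 32 L) (F 32 L)) (F 32 L)))))))))
noncomputable def v6_51 : Tr := (S (T (U (V (S (T (T (F 69 L) (F 100 L)) (F 100 L)) (F 97 (V L (U (S (F 16 L) (F 16 L)) (S (F 16 L) (F 16 L)))))) (F 100 (S (S L L) (S L L)))) (V (V (F 97 (S (T (F 16 L) (F 16 L)) (S (F 2 L) (F 2 L)))) (F 100 (S L (T (F 32 L) (F 32 L))))) (F 100 (S (T (F 1 L) (F 1 L)) L)))) (S (U (V (S (F 100 L) (F 96 L)) (F 356 (T L L))) (F 356 (U (T L L) (S L L)))) (V (U (S (F 96 L) (F 97 L)) (F 97 L)) (F 100 (U (T L (S (F 1 L) (F 1 L))) (T (F 1 L) (F 1 L))))))) (T (U (S (F 97 (V (T (S (F 16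 L) (F 16 L)) L) (T (U (F 16 L) (F 16 L)) (U (F 16 L) (F 16 L))))) (V (S (F 97 L) (F 161 L)) (F 37 (U L (T (F 4 L) (F 4 L)))))) (V (F 161 (S (T (S (F 2 L) (F 2 L)) (F 2 L)) (T (F 16 L) (F 2 L)))) (F 101 (U (T (S L L) (S L L)) (S L L))))) (U (V (F 97 (S (S L L) (S L L))) (T (F 101 (S (U L L) (U L L))) (S (F 100 L) (F 97 (S L L))))) (V (F 97 (V (S (S (F 2 L) (F 2 L)) (S (F 2 L) (F 2 L))) (S L L))) (F 100 (S (T (S (F 1 L) (F 32 L)) (F 1 L)) (U (S (F 32 L) (F 32 L)) (F 32 L))))))))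
noncomputable def v6_52 : Tr := (U (V (F 324 v6_50) (F 596 (S (F 36 (T (U (V (S (T L (F 1 L)) (S L L)) (S (F 1 L) (S (F 1 L) (F 1 L)))) (V (S (T (F 1 L) (F 1 L)) (T L (S (F 1 L) (F 1 L)))) (S (F 1 L) (S (F 1 L) (F 1 L))))) (U (V (S (S (F 1 L) (F 1 L)) (T (S (F 1 L) (F 1 L)) (F 1 L))) (S (F 1 L) (F 1 L))) (V (S (S (F 1 L) (F 1 L)) (T (F 1 L) (F 1 L))) (S (F 1 L) (F 1 L)))))) (T (V (S (U (T (F 5 L) (F 36 L)) (F 36 (T L L))) (F 5 (U (T L L) (T L L)))) (F 132 (U (S (T L (F 2 L)) (S L L)) (S (T (F 2 L) (F 2 L)) (T L (S (F 2 L) (F 2 L))))))) (U (V (S (T (F 36 L) (F 160 L)) (T (F 37 (U (S L L) (S L L))) (F 160 L))) (F 160 (S L L))) (S (F 160 (T (U (S (F 8 L) (F 8 L)) (F 8 L)) L)) (V (T (F 36 L) (F 160 L)) (F 160 L)))))))) (V (F 324 v6_51) (F 596 (S (F 164 (T (U (V (S (S L L) (T L L)) (S L L)) (V (U (S L L) L) L)) (U (V (S L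 (S L L)) L) (S L (S L L))))) (T (U (S (F 36 (V (T L (S (F 1 L) (F 1 L))) (S (F 1 L) (F 1 L)))) (V (T (F 5 L) (S (F 36 L) (F 5 L))) (F 132 (T L (F 2 L))))) (S (F 164 (V (T L L) L)) (V (T (F 5 L) (F 36 (V (F 32 L) (F 1 L)))) (F 164 (T L L))))) (F 160 (U (S (T (V (F 8 L) (F 8 L)) L) (T (U (S (F 8 L) (F 8 L)) (F 8 L)) L)) (S (T (F 8 L) (F 8 L)) (T (S (F 8 L) (F 8 L)) L)))))))))
noncomputable def v6_53 : Tr := (V (S (T (F 13 (U (V (S (T (F 2 L) (F 2 L)) (T (F 2 L) (F 2 L))) (S L L)) (T (S (V (F 2 L) (F 2 L)) (T (F 2 L) (F 2 L))) (V (S (F 2 L) (F 2 L)) L)))) (U (F 13 (V (S (T (F 2 L) L) (T (F 2 L) (F 2 L))) (S (S L L) L))) (V (S (V (F 137 L) (F 13 L)) (F 141 (T L L))) (F 13 (S (S L L) (S L L)))))) (F 13 (T (U (T (S (S (F 2 L) (F 2 L)) (S (F 2 L) (F 2 L))) (V (S (F 2 L) (F 2 L)) L)) (T (S (S (F 2 L) (F 2 L)) (S (F 2 L) (F 2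 L))) (S (S (F 2 L) (F 2 L)) (S (F 2 L) (F 2 L))))) (U (V (T (S (F 2 L) (F 2 L)) (S (F 2 L) (F 2 L))) (S L L)) (S (V (T (F 2 L) (F 2 L)) L) (T (S (F 2 L) (F 2 L)) (V (F 2 L) (F 2 L)))))))) (F 13 (S (T (U (V (S L L) (S L L)) (S (V L L) (T L L))) (U (V (S (S L L) L) (S (S L L) L)) (S (T (S L L) (S L L)) (T L (S L L))))) (T (U (V (S L L) (S L L)) (S (T L L) (T L L))) (U (V (S L L) (S L L)) (T (S L L) (S (S L L) L)))))))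
noncomputable def v6_54 : Tr := (V (S (T (U (S (T (S (F 2 L) (F 2 L)) (V (F 2 L) (F 2 L))) (T (S (F 2 L) (F 2 L)) (S (F 2 L) (F 2 L)))) (S (U (S (F 2 L) (F 2 L)) (S (F 2 L) (F 2 L))) (T (S (F 2 L) (F 2 L)) (S (F 2 L) (F 2 L))))) (U (V (S (T (F 2 L) (F 2 L)) (T (F 2 L) (F 2 L))) (S (S L L) L)) (S (U (T (F 2 L) (F 2 L)) (S (F 2 L) (F 2 L))) (U (S (F 2 L) (F 2 L)) (S (F 2 L) (F 2 L)))))) (T (U (S (T (S (F 2 L) (F 2 L)) (S (F 2 L) (F 2 L))) (T (S (F 2 L) (F 2 L)) (S (F 2 L) (F 2 L)))) (T (S (S (F 2 L) (F 2 L)) (S (F 2 L) (F 2 L))) (S (S (F 2 L) (F 2 L)) (S (F 2 L) (F 2 L))))) (U (S (T (S (F 2 L) (F 2 L)) (V (F 2 L) (F 2 L))) (T (S (F 2 L) (F 2 L)) (S (F 2 L) (F 2 L)))) (T (S (S (F 2 L) (F 2 L)) (S (F 2 L) (F 2 L))) (S (S (F 2 L) (F 2 L)) (S (F 2 L) (F 2 L))))))) (S (T (U (S (T L L) (T L L)) (T (S L L) (S L L))) (U (T (S L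 L) (S (S L L) (S L L))) (V (S L L) (U (S (F 1 L) (F 1 L)) (S (F 1 L) (F 1 L)))))) (T (U (S (S L L) (S L L)) (S (S L L) (U L (S (F 2 L) (F 2 L))))) (U (T (S L L) (S L L)) (S (S L L) (S L L))))))
noncomputable def v6_55 : Tr := (V (S (T (U (V (S (F 9 L) (F 9 L)) (F 13 (T (S L L) (S L L)))) (S (V (F 9 L) (F 13 (T L L))) (V (F 137 (S L L)) (F 13 (T L L))))) (V (S (F 73 (U (T L L) (T L L))) (U (F 9 L) (F 9 L))) (U (S (T (F 13 L) (F 73 (S L L))) (T (F 13 L) (F 9 L))) (T (F 13 (S L L)) (F 73 (S (S L L) (S L L))))))) (T (V (F 137 (U (S (S L L) L) (S L L))) (F 13 (U (T (S L L) (S L L)) (S (S L L) (S L L))))) (V (U (T (F 9 L) (F 9 L)) (V (F 137 (S L L)) (F 9 L))) (S (U (S (F 9 L) (F 9 L)) (F 9 L)) (U (F 9 L) (F 9 L)))))) (S (T (U (F 13 (V (T (S L L) (S L L)) (T (S L L) (S L L)))) (S (T (F 13 (V L L)) (V (F 13 L) (V (F 13 L) (F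 268 L)))) (F 13 (T (S L L) (V L L))))) (V (U (T (F 13 (S L L)) (F 69 (S L L))) (S (T (V (F 13 L) (F 69 L)) (F 69 L)) (T (F 13 L) (F 69 L)))) (U (S (F 324 (S L L)) (F 261 (T L (S (F 2 L) (F 2 L))))) (S (F 324 (S L L)) (F 261 (T L (S (F 2 L) (F 2 L)))))))) (T (F 13 (U (V (T (S L L) (S L L)) (T (S L L) (S L L))) (T (V (S L L) (S L L)) (V (S L L) (S L L))))) (U (V (T (F 13 (S L L)) (S (F 5 L) (F 5 L))) (S (T (F 13 L) (F 261 L)) (F 5 L))) (T (V (F 13 (S L L)) (S (F 261 L) (F 13 L))) (V (S (F 5 L) (F 5 L)) (F 261 (S L L))))))))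
noncomputable def v6_56 : Tr := (V (S (T (U (V (F 137 (S L L)) (F 13 (S (S L L) (S L L)))) (V (F 137 (S L L)) (F 13 (S L L)))) (V (U (S (F 73 (S L L)) (T (F 137 L) (F 73 L))) (F 201 (S (T L L) (S L L)))) (U (S (F 73 (T (U (F 16 L) (F 16 L)) L)) (T (F 13 L) (F 73 L))) (F 73 (S (S L L) L))))) (U (T (V (F 137 (S L L)) (F 13 (T (S L L) (S L L)))) (V (F 137 (S L L)) (S (F 9 L) (F 9 L)))) (T (V (F 137 (S L L)) (F 13 (U (S L (F 2 L)) (S (F 2 L) (F 2 L))))) (F 137 (S (S L L) (S L L)))))) (S (U (T (V (F 13 (T (S L L) (S L L))) (T (F 13 (S (S (F 1 L) (F 1 L)) L)) (F 268 (S L (S (F 32 L) (F 32 L)))))) (S (V (F 69 (T (U (F 16 L) (F 16 L)) (S (F 1 L) (F 1 L)))) (F 324 L)) (T (V (F 13 L) (F 261 L)) (F 69 (V L (F 1 L)))))) (T (V (F 13 (T (S L L) L)) (F 268 (U (S (F 32 L) (F 32 L)) (S (S (F 2 L) (F 32 L)) (F 32 L))))) (U (F 69 (S (T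 (V (S (F 17 L) (F 16 L)) (F 17 L)) (F 1 L)) (T (V (F 16 L) (F 1 L)) (F 1 L)))) (F 261 (S (T (F 18 (V L L)) (F 2 L)) (T (V (F 16 L) (F 18 L)) (F 2 L))))))) (T (F 13 (U (S (T (S L L) (S L L)) (T (S L L) (S L L))) (V (T L (S L L)) (T (S (F 1 L) L) (S (F 1 L) (S (F 1 L) (F 1 L))))))) (U (V (T (F 13 (S L L)) (S (F 69 L) (F 13 L))) (F 261 (S (T L (F 2 L)) (S L L)))) (S (T (V (F 13 L) (F 325 L)) (F 325 (U L L))) (V (F 13 (S L L)) (F 261 L)))))))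
noncomputable def v6_57 : Tr := (U (V (U v6_33 (S (F 2372 v6_34) v6_35)) (U (S (T (F 836 v6_36) (V (F 324 v6_37) (F 596 v6_38))) (F 84 (T (F 13 (V (U (S (T (V (S L (T (F 2 L) (F 2 L))) (S L L)) (V (S (S L L) (S L L)) (S L L))) (T (V (T (S (F 2 L) (F 2 L)) (S (F 2 L) (F 2 L))) (S L L)) (V (S L (T (F 2 L) (F 2 L))) (S L L)))) (S (T (V (S (S L L) (T (F 2 L) (F 2 L))) (S L L)) (V (T (S L (F 2 L)) (S L L)) (S L L))) (T (V (S (T (F 2 L) (F 2 L)) (T (F 2 L) (F 2 L))) (S L L)) (V (T (S (F 2 L) (F 2 L)) (S (F 2 L) (F 2 L))) (S L L))))) (U (S (T (V (S L L) (S L L)) (V (S L L) (S L L))) (T (V (S L L) L) (V (S L L) (S L L)))) (S (T (V (S L L) (S L L)) (V (S L L) (S (S L L) L))) (T (V (S L L) L) (V (S L L) (S L L))))))) v6_39))) v6_43)) (V (S (F 2372 (T v6_44 v6_45)) (F 2306 (T v6_46 v6_47))) (S (T (F 836 (U v6_48 v6_49)) v6_52) (F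 84 (T (U v6_53 (F 13 v6_54)) (U v6_55 v6_56))))))
noncomputable def v6_58 : Tr := (V (F 137 (U (S (T (V L (S (S (F 2 L) (F 2 L)) (S (F 2 L) (F 2 L)))) (V (F 6 (S L L)) (S (T (F 2 L) (F 2 L)) (F 2 L)))) (T (S (S (F 2 L) (F 2 L)) (S (F 2 L) (F 2 L))) (F 6 (V L (S (S L L) L))))) (S (T (V (F 2 L) (S (S (F 2 L) (F 2 L)) (F 2 L))) (V (F 6 (S L L)) (S (S (F 2 L) (F 2 L)) (F 2 L)))) (T (S (S (F 2 L) (F 2 L)) (F 2 L)) (F 6 (S (S L L) L)))))) (U (S (T (F 73 (V (S (T L L) (T L L)) (S (T (S L L) (S L L)) (T (S L L) (S L L))))) (V (F 73 (S (V L (S L L)) (T L L))) (S (T (F 73 (V L L)) (S (F 65 L) (F 65 L))) (T (F 73 (S L L)) (F 65 L))))) (T (F 73 (V (S (S L L) (T (F 2 L) (F 2 L))) (S (T (S L L) (S L L)) (T L L)))) (V (F 73 (S (S L L) L)) (S (T (F 73 (S L L)) (F 65 L)) (F 73 (T (S L L) L)))))) (S (T (F 73 (V (S (T L L) (S L L)) (S (T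 (S L L) (V L L)) (T (S L L) (S L L))))) (V (F 73 (S (T L L) (S L L))) (S (T (F 73 (V L L)) (F 65 L)) (T (F 73 (S L L)) (F 65 L))))) (T (F 73 (V (S (T (F 2 L) L) (S (F 2 L) (F 2 L))) (S (T L (S L L)) (T L L)))) (V (F 73 (S L L)) (S (T (F 73 (S L L)) (F 65 L)) (F 73 (T L L))))))))
noncomputable def v6_59 : Tr := (V (U (F 97 (S (V (F 10 (T (S L L) (S L L))) (T (S (S (F 8 L) (F 8 L)) (F 10 (S L L))) (S L (F 2 L)))) (F 10 (V (S L L) (T (S L L) (S L L)))))) (S (V (F 233 (T L L)) (T (F 73 (S (T (F 2 L) (F 4 L)) (F 6 (S L L)))) (F 225 (S L L)))) (F 233 (V (S L L) (T (S L L) (S L L)))))) (U (S (T (V (T (F 73 (S (S L L) L)) (F 97 (S L L))) (S (T (F 65 L) (F 65 L)) (T (F 65 L) (F 97 (S L L))))) (F 97 (U (K 5) (V (S L L) (S (K 5) L))))) (T (V (F 105 (S (T L L) (S L L))) (S (T (F 65 L) (F 97 L)) (F 97 (S L L)))) (F 97 (V (S L (F 2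 L)) (S L L))))) (S (T (V (S (T (F 65 L) (F 97 L)) (F 97 (S L L))) (S (T (F 65 L) (F 65 L)) (T (F 65 L) (F 97 L)))) (V (F 97 (S L L)) (S (F 352 (S L (F 32 L))) (F 97 L)))) (F 97 (T (V (T (S (F 8 L) (F 8 L)) L) (S (T L L) (S L L))) (V (S L (F 2 L)) (S L L)))))))
noncomputable def v6_60 : Tr := (T (V (F 116 (U (S (T (V L (S L L)) (S L L)) (T (V (S L L) (S L L)) (S L L))) (S (T (V L (S L L)) (S L L)) (T (V L (S L L)) (S L L))))) (U (S (F 36 (T (V (S (S (F 2 L) (F 2 L)) (S (F 2 L) (F 2 L))) (S (T L L) (T L L))) (V (S (T (F 2 L) (F 4 L)) (F 6 (T L L))) (S (T L L) (T L (S (F 4 L) (F 4 L))))))) (T (T (V (F 68 L) (F 4 L)) (V (F 116 (S L L)) (S (F 36 L) (F 20 L)))) (F 52 (V (S (S (F 2 L) (F 2 L)) (F 2 L)) (S (T (S L L) L) (T (S L L) L)))))) (S (F 36 (T (V (S (S (F 2 L) (F 2 L)) (F 2 L)) (S (T L L) (S L L))) (V (S (T (F 2 L) (F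 6 L)) (F 6 (S L L))) (S (S L L) (T L (S (F 4 L) (F 4 L))))))) (T (T (F 68 (S (S L L) L)) (V (F 116 (S L L)) (S (F 36 L) (F 84 L)))) (F 52 (V (S (F 2 L) (F 2 L)) (S (T L L) (S L L)))))))) (F 48 (V (F 10 (S (V (S L L) (T (S L L) (S L L))) (V L (T (S L L) L)))) (U (S (T (V (S (F 8 L) (F 10 (S L L))) (S (S L L) L)) (V L (S L L))) (V (T (F 10 (S L L)) (F 2 L)) (T (S L L) (S L (F 2 L))))) (S (T (V (S (F 8 L) (F 10 L)) (S L L)) (V L (S L (F 2 L)))) (V (T (F 10 (S L L)) (F 2 L)) (T (S L (F 8 L)) L)))))))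
noncomputable def v6_61 : Tr := (V (F 137 (U (S (T (T L (S (F 2 L) (F 2 L))) (V (F 6 L) (S (F 2 L) (F 2 L)))) (T (S (F 2 L) (F 2 L)) (F 6 (S (S L L) L)))) (S (T (S (S (F 2 L) (F 2 L)) (F 2 L)) (V (F 6 L) (S (F 2 L) (F 6 L)))) (T (S (F 2 L) (F 2 L)) (F 6 (S L L)))))) (U (S (T (F 73 (V (T (S L L) (S L L)) (S (T (S L L) (S L L)) (T (S L L) (S L L))))) (V (F 73 (S (T L L) (S L L))) (S (T (F 73 (V L L)) (F 65 L)) (V (F 73 (S L L)) (F 65 L))))) (F 73 (T (V (S (T (F 2 L) (F 2 L)) (S (F 2 L) (F 2 L))) (S (T L L) (T L L))) (V (S L (T (F 2 L) (F 4 L))) (S (T L L) (T L L)))))) (S (V (F 73 (T (S (T L L) (T (F 2 L) (F 2 L))) (S (S L L) L))) (T (F 73 (S (T (S L L) (S L L)) (T L L))) (T (F 73 (S (S L L) (S L L))) (S (F 65 L) (F 65 L))))) (F 73 (V (T (S (S (F 2 L) (F 2 L)) (F 2 L)) (V (S (F 2 L) (F 6 L)) L)) (T (S (T L L) (S L L)) (S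 (T L L) (S L L))))))))
noncomputable def v6_62 : Tr := (T (V (F 116 (S (T (U (S (S L L) (S L L)) (S L L)) (U (S L L) L)) (T (U (V L (S L L)) (S L L)) (U (S L L) L)))) (U (S (T (F 36 (V (S (F 2 L) (F 2 L)) (S (S L L) (S L L)))) (V (F 116 (S (S L L) L)) (T (F 36 (S L L)) (F 48 (S L (F 8 L)))))) (T (T (F 68 (S L L)) (S (F 36 (V (F 6 L) L)) (F 84 (S L L)))) (F 52 (V (S (F 2 L) (F 2 L)) (S (S L L) (S L L)))))) (S (F 36 (T (V (S (F 2 L) (F 2 L)) (T (S L (F 2 L)) (S L (F 2 L)))) (V (F 6 (S L L)) (T (S L (F 4 L)) (S (F 4 L) (F 4 L)))))) (T (F 68 (S (V (F 6 L) (S (F 2 L) (F 2 L))) (T (S (F 4 L) (F 4 L)) (F 4 L)))) (F 52 (V (S (F 2 L) (F 2 L)) (S L (V (F 2 L) L)))))))) (F 48 (V (F 10 (S (V (S L L) (U (S L L) (S L L))) (U (S L L) (S L L)))) (U (S (V (T (V (F 10 L) (F 8 L)) (F 2 L)) (T (S L L) L)) (T (V (F 10 (S L L)) (S (F 2 L)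 (F 2 L))) (V (F 2 L) L))) (S (V (S (F 2 L) (F 10 (S L L))) (T (S L (F 2 L)) L)) (T (V (F 10 L) (S (F 2 L) (F 2 L))) (S (F 2 L) (F 2 L))))))))
noncomputable def v6_63 : Tr := (U (S (T (V (T (S (F 76 (V (S (F 32 L) (F 32 L)) L)) (F 73 (V L (S (F 16 L) (F 16 L))))) (S (V (S (F 76 L) (F 73 L)) (F 76 L)) (V (F 73 L) (F 69 L)))) (T (F 76 (S (S L L) (S L L))) (S (F 68 L) (F 68 L)))) (V (S (T (F 68 L) (F 68 L)) (T (V (F 73 L) (F 69 L)) (F 65 L))) (S (F 324 (T L L)) (T (F 68 L) (F 324 L))))) (T (V (S (V (F 73 (S L L)) (F 69 (T (S (F 16 L) (F 16 L)) L))) (F 73 (T (S L L) (S L L)))) (F 69 (T (S (V (S (F 16 L) (F 16 L)) L) (V (S (F 16 L) (F 16 L)) L)) (S (S L L) (S L L))))) (S (V (T (F 65 L) (F 65 L)) (F 69 (T (S L L) L))) (V (T (F 65 L) (F 65 L)) (F 69 (T (S L L) L)))))) (S (T (V (T (S (V (S (F 76 L) (F 73 L)) (F 76 L)) (F 73 (V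 L (S (F 16 L) (F 16 L))))) (S (V (F 73 L) (F 76 L)) (V (F 73 L) (F 69 L)))) (T (F 76 (S (S L L) (S L L))) (S (F 68 L) (F 68 L)))) (V (S (T (F 68 L) (F 68 L)) (T (F 65 L) (F 65 L))) (F 324 (S (S L L) (T L L))))) (T (V (F 73 (S (T (S L L) (S L L)) (T (S L L) (S L L)))) (F 69 (T (S (S L L) (S L L)) (S (S L L) (S L L))))) (V (S (T (F 65 L) (F 65 L)) (S (F 65 L) (F 65 L))) (S (T (F 69 (S L L)) (F 324 L)) (V (F 65 L) (F 69 (S L L))))))))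
noncomputable def v6_64 : Tr := (T (V v6_63 (U (S (F 324 (T (V (S (S L L) (T L L)) (S (F 8 L) L)) (V (S L L) L))) (T (V (S (T (F 68 L) (F 324 L)) (F 69 (T (S L L) L))) (F 324 (S L (S L L)))) (F 324 (V (S (S L L) (T (S (F 32 L) (F 32 L)) (F 32 L))) (S L L))))) (S (F 324 (T (V (S L (S L L)) (S (F 8 L) L)) (S L (S L L)))) (T (V (S (F 324 (T L L)) (F 69 (T L L))) (F 324 (S L L))) (F 324 (V (S L L) (S (F 2 L) (F 2 L)))))))) (V (U (S (T (V (S (T (F 68 L) (F 324 L)) (S (F 65 L) (F 65 L))) (F 324 (S L L))) (F 352 (S (K 4) (V (S (K 4) (F 32 L)) (F 8 L))))) (T (V (T (S (F 65 L) (F 65 L)) (F 97 (S L L))) (F 69 (S (T (S (F 1 L) (F 1 L)) (F 1 L)) (T L (F 5 (S L L)))))) (F 352 (V (S (S (F 32 L) (F 32 L)) (F 32 L)) (S (F 8 L) (F 40 L)))))) (S (T (V (S (F 320 L) (S (F 320 L) (F 65 L))) (F 324 (S L L))) (F 352 (V (S L L) (S (F 8 L) (F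 8 L))))) (T (V (T (S (F 65 L) (F 97 L)) (F 97 (S L L))) (S (F 324 L) (F 321 (T L (F 2 L))))) (F 353 (S (V L (F 8 L)) (V L (F 8 L))))))) (F 324 (U (S (T (S L L) (S (F 6 L) (F 2 L))) (T (S L L) (S (F 2 L) (F 2 L)))) (S (T (S (F 2 L) L) (F 2 L)) (T (S L (S (F 2 L) (F 2 L))) (S (F 2 L) (F 34 L))))))))
noncomputable def v6_65 : Tr := (U (S (T (V (S (F 73 (T (S L L) (S L L))) (T (F 9 L) (F 73 (S L L)))) (T (S (F 69 (V (S (F 16 L) (F 16 L)) L)) (F 73 (V L (S (F 16 L) (F 16 L))))) (F 69 (S (S L L) (S L L))))) (V (S (S (F 65 L) (F 65 L)) (T (F 73 (S L L)) (F 97 (S L L)))) (S (F 69 (T (S L L) L)) (S (F 65 L) (F 65 L))))) (T (V (S (T (F 9 L) (F 73 (S L L))) (S (F 9 L) (F 9 L))) (T (F 13 (S (S L L) (S L L))) (S (S (F 69 L) (F 65 L)) (F 9 L)))) (V (T (S (F 73 (S L L)) (F 97 (V (F 8 L) L))) (F 97 (S L L))) (S (T (F 65 L) (F 97 L))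 (T (F 65 L) (F 97 L)))))) (S (T (V (F 73 (S (T (S L L) (S L L)) (T (S L L) (S L L)))) (T (S (V (F 73 L) (F 69 L)) (T (F 13 L) (F 69 L))) (S (F 69 (S L L)) (F 65 L)))) (V (S (S (F 65 L) (F 65 L)) (T (F 65 L) (F 97 L))) (S (S (F 65 L) (F 65 L)) (S (F 65 L) (F 65 L))))) (T (S (V (T (F 9 L) (F 73 (S L L))) (T (F 9 L) (F 65 L))) (V (S (F 9 L) (F 9 L)) (T (F 9 L) (F 9 L)))) (V (S (T (F 73 L) (F 97 L)) (F 97 (S (S L L) L))) (S (T (F 65 L) (F 97 L)) (F 97 (V L (S L L))))))))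
noncomputable def v6_66 : Tr := (T (V v6_65 (U (S (T (F 69 (V (T (S (S L L) (S L L)) (S L L)) (S (T (S (F 1 L) (F 1 L)) (F 1 L)) (T L (F 1 L))))) (V (F 69 (T (S L L) (S (F 1 L) (F 1 L)))) (F 324 (S L (S (F 32 L) (F 32 L)))))) (T (V (S (T (F 5 L) (F 69 (S L L))) (T (F 5 L) (F 69 (S L L)))) (S (F 69 (T L (S (F 1 L) (F 1 L)))) (T (F 5 L) (F 69 L)))) (F 69 (V (S (T L (F 4 L)) (T L (S (F 4 L) (F 4 L)))) (S (S (F 1 L) (F 1 L)) (T (F 1 L) (F 5 L))))))) (S (T (V (F 69 (T (S (S L L) (S L L)) (S L L))) (S (F 324 (S L L)) (F 69 (V L (S (F 1 L) (F 1 L)))))) (F 69 (V (S (V L (S (F 1 L) (F 1 L))) (T L (F 1 L))) (S (F 1 L) (F 1 L))))) (T (V (T (S (F 5 L) (F 5 L)) (F 69 (S (S L L) (S L L)))) (F 69 (S (T L (S (F 1 L) (F 1 L))) (T L L)))) (F 69 (V (T (S L L) (S (F 4 L) (F 4 L))) (S (F 1 L) (T (F 1 L) (F 5 L))))))))) (V (U (S (T (V (F 97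 (S (S L L) (S L L))) (S (T (F 69 L) (F 353 L)) (F 97 L))) (F 353 (V (S L L) (S (F 8 L) L)))) (F 97 (T (V (S (S L L) (S L L)) (S L L)) (V (S L L) (S (F 1 L) (F 1 L)))))) (F 97 (S (V (T (S (S L L) (S L L)) (S (F 1 L) (F 1 L))) (T (S (S (F 1 L) (F 1 L)) L) (F 17 (S L L)))) (T (V (S L L) (S L L)) (V L (S (F 17 L) (F 1 L))))))) (F 352 (U (S (F 40 (T (V (S (S L L) (S L L)) (S L L)) (S L L))) (T (V (S (F 40 (S L L)) (S (F 40 L) (F 32 L))) (F 40 (S L L))) (F 40 (S L L)))) (S (T (V (F 40 (S (S L L) (S L L))) (F 8 L)) (F 40 (S L L))) (T (V (S (F 40 (S L L)) (F 32 L)) (F 40 L)) (F 40 (S L L))))))))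
noncomputable def v6_67 : Tr := (U (S (T (V (S (V (S (F 72 L) (F 72 L)) (F 76 (T L L))) (V (F 73 (T L L)) (F 72 L))) (S (T (F 76 L) (F 324 L)) (S (F 68 L) (F 68 L)))) (V (S (F 64 L) (T (F 65 L) (F 65 L))) (F 324 (S (S L L) (S L L))))) (T (V (F 73 (S (T (S L L) (S L L)) (T (S L L) (S L L)))) (S (V (S (F 68 L) (F 65 L)) (F 68 L)) (V (F 65 L) (F 69 (T L L))))) (V (S (S (F 65 L) (F 65 L)) (S (F 65 L) (F 65 L))) (S (T (F 68 L) (F 324 L)) (S (F 65 L) (F 65 L)))))) (S (T (V (S (S (F 72 L) (F 72 L)) (V (F 73 (T L L)) (F 72 L))) (S (T (F 76 L) (F 324 L)) (S (F 68 L) (F 68 L)))) (V (S (S (F 320 L) (F 320 L)) (F 64 L)) (F 324 (S L (S L L))))) (T (V (F 73 (S (T (S L L) (S L L)) (T (S L L) (S L L)))) (S (T (S (F 76 L) (F 69 L)) (F 68 L)) (V (F 65 L) (S (F 68 L) (F 69 L))))) (V (S (S (F 65 L) (F 65 L)) (F 65 L)) (S (F 324 (S L L))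 (S (F 321 L) (F 65 L)))))))
noncomputable def v6_68 : Tr := (V (U (S (T (V (F 73 (S (T (S L L) (S L L)) (T (S L L) (S L L)))) (S (S (F 69 (T L L)) (S (F 65 L) (F 65 L))) (S (S (F 65 L) (F 65 L)) (F 65 L)))) (S (V (S (F 65 L) (F 65 L)) (F 65 L)) (V (T (F 73 L) (F 97 L)) (F 65 L)))) (T (S (V (T (F 9 L) (F 73 L)) (T (F 9 L) (F 65 L))) (V (F 9 L) (T (F 9 L) (F 65 L)))) (V (F 97 (S (S L L) (S L L))) (S (T (F 65 L) (F 97 L)) (F 97 (T L L)))))) (S (T (V (F 73 (S (T L (S L L)) (T L L))) (S (S (F 65 L) (F 65 L)) (S (F 65 L) (F 65 L)))) (V (S (F 65 L) (F 97 (S L L))) (S (F 65 L) (F 65 L)))) (T (V (S (F 73 (T L L)) (F 9 L)) (T (S (F 9 L) (F 9 L)) (S (F 65 L) (F 65 L)))) (F 97 (V (S (S L L) L) (S (S L L) (S L L))))))) (U (S (T (V (F 69 (T (S L (S L L)) (S L L))) (F 324 (S L (T (S (F 32 L) (F 32 L)) (F 32 L))))) (F 69 (V (S (T (F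 1 L) (F 1 L)) (T L (F 1 L))) (S (F 1 L) (F 1 L))))) (T (V (T (S (F 5 L) (F 5 L)) (F 69 (S L (S L L)))) (F 69 (T (S L L) (S (F 1 L) (S (F 1 L) (F 1 L)))))) (F 69 (T (V (S L L) (S (F 1 L) (F 1 L))) (V (S (F 5 (S L L)) (F 4 L)) (F 5 (S L L))))))) (S (T (V (F 69 (S (T L (S (F 1 L) (F 1 L))) (T L L))) (F 324 (S L (T (F 32 L) (F 32 L))))) (F 324 (V (S (S (F 32 L) (F 32 L)) (S (F 32 L) (F 32 L))) L))) (T (V (S (F 69 (T (S L L) L)) (T (F 5 L) (F 69 L))) (F 69 (S (V L (S (F 1 L) (F 1 L))) (T L (F 1 L))))) (V (S (T (F 69 L) (F 353 L)) (F 97 L)) (F 325 (T L (F 2 L))))))))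
noncomputable def v6_69 : Tr := (S (T (V v6_67 (U (S (F 324 (T (V (S L (S L L)) L) (S L L))) (T (V (S (F 324 (S L L)) (T (F 69 L) (F 324 L))) (F 324 (S L L))) (F 324 (V (S L L) L)))) (F 324 (S (T (S L (S L L)) (S L L)) (T (V (S (S L L) (S L L)) (S L L)) (S L (S L L))))))) (V (U (S (T (V (S (F 320 L) (F 320 L)) (F 324 (S L L))) (F 352 (V (S (F 8 L) (F 32 L)) (F 8 L)))) (T (V (F 97 (T (S L L) (S (F 1 L) (F 1 L)))) (S (F 324 L) (F 353 (S L L)))) (F 352 (V (S (F 32 L) (F 32 L)) L)))) (S (T (V (S (F 320 L) (F 320 L)) (F 356 (S L L))) (F 352 (V L (F 8 L)))) (V (T (S (F 352 (S L (F 32 L))) (F 97 L)) (F 353 (S L L))) (F 352 (S (S L L) (S L L)))))) (F 324 (U (S (T (S (F 2 L) (F 2 L)) (F 2 L)) (T (S (F 2 L) (F 2 L)) (F 2 L))) (S (T L (F 2 L)) (T (S (F 2 L) (F 2 L)) (F 2 L))))))) (T v6_68 (V (F 97 (U (S (T (V (S L L) (T (S (F 1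 L) (F 1 L)) (F 1 L))) (V (S (F 1 L) (F 1 L)) (F 1 L))) (T (V (S L L) (S L L)) (V L (F 1 L)))) (S (T (V (S L L) (S (F 1 L) (F 1 L))) (S (F 1 L) (F 1 L))) (V (S (S L L) L) (T (S (F 1 L) (F 1 L)) (F 1 L)))))) (F 352 (U (S (T (S (F 8 L) (F 40 (V L L))) (F 40 (S L L))) (T (V (S (F 40 L) (F 32 L)) (F 40 L)) (F 40 (S L L)))) (S (T (S (F 8 L) (F 40 (S L L))) (F 40 (S L L))) (F 40 (T (V (S L L) L) L))))))))
noncomputable def v6_70 : Tr := (U (V (F 137 (S (T (V L (U (S (F 2 L) (F 2 L)) (F 2 L))) (U (V (F 6 L) (F 2 L)) (F 6 (S (S L L) L)))) (U (V (F 6 L) (T (F 2 L) (F 6 L))) (F 6 (T (S L L) L))))) (S (T (V (F 201 (U (S (T L L) (S L L)) (S (S L L) L))) (U (S (V (F 73 (S L L)) (F 72 L)) (F 73 (T L L))) (S (S (F 72 L) (F 73 L)) (F 73 (S L L))))) (V (F 201 (U (S (T L L) (S L L)) (S (S L L) L))) (S (U (F 72 L) (F 72 L)) (S (T (F 65 L)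 (F 65 L)) (S (F 65 L) (F 65 L)))))) (T (F 73 (U (V (S (F 2 L) (F 2 L)) (S (S L L) L)) (V (S (F 2 L) (F 2 L)) (S L (T (F 2 L) (F 2 L)))))) (U (F 73 (V (S (F 2 L) (F 6 (S L L))) (S (S L L) L))) (V (F 233 (S (S L L) L)) (T (F 73 L) (F 97 L))))))) (V (F 201 (S (T (U L L) (U (S (F 2 L) (F 2 L)) (F 2 L))) (U (T (S (F 2 L) (F 2 L)) (F 2 L)) (S (F 2 L) (F 2 L))))) (S (T (U (F 73 (V (S (F 2 L) (F 2 L)) (V (S (S (F 2 L) (F 2 L)) (F 2 L)) (S L L)))) (F 200 (V (S (F 32 L) (F 32 L)) (S (S (F 1 L) (F 32 L)) (F 32 L))))) (U (V (F 201 (S L L)) (S (F 328 L) (F 201 (S L L)))) (F 200 (V (F 34 (S L L)) (S (F 1 L) (S (F 1 L) (F 33 L))))))) (F 193 (T (U (V (F 8 L) (S (S (F 8 L) (F 8 L)) (F 8 L))) (S (F 8 L) (F 8 L))) (U (T (S (F 8 L) (F 8 L)) (V (F 10 L) (F 2 L))) (F 10 (S (S L L) L))))))))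
noncomputable def v6_71 : Tr := (U (V (F 116 (S (U (T (S L L) L) (S L L)) (U (T (S L L) L) (S L (S L L))))) (S (T (F 36 (U (V (S (F 2 L) (F 6 L)) (V (S (F 2 L) (F 2 L)) (S L L))) (V (F 2 L) (S (S (F 2 L) (F 2 L)) (F 2 L))))) (U (F 48 (V (F 10 (S L L)) (T (S (F 8 L) (F 8 L)) (S (F 8 L) (F 2 L))))) (F 96 (V (F 10 (S L L)) (T (S (F 8 L) (F 10 L)) (F 2 L)))))) (U (T (F 68 (T (S (F 2 L) (F 4 L)) (V (F 6 L) (S (F 2 L) (F 6 L))))) (F 52 (V (F 2 L) (V (S (F 2 L) (F 2 L)) (S L (F 2 L)))))) (F 68 (T (V (F 6 (S L L)) (T (S (F 2 L) (F 4 L)) (F 6 (S L L)))) (F 6 (V L (S (S L L) L)))))))) (F 100 (S (V (U (S (F 2 L) (F 2 L)) (F 2 L)) (U (T (S (S L L) (T L (F 2 L))) (V (F 2 L) (S (S (F 2 L) (F 2 L)) (F 2 L)))) (T (S L (S (F 2 L) (F 2 L))) (S (F 2 L) (F 2 L))))) (V (U (S (F 2 L) (F 2 L)) (S (F 2 L) (F 2 L))) (U (T (V (S (F 2 L) (F 2 L))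 (S (S (F 2 L) (F 2 L)) (S (F 2 L) (F 2 L)))) (S (F 2 L) (F 2 L))) (T (S (S (F 2 L) (F 2 L)) (F 2 L)) (S (F 2 L) (F 2 L))))))))
noncomputable def v6_72 : Tr := (S (F 76 (T v6_70 (U (V (F 225 (S (U (V (F 4 L) (T (S (F 4 L) (F 4 L)) L)) (T (S (F 4 L) (F 4 L)) (F 4 L))) (U (S (F 4 L) (F 4 L)) (S (F 4 L) (F 4 L))))) (S (S (V (F 97 (T (U L (F 2 L)) (U (F 1 L) (F 3 L)))) (F 352 (U (T (S L L) (F 32 L)) L))) (F 97 (V (T (V (F 2 L) L) (F 3 (S L L))) (T (U L (S (F 1 L) (F 1 L))) (F 1 L))))) (F 97 (T (V (S (S (F 2 L) (F 2 L)) (F 2 L)) (S (S L L) L)) (V (F 2 L) (S (F 1 L) (F 1 L))))))) (F 224 (S (V (V (F 36 L) (T (F 36 (S L L)) (F 33 L))) (S (V (F 33 (U (S L L) L)) (S (F 1 L) (F 1 L))) (U (V (F 33 L) (S (F 1 L) (F 33 L))) (F 33 L)))) (V (F 36 (S L L)) (F 33 (S (U (V L (S L L)) L) (U (S L L) L))))))))) (F 2132 (T v6_71 (F 112 (U (V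 (S (U (S (F 4 L) (F 4 L)) (F 4 L)) (S (F 4 L) (F 4 L))) (S (S (V (S L L) (T (S L L) (F 1 L))) (U (T L (F 1 L)) L)) (T (V (S (F 4 L) (F 4 L)) (S L L)) (S L L)))) (V (S (S (F 4 L) (F 4 L)) (F 4 L)) (S (T (S (S (F 1 L) (F 1 L)) L) (F 1 L)) (T (S L (F 4 L)) (F 1 L)))))))))
noncomputable def v6_73 : Tr := (U (V (S (T (V (U (S (S (F 72 L) (F 72 L)) (T (F 73 (S L L)) (F 72 L))) (S (F 72 L) (F 72 L))) (S (F 324 (U (S L L) (S L L))) (U (T (F 76 L) (F 324 L)) (F 324 (S L L))))) (V (U (S (F 320 L) (F 320 L)) (S (F 320 L) (F 320 L))) (F 324 (U (S L L) (S L L))))) (T (V (U (S (T (F 73 (S L L)) (F 65 L)) (F 73 (T L L))) (F 73 (S (T L L) (T L L)))) (S (U (F 68 L) (T (F 76 L) (F 324 L))) (U (S (F 65 L) (F 65 L)) (F 65 L)))) (S (V (U (F 65 L) (F 321 (S L L))) (S (F 320 L) (F 320 L))) (V (U (F 65 L) (F 65 L)) (F 321 (U (S L L) L))))))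 (F 324 (S (T (U (S L (S L L)) (S L L)) (U (S L L) L)) (T (U (V (S L (S L L)) (S L L)) (V (S L L) L)) (V (U (S L L) L) (S (F 2 L) L)))))) (V (S (T (U (V (S (F 328 (S L L)) (F 72 L)) (F 324 (S (S (F 8 L) (F 8 L)) L))) (F 328 (V (S L L) (S (F 8 L) (S (F 8 L) (F 8 L)))))) (S (V (F 320 L) (F 324 L)) (S (F 320 L) (F 320 L)))) (T (U (V (F 73 (S (S L L) L)) (S (F 324 (S L L)) (F 321 (S L L)))) (S (V (F 73 (T (F 2 L) (F 1 L))) (F 324 L)) (V (F 201 (S L L)) (F 321 L)))) (V (F 321 (U (S L L) (S (F 2 L) (F 2 L)))) (S (F 320 L) (F 320 L))))) (F 324 (S (T (U (S (F 8 L) L) L) (S L L)) (T (U (S L (S L L)) (S L L)) (U L L))))))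
noncomputable def v6_74 : Tr := (V (S (T (S (V (F 73 (U (T L L) (S L L))) (U (S (F 65 L) (F 65 L)) (F 65 L))) (V (F 73 (U (T L L) (S L L))) (U (S (F 65 L) (F 65 L)) (F 65 L)))) (T (U (V (F 65 L) (F 65 L)) (S (F 65 L) (F 65 L))) (V (F 97 (U (S L L) L)) (F 321 (S L (U (F 2 L) (F 2 L))))))) (T (T (S (U (F 73 (V L (S L L))) (V (F 73 L) (F 65 L))) (U (S (F 9 L) (F 9 L)) (F 9 L))) (V (S (V (F 73 L) (F 65 L)) (F 105 (U (S L L) (S L L)))) (U (S (F 65 L) (F 97 L)) (F 65 L)))) (F 97 (S (V (U L L) (U L L)) (V (U L L) (U L L)))))) (S (T (U (V (F 69 (T (S L L) (V L (S (F 1 L) (F 1 L))))) (F 324 (S L (S (F 32 L) (F 32 L))))) (S (F 324 (V (T (S (F 32 L) (F 32 L)) (F 32 L)) L)) (F 69 (V (T L (F 1 L)) (S (F 1 L) (F 1 L)))))) (F 324 (S (U L L) (U (U (S (F 32 L) (F 32 L)) (F 32 L)) (T (F 32 L) (F 34 (S L L))))))) (T (U (V (T (S (F 69 L)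 (F 5 L)) (F 69 (S L L))) (F 69 (S (T (F 1 L) (F 1 L)) (V L (F 1 L))))) (F 69 (V (S (T L (S (F 1 L) (F 1 L))) (T L L)) (T (S (F 1 L) (F 1 L)) (F 1 L))))) (F 97 (U (V (V L (S (F 17 (S L L)) (F 1 L))) (F 17 (S L L))) (V (S (F 1 L) (F 1 L)) (F 17 (S L L))))))))
noncomputable def v6_75 : Tr := (V (S (T (U (V (F 73 (S L L)) (S (F 65 L) (F 65 L))) (V (F 201 (S (S L L) L)) (F 321 (S L L)))) (F 97 (U (V L (S (F 1 L) (F 1 L))) (V (V (F 2 L) (F 1 L)) (S (F 1 L) (F 1 L)))))) (T (U (V (S (F 73 (T (F 2 L) (F 4 L))) (F 41 (V (T (F 2 L) (F 6 L)) (F 4 L)))) (T (F 73 (S L L)) (F 97 (S L L)))) (V (F 233 (U (S (S L L) L) (S L L))) (T (F 73 L) (F 97 L)))) (F 97 (V (U (S (F 2 L) (F 2 L)) (F 2 L)) (U (S (F 1 L) (F 1 L)) (F 1 L)))))) (S (T (F 324 (U (V (T (S (F 32 L) (S (F 32 L) (F 32 L))) (S (F 32 L) (F 32 L))) L) (V (S (S (F 32 L) (F 32 L))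 (S (F 32 L) (F 32 L))) L))) (V (S (S (F 324 L) (F 352 L)) (F 321 (T L (F 2 L)))) (F 356 (S L L)))) (U (T (V (V (S (F 321 L) (F 97 L)) (F 325 (T (S L L) L))) (F 325 (S L L))) (F 353 (V (S L L) (S (F 8 L) (F 8 L))))) (F 325 (T (S (S L L) (T (S L L) (S (F 2 L) (F 2 L)))) (S (F 2 L) (F 2 L)))))))
noncomputable def v6_76 : Tr := (S (T v6_73 (U (V (S (V (T (S (F 320 L) (F 352 (S L L))) (F 352 (S L L))) (F 324 (T (S L L) (S (F 2 L) (F 2 L))))) (F 352 (V (T (U (S (S (F 32 L) (F 32 L)) (F 32 L)) (S (F 32 L) (F 32 L))) (S (F 32 L) (F 32 L))) (T (S L L) L)))) (F 324 (S (T (S (F 2 L) L) (F 2 L)) (T (V (S (F 2 L) (F 2 L)) (F 2 L)) (S (F 2 L) (F 2 L)))))) (F 352 (V (S (T (S (S L L) (S L L)) L) (T (S L (V (F 32 L) (F 32 L))) (S (F 1 L) (F 32 L)))) (S (U (S (F 10 L) (F 8 L)) (F 8 L)) (U (S (F 8 L) (F 8 L)) (F 8 L))))))) (T (U v6_74 v6_75)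 (U (V (F 97 (S (T (U (V L (S (F 1 L) (F 1 L))) (V (S (F 1 L) (F 1 L)) (F 1 L))) (V (S (F 1 L) (F 3 L)) (F 1 L))) (T (V (S L L) (S (S (F 1 L) (F 1 L)) (S (F 1 L) (F 1 L)))) (S (F 1 L) (F 1 L))))) (F 352 (S (T (V (S (F 8 L) (F 32 L)) (F 8 L)) (S (F 8 L) (F 40 L))) (T (V (S (F 32 L) (F 32 L)) (F 40 (S L L))) (F 40 (S L L)))))) (F 352 (V (S (V (F 33 (U (S L L) L)) (S (F 32 L) (F 32 L))) (T (V (F 33 (S L L)) (F 32 L)) (F 33 (S L L)))) (S (T (F 40 (U (S L L) L)) (F 8 L)) (T (V (F 32 L) (F 40 L)) (F 40 L))))))))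
noncomputable def v6_77 : Tr := (V (U (S (F 152 (T (U (V (F 40 (S (F 8 L) L)) (F 9 (T L L))) (F 41 L)) (U (V (T (F 33 (S (F 2 L) L)) (F 1 L)) (F 9 (T L (S (F 8 L) L)))) (F 9 (V (F 1 L) (F 8 L)))))) (T (F 137 (U (U (V (T (F 24 L) (F 8 L)) (T (F 24 (U (S (F 8 L) L) L)) (S (F 24 L) (F 16 L)))) (V (S (F 24 L) (F 8 L)) (F 24 (T L (S (F 8 L) L))))) (F 24 (U (V L (F 8 (T L L))) (F 8 (T L L)))))) (V (F 137 (U (S (T (F 8 L) (S (F 1 L) (F 1 L))) (T L L)) (S (F 9 L) (F 1 L)))) (U (S (F 392 (V (T (F 4 L) (S (F 4 L) (F 1 L))) (T (F 12 (U L (F 8 L))) (S (F 12 L) (F 1 L))))) (T (F 137 (S (U (F 16 L) (F 17 L)) L)) (F 200 (U (S (F 1 L) (S (F 32 L) (F 32 L))) (F 33 (S L L)))))) (F 392 (U (S (F 13 L) (T (F 40 (S (F 2 L) (F 8 L))) (F 33 L))) (F 45 (T L L)))))))) (F 413 (U (T L (F 1 (T L L))) (F 3 L)))) (U (S (F 412 (U (T (V (T L L) (F 1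 (T L L))) (F 1 (V (T L L) L))) (F 1 (T L L)))) (T (V (U (S (F 412 (U (T L L) L)) (T (F 140 (U (S (F 9 (T L L)) (V (F 32 L) (F 8 L))) (V (F 40 L) (F 9 L)))) (U (V (F 141 L) (F 332 (S (F 4 L) L))) (F 460 (S (F 2 (T L L)) L))))) (F 412 (U (T (F 8 L) (V (F 8 L) (F 1 L))) (F 9 (S L L))))) (F 348 (U (U (S L (T (U (S L L) L) (T L L))) (S (F 1 L) (T L L))) (F 1 (U (T L L) L))))) (U (U (V (S (F 268 (V (T (F 9 L) (F 3 (S (F 4 L) L))) (F 10 L))) (T (F 76 (V (U (S (F 3 L) (F 2 L)) (F 3 L)) (F 1 L))) (F 328 (V (S (F 9 L) (S (F 9 L) (F 1 L))) (F 8 L))))) (F 348 (S L (T L L)))) (F 332 (S (F 5 (T L L)) (V (T (T (F 1 L) (F 1 L)) (F 1 L)) (F 4 L))))) (F 460 (U (S (F 2 L) (V (S (F 2 L) L) (F 2 L))) (F 2 L)))))) (F 476 (U (T (F 4 (S L (S L L))) L) (F 5 L)))))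
noncomputable def v6_78 : Tr := (V (U (S (F 408 (U (V (T (T L (S (F 1 L) (F 1 L))) (F 3 (S L (S L L)))) (T (F 5 (U (T (S L L) L) L)) (F 3 (S (F 4 L) L)))) (F 3 (V L (F 4 (S L L)))))) (T (V (F 137 (U (U (S (T (F 1 L) (F 3 L)) (T (F 2 L) (F 7 (S L L)))) (F 3 (S (T L (F 8 L)) (F 8 (S L L))))) (F 3 (T L (F 8 L))))) (F 456 (U (S (U (T L L) (F 2 L)) (T (U (V (S (F 16 L) (F 16 L)) L) (F 16 L)) (S L L))) (S (F 2 L) (T (F 16 L) (F 17 L)))))) (F 488 (U (V (F 8 (U (S (S L L) L) L)) (S (S (F 1 (S L L)) L) (S L (S L L)))) (S (F 1 L) (F 8 L)))))) (F 509 (U (U L L) L))) (U (S (F 476 (U (T (V (T L L) L) (F 1 (V (S L L) L))) (F 1 (S L L)))) (U (T (F 328 (V (S (F 12 (U (T (S (F 8 L) L) (F 8 L)) (F 8 L))) (U (V (S (S (F 9 L) (F 1 L)) (F 1 L)) (F 8 L)) (F 9 (T L L)))) (F 12 (U (T L L) L)))) (F 324 (S (F 5 (T L (F 8 L))) (V (F 3 (U (S L L)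 (F 8 L))) (F 6 L))))) (F 476 (U (T (V (T L L) L) (F 1 (S L L))) (F 1 (S L L)))))) (F 508 (U L (F 2 L)))))
noncomputable def v6_79 : Tr := (V (U (S (U (T (S (F 72 L) (F 8 L)) (F 72 (V L L))) (T (S (F 72 L) (F 8 L)) (F 72 (S L L)))) (T (U (S (S (F 8 L) (F 8 L)) L) (V (S (F 8 L) (F 8 L)) (F 8 L))) (U (S (F 8 L) (F 32 L)) (T (F 8 L) (F 40 (S (F 2 L) L)))))) (S (F 72 (U (T (S L L) L) (T L (F 2 L)))) (T (U (S (F 8 L) (F 8 L)) (F 8 L)) (F 40 (U (T (S L L) L) (S (F 2 L) (F 4 L))))))) (U (S (T (U (V (F 8 L) (F 10 (S L L))) (F 10 (V L (S (F 4 L) (F 4 L))))) (F 40 (U (S L L) (S L L)))) (U (T (V (T (F 8 L) (F 40 L)) (F 42 (U (S L L) (S L L)))) (F 40 (S (S L L) (S L L)))) (F 40 (T (U (V L (S (F 16 L) (F 16 L))) (V (S (F 16 L) (F 16 L)) (F 16 L))) (S L L))))) (S (U (T (F 10 (V L (S (F 4 L) (F 4 L)))) (F 40 (S (F 2 L) (F 16 L)))) (F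 42 (T L (S (F 2 L) (F 2 L))))) (F 40 (U (T (U (S (F 16 L) (S (F 16 L) (F 16 L))) (S (F 16 L) (F 16 L))) (S L L)) (T (S (F 16 L) (F 16 L)) (S (F 16 L) (F 16 L))))))))
noncomputable def v6_80 : Tr := (S (T (V (F 72 (U (S (U (S L L) (S (F 8 L) L)) (U (T L L) (T L L))) (T (S (F 8 L) (S L L)) (U L (F 8 L))))) (U (S (F 74 (U (T (S L L) (U L L)) (T L L))) (T (F 10 (U (T L L) (S (F 2 L) L))) (S (F 72 (T L L)) (U (S (F 72 L) (F 40 L)) (F 104 L))))) (F 72 (T (U (S (F 24 L) (F 16 L)) (S (F 25 L) (F 18 L))) (S (U (F 16 L) (F 19 L)) (U (S (F 18 L) (F 2 L)) (F 18 L))))))) (F 72 (V (U (T (S (S L L) (S L L)) (S (S (F 2 L) (F 2 L)) (S (F 2 L) (F 2 L)))) (S (S (F 2 L) (F 2 L)) (T (S (F 2 L) (F 2 L)) (F 6 L)))) (U (S (U (T (T L (S (F 2 L) (F 2 L))) (S (F 2 L) (F 2 L))) (T (F 2 L) (F 3 (S L L)))) (U (T (S (F 2 L) (S (F 2 L) (F 2 L))) (S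 (F 2 L) (F 2 L))) (T (S (F 2 L) (F 2 L)) (F 2 L)))) (U (S (F 3 (T L L)) (T (F 2 L) (F 3 L))) (F 3 (S (F 2 (S L L)) L))))))) (T v6_79 (F 40 (V (U (S (T (U (S (F 2 L) (F 2 L)) (S (F 2 L) (F 2 L))) (F 6 (U (S L L) L))) (U (T (T L (S (F 2 L) (F 4 L))) (F 6 (S L L))) (T (S (F 2 L) (F 4 L)) (F 6 (S L L))))) (U (S (T (F 2 L) (F 6 L)) (F 6 (T (S L (S L L)) L))) (F 6 (S L (S L L))))) (U (S (U (T (S (S (F 2 L) (F 2 L)) L) (S (F 2 L) (F 2 L))) (T (S (F 2 L) (F 2 L)) (F 2 L))) (T (U (S L L) L) (U (S (F 2 L) (F 4 L)) (F 6 (S L L))))) (S (U (S (F 2 L) (F 2 L)) (S (F 3 L) (F 6 L))) (U (T (S (F 2 L) (F 4 L)) (F 6 L)) (F 6 (S L L)))))))))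
noncomputable def v6_81 : Tr := (V (U (U (T (F 133 (S (S (T (F 2 L) (F 2 L)) (T (F 4 L) (F 4 L))) (V L (U (S (F 4 L) (F 4 L)) (F 4 L))))) (S (U (V (F 197 (T L (S (F 2 L) (F 2 L)))) (F 100 (S (F 1 L) (F 32 L)))) (F 228 (T (S (F 16 L) (F 16 L)) (V (F 16 L) (S (F 1 L) (F 16 L)))))) (F 37 (T (S (F 2 L) (F 2 L)) (S (V (F 6 (U L L)) (F 4 L)) (S (F 2 L) (F 2 L))))))) (T (F 133 (S (S (S (F 3 L) (F 2 L)) (T (F 4 L) (F 6 L))) (S (F 4 L) (F 4 L)))) (S (V (F 197 (T L (F 2 L))) (F 100 (S (F 3 L) (V (F 34 (S L L)) (F 33 (U L (F 8 (S L L)))))))) (F 165 (S (U (S (F 2 L) (F 2 L)) (T (F 2 L) (F 3 (S L L)))) L))))) (F 133 (U (T (S (F 3 (T L (F 8 (S L L)))) (T (F 4 L) (F 5 L))) (F 6 (S (F 8 (U (S L L) L)) (V (S L L) (U (S (F 8 L) L) (F 8 L)))))) (F 7 (T (S (S (F 2 L) L) (S L L)) (S L L)))))) (U (S (F 292 (T (S (U (S (F 2 L) L) (S (F 10 L)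 (F 2 L))) (T (U (S (F 32 L) (F 32 L)) (F 32 L)) (S L L))) (U (U (S (F 2 L) (F 2 L)) (F 2 L)) (F 2 L)))) (U (T (F 37 (V (S L L) (U (S (F 1 L) (F 1 L)) (S (F 1 L) (F 1 L))))) (F 292 (U (S (S (F 32 L) (F 32 L)) (S (F 32 L) (F 32 L))) (S (S (F 2 L) (F 32 L)) (F 32 L))))) (F 37 (T (V (V (S (F 2 L) (F 2 L)) (S (F 1 L) (F 1 L))) (S (F 1 L) (F 1 L))) (S (T (F 1 L) (F 5 (S L L))) (F 1 L)))))) (F 292 (U (T (S (S (F 11 L) (F 33 (T L (F 8 (S L L))))) (F 33 (S L L))) (S (F 3 L) (V (F 33 (U (S (F 8 L) L) (F 8 L))) (F 34 (S L L))))) (S (F 11 (T (F 1 (T L L)) L)) (F 33 (T L (F 8 L))))))))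
noncomputable def v6_82 : Tr := (V (U (U (S (T (F 100 (V (F 34 (U (T (S L L) (S L L)) (S L L))) (T (F 1 L) (F 1 L)))) (V (F 224 (S (F 1 L) (T (F 32 L) (F 1 L)))) (F 356 (S L L)))) (F 97 (T (U (V (S (S (F 2 L) (F 2 L)) (F 2 L)) (S (F 16 L) (F 16 L))) (S (V (F 18 L) (F 17 (S L L))) (F 18 (T L L)))) (V (S (F 2 L) (F 2 L)) (U (S (F 17 (T L L)) (T (F 16 L) (F 17 L))) (F 17 (S L L))))))) (S (F 224 (T (V (F 40 (U (U L (F 8 (S L L))) (F 8 (T L L)))) (F 9 (S L L))) (S (F 9 L) (V (F 33 L) (F 9 L))))) (F 97 (T (V (F 18 (U (S L L) L)) (U (V (F 18 (S L L)) (F 17 (S L L))) (F 19 (S (S L L) (T L L))))) (V (F 3 (S L L)) (F 17 (U (T L L) (F 8 (S L (S L L)))))))))) (F 485 (U (S (T (T L L) (S L L)) (T (U (S L (S L L)) L) (S L (S L L)))) (S L (S L L))))) (F 100 (U (S (U (T (T (F 1 L) (F 1 L)) (S (F 1 L) (F 1 L))) (T (F 1 L) (F 1 L))) (T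 (U (S (T (F 1 L) (F 1 L)) (V (V (T (F 32 L) (F 33 (S L L))) (F 1 L)) (F 1 L))) (S (F 1 L) (F 33 (U (S L L) L)))) (U (U (S (F 1 L) (F 1 L)) (F 1 L)) (S (F 1 L) (F 1 L))))) (S (F 3 (T (S L L) (S L L))) (U (T (S (F 3 L) (F 33 (U L (F 8 L)))) (F 3 L)) (F 35 (T L L)))))))
noncomputable def v6_83 : Tr := (V (U (U (S (T (U (S (F 2 L) (F 2 L)) (S (F 2 L) (F 2 L))) (U (S (S (F 2 L) (F 2 L)) (F 2 L)) (S (F 2 L) (F 2 L)))) (T (U (S (S (F 2 L) (F 2 L)) (S (F 2 L) (F 2 L))) (S (F 2 L) (F 2 L))) (U (T (F 2 L) (S (F 2 L) (F 2 L))) (S (F 2 L) (F 2 L))))) (S (T (U (S (F 2 L) (F 2 L)) (F 2 L)) (S (F 2 L) (S (F 2 L) (F 2 L)))) (T (S (S (F 2 L) (F 2 L)) (S (F 2 L) (F 2 L))) (S (S (F 2 L) (F 2 L)) (S (F 2 L) (F 2 L)))))) (U (S (T (S (F 2 L) (F 2 L)) (F 2 L)) (T (S (F 2 L) (F 2 L)) (S (F 2 L) (F 2 L)))) (S (F 3 (T (S L L) (S (F 8 L) L))) (T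 (F 2 L) (F 3 (S L L)))))) (U (S (U (T (U (S L L) (S (F 1 L) (F 2 L))) (V (S L L) (U (S (F 1 L) (F 1 L)) (S (F 1 L) (F 1 L))))) (T (V (S (F 2 L) (F 2 L)) (S (F 1 L) (F 1 L))) (V (V (S (F 2 L) (F 2 L)) (S (F 1 L) (F 1 L))) (S (F 1 L) (F 1 L))))) (U (T (V (U (S (F 2 L) (F 2 L)) (F 2 L)) (S L L)) (U (S L L) (S (F 1 L) (F 2 L)))) (T (S (V (F 2 L) (F 1 L)) (F 2 L)) (V (S (F 2 L) (F 2 L)) (S (F 1 L) (F 1 L)))))) (F 3 (U (S (T (S L L) (T L L)) (T (S (S L L) (S L L)) (S L (S L L)))) (S (T L L) (T L L))))))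
noncomputable def v6_84 : Tr := (V (U (U (S (T (F 70 (U (S (S L L) (S L L)) (S (T L (F 2 L)) L))) (F 36 (V (S (F 2 L) (F 2 L)) (U (S (F 16 L) (F 16 L)) (S (F 17 (S L L)) (F 18 (S L L))))))) (F 68 (T (U (S (S (F 16 L) (F 16 L)) (S (F 16 L) (F 16 L))) (S (F 16 L) (F 16 L))) (S (T L (F 2 L)) L)))) (S (T (F 70 (S (T L (U (F 2 L) (F 3 (S L L)))) L)) (F 36 (V (F 2 L) (U (V (S (F 3 L) (F 18 L)) (F 17 (S L L))) (F 19 (S (S L L) (S L L))))))) (F 68 (T (S (F 16 L) (F 16 L)) (S (T (F 16 L) (F 3 L)) (F 2 L)))))) (F 68 (S (U (T (V (F 18 (S L L)) (F 17 (U (S (F 8 L) L) (F 8 L)))) (F 19 (U (S L L) L))) (F 19 (T L L))) (T (U (S (F 17 L) (F 16 L)) (F 17 L)) (U (V (F 6 L) (F 19 (S (S L L) (S L L)))) (F 23 (S L L))))))) (U (S (F 130 (U (T (S (T (S (F 16 L) (F 16 L)) (U (S (F 18 L) (F 16 L)) (F 18 L))) (U (S (F 16 L) (F 16 L)) (F 16 L)))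 (U (S (T (F 18 (S L L)) (F 2 L)) (T (F 18 (S L L)) (F 2 L))) (F 18 (S (S L L) (S L L))))) (T (T (F 16 L) (F 18 (U (S L L) L))) (F 18 (U (S L L) (S L L)))))) (T (F 6 (U (V (S L L) (U (S (F 1 L) (F 1 L)) (S (F 1 L) (F 1 L)))) (V (V (S (F 2 L) (F 2 L)) (S (F 1 L) (F 1 L))) (S (F 1 L) (F 1 L))))) (F 130 (U (T (U (S (F 16 L) (F 16 L)) (F 16 L)) (S (F 2 L) (F 2 L))) (U (T (S (F 18 L) (F 17 L)) (F 18 L)) (F 18 (U L (F 8 (S L L))))))))) (F 134 (U (S (T (V (U (T (F 1 L) (F 3 (S L L))) (F 3 (S L L))) (S (F 2 L) (F 2 L))) (F 3 (U (S L L) L))) (T (S (F 1 L) (F 1 L)) (F 3 (U (S L L) L)))) (F 3 (S (T L L) (T (S L L) (F 4 (S L L)))))))))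
noncomputable def v6_85 : Tr := (S (T (V (U (S (F 136 (U (V (T (S (F 1 L) (F 1 L)) (F 1 L)) (T (S (F 8 L) (F 8 L)) (F 8 L))) (V (F 1 L) (F 9 (T L L))))) (T (F 136 (U (S (V (F 33 (T (S L L) L)) (F 8 L)) (V (F 33 (T L L)) (F 32 L))) (F 33 (S (S L L) L)))) (F 193 (U (S L (S (F 1 L) (F 1 L))) (S (F 1 L) (F 1 L)))))) (F 200 (U (S (T (F 4 L) (F 5 L)) (T (F 20 (S L L)) (F 17 L))) (F 20 (T L (F 4 L)))))) (F 132 (U (S (U L (F 8 L)) (U (S L L) (S (F 2 L) (F 2 L)))) (T (F 9 (S L (S L L))) (F 3 (S L L)))))) (F 160 (V (S (U (S (F 1 L) (F 1 L)) (F 13 L)) (U (S (F 1 L) (F 33 (S L L))) (F 41 L))) (U (S (F 8 L) (F 9 (S L L))) (F 9 (S (F 8 L) (F 1 L))))))) (T (V (U (S (U (T (F 9 (V (F 2 L) (S (F 1 L) (F 1 L)))) (F 225 (S L L))) (F 193 (T (S (F 4 L) (T (F 4 L) (F 5 L))) (F 1 L)))) (F 33 (T (U (V (F 10 (S L L)) (T (U (F 8 L) (F 10 L)) (F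 3 (S L L)))) (F 10 (V L (F 8 (U (S L L) L))))) (F 3 (U (S L L) L))))) (F 233 (S (U (S L L) (F 2 L)) (U L (F 2 L))))) (F 133 (U (S (T (U (S L L) L) (U (S (F 2 L) (F 2 L)) (F 2 L))) (T (U (T (S L L) (S (F 2 L) (F 2 L))) (S (F 2 L) (F 2 L))) (U (F 2 L) (F 3 L)))) (S (U (V (F 3 (S L L)) (F 2 L)) (F 11 (S L L))) (F 3 (U (S L L) (F 2 L))))))) (F 160 (U (V (F 33 (S (S L L) (S L L))) (S (F 9 (S L L)) (F 40 (T L (F 8 L))))) (F 41 (S (S L L) L))))))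
noncomputable def v6_86 : Tr := (T (V (F 2310 (U v6_80 (U (U (T (S (F 72 (V (S (F 25 L) (F 8 L)) (F 17 (T (F 2 L) (F 8 L))))) (F 40 (S (V (S (F 2 L) (F 2 L)) (F 18 (T L L))) (V (U (T L (F 2 L)) (T (F 2 L) (F 6 L))) (T (F 16 L) (F 16 L)))))) (F 104 (S (S (F 9 L) (F 3 L)) (S (F 3 (V L L)) (T (F 2 L) (F 3 L)))))) (S (F 202 (T (F 4 (V L (F 4 L))) (F 3 L))) (F 40 (T (S (F 18 (V L (F 8 L))) (T (S (F 18 L) (F 16 L)) (V (F 6 L) (F 19 L)))) (F 7 (V L (F 2 (S L L)))))))) (F 234 (U (S (F 2 (T L (F 2 L))) (T (S (F 2 L) (T L (F 1 L))) (F 1 L))) (F 3 L)))))) (U (S (F 324 (T v6_81 v6_82)) (F 2132 (T (F 6 v6_83) v6_84))) (F 2903 (U (S (F 8 (U (T (S (F 2 (S L L)) L) (S (F 2 L) L)) (F 2 (T L L)))) (T (U (S (F 8 (T L L)) (T L L)) (F 8 (S L L))) (F 8 (U (S L (T L (F 1 L))) (F 1 L))))) (F 10 (T L (F 1 L))))))) (F 92 (V (U (S (T (F 73 (U (S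 (U (V (S (F 2 L) (F 2 L)) (T (S (T L (F 1 L)) L) (S (F 1 L) (T (F 1 L) (F 3 L))))) (V (F 3 (S L L)) (T (F 1 L) (F 3 (S L L))))) (V (U (F 2 L) (F 3 L)) (U (T L (F 3 (S (S L L) L))) (T (S (F 1 L) (F 3 L)) (F 3 L))))) (F 3 (U (S (S (S L L) L) (S L L)) (S L L))))) (F 224 (U (S (V (F 18 L) (V (F 18 (S L L)) L)) (F 18 (U (S (S L L) L) L))) (F 18 (S L L))))) (F 105 (T (U (S (V (S L L) (U (S (S L L) (S L L)) (F 1 (S L L)))) (U (V L (S L L)) (S L L))) (U (V L (F 1 (S L L))) (F 1 (S L L)))) (F 1 (U (S (V L (S L L)) (V L (S L L))) (S L L)))))) (F 233 (U (S L (S L L)) (F 3 L)))) (U v6_85 (F 236 (U (U (S (S (F 1 L) (F 4 L)) (F 4 (S L L))) (F 4 (S (F 2 L) L))) (F 5 L)))))))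
noncomputable def treeV6 : Tr := (F 0x7ffffffffffffffffffffffffffffffffffffffffffffffffff9ffffffff3e7c7ffc7ffff (U (S v6_30 (T v6_57 (U (V (U (S (F 76 (T v6_58 v6_59)) (F 2132 v6_60)) (S (F 76 (T v6_61 (V (F 225 (U (S (V (S (F 4 L) (F 4 L)) (T (S (T (F 4 L) (F 4 L)) (F 4 L)) (S L (F 4 L)))) (V (F 4 L) (T (S (F 4 L) (F 4 L)) L))) (S (V (S (F 4 L) (F 4 L)) (T (S (S (F 4 L) (F 4 L)) (F 4 L)) L)) (T (S (F 4 L) (F 4 L)) (S (F 4 L) (F 4 L)))))) (U (S (T (S (V (F 97 (S L L)) (S (F 65 L) (F 65 L))) (V (F 97 L) (S (F 65 L) (F 97 L)))) (V (F 97 (S L L)) (F 352 (S L (S (F 32 L) (F 32 L)))))) (F 97 (T (V (S L (F 8 L)) (S (S L L) L)) (V L (S (F 1 L) (F 1 L)))))) (S (T (S (V (F 97 (S L L)) (F 96 L)) (F 97 (V L (S L L)))) (V (F 97 (S (F 1 L) (F 2 L))) (F 352 (S L (F 32 L))))) (F 97 (V (T (S (F 2 L) (F 2 L)) (F 2 L)) (T (S L L) (S (F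 1 L) (F 1 L)))))))))) (F 2132 v6_62))) (F 84 (U (S v6_64 v6_66) v6_69))) (V v6_72 (F 84 v6_76))))) (S (F 76 (T v6_77 v6_78)) v6_86)))

theorem pV6 : chkV par treeV6 192 64 320 64 384 128 374491 748983 Lc = true := by decide +kernel

noncomputable def v7_0 : Tr := (U (S (F 9 (T (V (S (K 3) (U (K 3) (S L L))) (K 3)) (F 1 (V (S (K 0) (V (S (K 0) L) (K 0))) (K 0))))) (T (F 9 (V (S (S L L) L) (U (S (K 3) (V L (S (K 3) L))) (S (V (S L L) (S (K 3) (S L L))) (S (S L L) L))))) (V (F 9 (S (T (S L L) (F 1 (S L L))) (S L L))) (F 33 (U (S (K 3) (S (K 3) L)) (S (S (K 3) L) (S L L))))))) (S (T (V (F 9 (S (V L (U L (F 1 (S (F 4 L) L)))) (S (S L L) L))) (U (S (F 41 (U (K 2) (V (S (K 2) L) (K 2)))) (V (F 9 (S L L)) (T (S (F 40 L) (F 9 L)) (F 41 (S (K 2) L))))) (F 40 (S (F 1 (V (S L L) (S L L))) (V (F 8 (S L L)) (S L (S L (F 8 L))))))))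 (V (F 41 (S (S (T L (F 1 L)) L) (S L L))) (S (F 48 (S (F 1 L) L)) (V (F 33 L) (F 48 L))))) (T (V (F 9 (S (S L L) L)) (S (V (F 9 (S L L)) (T (F 9 (U (S L L) L)) (F 33 (S L L)))) (V (F 9 L) (S (F 1 L) (F 9 L))))) (F 33 (V (F 2 (S (S L L) (S L L))) (S (S L L) (S L L)))))))
noncomputable def v7_1 : Tr := (U (V (F 9 (U (S (T (V (S L L) (S (S L L) L)) (V (S L L) (S (S (K 3) L) (S L L)))) (V (S L L) (S (T L L) (S L L)))) (S (T (V (S L L) (S (S L L) L)) (F 1 (V (S L L) (S (S L L) (S L L))))) (V (S L L) (S (S L L) L))))) v7_0) (V (F 9 (S (F 1 (U (V (S L L) (T (S L L) (S (F 4 L) L))) (S (F 4 (S L L)) L))) (U (S (T L (F 1 L)) (S L L)) (F 1 (S L L))))) (S (T (F 40 (U (S (V (F 8 (T (S L L) L)) (F 1 (U (V L L) L))) (V (F 8 (S L L)) (V (F 8 (S L L)) (S L L)))) (S (F 1 (V (F 1 L) L)) (F 8 (V L L))))) (U (V (F 41 (S (F 1 L) L)) (F 48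 (S (F 1 L) (F 8 (S L L))))) (F 56 (V (F 4 L) L)))) (T (F 9 (U (V (S L (F 1 L)) (S (F 1 (U (S L L) (S L L))) (T L (F 1 L)))) (F 1 (V (S L L) (S L L))))) (F 33 (U (V (F 2 (S L L)) (S L L)) (F 2 (S L L))))))))
noncomputable def v7_2 : Tr := (U (V (U (S (F 20 (S (V L L) (V (T L L) L))) (T (V (S (S (F 20 L) (F 4 L)) (S (F 4 L) (F 5 L))) (S (F 20 L) (F 4 L))) (S (F 20 (S L L)) (V (F 4 L) (F 20 L))))) (S (F 20 (S (T L L) (T (S L L) L))) (T (V (S (F 4 L) (F 4 L)) (F 20 (S L L))) (S (F 20 (S L L)) (V (F 4 L) (F 20 L)))))) (U (S (T (F 20 (V (S L L) (S (S (T L L) L) (S L L)))) (V (F 20 (S L L)) (S (T (F 16 L) (F 48 L)) (F 48 (S L L))))) (T (F 20 (V (S L L) (S L L))) (V (F 20 (S L L)) (S (F 16 L) (F 20 (S L L)))))) (S (T (F 20 (V (S L L) (S (S L L) L))) (F 48 (V (F 2 (S L L)) (S L L)))) (V (F 20 (S (S L L) (S L L))) (S (T (F 20 L)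 (F 48 L)) (F 20 (T L L))))))) (V (S (F 20 (U (S (S L L) (T L (F 1 L))) (T (S (F 1 L) L) (F 1 L)))) (T (U (V (S (F 4 L) (F 4 L)) (F 20 (S L L))) (S (F 20 (S L L)) (F 4 L))) (U (V (S (F 20 L) (F 5 L)) (F 20 L)) (F 20 (S (F 1 L) L))))) (S (F 20 (U (S (V (F 1 (S L L)) (T L (F 1 L))) (V L (T L (F 1 L)))) (F 1 (S (S L L) (S L L))))) (U (V (F 20 (S L L)) (T (F 20 (S L L)) (F 48 L))) (F 52 (S (S L L) (S L L)))))))
noncomputable def v7_3 : Tr := (S (F 6 (T v7_1 (F 33 (U (V (U (S (T (F 2 (V (S (S L L) L) (S (K 0) (S L L)))) (V (F 2 (S L L)) (S (K 3) L))) (T (F 2 (V (S L L) (S (S L L) (S L L)))) (V (F 2 (S L L)) (S L L)))) (F 2 (S (V (S (F 4 (S L L)) L) (S (F 4 (S L L)) (S L L))) (V (S L L) (S (S L L) L))))) (U (S (K 3) (T (V (S (S L L) L) (S (K 3) (S L L))) (V (S L L) (F 1 (S (K 0) L))))) (S (F 1 (S (V L L) (V L L))) (V (S L L)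 (S (F 1 (S L L)) L))))) (V (F 2 (S (U (S (F 4 (S L L)) (S L L)) (F 4 L)) (U (S (S L L) L) L))) (S (F 1 (U (S L (S L L)) (F 4 (S L L)))) (V (S L L) (S (F 1 (S L L)) L)))))))) (F 130 (T v7_2 (U (V (U (S (F 52 (V (S (S L L) (S L L)) (S (S L L) (S L L)))) (T (F 20 (S (S L L) (V (S L L) L))) (S (F 48 (V (F 2 (S L L)) L)) (V (F 20 (S (F 1 L) L)) (F 48 (S (F 2 L) L)))))) (F 20 (S (F 1 (S (V L L) (V L L))) (S (F 1 (V (S L L) L)) (V (T L (F 1 (S L L))) (F 1 (S L L))))))) (U (S (F 48 (T (V (S L L) (S L L)) (V (S L L) (S L L)))) (T (V (S (F 48 L) (F 20 L)) (F 48 (S L L))) (F 48 (V (S L L) (S L L))))) (F 48 (S (V (S L L) (S L L)) (V (S L L) (S L L)))))) (F 48 (V (F 2 (S (U (S L L) L) (U (S (S L L) (S L L)) (S L L)))) (S (S (V L L) (S L L)) (U (S L L) (F 2 (S L L))))))))))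
noncomputable def v7_4 : Tr := (U (S (K 6) (T (V (F 132 (U (K 0) (S (V (T (S (K 0) (F 16 L)) (K 0)) (K 0)) (V (S (F 16 L) (F 16 L)) (T (S (F 32 L) (F 16 L)) (F 32 L)))))) (F 5 (U (K 1) (S (K 1) (S (K 1) (V (S L (F 1 L)) L)))))) (F 135 (V (U (K 0) (S (K 0) (S (K 0) L))) (K 0))))) (S (F 5 (T (V (S (F 48 (U (K 2) (S (F 1 (S L L)) L))) (S (F 48 (U (U (K 2) (V L L)) (V L L))) (U (V (S (F 32 L) (F 32 L)) (F 32 L)) (S (F 32 L) (F 32 L))))) (U (S (F 20 (S L L)) (V (S (F 48 L) (F 16 L)) (F 20 (S L L)))) (S (F 20 L) (S (F 16 L) (F 16 L))))) (F 48 (V (U (K 2) (S (F 1 L) L)) (S (F 2 L) (S (F 2 L) L)))))) (T (V (U (S (F 7 (V (S (S L L) (S (F 1 L) (F 1 L))) (T (S L L) L))) (F 132 (V (T (F 16 L) (F 48 L)) (T (S (F 32 L) (F 48 L)) (F 48 (S L L)))))) (F 7 (S (V (S L (F 1 L)) (S L L)) (V (S (F 1 L) (F 1 L)) (S L (F 1 L)))))) (F 5 (U (S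 (V (S (F 16 L) L) (S (F 16 L) (F 16 L))) (V (S L L) (S L L))) (S (V L (S (F 20 L) (F 16 L))) (S (S L L) (S L L)))))) (F 7 (V (S (V (S (F 1 L) (F 1 L)) L) (S (F 1 L) (F 1 L))) (S (V (F 16 L) (F 16 L)) (S L L)))))))
noncomputable def v7_5 : Tr := (V (S (T (U (V (S (F 56 (U (S L L) L)) (S (F 48 (V L L)) (S (F 32 L) (F 32 L)))) (F 48 (S (V L (F 2 L)) (V (S L L) L)))) (F 48 (V (F 1 (S L (S L L))) (S (F 3 L) L)))) (F 48 (U (V (S (F 1 L) L) (F 2 (S L L))) (S (F 2 L) L)))) (T (U (V (S (U (V (S (F 40 L) (F 33 L)) (F 32 L)) (F 32 L)) (F 33 (U (S (S L L) L) (S L L)))) (S (V (S (F 32 L) (F 32 L)) (S (F 48 L) (F 32 L))) (S (V (F 32 L) (F 32 L)) (V (F 32 L) (F 32 L))))) (S (V (F 32 L) (F 48 (S L L))) (V (F 33 L) (S (F 32 L) (F 32 L))))) (U (V (S (F 32 L) (F 33 L)) (S (F 48 L) (F 32 L))) (F 48 (V (F 8 (S L L)) (S (F 2 L) (F 8 L)))))))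 (S (F 52 (U (V (S L (S L L)) (S L L)) (S L L))) (T (U (V (S (F 20 (S L L)) (V L (F 20 (S L L)))) (F 20 (S L L))) (V (F 36 (S (F 1 L) (S (F 1 L) L))) (F 20 L))) (F 20 (U (S (F 1 L) (S (F 1 L) L)) (F 1 (S L L)))))))
noncomputable def v7_6 : Tr := (S (T (V (U (S (V (S (F 16 L) (F 16 L)) (T L (F 16 L))) (S (T (F 16 L) (F 16 L)) (S (F 16 L) (F 16 L)))) (S (V (S (F 16 L) (F 20 L)) (T (S (F 16 L) (F 48 L)) (F 48 L))) (T (S (F 16 L) (F 20 L)) (F 16 L)))) (U (S (S (K 0) (V (S (K 0) (F 32 L)) (K 0))) (V (T L (F 32 L)) (S (S (F 32 L) (F 32 L)) (F 32 L)))) (S (T (V (S (F 32 L) (F 32 L)) (S (F 32 L) (F 32 L))) (S (F 32 L) (F 32 L))) (T (V L (F 32 L)) (F 48 (S L L)))))) (V (F 48 (S (V (S L L) (S L L)) (S L L))) (U (F 48 (S (K 3) (S (K 3) L))) (S (S (F 32 L) (F 48 L)) (F 48 (S L L)))))) (T (V (S (S (T (F 16 L) (F 16 L)) (T (F 16 L)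 (F 16 L))) (V (F 20 L) (S (F 16 L) (F 16 L)))) (U (S (T (S L L) (S (F 32 L) (F 32 L))) (V (S (F 16 L) (F 16 L)) (S (F 32 L) (F 32 L)))) (S (T (S L (F 16 L)) (F 32 L)) (V (F 48 (S L L)) (S (F 32 L) (F 32 L)))))) (V (F 48 (S (S L L) (S L L))) (S (T (F 32 L) (F 48 L)) (F 48 (S L L))))))
noncomputable def v7_7 : Tr := (U (S (T (V (U (S (K 1) (T (S (F 1 L) (F 1 L)) (F 1 L))) (S (V (S (F 4 L) (F 1 L)) (S (F 20 L) (F 4 L))) (T (S (F 1 L) (F 1 L)) (F 1 L)))) (S (S (F 20 L) (F 4 L)) (T (S (F 4 L) (F 4 L)) (F 4 L)))) (V (U (K 1) (S (S (K 1) (F 4 L)) (S (F 1 L) (F 1 L)))) (S (F 20 L) (S (F 20 L) (F 4 L))))) (T (V (U (S (T (S (F 1 L) (F 1 L)) (F 1 L)) (T (S (F 1 L) (F 1 L)) (F 1 L))) (S (V (S (F 1 L) (F 1 L)) (F 1 L)) (V (S (F 1 L) (F 1 L)) (F 1 L)))) (S (V (S (F 4 L) (F 5 L)) (F 4 L)) (F 5 (T (S L L) L)))) (V (S (S (F 1 L) (F 1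 L)) (S (F 1 L) (F 1 L))) (F 5 (S (T L L) (S L L)))))) (S (T (V (U (S (V L (F 4 L)) (S L (S (F 1 L) (F 1 L)))) (S (S L L) (S L (F 1 L)))) (S (S (F 20 L) (F 4 L)) (S (F 4 L) (F 4 L)))) (V (S L (S (F 1 L) (F 1 L))) (F 20 (S L (S L L))))) (T (V (S (T (S (F 1 L) (F 1 L)) (F 1 L)) (V (S (F 1 L) (F 33 L)) (S (F 1 L) (F 1 L)))) (S (F 5 (T (S L L) L)) (V (F 1 L) (F 5 L)))) (V (S (S (F 1 L) (F 33 L)) (F 1 L)) (S (S (F 4 L) (F 5 L)) (F 5 (S L L)))))))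
noncomputable def v7_8 : Tr := (U (V (U (F 132 v7_6) (S (T (F 132 (V (U (S (V (F 16 L) (F 48 (S L L))) (S (F 16 L) (F 16 L))) (S (T (F 16 L) (F 48 L)) (F 48 (S L L)))) (U (S (T (V (S (F 32 L) (F 48 L)) (S (F 32 L) (F 32 L))) (S (F 32 L) (F 48 L))) (T (S (F 32 L) (F 32 L)) (F 32 L))) (S (T (S (F 32 L) (F 32 L)) (F 32 L)) (V (F 48 (S L L)) (F 32 L)))))) (F 7 (V (S (S (F 1 L) (F 1 L)) (F 1 L)) (S (V (F 1 L) L) (S (F 1 L) (F 1 L)))))) (F 132 (T (V (S (S (F 16 L) (F 16 L)) (S (F 16 L) (F 16 L))) (S (V (F 48 (S L L)) (S (F 32 L) (F 48 L))) (F 48 (V (S L L) (S L L))))) (F 48 (V (S L L) (S L L))))))) (F 5 v7_7)) (V (F 6 (S (T (U (V (F 33 (S (S L L) (S L L))) (S (V (F 33 (S L L)) (S (F 32 L) (F 32 L))) (F 33 (S (S L L) L)))) (F 33 (S (V L (S L L)) (V (F 2 L) L)))) (F 33 (S (U (V L L) L) (V L (S L L))))) (T (U (S (F 33 (V (S L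 L) (S L L))) (V (F 1 L) (F 33 (S L L)))) (F 33 (S (S L L) (S L L)))) (F 33 (S (V L L) (V L L)))))) (F 5 (S (T (U (V (S (S L L) (S L (S (F 1 L) (F 1 L)))) (S (F 20 (S L L)) (S (F 4 L) (F 4 L)))) (V (S (F 32 L) (F 32 L)) (S (F 20 L) (F 4 L)))) (U (V (S (F 32 L) (F 32 L)) (F 20 (S (F 1 L) L))) (V (F 32 L) (F 52 (S L L))))) (T (U (V (S (S (F 1 L) (F 1 L)) (F 33 (S L L))) (S (S (F 4 L) (F 4 L)) (F 5 (S L L)))) (V (F 33 (S L L)) (S (F 4 L) (F 5 L)))) (S (U (V (F 33 L) (F 4 L)) (F 33 L)) (V (F 33 L) (S (F 32 L) (F 33 L)))))))))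
noncomputable def v7_9 : Tr := (U (V (F 33 (U (S (T (V (S (S L L) L) (U (K 3) (S L L))) (V (S (F 1 L) L) (S (K 3) L))) (T (V (S L L) (S L L)) (V (S L L) (S L L)))) (S (T (V (S L L) (S L L)) (F 1 (V (S L L) (S L L)))) (V (S L L) (S L L))))) (U (S (U (K 1) (S (F 52 (V (K 1) L)) (V (T (F 1 L) (F 49 L)) (F 52 L)))) (T (V (S (S (F 1 L) (F 33 L)) (F 1 L)) (S (S (F 20 L) (F 4 L)) (F 5 (S L L)))) (S (V (F 33 (S (F 1 (S L L)) L)) (F 20 L)) (V (F 33 (S L L)) (F 17 (S L L)))))) (S (F 48 (V (S L (S L L)) (F 2 (S L (S L L))))) (T (V (F 33 (S L L)) (S (F 4 L) (F 1 L))) (V (F 33 (S L L)) (S (F 52 (S L L)) (F 33 (S (F 1 L) L)))))))) (V (F 33 (S (S (V L (T L (F 1 L))) (V L L)) (S (V L L) (S L L)))) (S (F 48 (U (V (S (F 2 L) L) (F 2 L)) (F 2 (S L L)))) (S (U (V (F 33 L) (F 48 L)) (F 49 L)) (F 33 (U (V L L) L))))))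
noncomputable def v7_10 : Tr := (S (T (U (V v7_4 (F 5 (U (S (F 20 (T (V (U (K 2) (S L L)) (S L L)) (V (F 11 (S (K 0) (K 0))) (S L (F 1 L))))) (T (V (U (K 1) (S (F 20 (S L L)) (V (S (F 20 L) (F 4 L)) (F 20 L)))) (F 20 (S L (S L L)))) (F 20 (V (F 11 (S (K 0) (K 0))) (S L L))))) (S (F 20 (V (T (S L (S L L)) (F 1 (S L L))) (S L L))) (T (V (S (F 20 (U (S L L) (S L L))) (V (S L L) (S (F 20 L) (F 4 L)))) (F 20 (S L L))) (F 20 (V (S L (S L L)) L))))))) (F 5 v7_5)) (F 15 (U (V (U (K 1) (S (V (F 1 (S (K 2) L)) (F 4 (S L L))) (S (V (F 1 L) (F 4 L)) (V (F 1 (S L L)) L)))) (F 4 (U (S (V (K 1) (S L L)) (V (K 1) (S L L))) (S (V (S (F 1 L) L) (S L L)) (S (S L L) (S L L)))))) (V (S (S (S (F 4 L) L) (S L L)) (U (V (F 1 (S L L)) L) (F 1 (S L L)))) (F 4 (S (U (S L L) (F 1 L)) (U (S L L) L))))))) (T v7_8 (F 5 v7_9)))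
noncomputable def v7_11 : Tr := (V (U v7_3 (F 131 (S (F 20 (T (V (U (S (F 1 (S L L)) (S L L)) (F 1 L)) (U (U (S (F 1 (S L L)) (S (F 1 L) L)) (F 1 (S L L))) (F 1 L))) (V (U (S (F 1 L) L) (F 1 L)) (F 1 (U (S L (S L L)) (F 2 L)))))) (T (V (U (S (F 20 (U L L)) (U (S (F 20 L) (S (F 20 L) (F 4 L))) (F 20 L))) (F 20 L)) (F 20 (U (S (S (S L L) L) (U (S L L) L)) (S (F 1 L) (F 4 L))))) (V (F 20 (U (S L L) (F 4 L))) (U (S (F 16 L) (F 16 L)) (F 20 L))))))) (U v7_10 (F 7 (S (T (V (U (U (S (F 24 (S (F 1 L) L)) (V (S (F 24 L) (F 9 L)) (S (F 24 L) (F 16 L)))) (F 24 (S (F 1 L) (F 4 (S L L))))) (F 29 L)) (F 20 (U (S (S (F 1 L) L) (U (S L L) (F 1 L))) (F 1 L)))) (V (U (S (F 24 L) (F 17 (S L L))) (F 29 L)) (F 20 (U (S (F 1 L) L) (F 5 L))))) (T (V (U (S (U (S (S (F 1 L) (F 1 L)) (S (F 1 L) (F 1 L))) (F 9 (S L L))) (U (S (F 1 L) (F 1 L)) (F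 9 L))) (F 9 (S (F 1 L) L))) (U (S (U (V (S (F 16 L) (F 1 L)) (F 20 (S L L))) (F 20 L)) (U (S (S (F 1 L) (F 1 L)) (S (F 1 L) (F 1 L))) (F 5 (S L L)))) (F 5 (S (F 1 L) L)))) (V (U (S (F 17 (S L L)) (S (F 17 L) (F 1 L))) (F 17 L)) (U (S (F 20 L) (F 17 (S L L))) (F 21 L))))))))
noncomputable def treeV7 : Tr := (F 0x7ffffffffffffffffffffffffffffffffffffffffffffffffff9fffffffffffc7ffc7ffff v7_11)

theorem pV7 : chkV par treeV7 192 64 448 64 256 256 374491 748983 Lc = true := by decide +kernel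

noncomputable def treeV8 : Tr := (F 0x7ffffffffffffffffffffffffffffffffffffffffffffffffffffffffffffffffffffffff L)

theorem pV8 : chkV par treeV8 128 128 256 256 256 256 748983 1497966 Lc = true := by decide +kernel


end Pool.Agent.Lib.H56.Gen.D4
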