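import Pool.Agent.Lib.H56.Gen.Split
import Pool.Agent.Lib.H56.Gen.D4.V0
import Pool.Agent.Lib.H56.Gen.D4.V1

/-!
# Certificate tree V
-/

set_option maxRecDepth 100000

namespace Pool.Agent.Lib.H56.Gen.D4

noncomputable def treeV : Tr := (Tr.U (Tr.U treeV0 (Tr.T (Tr.S treeV1 (Tr.T treeV2 treeV3)) (Tr.S treeV4 (Tr.T (Tr.V treeV5 treeV6) treeV7)))) treeV8)

theorem okV : chkV par treeV 128 128 256 256 256 256 0 1497966 Lc = true :=
  (chkV_U (c1 := 748983) (by decide +kernel)
  (chkV_U (c1 := 374491) (by decide +kernel)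
  pV0
  (chkV_T (c1 := 128) (c2 := 384) (h := 128) (by decide +kernel) (by decide +kernel) (by decide +kernel)
  (chkV_S (c1 := 64) (c2 := 192) (h := 64) (by decide +kernel) (by decide +kernel) (by decide +kernel)
  pV1
  (chkV_T (c1 := 64) (c2 := 192) (h := 64) (by decide +kernel) (by decide +kernel) (by decide +kernel)
  pV2
  pV3))
  (chkV_S (c1 := 64) (c2 := 192) (h := 64) (by decide +kernel) (by decide +kernel) (by decide +kernel)
  pV4
  (chkV_T (c1 := 320) (c2 := 448) (h := 64) (by decide +kernel) (by decide +kernel) (by decide +kernel)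
  (chkV_V (c1 := 128) (c2 := 384) (h := 128) (by decide +kernel) (by decide +kernel) (by decide +kernel)
  pV5
  pV6)
  pV7))))
  pV8)

end Pool.Agent.Lib.H56.Gen.D4
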