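import Pool.Agent.Lib.H56.Gen.D4.Par
import Pool.Agent.Lib.H56.Gen.D4.Cos

/-!
# Certificate tree W, part 0
-/

set_option maxRecDepth 100000

namespace Pool.Agent.Lib.H56.Gen.D4

open Tr

noncomputable def w0_0 : Tr := (S (F 74 (U (V (K 3) (T (K 3) (V (S L L) (F 16 (U L (S (T L L) (S L L))))))) (T (V (K 3) (F 16 (T (S L L) (V (T (K 1) L) (S L (T L L)))))) (V (S (U (S L L) (T L (S L L))) (V L L)) (V (T (F 16 (S L (U L L))) (V (S L (F 16 (U L L))) (F 16 (U L (S L L))))) (F 16 (T (S (V (S L L) (S L L)) (V (T L L) (S L L))) (S (V (S L L) (S L L)) (V (T L L) (S L L)))))))))) (F 10 (U (T (F 36 (S (S L L) (S L L))) (F 32 (V (S L L) (F 8 (V L (S L (S L L))))))) (F 32 (V (T (K 1) (S (F 8 (S L L)) (V L L))) (F 8 (T (T (S L (S L L)) (V (S L L) (S (U L (S L L)) (T L (S L L))))) (V (S (U L (T (S L L) L)) (T (S L L) (S L L))) (S (U (T (S (S L L) L) (V L L)) (T (V L L) (T L L))) (T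 (V (S L L) (S L L)) (V L L)))))))))))
noncomputable def w0_1 : Tr := (S (F 4 (U (U (S (F 32 (S L L)) (F 32 (V L L))) (F 32 (V (S L (S L L)) (T (F 8 (S L L)) (V (S L L) (F 8 (S L L))))))) (F 32 (V (T (T (K 1) (S L L)) (S (V L (S L L)) (U L (V L (T L L))))) (T (F 8 (T (U L (S (S L L) L)) (S (V L (U L (S L L))) (V L (U L (S L L)))))) (V (S (F 8 (T (S (S L L) L) L)) (T (F 8 (S L L)) (S L L))) (F 8 (T (S (T (S L L) (S L L)) (T (S L L) L)) (S (S L L) L))))))))) (U (F 2 (T (V (K 4) (S (F 36 (S L L)) (F 1 (T L (F 2 (S L L)))))) (F 32 (V (U L (S L (F 32 (S L L)))) (U (S L L) (S (V L (S L L)) (V L (S L L)))))))) (T (F 2 (V (F 1 (S (F 2 (S L L)) (T L L))) (T (S (F 36 (S L L)) (F 1 (T L L))) (F 32 (S (V (S L L) (F 8 (T L L))) (F 32 (V (S L L) L))))))) (F 4 (V (F 32 (S (V (F 32 (T L L)) (U L (T L L))) (F 32 (U (V (S L L) (T L L)) (T (S L L) (V L L)))))) (S (F 32 (T (V (U L (S L L))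 (F 8 (S L L))) (V (S L L) (S L L)))) (F 32 (T (V (F 32 (S L L)) (S L L)) (V (S L L) L)))))))))
noncomputable def w0_2 : Tr := (S (F 4 (U (V (T (K 2) (U (U L (V (F 16 (S L L)) (S (K 2) L))) (V (F 16 (S (F 2 (T L L)) (T L (S L L)))) (T (K 2) (S L L))))) (K 2)) (T (V (S (F 32 (V (T L L) L)) (F 48 (V (S L L) L))) (K 2)) (V (V (F 16 (T (F 2 (S (F 16 (S L L)) (V (S L L) (S L L)))) (S (F 3 (T L L)) (F 2 (V (S L L) (S L L)))))) (T (S L (F 16 (S L L))) (F 80 (S (T L (S L L)) (V (S L L) (S L L)))))) (F 64 (T (V (S L L) (K 3)) (S (U L (V (S L L) L)) (F 2 (V (S L L) L))))))))) (F 12 (T (V (U (V (F 16 (S L L)) (K 2)) (V (F 16 (T (S L L) (S (T L L) (U L (S L L))))) (T (K 2) (S L L)))) (K 2)) (V (U (V (U (S L L) (S (T L L) (T L L))) (S (T (K 2) L) (U L (T L L)))) (V (T (S (F 16 (V (T L L) (S L L))) (F 16 (V (S L L) (U L L)))) (S (V (F 16 (T L L)) (S L L)) (U (S L L) (T L L)))) (S (T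 (S L L) (T (S L L) (S L L))) (T (S L L) (V (T L L) (S L L)))))) (U (V (T (K 2) (U (K 2) (S L L))) (K 2)) (S (V (T L (T L L)) (F 32 (S L L))) (V (T L (S (S L L) (S L L))) (T (K 2) (S L L)))))))))
noncomputable def w0_3 : Tr := (T (F 16 (S (U (V (V (S L L) (K 2)) (K 2)) (V (T (S (F 16 (S L L)) (F 16 (S L L))) (V (F 16 (S (S L (S L L)) (T L L))) (S (S L L) L))) (V (T (K 2) (S L L)) (K 2)))) (U (V (U (S L L) (T L (S (S L L) L))) (K 2)) (V (T (F 16 (S (S L L) (S L L))) (S (V (F 16 (S L L)) L) (F 16 (V L L)))) (T (S L L) (S L L)))))) (S (F 16 (U (V (V (U (S L L) (S (S L L) (S L L))) (S (S L L) L)) (T (K 2) (V (S L L) (S (K 2) L)))) (V (V (T (S (F 16 (V (S L L) L)) (F 16 (T L L))) (S (V L L) (S L L))) (S (T (U L (V L L)) (U (V L L) (T L L))) (T (S L L) (T L L)))) (V (T (S L (S L L)) (S (S L L) (U (S L L) (S L L)))) (S (T L (S L L)) (T L (S L L))))))) (V (U (S (F 16 (V (T L L)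 L)) (F 16 (V (S L L) L))) (V (T (F 18 (S (S L L) L)) (S L L)) (F 16 (T (S (S L L) L) (S L L))))) (F 16 (U (V (S (S L L) L) (S L L)) (S (V (T L (U L L)) (V L (S L L))) (V (T L (S L L)) (S L L))))))))
noncomputable def w0_4 : Tr := (V (F 2336467620356 (U (K 4) (F 7098712064 (S (F 28723 (U (F 1024 (V (K 8) (F 128 (T (K 4) (F 1024 (U (K 6) (F 3 (S (F 132 (S L L)) (F 160 (S L L)))))))))) (F 10240 (V (F 41 (T (K 4) (F 256 (S (K 3) (V (K 3) (T (K 3) (F 4 (S L L)))))))) (F 66 (T (F 516 (S (K 4) (F 14 (U (K 3) L)))) (F 512 w0_0))))))) (F 3076 (U (V (K 4) (F 84256 (T (K 8) (F 131 (S (F 608 (V (K 2) L)) (F 576 (S L L))))))) (F 241664 (T (F 73 (V (K 4) (F 672 (V (K 2) (S (F 18 (U (K 3) (S L L))) (F 80 (U L (T L (U L L))))))))) (F 81 (V (F 128 (T (K 4) (F 4 (U (F 128 (V (K 2) (F 2 (S (K 4) (F 1 (S (K 1) L)))))) (S (F 128 (V (F 64 (U (K 3) (V (S (K 3) L) L))) (F 2 (S L L)))) (F 1 (V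 (S (F 1 (T (K 3) (S L L))) (V (S L L) (F 1 (S L L)))) (F 5 (S (T L (V L L)) (V (U L L) (U L (S L L)))))))))))) (F 544 w0_1))))))))))) (F 19394790529 (U (K 5) (F 15799803904 (S (F 17929 (U (T (K 4) (F 2048 (V (F 2304 (U (K 2) (F 768 (V (S L (F 12 (T (K 2) L))) (K 5))))) (K 7)))) (F 5120 (T (F 1033 (V (F 4 (S (K 4) (F 4 (S (K 2) (U (K 2) (V (F 16 (S L L)) (K 2))))))) (K 3))) (F 1 (V (F 9 w0_2) (F 128 (T (K 4) (F 1 (S (K 4) (F 1 (V (F 18 (U (K 2) (V (S L L) (K 2)))) (K 3))))))))))))) (F 131456 (T (F 24580 (U (K 8) (F 7 (V (F 4 (V (F 8 (S (F 16 (U (K 3) (F 2 (S L L)))) (U (F 32 (S (K 3) L)) (F 32 (T L (U (S L L) (S L L))))))) (K 5))) (K 3))))) (F 20608 (U (V (F 288 (U (F 4 (S (K 6) L)) (F 640 (S (F 33 (V (S L L) (K 2))) (F 32 (V L (T (K 2) (S (K 2) L)))))))) (K 7)) (F 7 (V (F 72 w0_3) (F 4 (T (K 4) (F 4 (V (F 4 (S (U (K 3) (S (V (S L L) L) (V (S L L) L))) (U (T (K 3) (S (K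 3) (S L L))) (S (V (S L L) L) (T L (S L L)))))) (U (K 3) (S (F 64 (S (K 2) (V L L))) (S (V L L) (V L L)))))))))))))))))))
noncomputable def w0_5 : Tr := (T (F 2 (U (V (K 1) (S (K 1) (U (U L (V (S (K 1) L) (F 64 (S L L)))) (V (S (K 1) (T L L)) (F 64 (T (F 1 (S L L)) (S L (S L L)))))))) (S (V (K 1) (T (F 32 (V L (S L L))) (F 96 (V L (S L L))))) (V (F 16 (S (V (K 4) (T L L)) (T (U L (V L (S L L))) (F 1 (V L (S L L)))))) (V (S (T L (F 64 (S L L))) (F 80 (T (S L (S L L)) (V (S L L) (S L L))))) (F 64 (S (F 1 (T (F 16 (S L L)) (V (S L L) (S L L)))) (T (F 3 (S L L)) (F 1 (V (S L L) (S L L))))))))))) (F 3 (S (V (K 1) (U (V (K 1) (F 32 (T L L))) (V (S (K 1) (T L L)) (F 32 (S (T L L) (T (S L L) (U L (T L L)))))))) (V (U (V (K 1) (S (K 1) (U (K 1) (T L L)))) (T (V (F 16 (S (K 3) L)) (S L (S L L))) (V (S (K 1) (S L L)) (S L (T (T L L) (T L L)))))) (U (V (T (S (K 1) L) (U L (S L L)))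 (U (S L L) (T (S L L) (S L L)))) (V (T (S (T L L) (S (T L L) (T L L))) (S (T L L) (V (S L L) (S L L)))) (S (T (F 32 (V (S L L) (S L L))) (F 32 (V (U L L) (S L L)))) (T (V (S L L) (F 32 (S L L))) (U (T L L) (S L L))))))))))
noncomputable def w0_6 : Tr := (S (F 16 (T (U (V (K 1) (V (K 1) (T L L))) (V (V (K 1) (S (K 1) (S L L))) (S (T (F 32 (S L L)) (F 32 (S L L))) (V (T (T L L) L) (F 32 (T (T L (S L L)) (S L L))))))) (U (V (K 1) (U (T L L) (S L (T (S L L) L)))) (V (S (S L L) (T L L)) (S (F 32 (T (S L L) (S L L))) (T (V L (F 32 (S L L))) (F 32 (V L L)))))))) (T (F 16 (U (V (S (K 1) (V (S (K 1) L) (T L L))) (V (T (S L L) L) (U (S L L) (T (S L L) (S L L))))) (V (V (T (S L (S L L)) (S L (S L L))) (S (T L (T L L)) (T (T L L) (U (S L L) (S L L))))) (V (T (S (U L (V L L)) (U (V L L) (S L L))) (S (S L L) (S L L))) (S (T (F 32 (V L (S L L))) (F 32 (S L L))) (T (V L L) (S L L)))))))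 (V (F 16 (U (V (S L L) (T (S L L) L)) (T (V (V (S L L) L) (S L (U L L))) (V (S L L) (S L (S L L)))))) (U (T (F 16 (V L (S L L))) (F 16 (V L (S L L)))) (V (F 16 (S (T (S L L) L) (T L L))) (S (F 17 (T (S L L) L)) (T L L)))))))
noncomputable def w0_7 : Tr := (T (F 69 (U (V (S (K 0) (V (F 32 (U L (T (S L L) (S L L)))) (S (K 0) L))) (K 0)) (S (V (F 32 (S (T L L) (V (T L (S L L)) (S (K 4) L)))) (K 0)) (V (V (F 32 (S (T (V (S L L) (S L L)) (V (S L L) (S L L))) (T (V (S L L) (S L L)) (V (S L L) (S L L))))) (S (F 32 (T L (U L L))) (V (F 32 (U L (S L L))) (T L (F 32 (U L L)))))) (T (U (S (K 0) L) (S L (S L L))) (V L L)))))) (F 5 (U (S (F 68 (T (S (K 4) L) (T L L))) (F 64 (V (F 8 (V (T L (S L L)) L)) (S (K 5) (K 2))))) (F 64 (V (F 8 (S (S (T L (T L L)) (V (T (U L (T L L)) (S L (S L L))) (T L L))) (V (T (U (S (T (S L L) L) (V L L)) (S (V L L) (S L L))) (S (V (S L L) (S L L)) (V L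 L))) (T (U L (S (S L L) L)) (S (T L L) (S L L)))))) (S (K 5) (T (F 8 (S L L)) (V L L))))))))
noncomputable def w0_8 : Tr := (T (F 128 (U (U (T (F 64 (T L L)) (F 64 (V L L))) (F 64 (V (S (F 8 (T L L)) (V (F 8 (T L L)) (S L L))) (T L (S (K 5) L))))) (F 64 (V (S (F 8 (S (U L (T (S L L) L)) (T (V (U L (S L L)) L) (V (U L (S L L)) L)))) (V (F 8 (S (T (S (S L L) (S L L)) (S (S L L) L)) (T (S L L) L))) (T (F 8 (S (T (S L L) L) L)) (S (F 8 (S L L)) (S L L))))) (S (S (K 5) (T L L)) (T (V (S L L) L) (U L (V (S L L) L)))))))) (U (F 1 (S (V (T (F 9 (T L L)) (F 32 (S L (F 32 (S L L))))) (K 1)) (F 1 (V (U (T L L) (T (V (S L L) L) (V (S L L) L))) (U L (T L (F 2 (S L L)))))))) (S (F 1 (V (S (T (F 9 (S L L)) (F 32 (S L L))) (F 1 (T (V (F 8 (S L L)) (S L L)) (F 2 (V L (S L L)))))) (F 32 (T (F 32 (S L L)) (S L L))))) (F 128 (V (T (F 64 (S (V (F 8 (S L L)) (U L (S L L))) (V (S L L) (S L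 L)))) (F 64 (S (V (S L L) (F 2 (S L L))) (V L (S L L))))) (F 64 (T (V (U L (S L L)) (F 2 (S L L))) (F 2 (U (V (S L L) (S L L)) (S (S L L) (V L L)))))))))))
noncomputable def w0_9 : Tr := (V (F 2474171704388 (U (K 3) (F 17023534592 (S (F 4616 (U (K 3) (F 23040 (V (K 7) (F 64 (V (K 3) (F 2 (T (F 257 (T (K 1) (F 96 (U (K 3) (S (K 3) L))))) (F 3 (T (F 1 (U (K 4) (F 1 (T L L)))) (U (F 64 (S (K 3) L)) (F 64 (S L (U (S L L) (T L L))))))))))))))) (F 18 (U (V (K 3) (F 272 (T (F 12802 (U (K 1) (F 768 (V (K 6) (T L (F 3 (S (K 1) L))))))) (F 12312 (U (F 4 (T (K 7) L)) (F 640 (T (F 33 (V (K 1) (T L L))) (F 32 (V (S (K 1) (S (K 1) L)) L))))))))) (F 40960 (T (F 12545 (V (F 256 (S (K 7) (F 4 (T (K 1) (F 32 (V (K 5) (F 17 (U (K 1) (V (K 1) (T L L)))))))))) (F 36 w0_5))) (F 8231 (V (F 16 (S (K 5) (F 128 (V (U (K 1) (T (F 32 (T (K 4) (V L L))) (T (V L L) (V L L)))) (F 4 (T (U (K 4) (T (V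 L (S (K 4) L)) (V L (S L L)))) (U (S (K 4) (T (K 4) (S (K 4) L))) (T (V L (S L L)) (S L (T L L)))))))))) (F 9 w0_6))))))))))) (F 36507765393 (U (K 4) (F 8406304256 (S (F 262192 (T (F 57347 (T (K 11) (F 4 (V (F 585 (U (K 7) (F 7 (U (K 0) L)))) (K 1))))) (F 35840 (V (F 20548 (U (K 1) (F 1920 (V (T (F 72 (U (K 0) (S (K 0) L))) (F 10 (U L (S L (U L L))))) (K 5))))) (K 11))))) (F 1310786 (T (F 53377 (U (V (F 2048 (U (K 0) (F 1536 (T (F 68 (S (K 0) L)) (F 5 (S (K 0) L)))))) (K 10)) (F 3 (V (F 1 w0_7) (F 640 (T (K 6) (V (S (K 6) (F 128 (S (K 0) L))) (K 6)))))))) (F 11264 (U (V (F 4172 (T (F 385 (V L (K 6))) (F 384 (S L L)))) (K 11)) (F 15 (V (F 130 w0_8) (F 512 (S (K 6) (F 256 (U (F 64 (V (F 64 (T (K 0) (F 16 (S (K 4) L)))) (K 5))) (T (F 64 (V (F 64 (T L L)) (F 2 (U (K 1) (V L (S (K 1) L)))))) (F 32 (V (F 66 (T (S L (V L L)) (V (U L (S L L)) (U L L)))) (T (F 2 (S (K 1) (T L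 L))) (V (F 2 (S L L)) (S (K 5) L)))))))))))))))))))))
noncomputable def w0_10 : Tr := (V (F 16 (V (T (S (K 3) (U (K 3) L)) (F 256 (U (T (K 4) (S L L)) (S (V (S L L) (F 9 (S L L))) (V L (F 8 (S L L))))))) (F 272 (U (F 1 (T (K 3) (U L (S (S L L) (S L L))))) (T (T (S (K 3) L) (F 1 (U L (S L L)))) (F 1 (S (T (T L L) (F 16 (U (S L L) (S L L)))) (T (S L L) (S L (S L L)))))))))) (F 35 (U (T (F 16 (V (U L (V L (S (S L L) L))) (U (S L L) (T (S L L) (S (S L L) (S L L)))))) (F 16 (V (U (S L L) (S (T (S L L) L) (T L (S L L)))) (T (U L (S (F 2 (S L L)) (S L L))) (F 2 (S L L)))))) (T (F 16 (V (S (T L (U L L)) (T L (U (S L L) (S L L)))) (T (S (U (S L L) (S L L)) (V (S L L) (S L L))) (S (V (U L L) (S L L)) (V (S L L) (S L L)))))) (F 16 (V (U (S (V (T L L) (F 2 (T L (S L L)))) (T (V L (S L L)) (S L L))) (S (T (V L L) (F 2 (S L L))) (T (T L L) (V L L)))) (T (S (F 2 (V L L)) (V (S L L)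 L)) (F 2 (S (T L L) (S L L))))))))))
noncomputable def w0_11 : Tr := (V (F 16 (T (F 4 (S (F 128 (V (U (K 3) L) (F 272 (U L (S L L))))) (U (V L (F 16 (T L L))) (V (S L L) (F 17 (S L L)))))) (U (F 64 (V (F 128 (S (V L L) (T L (S L L)))) (S L (S L L)))) (V (F 4 (S (F 1 (T L L)) (F 16 (V L (F 256 (S L L)))))) (F 1088 (S (F 65 (T L (F 4 (S L L)))) (T (F 64 (S L L)) (F 1 (S L L))))))))) (F 35 (T (F 12 (U (S (F 4 (T (S L L) (V L L))) (V L (T L L))) (V (F 4 (U (S (T L (S L L)) (T L L)) (S (T L (S L L)) (T L L)))) (S (T (F 4 (V L L)) (F 4 (S L L))) (T (S L L) (S L L)))))) (U (V (F 64 (S (F 16 (T L (S L L))) (T L L))) (F 8 (S (F 4 (T L L)) (T L L)))) (S (F 8 (V (F 4 (V (T (F 4 (S L L)) L) (T (F 4 (S L L)) (S L L)))) (T (F 36 (V L L)) (F 4 (V L L))))) (V (F 64 (T (F 48 (S L L)) (T (F 16 (S L L)) L))) (F 8 (T (S L L) (V L L)))))))))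
noncomputable def w0_12 : Tr := (T (F 256 (S (U (V (F 16 (V (S (K 5) L) (F 1 (T L (S L L))))) (F 768 (S (F 74 (S L L)) (F 64 (T L L))))) (F 512 (V (F 16 (S (S L L) (V L (S L L)))) (S (F 129 (T (F 8 (S L L)) (F 40 (S L L)))) (F 128 (T (F 9 (V L L)) (F 160 (S L L)))))))) (U (F 1 (V (F 32 (T (F 129 (S L L)) (S L L))) (F 257 (V (T L (S L L)) (F 64 (T (S L L) L)))))) (F 512 (V (F 272 (V (T L (S L L)) (S (S L L) (F 1 (S L L))))) (S (F 128 (V (F 1 (S L L)) (F 128 (T L L)))) (F 384 (T (S L L) L)))))))) (U (S (F 8 (V (F 32 (U (S L L) (S L (S L L)))) (F 768 (T (F 32 (S L L)) (F 32 (S L L)))))) (V (T (F 1024 (S L (S L L))) (F 8 (S (S L L) (F 1 (S L L))))) (F 8 (T (F 512 (S L L)) (F 768 (S L L)))))) (S (F 1 (V (S (F 164 (U L (S L L))) (V (F 32 (S L L)) (F 128 (T L L)))) (F 640 (T (F 32 (S (S L L) (V L (S L L)))) (F 32 (S (S L L) (S L L))))))) (V (T (F 1 (V L (S L L))) (F 8 (S (F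 512 (S L L)) L))) (F 9 (S (F 256 (T (S L L) (T L L))) (T (F 1 (S L L)) L)))))))
noncomputable def w0_13 : Tr := (V (U (F 128 (S (K 4) (F 1 (U (F 128 (T (K 3) (F 256 (S (K 6) L)))) (F 5 (T (F 2 (V (K 6) (F 32 (S (K 2) L)))) (F 16 (V (V L (S (K 5) L)) (T L (S L L)))))))))) (F 5 (T (F 68 (V (F 512 (S (U (K 2) (F 256 (T (K 5) L))) (U (S (K 2) (T L (F 8 (S L L)))) (F 256 (V (T L L) (F 16 (T L L))))))) (F 32 (S (U (K 3) (F 256 (T L L))) (F 1 (U (T (F 1 (S L L)) (S L L)) (F 1 (T (V (S L L) L) (V L L))))))))) (F 64 (S (V (S (F 256 (T L L)) (F 1024 (T L (S L L)))) (F 32 (S (F 4 (U L L)) (U (S L L) (T L L))))) (F 1024 (V (T (U (F 16 (S L L)) (F 512 (S L L))) (F 16 (U (V L L) (S L L)))) (F 16 (U (S (T L L) (T (S L L) (S L L))) (T (F 1 (S L L)) (S L L))))))))))) (F 260 (U (U (T (F 4 (S L L)) (S L (S L L))) (F 2048 (T (F 256 (V (F 16 (S (K 5) L)) (S L L))) (S (F 8 (V L (F 768 (S L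 L)))) (V (S L L) (F 8 (S L L))))))) (F 2048 w0_12))))
noncomputable def w0_14 : Tr := (U (F 576 (T (F 68 (S (U (K 5) (V (T (K 5) L) (F 8 (S L L)))) (U (V (F 512 (U L (S (K 3) L))) L) (V (F 512 (T (V L L) (S L L))) (F 8 (S (S L L) (F 1 (S L L)))))))) (F 256 (S (F 16 (U (V (F 4 (S L L)) L) (V (F 4 (S (S L L) (S L L))) (S L L)))) (T (F 272 (U (S L L) (V (S L L) (S L L)))) (S (F 16 (U L (S L L))) (U (F 16 (S L L)) (T L L)))))))) (S (F 512 (T (F 132 (V (U (T (S L L) (F 40 (S L L))) (T (S L L) (F 8 (S L L)))) (F 40 (U (S L (T L L)) (S (T L (F 256 (S L L))) (T L L)))))) (F 704 (V (S (F 128 (T (U L L) (U L L))) (F 128 (T (S L L) (S L L)))) (U (S (V (F 128 (S L L)) (F 3 (S L L))) (T L L)) (S (F 1 (T L (S L L))) (T L (S L L)))))))) (F 64 (T (F 20 (V (F 1056 (T (S (V L L) (S L L)) (S (S L L) (S L L)))) (S (F 40 (T (V L L) (S L L))) (T (F 1056 (S L L)) (F 8 (S L L)))))) (F 528 (V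 (F 16 (S (F 4 (T (S L L) (S L L))) (F 5 (T L L)))) (S (T (F 272 (S L L)) (U L L)) (T (F 256 (S L L)) (S L L)))))))))
noncomputable def w0_15 : Tr := (U (V (S (T (F 4 (S L (S L L))) (K 8)) (T (F 4 (U L (T (S L L) L))) (K 8))) (K 8)) (S (T (T (F 4 (U (V (F 16 (S L L)) (F 3 (S L L))) (F 1 (S (F 260 (V (F 4 (S L L)) (S L L))) (V (U L L) (F 256 (S L L))))))) (F 1536 (U (V (F 64 (S L L)) (S (K 0) (K 0))) (S (F 64 (V (F 32 (S L L)) L)) (V (F 64 (S L L)) (S L L)))))) (F 1536 (U (V (S (S L L) (S L L)) (K 0)) (T (S (V (F 4 (S L L)) (S L L)) (V L (S L L))) (V (S (F 4 (S L L)) L) (S (S L L) L)))))) (T (U (V (F 4 (S (V (S L L) L) (T L L))) (F 1536 (T (F 64 (S L L)) (S L L)))) (T (F 4 (V (S (F 1 (S L L)) L) (F 3 (S (S L L) (S L L))))) (V (S (F 1028 (S L L)) L) (F 1536 (S (S L L) (S L L)))))) (U (V (S (F 512 (S L L)) (S L L)) (K 8)) (F 1024 (S (F 1 (V (T L L) (T (S L L) (S L L)))) (V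 (T L L) (F 1 (T L (T L L))))))))))
noncomputable def w0_16 : Tr := (U (F 34896814089 (S (F 16782085 (U (K 5) (F 1097728 (V (K 14) (F 8288 (T (K 5) (K 9))))))) (F 560 (T (F 10068116 (V (K 12) (F 64 (V (K 4) (F 2048 (T L (K 6))))))) (F 131216 (V (F 2592 (U (K 5) (F 675840 (U (S (K 10) L) (F 16 (T (F 8260 (S (K 7) L)) (F 18688 (V (F 32 (S (K 5) L)) (K 3))))))))) (K 13))))))) (F 57771499520 (S (F 294960 (T (F 90137 (U (V (K 8) (F 128 (T (K 3) (F 336 (S (K 4) L))))) (F 1 (V (F 32 (T (K 6) (S (K 6) (U (K 6) (F 1 (V (S (K 3) L) (F 16 (S L L)))))))) (F 16 (S (F 41 (U (F 64 (T (K 2) (S L (V (K 2) L)))) (T (V (K 3) L) (F 64 (V (S L L) (T (S L L) (S (S L L) (V L L)))))))) (T (F 33 (U (V (K 3) L) (V (S L L) (F 160 (S (F 16 (T L L)) (F 16 (T L L))))))) (F 9 (U (F 128 (T (F 4 (S L L)) (F 4 (S (S L L) L)))) (T (F 16 (V (S L L) (F 1 (S (S L L) (V L L))))) (F 144 (V (S L L) (S (V L (S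 L L)) (S L L)))))))))))))) (F 132096 (U (F 32768 (V (F 6272 (T (K 6) (U (F 32 (T (K 5) L)) (F 1 (S (F 12 (T (K 5) L)) (F 64 (V (F 128 (V L L)) (S L L)))))))) (F 17472 (U (K 3) (F 4 (S (F 1548 (T (F 4 (S L L)) L)) (F 512 (T (F 193 (S L L)) (K 1))))))))) (F 13 (S (F 25 w0_10) (F 1 w0_11))))))) (F 2359402 (T (F 20 w0_13) (F 40960 (V w0_14 (F 584 w0_15))))))))
noncomputable def w0_17 : Tr := (S (F 128 (T (U (V (F 640 (T (F 164 (S L L)) (F 4 (S L L)))) (F 4 (V (F 1 (S L (S L L))) (S (K 6) L)))) (F 512 (V (T (F 10 (S (F 4 (S L L)) (F 5 (T L L)))) (F 8 (S (F 36 (V L L)) (F 65 (S L L))))) (F 64 (T (S L L) (V (S L L) L)))))) (U (F 64 (V (F 9 (V (F 32 (S (S L L) L)) (S L (S L L)))) (F 64 (S (F 144 (S L L)) (T L L))))) (F 512 (V (T (F 8 (V (F 64 (S L L)) (F 32 (S L L)))) (F 12 (S (T L L) L))) (F 68 (V (T (S L L) (F 16 (S L L))) (S L (S L L))))))))) (U (T (F 1024 (V (F 640 (S (F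 32 (T L L)) (F 32 (T L L)))) (F 2 (U (S L L) (T L (S L L)))))) (V (F 1024 (S (F 512 (T L L)) (F 640 (T L L)))) (S (F 8 (T L (S L L))) (F 1024 (T (S L L) (F 64 (S L L))))))) (T (F 1 (V (F 257 (S (F 32 (T (T L L) (V (S L L) L))) (F 32 (T (S L L) (S L L))))) (T (F 13 (U L (S L L))) (V (F 1 (S L L)) (F 4 (S L L)))))) (V (F 1025 (T (F 128 (S (S L L) (S L L))) (S (F 64 (S L L)) L))) (S (F 1 (V (T L L) L)) (F 1024 (T (F 512 (S L L)) L)))))))
noncomputable def w0_18 : Tr := (V (F 513 (U (U (S (F 8 (S L L)) (T L (S L L))) (F 1024 (S (F 128 (V (T L L) (F 4 (T (K 6) L)))) (T (F 1024 (V (F 640 (S L (K 0))) L)) (V (F 1024 (T L L)) (S L L)))))) (F 1024 w0_17))) (U (F 2048 (T (K 4) (F 128 (U (F 256 (S (K 3) (F 1024 (S (K 6) L)))) (F 5 (S (F 4 (V (F 64 (S (K 2) L)) (K 5))) (F 8 (V (S L (S L L)) (V (S L L) L))))))))) (F 5 (S (F 12 (V (F 128 (T (U (K 2) (F 256 (S L L))) (F 32 (U (S (F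 1 (S L L)) (S L L)) (F 1 (S (V L (S L L)) (V L L))))))) (F 8 (T (U (K 3) (F 256 (S (K 4) L))) (U (T (K 3) (S L (F 4 (S L L)))) (F 256 (V (F 32 (S L L)) (S L L)))))))) (F 4 (T (V (F 128 (T (F 4 (U L L)) (U (S L L) (S L L)))) (T (F 256 (S L L)) (F 8 (S L (S L L))))) (F 8 (V (F 8 (U (T (S L L) (S (S L L) (S L L))) (S (F 1 (T L L)) (T L L)))) (S (U (F 8 (T L L)) (F 512 (T L L))) (F 8 (U (V L L) (T L L))))))))))))
noncomputable def w0_19 : Tr := (V (F 133 (U (S (F 2 (V (U (S L L) (S (T L L) (T (S L L) (S L L)))) (U L (V (T (S (K 4) L) L) L)))) (F 2 (V (S (U L (T (F 32 (S L L)) (S L L))) (F 32 (T L L))) (U (S L L) (T (S (S L L) L) (S L (S L L))))))) (S (F 2 (V (S (T (U (S L L) (S L L)) (V (S L L) (S L L))) (T (V (S L L) (U L L)) (V (S L L) (S L L)))) (T (S L (U L L)) (S L (U (S L L) (S L L)))))) (F 2 (V (S (T (F 32 (V L L)) (V L (S L L))) (F 32 (T (S L L) (S L L)))) (U (T (V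 (F 32 (S L (S L L))) (S L L)) (S (V (S L L) L) (S L L))) (T (S (V L L) (F 32 (S L L))) (S (S L L) (V L L))))))))) (F 256 (V (F 258 (U (F 2 (S (K 1) (U L (T (S L L) (S L L))))) (S (S (S (K 5) L) (F 2 (U L (S L L)))) (F 2 (T (S (S L L) (F 1 (U (S L L) (S L L)))) (S (T L L) (T L (S L L)))))))) (S (T (K 2) (U (K 2) L)) (F 256 (U (S (K 5) (T L L)) (T (V (F 66 (S L L)) (S L L)) (V (F 64 (S L L)) L))))))))
noncomputable def w0_20 : Tr := (V (F 133 (S (F 12 (U (T (F 32 (S (S L L) (V L L))) (V (S L L) L)) (V (T (S (F 32 (V L L)) (F 32 (S L L))) (S (S L L) (S L L))) (F 32 (U (T (S L (S L L)) (S L L)) (T (S L (S L L)) (S L L))))))) (U (V (F 4 (T (F 64 (S L L)) (S L L))) (F 2 (T (F 64 (S L (S L L))) (S L L)))) (T (F 4 (V (S (F 96 (V L L)) (F 64 (V L L))) (F 64 (V (S (F 2 (S L L)) (S L L)) (S (F 2 (S L L)) L))))) (V (F 4 (S (S L L) (V L L))) (F 2 (S (F 96 (S L L)) (S (F 64 (S L L))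 L)))))))) (F 1024 (S (F 4 (T (F 256 (V (F 258 (U L (S L L))) (U (K 2) L))) (U (V (F 128 (S L L)) L) (V (F 129 (S L L)) (T L L))))) (U (F 8 (V (T L (S L L)) (F 128 (T (V L L) (S L (S L L)))))) (V (F 1032 (T (F 66 (S L (F 2 (S L L)))) (S (F 64 (S L L)) (F 2 (S L L))))) (F 4 (T (F 1 (S L L)) (F 128 (V (F 256 (S L L)) L)))))))))
noncomputable def w0_21 : Tr := (U (V (K 9) (T (S (F 8 (T L (S L (K 1)))) (K 9)) (S (F 8 (U L (S (T L L) L))) (K 9)))) (T (S (S (F 8 (U (V (F 5 (T L L)) (F 256 (T L L))) (F 1 (T (F 132 (V (S L L) (F 32 (S L L)))) (V (F 128 (S L L)) (U L L)))))) (F 1280 (U (V (T (K 0) (K 0)) (F 32 (S L L))) (T (F 32 (V L (F 2 (S L L)))) (V (S L L) (F 32 (S L L))))))) (F 1280 (U (V (K 0) (T (S L L) (S L L))) (S (T (V (T L L) (F 128 (S L L))) (V (S L L) L)) (V (T (T L L) L) (T (F 128 (S L L)) L)))))) (S (U (V (F 1280 (S (F 32 (T L L)) (T L L))) (F 8 (T (V L (S L L))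 (S L L)))) (S (F 8 (V (F 5 (T (T L L) (S L L))) (T (F 1 (S L L)) L))) (V (F 1280 (T (S L L) (S L L))) (T (F 1032 (S L L)) L)))) (U (V (K 9) (T (F 256 (S L L)) (S L L))) (F 1024 (T (F 2 (V (S (S L L) (S L L)) (S L L))) (V (F 2 (S L (S L L))) (S L L))))))))
noncomputable def w0_22 : Tr := (U (F 1152 (S (F 20 (T (U (K 6) (V (F 512 (S L L)) (S (K 6) L))) (U (V L (F 8 (U L (S L L)))) (V (F 512 (T (S L L) (F 32 (S L L)))) (F 8 (S (V L L) (T L L))))))) (F 1 (T (F 512 (U (V L (F 4 (S (K 6) L))) (V (T L L) (F 4 (T (S L L) (S L L)))))) (S (F 640 (U (T L L) (V (S L L) (T L L)))) (T (F 512 (U L (S L L))) (U (F 512 (S L L)) (S L L)))))))) (T (F 1024 (S (F 20 (V (F 1152 (U (T L (S L L)) (T (S L (F 256 (S L L))) (S L L)))) (U (S (S L L) (F 1152 (T L L))) (S (T L L) (F 1024 (T L L)))))) (F 37 (V (U (T (V (F 5 (S L L)) (F 128 (S L L))) (S L L)) (T (F 1 (S L (S L L))) (S L (S L L)))) (T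 (F 128 (S (U L L) (U L L))) (F 128 (S (S L L) (S L L)))))))) (F 128 (S (F 40 (V (T (F 1280 (S (V L L) (S L L))) (S (F 264 (S L L)) (F 1024 (S L L)))) (F 264 (S (T (V L L) (S L L)) (T (S L L) (S L L)))))) (F 9 (V (T (S (F 640 (S L L)) (U L L)) (S (F 128 (S L L)) (S L L))) (F 512 (T (F 4 (S (S L L) (S L L))) (F 68 (S L L))))))))))
noncomputable def w0_23 : Tr := (U (F 67793408 (S (F 33560691 (U (K 6) (F 73728 (T (K 12) (F 24617 (V (F 8192 (V L (K 8))) (K 4))))))) (F 33554688 (T (F 40968225 (V (K 9) (K 14))) (F 5275680 (V (K 12) (F 69 (U (K 5) (F 675840 (U (S (K 10) L) (F 1 (S (F 4116 (S (K 8) L)) (F 18433 (V (K 2) (F 1024 (T (K 3) L)))))))))))))))) (F 55513341952 (S (F 4649 (T (F 98360 (U (V (F 256 (S (K 3) (F 133 (T (K 6) L)))) (K 7)) (F 2 (V (F 8 (T (F 641 (U (F 32 (S (K 4) (T L (V L (K 4))))) (S (V L (K 1)) (F 32 (V (S (T L L) (T (S L L) (V L L))) (T L L)))))) (S (F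 129 (U (V L (K 2)) (V (F 65 (T (F 4 (S L L)) (F 4 (S L L)))) (S L L)))) (F 513 (U (F 64 (S (F 32 (T L L)) (F 32 (T (S L L) L)))) (S (F 2 (V (F 2 (T (T L L) (V L L))) (S L L))) (F 66 (V (T (V (S L L) L) (S L L)) (T L L))))))))) (F 4 (S (K 6) (T (K 6) (U (K 6) (F 1 (V (F 4 (S L L)) (S (K 3) L))))))))))) (F 65576 w0_18))) (F 70 (T (F 521 (U (F 64 (V (F 2576 (U (K 3) (F 1 (T (F 1548 (S (F 32 (S L L)) L)) (F 1024 (S (F 193 (S L (K 6))) (K 1))))))) (F 24578 (S (K 7) (U (F 256 (S (K 3) L)) (F 2 (T (F 6 (S (K 6) L)) (F 8 (V (S L L) (F 128 (V L L))))))))))) (F 11 (T (F 524 w0_19) (F 512 w0_20))))) (F 430592 (V (F 9344 w0_21) w0_22)))))))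
noncomputable def w0_24 : Tr := (V (F 128 (U (S (F 16 (V (F 1 (U L (S (K 5) L))) (K 1))) (F 128 (U (F 32 (V (T L L) (T L (K 5)))) (T (F 4 (V (S L (F 2 (V L L))) (F 2 (V (S L L) L)))) (F 32 (V (T (F 8 (S L L)) L) (K 5))))))) (S (F 16 (V (T (F 1 (V (U L (T L (S L L))) L)) (F 32 (S (K 4) L))) (F 32 (T (S L (S L L)) (K 4))))) (F 128 (T (F 4 (V (T (S (U (S L L) (V (S L L) L)) (V (S L L) (F 2 (S L L)))) (F 2 (S (U L (S L L)) (V (S L L) (S L L))))) (F 2 (S (T (V L L) L) (V (U (V L L) (T (S L L) L)) (T (S L L) L)))))) (F 32 (S (F 8 (T (V (S L L) L) (S L L))) (T (F 8 (V (V (F 4 (S L L)) (S L L)) L)) (V (T L L) L))))))))) (F 64 (T (F 16 (S (U (K 1) (V (F 32 (U (K 4) (S (K 4) (S (K 4) L)))) (V (F 32 (S L L)) (S L L)))) (V (F 32 (U (S (K 4) L) (V (S (S L L) (F 32 (S L L))) (U (S (K 4) L) (S L L))))) (U (K 1) (S (V L L) (F 32 (V L L))))))) (K 6))))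
noncomputable def w0_25 : Tr := (S (T (F 4 (U (V (F 16 (U L (V (S L (T L L)) (F 1 (S L L))))) (F 64 (S L L))) (V (F 16 (T (V (S (F 1 (V L (S L L))) (V (F 2 (S L L)) (F 1 (S L L)))) (F 1 (S (V (S L L) (S L L)) (T (S L L) (S L L))))) (F 1 (V (U L (S (T L L) L)) (U (S L L) (S L (T L L))))))) (F 64 (V (T (U (S L (F 2 (T L L))) (S (S L L) (F 2 (T L L)))) (F 2 (U (S L L) (V L L)))) (S (T L L) (F 2 (T L L)))))))) (F 1 (U (V L (K 0)) (T (F 32 (V (F 2 (V L L)) (V (F 2 (U L (S L L))) L))) (F 48 (V L L)))))) (F 12 (T (U (V (V (T (S L L) L) (U L (T (S L L) L))) (U L (V (S L (T L L)) L))) (V (V (T (S (V L (S L L)) (U L L)) (S L L)) (T (S (V (S L L) (S L L)) (V L (S L L))) (S (V L L) L))) (U (V (S (F 32 (T (V (S L L) L) (V (S L L) L))) (T (V (S L L) (S L L)) (S L L))) (F 32 (S (T L L) (T (S L L) (S L L))))) (V (T (S (F 32 (T L L)) (T (S L L) (S L L))) (S (F 32 (V L (S L L))) (S L L)))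 (F 32 (T (S (V L L) (S L L)) (S (T L L) (T L (S L L))))))))) (U (V (S L (K 1)) L) (V (T (V L (S L L)) (S L (K 1))) (F 32 (T (U (S L L) (V (S (S L L) L) (S L (S L L)))) (S L L))))))))
noncomputable def w0_26 : Tr := (T (F 32 (V (F 4 (S (S (F 1 (V (T (S L L) (S (T L L) (T L L))) (T (S L L) (U L (T L L))))) (V (T (V (S L L) L) (V (S L L) (F 1 (S L L)))) (F 1 (T (S L L) (S (T L L) (S L L)))))) (S (V (T (S L L) (S L L)) (T (S L L) (S L L))) (V (U L (S L L)) (T L L))))) (S (F 64 (S (V (F 8 (T L (S L L))) (T L L)) (V (F 8 (T (S L L) (U (S L L) (S L L)))) (U L (T (S L L) L))))) (S (F 64 (T (V L (S L L)) (F 8 (V (S (S L L) L) (S (S L L) L))))) (T (V L (S L L)) (F 68 (V L (S L L)))))))) (F 16 (S (F 68 (U (T (V (S (S L L) (S L L)) (S L L)) (S L L)) (T (V (S (V (S L L) L) (V L (S L L))) (S L (S L L))) (V (S L L) (S L L))))) (V (F 4 (S (T (V L (F 1 (S L L))) L) (T (S L L) L))) (U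 (F 64 (S (F 8 (U L (T (S L L) L))) (F 8 (V (S L L) (F 8 (S L L)))))) (F 64 (T (F 8 (S (V (S L L) (S L L)) (V L L))) (S (F 8 (S L L)) (F 8 (S L L))))))))))
noncomputable def w0_27 : Tr := (V (F 40 (T (F 16 (S (F 4 (V (V (T (S (S L L) L) (S L L)) (U (T (S L L) (K 4)) (S (T (U L L) L) (S L L)))) (U (V (T (S L L) (S L (K 4))) (S (S L L) L)) (V (S (T (U (S L L) (S L L)) (V L L)) (T (U (S L L) L) (S L L))) (S (T (V (S L L) (S L L)) (T (S L L) L)) (T (T L L) (S L L))))))) (V (S (U (K 1) (V L L)) (U (K 1) (V L L))) (F 4 (U (V (S L L) (S (S L L) L)) (V (S (U L L) (S L L)) (S (T (U L L) L) (S L L)))))))) (S (F 16 (U (F 4 (V (K 4) (S (S L L) (K 4)))) (V (V (K 1) (F 4 (S L (K 4)))) (F 4 (T (V (V L L) (S L L)) (S (S L L) L)))))) (V (K 6) (F 48 (U (K 1) (T (S L L) L))))))) (F 20 (U (S (F 32 (V (F 4 (U (T L L) (T (V (S L L) (F 1 (S L L))) (F 1 (S L L))))) (F 64 (U L (T (T (K 2) L) L)))))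 (V (F 48 (T (S (V L (S L L)) (T L L)) (T (S (S L L) L) L))) (U (F 16 (T (F 4 (S L L)) L)) (T (F 32 (V (F 4 (S (S L L) L)) (F 64 (S L (F 8 (S L L)))))) (F 17 (S L L)))))) w0_26)))
noncomputable def w0_28 : Tr := (S (F 122906 (U (T (F 2048 (V (F 2304 (S (F 256 (V (S L L) L)) (F 48 (U L (F 3 (V (S L (K 1)) L)))))) (F 6 (S (K 1) L)))) (F 1032 (V (F 1056 (S (K 0) L)) (K 9)))) (F 5120 (T (F 1 (V (F 9 w0_25) (F 128 (U (F 1 (S (K 1) (F 1 (U L (V (F 18 (T (S L L) L)) L))))) (F 1 (S (T (V (F 9 (T L L)) (K 1)) (K 1)) (F 64 (V (F 72 (T (S (V (T L L) L) (V (T (S L L) (U L (T L L))) (T L (S L L)))) (T (V (S L (S L L)) L) (S (K 0) L)))) (T (F 64 (T L L)) (K 5)))))))))) (F 129 (V (F 33 (T (U (S L L) (V (S L L) L)) L)) (F 320 (S (K 5) (F 2 (V L (K 1))))))))))) (F 557824 (T (F 14336 (U (V (F 640 (U (S (K 1) (K 1)) (F 1280 (S (F 97 (V (K 1) (T L (K 1)))) (S (K 7) (K 7)))))) (F 1284 (U L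 (F 512 (S L (F 32 (S L (F 4 (U L (F 1 (S L (S L L)))))))))))) (F 7 w0_27))) (F 5152 (U (V (K 11) (F 1282 (S L L))) (F 15 (V (S (F 24 (V (K 5) (F 16 (S L (K 1))))) (K 1)) (F 4 (T (F 16 (U (U L (S L L)) (S L (T (S L (V L (F 80 (S L L)))) L)))) (F 16 (S L L)))))))))))
noncomputable def w0_29 : Tr := (V (F 9380217299220 (U (K 1) (F 16342478848 (S (F 229421 (V (F 12352 (T (F 8 (S (K 1) (F 512 (V (F 2 (T (U (K 1) (S (K 1) L)) (K 1))) (K 7))))) (K 9))) (F 288 (U (S (T (F 518 (S (F 256 (V (K 6) L)) (K 1))) (K 10)) (K 10)) (F 69 (T (F 256 (S (T (F 32 (U (V (K 1) (V (F 32 (S L (K 4))) (S (F 32 (S L L)) (F 16 (S L L))))) (V (F 32 (U (S (S L L) (K 4)) (T (S (S L L) L) (S L (K 4))))) (V (F 32 (T (S (V L L) L) (S L L))) (S (F 48 (T (V (S L L) L) L)) (F 48 (T (T L L) L))))))) (V (K 6) (F 32 (U (K 1) (T (S L L) L))))) (T (U (V (K 6) (F 36 (S (S (K 1) (K 1)) (K 1)))) (F 4 (V (F 32 (S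 (V (K 4) L) (K 4))) (F 4 (T (V (F 2 (S L L)) (S L L)) (V (K 4) L)))))) (K 6)))) (F 256 (S (K 6) (K 6))))))))) (F 3602 (T (F 12328 (U (V (F 22 (S (K 1) L)) (K 10)) (F 7 w0_24))) (F 35104 (V (F 1 (U (K 1) (F 1536 (V (F 34 (S (K 1) (F 17 (U L (T (U L L) L))))) (K 7))))) (K 10))))))))) (F 73621047873 (U (F 2292199552 (S (F 15737485 (U L (F 73728 (V (F 16392 (T (F 1024 (S L L)) L)) (K 13))))) (F 71315496 (U L (F 1868160 (V (K 13) (F 4104 (T L L)))))))) (F 16871796736 w0_28))))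
noncomputable def w0_30 : Tr := (S (F 25 (U (F 128 (T (F 8 (U (V (S L L) (S L L)) (V (S (F 4 (T L (V L L))) (T L (S L L))) (T (S (F 4 (S L L)) L) (S (S L L) (S L L)))))) (T (F 8 (U (S L L) (V (S (V L L) (T L L)) (S L (S L L))))) (F 8 (U L (V L (S L L))))))) (T (V (S (F 140 (T (V L (S L L)) (V L (S L L)))) (T (F 12 (S L L)) (F 136 (S L L)))) (F 136 (S (T (F 8 (S (T L (T L L)) (T L L))) (S (F 8 (U L L)) (F 8 (T L L)))) (T (S (F 8 (S L L)) L) (V (S L L) (S L L)))))) (F 128 (T (F 8 (V (S (S (F 4 (V L L)) (V L L)) (V L (S L L))) (S (U (S L L) (S L L)) (V (U (S L L) L) (T L L))))) (F 8 (U (V (F 8 (S (S L L) (S L L))) (S L (S L L))) (S (V (S (S L L) L) L) (V (F 8 (S L L)) (S L L)))))))))) (F 16 (U (T (V (U (T (S L L) (S L L)) (S (F 512 (T L L)) (T (S L L) L))) (F 768 (S (T L L) (T L (S L L))))) (F 512 (S (F 5 (V (F 16 (T L L)) (T (F 8 (T L L)) (F 8 (S L L))))) (T (V L L) (F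 5 (V L (S L L))))))) (F 512 (T (V (S (T (F 64 (S L L)) (S L L)) (T L (V L L))) (F 1 (S (T (F 8 (V L (S L L))) (F 64 (V (S L L) (F 8 (S L L))))) (T (S L L) (V (S L L) L))))) (S (F 5 (V (T (S (S L L) L) (F 16 (S (S L L) L))) (T (V (S L L) (F 8 (S L L))) (F 8 (S (S L L) (S L L)))))) (V (F 16 (T (U (S L L) L) (F 160 (S L L)))) (F 5 (T (S L L) (V L (S L L)))))))))))
noncomputable def w0_31 : Tr := (T (S (F 153 (U (F 64 (V (F 64 (U (S L L) (T (S L L) (S L L)))) (S (S L L) L))) (V (F 65 (U (S (T (F 8 (S L L)) L) (T (S L L) (U L (S L L)))) (S (T (F 8 (V L L)) (S L L)) (T (V L L) (T L L))))) (S (V (F 65 (S L L)) (S L L)) (F 65 (V (T L L) L)))))) (F 2053 (U (V (F 64 (U (K 0) (S (F 16 (T L L)) (S (K 0) (K 0))))) (F 8 (S L (T L L)))) (S (F 72 (V (T (T (S L L) (F 2 (T L L))) (F 2 (S L L))) (F 2 (T (S L L) (S L L))))) (V (F 64 (T (V (S L L) L) (S L L))) (F 8 (T (S L L) (F 6 (S L L)))))))))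 (F 24 (V (F 641 (S (F 8 (U (S (K 0) (S L L)) (S (S L L) (V (U L (S L L)) L)))) (S (F 8 (U L (T (S (S L L) L) (S L L)))) (U (T L L) (T (S L L) (S L (S L L))))))) (F 16 (S (F 1 (U (K 1) (S L (S L L)))) (F 257 (U (S L L) (S (T L L) (F 32 (U (S L L) (S L L)))))))))))
noncomputable def w0_32 : Tr := (S (F 1024 (T (U (F 80 (V (F 65 (S L L)) (K 1))) (V (F 578 (T (F 8 (U (S L (V L L)) (S (V L L) (V (F 4 (S L L)) L)))) (F 8 (S L (F 4 (S L L)))))) (F 16 (V (F 8 (S (K 6) L)) (K 1))))) (F 16 (V (F 169 (U L L)) (K 1))))) (T (F 1 (U (V (F 133 (S (T (S L L) L) (F 16 (U L (V L (T L L)))))) (S (F 161 (T L L)) (F 129 (T L (F 8 (S L L)))))) (F 1 (V (F 132 (S (T (V (F 4 (S (S L L) L)) (F 8 (V (F 8 (S L L)) (S L L)))) (F 4 (U (V L L) (V (S L L) (F 8 (S L L)))))) (F 4 (T (V (S L L) (S (S L L) (S L L))) (V (S L L) (S (V L L) (V L L))))))) (V (F 132 (S (F 8 (T L L)) (T (F 8 (S L L)) (F 8 (V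 L L))))) (F 16 (S L (F 32 (T L L))))))))) (F 1024 (V (F 586 (U (T (S L (S L L)) L) (S (T (U L (V L L)) L) (T (V (S L L) (S (F 8 (S L L)) (V L L))) (V L (T (F 8 (S L L)) L)))))) (F 16 (U (F 1 (V (F 10 (S (K 0) L)) (K 7))) (S (V (F 1 (S L L)) (K 1)) (F 1 (V (F 10 (S L (F 4 (S L L)))) (S L L))))))))))
noncomputable def w0_33 : Tr := (T (F 4 (S (T (F 16 (S (V (U L L) (F 768 (U L L))) (V (S L L) (V (S L L) (F 768 (U L L)))))) (F 16 (U (V (F 16 (S (S L L) L)) (F 256 (S (F 1 (S L L)) (S L L)))) (V (F 16 (S (S L L) L)) (F 768 (S (U L L) (S L L))))))) (T (V (F 80 (S (S L L) (S L L))) (S (U L (S L L)) (U L L))) (S (V (F 80 (S L L)) (V L (F 3 (S L L)))) (V (F 80 (S L L)) (U L (S L L))))))) (S (F 132 (U (V (F 32 (S (T L L) (T (S L L) (S L L)))) (F 3 (T (S L L) (S L (F 16 (S L L)))))) (S (F 1 (T (V (F 16 (U L L)) (F 256 (V (S L L) L))) (F 64 (V (F 8 (V L L)) (F 1 (S L L)))))) (V (F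 32 (T (S L L) (F 256 (S L L)))) (F 3 (T (T L L) (F 16 (T L L)))))))) (F 36 (S (U (V (F 16 (T L (S L L))) (F 2 (T L L))) (V (F 16 (T L (S L L))) (F 3 (T L (F 32 (S L L)))))) (V (T (F 16 (S L L)) (F 16 (U (S L L) (S L L)))) (U (T L L) (F 1 (T (S L L) (F 256 (S L L))))))))))
noncomputable def w0_34 : Tr := (V (F 2 (U (F 4 (U (S (V (F 80 (T (S L L) L)) (K 2)) (T (V (F 80 (S L (S L L))) (K 2)) (F 64 (V (F 32 (S L L)) (K 7))))) (S (T (F 16 (V (F 16 (S (U L L) (S L L))) (S (K 7) L))) (F 16 (V (F 16 (T L L)) (K 7)))) (T (V (F 80 (S (S L L) (S L L))) (V (F 64 (S L L)) (K 2))) (F 64 (V (F 32 (T (S L L) (S L L))) (T (S (K 7) L) (K 7)))))))) w0_33)) (F 1028 (U (K 8) (F 1536 (S (T (U (U (K 0) (U (K 0) (V (S (K 0) (S (K 0) (K 0))) (S (S L (K 0)) (K 0))))) (T (S (V L (U L (S L L))) (V L (S L L))) (V (S (F 4 (S L L)) (U L L)) (S (S L L) (S L L))))) (V (S (F 6 (T (S L L) (U L (S L L))))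 (U (K 0) (T (S L L) (F 6 (S L L))))) (F 2 (U (S (T L L) (S L L)) (S (T (S L L) (F 64 (S L L))) (T (S L L) (S L L))))))) (T (S (U (V (T L (K 0)) (K 0)) (V (T L L) (T (S L L) (U L L)))) (V (U (T L L) (T (S L L) (S L L))) (U (K 0) (T (S L L) (S L L))))) (S (U (V (K 0) (T (K 0) L)) (V (T (S L L) (S (F 2 (S L L)) L)) (T (S L L) (F 2 (U L (S L L)))))) (U (T (K 0) (K 0)) (T (V (V L L) (S L L)) (V (F 16 (T L L)) (F 2 (S L (S L L)))))))))))))
noncomputable def w0_35 : Tr := (U (T (F 4 (V (F 16 (S (T L L) (T (V L L) (F 32 (S L L))))) (F 3 (S (F 96 (S L L)) (T (S L L) (F 96 (S L L))))))) (F 1728 (S (F 16 (V (T L L) (U (S L L) (T (S L L) (S L L))))) (V (T L (F 2 (S L L))) (F 16 (U (S L L) (T (S L L) (F 16 (S L L))))))))) (F 1024 (T (S (F 136 (V (T (S L L) (F 32 (S L L))) (F 160 (T (S (S L L) L) (S (U (T L L) L) (S L L)))))) (F 128 (V (F 32 (T (S L L) (F 4 (S L L)))) (F 256 (T (S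 L L) (F 6 (S (S L L) (S L L)))))))) (F 12 (S (F 132 (V (T (V L (S L L)) (S L L)) (U (T (S (T L L) (T L L)) (V L (F 2 (S L L)))) (T (S (T L L) (S L L)) (V (S L L) (F 2 (S L L))))))) (V (T (S (F 4 (T L L)) (F 4 (S L L))) (F 160 (V (S L L) (F 8 (S L L))))) (F 132 (T (S (T (S L L) L) (T L L)) (F 2 (U (V (S L L) (S L L)) (S (V L L) (S L L))))))))))))
noncomputable def w0_36 : Tr := (U (F 8 (U (T (F 513 (S (K 7) (S L L))) L) (F 1 (S (F 196 (T (V (S L L) (K 2)) (F 3 (V (K 1) (S L L))))) (T (F 4 (V (F 16 (S L (T L L))) (F 3 (S (K 7) (K 7))))) (F 704 (S L (F 32 (S L L))))))))) (F 4096 (S (F 792 (T (F 128 (U (S (F 1 (T (V L L) (S L L))) (V (S L L) (F 1 (T (S L L) L)))) (S (F 1 (V (T (U L L) (V L L)) (T (S (S L L) L) (S (T L L) (S L L))))) (V (T (S L L) (F 1 (S L L))) (F 1 (T (S (S L L) L) (S (S L L) (U L (S L L))))))))) (F 192 (U (S (U (T L L) (V (S (K 4) (K 4)) (T (S L L) (S L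 L)))) (V (S (K 4) (K 4)) (U (S L L) (T (S L L) (S L L))))) (S (V (T (T L L) (S L L)) (T (S (V L (S L L)) (T L L)) (U (S L L) (S L L)))) (V (S (U L (S L L)) (T L (T L L))) (T (S (U L (S L L)) (U L (S L L))) (U (S L L) (S (S L L) (S L L)))))))))) (F 256 w0_35))))
noncomputable def w0_37 : Tr := (T (F 261 (U (V (F 16 (U (K 0) (S (T (K 0) (F 2 (S L L))) (T (K 0) (S L L))))) (S (T L L) (T (S L L) (F 16 (S L L))))) (S (V (F 16 (T (V (F 2 (S L L)) L) (F 2 (S (T L L) (T L L))))) (T (V (S L L) L) (F 64 (S L L)))) (V (F 16 (T (T L (U L L)) (V (F 2 (U L (S L L))) (T L L)))) (T (V (F 16 (S L L)) L) (F 16 (S (S L L) L))))))) (F 41 (U (F 64 (V (F 16 (S (T (S (S L L) (S L L)) (F 16 (U L (S L (S L L))))) (F 16 (U (S L L) (V (T L L) (T L (S L L))))))) (F 2 (S (T (F 4 (S L L)) (U L (S L (S L L)))) (V (F 4 (S L L)) (S L L)))))) (S (V (F 68 (T (S (V (S L L) L) (T L L)) (F 2 (S (V L L) (V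 L L))))) (T (F 64 (S L L)) (F 32 (V (F 2 (S L L)) (S L L))))) (F 64 (V (F 16 (T (S (T L L) (F 16 (V (S L L) (S L L)))) (F 16 (S (T (S L L) (S L L)) (V (S L L) L))))) (F 2 (T (F 4 (S L L)) (V (F 4 (S L L)) (S L L))))))))))
noncomputable def w0_38 : Tr := (U (T (V (K 9) (U (K 9) (F 1024 (S (F 256 (S L L)) (F 261 (S L (K 7))))))) (F 128 (U L (F 2 (S (S L L) (F 160 (S L L))))))) (F 1024 (S (T (F 1 (S (F 132 (U (T (F 2 (S L (S L L))) (F 2 (V (F 16 (V L L)) L))) (V (F 2 (T (S (S L L) (S L L)) (F 16 (S (S L L) (S L L))))) (T L (F 16 (S L L)))))) (F 260 (V (F 2 (U (T (S L L) (F 16 (S (S L L) L))) (T (V L (S L L)) (F 16 (S (S L L) (S L L)))))) (U (T L L) (T (F 2 (S L L)) (F 2 (S L L)))))))) (F 9 (U (S (V (F 164 (S L (T L L))) (F 16 (T L L))) (F 32 (V (F 34 (U L (T (S L L) (S (S L L) L)))) (T L (F 12 (S L L)))))) (V (F 160 (S (S (F 16 (T L (F 8 (S L L)))) (F 16 (T (V (S L L) L)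 (T (F 8 (S L L)) L)))) (F 16 (T (S (V (S L L) L) (V (S L L) L)) (S (V (S L L) L) (F 16 (V L L))))))) (S (F 16 (T L L)) (F 32 (T (V L L) (F 12 (V L L))))))))) w0_37)))
noncomputable def w0_39 : Tr := (U (F 256 (S (F 132 (U (T L L) (F 5 (V (T (F 4 (S L L)) (K 1)) (T L L))))) (F 1024 (U (F 512 (T (S L L) (K 1))) (F 1 (T (F 4 (V (F 128 (V L (S L L))) (S L (S L L)))) (V (K 1) (F 68 (S L L))))))))) (F 5 (S (F 292 (U (T (F 64 (V (S (F 132 (S L L)) (S L L)) (S (F 132 (U L (T L L))) (V L (F 128 (T L L)))))) (V (S (F 1 (S L L)) (S (K 7) (K 7))) (F 1 (S (F 8 (T (F 16 (S L L)) L)) (T L L))))) (F 1 (T (V (F 4 (S (F 16 (V L (T L L))) (V L (S L L)))) (S (F 12 (T (S L L) (V L L))) (F 4 (T L (S L L))))) (V (S (T L L) (S L L)) (S (F 8 (T (F 16 (V L L)) (S L L))) (T (S L L) (F 32 (S L L))))))))) (F 32 (V (T (F 128 (S (F 4 (U (V L L) (F 1 (T L L)))) (F 4 (U (V L L) (T L L))))) (S (F 8 (T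 L L)) (T (S L L) L))) (F 256 (U (T (S (F 4 (T (S L L) L)) (T (F 4 (S L L)) L)) (F 32 (S (F 8 (T L L)) (S L L)))) (T (S (F 512 (V (F 64 (S L L)) (T L L))) (V L (F 32 (S L L)))) (S (F 576 (V L (F 4 (T L L)))) (F 32 (T L L)))))))))))
noncomputable def w0_40 : Tr := (T (F 35360 (V (F 256 (U (T (F 8 (S (F 32 (S (K 1) (K 1))) (F 5 (U (S (K 1) L) (V (F 1 (S L L)) (S (S (K 1) (K 1)) L)))))) (K 1)) (F 5120 (S (F 8 (V (F 8 (T (U (T (S L L) (K 7)) (F 1 (V (S L L) (S L L)))) (U (K 7) (F 1 (S (K 1) L))))) (T (F 8 (U (S (F 65 (S L L)) (S L L)) (F 1 (V (S (F 4 (S L L)) L) (F 4 (S L L)))))) (U (K 1) (F 512 (S (F 32 (S L L)) L)))))) (T (F 128 (U (V (F 1 (S (S L L) (T L L))) (S (V L L) (V L L))) (V (F 512 (S (T L L) (F 256 (T (S L L) L)))) (S (F 512 (T L L)) (T L L))))) (V (F 128 (U (S (K 1) (F 1 (S L L))) (S L (F 513 (S L L))))) (S (F 8 (S L L)) (T (F 128 (S L L)) L)))))))) w0_39)) (F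 20064 (V (U (K 10) (F 5 (S (K 1) (T (S (K 1) (U (K 1) (F 512 (V (S L L) L)))) (K 1))))) (F 4 (U (S (K 1) (K 1)) (F 1024 (T (S (F 1 (U (F 4 (V (K 6) (F 5 (S L L)))) (V (T (F 4 (S L L)) L) (F 68 (S (F 9 (T L L)) (S L L)))))) (V (U (K 8) (F 1 (S L L))) (F 136 (U (S (F 128 (S (K 5) (K 5))) (S (K 1) (K 1))) (F 128 (S (T L L) (S L L))))))) (F 9 (S (V (K 1) (F 132 (U (K 4) (S L L)))) (U (K 1) (V (K 1) (S L (F 4 (S (K 5) (K 5)))))))))))))))
noncomputable def w0_41 : Tr := (U (F 1 (S (T (F 512 (U (V (K 9) (F 136 (S L L))) (V (S L (K 9)) (F 136 (S L L))))) (F 8 (V (F 4 (S L (S L L))) (F 16 (U (K 9) (S (K 9) L)))))) (F 512 (T (V (K 9) (V (K 9) (S (F 128 (T L L)) L))) (F 128 (U (V (K 1) (S L L)) (V (S L (K 1)) (S (S L L) (U L L))))))))) (T (F 9 (S (V (U (S (F 128 (T L L)) (F 4 (T L L))) (F 1 (S (F 8 (T L (F 4 (S L L)))) (F 256 (T L (S L L)))))) (F 128 (S (F 64 (U (T L L) (S L L)))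 (U (F 64 (S L L)) (T L L))))) (V (F 5 (U (V (K 8) (S L L)) (S (T (S L L) (S L L)) (T (V L L) (S L L))))) (S (T (U L L) (F 8 (U L L))) (T (S L L) (U L L)))))) (S (F 512 (U (V (F 2304 (S (F 8 (S L L)) (T L L))) (F 64 (S (S L L) (F 9 (T L L))))) (V (F 2304 (S (F 520 (T (S L L) L)) (F 512 (V (F 2 (U L (S L L))) (S L L))))) (F 64 (S (T L L) (F 1 (S L L))))))) (F 1 (T (F 512 (V (F 256 (U (F 4 (S (S L L) L)) (F 1 (S L L)))) (F 128 (S (S L L) (U L L))))) (F 8 (S (F 4 (U (V (S L L) (F 64 (S L L))) (V (F 1 (S L L)) L))) (F 4 (V (F 5 (U L (S L L))) (F 16 (U L L)))))))))))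
noncomputable def w0_42 : Tr := (U (F 40 (S (F 32 (T (U (U L (V (F 128 (S L L)) (F 272 (S L L)))) (V (F 128 (S (F 4 (T L L)) (F 1 (T L L)))) (F 272 (S (T L L) (T L (S L L)))))) (U (K 9) (V (S (K 9) (S (K 9) L)) (F 272 (S L L)))))) (T (U (F 1 (S (F 320 (V L (F 18 (S L L)))) (F 272 (T L L)))) (V (F 9 (S (F 64 (S L L)) (S L L))) (F 160 (S (F 128 (T L (S L L))) (F 704 (T L L)))))) (F 160 (U (U L (V (F 512 (S L L)) (S (K 8) L))) (V (F 512 (S (T L L) (V L (S L L)))) (S (F 128 (T (S L L) L)) (F 512 (T (S L L) (T L L)))))))))) (S (F 296 (T (V (F 8 (S (V (U L L) (F 128 (S L L))) (T (F 512 (S L L)) (S L L)))) (F 4 (S (T (F 128 (S L L)) (F 16 (U (S L L) L))) (T (F 128 (S L L)) (F 16 (S L L)))))) (V (S (U (T L L) (T L L)) (T (V L (F 64 (S L L))) (F 64 (U L L)))) (F 64 (S (F 128 (U (T L L) (T L (S L L)))) (U (F 128 (T L L)) (T L (S L L)))))))) (T (F 32 (V (F 9 (S (F 136 (T (S L L)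 (S L L))) (T (S L L) (F 8 (S L L))))) (F 672 (S (F 128 (T L (S L L))) (F 512 (T L (S L L))))))) (F 104 (V (F 1 (S (F 32 (T (S L L) (U L L))) (T (S L L) (F 32 (S L L))))) (F 32 (S (T (S L L) (U (S L L) L)) (T (F 512 (S L L)) (S L L)))))))))
noncomputable def w0_43 : Tr := (T (S (S (F 288 (V (F 512 (U (S L L) (F 256 (S L L)))) (T L L))) (F 1 (U (F 64 (V (S L L) (S L L))) (V (F 1 (V (T (F 20 (S L L)) L) (F 16 (S L L)))) (F 64 (T L L)))))) (F 1 (U (V (T (F 256 (S (V L L) (T L L))) (F 16 (S (V L L) (S L L)))) (F 16 (S (F 16 (T (S L L) L)) (T (S L L) (S L L))))) (V (F 1 (S (T (F 4 (U L L)) (S L L)) (T (F 4 (S L L)) (F 64 (S L L))))) (F 16 (S (F 16 (T L (F 1 (S L L)))) (T (S L L) (F 512 (V L L))))))))) (F 256 (S (F 32 (V (F 1 (S (T L L) (F 8 (U (T L L) (F 128 (V L L)))))) (F 64 (U (K 7) (F 1 (S (K 1) (T L (S (K 1) L)))))))) (F 1032 (U (V (F 32 (S (T L (F 9 (S L L))) (T (F 1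 (S L L)) (F 1 (S L L))))) (F 16 (S (T L L) (F 8 (T L L))))) (F 256 (V (S (T (S L L) (F 12 (S L L))) (F 4 (T (S L L) (V (S L L) L)))) (F 8 (S (T (S L L) (F 16 (S L L))) (V (F 16 (T L (S L L))) (S L L)))))))))))
noncomputable def w0_44 : Tr := (U (F 32 (S (K 10) (U (T (F 1 (S (K 1) (F 513 (S (K 8) L)))) (K 10)) (F 5 (T (V (F 1 (T (S L L) (S (K 8) L))) (S (K 1) (T L L))) (F 64 (S (K 7) (V (F 256 (S (K 0) L)) (K 7))))))))) (F 5120 (S (F 32 (T (S (F 64 (V (U (K 7) (F 1 (S L L))) (U L (F 1 (S L L))))) (V (T (V L L) (F 64 (V L L))) (T (U (S L L) (S L L)) (F 64 (U (K 7) L))))) (F 64 (U (K 7) (F 1 (V (S (K 1) (S (K 1) L)) (S (S (K 1) L) (T L (S (K 1) (K 1)))))))))) (F 32 (T (V (S (U (F 1 (T L L)) (T L (F 512 (S L L)))) (F 1 (U (T (S L L) (S L L)) (T L (F 1 (S L L)))))) (U (T (S L (S L L)) (S (F 64 (S L L)) (T L (F 64 (S L L))))) (S (T (S L L) L) (T (S L L) (F 512 (V L L))))))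 (F 64 (V (U (S (V (F 256 (S (K 0) L)) (K 7)) (F 256 (T (S L L) (F 144 (S L L))))) (F 1 (S (T (S L L) (S L L)) (F 1 (T (V L L) (F 4 (V (S L L) L))))))) (S (U (K 7) (F 1 (T (S L L) (S L L)))) (T (U (S L L) (F 1 (S L L))) (F 9 (U (S (K 1) L) (V L L))))))))))))
noncomputable def w0_45 : Tr := (V (F 18180615768384 (U (F 17515537536 (S (F 33564163 (T (F 1114121 (S (F 6434 (V (K 7) (K 0))) (K 9))) (F 4231936 (V (K 8) (K 16))))) (F 268435714 (T (F 4326412 (V (F 1344 (U (K 8) (F 203776 (V (F 256 (U L (S (F 2080 (S (K 3) L)) (F 1024 (T L (K 3)))))) (K 4))))) (K 12))) (F 50544644 (U (K 9) (F 160 (T (K 10) (F 2464 (S L (K 6))))))))))) (F 258228740096 (S (F 557059 (T (F 32776 (V (F 65868 (U (F 64 (U (T L L) (F 1 (S (F 320 (T L L)) (T (V (S L L) (F 768 (S (K 0) (K 0)))) (S L (F 64 (S L L)))))))) (F 2048 w0_30))) (F 531 (U (U (S (F 400 (S (K 8) L)) (K 10)) (F 2048 (S (F 152 (T (F 64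 (S L L)) (K 1))) (F 2048 (V (K 9) (T (F 1288 (S L (K 0))) L)))))) (F 2048 w0_31))))) (F 26368 (U (V (F 8224 (S L (F 548 (T L L)))) (F 3 (V (F 1 (T L (K 10))) (K 1)))) (F 11 w0_32))))) (F 4198470 (T (F 149576 w0_34) (F 64 (V (F 1100 w0_36) (F 16531 w0_38))))))))) (F 36353715212437 (U (F 8598970504 (S (F 659089 (U (K 1) (F 557056 (V (K 16) (F 4096 (T (F 75780 (S (F 68 (S (K 1) (K 1))) (K 11))) (K 1))))))) (F 1472 (T (F 16640 (U (F 16 (S (K 1) L)) (F 211 (V (F 32769 (S (F 4097 (T (K 9) (K 0))) (K 4))) (F 512 (U (S (K 14) L) (S (F 1025 (S (K 1) (K 1))) (F 18 (T (F 10241 (S L L)) L))))))))) (F 13174016 (U (K 16) (F 104 (V (F 8193 (S (K 12) (V L (K 12)))) (K 1))))))))) (F 114884730880 (S (F 65537 w0_40) (F 69650 (T (F 40960 (V (F 32 w0_41) w0_42)) (F 1280 (V (U (T (F 1 (S (F 32 (V (F 2048 (U (K 0) (F 512 (S (K 9) L)))) (K 10))) (F 1 (U (S L L) (F 2 (V (V L (S L L)) (F 64 (S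 L L)))))))) (F 32 (S (K 1) (F 129 (U (S (K 10) L) (F 5 (V (F 32 (S L L)) (F 16 (S (K 7) L))))))))) (F 5 w0_43)) (F 64 w0_44))))))))))
noncomputable def w0_46 : Tr := (S (T (F 32 (S (U (T (F 4 (S L L)) (F 32 (S L (K 4)))) (V (F 4 (T L L)) (T (F 4 (S (S L L) L)) (F 32 (S L (S L L)))))) (F 32 (V (F 8 (U (K 1) (T L L))) (U (F 8 (T (T L L) L)) (S (F 8 (T L L)) (F 8 (T (S L L) L)))))))) (F 2 (S (F 4 (V (K 4) (F 2 (U L (U (S L L) (S (S L L) L)))))) (F 4 (U (K 4) (V (K 4) (T (S L L) (S L L)))))))) (F 2 (U (V (S (K 1) (K 1)) (F 4 (T (S (F 8 (U L (V L (S L L)))) (F 8 (V L L))) (S (K 4) L)))) (T (S (F 8 (V (T (S (F 8 (S L L)) L) (V (K 4) L)) (F 8 (T (V (S L L) (U L (S L L))) (V (S L L) (T L L)))))) (F 8 (V (T (V (S L L) (F 8 (T L L))) (S (V L L) (U L (T L L)))) (F 8 (T (U (S (S L L) (S L L)) (S (S L L) (V (S L L) L))) (U L (S L (S L L)))))))) (V (S (S (K 1) (K 1)) (F 8 (U (K 4)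 (V (S (K 4) L) L)))) (F 4 (S (T (V L (U L (S L L))) (U L (S L L))) (T (V L (S L L)) (S L L)))))))))
noncomputable def w0_47 : Tr := (T (U (S (F 4 (V L (K 0))) (V (F 2 (U (S L L) (T (V L L) L))) (F 4 (V (T L (S L L)) (S (K 0) L))))) (S (F 4 (V (U (F 16 (T L L)) (F 16 (T (S L (S L L)) (V (S L L) L)))) (T L (S L L)))) (V (F 2 (T (V (F 4 (S L (S L L))) (F 16 (S L L))) (S (F 16 (V (S L L) (S L L))) (V (V L L) (F 16 (S L L)))))) (F 4 (V (F 16 (T (S L L) (S L (S L L)))) (T L (S L L))))))) (F 4 (U (V (S (T L L) (F 16 (U L (T L L)))) (V (S (K 0) (T (S (K 0) L) L)) (K 0))) (S (V (F 16 (T (U L (V (S L L) L)) (U L (T L L)))) (S (K 0) (T (S L L) L))) (V (F 16 (T (S (V (S L L) (S L L)) (V (S L L) (S L L))) (U (S L (V L (S L L))) (S (V L (S L L)) (V L (S L L)))))) (T (S (T L L) (V (F 16 (S L L)) L)) (V (F 16 (S L (S L L))) (U L L))))))))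
noncomputable def w0_48 : Tr := (T (V (F 2 (S (T (V (F 4 (S (S L L) (S L L))) (S (S L L) (S L L))) (S (V (T L L) (S L L)) (V (T L L) (S L L)))) (T (S (F 4 (V (U (S L L) L) L)) (F 4 (V (S L L) (T L L)))) (U (S (V L L) (S L L)) (V (S L L) (S L L)))))) (S (T (F 2 (V (S L L) (F 16 (S L L)))) (F 4 (V (F 16 (S (S L L) L)) (S (S L L) L)))) (F 2 (V (T (S L L) (S (S L L) L)) (T (S L L) (S L L)))))) (V (F 2 (S (T (V (S (S L L) (S L L)) (F 16 (S (S L L) (S L L)))) (U (F 16 (S (T L L) L)) (V (S L L) (F 16 (S (S L L) (S L L)))))) (T (U (S L L) (V (S L L) (S L L))) (V (S L L) (S (F 16 (S L L)) L))))) (S (F 4 (V (F 16 (S (T (S L L) (V (S L L) L)) (T (S L L) (V (S L L) (S L L))))) (T (S (S L L) (F 16 (S L L))) (S (T L (F 16 (S L L))) (S L L))))) (T (F 2 (V (S (F 16 (S L L)) L) (F 16 (S (S L L) L)))) (F 6 (V (S (T L L) L) (S (S L L) L)))))))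
noncomputable def w0_49 : Tr := (U (V (F 2 (S (F 16 (T (S L L) (S L L))) (S L (K 3)))) (F 4 (T (U (S L L) (S (V L (V L L)) (F 16 (V L (S L L))))) (S (U L (T (F 16 (S L L)) (F 16 (S L L)))) (F 16 (V L (U L (S L L)))))))) (V (F 2 (S (F 16 (V (S (T L L) (T L L)) (S (T (U L (S L L)) (U L (V L (S L L)))) (T (V L (S L L)) (V L (S L L)))))) (V (T L L) (F 16 (T (T L L) (S (S L L) L)))))) (F 4 (S (V (F 16 (S (T (V (S L L) (U L (S L L))) (V (U L L) (S L L))) (T (V (S L L) (S L L)) (V (U (S L L) L) (U L L))))) (T (S (V L L) (F 16 (U (T L L) (S L L)))) (S (S L L) (F 16 (V (S L L) L))))) (V (F 16 (T (S (V L (S L L)) L) (U (U L (S L L)) (S (V (S L L) L) (S L L))))) (S (T (F 16 (U (V L L) (V L L))) (F 16 (V (S L L) (S L L)))) (T (F 16 (U L (S L L))) (F 16 (S (S L L) L)))))))))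
noncomputable def w0_50 : Tr := (S (F 32 (S (V (F 2 (T L (S L L))) (K 6)) (V (F 6 (T (U (V L L) (S (T L L) (V L (S L L)))) (U (S L L) (S L (V L L))))) (T (F 4 (V (F 16 (S L L)) L)) (F 3 (S L (V L L))))))) (V (F 80 (S (V (S (S L (T L L)) (T L L)) (F 2 (S (T (S L L) (S L L)) (T (U L (S L L)) (S L L))))) (S (U (T L (S L L)) (T (F 2 (V L (S L L))) (V L (F 2 (S L L))))) (U (S L L) (T (S L L) (V L (S L L))))))) (S (F 32 (V (F 6 (S (T (V (S L L) L) (V L L)) (T (V (S L L) (S L L)) (V (S L L) L)))) (T (F 6 (S L (V (S L L) L))) (F 3 (S L (F 16 (S L L))))))) (F 80 (V (S (F 2 (T (V (S L L) (S L L)) (S (S L L) (S L L)))) (T (F 2 (S (S L L) L)) (F 2 (S (S L L) L)))) (F 2 (S (T (V (S L L) (S L L)) (F 16 (S L L))) (T (V (S L L) (S L L)) (V (S L L) L)))))))))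
noncomputable def w0_51 : Tr := (V (S (F 64 (V (K 7) (F 72 (U (F 32 (S (K 4) (K 4))) (F 32 (S (V (K 4) (F 2 (T (T (S L L) L) (S L (K 1))))) (U (K 4) (V (K 4) (T (F 2 (S L L)) (F 2 (S (K 1) (K 1)))))))))))) (F 320 (V (S (K 6) (K 6)) (F 32 (U (S (K 1) (K 1)) (T (F 32 (S (V (K 4) (T L L)) (S L L))) (S (F 16 (S (K 4) (K 4))) (T L L)))))))) (F 4 (T (F 8 (S (F 48 (V (F 2 (U (U L (S L (T L L))) (S (T (V L L) (S L L)) (U (T (S L (V L L)) (V L L)) (T (V (S L L) (S (S L L) (S L L))) (S (V L L) (V L (S L L)))))))) (S (K 5) (U (V (T L L) (K 5)) (V (T (F 2 (U L (S L L))) (F 2 (S L (S L L)))) (T (S (K 5) L) (S (K 5) L))))))) (F 32 w0_49))) (F 16 (U (S (F 32 (V (F 2 (S L (T L L))) (K 6))) (V (F 80 (S (V (K 4) (S L L)) (T L L))) (T (F 48 (U (S L L) (S (V L (S (K 5) L)) (F 2 (S (V L L) L))))) (F 64 (U (S L L) (S (F 2 (V L L)) (F 4 (V (S L L) (F 16 (S L (S L L))))))))))) w0_50)))))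
noncomputable def w0_52 : Tr := (T (F 384 (U (V (F 38 (S (F 516 (S (K 6) (K 6))) (F 320 (S (K 6) (K 6))))) (F 1089 (U (T (F 512 (S L (K 5))) (F 256 (S L L))) (F 640 (T (S (F 1 (S L L)) (F 1 (S L L))) (F 1 (S (F 16 (V L (K 5))) (V L (F 16 (S L (K 2))))))))))) (F 15 (V (F 128 w0_46) (F 68 (S w0_47 (U (T (V (F 2 (S (U (T L L) (T (S (S L L) L) (V L L))) (U L (T (F 4 (S L L)) L)))) (U (T (F 2 (S L (K 3))) (S L (K 3))) (S (V (F 2 (T (S L L) (F 16 (S L L)))) (F 4 (T L L))) (T (F 2 (V L L)) (F 2 (V L L)))))) (V (F 2 (S (U L (T (S L L) L)) (T (K 3) (K 3)))) (T (U (S L (K 3)) (S (F 4 (V L L)) (F 2 (S L (K 3))))) (F 4 (U (S L L) (S (V L (S L L)) (F 16 (V L L)))))))) w0_48))))))) (F 20544 (U (T (U (V (K 10) L) (F 35 (V (F 128 (S (K 6) (K 3))) (F 4 (U (F 8 (S L L)) (V (F 2 (S L L)) (F 12 (S (K 0) L)))))))) (F 1 (U (S L L) (F 1024 (V (F 2 (S (K 1) (K 1))) (F 144 (U L (S L (T L L)))))))))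 (F 3 w0_51))))
noncomputable def w0_53 : Tr := (T (V (S (F 16 (U (T (T L L) (V L L)) (T (V (S L L) L) (V (S L L) (U L (S L L)))))) (V (U (T L L) (T (S L L) (F 16 (S L L)))) (F 16 (U (T L L) (T (S L L) (S L L)))))) (F 16 (U (S (T (S (K 5) L) (K 5)) (V (S L L) (T L L))) (S (T (V L L) (V L L)) (V (T (S L L) (U (S L L) (S L L))) (T (S L L) (S L L))))))) (F 16 (V (S (U (S (K 5) (V (T L L) (K 5))) (T (V (S (S L L) (S L L)) (S L L)) (V (S L (U L (S L L))) (S L L)))) (U (V (T L (S L L)) (T L L)) (V (T (S (S L L) (S L L)) (S (T (S L L) (U (S L L) L)) (U L (V L L)))) (S (T (U L L) (T L L)) (T (S L L) (S (S L L) (U L L))))))) (S (U (K 5) (S (K 5) (V (T L L) (S (K 5) L)))) (U (V (S (S (K 5) L) (S L L)) (T L (K 5))) (V (T (U (S L L) (S L L)) (T (U L (S L L)) (U L (S L L)))) (T (S L (S L L)) (S L (S L L)))))))))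
noncomputable def w0_54 : Tr := (T (F 16 (U (V (S (T (V (S (K 5) L) (K 5)) (K 5)) (V (T (U L (S L L)) (S L L)) (T (T L L) (S (K 5) L)))) (S (K 5) (U (K 5) (V (T (S (K 5) L) L) (K 5))))) (V (S (V (T (S L (T L L)) (S L (T L L))) (S (K 5) (T L L))) (V (S (T (V (S L L) (S L L)) (V (S L L) (S L L))) (T (S (U L L) (V L L)) (V (F 2 (S L L)) (S L L)))) (T (S (T L L) (V (S L L) (S L L))) (S (T L L) (V (S L L) (S L L)))))) (S (K 5) (V (T (T (U (S L L) (S L L)) (S L (U L L))) (F 1 (S (T L L) (U L (S L L))))) (F 1 (T (S L L) (S (K 0) L)))))))) (U (V (S (K 0) (V (U (S L L) (T (F 16 (S L (S L L))) (F 64 (S L L)))) (F 64 (T (F 2 (S (K 0) L)) L)))) (K 0)) (V (S (F 64 (V (S (S (K 5) L) (T L (S L L))) (S (K 5) (T L L)))) (V (F 16 (S (T (V (F 2 (S L L)) (F 1 (S L L))) (F 1 (S L L))) (T (V (F 2 (S L L)) (F 1 (S L L))) (F 3 (S L L))))) (F 64 (T (F 2 (S (S L L) (V (S L L) (S L L)))) (S (T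 L L) (V (F 2 (S L L)) (S L L))))))) (F 64 (S (K 5) (V (T (F 2 (U L (S L (S L L)))) (U L (S L (S L L)))) (S (K 5) (T L L))))))))
noncomputable def w0_55 : Tr := (S (F 16393 (T (F 1536 (U (K 14) (F 159 (S (S (K 1) (K 1)) (K 1))))) (F 214208 (S (K 10) (K 10))))) (F 4186 (T (F 1792 (U (V (F 544 (S (K 1) (F 1 (U (F 32 (V (T L (K 0)) (K 0))) (F 5 (T (F 16 (V (V L (S (K 6) L)) (S (K 6) (S (K 6) L)))) (F 144 (V (T (S (K 5) L) (S (K 5) L)) (K 5))))))))) (K 11)) (F 7 (V (F 136 (S (F 4 (V (U (K 1) (S (K 1) (F 1 (T (V (S L L) L) (V (T L L) (K 5)))))) (K 1))) (F 128 w0_53))) (F 64 (S (K 7) (F 36 (T (V (S (T (V L L) (K 1)) (F 1 (T (U (S (K 5) L) (V L L)) (U (K 5) (V (S L L) (S L L)))))) (U (K 1) (S (F 64 (T (S (K 4) L) (K 4))) (T (V (S L L) (S L L)) (F 64 (V (S L L) (S (K 4) L))))))) (S (K 1) (U (K 1) (V (T (F 1 (V (S L L) L)) (F 64 (S (K 4) (F 32 (V L L))))) (F 64 (T (S (K 4) (V L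 L)) (K 4)))))))))))))) (F 16576 (S (K 11) (F 64 (U (V (F 9 (U (K 9) (F 3 (V (T (F 48 (S (K 5) L)) L) (K 0))))) (K 1)) (F 3200 (V (F 288 w0_54) (T (V (F 32 (U (K 1) (F 160 (S (K 4) (V (F 32 (T (S (K 0) L) L)) (K 4)))))) (K 7)) (K 7)))))))))))
noncomputable def w0_56 : Tr := (S (F 0x18438808f009f3fe3f1fe082701 (T (F 0x3c08e01990447000 w0_29) (F 0x3fe01819d0000980 (V (K 39) (F 142754084 (U (F 537935872 (S (K 30) (K 29))) (F 30021783040 (U (F 256 (S L (F 9729 (S (F 548 (S L (K 1))) (K 13))))) (F 261 (S L (F 1537 (V (K 12) (F 2386 (T L L)))))))))))))) (F 0x1080078847e20111f1f1ffc40010 (T (F 0x1fc80e04f060480000 w0_45) (F 0x1fe00049c7241f300 (V (F 2217230408 (U (F 155323408 (S (F 71389321 (U (K 1) (F 3182592 (S (K 16) (F 131076 (V (K 1) (K 0))))))) (F 541130816 (T (F 59564032 (U L (F 544 (U L (F 12416 (S L L)))))) (F 35147840 (U L (F 231 (U L (F 2048 (S L L)))))))))) (F 122364300288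 (S (F 98307 (T (F 33536 (U (F 64 (V (F 2049 (S L L)) (K 1))) (F 7 (S (F 32 (V (F 264 (U L (F 32 (S L L)))) (K 7))) (F 64 (T (U (V (F 258 (S L L)) (F 8 (V (F 1 (S (K 6) L)) (K 1)))) (V (F 258 (S L (T (F 4 (V L (F 4 (T L L)))) (F 32 (T L L))))) (F 8 (V (F 1 (T (F 2 (S (K 0) L)) L)) (K 1))))) (F 4 (V (F 1 (U L (F 2 (T (S L L) L)))) (F 32 (S (K 5) (F 64 (U (K 0) (V (F 16 (S (K 4) L)) (K 0)))))))))))))) (F 49376 (S (F 16 (V (F 1 (U (K 8) (F 3 (S (K 0) L)))) (K 1))) (F 1 (U (V (F 1 (S (K 7) (K 7))) (K 1)) (F 512 (V (F 258 (S (F 32 (V (K 4) (U (K 5) L))) (V (K 1) (F 32 (U (K 4) (T (F 2 (T L L)) L)))))) (F 4 (T (F 32 (V (F 64 (V (F 16 (V L (K 4))) (K 0))) (K 5))) (K 1))))))))))) (F 559124 w0_52))))) (F 1103810826769 (U (K 1) (F 63794938368 w0_55))))))))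
noncomputable def treeW0 : Tr := (F 0x308030831c0c301c38383c3 (T (F 0x1ff07e1083fc07f00048103c0e04421ff8400211fe0781007c01110020ff002020 (U (F 0xfe002083c1804d9fcc782212380001c23211 (V (K 113) (K 114))) (F 0x47ffe3fffc00073e8fc000f807f200e3d3f00000000 (S (F 0x3e1110239001fe23f88e0f40 (T (F 1150828118513025025 (V (K 35) (K 36))) (F 1025835554647951360 w0_4))) (F 0x200008e07f8001f03ff900040 (T (F 0xe8cf00f3808810f8 w0_9) (F 0x7f8e4049070890000 (V (F 2345724282964 w0_16) (F 4690148606465 w0_23))))))))) (F 0x1ff078108fc23c01fe0701c0100784210802203e00000803844e23f0100007c041 (U (F 0x1f01c0008e60800fa232002000c01080003c4c31 (U L (F 0x1c03c000078003c07c00007ffe001f (U L (F 0x20c403c0090000000027000000 (S L L)))))) (F 0x1f831fffffc03c067f89ff00001e0000c7897c00000000 w0_56)))))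

theorem pW0 : chkW par treeW0 128 128 256 256 256 256 0 374491 Lc = true := by decide +kernel

noncomputable def w1_0 : Tr := (S (F 69632 (U (F 12392 (U (U (K 3) (F 1248 (V (K 3) L))) (F 1248 (V (F 64 (T (K 2) L)) (F 1 (T L (U L (V L (F 16 (S L L)))))))))) (F 4603 (V (U (T L (V L (F 4 (S L L)))) (F 5 (V (U (V L L) L) (V L L)))) (F 4 (U (T (F 49 (V L L)) (V (T L (T L L)) (F 2 (T L (S L L))))) (T (F 49 (V L L)) (T (F 33 (T L L)) (V L L))))))))) (F 6152 (U (F 16496 (T (F 1538 (U (V (K 5) L) (F 128 (V (S (K 1) L) (F 64 (S L (V L (F 8 (T L L))))))))) (F 1536 (U (V (K 5) (F 129 (U L (T L (F 32 (S L L)))))) (V (T (V (K 5) L) (S L (V L L))) (F 129 (S (U (F 32 (S L L)) (F 32 (T L (S L L)))) (T (V L (F 8 (T (F 32 (S L L)) L))) (U (F 32 (S L L)) (V L L)))))))))) (F 115 (V (F 1 (T (F 256 (U (F 1 (V L (F 1 (S L L)))) (F 193 (V (S L L) (S L L))))) (U (V (S L (T L L)) (S (F 5 (S L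 L)) (F 129 (T L L)))) (V (S (F 137 (S L L)) (T L L)) (F 1 (S L (F 2 (S L L)))))))) (T (F 519 (V (S (F 1 (V L L)) (U (S L L) L)) (S (F 8 (V L L)) (F 8 (U (S L L) L))))) (F 512 (U (S (F 66 (V (F 1 (T L L)) (F 16 (T L (S L L))))) (F 256 (T (F 2 (V (S L L) (F 8 (S L L)))) (F 64 (V (S L L) L))))) (F 320 (T (V (S L L) L) (F 32 (V L L))))))))))))
noncomputable def w1_1 : Tr := (S (F 114688 (U (F 6320 (U (V (F 128 (T (K 5) L)) (K 3)) (F 608 (V (F 2 (T L (T L (V (F 4 (S L L)) L)))) (V L (K 3)))))) (F 6233 (V (F 160 (T (F 97 (U (F 8 (V L L)) (F 8 (V L L)))) (F 2 (V (T (F 4 (V L L)) (F 4 (U (S L L) L))) (T (F 32 (V L L)) (U (S L L) L)))))) (F 64 (U (F 4 (T L (V (F 32 (S L L)) L))) (F 6 (V (T L (F 32 (S L L))) (F 32 (U (V L L) L)))))))))) (F 67596 (T (F 19 (U (F 1312 (U (F 128 (V (S (K 2) L) (K 2))) (F 64 (V (F 1 (U L (V (F 32 (S L L)) L))) (F 32 (S (K 3) L)))))) (F 1283 (V (F 8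 (U (V (F 1 (S L (S L L))) (S L (S L L))) (S (F 48 (S L L)) (V L L)))) (U (V (F 8 (S L L)) L) (F 10 (V (S L L) (S L L)))))))) (F 35 (U (F 1152 (U (V (F 10 (U L (S L (F 1 (S L L))))) (K 5)) (V (F 10 (T (U (F 1 (S L L)) (F 1 (S L (S L L)))) (S (V (F 4 (S (F 2 (S L L)) L)) L) (U (F 1 (S L L)) (V L L))))) (S (V L (K 5)) (T L (V L L)))))) (F 1024 (V (F 2 (U (T (F 33 (V (F 32 (S L (S L L))) (F 2 (S L L)))) (F 128 (S (F 4 (V (F 4 (S L L)) (S L L))) (F 128 (V L (S L L)))))) (F 160 (S (V L (S L L)) (F 64 (V L L)))))) (F 4 (U (V (T (F 129 (S L L)) (F 160 (S L L))) (T L (S L L))) (V (F 128 (T L (F 4 (S L L)))) (T (F 162 (S L L)) (S L L))))))))))))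
noncomputable def w1_2 : Tr := (U (F 128 (U (F 8 (V (K 4) (F 36 (T (F 6 (U L (S L (S L L)))) (F 4 (U (V (K 3) (F 16 (S (S L L) (U L (S (S L L) (S L L)))))) (F 16 (V (S L L) (S (T (S L L) (V L (S L L))) (T (U (S L L) (S L L)) (V (S L L) (S L (T L L))))))))))))) (F 12 (V (T (F 64 (U (K 2) (V L L))) (U (V (S L L) (F 64 (S L L))) (F 64 (V (S L (F 64 (T L L))) (S L (S L L)))))) (F 68 (T (V (U L (S L L)) (F 2 (U (T L (S L L)) (T (S L L) (S L L))))) (V (U (F 2 (T L (S L (S L L)))) (T (V L (F 2 (S L L))) (F 2 (S L L)))) (F 2 (S (T (V (S L L) (S L L)) (V (U (S L L) L) (U (S L L) L))) (T (U (V (S L L) L) (S L L)) (V (U (S L L) L) (U (S L L) L)))))))))))) (F 960 (V (U (T (V (F 64 (S L L)) (F 16 (S L L))) (T (V (S L L) (U L L)) (V (U L L) (U (S L L) (S L L))))) (T (V (U L L) (S L L)) (V (U (S L L) L) (S L L)))) (T (F 16 (V (U (T (S L L) (S L L)) (S L L)) (F 16 (U (T (S L L) (S L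 L)) (S L L))))) (F 16 (V (U (T (V L (F 16 (S L L))) (S (S L L) (T L L))) (S L L)) (F 16 (U (T (S (S L L) (S L L)) (S (V L L) (V L L))) (S (F 1 (S L L)) (S L L))))))))))
noncomputable def w1_3 : Tr := (V (V (U (S L L) (T (S L L) (S L (S L L)))) (U (T (S L L) (F 32 (S (S L L) L))) (V (T L (F 32 (S L L))) (F 32 (S (F 16 (V L (U (S L L) (S L L)))) (F 2 (T L (S L L)))))))) (F 36 (V (T (U (S (V (S L L) (F 2 (T L L))) (F 2 (U L (V L (S L L))))) (V (S (S L L) (F 2 (S L L))) (F 2 (S (S L L) (T L L))))) (U (S (T (V (U L L) (S L L)) (V (U L L) (S L L))) (F 2 (U (T L (S L L)) (V L L)))) (V (S (T L L) (F 2 (S L L))) (S (F 2 (S L L)) (F 2 (T L L)))))) (F 2 (T (V (S (U (T L L) (T L L)) (U (T (T L L) (T L L)) (T L L))) (S (U (T (S L L) (S L L)) (T L L)) (U (V (S L L) (S L L)) (T (S L L) (S L L))))) (V (S (U (T (S L L) (S L L)) (T L L)) (U (V L (S L L)) (T L L))) (S (U (T (S L L) L) (F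 16 (T L L))) (U (V (S L L) (S L L)) (T (S L L) (S L L))))))))))
noncomputable def w1_4 : Tr := (T (U (V (U (K 4) (V L (V L (F 36 (S L L))))) (F 36 (V (U (T (F 2 (S (K 3) L)) (V (S L L) (F 2 (T L L)))) (F 2 (T (T L L) (V L (S L (T L L)))))) (F 2 (T (V (U (T L L) (S L (S L L))) (U (S L (S L L)) (S (S L L) (S L L)))) (V (U (S (S L L) (T L L)) (S (S L L) (S L L))) (U (S (T L L) (V L (S L L))) (S (T L L) (T L L))))))))) (V (U (V (S L L) (T L (V (S L L) L))) (V (T L L) (F 64 (T L (T L L))))) (F 100 (V (T (V (T L L) (U (S L L) L)) (V (T L L) (U (S L L) L))) (T (V (U (S L L) (S L L)) (U (T L L) (S L L))) (V (U (T (S L L) (S L L)) (S L L)) (S (F 1 (T L L)) (U (S L L) L)))))))) (U w1_3 (V (V (T (U (S L L) L) (S (T L L) (F 64 (S L L)))) (T (U (S (T L L) L) (F 64 (T L L))) (U (S (T L L) (F 64 (S L L))) (V (S L L) L)))) (F 36 (V (T (F 2 (V (S (S L L) L) (U (S L L) (S L L)))) (V (S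 (F 2 (S L L)) L) (F 2 (U (S L L) (S L L))))) (F 2 (T (V (U (S (S L L) (S L L)) (S L L)) (S (F 16 (U (S L L) L)) (U (T L L) (S L L)))) (V (U (S (T L L) (S L L)) (S L L)) (S (F 16 (U (S L L) L)) (U (T L L) (S L L)))))))))))
noncomputable def w1_5 : Tr := (U (V (U (T (S (F 8 (U L (S L L))) (V (U L L) (F 8 (S L L)))) (S (U (F 8 (S L L)) (V L L)) (U (V L L) (V L (S L L))))) (V (T (S L L) (S L L)) (T (F 8 (S (U L L) L)) (S (F 8 (U L L)) (S L L))))) (F 8 (T (U (V (S (V (S L L) (U L (S L L))) (T (S L L) L)) (S (T (T L L) (T L L)) (V (S L L) (U L L)))) (V (S (T L L) (S L L)) (S (T L L) (T L L)))) (U (V (S (V (S L L) (U (S L L) L)) (T L L)) (S (T (S L L) (S L L)) (V (S L L) (U L L)))) (V (S (T L L) (U L L)) (S (T L L) (T L L))))))) (V (T (U (V (S L L) (S L L)) (V (S L L) (S L L))) (U (V (S L L) (S L L)) (V (S L L) (S L L)))) (F 8 (T (V (U (T (S L L) (S L L)) (S L L)) (S (U (S L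 L) L) (U (S L L) L))) (V (U (S (S L L) L) (S L L)) (S (U (S L L) L) (U L L)))))))
noncomputable def w1_6 : Tr := (V (U (V (T (V L (S L L)) (U (T L (V L L)) (S (V L L) (T L (V L L))))) (U (T (K 4) (F 32 (T L (S L (S L L))))) (T (V L (F 32 (S L L))) (V (T L (F 32 (S L L))) (F 32 (T (U L L) (U (S L L) (S L L)))))))) (T (U (V (V (F 1 (S L L)) (S L L)) (T L (S L L))) (V (T (F 1 (S L L)) (U L L)) (T L (S L L)))) (V (T (U (V L L) (S L L)) (U (S L (T L L)) (S L L))) (T (U (S (S L L) (S L L)) (S L L)) (S (U (S L L) L) (U L L)))))) (F 32 (T (U (V (T (F 8 (U L (S L L))) (U (S L L) (V (S L L) (F 8 (S (S L L) L))))) (F 8 (U (S (T (V L (U L (S L L))) (V (U L (S L L)) (T (U L L) (T L L)))) (T (V L (V L L)) (V (S L (S L L)) (T (S L L) (S L L))))) (T (V (S (U L L) (S L L)) (T (V L L) (V L L))) (V (S (U (S L L) L) (S L L)) (S (T L L) (U (S L L) L))))))) (T (F 8 (V (U (S (V L L) L) (S L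 L)) (V (U (T L L) (S L L)) (U (S L L) (S L L))))) (V (U (V (S L L) (F 8 (S (S L L) L))) (V (S L L) L)) (F 8 (V (U (S L (T L L)) (S L L)) (S (U (S L L) L) (U (S L L) L))))))) w1_5)))
noncomputable def w1_7 : Tr := (V (U (T (T (V (S (S L L) L) (S (S L L) (U L L))) (V (S (S L L) (S L L)) (S (S L L) (U (S L L) L)))) (T (S (V (U (S L L) L) (T L L)) (U (V (S L L) (S L L)) (V L L))) (U (S (V (S L L) (S L L)) (V (S L L) (S L L))) (V (S L L) (S L L))))) (T (V (U (T L (S L L)) (S L L)) (T (S L L) (S L L))) (V (U (S (S L L) (S L L)) (S L L)) (T (S (S L L) L) (V L L))))) (T (U (F 2 (V (S (F 4 (T (S L L) (T L (S L L)))) (T (S L L) (S L L))) (F 4 (S (T (V (S L L) (S L L)) (V (S L L) (S L L))) (T (V (S L L) (S L L)) (V (S L L) (S L L))))))) (V (S (F 16 (T L L)) (T L L)) (F 18 (S (F 16 (T L L)) (T L L))))) (F 2 (U (V (S (T (F 4 (V L (S L L))) (V (S L L) (F 4 (S L L)))) (T (V L (S L L))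 (V (T L L) (S L L)))) (S (F 4 (T (V (S L (S L L)) (T L L)) (V (S L (S L L)) (F 1 (T L L))))) (T (F 4 (V (S L L) (S L L))) (V (S L L) (F 4 (S L L)))))) (V (S (T L (S L L)) (U (S L L) (S L L))) (S (F 36 (T (S L L) (S L L))) (T L (S L L))))))))
noncomputable def w1_8 : Tr := (U (F 256 (V (F 512 (T (K 3) (F 64 (U (K 4) (S (F 5 (V (K 3) L)) (V (S (K 4) L) (F 1 (U L L)))))))) (F 21 (T (S (F 4 (U L L)) (F 1 (U (S L L) (S L (F 16 (S L L)))))) (S (U (V (S (K 4) L) (F 4 (U (F 2 (S L L)) (F 2 (T L (S L L)))))) (F 32 (V (S L L) (F 8 (T (S L L) (V (S L L) (S L L))))))) (V (F 1 (U (S L L) (S L (S L L)))) (T (F 5 (U (S L L) (S L L))) (U (U L (S L L)) (S (F 36 (S L L)) L))))))))) (F 256 (V (F 512 (S (F 352 (T (V L L) (U (V L L) (V (V L L) (T L L))))) (T (V (U L (S L L)) (F 256 (U L L))) (F 64 (V (U (S L L) (S L (S L L))) (F 1 (T (U L L) (U (S L L) L)))))))) (F 5 (S (F 64 (T (F 16 (V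 (F 1 (S L L)) (F 16 (T L (V L (S L L)))))) (F 2 (V (T L (S (F 4 (S L L)) L)) (F 4 (U (T (S L L) (V L (S L L))) (T (S L L) (V L L)))))))) (T (F 1 (V (U L (S L L)) (F 36 (U (T L (S L L)) (S L L))))) (F 32 (V (F 64 (U (T (S L L) (S L L)) (T L (S L L)))) (T (F 80 (S (S L L) L)) (S (F 18 (S L L)) (F 64 (S L L))))))))))))
noncomputable def w1_9 : Tr := (V (F 1 (S (F 1 (T (U (K 3) (F 32 (T L (S (S L L) L)))) (F 32 (U (T (S (S L L) L) (S (V (S L L) L) (V (S L L) (U L (S L L))))) (T (S (T L L) (V L L)) (S (T L L) (V L L))))))) (T (V (T L (F 1 (S L L))) (F 1 (T L (U L L)))) (F 1 (U (S (F 32 (T (S L L) (V (S L L) (T L L)))) (T (S L L) (F 32 (V L L)))) (F 32 (S (T (S L L) (V L L)) (T (S L L) (S L L))))))))) (F 256 (U (S (F 2 (T (F 1 (S L L)) (F 32 (S (V L (T L L)) (F 32 (T L (V L L))))))) (F 128 (T (S (T L L) (V (S L L) L)) (F 16 (T (U (F 2 (S L L)) (F 2 (S (S L L) L))) (F 2 (S (V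 (U L L) (S L L)) (V L (S L L))))))))) (T (S (F 2 (V (F 1 (S L L)) (F 32 (U L (S L L))))) (F 128 (T (V L (F 16 (U L L))) (F 32 (V (S L L) (F 2 (S L (S L L)))))))) (F 2 (S (T (V (F 1 (S L L)) (F 32 (S (S L L) (F 32 (S L L))))) (F 32 (V (S L (F 32 (S L L))) (S (S L L) (S L L))))) (F 33 (T (V (S L L) (U (S L L) (S L L))) (S (U (S L L) (S L L)) (U L L))))))))))
noncomputable def w1_10 : Tr := (T (V (U (F 2 (T (S L L) (V L (S L (S L L))))) (F 2 (T (S L (S L L)) (S (V L (S L L)) (V L L))))) (F 2 (T (F 4 (U (S (V L (T L L)) (V L (S L L))) (V (S L L) (S (S L L) L)))) (S (F 4 (V (U (T L L) (S L L)) (U (T (S L L) L) (S L L)))) (F 4 (V (U (S L L) L) (U (S L L) L))))))) (F 2 (V (T (U (S (U (S L L) (V L L)) (U (S L L) (V L L))) (S (V L (S L L)) (V L (S L L)))) (S (U (V (U L L) (T L L)) (V L (S L L))) (U (T (V (S L L) L) (V (S L L) L)) (V L L)))) (T (V (S (F 4 (U (S L L) (S L L))) (U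 (T L L) (S L L))) (F 4 (S (U (T L L) (S L L)) (U (S L L) L)))) (U (V (S (F 4 (S L L)) (S L L)) (F 4 (S (S L L) (S L L)))) (V (S (S L L) (S L L)) (S (F 4 (U L L)) (S L L))))))))
noncomputable def w1_11 : Tr := (S (F 224 (T (V (T (U (S (S L L) L) (S L L)) (U (S (S L L) (S L L)) (S L L))) (U (T (F 8 (V (S L L) (U (S L L) L))) (V (S L L) (F 8 (S (S L L) L)))) (T (F 8 (S L L)) (V (S L L) L)))) (V (T (S (U (T L L) L) (U (S L L) L)) (S (U (T L L) (S L L)) (U (S L L) L))) (U (V (T (S L L) (S L L)) (S (F 8 (T (S L L) L)) (T L L))) (T (S (S L L) (T L L)) (V (S L L) (S L L))))))) (F 128 (T (F 4 (V (U (F 1 (S (F 2 (T L L)) (T L L))) (T L (F 32 (S L L)))) (T (S (F 32 (V L L)) (S L L)) (F 32 (U (S (S L L) L) (S L L)))))) (F 6 (V (U (S (T (S L L) (S L L)) (F 1 (T (S L L) (S L L)))) (T (S L L) (T L (S L L)))) (T (S (V (S L L) L) (T L L)) (S (V L L) (S L L))))))))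
noncomputable def w1_12 : Tr := (U (F 280 (V (F 4 w1_9) (F 17 (S (F 64 w1_10) (F 64 (T (V (F 64 (U (T (S L L) (S (F 16 (S L L)) (U (S L L) L))) (T (S L (S L L)) (F 16 (S (S L L) (S L L)))))) (U (S (F 2 (T (F 4 (V L (S L L))) (V (S L L) (F 4 (S L L))))) (T (F 64 (V (S L L) L)) (V (F 64 (S L L)) (F 2 (S L L))))) (T (S (F 16 (V L L)) (F 64 (S L L))) (F 2 (S (V L L) (T L L)))))) (S (F 2 (V (T (U (U (F 1 (S L L)) (T L L)) (V L L)) (U (V (F 1 (U L L)) (S L L)) (V L L))) (T (U (V (S L L) (S L L)) (V L L)) (V (U (S L L) L) (U L L))))) (V (F 64 (U (F 16 (T (V (U L L) L) (V (U L L) L))) (F 16 (T (S L L) (S L L))))) (T (U (F 2 (V L L)) (F 2 (S L L))) (F 2 (V (U L L) (S L L)))))))))))) (F 24 (V (F 20 (T (S (F 320 (T (F 64 (U (V (S L L) (U L L)) (V (S L L) L))) (V (F 64 (S (T L L) (T L L))) (U (S (S L L) (F 64 (S L L))) (T L L))))) (F 1 (T (F 1 (V (S (F 32 (U L L)) L) (S (F 32 (T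 L L)) (S L L)))) (F 5 (V (S (S L L) L) (S (T L L) (S L L))))))) (F 320 (S (V (F 64 (T (S (U (S L L) L) (V L L)) (S (V (S L L) L) (U (S L L) L)))) (U (T (S (S L L) (F 64 (T L L))) (F 2 (S L (T L L)))) (T (V L (F 2 (S L L))) (T (S L L) L)))) (F 64 (V (T (S (V L L) (S L L)) (S (V L (S L L)) (S L L))) (T (S (U (S L L) L) (T L L)) (F 16 (S (S L L) (S L L)))))))))) (F 33 w1_11))))
noncomputable def w1_13 : Tr := (V (U (T (S (F 64 (V (F 64 (T L (U (S L L) L))) (T L (S L L)))) (F 1 (V (U (S L L) L) (T (S L L) L)))) (F 64 (S (V (F 64 (U (T (S L L) (S L L)) (S L L))) (T (S L L) (S L L))) (F 64 (T (V (U (S L L) L) (S L L)) (V (U (S L L) L) (S L L))))))) (F 64 (T (V (F 64 (S (T L L) (S L L))) (S (S L L) L)) (S (V (T L (S L L)) (T L L)) (F 64 (V (S L L) L)))))) (T (U (F 32 (S (F 2 (V (U (T L (S L L)) (S L L)) (T (F 4 (T L L)) (S L L)))) (V (T L L) (F 2 (U (S L L) (S L L)))))) (F 64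 (S (F 2 (V L (S L L))) (F 2 (T L L))))) (F 96 (U (S (V (U (S (T L L) (T L L)) (T L L)) (T (S (S L L) L) (S (T L L) L))) (V (T (S L L) (S L L)) (U (S (T L L) (S L L)) (S L L)))) (S (V (S L L) (U (S L L) L)) (T (S L L) (S L L)))))))
noncomputable def w1_14 : Tr := (U (F 14684160 (S (F 589880 (T (F 3138 w1_2) (F 1048 (U (F 392 (S (F 2 w1_4) (F 6 w1_6))) (F 1928 w1_7))))) (F 114744 (T (U (F 1568 w1_8) (F 1540 (V (F 65 (U (T (S (F 13 (V L (S L L))) (V (S L L) (F 5 (S L L)))) (S (F 13 (V (S L L) (T L L))) (V (T L L) (F 5 (S L L))))) (F 4 (T (F 128 (V (S L L) (S L L))) (F 128 (V (S (F 2 (S L L)) (S L L)) (S L L))))))) (F 1024 (T (F 8 (U (F 128 (V (F 128 (S L (T L (S L L)))) (F 36 (S (F 16 (T L L)) (F 1 (S L L)))))) (F 128 (T (F 160 (S L L)) (S (F 2 (S L L)) L))))) (F 2 (U (F 64 (S (F 2 (V (U (S L L) (S L L)) (F 36 (T L (S L L))))) (T (F 128 (V L L)) (F 4 (V L (S L L)))))) (F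 64 (S (F 2 (V L L)) (V L L)))))))))) (U (F 8 w1_12) (F 1581 w1_13)))))) (F 14938168 (T (F 832 (S (F 5 (U (V (T (F 64 (T L L)) (U (T L L) L)) (F 4 (T (F 1 (V L L)) (U (V L L) L)))) (F 64 (V (S L L) (F 8 (T L L)))))) (F 1 (U (V (T (S (F 64 (T L L)) L) (U (S (F 64 (S L L)) L) L)) (T (S L L) (S (F 64 (T L L)) (S L L)))) (T (F 128 (S L L)) (F 64 (S L L))))))) (F 2496 (S (F 2 (U (V (T (U (V (S L L) (S L L)) L) (U (S (F 64 (T L L)) (T L L)) (F 64 (S L L)))) (T (U (V (S L L) (F 36 (S L L))) (F 64 (T L L))) (F 32 (U (V (S L L) (S L (S L L))) (F 1 (S L L)))))) (F 64 (T (V L (S L L)) (V L (S L L)))))) (F 2 (U (V (T (U (S (S L L) L) L) (U (S (S L L) (S L L)) (S L L))) (T (S (T L L) L) (F 32 (S (V L L) (S L L))))) (T (S L L) (S L L)))))))))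
noncomputable def w1_15 : Tr := (U (F 1 (U (F 24 (V (F 4 (T (V (F 2 (S L (F 16 (U L L)))) (K 4)) (S (V (F 2 (U (S L L) (T L (F 16 (V (S L L) L))))) (S L L)) (F 4 (V (F 16 (U (V (U L (S L L)) L) (T (S L L) (V (S L L) (S L L))))) (U (K 2) (S L L))))))) (K 3))) (F 24 (V (T (F 32 (V (F 18 (S (T (S L L) (V L L)) (T (S L L) (V (S L L) L)))) (S L (F 2 (S L L))))) (V (F 100 (S (T (V (S L L) (S L L)) (V (U (S L L) L) (T L L))) (T (V (S L L) (S L L)) (V (U (S L L) L) (S L L))))) (S (F 192 (T (F 1 (S L L)) (F 9 (T L L)))) (F 32 (T (F 2 (V L L)) (F 16 (V (F 16 (S L L)) (S L L)))))))) (T (F 32 (V (S L L) (F 1 (S L L)))) (S (F 128 (T (F 2 (U L (S L L))) (U (S L L) (F 2 (V L L))))) (F 32 (V (T L (U L L)) (F 1 (U L (S L L))))))))))) (F 448 (V (F 128 (T (F 32 (V (F 8 (U (S (F 16 (T L L)) (V L L)) (S L L))) (U (S (F 1 (S L L)) (T L L)) (S L L)))) (V (F 36 (U (T (S L (S L L)) (S (F 1 (T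 L L)) (V L L))) (S (F 1 (S L L)) (T L L)))) (U (S (F 96 (V (F 4 (S L L)) (S L L))) (F 32 (T (S L L) (S L L)))) (F 32 (T L (F 1 (S L L)))))))) (U (F 128 (T (V (S L L) (F 64 (S L L))) (F 64 (V (T (S L L) (S L (S L L))) (T (S L L) (S L L)))))) (F 1 (T (F 1 (V L (T L L))) (F 1 (V (T L (S L L)) (U (S L L) L)))))))))
noncomputable def w1_16 : Tr := (V (S (U (V (F 6 (T (U (S L (S L L)) (S L (S L L))) (U (S (T L L) (T L L)) (S (F 16 (S L L)) (T L L))))) (S (F 3 (T (V L L) (U L L))) (F 6 (T (U L L) (U (S L L) (S L L)))))) (F 6 (T (V (S (F 16 (S L L)) (U L L)) (T L (F 16 (S L L)))) (V (S (F 16 (T L L)) (U (S L L) (S L L))) (F 16 (U (S L L) L)))))) (F 4 (U (T (F 16 (V (U (S (S L L) (U (S L L) L)) (S (S L L) (S L L))) (U (S L L) (S L L)))) (V (F 16 (S (U (T L (S L L)) (T L L)) (U (T L L) (S L L)))) (S (F 16 (U (S L L) (S L L))) (U (S L L) (F 16 (S L L)))))) (T (F 16 (V (S (T L L)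 (T L L)) (U (S L L) (S L L)))) (V (F 16 (S (U (S L L) L) (T L (S L L)))) (S (F 16 (U L L)) (F 16 (T L L)))))))) (S (U (T (F 1 (S (U (K 2) L) L)) (F 1 (V (U (S L L) (S L L)) (S L L)))) (F 1 (T (V (F 48 (S L L)) (S L L)) (V (F 16 (S L (F 1 (S L L)))) (S L (F 16 (S L L))))))) (F 4 (U (T (V (S L (S L L)) (S L L)) (V (S (U L (S L L)) (U L (S L L))) (S L (S L L)))) (T (V (S L L) (S L L)) (V (S (S L L) (T L L)) (S (F 32 (S L L)) (S L L))))))))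
noncomputable def w1_17 : Tr := (S (F 4 (U (T (V (F 16 (S (F 1 (U (T L L) (S L L))) (U (T (S L L) (S L L)) (V (S L L) L)))) (S (F 48 (U (S L L) (S L L))) (U (T L L) (F 48 (S L L))))) (V (S (F 48 (U (T L L) (T L L))) (F 16 (U (S (F 1 (S L L)) (T L L)) (V (S L L) L)))) (F 32 (S (U (S L (F 1 (S L L))) (F 1 (S L L))) (U (T (S L L) (S L L)) (V L (S L L))))))) (T (F 16 (V (U (S (F 1 (S L L)) (T L L)) (F 1 (S L L))) (F 1 (U (S L L) (S L L))))) (F 32 (V (F 1 (U (S (S L L) (S L L)) (S L L))) (S (F 1 (U (S L L) L)) (F 1 (T L (S L L))))))))) (F 4 (U (T (V (S (F 16 (U (V (S L L) (S L L)) (T L L))) (F 16 (U (T (T L L) L) (S L L)))) (S (V (F 16 (T L L)) (U (S L L) (S L L))) (U (T (S L L) (S L L)) (V L L)))) (V (S (F 16 (U (V (S L L) (S L L)) (T L L))) (U (S (F 16 (S L L)) L) (F 16 (S L L)))) (S (U (V (T L L) (S L L)) (T (S L L) (S L L))) (U (V (S L L) (S L L)) (V (S L L) (S L L))))))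 (T (V (F 16 (S (U (S L L) L) (U (S L L) L))) (S (F 16 (U (S L L) L)) (S (F 16 (T L L)) L))) (V (S (F 16 (U (T L L) (S L L))) (F 16 (T L (S L L)))) (S (U (V L L) L) (U (T L L) (S L L))))))))
noncomputable def w1_18 : Tr := (S (F 1 (U (T (V (S (U (S (S L L) L) (S L L)) (F 16 (U (S L L) (S L L)))) (U (S L L) (S (S L L) L))) (S (U (V (V L (S L L)) (U (S L L) (S L L))) (V (F 16 (T L L)) (S L L))) (F 16 (U (V (T L (S L L)) (U (S L L) (S L L))) (V (T L L) (S L L)))))) (T (V (F 16 (S (F 1 (S L L)) (V L (S L L)))) (U (S L L) L)) (F 16 (V (U (S (S L L) (T L L)) (T L (S L L))) (U (S L (S L L)) (S L L))))))) (F 4 (U (V (T (S (V (S L (T L L)) (F 32 (S L L))) (U (V (S L L) L) (S L L))) (S (F 32 (U (T L L) (T L L))) (U (V (S L L) (S L L)) (T L (S L L))))) (U (S (F 32 (T (S L L) (U (S L L) (S L L)))) (T (U L L) (U (T L L) (S L L)))) (T (S (F 32 (S L L)) (S L L)) (F 32 (S (S L L) (S L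 L)))))) (T (S (F 32 (V (U L L) (T L L))) (V (U (S L L) L) (T L L))) (V (S (F 32 (U (S L L) L)) (U (S L L) (S L L))) (F 32 (S (U (S L L) L) (T L L))))))))
noncomputable def w1_19 : Tr := (U (V (F 1 (S (F 1 (T (U (K 3) (V (F 4 (S L L)) L)) (U (T (V L (S (K 3) L)) (F 4 (U (S L L) (S L L)))) (V (F 4 (T (S (T L L) (F 2 (S L L))) (S (T L L) (F 2 (T L L))))) (T (S L L) (F 4 (S L L))))))) (F 4 (T (U (K 3) (V (F 4 (S L (S L L))) (F 64 (S L L)))) (F 64 (U (F 8 (T (S L L) (S (V (S L L) L) (V (S L L) L)))) (V (F 8 (T (U (S L L) (S L L)) (S (U L L) (U L L)))) (T (S L L) (F 8 (S L L)))))))))) (F 256 (T (U (K 3) (S (S L L) (F 130 (S L L)))) (S (U (V (S L L) L) (V (T L (S L L)) (T L (S L L)))) (F 130 (U (T (S (K 3) L) (U (S L L) (V (S L L) L))) (T (V (S L L) L) (S (T L L) (V (S L L) L))))))))) (T (S (F 256 (T (U (F 128 (V (S L L) L)) (F 2 (V L L))) (U (V (F 128 (V L (T L L))) (S L L))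 (F 2 (V (F 1 (S L L)) (S L L)))))) (F 65 (V (T (F 1 (U (S L L) (S L L))) (F 1 (S (U (S L L) (S L L)) (U (S L L) (S L L))))) (F 1 (U (V (S L L) L) (T (S L L) (V (S L L) L))))))) (F 256 (S (V (F 128 (T (S (U (S L L) (S L L)) (F 32 (V L (U L L)))) (U (S (T L L) (F 32 (T L L))) (F 32 (V L L))))) (T (U (S L L) (S L L)) (U (S L L) (T L L)))) (F 130 (V (T (S (V (F 4 (S L L)) (U (S L L) L)) (V (F 4 (S L L)) (U (S L L) L))) (S (U (V L (S L L)) (V L L)) (U (F 4 (V L (S L L))) (T L L)))) (T (S (T L L) (V (S L L) L)) (S (U (S L L) L) (U (T L L) L)))))))))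
noncomputable def w1_20 : Tr := (V (F 1 (T (V (F 16 (S (F 48 (U (T (V L L) (V (S L L) (S L L))) (T L (S L L)))) (F 16 (U (T (V (S L L) (S L L)) (V (S L L) (S L L))) (T L (S L L)))))) (U (F 16 (S (F 48 (T (S L L) (T L L))) (T (S L L) (V (S L L) L)))) (S (F 3 (T L L)) (F 3 (T L L))))) (F 16 (V (S (F 48 (U (T (V (T L L) (S L L)) (V (T L (S L L)) (S L L))) (T (S L L) (S L L)))) (U (T (F 16 (V (S (S L L) L) (S L L))) (S (F 16 (V (S L L) L)) (F 16 (V L L)))) (F 16 (T (S L L) (S L L))))) (U (S (F 32 (T (V (F 1 (S L L)) (S L L)) (V (S L L) (S L L)))) (T (V (S L L) (F 32 (S L L))) (F 32 (V (S L L) (S L L))))) (F 32 (S (F 1 (T L L)) (T (S L L) (S L L))))))))) (F 128 (U (T (V (F 64 (S (T (S L L) (T L L)) (T (S L L) (V (S L L) L)))) (S (T L L) (F 64 (T (S L L) (S L L))))) (S (V (T (F 64 (V L L)) (V L L)) (U (T (S L L) (S L L)) (T L L))) (T (F 64 (V (V (S L L) (S L L)) (U (S L L)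 L))) (V (F 64 (V (F 4 (S L L)) (S L L))) (U (F 64 (S L L)) L))))) (T (V (F 64 (S (F 32 (S L L)) (T L L))) (U (S (S L L) (F 64 (S L L))) (S L L))) (V (S (T L (S L L)) (F 64 (T L (S L L)))) (U (S (S L L) (T L L)) (S L L)))))))
noncomputable def w1_21 : Tr := (U (F 64 (T (F 16 (S (F 2 (U L (F 16 (S (S L L) L)))) (F 2 (V (U (S L L) (T L (S L L))) (S L L))))) (F 16 (S (U (F 4 (V (F 16 (T L (S (V L L) (S L L)))) (S (K 2) L))) (F 4 (V (F 16 (T (V (S L L) L) (V (S (S L L) L) (S L L)))) (S L L)))) (V (F 2 (U (T (S L L) (S (T L L) (V L L))) (T (S (S L L) L) (S (F 16 (S L L)) (S L L))))) (U (S (S L L) L) (S L (S L L)))))))) (S (F 12 (T (F 32 (V (F 8 (U (T L (S L L)) (S L L))) (S L L))) (F 4 (V (F 2 (T (U (S L (S L L)) (S L L)) (V (U (S L L) L) (S L L)))) (V (F 2 (T L (S L L))) (U L (S L L))))))) (T (F 2 (U (F 36 (V (T L (S L L)) (S L L))) (F 32 (V (F 16 (S L L)) (S L L))))) (F 64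 (V (F 80 (S (F 2 (U (T L L) (T L L))) (T (S L L) (S L L)))) (T (U (F 16 (S L L)) L) (F 32 (U (F 4 (S L L)) L))))))))
noncomputable def w1_22 : Tr := (U (F 28 (V w1_21 (U (U (K 5) (T (K 5) (V (S (F 12 (S L L)) (T L (F 4 (S L L)))) (F 4 (S (K 3) (S (K 3) L)))))) (T (S (F 4 (V L (S L L))) (V (S L L) (V (S L L) L))) (S (F 12 (V (T (S L L) (U L (S L L))) (U L (V (S L L) L)))) (V (T (F 8 (S L L)) (F 8 (S (S L L) L))) (U (S L L) (F 4 (S (F 32 (S L L)) (S L L)))))))))) (F 28 (V (T (F 10 (S (F 32 (V (F 8 (U (S L L) L)) (U (S L L) L))) (U (V (F 4 (T L (S L L))) (S L L)) (T L L)))) (F 8 (V (F 68 (S (F 2 (U (T (S L L) (S L L)) L)) (U (T L L) L))) (S (F 32 (U (T L (S L L)) L)) (U (S L L) L))))) (V (T (S (F 12 (V L (S L L))) (T L (F 8 (S L L)))) (S (F 12 (U (T L (S L L)) (S L L))) (U (T L L) L))) (T (U (S L (S L L)) (S L (S L L))) (F 4 (U (S (F 32 (S L L)) (S L L)) (S (F 160 (S L L))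 (S L L)))))))))
noncomputable def w1_23 : Tr := (T (V (U (V (F 2 (T (S (S L L) (S L L)) (S (T L L) (S L L)))) (S (T (F 2 (S L L)) (U L L)) (T L (S L L)))) (T (F 2 (V (S (T L L) L) (S L (S L L)))) (S (F 2 (V (U (S L L) L) L)) (F 2 (V L (S L L)))))) (V (T (U (S L L) (S L L)) (S (U L (S L L)) (U L L))) (S (T L (S L L)) (T L (U L L))))) (V (T (U (V (S (F 2 (V L (S L L))) (F 2 (S L L))) (S (T L (T L L)) (V L (S L L)))) (V (F 2 (S (T L L) L)) (S (S L L) (S L L)))) (U (V (S (S (F 2 (T L L)) L) (S L L)) (S (V (S L L) L) (V L (S L L)))) (V (S (F 2 (S L L)) (F 2 (S L L))) (S (S L L) (S L L))))) (T (S (U (V (S L L) (U L L)) (V (S L L) (S L L))) (U (V (T L L) (U L L)) (V L L))) (S (V (U (T L L) (S L L)) (U (U (S L L) (S L L)) (S L L))) (V (U (S L L) (S L L)) (U (U (S L L) L) (S L L)))))))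
noncomputable def w1_24 : Tr := (V (S (F 32 (T (V (F 16 (U (S L L) (T L (S L L)))) (S (S L L) (S L L))) (U (F 16 (S (V (T L (S L L)) (F 32 (S L L))) (V (T L (S L L)) (S (S L L) L)))) (V (F 16 (T (S (S L L) (S L L)) (S (F 32 (V L L)) (T L L)))) (T (S L L) (F 17 (S L L))))))) (T (U (T L (F 36 (S L L))) (F 32 (V (F 16 (S (S L L) (S L L))) (S L L)))) (F 4 (U (F 4 (S (V (T L L) (S L L)) (T (S L L) (S L L)))) (F 4 (V (S (T L (S L L)) (T L L)) (S (T L L) (S L L)))))))) (S (T (F 32 (U (K 3) (V (S L L) (F 1 (S L L))))) (F 160 (S (T (U L (V L L)) (U (V (S L L) L) (V (S L L) L))) (T (U (S L L) (V L L)) (V (U (S L L) L) (U L L)))))) (T (S (U L (T L L)) (V (S L L) (S L L))) (U (S (F 32 (V (V (S L L) L) (F 1 (S L L)))) (T (S L L) (F 32 (V L L)))) (F 32 (T (S (S L L) (S L L)) (S (F 1 (T L L)) (S L L))))))))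
noncomputable def w1_25 : Tr := (V (F 36 (T (S (F 4 (V (T (F 2 (V (U (S L L) L) (S (S L L) L))) (S (F 2 (V (S L L) (S L L))) (F 2 (U (T L L) L)))) (T (V (S (S L L) L) (S L L)) (V (S (S L L) (S L L)) (S (S L L) L))))) (V (U (F 4 (S (F 2 (T (S L L) (T L L))) (F 2 (T L L)))) (F 32 (T L (S L L)))) (F 4 (T (V (S L L) L) (S (T L L) L))))) (S (F 4 (V (T (V (F 2 (U (S L L) (S L L))) (S (S L L) (S L L))) (S (V (F 2 (S L L)) (U (S L L) L)) (V L (S L L)))) (T (S (V (T L L) (S L L)) (V (S L L) L)) (V (S (T L L) (S L L)) (S (T L L) (S L L)))))) (V (U (S (V (F 32 (S L L)) (F 4 (T L L))) (T L L)) (T (S L L) (V L L))) (F 4 (T (S (V L L) (S L L)) (S (V L L) (S L L)))))))) (F 64 (T (S (F 32 (V (T (S (U (S L L) L) (U L L)) (S (V L (F 1 (U L L))) (U (S L L) L))) (T (U (S L L) (F 1 (S L L))) (F 1 (S (V L L) (S L L)))))) (V (F 32 (T (S (S L L) L) (S (T L L) (S L L)))) (T (F 32 (V (S L L) L))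 (F 32 (S (S L L) L))))) (F 32 (S (V (T (S (U (V L (F 1 (S L L))) (F 1 (S L L))) (V L (U (S L L) L))) (S (F 1 (U (F 4 (V L L)) (T L L))) (F 16 (U (V L L) (S L L))))) (F 1 (T (S (V (S L L) L) (V L L)) (S (V (S L L) (S L L)) (V (S L L) (S L L)))))) (V (T (S (U (S L L) L) (S L L)) (F 16 (S (U (S L L) L) (S L L)))) (S (T (T L L) (F 1 (V L L))) (T (S L L) (S L L)))))))))
noncomputable def w1_26 : Tr := (V (F 4 (S (T (F 12 (V (F 2 (U (T (V L L) (V L L)) (S L L))) (U (T (S L L) (V (S L L) L)) (S L L)))) (F 8 (V (U (F 16 (T (S (F 16 (S L L)) L) (V L (S L L)))) (F 2 (T L L))) (F 16 (U (T (S (T L L) L) (S (V L L) (S L L))) (T L L)))))) (F 8 (T (V (F 2 (U (T L (S L L)) L)) (F 16 (U (T L (S L L)) L))) (V (U (T (S L L) (S L L)) (F 2 (S L L))) (F 16 (U (S (T L L) L) L))))))) (F 64 (U (T (S (F 32 (V (T (S L L) (S L L)) (F 1 (T L (U (S L L) L))))) (F 32 (V (T L (S L L)) (U (S L L) (S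 L L))))) (F 32 (S (V (V (F 16 (T L (S L L))) (F 1 (T L (S L L)))) (F 1 (U (T (S L L) (S L L)) (T L L)))) (V (V (F 16 (S L L)) (S L L)) (U (V (S L L) L) (S L L)))))) (F 32 (T (V (S (S L L) L) (S (F 1 (T L L)) (S L L))) (S (F 1 (V (T L L) (T (S L L) (S L L)))) (V (S L L) (F 1 (S L L)))))))))
noncomputable def w1_27 : Tr := (T (F 137 (U (F 4 (S (F 96 (V (F 2 (T (F 32 (V L L)) (U (V (F 4 (S L L)) L) L))) (F 1 (T (F 32 (T L (S L L))) (U (S L L) L))))) (V (F 160 (T (V L (S L L)) (S (F 2 (T L L)) (S L L)))) (T (S L (S L L)) (F 64 (U (S L L) L)))))) (F 4 (T (F 160 (S (F 3 (T L L)) (F 1 (S L L)))) (F 96 (S (F 3 (V L L)) (F 2 (S L L)))))))) (F 1792 (U (F 4 (S (F 8 (V (F 128 (T (F 32 (U (V (F 8 (S L L)) (F 1 (S L L))) (F 1 (S L L)))) (F 68 (U (V (F 1 (T L L)) (S L L)) (F 1 (S L L)))))) (F 1 (T (U (V (F 1 (S L L)) (S L L)) (F 64 (S L L))) (U (T (S L (S L L)) (S L (S L L))) (F 64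 (S L L))))))) (F 1 (V (T (S (F 2 (V (F 8 (S L L)) L)) L) (F 16 (U (S (V L L) (S L L)) (S L L)))) (F 32 (T (S (F 64 (T L (S L L))) (S L L)) (U (S (F 64 (T L L)) (S L L)) L))))))) (F 4 (S (F 384 (T (V (S L L) L) (V (V L L) L))) (U (F 1 (V (F 2 (S L L)) (F 33 (S L L)))) (F 385 (S L L))))))))
noncomputable def w1_28 : Tr := (T (F 16495897739782 (V (F 3221229841 (U (F 24680736 w1_0) (F 33034227 (U (V (F 65 (S (F 287 (U (V L (T L L)) (T L L))) (F 4 (T (F 387 (U (S L L) (S L L))) (F 256 (S (F 70 (T L L)) (T L (S L L)))))))) (F 2564 (S (F 15 (U (V L (S L L)) (T L L))) (F 264 (T (F 65 (U (V L L) L)) (U (V (S L L) L) (S L L))))))) (F 3648 (V (F 128 (T L (S L L))) (F 32 (S L (F 1 (U (S L L) L)))))))))) (F 109611008 (U (F 161350920 w1_1) (F 16648095 (U (V (F 1153 (T (F 449 (U (V (S L L) L) (S L L))) (F 66 (S (F 96 (U (V L L) L)) (U (V L (S L L)) (S L L)))))) (F 520 (T (F 907 (U (V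 (S L L) L) (S L L))) (F 512 (S (F 480 (U (T L L) (S L L))) (F 128 (T (F 196 (S L L)) (S L (S L L))))))))) (F 3081 (V (F 4 (T L (F 64 (U (S L L) L)))) (F 1 (S L (T L L))))))))))) (F 36507476031 (V (F 135334161 w1_14) (F 67665928 (U (F 118161993 (S (F 16536 (T (F 768 w1_15) (U (F 792 (V (F 9 (T w1_16 (V w1_17 w1_18))) w1_19)) (F 796 w1_20)))) (F 24593 (T (F 1024 w1_22) (F 128 (U (U (F 24 (V (F 64 (S (F 100 w1_23) (T (F 4 (V (F 8 (S (F 32 (T (U (F 2 (V L L)) (F 2 (S L L))) (F 2 (V (T L L) (S L L))))) (F 32 (U (T (V (S L L) L) (F 2 (S L L))) (F 2 (T L L)))))) (U (F 12 (S (V (S L L) (S L L)) (V (S L L) L))) (T (F 8 (V (S L L) L)) (F 12 (S (T L L) (S L L))))))) (F 64 (V (F 4 (S (F 4 (T (V (F 2 (T L L)) (T L L)) (V (S L L) (U L (S L L))))) (V (F 32 (T (S L L) (S L L))) (F 4 (T (S L L) L))))) (F 32 (T (F 16 (U (S (V (S L L) (T L L)) (T L L)) (V (S L L) (S L L)))) (F 16 (S (U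 (V (S L L) (T L L)) (V L L)) (U (V L (S L L)) (S L L))))))))))) (F 132 w1_24))) (F 536 w1_25)) (F 536 w1_26))))))) (F 118480953 w1_27))))))
noncomputable def treeW1 : Tr := (F 0x7ffffffffffffffffffffffffffff67ffffffffffffffffffe30fff1fe1c1c383c1c3c3ff w1_28)

theorem pW1 : chkW par treeW1 64 64 128 128 256 256 374491 748983 Lc = true := by decide +kernel

noncomputable def w2_0 : Tr := (U (F 2176 (U (F 768 (V (K 1) (F 4 (S (V (K 5) (F 2 (T L (F 32 (U L L))))) (T (V (T L L) (F 2 (U (T L L) (S L (F 32 (V L (S L L))))))) (F 1 (V (U (K 1) (T L L)) (F 32 (U (V L (U L (T L L))) (S (T L L) (V (S L L) (T L L)))))))))))) (F 768 (V (S (F 128 (V (F 2 (S (K 1) L)) (S L L))) (T (F 32 (S (F 1 (U L (S L L))) (U (T L L) (F 1 (V L L))))) (F 128 (V (F 2 (U L (T L L))) (S L (U L L)))))) (S (F 128 (V (T L (F 1 (S L L))) (F 17 (T (S (S L L) (V L L)) (S (T L L) (V L (S L L))))))) (V (T (F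 96 (S (F 1 (S L L)) (F 9 (S L L)))) (F 128 (S (F 1 (V L L)) (F 16 (V (S L L) (F 32 (S L L))))))) (F 196 (T (S (V (S L L) (S L L)) (V (S L L) (U (S L L) L))) (S (V (S L L) (T L L)) (V (T L L) (U (S L L) L))))))))))) (F 3075 (V (U (F 4 (S (V (F 32 (S L L)) (T L L)) (F 32 (V (S (S L L) (S L L)) (S (T L L) (T L (S L L))))))) (F 2 (S (F 32 (V (S L L) L)) (F 32 (V (U (S L L) L) (S L (S L L))))))) (F 4 (S (F 64 (V (U (T (F 1 (S L L)) (S L L)) (S L L)) (F 8 (U (T (F 16 (S L L)) (V L L)) (S L L))))) (V (U (T (F 96 (V (S L L) (F 4 (S L L)))) (F 64 (S (S L L) (T L L)))) (F 64 (S L (F 1 (S L L))))) (F 68 (U (S (T L (S L L)) (T (F 1 (S L L)) (V L L))) (T (F 1 (S L L)) (S L L))))))))))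
noncomputable def w2_1 : Tr := (U (F 16 (S (F 2 (T (F 1 (U L (F 1 (T (S L L) L)))) (F 1 (V (S L L) (U (S L L) (S L (T L L))))))) (F 2 (T (U (F 64 (V (S (K 1) L) (F 32 (S L (T (V L L) (S L L)))))) (F 64 (V (T L L) (F 32 (S (V L (S L L)) (V (S L L) (T (S L L) L))))))) (V (U (T (S (K 4) L) L) (T L (S L L))) (F 1 (U (S (T L L) (T (S L L) (V L L))) (S (T (S L L) L) (T (F 1 (S L L)) (S L L)))))))))) (T (F 384 (S (F 64 (V (T L L) (F 8 (U (S L (S L L)) (S L L))))) (F 4 (V (V (U L (S L L)) (F 1 (S L (S L L)))) (F 1 (S (U (T L (S L L)) (S L L)) (V (T L L) (U (S L L) L)))))))) (S (F 1 (U (F 18 (V (S L L) (S L (T L L)))) (F 2 (V (S L L) (F 8 (S L L)))))) (F 16 (V (S (U (F 2 (S L L)) L) (F 1 (U (F 64 (S L L)) L))) (F 130 (T (F 32 (U (S L L) (S L L))) (S (S L L) (S L L)))))))))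
noncomputable def w2_2 : Tr := (U (F 28 (V (U (U (K 5) (S (K 5) (V (F 256 (T (K 2) (S (K 2) L))) (T (F 384 (T L L)) (S L (F 256 (T L L))))))) (S (T (F 256 (V (T L L) L)) (V (V L (S L L)) (T L L))) (T (F 384 (V (U L (V L (S L L))) (S (S L L) (U L (S L L))))) (V (U (S L L) (F 256 (T (F 1 (S L L)) (S L L)))) (S (F 128 (S L L)) (F 128 (T (S L L) L))))))) w2_1)) (F 28 (V (V (S (U (T L (S L L)) (T L (S L L))) (F 256 (U (T (F 1 (S L L)) (S L L)) (T (F 65 (S L L)) (S L L))))) (S (T (F 384 (V (S L L) L)) (S L (F 128 (S L L)))) (T (F 384 (U (S L (S L L)) (S L L))) (U (S L L) L)))) (S (F 129 (T (F 1 (V (U (S L L) L) (F 8 (U (S L L) L)))) (U (V (S L L) (F 8 (S L (S L L)))) (S L L)))) (F 128 (V (T (F 1 (U (S L (S L L)) L)) (U (S L L) L)) (F 136 (T (F 32 (U (S (S L L) (S L L)) L)) (U (S L L) L)))))))))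
noncomputable def w2_3 : Tr := (U (V (F 4 (S (U (K 1) (T (S (K 1) L) (F 160 (S (K 4) L)))) (T (U (V L (S (K 1) L)) (V (S L (S L L)) (S L (T L L)))) (F 160 (U (S (S (K 4) L) (U (S (K 4) L) (V L (S L L)))) (S (V L (S L L)) (T (S L L) (V L (S L L))))))))) (F 8 (T (F 32 (S (U (K 5) (V L (F 16 (T L L)))) (U (S (V (S (K 5) L) L) (F 16 (U (T L L) (T L L)))) (V (S (S L L) (F 16 (S L L))) (F 16 (S (T (S L L) (F 32 (S L L))) (T (S L L) (F 32 (S L L))))))))) (F 128 (S (U (K 5) (V (F 2 (S L L)) (F 16 (S L (F 16 (T L L)))))) (F 2 (U (F 4 (S (T L L) (T (V L (S L L)) (V L (S L L))))) (V (S (T L L) (F 4 (T L L))) (F 4 (S (U (T L L) (S L L)) (T (U L L) (U L L)))))))))))) (S (T (F 4 (S (U (F 32 (V L (S L L))) (F 128 (V L L))) (U (V (T L L) (F 32 (V (S L L) L))) (F 128 (V (S L L) (F 2 (S L L))))))) (F 9 (V (F 32 (U (V L (S L L)) (S (T L L) (V L (S L L))))) (S (F 32 (U (T L L) (S L L)))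 (F 32 (T (U (S L L) (S L L)) (U (S L L) (S L L)))))))) (F 4 (T (V (S (U (T L L) (S L L)) (U (T L L) (S L L))) (F 32 (S (T (U (S L L) (S L L)) (F 1 (V (U L L) L))) (U (T (S L L) (F 1 (S L L))) (F 1 (V L L)))))) (F 160 (V (S (T (S L L) (V L (S L L))) (T (U (S L L) L) (U (S L L) L))) (S (T (V (U (S L L) L) (F 8 (S L L))) (V (U (S L L) L) (F 8 (S L L)))) (T (U (V (S L L) L) (V L L)) (U (F 8 (V (S L L) L)) (S L L))))))))))
noncomputable def w2_4 : Tr := (V (T (U (S (F 16 (T (U (K 4) L) L)) (F 16 (V (T L L) (U (S L L) (T L L))))) (F 16 (S (V (T L L) (F 3 (S L L))) (V (T L (F 1 (S L L))) (F 1 (T L (F 16 (S L L)))))))) (F 64 (U (S (V (S L L) (T L (S L L))) (V (T L (S L L)) (T (U L (S L L)) (U L (S L L))))) (S (V (T L L) (T L L)) (V (T (F 2 (S L L)) (S L L)) (T (S L L) (S L L))))))) (T (U (V (T (F 48 (S (V L L) (U L L))) (F 96 (S (U L L) (U (S L L) (S L L))))) (F 96 (S (U (T L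 (S L L)) (T L (S L L))) (U (T (S L L) (S L L)) (T (F 1 (S L L)) (S L L)))))) (F 96 (S (V (S L (F 1 (S L L))) (T (F 1 (S L L)) (U L L))) (V (F 1 (U (S L L) L)) (T (F 1 (S L L)) (U (S L L) (S L L))))))) (F 64 (U (S (F 1 (V (U (S L L) (T L L)) (U (T (S L L) (U (S L L) L)) (T (S L L) (S L L))))) (V (T (F 1 (U (S L L) (S L L))) (U (T L L) (F 1 (S L L)))) (F 1 (T (U (S L (S L L)) (S L L)) (U (S L L) (S L L)))))) (S (F 1 (V (U (S L L) (S L L)) (T (S L L) (S L L)))) (V (T (F 1 (U L L)) (F 1 (S L L))) (F 1 (T (U (S L L) L) (S L (S L L))))))))))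
noncomputable def w2_5 : Tr := (T (F 16 (U (S (V (U (T L L) (T (S L L) L)) (T (U (T (S L L) L) (S L L)) (F 1 (U (S L L) (S L L))))) (T (U (V (U (S L L) (S L L)) (V (S L L) L)) (V (S L L) (F 1 (S L L)))) (F 1 (U (V (U (S L L) (S L L)) (S L (S L L))) (V (S L L) (S L L)))))) (S (V (U (T L L) L) (F 1 (T (F 16 (S L L)) (V (S L L) L)))) (F 1 (V (U (T L (S L L)) (S L L)) (U (T (S L L) (S L L)) (S L (S L L)))))))) (F 64 (U (V (U (T (F 2 (S (T L L) (U (T L L) (S L L)))) (S (U L L) (U (S L L) (S L L)))) (S (T (F 2 (S L L)) (S L L)) (F 2 (T (S L L) (S L L))))) (S (T (V (F 2 (S L L)) (T L (S L L))) (U (V L (S L L)) (S L L))) (T (F 2 (U (S L L) (S L L))) (U (V (S L L) (S L L)) (S L (S L L)))))) (S (T (F 2 (V (S L L) (U L L))) (V (S L L) (U (S L L) L))) (V (F 2 (T (U (S L L) L) (S L L))) (T (F 2 (U (S L L) L)) (U (S L L) (S L L))))))))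
noncomputable def w2_6 : Tr := (T (F 64 (U (S (V (T (F 3 (U (S L L) (S L L))) (U (S L L) (F 3 (S L L)))) (F 1 (T (F 16 (U (S L L) (S L L))) (U (S (S L L) (S L L)) (V L (S L L)))))) (V (F 2 (T (U (T L (F 16 (S L L))) (F 16 (S L L))) (U (S (S L L) (S L L)) (V (S L L) L)))) (T (F 3 (U (S L L) (S L L))) (F 1 (U (T (F 16 (S L L)) (S L L)) (V L (S L L))))))) (S (F 1 (V (F 16 (U (S L L) (S L L))) (U (T (F 16 (S L L)) (S L L)) (F 16 (S L L))))) (F 2 (V (T (F 16 (U (S L L) L)) (F 16 (S L (S L L)))) (F 16 (U (T (S L L) (S L L)) (S L L)))))))) (F 64 (U (S (V (T (V (U (S L L) (S L L)) (F 1 (S L L))) (U (S (S L L) (S L L)) (V L L))) (T (F 1 (U (V (S L L) (S L L)) (S L L))) (F 1 (U (S (S L L) L) (S L L))))) (V (T (U (V (S L L) (S L L)) (S (S L L) (S L L))) (U (V (S L L) (S L L)) (V (S L L) (S L L)))) (T (F 1 (U (V (S L L) (S L L)) (S L L))) (U (T (F 1 (S L L)) L) (F 1 (S L L))))))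 (S (V (T (F 1 (U (S L L) L)) (T (F 1 (S L L)) L)) (F 1 (T (U (S L L) L) (U (S L L) L)))) (V (T (U (V L L) L) (U (S L L) (S L L))) (T (F 1 (U (S L L) (S L L))) (F 1 (S L (S L L)))))))))
noncomputable def w2_7 : Tr := (V (F 2 (U (S (V (T (S L L) (F 32 (S (S L L) (T L L)))) (F 32 (T (S (S L L) (S L L)) (S (T L L) (V L (S L L)))))) (T (V (U (S (S L L) (S L L)) (S L L)) (S (F 32 (V L L)) (V L L))) (S (F 32 (V (U (S L L) L) (V (S L L) (S L L)))) (V (U (F 32 (S L L)) L) (F 32 (V (S L L) (F 8 (S L L)))))))) (S (V (U (T (S L L) (F 32 (S L L))) (S L L)) (F 32 (T (F 1 (S L L)) (S L L)))) (V (U (T (S L L) (S L L)) (T L L)) (T (S L (S L L)) (F 32 (S L (S L L)))))))) (F 4 (S (V (U (F 4 (T (F 3 (S (S L L) (S L L))) (S (T L L) (V L (T L L))))) (T (F 96 (S L L)) (F 96 (S L L)))) (F 4 (T (F 3 (U (S (V L L) (V (S L L) (S L L))) (S L (S L L)))) (F 1 (U (S (V (S L L) (S L L)) (V (S L L) (S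 L L))) (S L (S L L))))))) (F 4 (V (U (T (F 2 (S (V (S L L) (F 16 (S L L))) (V (S L L) (T L L)))) (S (V (F 2 (S L L)) (T L L)) (F 2 (V (T L L) (T L L))))) (F 2 (T (F 16 (S L L)) (S (S L L) (S L L))))) (T (F 3 (U (S (V (S L L) (S L L)) (V (S L L) (S L (S L L)))) (S (S L L) (S L L)))) (U (S (F 1 (V (S L L) (T (S L L) L))) (T (F 1 (V L (S L L))) (F 1 (V L L)))) (F 1 (S (S L L) (S L L))))))))))
noncomputable def w2_8 : Tr := (V (T (S (F 1 (U (K 5) (V (F 2 (S L L)) (S L L)))) (F 65 (T (S (U L (V L L)) (U (V L (S L L)) (V L (S L L)))) (S (U (S L L) (V L L)) (V (U L L) (U (S L L) L)))))) (S (T (U L (S L L)) (V (S L L) (S L L))) (U (T (F 1 (V (F 2 (S L L)) (V L (S L L)))) (S (S L L) (F 1 (V L L)))) (F 1 (S (T (T L L) (S L L)) (T (F 2 (S L L)) (S L L))))))) (T (F 1 (S (V (T (S L L) (S L L)) (F 16 (U (S (K 1) L) (S L (T L L))))) (U (F 16 (T (V (F 16 (S L L)) (S L (S L L))) (V (T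 (S L L) L) (S L (S L L))))) (V (S (T L L) (F 18 (T L L))) (F 16 (S (T (T L L) (S L L)) (T (F 16 (V L L)) (S L L)))))))) (S (U (S L (F 9 (T L L))) (F 1 (V (T L L) (F 16 (T (S L L) (S L L)))))) (F 8 (U (F 64 (T (V (S L L) (S L L)) (S (S L L) (S L L)))) (F 64 (V (T (S L L) (S L L)) (T (S L (S L L)) (S L L)))))))))
noncomputable def w2_9 : Tr := (S (V (V (T (S L (S L L)) (S L (U L L))) (S (U (S L L) (T L L)) (T (U L (S L L)) (U L L)))) (U (V (T (S (F 1 (S L L)) (U L L)) (S L (S L L))) (F 1 (S (T (S L L) (S L L)) (T (S L L) (S L L))))) (S (F 1 (V (T L (S L L)) (T (S L L) L))) (T (F 1 (V L (U (S L L) L))) (F 1 (V (S L L) L)))))) (V (S (T (U (V (U L L) (S L L)) (V (S L L) (S L L))) (U (V (U L L) (S L L)) (V L L))) (T (V (U (U (S L L) (S L L)) (S L L)) (U (S L L) (S L L))) (V (U (U (S L L) L) (S L L)) (U (S L L) (S L L))))) (S (U (V (T (S L (S L L)) (V (S L L) L)) (T (F 1 (V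 (S L L) L)) (F 1 (S L L)))) (V (T (S L L) (T L L)) (F 1 (T (S L L) L)))) (U (V (T (V L (S L L)) (V (S L L) L)) (T (T (F 1 (S L L)) L) (S L L))) (V (T (S L L) (S L L)) (T (F 1 (S L L)) (F 1 (S L L))))))))
noncomputable def w2_10 : Tr := (V (F 16 (S (T (F 1 (V (S (U (S L L) (F 2 (T L L))) (F 2 (T (V L L) (S L L)))) (S (T (U (S L L) L) (U L L)) (T (V (F 2 (U L L)) L) (U (S L L) L))))) (V (S (F 1 (V L (S L L))) (F 1 (T (S L L) L))) (F 1 (S (T (S L L) L) (T (S L L) (S L L)))))) (F 1 (T (V (F 2 (S (T (V L (S L L)) (V L L)) (T (V (S L L) (S L L)) (V (S L L) (S L L))))) (S (T (U (V (F 2 (S L L)) L) (F 2 (S L L))) (V (U (S L L) L) L)) (T (F 2 (U (F 4 (V L L)) (S L L))) (F 16 (U (V L L) (S L L)))))) (V (T (S (S L L) (F 2 (V L L))) (S (S L L) (S L L))) (S (T (U (S L L) L) (S L L)) (F 16 (T (U (S L L) L) (S L L))))))))) (F 288 (S (T (F 4 (V (S (V (T L L) (T (S L L) L)) (V (T (S L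 L) L) (T (S L L) (S L L)))) (S (F 1 (V (T (S L L) L) (U (S L L) L))) (T (F 1 (V (S L L) (S L L))) (F 1 (U (S L L) L)))))) (V (F 4 (S (V L (S L L)) (T (S L L) L))) (U (F 4 (T (F 1 (S (S L L) (S L L))) (F 1 (S L L)))) (F 64 (S L (S L L)))))) (T (F 4 (V (S (T (V (S L L) (S L L)) (V L (S L L))) (V (T (S L L) (S L L)) (T (S L L) (S L L)))) (S (V (T (S L L) (S L L)) (F 1 (U (T L L) (S L L)))) (T (V (U (S L L) L) (F 1 (S L L))) (V (S L L) L))))) (V (F 4 (S (T (V L L) (S L L)) (T (V L L) (S L L)))) (U (T (V (F 4 (S L L)) (F 64 (S L L))) (S L L)) (S (T L L) (V L L))))))))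
noncomputable def w2_11 : Tr := (V (F 16 (U (S (T (F 1 (V (F 2 (S L (U (S L L) L))) (S (T L L) (T L L)))) (F 1 (V (U (T L L) (S L L)) (S L (S L L))))) (F 1 (T (V (F 2 (U (S (T L L) (T L L)) (S L L))) (V (F 2 (S L (S L L))) (F 16 (S L (S L L))))) (V (U (V L (S L L)) (S L L)) (V (S L L) (F 16 (S L L))))))) (F 1 (S (V (T (F 2 (S L L)) (S L L)) (T (S L L) L)) (T (F 2 (V (S (S L L) (S L L)) (S L L))) (V (F 2 (S L L)) (S L L))))))) (F 256 (T (S (F 12 (V (U (S (T L L) (V L (S L L))) (S L L)) (F 1 (U (S (V L L) (V L L)) (S L L))))) (F 4 (V (F 16 (U (S (T (S L L) L) (T (V L L) (S L L))) (S L L))) (U (F 16 (S (T (F 32 (S L L)) L) (V (S L L) L))) (F 1 (S L L)))))) (F 4 (S (V (F 16 (U (S L (S L L)) L)) (F 1 (U (S L (S L L)) L))) (V (F 16 (U (T (S L L) L) L)) (U (S (S L L) (S L L)) (F 1 (S L L)))))))))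
noncomputable def w2_12 : Tr := (S (F 1160 (U (F 512 (T (F 3 (V (F 2 (S (F 32 (S L (S L L))) (U (T L L) L))) (F 1 (S (F 32 (V L L)) (U (V L (F 4 (S L L))) L))))) (V (S (T L (S L L)) (F 1 (U (T L L) L))) (F 258 (S (V (S L L) L) (T (F 64 (S L L)) (S L L))))))) (F 512 (S (F 258 (T (F 65 (S L L)) (F 1 (S L L)))) (F 3 (T (F 3 (V L L)) (F 1 (S L L)))))))) (F 7 (U (F 512 (T (F 8 (V (F 2 (S (U (V (S L L) (F 32 (S L L))) (F 64 (S L L))) (U (S (T L (S L L)) (T L (S L L))) (F 64 (S L L))))) (F 4 (S (F 64 (U (V (F 1 (S L L)) (F 8 (S L L))) (F 1 (S L L)))) (F 36 (U (V (S L L) (F 1 (S L L))) (F 1 (S L L)))))))) (F 64 (V (F 16 (S (T (F 32 (S L (S L L))) (S L L)) (U (T (F 32 (S L L)) (S L L)) L))) (S (T (F 1 (V L (F 4 (S L L)))) L) (F 32 (U (T (V L L) (S L L)) (S L L)))))))) (F 512 (T (F 384 (S (V L (S L L)) (V L (V L L)))) (U (F 64 (V (F 18 (S L L)) (F 1 (S L L)))) (F 448 (S L L))))))))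
noncomputable def w2_13 : Tr := (U (F 1 (U (F 512 (V (F 9 (S (F 3 (U L (T L (T L L)))) (F 1 (U (V (F 32 (T (T L L) (U L (T (S L L) (S L L))))) (K 0)) (F 32 (V (T (S (S L L) (V (S L L) L)) (S (U (S L L) (S L L)) (V (T L (S L L)) (T L L)))) (T L L))))))) (K 1))) (F 513 (V (F 136 (S (V (F 32 (U (S L (T L L)) (S (S L L) (T L L)))) (U L (S L L))) (V (F 32 (T (S (V (S L L) (S L L)) (V (U (S L L) L) (U (S L L) L))) (S (U (V L (S L L)) (S L L)) (V (U (S L L) L) (U (S L L) L))))) (U (F 32 (S L (T L (T L L)))) (S (V (F 32 (S L L)) L) (F 32 (T L L))))))) (S (F 128 (U (K 5) (V L L))) (U (V (F 128 (T L L)) (T L L)) (F 128 (V (T L (S L L)) (T L (F 2 (S L L))))))))))) (F 1539 (V (S (F 8 (V (F 1 (U (S (S L L) (T L L)) (S L L))) (U (S (S L L) (T L L)) (S L L)))) (F 8 (V (F 1 (U (S (T (S L L) (S L L)) (T (V L L) (V L L))) (T (F 1 (S L L)) (S L L)))) (U (S (V (F 1 (S L L)) L) (T (S L L)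 (S L L))) (T L L))))) (U (S (V (F 8 (S L L)) (F 2 (S L L))) (S (V (U L L) (T L L)) (V (U (S L L) (S L L)) (U L L)))) (S (V (S L L) (U L L)) (V (S L L) (U (S L L) L)))))))
noncomputable def w2_14 : Tr := (U (F 1 (V (F 261 (S (T (F 8 (U L L)) (F 2 (U (S L L) (T L (F 8 (S L L)))))) (T (U (V (F 8 (U (F 1 (T L L)) (F 1 (S L (T L L))))) (S (K 5) L)) (F 64 (V (F 4 (S (T L L) (V (T L L) (S L L)))) (S L L)))) (V (S (F 10 (U (S L L) (T L L))) (U (U L (T L L)) (T (F 72 (S L L)) L))) (F 2 (U (S L L) (T L (S L L)))))))) (F 128 (S (K 5) (F 256 (U (K 2) (T (F 65 (V L (K 4))) (V (F 64 (U L L)) (S (K 2) L))))))))) (F 1 (V (F 257 (T (F 128 (S (F 8 (V (F 32 (S L (V (S L L) L))) (F 2 (S L L)))) (F 1 (V (F 8 (U (S (T L L) (V (S L L) L)) (S (S L L) (V L L)))) (S L (T (F 8 (S L L)) L)))))) (S (F 2 (V (F 18 (U (S L (S L L)) (S L L))) (U L (S L L)))) (F 64 (V (S (F 40 (T (S L L) L)) (T (F 9 (S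 L L)) (F 32 (S L L)))) (F 32 (U (S (S L L) (S L L)) (S L (S L L))))))))) (F 128 (T (F 386 (S (V L L) (U (V L L) (V (S L L) (V L L))))) (S (V (F 2 (U L L)) (U L (S L L))) (F 256 (V (F 64 (S (U L L) (U (T L L) L))) (U (S L L) (T L (S L L)))))))))))
noncomputable def w2_15 : Tr := (V (F 9 (V (F 1 (S (V (T (U (S (S L L) (S L L)) (S L L)) (U (V (S L L) (S L L)) (S (S L L) (S L L)))) (T (U (S L L) (S L L)) (U (S (S L L) (S L L)) (S L L)))) (V (T (U (S (S L L) L) (F 16 (S L L))) (U (V (S L L) (S L L)) (S (S L L) (S L L)))) (T (U (S (S L L) (S L L)) (S L L)) (U (V (S L L) L) (S L L)))))) (S (U (T (V (F 1 (S L L)) (T L L)) (F 1 (U L (V (S L L) L)))) (V (F 1 (T (S L L) (S L L))) (T (S L L) (F 1 (S L L))))) (U (T (S (V (S L L) (U L L)) (V (S L L) (U L L))) (F 1 (U (S L (T L L)) (V L L)))) (V (T (F 1 (S L L)) (F 1 (S L L))) (T (S L L) (F 1 (S L L)))))))) (V (U (S (S (K 1) L) (F 1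 (T (S L L) L))) (V (F 1 (T (F 16 (V (U (S L L) (S L L)) L)) (F 1 (S L (S L L))))) (S L (F 1 (S L L))))) (U (S (K 1) L) (S (S L L) (T L (S L L))))))
noncomputable def w2_16 : Tr := (S (U (V (F 9 (V (F 1 (S (V (U (T L (S L L)) (T (S L L) (S L L))) (U (S L L) (T L (S L L)))) (V (U (T (S L L) (V (S L L) L)) (T (S L L) (S L L))) (U (T (S L L) (S L L)) (T (S L L) (S L L)))))) (U (S (F 1 (S (K 0) L)) (V (F 1 (S L L)) (S (K 5) L))) (F 1 (S (S L L) (V (T L (S L L)) L)))))) (U (K 1) (V (V (F 9 (S L L)) L) L))) (V (F 137 (V (S (V (U (S L L) (S L L)) (U (S L L) (S L L))) (V (T (F 1 (S L L)) (U (S L L) L)) (U (S (S L L) (S L L)) (S L L)))) (S (V (U (S L L) L) (S L L)) (V (U (S L L) L) (S L L))))) (U (V (S L (V L (S L L))) (S L L)) (V (F 128 (S L (S L L))) (S L L))))) (U w2_15 (V (F 9 (V (F 1 (S (V (T (F 16 (U (S L L) L)) (U (S L L) (S L L))) (U (T (S L L) (S L L)) (T L L))) (V (T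 (F 16 (U (S L L) L)) (U (S L L) (S L L))) (U (T (S L L) (S L L)) (T L L))))) (S (F 1 (V (U (S L L) (S L L)) (T (S L L) L))) (V (F 1 (U (T L L) (S L L))) (T (F 1 (S L L)) L))))) (V (S (U (T (S L L) L) (F 128 (S L L))) (U (T (S L L) (F 128 (S L L))) (V L (S L L)))) (S (U (S L L) L) (T (S L L) (F 128 (S L L))))))))
noncomputable def w2_17 : Tr := (U (V (F 8 (S (U (V (T (S (S L L) (S L L)) (V (U L L) (S L L))) (T (V (U L (S L L)) (S L L)) (S (S L L) L))) (V (T (S L L) (S L L)) (T (S L L) (S L L)))) (U (V (T (S (S L L) (S L L)) (V (U L L) (S L L))) (T (V (U (S L L) L) (S L L)) (S L L))) (V (T (S L L) (S L L)) (T (S L L) (U L L)))))) (U (S (T (F 8 (U L (S L L))) (V (F 8 (S L L)) (U L L))) (T (U (F 8 (S L L)) (V L L)) (U (V L L) (V (S L L) L)))) (V (S (F 8 (T (U L L) L)) (T (F 8 (U L L)) (S L L))) (S (T L L) (T L L))))) (V (F 8 (S (V (T (U (S L L) L) (U (S L L) L)) (U (S (S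 L L) (S L L)) (S L L))) (V (T (U (S L L) L) (U L L)) (U (T (S L L) L) (S L L))))) (S (U (V (T L L) (S L L)) (V (S L L) (S L L))) (U (V (T L L) (S L L)) (V (S L L) (S L L))))))
noncomputable def w2_18 : Tr := (V (F 1 (S (U (V (F 8 (U (T (S (V (U L (S L L)) L) (V (S (U L L) (S L L)) (U L (S L L)))) (S (V (V L L) L) (V (S (S L L) (S L L)) (T L (S L L))))) (S (V (S (V L L) (V L L)) (T (U L L) (S L L))) (V (T (S L L) (U (S L L) L)) (T (U (S L L) L) (S L L)))))) (S (F 8 (U L (S L L))) (U (T L L) (V (F 8 (T (S L L) L)) (T L L))))) (S (F 8 (V (V (U (T L L) (S L L)) (U (S L L) (S L L))) (U (T (V L L) L) (S L L)))) (V (F 8 (V (T (U (S L L) L) (U (S L L) L)) (U (T L (S L L)) (S L L)))) (U (V (F 8 (T (S L L) L)) (S L L)) (V L (S L L)))))) w2_17)) (U (V (U (S (K 1) (F 1 (S L (T L (S L L))))) (S (V (F 1 (S L L)) L) (V (F 1 (S (U L L) (U (S L L) (S L L)))) (S L (F 1 (S L L)))))) (S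 (V (S (K 1) L) L) (U (S L (V L L)) (T (V L L) (S L (V L L)))))) (S (U (V (S L (T L L)) (V (S L L) (F 32 (S L L)))) (V (S L (S L L)) (S (F 32 (S L L)) (U L L)))) (V (S (U (T (S L L) (S L L)) (S L L)) (T (U (S L L) L) (U L L))) (S (U (V L L) (S L L)) (U (T L (S L L)) (S L L)))))))
noncomputable def w2_19 : Tr := (V (S (U (F 64 (V (F 4 (T (S (V (S L L) (S L L)) (V (T L L) (S L L))) (S (V (S L L) (S L L)) (V (S L L) (S L L))))) (T (F 4 (S (S L L) (S L (S L L)))) (S (S L L) (T L L))))) (V (F 72 (T (F 16 (S L L)) (S L L))) (T (F 8 (S L L)) (S L L)))) (F 64 (U (V (T (F 4 (S (V (S L L) (T L (S L L))) (V (F 1 (S L L)) (T L (S L L))))) (S (F 4 (V (S L L) (S L L))) (V (F 4 (S L L)) (T L L)))) (T (S (F 4 (V (S L L) L)) (V (F 4 (S L L)) (S L L))) (S (V (S L L) L) (V (S L L) (S L L))))) (V (T (F 36 (S (S L L) (S L L))) (S L (S L L))) (T (S L (S L L)) (U (S L L) (S L L))))))) (U (S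 (S (V (T (S L L) (U L L)) (T (T L L) L)) (V (T (S L L) (U (S L L) L)) (T (T L L) (T L L)))) (S (T (V (S L L) (U (T L L) L)) (U (V (T L L) (S L L)) (V L L))) (U (T (V (S L L) (T L L)) (V (T L L) (S L L))) (V (T L L) (T L L))))) (S (V (S (S L L) (S L L)) (U (S L (S L L)) (S L L))) (V (S (T (S L L) L) (V L L)) (U (T (S L L) (S L L)) (S L L))))))
noncomputable def w2_20 : Tr := (S (V (F 1 (S (F 8 (U (T (V (S L L) L) (V (S L L) L)) (V (T (S L L) L) (T L L)))) (T (F 8 (V (U (S (S L L) L) (S L L)) (U (S L L) (S L L)))) (F 8 (V (U (S L L) L) (U (S L L) L)))))) (U (F 1 (S (S L L) (V (T L (S L L)) L))) (F 1 (S (T L (S L L)) (T (V (S L L) L) (V L L)))))) (F 1 (V (S (V (F 8 (T (U (S L L) (S L L)) (U (S L L) L))) (T (F 8 (U (S L L) (S L L))) (U (S L L) (S L L)))) (U (V (F 8 (T (S L L) (S L L))) (T (F 8 (S L L)) (S L L))) (V (T (F 8 (U L L)) (S L L)) (T (S L L) (S L L))))) (S (U (T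 (U (S L L) (V L L)) (U (T L L) (V L L))) (T (V (S L L) L) (V (S L L) L))) (T (U (V (S L L) (U L L)) (V (S L L) L)) (U (S (V L (T L L)) (V L (T L L))) (V L L)))))))
noncomputable def w2_21 : Tr := (V (F 2 (U (T (F 1 (S (F 2 (S (K 1) L)) (F 64 (T (V (S L L) L) (F 16 (S L (V L L))))))) (F 64 (S (T (S L L) (V L (S L L))) (F 32 (S (U (F 1 (T L L)) (F 1 (T (S L L) L))) (F 1 (T (V (S L L) (U L L)) (V (T L L) L)))))))) (S (T (F 1 (V (F 64 (U L (S L L))) (F 2 (S L L)))) (F 64 (S (V (F 32 (U L L)) L) (F 64 (V (F 1 (T L (S L L))) (S L L)))))) (F 1 (T (S (V (F 64 (T (S L L) (F 16 (S L L)))) (F 2 (S L L))) (F 64 (V (T (S L L) (S L L)) (T L (F 16 (S L L)))))) (F 66 (S (V (U (S L L) (S L L)) (S L L)) (T (U (S L L) (S L L)) (U L L))))))))) (F 4 (T (F 64 (S (U (K 4) (F 64 (S L (T (S L L) L)))) (F 64 (U (S (T (T L L) L) (T (V L (T L L)) (V (U L (S L L)) (S L L)))) (S (T (S L L) (V L L))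 (T (S L L) (V L L))))))) (S (V (F 64 (S L (U L L))) (S L (F 64 (T L L)))) (F 64 (U (T (F 64 (S (S L L) (V (S L L) (S L L)))) (S (S L L) (F 64 (V L L)))) (F 64 (T (S (S L L) (V L L)) (S (S L L) (S L L))))))))))
noncomputable def w2_22 : Tr := (T (F 385 (S (V (U (S (F 4 (V (U (S L L) L) (S L L))) (V (F 4 (T (S L L) L)) (T L L))) (S (F 4 (S L L)) (V L (T L L)))) (S (U (T (S L L) L) (S L L)) (U (T (S L L) (S L L)) (S L L)))) (V (U (V (T (F 4 (S (S L L) L)) (S L L)) (S (T L L) (T L L))) (S (T (S L L) (S L L)) (V (S L L) (T L L)))) (S (T (U (S L L) L) (U (S L L) L)) (T (U (S L L) (S L L)) (U (S L L) L)))))) (F 1 (S (F 2 (V (S (T (F 64 (V L L)) (S L L)) (F 64 (U (T (S L L) L) (S L L)))) (U (F 2 (T (F 1 (S L L)) (S L L))) (S L (F 64 (S L L)))))) (F 3 (V (S (T (V L (S L L)) (S L L)) (T (V L L) (S L L))) (U (T (S (S L L) (S L L)) (F 2 (S (S L L) (S L L)))) (S (S L L) (S L (S L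 L)))))))))
noncomputable def w2_23 : Tr := (U (F 3584 (V (F 130 (T (F 1 w2_20) (F 1 (S (V (U (T (F 1 (S (F 8 (V (S L L) L)) (V (F 8 (S L L)) (S L L)))) (S (F 32 (V L (S L L))) (V (F 1 (S L L)) (F 32 (S L L))))) (S (T (F 8 (V L L)) (F 32 (S L L))) (F 1 (T (V L L) (S L L))))) (F 32 (U (S (T L L) (T (F 32 (S L L)) (U (S L L) L))) (S (T L (S L L)) (F 32 (T (S L L) (S L L))))))) (T (F 1 (V (S (U (V (S L L) (S L L)) (V L L)) (V (U L L) (U (S L L) L))) (S (U (U (F 2 (S L L)) (S L L)) (V L L)) (U (V (S L L) (F 2 (U L L))) (V L L))))) (V (S (U (F 1 (V L L)) (F 1 (S L L))) (F 1 (V (S L L) (U L L)))) (F 32 (U (F 32 (S (V L (U L L)) (V L (U L L)))) (F 32 (S (S L L) (S L L))))))))))) (F 512 w2_21))) (F 1536 (V (F 260 w2_22) (F 1026 (S (T (F 258 (S (F 32 (U (V (U L L) (S L L)) (V L (T L L)))) (V (U (T (S L L) (F 32 (S L L))) (S L L)) (F 32 (T (S L L) (S L L)))))) (F 4 (S (F 64 (V (T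 (F 64 (S L L)) (S L L)) (T (F 64 (U L L)) L))) (F 65 (V (T (S L L) (S L L)) (T (S L L) L)))))) (F 258 (T (V (U (S (T (S L L) (F 32 (S L L))) (F 1 (T L (S L L)))) (S (V (F 1 (S L L)) L) (S (S L L) L))) (F 32 (S (T (U (S L L) L) (V L L)) (T (V L (S L L)) (U (S L L) L))))) (F 32 (V (S (T (U (S L L) L) (S L L)) (F 32 (T (S L L) (S L L)))) (S (T (V L L) (S L L)) (T (V (S L L) L) (S L L))))))))))))
noncomputable def w2_24 : Tr := (V (S (U (F 64 (T (F 1 (V (S (F 8 (S L L)) (T L L)) (U (S L (S L L)) (S L L)))) (V (F 1 (U (S L L) (S L L))) (S L L)))) (F 128 (T (F 1 (V (S L L) L)) (F 1 (S L L))))) (F 192 (U (T (V (S (T (S L L) L) (T (S L L) L)) (U (T (S L L) (S L L)) (S L L))) (V (U (T (S L L) (S L L)) (S L L)) (S (S L L) (S L L)))) (T (V (U (S L L) L) (S L L)) (S (S L L) (S L L)))))) (U (S (T (F 128 (V (S L (S L L)) (F 32 (S L (U (S L L) L))))) (F 2 (V (S (S L L) L) (U (S L L)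 L)))) (F 128 (T (V (S (T L L) (T L L)) (F 32 (U (S (S L L) (S L L)) (S L L)))) (F 32 (S (V (S L L) (U (S L L) L)) (V (S L L) (U (S L L) L))))))) (F 128 (S (V (T (S L L) L) (F 32 (T (S L L) (S L L)))) (T (V (S L L) (S L (S L L))) (F 32 (V L (S L L))))))))
noncomputable def w2_25 : Tr := (U (F 65536 (S (F 12320 (T (F 14356 w2_13) (F 3 (U (F 28 w2_14) (F 8216 (V (F 2 (S (F 4 (U (F 256 (V (F 18 (T (F 32 (S L L)) (F 2 (S L L)))) (F 64 (T L (S L (S L L)))))) (F 256 (S (F 80 (T L L)) (T (F 1 (S L L)) L))))) (F 1 (U (F 128 (T (F 1 (V (F 72 (S L (S L L))) (U (S L L) (S L L)))) (S (F 64 (V L L)) (F 2 (V (T L L) L))))) (F 128 (T (F 1 (V L L)) (V L L))))))) (F 260 (U (S (T (F 131 (V (S L L) L)) (V (F 129 (S L L)) (S L L))) (T (F 131 (V (S L L) (S L L))) (V (F 129 (S L L)) (S L L)))) (F 1 (S (F 2 (V (S L L) (T L L))) (F 2 (V (T L L) (T (F 1 (S L L)) (S L L)))))))))))))) (F 274432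 (T (F 37888 (U (F 519 (T (F 2 w2_16) (F 3 w2_18))) (F 6663 w2_19))) (F 1025 (U (F 1 w2_23) (F 10269 w2_24))))))) (F 122979 (S (F 2053 (T (F 258 (U (V (F 8 (S (F 1 (V L L)) (U (V L L) L))) (S (F 64 (S L L)) (U (S L L) L))) (F 64 (V (F 4 (S L L)) (S L L))))) (F 2 (U (V (S (T L L) (T (F 1 (S L L)) (S L L))) (S (T (F 1 (S L L)) L) (U (T (F 1 (S L L)) L) L))) (S (F 128 (S L L)) (F 1 (S L L))))))) (F 519 (T (F 1 (U (V (S (U (V (F 9 (S L L)) (S L L)) (F 64 (S L L))) (F 1 (U (V (T L (S L L)) (S L L)) (F 1 (S L L))))) (S (U (V (S L L) (S L L)) L) (U (T (F 64 (S L L)) (S L L)) (F 64 (S L L))))) (F 64 (S (V (S L L) L) (V (S L L) L))))) (F 1 (U (V (S (T (S L L) L) (F 1 (T (V L L) (S L L)))) (S (U (T (S L L) L) L) (U (T (S L L) (S L L)) (S L L)))) (S (S L L) (T L L)))))))))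
noncomputable def w2_26 : Tr := (V (F 64 (S (F 128 (V (T (S (K 3) L) (S L (S L L))) (T (U (K 3) (S L L)) (F 64 (U (S L L) (V L (F 9 (S L L)))))))) (T (F 128 (V (S (T L L) (S L L)) (U (S L L) (V (S L L) (F 16 (S L L)))))) (V (U (F 128 (T L L)) (F 128 (S L (S L L)))) (U (F 144 (S L L)) (F 128 (S (F 64 (T L L)) (F 16 (S L L))))))))) (F 32 (S (F 149 (T (V (U L (S L L)) (F 2 (U (S (S L L) (T L L)) (S (T L L) (T L L))))) (U (T (V L (S L (F 2 (S L L)))) (V (S L L) (S (V L L) (V L L)))) (V (S (T L L) (T L (S L L))) (T (S L (S L L)) (S (S L L) (S L L))))))) (T (F 144 (V (U (S L (S L L)) (S (F 128 (S L L)) (T L L))) (F 32 (S (F 33 (U (T L (S L L)) (T L L))) (F 32 (U (F 32 (T (S L L) (S L L))) (F 32 (S L L)))))))) (F 5 (U (F 4 (V (F 4 (S (T L (S L L)) (T L L))) (S (F 4 (T (S L L) (S L L))) (T (F 4 (S L L)) (F 4 (S L L)))))) (F 4 (V (F 4 (S (T L L) (S L L))) (S (F 4 (T L L)) (T L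 L))))))))))
noncomputable def w2_27 : Tr := (U (F 1024 (U (F 512 w2_26) (F 256 (V (F 68 (S (T (V (V L (U L L)) (U (S L L) (S L L))) (V (T (U L L) (F 4 (S L L))) (F 4 (S (F 128 (T L L)) (S L L))))) (T (V (S (U L L) (T L L)) (S (T L L) (T L L))) (V (S (T L L) (T L L)) (S (F 4 (S L L)) (S L L)))))) (F 32 (S (F 149 (T (V (U (S L (S L L)) (S L L)) (F 2 (U (S (S L L) (S L L)) (S L L)))) (T (V (U (S L L) L) (S L (S L L))) (V (U (S L L) L) (U (S L L) (S L L)))))) (F 128 (T (F 16 (V (S (F 1 (T L L)) (U (S L L) L)) (F 5 (U (S (F 2 (S L L)) L) (S L L))))) (F 320 (V (F 4 (S (S L L) (S L L))) (T (F 4 (U (S L L) L)) (U (S L L) L)))))))))))) (F 1036 (V (F 16 (S (U (T (V (S L L) (S L L)) (V (S L L) (F 256 (S L L)))) (T (V L L) (V (S L L) L))) (T (V (U (T L L) L) (U (S L L) L)) (U (S (T L L) (T L L)) (V L L))))) (T (U (F 16 (S (F 256 (V (T L L) (F 10 (S L L)))) (F 272 (V (S L L) (F 2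 (S L L)))))) (F 1 (S (F 160 (S L L)) (F 16 (S L L))))) (F 33 (U (F 64 (S (V (F 4 (S L L)) (T L (S L L))) (V (F 4 (S L L)) (S L L)))) (S (F 80 (S L L)) (S L L))))))))
noncomputable def w2_28 : Tr := (U (F 512 (S (F 8 (V (F 4 (V (T (F 64 (S L L)) (F 64 (S (V L L) (S L L)))) (F 65 (U (F 16 (S (S L L) (S L L))) (S (V (S L L) (F 16 (T L L))) (F 16 (T L L))))))) (F 584 (U (F 16 (V (S (T (S L L) (V (T L L) L)) (T (S L L) (S L (S L L)))) (T (S (V L L) (T L L)) (S (V L L) (S L L))))) (F 16 (V (T (S (S L L) (S L L)) (S (V L L) L)) (T (S (S L L) L) (S (S L L) L)))))))) (V (F 264 (V (S (T (S L L) (S L L)) (T (S L L) L)) (F 32 (U (S (F 32 (T L L)) (T L L)) (T (F 32 (S L L)) (F 32 (S L L))))))) (F 16 (U (F 512 (S (F 96 (V (F 16 (T (S L L) (T L L))) (T (F 16 (S L L)) (F 16 (S L L))))) (F 64 (V (F 32 (T L L)) (F 4 (T (S L L) L)))))) (F 524 (V (F 4 (S (T L L) (S L L))) (T (S L (S L L))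 (S L L))))))))) (F 512 (V (F 264 (S (F 4 (V (S (T L L) (T L L)) (F 1 (S (T L (S L L)) (T L L))))) (V (S (F 4 (S L L)) L) (T (F 4 (S L L)) (F 36 (S L L)))))) (F 145 (S (F 4 (T (F 4 (S (V (U L L) (S L L)) (V L (V L L)))) (U (F 4 (V (S L L) (S L L))) (F 4 (V L L))))) (F 4 (V (F 4 (S (T L L) (S L L))) (T (U (S L L) (S L L)) (S (V L L) L)))))))))
noncomputable def w2_29 : Tr := (S (F 16 (V (F 513 (V (F 128 (S (F 4 (T (V L (U L L)) (F 1 (U (S L L) L)))) (T (T L L) (V (S L L) L)))) (F 72 (U (F 132 (S (T (V L L) (U (F 2 (S L L)) L)) (T (S L L) (S L L)))) (F 128 (S (F 16 (T (S L L) (F 16 (S L L)))) (T (F 16 (S L L)) (S L L)))))))) (F 2192 (V (F 258 (U (T (F 4 (S (S (T L L) (T L L)) (U (S L L) L))) (S (F 36 (T L (S L L))) (T (F 4 (V L L)) (S L L)))) (F 4 (S (V (T (S L L) L) (F 2 (S L L))) (T L L))))) (U (F 2 (S (F 8 (T (F 64 (V L L)) (F 2 (S L L)))) (F 1 (T (F 16 (S L L)) (F 2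 (S L L)))))) (F 34 (T (F 1 (S L L)) (F 32 (S L L))))))))) (F 4100 (V (F 128 (V (F 128 (S (T (S L L) (V L L)) (T L L))) (F 8 (S (T (F 4 (U L L)) (U L L)) (T (F 4 (S L L)) (U (S L L) L)))))) (F 1088 (V (F 4 (S (F 8 (T (U (F 16 (S L L)) L) (U (S L L) L))) (T (U L L) (U (S L L) L)))) (F 32 (U (S (T (F 32 (S L L)) (F 32 (S L L))) (T (S L L) (S L L))) (T (S L L) (S (F 32 (S L L)) L)))))))))
noncomputable def w2_30 : Tr := (U (F 1024 (T (F 4096 w2_28) (U w2_29 (F 4 (S (F 24 (V (F 520 (V (S (F 128 (T L L)) (T L L)) (F 144 (S (T (S L L) L) (U (S L L) L))))) (F 17 (S (F 64 (T (F 2 (V L (S L L))) (F 2 (V L (V L L))))) (F 1 (V (F 4 (T L L)) (U (T L L) L))))))) (F 1 (V (F 8 (V (S (T L L) (S L L)) (F 64 (S (F 97 (U L L)) (U (S L L) L))))) (F 17 (T (F 8 (V (F 4 (S L L)) (S L (S L L)))) (V (S (F 64 (S L L)) (S L L)) (S (F 8 (S L L)) L))))))))))) (F 2048 (V (F 4096 (U (S (F 652 (T (V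 (U (S L L) L) (F 1 (S L L))) (S (F 5 (T L (S L L))) (T (S L L) L)))) (T (F 140 (V (T L L) (F 4 (S L L)))) (F 512 (T (F 264 (S L L)) (F 8 (S L L)))))) (F 640 (S (F 192 (T (V L L) (F 128 (T L L)))) (T (F 192 (S L L)) (S L L)))))) (F 37 (S (F 24 (T (F 4 (U (F 1 (V (S L L) (T L L))) (S L L))) (F 4 (U (V (F 1 (S L L)) (S L L)) (S L L))))) (F 1 (T (F 96 (U (S (T L L) (S L L)) (S L L))) (U (V (F 4 (S L L)) (F 32 (S L L))) (S L L)))))))))
noncomputable def w2_31 : Tr := (U (F 8 (V (F 16 (V (F 1 (S (T (F 128 (V L L)) (S L (S L L))) (T (S (F 128 (V L L)) (F 128 (V (S L L) L))) (S (U L L) (V L L))))) (S (U (F 36 (T (F 128 (S L L)) (S L L))) (F 4 (S (T L L) (F 272 (T L L))))) (F 33 (U (T (F 64 (S (S L L) (S L L))) (S L L)) (F 64 (V (S L L) (T L L)))))))) (F 32 (S (V (F 32 (U (F 64 (S (T L (S L L)) (T L L))) (F 64 (S (T L L) (T L L))))) (F 512 (S (F 192 (T (F 8 (U (S L L) L)) (F 32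 (S L L)))) (F 128 (U (F 2 (T (F 8 (S L L)) L)) (F 2 (T L L))))))) (V (F 1 (T (F 16 (U (F 2 (S L L)) (F 3 (S L L)))) (U (F 16 (S L L)) (F 128 (S L L))))) (U (S (F 2 (T (F 384 (S L L)) (F 1 (S L L)))) (F 3 (T (F 128 (S L L)) (S L L)))) (F 4 (S (T (F 128 (S L L)) L) (F 256 (T L L)))))))))) (F 12 (V (F 16 (S (V (S (T L L) (F 1 (T L L))) (T (S (S L L) (S L L)) (S (S L L) L))) (F 1 (V (T (S L L) (S L L)) (F 16 (T (F 1 (S L L)) (S L L))))))) (F 32 (S (V (F 16 (T (V (F 128 (S L L)) L) (S L L))) (F 256 (T (S (F 8 (S L L)) (F 128 (S L L))) (U (S L L) L)))) (V (U (T (F 19 (S L L)) (S L L)) (F 1 (S L L))) (T (F 3 (S L L)) (S L L))))))))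
noncomputable def w2_32 : Tr := (V (F 1024 (U (F 136 (S (V (T (U (S L L) (F 128 (S L L))) (S (S L L) L)) (F 16 (U (S (T L L) (T L L)) (T (F 4 (S L L)) (S L L))))) (F 512 (V (U (T (S L L) (S L L)) (S (S L L) (S L L))) (F 16 (T (S L L) (S L L))))))) (S (F 136 (S (F 128 (V (S L L) (T L L))) (V (S L L) (F 16 (T L L))))) (F 8 (V (F 1040 (T (S L L) L)) (F 32 (U (F 33 (T L L)) (S L L)))))))) (F 288 (S (U (F 4 (S (F 4 (V (F 32 (U (T L L) (F 32 (S L L)))) (F 256 (U (F 32 (T (S L L) (S L L))) (T L L))))) (T (V (F 16 (U L L)) (F 4 (U (F 256 (S L L)) L))) (F 4 (V L (F 256 (U (S L L) L))))))) (V (F 4 (S (F 148 (S L L)) (S L L))) (F 1280 (T (F 96 (S L L)) (F 32 (S (F 4 (S L L)) L)))))) (F 4 (U (V (S (T (T L L) (F 4 (S L L))) (F 512 (T L L))) (F 4 (U (T (S (S L L) L) (S L (S L L))) (T (F 256 (S L L)) (F 256 (S L L)))))) (V (T (S L L) (S L L)) (T (F 1 (S L L)) (F 5 (S L L)))))))))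
noncomputable def w2_33 : Tr := (T (F 1 (U (V (F 132 (V (S (V L (F 20 (S L L))) (T L L)) (F 20 (T (S (U L L) L) (S L L))))) (F 576 (V (F 128 (S (T (F 32 (U L L)) (F 32 (U L L))) (T (S L L) (S L L)))) (F 1 (T (U (F 4 (S (F 32 (S L L)) (S L L))) (S L L)) (U (S L L) (S (S L L) L))))))) (V (F 128 (V (F 256 (T (S L L) L)) (F 20 (S L (F 4 (S L L)))))) (F 576 (S (F 129 (V (S L L) (T L L))) (V (T L L) (F 1 (S L (S L L))))))))) (F 9 (U (V (T (F 128 (V (F 128 (S (S L L) L)) (F 8 (S L (F 4 (S L L)))))) (F 192 (S (V (F 64 (S L L)) (S L L)) (V L (S L L))))) (F 64 (V (U (S (F 1 (T L (S L L))) (T (S L L) (F 1 (S L L)))) (F 1 (S (T L L) (S L L)))) (F 1 (S (U (T (S L L) (S L L)) (T (S L L) (S L L))) (U (T (S L L) (S L L)) (T L L))))))) (V (V (F 128 (T L (F 8 (S L L)))) (F 64 (S (F 8 (T L L)) (T L L)))) (F 1088 (S (T (V L L) (V L L)) (T (V L L) (V L L))))))))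
noncomputable def w2_34 : Tr := (T (F 8208 (U (V (F 512 (V (F 64 (T (F 512 (S L L)) (F 16 (S L L)))) (F 32 (T (F 16 (S L L)) (F 4 (S L L)))))) (F 36 (V (S (F 4 (U (T L L) (S L L))) (F 4 (U (T L L) (S L L)))) (U (T (S L L) (F 512 (S L (S L L)))) (F 512 (T (S L L) (S L L))))))) (V (F 512 (V (F 64 (T (F 512 (S L L)) L)) (F 32 (U (S L L) (S L L))))) (F 36 (S (V (T L L) (F 512 (S (S L L) (T L L)))) (T (V L L) (V L L))))))) (F 144 (U (F 8 (V (V (F 64 (S (F 128 (S L L)) (F 128 (S L L)))) (F 1024 (S (T L (S L L)) (T L L)))) (F 1024 (S (T (U (V (S L L) (F 1 (S L L))) (F 1 (S L L))) (V (U (S L L) L) (F 1 (U L L)))) (T (U (V (S L L) (F 1 (S L L))) (V L L)) (U (V (S L L) L) (F 1 (S L L)))))))) (F 1 (V (V (S L L) (F 256 (U (T L L) (S L L)))) (F 256 (S (F 1 (T (S L L) (S L L))) (T (T L L) (F 1 (S L L))))))))))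
noncomputable def w2_35 : Tr := (T (F 8193 (U (F 2048 (T (F 1024 w2_31) w2_32)) (F 2068 (V (T (F 272 (U (S (V (F 1 (T (S L L) L)) (S L L)) (F 1 (V (T (F 128 (S L L)) L) (S L L)))) (S (V L L) (F 1 (V L L))))) (S (F 272 (U (V (S L L) (S L L)) (S L L))) (F 1024 (U (T (F 32 (S L L)) L) (S L L))))) (F 32 (S (T (F 4 (U (V (F 16 (S L L)) (F 1 (T (F 2 (S L L)) (S L L)))) (S L L))) (F 4 (U (V (S L L) (F 5 (S L L))) (S L L)))) (T (F 5 (U (V (S L L) (F 128 (V (S L L) (F 64 (S L L))))) (S L L))) (U (V (T L L) (F 512 (S L L))) (S L L))))))))) (U (F 8200 (S (F 16 w2_33) w2_34)) (F 9 (S (F 4 (V (U (F 256 (T (F 132 (V (S L L) L)) (F 512 (V (F 8 (S L L)) (F 16 (S L L)))))) (F 256 (T (F 4 (S L L)) (S L L)))) (F 292 (T (F 512 (U (V (F 64 (S L L)) (S L L)) (S L L))) (F 512 (U (S (T L L) (T L L)) (S L L))))))) (F 4 (V (U (T (U (F 1280 (S L L)) (F 1280 (S L L))) (F 288 (S L L))) (T L (S L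 L))) (F 292 (T (U (V (S L L) (F 512 (S L L))) (S L L)) (U (S (F 512 (S L L)) (T L L)) (F 512 (S L L)))))))))))
noncomputable def w2_36 : Tr := (V (F 16 (T (F 706 (S (V (F 8 (U (T (S L L) (S L L)) (T (S L L) (S L L)))) (U L (S L L))) (U (S (V (T L (F 8 (S L L))) L) (V (T (V L L) (V L L)) (T L L))) (V (S (T L (S L L)) (T (S L L) (S L L))) (T (S L L) (S L (S L L))))))) (S (F 192 (V (F 1 (T (F 10 (U (S L (S L L)) (S L L))) (F 8 (U (F 16 (S (S L L) (S L L))) (F 16 (S L L)))))) (U (T L (S L L)) (T (F 64 (S L L)) (S L L))))) (F 514 (U (F 4 (V (T (F 32 (S (S L L) (S L L))) (S (F 32 (S L L)) (F 32 (S L L)))) (F 32 (T (S L (S L L)) (S L L))))) (F 4 (V (T (F 32 (S L L)) (S L L)) (F 32 (T (S L L) (S L L)))))))))) (F 4 (T (F 128 (V (S (U (K 3) (S L L)) (F 1 (U (S L L) (V (F 66 (S L L)) L)))) (S (S (K 3) L) (T L (S L L))))) (S (F 128 (V (U (S L L) (V (F 4 (S L L)) (S L L))) (T (S L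 L) (T L L)))) (V (U (F 192 (S L L)) (F 128 (T (F 1 (S L L)) (F 4 (S L L))))) (U (F 128 (S L L)) (F 128 (T L (S L L)))))))))
noncomputable def w2_37 : Tr := (U (F 4096 (U (F 128 w2_36) (F 256 (V (F 16 (T (F 706 (S (V (F 8 (U (T (S L L) (S L L)) (S L L))) (U (T L (S L L)) (S L L))) (S (V (T L (S L L)) (U (S L L) L)) (V (U (T L L) (S L L)) (U (S L L) L))))) (F 64 (S (F 4 (V (F 130 (U (T (F 8 (S L L)) L) (S L L))) (T (F 2 (S L L)) (U (S L L) L)))) (F 129 (V (S (F 32 (U (T L L) L)) (U (S L L) L)) (F 32 (T (S L L) (S L L))))))))) (F 12 (T (S (V (U (S L L) (S L L)) (V (U L L) L)) (V (F 256 (T (F 64 (S L L)) (S L L))) (S (U L L) (F 256 (S L L))))) (S (V (T (S L L) (S L L)) (T (U L L) (S L L))) (V (T (F 256 (S L L)) (S L L)) (T (S L L) (S L L)))))))))) (F 4120 (V (S (U (F 128 (T (F 128 (V (F 160 (S L L)) (S L L))) (F 132 (V (F 64 (S L L)) (S L L))))) (F 2 (T (F 5 (S L L)) (F 8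 (S L L))))) (F 66 (U (F 1 (T (V (S L (S L L)) (F 32 (S L L))) (V (S L L) (F 32 (S L L))))) (T (F 5 (S L L)) (S L L))))) (F 128 (T (U (S (V (S L L) (S L L)) (V (F 128 (S L L)) (T L L))) (S (V L L) (V L (S L L)))) (S (V (U (S L L) L) (U (S L L) L)) (U (T (S L L) (S L L)) (V L L))))))))
noncomputable def w2_38 : Tr := (U (F 8 (V (F 64 (T (V (F 256 (T (F 36 (S (F 4 (U (T L L) L)) (F 1 (S L L)))) (F 4 (U (F 8 (S (F 16 (S L L)) L)) (F 8 (S L L)))))) (F 4 (U (F 64 (T (S L (S L L)) (S L L))) (F 64 (T (S L L) (S L L)))))) (V (U (T (F 64 (S (F 36 (S L L)) (F 2 (S L L)))) (F 192 (S (F 16 (S L L)) (S L L)))) (F 8 (T (S (F 8 (S L L)) L) (F 4 (S L L))))) (F 128 (S (F 64 (U (F 4 (T L L)) (F 36 (T L L)))) (U (F 64 (T L L)) (F 32 (S L L)))))))) (F 256 (V (T (U (F 12 (S (F 4 (T L L)) (S L L))) (F 4 (T (S L L) (F 68 (S L L))))) (F 136 (U (S (F 32 (T (S L L) (S L L))) (T L L)) (F 32 (V (S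 L L) (S L L)))))) (F 128 (T (S (F 64 (V L L)) (T L (T L L))) (S (T (F 64 (V L L)) (F 64 (V L (S L L)))) (T (U L L) (V L L))))))))) (F 24 (V (F 64 (T (V (F 128 (S (T (F 32 (S L L)) (F 2 (S L L))) (U (T L L) L))) (F 4 (S (V L (F 4 (S L L))) (T L L)))) (V (S (F 96 (T L L)) (T L L)) (U (S (F 100 (T L L)) (S L L)) (F 64 (S L L)))))) (F 128 (T (V (S (T (S L L) (S L L)) (T (S L L) L)) (T (S L L) (F 64 (S L L)))) (F 64 (V (F 32 (S (F 16 (T L L)) (S L L))) (S (T L L) (T L L)))))))))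
noncomputable def w2_39 : Tr := (V (F 576 (T (U (F 16 (T (F 512 (V (F 128 (U (F 32 (S (S L L) (S L L))) (S L L))) (F 2 (U (S L L) (F 64 (S L L)))))) (S (V (F 512 (U (F 128 (S L L)) L)) (F 128 (U L L))) (F 512 (V (F 128 (U (S L L) L)) L))))) (V (F 513 (S (F 96 (T L L)) (F 64 (T (F 4 (S L L)) L)))) (F 16 (T (F 704 (S L L)) (S L L))))) (F 16 (U (V (F 512 (U (S (T (S L L) L) (T L (S L L))) (S (F 128 (S L L)) (F 128 (S L L))))) (T (S (S L L) (F 512 (S L L))) (F 4 (S L L)))) (V (S (F 2 (T L L)) (F 514 (T L L))) (S (T L L) (S L L))))))) (F 128 (U (F 12 (T (V (F 64 (U (T (S L L) (S L L)) (S (F 4 (T L L)) (S L L)))) (S (U (S L L) (F 128 (S L L))) (T (S L L) L))) (F 4 (V (F 8 (S (T L L) (S L L))) (U (S (T L L) (S L L)) (T (S L L) (S L L))))))) (T (F 12 (T (F 128 (V (S L L) (S L L))) (V (F 64 (S L L)) (S L L)))) (F 8 (V (F 64 (U (F 132 (S L L)) (S L L))) (F 260 (S (S L L) L))))))))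
noncomputable def w2_40 : Tr := (U (F 1 (T (F 2 (V (F 322 (U (F 2 (V (S (T (V L L) (S L L)) (T (V L L) (S L L))) (T (S (S L L) (V L (S L L))) (S (S L L) (T L (S L L)))))) (F 2 (V (S (T (S L L) L) (T (S L L) L)) (S (T (T L L) (S L L)) (T (V L L) L)))))) (F 128 (V (F 130 (U (F 32 (T (S L L) (S L L))) (T (V (F 32 (S L L)) (S L L)) (F 32 (S L L))))) (S (F 2 (T L L)) (F 2 (T (V L L) (S L L)))))))) (V (F 16 (U (F 2 (T (F 12 (V (S (F 32 (S L L)) (F 32 (S L L))) (F 32 (S (S L L) (S L L))))) (F 8 (V (F 32 (S (S L L) L)) (F 64 (S L L)))))) (F 194 (V (S (T L (S L L)) (T L L)) (F 2 (T (S L L) (S L L))))))) (F 10 (V (F 64 (U (T (F 2 (S L L)) (S L L)) (S (F 2 (T L L)) (F 2 (T L L))))) (T (S (S L L) (S L L)) (S (T L L) L))))))) (F 1 (V (F 532 (T (F 32 (S (F 2 (T (V (S L L) (U L L)) (V (V L L) L))) (U (F 2 (V (T L L) (T L L))) (F 2 (V L L))))) (F 32 (V (S (U (S L L) (S L L)) (T (V L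 L) L)) (F 2 (T (S L L) (S L L))))))) (F 10 (T (F 128 (V (F 64 (T (S L (S L L)) (S L L))) (T (S L L) (S L L)))) (V (S (F 128 (S L L)) (F 192 (S L L))) (T (F 128 (S L L)) L)))))))
noncomputable def w2_41 : Tr := (T (F 2 (V (F 1284 (V (U (F 256 (T (F 64 (S (F 32 (V L L)) (F 1 (S L L)))) (F 2 (S (F 2 (S L L)) (F 1 (S L L)))))) (F 258 (S (F 2 (T L L)) (F 64 (T L L))))) (F 320 (U (S (F 32 (T (T (S L L) (S L L)) (U (S L L) L))) (T (F 96 (S L (T L L))) (S (F 32 (V L L)) (T L L)))) (F 32 (T (V (F 1 (S L L)) (S (S L L) L)) (S L L))))))) (F 9 (V (F 10 (U (F 66 (T (S (V L L) (U (F 1 (S L L)) L)) (S (S L L) (S L L)))) (F 2 (T (F 2 (S (T L L) (F 32 (S L L)))) (S (F 2 (S L L)) (S L L)))))) (F 4 (T (F 128 (S (V (U L L) L) (F 64 (U (T L L) L)))) (S (S L L) (V L (S L L))))))))) (F 4608 (V (F 66 (V (F 4 (U (T (S (F 64 (S L L)) (F 64 (S L L))) (S (T L L) (S L L))) (S (T L L) (T (F 64 (S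 L L)) L)))) (F 2 (T (F 64 (S (U (F 2 (S L L)) L) (U (S L L) L))) (S (U L L) (U (S L L) L)))))) (F 512 (V (F 8 (T (S (F 64 (U L L)) (U L L)) (S (F 64 (S L L)) (U (S L L) L)))) (F 4 (T (S (S L L) (V L L)) (S L L))))))))
noncomputable def w2_42 : Tr := (U (F 8192 (S (F 512 w2_40) (U w2_41 (F 4096 (T (F 768 (V (F 260 (T (F 128 (S (F 1 (V (T L L) L)) (F 1 (V (V L L) L)))) (F 2 (V (U (S L L) L) (F 2 (S L L)))))) (F 130 (V (F 66 (T (S (S L L) L) (U (S L L) L))) (T (F 2 (S L L)) (S L L)))))) (F 4 (V (F 528 (S (F 64 (V (T L (S L L)) (F 2 (T L L)))) (V (T (F 64 (S L L)) L) (T (F 128 (S L L)) (S L L))))) (F 2 (V (F 64 (T (F 134 (U L L)) (U (S L L) L))) (T (S L L) (S L L))))))))))) (F 1 (V (F 2081 (T (F 192 (S (F 2 (U (F 2 (V (S L L) (S L L))) (S L L))) (F 2 (U (V (S L L) (F 2 (S L L))) (S L L))))) (F 2 (S (F 12 (U (T (S L L) (S L L)) (S L L))) (U (V (F 4 (S L L)) (F 2 (S L L)))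 (S L L)))))) (F 1024 (U (T (F 2944 (S (V (F 64 (S L L)) (U (S L L) L)) (T (F 65 (S L (S L L))) (S (S L L) L)))) (S (F 896 (V (F 1 (S L L)) (S L L))) (F 2048 (S (F 10 (T L L)) (F 2 (T L L)))))) (F 2560 (T (F 6 (S (V L L) (F 2 (S L L)))) (S (F 6 (S L L)) (S L L)))))))))
noncomputable def w2_43 : Tr := (S (F 1 (U (V (F 33 (V (F 2 (S (U (F 8 (T (F 32 (S L L)) (S L L))) (T L L)) (U (T L L) (T (S L L) L)))) (F 64 (T (S (F 2 (U L L)) (F 2 (U L L))) (S (S L L) (S L L)))))) (F 20 (V (F 576 (S (T (U L L) L) (T L L))) (T (V (F 576 (S L L)) L) (S L L))))) (V (F 33 (T (F 66 (V (S L L) (S L L))) (V (F 2 (T L (S L L))) (S L L)))) (F 4 (V (F 1088 (T L (F 4 (S L L)))) (F 128 (S (T L L) L))))))) (F 4097 (U (V (F 16 (V (F 2 (T (U (S (S L L) (S L L)) (S (S L L) (S L L))) (U (S (S L L) (S L L)) (S L L)))) (U (T (F 2 (S L (S L L))) (S (S L L) (F 2 (S L L)))) (F 2 (T (S L L) (S L L)))))) (S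 (F 2 (V (F 64 (T L (F 4 (S L L)))) (F 128 (T (S L L) L)))) (F 18 (T (V (S L L) (F 64 (S L L))) (V (S L L) L))))) (V (F 528 (T (S (V L L) (V L L)) (S (V L L) (V L L)))) (V (F 16 (T (F 256 (S L L)) (S L L))) (F 2 (S L (F 64 (S L L)))))))))
noncomputable def w2_44 : Tr := (S (F 8200 (U (V (F 2112 (V (U (S (T L L) (F 256 (T L (S L L)))) (F 256 (S (T L L) (T L L)))) (T (F 8 (U (S L L) (S L L))) (F 8 (U (S L L) (S L L)))))) (F 128 (V (F 16 (S (F 128 (S L L)) (F 512 (S L L)))) (F 4 (S (F 4 (S L L)) (F 64 (S L L))))))) (V (F 2112 (T (V (F 256 (T (S L L) (S L L))) (S L L)) (S (V L L) (V L L)))) (F 128 (V (F 16 (U (S L L) (S L L))) (F 4 (S (F 4 (S L L)) L))))))) (F 72 (U (F 2048 (V (F 1024 (T (S (U (V (F 2 (S L L)) (S L L)) (F 2 (T L L))) (V (F 2 (U L L)) (U (S L L) L))) (S (U (V (F 2 (S L L)) (S L L)) (V L L)) (U (V L (S L L)) (F 2 (S L L)))))) (V (F 1024 (T (S L (S L L)) (S L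 L))) (F 2 (T (F 128 (S L L)) (F 128 (S L L))))))) (F 1 (V (F 1 (T (F 2 (S (S L L) (S L L))) (S (S L L) (F 2 (S L L))))) (V (F 1 (U (S L L) (S L L))) (S L L)))))))
noncomputable def w2_45 : Tr := (S (F 4608 (T (F 2049 w2_37) (F 1 (U (F 8192 (S (F 128 w2_38) w2_39)) (F 8232 (V (F 64 (T (S (F 8 (U (V (F 2 (S (F 32 (S L L)) (S L L))) (F 64 (S L L))) (T L L))) (F 8 (U (V (F 258 (S L L)) (S L L)) (S L L)))) (S (F 136 (U (V (F 4 (V (F 32 (S L L)) (S L L))) (S L L)) (T L L))) (U (V (F 256 (S L L)) (S L L)) (S L L))))) (S (F 384 (U (T (V (S L L) (F 64 (S (T L L) L))) (F 64 (V (S L L) (S (F 4 (S L L)) L)))) (T (V L L) (F 64 (V L L))))) (T (F 384 (U (V (S L L) (S L L)) (S L L))) (F 4 (U (S (F 4 (T L L)) L) (S L L))))))))))) (T (F 66056 w2_42) (F 4096 (U (F 66 (T (F 8 w2_43) w2_44)) (F 3 (T (F 512 (V (F 4672 (S (F 256 (U (V (S L L) (F 32 (S L L))) (S L L))) (F 256 (U (T (S L L) (S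 L L)) (S L L))))) (U (F 512 (S (F 20 (V L (S L L))) (F 1 (V (F 64 (S L L)) (F 512 (S L L)))))) (F 512 (S (F 16 (S L L)) (S L L)))))) (F 512 (V (F 4672 (S (U (V (F 256 (S L L)) (S L L)) (S L L)) (U (T (F 256 (S L L)) (S L L)) (F 256 (S L L))))) (U (S (U (F 640 (S L L)) (F 640 (S L L))) (F 576 (T L L))) (S L (S L L)))))))))))
noncomputable def w2_46 : Tr := (V (F 528640 (U (F 8192 (S (F 8 (T (F 33793 w2_27) (F 1025 w2_30))) (F 1 w2_35))) (F 9 (S (F 128 (T (F 1792 (U (F 8 (V (F 1024 (T (F 32 (S (S L L) (S L L))) (S L L))) (F 1 (S (F 320 (T L L)) (F 1 (T L L)))))) (F 9 (T (F 17 (S L L)) L)))) (F 4 (U (F 24 (T (F 2432 (V (F 32 (S L L)) (F 272 (S L L)))) (S (F 393 (V L L)) (V L L)))) (F 8208 (T L L)))))) (F 8 (T (F 19712 (U (V (S (F 68 (T L L)) (F 1 (T (F 256 (S L L)) L))) (F 32 (S (F 128 (T L L)) (T L L)))) (T (F 4 (S L L)) L))) (U (F 18432 (T (F 16 (S (V L L) (S L L))) (F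 16 (S (F 4 (S L L)) (F 32 (S L L)))))) (F 18688 (S L L))))))))) (F 1050632 (U (F 2048 w2_45) (F 3 (S (F 72 (T (F 1536 (U (F 64 (V (F 2 (T (F 5 (S L L)) (F 256 (S L L)))) (F 4 (S (F 4 (T (S L L) (S L L))) (T L L))))) (F 576 (S (F 130 (S L L)) L)))) (F 516 (U (V (F 144 (T (F 64 (S L L)) (S L L))) (T (F 140 (S L L)) (F 640 (S (F 64 (S L L)) L)))) (F 128 (S (F 128 (S L L)) L)))))) (T (F 1 (U (F 4640 (S (F 524 (V (F 66 (S L L)) (F 128 (T L L)))) (T (F 1038 (V L L)) (V L L)))) (F 4610 (S L L)))) (F 1024 (U (F 260 (S (F 8 (T (V L L) (S L L))) (F 8 (T (F 2048 (S L L)) (F 64 (S L L)))))) (F 2308 (S L L))))))))))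
noncomputable def w2_47 : Tr := (T (F 541703 (V (F 528 (U (F 19006152 (S (F 36864 (T (F 14464 w2_0) (F 147 w2_2))) (F 135172 (T (F 130 (U (F 15 (V w2_3 (F 72 (S w2_4 (V w2_5 w2_6))))) (F 4111 w2_7))) (F 19 (U (U (F 12 (V (F 528 w2_8) (F 32 (T (F 19 w2_9) (S (F 16 (V (U (F 192 (T (V (T L L) (S L L)) (V L (S L L)))) (S (F 64 (V L (T L L))) (F 192 (T (S L L) (S L L))))) (F 64 (T (F 64 (S (U (F 32 (V L L)) (F 32 (S L L))) (F 32 (V (S L L) (S L L))))) (F 64 (U (S (V L (S L L)) (F 32 (S L L))) (F 32 (S L L)))))))) (F 1 (V (F 16 (S (F 1 (U (T (V (S L L) (S L L)) (S L L)) (V (S L L) (T L L)))) (F 1 (T (U (V (S L L) (S L L)) (V L L)) (U (V (S L L) L) (S L L)))))) (F 128 (T (F 4 (S (V (S L L) (F 1 (S L L))) (V (U L (S L L)) (S L L)))) (V (F 4 (S (S L L) L)) (F 64 (S (S L L) (S L L))))))))))))) (F 13 w2_10)) (F 13 w2_11))))))) (F 1967055 w2_12))) (F 76091656 w2_25))) (F 16841849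 w2_46))
noncomputable def treeW2 : Tr := (F 0x7ffffffffffffffffffffffffffff67ffffffffffffffffffc61fffeff0c1c307ff87ffff w2_47)

theorem pW2 : chkW par treeW2 192 64 128 128 256 256 374491 748983 Lc = true := by decide +kernel


end Pool.Agent.Lib.H56.Gen.D4
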