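import Pool.Agent.Lib.H56.Gen.D4.Par
import Pool.Agent.Lib.H56.Gen.D4.Cos

/-!
# Certificate tree W, part 1
-/

set_option maxRecDepth 100000

namespace Pool.Agent.Lib.H56.Gen.D4

open Tr

noncomputable def w3_0 : Tr := (U (V (S (T (U (S L L) (T (S L (S L L)) (S L L))) (S L (S L L))) (F 2 (U (T (S (S L L) (V L L)) (K 1)) (T (S (T (S L L) L) (V (T (F 1 (S L L)) (S L L)) (T L L))) (V (U L L) L))))) (F 4 (S (U (T (V (S L L) (S (S L L) L)) (K 1)) (T (V (S (S L L) (S L L)) (U (S (S L L) L) (T (S L L) (S L L)))) (S (V L L) L))) (F 32 (T (U (S (S L L) (T L L)) (V (T (S L L) L) (T (S (S L L) (S L L)) (S L L)))) (U (K 4) (S L L))))))) (T (S (V (T (S (T L L) (F 2 (S L L))) (S (T L L) (F 2 (S L L)))) (F 4 (T (U (S (T L L) (F 32 (S L L))) (S L L)) (U (S (V L L) (F 32 (V L L))) (S (S L L) L))))) (F 2 (V (T (U (S (S L L) (T L L)) (S L L)) (U (S (T L L) (T L L)) (S L L))) (F 32 (T (S (T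 L L) (U L L)) (U (V L (S L L)) (S L L))))))) (U (S (V (S (S L L) L) (F 4 (T (V (S L L) (U L L)) (S L L)))) (F 2 (V (T (S (T L L) (S L L)) (F 32 (S L L))) (F 32 (V (S L L) (S L (S L L))))))) (S (V (S (F 2 (T L L)) (F 2 (T L L))) (F 4 (T (F 32 (S L L)) (F 32 (S L L))))) (F 2 (V (T (S L L) (F 32 (S L L))) (F 32 (S (T L L) (T (S L L) L)))))))))
noncomputable def w3_1 : Tr := (V (F 2 (T (U (T (F 4 (U (U (V (S L L) (S L L)) (V (S L L) (S (T L L) L))) (V (S (S L L) (F 2 (S L L))) (S (S L L) (F 2 (S L L)))))) (S (F 4 (U (V L L) (V L (S L L)))) (U L (F 32 (V (S L L) L))))) (T (V (S (F 4 (S L L)) (F 32 (T L L))) (F 36 (U (S L L) (S L L)))) (V (S (F 4 (S L L)) (F 32 (T L L))) (F 4 (S (F 2 (T L L)) (F 2 (S L L))))))) (U (S (F 4 (U (T L (K 4)) (T (V L L) L))) (U L (F 32 (T L L)))) (U (T (V (S L L) (F 4 (S L L))) (S (F 64 (S L L)) L)) (F 32 (T (V L (S L L)) (V L L))))))) (F 32 (T (U (V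 (F 32 (T (S (F 2 (U (T L L) (T L L))) (F 2 (U (T (S L L) L) (T L L)))) (S (U (V L L) (F 3 (S L L))) (F 2 (U L (S L L)))))) (F 16 (T (F 2 (S (F 16 (U (T L L) (T L L))) (U (T (S L L) (S L L)) (T (S L L) L)))) (S (F 3 (U (T L L) (S L L))) (F 2 (U (S L L) (S L L))))))) (F 48 (T (V (S (F 1 (U L L)) (U (S L L) L)) (U (S (F 1 (S L L)) (S L L)) (F 1 (S L L)))) (V (S (F 1 (T L L)) (U (S L L) L)) (F 1 (U (T (S L L) L) (S L L))))))) (U (T (V (F 32 (S (F 1 (U L L)) L)) (S (F 112 (U L (S L L))) (F 16 (U L L)))) (V (F 32 (S L L)) (F 64 (S (F 3 (T L L)) L)))) (F 16 (T (F 2 (V (U (S L L) L) (F 16 (U (S L L) (S L L))))) (F 1 (V (F 16 (U L L)) (S (F 16 (T L L)) (F 16 (S L L)))))))))))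
noncomputable def w3_2 : Tr := (T (U (V (F 32 (U (T (S (V (S L L) L) (V (S L L) L)) (S L L)) (V (T (S L L) (S L L)) (S (T (F 8 (T L L)) (S L L)) (T (S L L) L))))) (V (F 32 (U (F 8 (S (T (U L L) L) (S L L))) (T (F 8 (S (S L L) (U L L))) (S L (S L L))))) (F 4 (T (U (S (F 2 (V L L)) (F 2 (U L L))) (F 2 (S (T L L) (S L L)))) (U (V L (S L L)) (S (F 2 (S L L)) L)))))) (V (F 32 (T (U (V (S (S L L) L) (S L (S L L))) (V (S L L) (S L L))) (U (V (S (S L L) L) (T (S L L) L)) (V (S L L) (S L L))))) (S (F 36 (T (V (T L L) (U (S L L) L)) (V (S L L) (T L L)))) (F 32 (V (T (T L L) (T L L)) (F 8 (T (T L L) (S L L)))))))) (U (V (F 32 (U (K 4) (V (S L L) (S L L)))) (V (T (U L L) L) (F 4 (T (S (S L L) L) (S L L))))) (V (F 32 (T (U (V (S L L) (S L L)) (S (S L L) L)) (U (V L L) (S L L)))) (T (S (F 32 (V (S L L) (F 8 (S L L)))) (F 32 (V L (S L L)))) (V (F 32 (S L L)) (S (F 4 (S L L)) (S L L)))))))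
noncomputable def w3_3 : Tr := (V (F 64 (T (U (T (S (U (V (S L L) (S L L)) (V L L)) (U (V (S L L) (F 2 (S L L))) (V L L))) (S (V (U (S L L) L) (F 2 (S L L))) (U (V (S L L) (F 2 (S L L))) (V L L)))) (V (T (S L (S L L)) (S L (S L L))) (T (S (S L L) L) (F 2 (S (S L L) L))))) (U (S (V (U (T (S L L) L) (T L L)) (F 2 (T (S L L) (S L L)))) (V (U (T (S L L) (S L L)) (S L L)) (F 2 (T (U (S L L) L) (T L L))))) (V (S (T L L) (U (S L L) L)) (F 2 (S (T (S L L) L) (S L L))))))) (F 32 (V (F 2 (U (T (S (T (V (S L L) (F 4 (S L L))) (V (S L L) (S L L))) (T (V (T L L) (S L L)) (V (T L L) (S L L)))) (S (T (V (S L L) (F 32 (S L L))) (V (S L L) L)) (T (V L (S L L)) (V L L)))) (T (S (F 32 (T L L)) (U (T L L) (S L L))) (S (F 32 (T L L)) (U (S L L) (S L L)))))) (T (S (F 18 (U (T (V (S L L) (F 16 (T L L))) (F 16 (V (S L L) (T L L)))) (F 16 (T (S L L) (S L L))))) (F 2 (U (T (V (S L L) (F 4 (S L L)))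 (V (S L L) (S L L))) (T (S L L) (S L L))))) (S (F 3 (U (F 4 (T (V (S L L) (S L L)) (V L (S L L)))) (T L (S L L)))) (U (T (F 2 (V (S L L) (S L L))) (S (F 3 (S L L)) (F 2 (S L L)))) (F 2 (V (S L L) (F 32 (S L L))))))))))
noncomputable def w3_4 : Tr := (V (F 2 (T (F 32 (S (U (V (U (S L L) (T L L)) (T (S L L) (S L L))) (F 1 (V L (U (S L L) L)))) (U (V (U (S L L) (S L L)) (T (T L L) (T L L))) (V (U (S L L) L) (S L L))))) (F 32 (S (U (V (F 4 (T L L)) (F 1 (S L L))) (F 1 (V (S L L) (U (S L L) L)))) (U (V (F 4 (S L L)) (U L (S L L))) (S (F 1 (T L L)) (T L L))))))) (F 4 (S (F 64 (T (F 1 (V (U (T (S L L) (S L L)) (T L L)) (U (V (T L L) (F 4 (T L L))) (T (S L L) L)))) (F 1 (V (U (V (S L L) (S L L)) (S L L)) (U (V (S L L) (F 4 (S L L))) (S L L)))))) (V (F 32 (U (T (T (S L L) (S L L)) (S L L)) (T (U (S L L) L) (F 1 (U (S L L) L))))) (T (U (V (F 32 (S L L)) (F 64 (S L L))) (F 96 (S L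 L))) (F 64 (U (V L (S L L)) (F 1 (S L L)))))))))
noncomputable def w3_5 : Tr := (S (F 16 (U (V (F 1 (T (U (S (T L L) (V (S L L) L)) (S (S L L) (V L L))) (U (S L (S L L)) (S L (V (S L L) L))))) (F 32 (S (V (S L L) (S L L)) (V (F 32 (T L L)) (T (S L L) L))))) (V (T (F 1 (S (T L (S L L)) (V (S L L) (T L L)))) (S (V L (F 32 (S L L))) (F 1 (V (S L L) L)))) (F 32 (V (S (T L L) (F 32 (T (S L L) (S L L)))) (T (S (S L L) (S L L)) (S L L))))))) (F 128 (U (V (F 4 (S (T (V (S L L) (F 2 (S L L))) (V (U L (S L L)) (F 2 (S L L)))) (T (V (S L L) L) (F 2 (V (S L L) (S L L)))))) (F 32 (T (F 8 (S (V (U (S L L) L) (S L L)) (S (V L L) (S L L)))) (U (F 8 (S (S L L) (S L L))) (F 8 (S L (S L L))))))) (F 4 (V (S (T (V L L) (V (S L L) L)) (T (V L L) (V L L))) (F 2 (S (T (U (S L L) (S L L)) (S L L)) (T (S L L) (S L L)))))))))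
noncomputable def w3_6 : Tr := (S (V (F 2 (T (F 8 (S (U (T (V (S L L) L) L) (T (V L L) (V L L))) (T (U (V (U L L) L) (V L L)) (U (S L L) (V L L))))) (U (K 1) (F 8 (T (S L L) (S L L)))))) (T (F 16 (V (F 32 (T (S (U L (S L L)) (U L L)) (U L (S L L)))) (U (S (F 4 (S L L)) (S L L)) (S (T (F 36 (T L L)) (F 32 (S L L))) (F 32 (T L L)))))) (F 16 (V (S (S L L) L) (S (U L (T L L)) (S L L)))))) (V (F 2 (U (T (S (F 8 (T (V (U L (S L L)) (S L L)) (S L L))) (T (F 9 (T (S L L) (S L L))) (V L L))) (V (S L L) (S L L))) (T (F 8 (S (T (V L L) (S L L)) (V (F 32 (T L (S L L))) (T L L)))) (S (F 8 (S L L)) (V (T (F 9 (S L L)) (S L L)) L))))) (T (S (T (F 18 (V (U L L) (S L L))) (F 18 (V (S L L) L))) (F 2 (U (T (F 8 (T L L)) (S L L)) (F 8 (T (S L L) L))))) (V (S (F 2 (S L L)) (F 2 (S L L))) (S (S L L) (S L L))))))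
noncomputable def w3_7 : Tr := (S (F 48 (T (V (S (T (U (F 1 (S L L)) (S L L)) (U (S L L) (S L L))) (F 1 (T (U (S L L) L) (V (S L L) L)))) (F 32 (U (T (S (V L L) (V L L)) (V (S L L) (S L (S L L)))) (T (S L L) (S L L))))) (V (T (S (V (F 1 (S L L)) L) (F 1 (U (S L L) L))) (F 32 (S (U L L) (U L L)))) (F 32 (U (T (S (V L L) (T (T L L) L)) (V L (S L L))) (S (T L L) (T L L))))))) (T (F 48 (V (F 1 (S (T (U (S L L) L) (V (S L L) L)) (T (V L L) (V L L)))) (F 32 (U (T (F 32 (S L (S L L))) (S (V L L) (F 32 (S L L)))) (T (F 32 (S L L)) (S L L)))))) (F 16 (V (F 1 (S (F 16 (T (U L L) (F 16 (S L L)))) (F 2 (T (F 4 (S L L)) (S L (S L L)))))) (F 64 (U (S (F 8 (V (F 1 (S L L)) (T L L))) (F 64 (T (F 4 (S L L)) L))) (S (F 8 (T L L)) (F 64 (S L L)))))))))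
noncomputable def w3_8 : Tr := (U (F 1305 (V (F 128 (T w3_5 (S (U (F 18 (V (S L (F 1 (T L L))) (S (K 1) L))) (F 16 (V (S (T (S L L) L) (F 33 (T (S L L) L))) (F 32 (S (S L L) (V (U L L) L)))))) (F 2 (V (F 1 (U (S (T (F 8 (U L (S L L))) (T L L)) (T (S (F 8 (T L L)) (V L L)) (V (F 4 (S L L)) (S L L)))) (S (F 8 (T (S L L) (S L L))) (T (F 8 (S L L)) (S L (S L L)))))) (S (U (U L (F 8 (S L L))) (F 8 (T (S L L) L))) (F 1 (U (T (U L L) L) (T (F 8 (S L L)) (S L L)))))))))) (F 64 w3_6))) (F 25 (V (F 520 w3_7) (F 288 (T (F 48 (S (V (F 32 (T (S (V (S L L) (S L L)) (V (S L L) (S L L))) (S (V L L) (V L L)))) (T (F 32 (U (S (V (S L L) L) (T L L)) (V (S L L) (S L L)))) (S (F 32 (U (T (S L L) L) (S L L))) (F 32 (U (V L L) L))))) (V (F 32 (T (U (S (S L L) L) (S (S L L) L)) (U (S (S L L) L) (S L L)))) (S (F 32 (T (V L L) (S L L))) (F 32 (T (S L L) (S L L))))))) (S (F 48 (V (F 32 (U (S (V L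 L) (V L L)) (T (S L L) (S (S L L) L)))) (T (U (V (F 32 (S L L)) (S L L)) (S L L)) (U (V (S L L) L) (S L L))))) (F 32 (V (F 64 (T (F 8 (U (S (S L L) L) (S L L))) (S (F 8 (U (S L L) L)) (T L L)))) (S (F 8 (V (F 2 (S L L)) (U L L))) (T (F 8 (S L L)) (S L L)))))))))))
noncomputable def w3_9 : Tr := (V (F 128 (U (T (F 16 (S (V (U (S (T L L) (F 1 (T L L))) (T L L)) (F 32 (T (S L L) (S L L)))) (V (F 1 (U (T (S L L) (S L L)) (S L L))) (F 32 (S (T L L) L))))) (S (F 16 (V (U (T (S L L) (F 32 (S L L))) (T L L)) (F 32 (T (S L L) (S L L))))) (S (F 16 (V (F 1 (U L L)) (F 32 (S L L)))) (F 2 (T (F 9 (S L L)) (S L L)))))) (F 16 (S (T (V (U (S L L) L) (T (S L L) L)) (V (T L L) (F 32 (S (S L L) L)))) (T (V (F 1 (S L L)) L) (V (F 1 (S L L)) L)))))) (F 64 (S (F 16 (U (T (F 32 (V (U (S (T L L) (T L L)) (T L L)) (T (S (S L L) L) (V L L)))) (V (F 32 (U (S (T L L) (T L L)) (T L L))) (S (F 32 (T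 L L)) (T L L)))) (F 32 (T (V (S L L) (U (S L L) L)) (V (S L L) (S L (S L L))))))) (T (F 18 (U (V (T (S L L) (S L L)) (U (S (T L L) L) (S L L))) (V (S L L) L))) (U (V (F 2 (S (F 8 (S L L)) (S L L))) (U (S L (S L L)) (F 16 (S L L)))) (F 18 (V (S L L) L)))))))
noncomputable def w3_10 : Tr := (U (V (S (F 34 (T (S (F 8 (V L (K 4))) (U (T L (K 1)) (F 8 (V L L)))) (V (F 16 (S (K 4) L)) (K 1)))) (F 34 (T (S (V (F 1 (T (U L L) L)) (U (K 1) L)) (F 1 (V (F 4 (U (T (S L L) L) (T (S L L) (S L L)))) (U L (S L L))))) (V (F 17 (U L (T (S L L) L))) (S (K 1) L))))) (U (K 7) (T (S (F 48 (V (K 1) (S L (K 1)))) (F 32 (V (F 64 (V (S L L) L)) (S (K 1) L)))) (K 7)))) (V (F 2 (S (F 24 (T (V (T (S (V L L) (V L L)) (F 4 (U L (S L L)))) (U (S L L) (S (T L L) (S L L)))) (V (F 4 (S L L)) (T L L)))) (T (F 8 (V (F 64 (S (T (F 4 (S L L)) (F 8 (S L L))) (T (V L (S L L)) (F 8 (S L L))))) (U (S (S L L) (T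 L L)) (S (T L L) (T L L))))) (S (F 8 (V (F 4 (U L (S L L))) (S L L))) (F 40 (V (F 32 (U (S L L) L)) (U L L))))))) (S (F 48 (V (U (T (F 32 (S L L)) (K 1)) (T (F 32 (S (S L L) (S L L))) (S L L))) (T (T (U (S L L) (S L L)) (U L L)) (T L L)))) (V (T (F 34 (T (S (F 8 (U L L)) (S L L)) (U L (S L L)))) (T (F 2 (U L (S L L))) (F 2 (U L L)))) (S (F 32 (T (F 8 (V L (S L L))) (S L L))) (T (U L (F 32 (S L L))) (V L L)))))))
noncomputable def w3_11 : Tr := (F 8195 (T (U w3_8 (F 1305 w3_9)) (F 32 (U (F 4896 w3_10) (F 4864 (S (F 112 (V (F 32 (U (T (V (U (S L L) (S L L)) (S (S L L) (S L L))) (V (F 4 (S L L)) (U (S L L) L))) (T (V (S L L) (S (S L L) L)) (V (S L L) (S L L))))) (T (U (V (F 32 (T (T L L) L)) (S (T L L) (S L L))) (V (F 32 (S L L)) (T (F 32 (S L L)) L))) (V (F 32 (U (T L L) L)) (U (V L (S L L)) (S L L)))))) (V (F 66 (U (F 16 (T (S (F 8 (V (T L L) (S L L))) (V (F 64 (T L L)) (S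 L L))) (V (F 4 (S (S L L) L)) (S (S L L) (S L L))))) (F 16 (T (S (F 8 (S L L)) (S L L)) (S (S L L) L))))) (F 16 (T (F 8 (U (V (F 2 (S L (S L L))) (T (S L L) (S L L))) (S (F 18 (S L L)) (F 2 (S L L))))) (U (V (F 128 (S L L)) (T (S L L) (S L L))) (V (F 136 (S L L)) (S L L))))))))))))
noncomputable def w3_12 : Tr := (T (F 120 (S (F 2 (U (V (T (U (S (F 64 (T L L)) (T L L)) (F 64 (S L L))) (U (S (F 64 (T L L)) (V L L)) (F 64 (S L L)))) (F 32 (T (U (V (T (S L L) (S L L)) (S L (S L L))) (F 1 (T L L))) (U (V (S (F 1 (S L L)) L) (F 1 (S (S L L) (S L L)))) (F 1 (S L L)))))) (F 64 (V (T L L) (T (S L L) (S L L)))))) (U (V (F 2 (T (U (S (T L L) (S L L)) (S L L)) (U (S (T L L) (S L L)) (S L L)))) (F 4 (T (F 32 (S (V L (T L L)) (S L L))) (F 32 (S (V L L) (S L L)))))) (F 2 (T (V L L) (V L L)))))) (F 576 (S (F 114 (U (V (T (S (F 32 (V L L)) (V L (S L L))) (F 32 (V (F 2 (S L L)) (S L L))))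 (F 32 (T (U (V (T L L) (S L (S L L))) (S L L)) (U (S (V (S L L) L) (T L L)) (S L L))))) (F 32 (V (T L (S L L)) (T (S L L) (S L L)))))) (F 64 (U (V (F 136 (T (S (F 8 (T L L)) (U (S L L) L)) (S (F 8 (T (S L L) L)) (U (S L L) L)))) (S (F 152 (T (V L L) (S L L))) (T (F 136 (S L L)) (F 128 (S L L))))) (F 128 (S (F 25 (V L L)) (F 16 (T L L)))))))))
noncomputable def w3_13 : Tr := (S (F 4 (T (V (S (F 48 (U (T L L) (T L L))) (U (T (F 16 (S L L)) (F 32 (S L L))) (F 48 (T L L)))) (F 32 (S (U (T (S L L) (S L L)) (S L L)) (U (T (S L L) (S L L)) (T (S L L) (S L L)))))) (F 32 (V (S (U (T L (S L L)) (F 1 (T L L))) (U (V (S L L) (S L L)) (V L (S L L)))) (S (U (V (S L L) (S L L)) (T (S L L) (S L L))) (U (V (S L L) (S L L)) (T (S L L) (S L L)))))))) (F 4 (V (T (S (V (F 16 (T L L)) (U (S L L) (S L L))) (U (V (S L L) (S L L)) (T (S L L) L))) (S (U (T (S L L) L) (S (F 32 (S L L)) (S L L))) (U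 (S L L) (S L L)))) (T (S (V (S (F 32 (T L L)) (T L L)) (F 32 (U (S L L) L))) (U (V (S L L) (S L L)) (V L (S L L)))) (S (F 32 (U (V L (S L L)) (T L L))) (U (T (S L L) L) (T (S L L) L)))))))
noncomputable def w3_14 : Tr := (S (F 1 (T (S (V (F 16 (U (T L L) (T L L))) (U (V (U L L) L) (T L L))) (F 16 (U (V (V (S L L) (S L L)) (V (U (S L L) L) L)) (V (T (S L L) (S L L)) (T L L))))) (U (S (V (F 16 (T L L)) (V L L)) (F 16 (V (T (S L L) (S L L)) (U L (T L L))))) (F 16 (V (S (T L L) (T (S L L) (S L L))) (S (S L L) (T L L))))))) (F 4 (T (S (F 32 (U (V (T (S L L) (S L L)) (V (U (S L L) L) (S L L))) (V (T (S L L) (S L L)) (T L L)))) (V (U (V (S L L) (S L L)) (V (S L L) L)) (F 32 (U (V (U (S L L) L) (S L L)) (S L L))))) (S (F 32 (U (V (T (S L L) (S L L)) (V (U (S L L) (S L L)) (S L L))) (V (T (S L L) (S L L)) (T (S L L) (S L L))))) (U (V (T (S L L) (F 32 (S L L))) (F 32 (V (U L (S L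 L)) (S L L)))) (F 32 (V (S L L) (T L L))))))))
noncomputable def w3_15 : Tr := (V (S (F 5 (U (T (V (S (T (S L L) (S L L)) (T L L)) (S (T L L) (V (S L L) (S L L)))) (U L (V L (S L L)))) (T (V (S (S L L) (T L L)) (S (T L L) (T (S L L) L))) (V (S (S L L) (S L L)) (S (S L L) (S L L)))))) (F 4 (T (V (U (S L L) (S (S L L) L)) (S (F 32 (U (T (S L L) L) (T L L))) (U L (S L L)))) (V (S L L) (F 32 (U (S L L) (S (S L L) L))))))) (F 5 (S (U (S (T (S L L) L) (T (V (T (S L L) L) (U L L)) (U L L))) (T (V (S (S L L) (T (S L L) L)) (S L (U L L))) (S L (V (T L L) (U L L))))) (U (U (T (V (S (T L L) L) (S (S L L) (T L L))) (V (S L L) (S L L))) (T (S (V (T L L) (S (S L L) L)) (V (S L L) (S L L))) (V (S (S L L) L) (S L (S L L))))) (T (S (V (T (S L L) L) (U (T L L) (S L L))) (V (S L L) (U (T L L) (S L L)))) (S (V (V L L) (U (S L L) (S L L))) (V (S L L) (V (S L L) (S L L)))))))))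
noncomputable def w3_16 : Tr := (V (S (F 1 (T (V (F 16 (U (S (S L L) (S L L)) (S L L))) (S (F 16 (U (S L L) L)) (U (T L L) L))) (V (S (F 16 (U (S L L) L)) (F 16 (U (S L L) L))) (U (S (S L L) (T L L)) (S L (S L L)))))) (T (V (S (F 2 (U (T L L) L)) (S (F 2 (S L L)) L)) (S (F 1 (U (T L L) L)) (U (T L L) (S L L)))) (V (S (U (T L L) L) (U (S L L) L)) (S (F 1 (U (S L L) (S L L))) (U (S L L) (S L L)))))) (S (F 1 (T (V (U (S (S L L) (T L L)) (S L (S L L))) (U (S L (S L L)) (S L L))) (V (U (S (S L L) (T L L)) (S L (S L L))) (S (T L L) (U (S L L) L))))) (T (V (S (F 1 (U (S L L) (S L L))) (U (S L L) L)) (F 1 (S (U (S L L) L) (U (S L L) L)))) (F 1 (V (S (U (T L L) (S L L)) (U (S L L) L)) (S (U (S L L) (S L L)) (U (S L L) L)))))))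
noncomputable def w3_17 : Tr := (T (V (F 8 (S (U (T (F 64 (U (S L (S L L)) (S L (F 16 (T L L))))) (S L L)) (V (F 64 (T (S (T L L) (F 16 (U L L))) (S (S L L) (F 16 (U L L))))) (T (F 64 (S L L)) (S L L)))) (F 66 (U (T (S (V (T (S L L) (S L L)) (S L L)) (V (T (S L L) (S L L)) (T L (S L L)))) (S (V (T (S L L) L) L) (V (T (S L L) (S L L)) (U L (S L L))))) (V (T (S (V (S L L) L) (V (S L L) L)) (S (T (S L L) L) (T L (S L L)))) (T (S L (S L L)) (S (S L L) (S L L)))))))) (S (U (S L (S L L)) (S (T (S L L) L) (V (F 64 (T L L)) (S L L)))) (F 64 (U (F 64 (T (U (V L L) (V (S L (S L L)) L)) (U (S L L) (V L L)))) (T (F 64 (S (T L L) (V (S L L) L))) (S (S L L) (F 64 (V (F 4 (S L L)) L)))))))) (S (V (F 8 (S (U L (S L L)) (F 66 (U L (T L L))))) (U (K 1) (S L (F 64 (S L L))))) (F 64 (V (F 72 (U (T (S (V L L) (V (T (S L L) (S L L)) (S L L))) (V (S L (S L L)) L)) (T (S (V (S L L) L) (V (T (S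 L L) (S L L)) (S L L))) (S (T L L) (V (S L L) (S L L)))))) (S (U L (T L L)) (F 64 (U L (T (V L L) L))))))))
noncomputable def w3_18 : Tr := (S (V (F 8 (T (T (S (U (V L L) L) (F 66 (U (T L L) L))) (S (U (V L L) L) (F 66 (U (V L L) L)))) (F 2 (U (V (T (F 1 (S L (S L L))) (S L L)) (T (S L L) L)) (T (S L (S L L)) (S L (S L L))))))) (T (T (U (S (T L L) L) (S L L)) (U (S (T L L) L) (S L L))) (U (T (S (S L L) L) L) (F 64 (T (S L L) (S L L)))))) (F 64 (V (F 72 (T (T (S (U (V (S L L) L) (S L L)) (U (V (S L L) L) (S L L))) (U (V (S (S L L) (U (S L L) L)) (S L L)) (S (T L L) (T L L)))) (U (T (V (S (T (S L L) L) (U (S L L) L)) (S L L)) (V (S (T L L) (U L L)) (S L L))) (T (S (S L L) (T L L)) (S (S L L) (S L L)))))) (T (T (S (V (F 64 (S L L)) (T L L)) (F 64 (U (T L L) (S L L)))) (S (V (F 64 (S L L)) (T L L)) (F 64 (U (T L L) (S L L))))) (T (S (V (F 8 (S L L)) (S L L)) (V (F 72 (S L L))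 (S L L))) (F 8 (U (S L (S L L)) (S L L))))))))
noncomputable def w3_19 : Tr := (T (F 9 (V (S (F 1 (U (T (F 16 (V (U (S L L) L) (T L L))) (V (F 16 (S (S L L) L)) (S L L))) (F 16 (T (S L L) (S L L))))) (U (T (S (F 3 (V L L)) (V L (S L L))) (V (S L L) (F 1 (S (S L L) L)))) (T (F 2 (S L L)) (F 1 (S L L))))) (F 1 (U (S (T (V (U (S L L) L) (S L L)) (V (S L (S L L)) (S L L))) (T (V (S (S L L) L) (S L L)) (V (S (S L L) L) (S L L)))) (S (F 16 (T L L)) (T (S L L) (S L L))))))) (U (F 9 (V (S (F 1 (T (V (F 16 (S L L)) (S L L)) (V (F 16 (S L L)) (S L (S L L))))) (T (V (S L L) (F 1 (S L L))) (F 1 (V (S L L) (S L L))))) (F 1 (S (T (V (S L (S L L)) (S L L)) (V (S L L) (S L L))) (T (V (S (S L L) L) (S L L)) (S (V L L) (V L L))))))) (F 128 (V (F 64 (S (F 36 (T (S L L) (S L L))) (T (F 4 (S L L)) (S L L)))) (F 8 (S (T L (F 32 (S L L))) (F 1 (T (S L L) (S L L)))))))))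
noncomputable def w3_20 : Tr := (U (F 4664 (V (F 576 (U (T (V (F 16 w3_13) (F 32 w3_14)) (F 16 w3_15)) (F 48 (T w3_16 (V (S (F 1 (T (V (S (F 16 (U (S L L) L)) (T L (S L L))) (S (U (S L L) L) (U (T L L) (S L L)))) (V (S (F 16 (T L L)) (U (S L L) L)) (S (U (S L L) L) (U (S L L) L))))) (T (S (F 1 (V (T L L) (U (S L L) L))) (V (T L L) (F 1 (T L L)))) (V (S (F 1 (T L L)) (S L L)) (F 1 (S (U (S L L) L) (S L L)))))) (F 1 (S (T (V (U (S (S L L) (S L L)) (S L (S L L))) (S (T L L) (U (S L L) L))) (V (S (T L L) (U (S L L) L)) (S (S L L) (U L L)))) (T (V (S (U (S L L) (S L L)) (U (S L L) L)) (S (U (S L L) L) (U (S L L) L))) (V (S (U (S L L) L) (T L L)) (S (U (S L L) L) (U (S L L) L))))))))))) (F 5 (U w3_17 w3_18)))) (F 7728 (V (F 16 w3_19) (F 33 (U (T (S (V (T (V L (S L L)) (F 8 (V (S L L) L))) (U (V (T L L) L) (T L L))) (V (F 1 (T (V (F 8 (S L L)) (S L L)) (F 8 (U (S L L) (S L L)))))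 (U (V (F 1 (T L L)) (S L L)) (T (S L L) (S L L))))) (S (V (F 8 (T (V (S L L) L) (V (S L L) L))) (V (F 8 (U (S L L) L)) (S L L))) (V (F 9 (T (U (S L L) (S L L)) (U (S L L) L))) (U (T (V L L) (S L L)) (T (S L L) (S L L)))))) (T (V (S (T (S L L) L) (F 1 (T (S L L) L))) (S (U (S L L) L) (T (S L L) (S L L)))) (V (F 8 (S (T L L) (T L (S L L)))) (S (U (S L L) L) (T (S L L) (S L L))))))))))
noncomputable def w3_21 : Tr := (T (F 192 (V (V (F 64 (S (F 4 (T (V (S (F 1 (S L L)) (T L L)) (S (T L L) (U L L))) (V (S L (S L L)) (S (S L L) (S L L))))) (T (F 4 (V (U L L) (S (S L L) L))) (S (F 4 (U L L)) (F 4 (T L L)))))) (F 8 (S (U (F 1 (T (V (S L L) L) (S L L))) (T (F 1 (V (S L L) L)) (V L (S L L)))) (F 1 (T (S (V (T L L) (U L L)) (V (S L L) (U L L))) (S (U (V L (S L L)) (S L L)) (U (V L (S L L)) (S L L)))))))) (F 8 (V (S (U (T (S L L) L) (V (T L L) (S L L))) (U (F 1 (T (S (S L L) (V L L))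 (U L (S L L)))) (T (F 1 (S L (V L L))) (S (S L L) (F 1 (S L L)))))) (S (T (T L L) L) (U (S L (S L L)) (S (S L L) (T L L)))))))) (F 192 (V (U (V (F 64 (S (F 4 (V L L)) (S L L))) (F 8 (S (S L L) (F 1 (U L (S (S L L) (S L L))))))) (S (F 8 (V (F 1 (S (F 1 (S L L)) (T L L))) (V (F 1 (S L L)) L))) (F 64 (V (S (F 4 (T L L)) L) (F 4 (T (S L L) (S L L))))))) (F 8 (V (S (U L (S L L)) (T (U L (S L L)) (F 16 (S L L)))) (F 16 (S L (S L L))))))))
noncomputable def w3_22 : Tr := (V (F 8 (T (V (F 1 (S (F 8 (U (T (V (F 16 (S L L)) (S L L)) (S L L)) (F 16 (T L L)))) (U (T (S (F 8 (T L L)) (S L L)) (V (S L L) L)) (S L (S L L))))) (F 8 (S (U (T (S (F 1 (S L L)) (F 32 (T L L))) (S L (F 32 (S L L)))) (F 1 (T L L))) (F 32 (U (T (S (V L L) (S L L)) (U (S L L) L)) (T (S L L) L)))))) (S (F 8 (V (F 32 (U (T (S L L) (F 16 (S L L))) (F 16 (S L L)))) (U (S (F 1 (T L L)) (F 32 (T L L))) (F 1 (S L L)))))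 (F 1 (V (U (S (F 8 (T L L)) (T L L)) (S L L)) (F 8 (U (T (S L L) (S L L)) (S L L)))))))) (F 16 (S (F 8 (U (T (V (T (S L (S L L)) (S L L)) (U (S L L) (S L L))) (V (U (S L L) (F 1 (S L L))) (F 2 (S L L)))) (T (F 1 (V (S L L) (T L L))) (F 1 (V (S L L) (U (S L L) L)))))) (F 8 (T (U (V (S (T (S L L) (S L L)) (F 32 (T (S L L) L))) (U (T (S L L) (S L L)) (S L L))) (V (T (S L L) L) (S L L))) (U (V (S (T L (S L L)) (F 32 (S L L))) (F 2 (S L (S L L)))) (V (S L L) (S L L))))))))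
noncomputable def w3_23 : Tr := (V (T (T (F 4 (U (V (S (U (S L L) (S L L)) L) (S (T L L) (U (S L L) L))) (V (S (S L L) (S L L)) (S (S L L) L)))) (U (F 4 (V (S (S L L) L) (S (S L L) (S L L)))) (S (F 4 (V (S L L) (S L L))) (F 4 (V (S L L) L))))) (V (T (U L (S L L)) (S L L)) (F 4 (T (S (U L (S L L)) L) (S L L))))) (F 4 (T (T (S (V (U (V L (S L L)) (S L L)) (U (V (U L L) (S L L)) (S L L))) (V (U (S L L) (S L L)) (U (V (S L L) L) (S L L)))) (S (V (U (S (S L L) L) (S L L)) (U (V (S L (S L L)) L) (F 1 (S L L)))) (U (V (S L L) (V (S L L) L)) (V L (S L L))))) (S (U (V (T (S L L) L) (F 1 (T (T L L) L))) (T (V (S L L) (F 1 (U (S L L) L))) (F 1 (V L (V (S L L) L))))) (U (V (S L L) (T (S L L) L)) (T (V L (S L L)) (V L (F 1 (S L L)))))))))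
noncomputable def w3_24 : Tr := (T (F 96 (S (V (F 4 (S (F 1 (T (V (T L L) (S (S L L) L)) (V (T (S L L) (S L L)) (S (S L L) (S L L))))) (V (T (S L L) (S L L)) (F 1 (T (S L L) (S L L)))))) (F 64 (T (S (V (F 8 (S L L)) (U L L)) (V (F 8 (S L L)) (S (S L L) L))) (S (V (F 8 (S (S L L) (S L L))) (V L L)) (V (F 8 (S (S L L) L)) (T (S L L) L)))))) (V (F 4 (S (T (V (S L L) (S L L)) (V (S L L) L)) (T (V L L) (V L L)))) (S (F 64 (T (V L (S L L)) (V (F 8 (S L L)) (T (S L L) L)))) (T (V L L) (F 68 (V L L))))))) (F 48 (S (F 68 (V (T (S (V (S (T L L) (S L L)) (S (S L L) (S L L))) (V (S L L) (S (S L L) L))) (U (S (V L L) (V L (S L L))) (S (V (S L L) L) (V L (S L L))))) (S (T (U L L) L) (T (V (S (S L L) (S L L)) (T L L)) (U L (S L L)))))) (V (S (F 4 (T (V (S L L) (F 1 (S L L))) (F 1 (U L L)))) (F 4 (T (V L L) L))) (F 64 (S (F 8 (T (V (S L L) (S L L)) (V (S L L) (F 8 (S L L))))) (T (F 8 (V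 L (S L L))) (V (S L L) (F 2 (S L L))))))))))
noncomputable def w3_25 : Tr := (T (S (F 4 (V (F 16 (T (V (S (F 32 (U L (S L L))) (S L L)) (F 32 (S (S L L) L))) (F 32 (S (V (S L L) (S L L)) (V L (S L L)))))) (F 1 (T (S (V (S L L) (S L L)) (V (S L L) (S L L))) (S (V (F 4 (S L L)) (S L L)) (V (F 4 (S L L)) (S L L))))))) (F 4 (V (F 16 (S (T (V (S L L) L) (V L L)) (T (S L L) (S L L)))) (S (F 1 (T (V L L) (V L (S L L)))) (T (S L L) (F 1 (S L L))))))) (S (F 132 (V (F 8 (S (T (V (S L L) (S L L)) (V (S L L) (S L L))) (T (V (S L L) (S L L)) (V (S L L) (S L L))))) (S (T (V (F 8 (S L L)) (S L L)) (F 8 (U L L))) (F 8 (T (V (S L L) (S L L)) (V (S L L) (S L L))))))) (F 8 (V (F 16 (S (T (V L L) (F 32 (V L L))) (T (S L L) (S L L)))) (F 1 (S (T (F 4 (V L L)) (V (F 4 (S L L)) (F 16 (S L L)))) (F 4 (T (S L L) (S L L)))))))))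
noncomputable def w3_26 : Tr := (F 40 (S (F 16 (T (V (S (F 4 (T (V (S L L) (T L L)) (V (S L L) (T L L)))) (T (F 4 (V L (S L L))) (V (T L L) L))) (F 4 (T (S (V (T (S L L) (S L L)) (S L (S L L))) (V (S L L) (S L L))) (S (V (U (S L L) L) (F 1 (T L L))) (V (S L L) (S L L)))))) (V (T (S (F 4 (V L (S L L))) (V L L)) (S (V (S L L) L) (V L L))) (F 4 (T (S (V (S L L) (F 1 (T L L))) (V (S L L) (S L L))) (S (F 1 (V (S L L) (S L L))) (V L L))))))) (T (F 16 (V (T (U (S (T L L) L) (S L L)) (S (U (S L L) L) (V L (S L L)))) (S (F 4 (T (V L L) (V L L))) (T (F 4 (S L L)) (S L L))))) (V (T (F 16 (S (T L L) (V L L))) (F 16 (S (S L L) (V L L)))) (F 16 (S (T (F 4 (T L L)) (F 4 (S L L))) (V (T L L) L)))))))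
noncomputable def w3_27 : Tr := (S (F 32 (T (V (F 4 (S (F 1 (U (T (V L L) (V (T L L) L)) (T (S L L) (S L L)))) (T (U (V L L) (S L L)) (F 1 (U (V (S L L) L) (S L L)))))) (F 64 (T (S (U (V L L) (S L L)) (U (V L L) (S L L))) (S (U (V L L) (S L L)) (V (F 8 (S L L)) (S L L)))))) (F 64 (V (F 8 (U (T (S (V (T L L) (S L L)) (V (S L L) L)) (S (V (S L L) (S L L)) (V (S L L) L))) (T (S (T L L) (S L L)) (S (S L L) (S L L))))) (T (S (U (V L L) (S L L)) (V (F 8 (S L L)) (S L L))) (F 8 (S (U (S L L) L) (U (S L L) L)))))))) (T (F 32 (V (F 4 (U (V (S (T L L) (S L L)) (S (S L L) L)) (S (T L L) (S L L)))) (S (F 64 (T (V L (S L L)) (V L (S L L)))) (T (S L L) (F 64 (T L L)))))) (V (F 48 (U (S (T (V L L) (F 32 (S L L))) (T (S L L) L)) (S (F 32 (T L L)) (S L L)))) (F 1 (S (F 4 (T (U (F 8 (S L L)) L) (F 8 (U (S L L) L)))) (F 12 (T (S L L) (S L L))))))))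
noncomputable def w3_28 : Tr := (V (F 1104 (S (F 8 (T (V (U (S (F 16 (T (T L L) (T L L))) (V (S L L) (F 16 (S L L)))) (T (S L L) (S L L))) (F 16 (U (T (S (V L L) (S L L)) (S (V L L) (S L L))) (T (S L L) (S L L))))) (V (U (T (S (S L L) (S L L)) (S (S L L) L)) (T (S L L) L)) (F 16 (U (T (S (F 32 (S L L)) (S L L)) (F 32 (S (S L L) L))) (F 32 (T L L))))))) (T (F 8 (U (V (S (T L L) (S L L)) (S (F 16 (T L L)) (S L L))) (V (S L L) (S L L)))) (F 8 (V (U (S (T L L) L) (S L L)) (U (S (T L L) (S L L)) (S L L))))))) (F 32 (U (F 9 (T (F 32 (S (F 64 (V (F 8 (T (S (S L L) L) (S (S L L) L))) (U (T (S (S L L) L) (S L L)) (T L L)))) (V (F 4 (S (T L L) (S L L))) (F 64 (U (S (T L L) (S L L)) (S L L)))))) (S (F 33 (T (V (F 4 (S (S L L) L)) (U (S L L) L)) (F 4 (S (V (S L L) (S L L)) (V L (S L L)))))) (F 32 (T (V (F 4 (S L L)) (F 64 (U (S L L) L))) (F 68 (S (V L L) (S L L)))))))) (F 16 (T (F 288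 (S (F 64 (V (T L L) (U (S L L) L))) (V L (F 64 (S L L))))) (F 1 (S (F 9 (V (F 8 (S L L)) (T L L))) (F 9 (V L (S L L))))))))))
noncomputable def w3_29 : Tr := (V (S (F 16 (T (V (S (F 16 (S L L)) (F 16 (T L L))) (F 32 (U (F 4 (T (V L L) L)) (F 4 (S (F 1 (T (T L L) (S L L))) (S L L)))))) (V (S (K 6) (K 6)) (F 33 (U L (F 4 (S L L))))))) (T (V (U (K 1) (S (S L L) L)) (U (S L L) (S L (S L L)))) (V (K 1) (S L L)))) (F 4 (T (F 16 (U (S (F 64 (U (F 8 (S L L)) (F 8 (T (V (S L (S L L)) L) L)))) (T (V (S (F 64 (S L L)) L) (F 64 (U (F 2 (S L L)) (S (F 8 (S L L)) (F 2 (S L L)))))) (F 64 (U L (V L (F 2 (S L L))))))) (S (F 68 (T (V (S (V (S L L) (S L L)) (V L (S L L))) (S L (U L (S L L)))) (V (U (S L L) (S (S L L) (S L L))) L))) (F 64 (V (S (T (F 8 (T L L)) (S L L)) (T L L)) (S (T (F 8 (V (S L L) L)) (F 2 (S L L))) (F 2 (T (S L L) (S L L))))))))) (F 17 (U (S L (S L L)) (S L (T (S (S L L)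 (F 16 (S L L))) L)))))))
noncomputable def w3_30 : Tr := (V (F 512 (S (F 8 (T (F 16 (V (V (S (T L L) L) (S (F 68 (S L L)) (T L L))) (F 68 (S (T (V L (S L L)) (U (S L L) L)) (T (T L L) (S L L)))))) (F 16 (V (S L L) (F 64 (S (F 8 (U L (S L L))) (S L L))))))) (T (V (S (F 24 (T L L)) (F 8 (U (S L L) L))) (T (F 24 (S (S L L) L)) (F 16 (S (F 16 (S L L)) L)))) (V (T (U L (S L L)) L) (S (F 256 (U L L)) (U L (S L L))))))) (F 1 (S (F 56 (T (F 32 (U (V (S (T (V L L) (S L L)) (T (S L L) (S L L))) (T (S (S L L) (S L L)) (F 8 (S L L)))) (V (S (T (V L L) (S L L)) (T (S L L) L)) (T (S L L) (F 8 (S L L)))))) (V (F 32 (U (T (S (S L L) (S L L)) L) (T (S L L) (F 8 (S L L))))) (F 2 (U (S L L) (S L L)))))) (F 1 (T (F 32 (V (U (S (F 12 (T L L)) (T L L)) (F 8 (S (F 8 (T L L)) (S L L)))) (F 8 (S (T (F 8 (V (S L L) L)) (F 2 (V L (S L L)))) (T (V (S L L) L) (F 2 (S L L))))))) (S (F 40 (V (T (S L L)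 (F 16 (S L L))) (F 16 (T (S L L) (S L L))))) (F 34 (U (F 8 (V L (T L L))) (F 8 (V L (S L L)))))))))))
noncomputable def w3_31 : Tr := (U (F 3600 (U (F 512 w3_29) w3_30)) (F 3584 (S (F 112 (V (F 1 (T (V (U (S (V L L) (T L L)) (S L L)) (F 1 (U (S (F 4 (T L L)) (S L L)) (S L L)))) (F 1 (V (U (T (S L L) L) L) (U (S (F 4 (S L L)) (S L L)) (S L L)))))) (F 136 (U (T (S (V (F 32 (T (S L L) L)) (T L (S L L))) (F 32 (V (T L L) (T L L)))) (V (F 32 (U (S (S L L) L) (S L L))) (F 2 (S (S L L) L)))) (T (V (F 32 (S L L)) (S L L)) (V L (S L L))))))) (F 1088 (V (V (U (T (S (F 24 (S L L)) L) (S L L)) (T (F 8 (S L L)) (S L L))) (T (U (T (F 24 (S L L)) (F 16 (S L L))) (F 16 (S L L))) (F 256 (U (S (F 8 (S L L)) L) L)))) (F 256 (U (T (F 8 (S (F 12 (V (S L L) (T L L))) (F 4 (V L (T L L))))) (F 8 (V (S (F 4 (T L L)) (S L L)) (F 36 (S (S L L) L))))) (F 8 (T (S L (S L L)) (S L L))))))))))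
noncomputable def w3_32 : Tr := (S (F 20483 (T (F 2048 w3_20) (F 32 (U (F 4304 (U (F 192 (V (F 33 (T (U (S (F 1 (U L (F 16 (V L L)))) (F 4 (T (V (S L L) (F 32 (V (S L L) L))) L))) (T (F 4 (S (F 32 (V (V (S (S L L) L) (S L (S L L))) (V L L))) (F 32 (V (V L (S L L)) (S (V (S L L) (U L L)) (V L (U L (S L L)))))))) (F 5 (V (S L L) (U L (S L (S L L))))))) (F 1 (U L (F 16 (S L L)))))) (F 320 (S (V (T (S (K 5) L) (K 5)) (K 5)) (F 2 (T (V (F 1 (U (U L L) (T (S L (U L L)) L))) (U (K 1) L)) (V L (K 1)))))))) (F 65 w3_21))) (F 23664 w3_22))))) (F 98307 (T (F 2084 (U (F 1025 (U (F 4 (V (F 32 (S (F 48 w3_23) (T (F 32 (V (U (S (F 8 (V (T L L) (F 16 (S L L)))) (T (F 8 (T L L)) (S L L))) (F 8 (S (V (T L L) (F 16 (T L L))) (T (S L L) (S L L))))) (F 4 (U (F 16 (T (S (V (S L L) (S L L)) (V L (S L L))) (S (V (S L L) (S L L)) (V L L)))) (F 16 (S (T (V L L) (V L L)) (T (S L L) (S L L))))))))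 (S (F 32 (V (U (F 8 (S L L)) (F 8 (V L (S L L)))) (F 12 (U (V L L) (T (T L L) L))))) (F 32 (V (V (S L L) (S L L)) (U (V L L) (F 8 (T L L))))))))) (F 4 (U w3_24 (F 32 w3_25))))) (F 4 (V w3_26 (F 20 w3_27))))) (F 1536 w3_28))) (F 264 w3_31))))
noncomputable def w3_33 : Tr := (T (F 112 (U (F 32 (S (F 256 (V (F 8 (T (F 9 (U (V (F 1 (T L L)) (S L (S L L))) (F 1 (S L L)))) (U (V (F 1 (S L L)) (F 8 (S (F 1 (S L L)) L))) (F 64 (V L L))))) (F 16 (T (U (S (F 64 (T L L)) (V (F 1 (S L L)) (S L L))) (F 64 (S L L))) (U (S (F 64 (T L L)) (V L (S L L))) (F 64 (S L L))))))) (V (F 17 (T (U (S (V L L) (T L L)) (S L L)) (S (U (V (S L L) L) L) (T L L)))) (T (F 9 (U (S (F 1 (T L L)) L) L)) (F 256 (S (F 16 (T (F 1 (S L L)) L)) (F 144 (S L L)))))))) (F 32 (S (F 384 (V (U (T (S L L) (F 4 (S L L))) L) (F 8 (T L L)))) (U (V (F 17 (S L L)) (F 256 (S L L))) (F 384 (T L L))))))) (F 400 (U (S (F 49 (V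 (T (S (F 72 (V (F 16 (S L L)) (S L L))) (F 1 (V (F 1 (S L L)) (F 8 (S L L))))) (F 64 (S (F 4 (V L (S L L))) (F 32 (V L L))))) (F 8 (T (U (S (F 1 (S L L)) (V L L)) (F 1 (S L L))) (F 1 (U (V (S (S L L) L) (F 16 (S L L))) (S L L))))))) (V (F 512 (T (U (S (F 280 (V L L)) (S L L)) (F 272 (S L L))) (F 256 (S (F 24 (U (S L L) L)) (S L L))))) (F 17 (S (F 24 (T (T L L) (T L L))) (F 1 (U (T L L) L)))))) (F 1 (S (F 304 (V (U (S (F 4 (S L L)) (F 32 (S L L))) L) (F 4 (T L L)))) (U (S (F 304 (T L L)) (F 1 (S L L))) (F 304 (S L L))))))))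
noncomputable def w3_34 : Tr := (T (F 16649 (U (F 3 (U (F 16 (V (K 1) (S L (K 1)))) (F 32 (V (F 16 (S (K 5) (F 10 (S (K 1) L)))) (F 8 (S (F 1 (V L (S L L))) (V (S (K 5) (K 5)) L))))))) (F 99 (V (F 2 (U (S (F 32 (V (F 2 (T L L)) (U L (F 2 (S L L))))) (V (F 8 (S L L)) (U L L))) (F 8 (S (F 1 (V (T L (S L L)) (U (S L (S L L)) (S L L)))) (F 1 (V (U (S L L) L) (S L L))))))) (F 1 (U (S (F 32 (V (V L (S L L)) (T (U L L) (F 2 (S L L))))) (V (F 32 (S L L)) (T (S L L) L))) (S (F 32 (V (T (S L L) (F 2 (S L L))) (T (S L L) L))) (F 32 (V (U (S L L) (S L L)) (T L L)))))))))) (F 10 (U (F 839 (V (K 5) (U (K 5) (F 15 (S L (K 1)))))) (F 7303 (U (F 7 (V (S (V L L) (V L L)) (S (V L (S L L)) (V L L)))) (F 7 (V (S (V (S L L) (U (S L L) L)) (V (U (S L L) L) (S L L))) (S (V (S L L) (S L L)) (V (U (S L L) L) (S L L))))))))))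
noncomputable def w3_35 : Tr := (U (V (F 32 (S (U (K 6) (F 2 (V (F 8 (S L L)) (S (K 1) L)))) (U (T (F 2 (V L (S (K 1) L))) (F 2 (U (K 1) L))) (F 2 (S (V (T L L) L) (V (F 1 (T (F 8 (U L L)) (U L L))) (T (S L L) L))))))) (U (K 1) (S (F 16 (V (K 6) (T L (K 6)))) (V (T (S (S L L) L) L) (U (K 1) (S L (S L L))))))) (S (V (F 128 (U (V (F 20 (S (F 8 (S L L)) (T L L))) (T (F 24 (S L L)) L)) (F 4 (V (F 8 (S L (S L L))) (U (S L L) L))))) (F 16 (T (V (F 18 (U L L)) (F 1 (U (S L L) (F 8 (S L L))))) (F 9 (U (V L L) (F 32 (S L L))))))) (V (F 128 (U (S (V (F 4 (T (S L L) L)) (T L L)) (F 4 (V (F 1 (T (S L L) L)) (T L L)))) (F 4 (T (S L L) (F 32 (V (S L L) (S L L))))))) (T (V (F 160 (U (S L L) (S L L))) (U (T (S L L) L) (S L L))) (F 96 (U (V (F 2 (S L L)) (F 1 (S L L))) (S L L)))))))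
noncomputable def w3_36 : Tr := (S (F 3192 (U (F 1 (V (F 8 (S (V (U (T (S L L) L) L) (U (T (S L L) L) L)) (V (U (T (S L L) L) L) (U (T L L) L)))) (U (T (T (S (V (S L L) L) (S L L)) (F 8 (S (V (S L L) L) (F 1 (S L L))))) (F 24 (S (V (S L L) L) (V L (S L L))))) (V (S (T L L) L) (S L (T L L)))))) (F 1 (V (F 8 (U (S (S L L) (S L L)) L)) (V (F 8 (S L L)) (S L L)))))) (F 8 (U (F 36 (V (F 32 (T (F 2 (S (F 8 (U (T L (F 5 (S L L))) L)) (U (V (S L L) (S L L)) (S L L)))) (F 7 (S (F 16 (U (S L L) (S L L))) (U (V (S L L) (S L L)) (S L L)))))) (S (F 272 (T (F 1 (V (F 16 (S L L)) (S L L))) (F 7 (V (S L L) (S L L))))) (T (U (S (F 384 (S L L)) (F 160 (S L L))) (F 416 (S L L))) (F 480 (S (F 1 (S L L)) (S L L))))))) (F 39 (S (F 24 (V (F 2 (S L L)) (T L L))) (F 32 (V (S L L) (S L L))))))))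
noncomputable def w3_37 : Tr := (V (U (T (S (F 72 (V (F 16 (T (S L L) L)) (V (S (S L L) (F 16 (S L L))) (F 1 (S L L))))) (F 1 (V (T (S (S L L) (S L L)) L) (F 8 (T (S (S L L) L) (F 8 (S L L))))))) (F 112 (S (F 1 (V (F 1 (S L L)) (S L L))) (F 8 (V (S L L) (F 4 (S L L))))))) (S (F 64 (V (T (F 36 (T L L)) (F 3 (S L L))) (F 4 (T (T (S L L) L) (F 24 (S L L)))))) (T (F 1 (V (T L L) (F 8 (T L L)))) (F 112 (V (F 8 (S L L)) (S L L)))))) (F 8 (U (S (F 1 (V (T (U L (F 16 (S L L))) L) (F 16 (S L (S L L))))) (T (V (T (U (F 2 (S L L)) L) (F 2 (S L L))) (F 2 (T (S L L) L))) (F 7 (V (S L L) L)))) (F 2 (S (F 16 (V (T (T L (S L L)) (F 1 (S L L))) (U (S (V L (S L L)) (T L L)) (T (S L L) L)))) (V (T (T (S L L) L) (F 24 (S L L))) (T (T (S L L) L) (F 24 (S L L)))))))))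
noncomputable def w3_38 : Tr := (U (U (S (F 1104 (U L (S L (F 128 (S L L))))) (F 1 (V (F 64 (S (K 1) (K 1))) (F 21 (T L L))))) (V (F 17 (S (F 17 (V (S L L) (T (S L (S L L)) L))) (V (T (T L L) L) (F 1 (T (S L (S L L)) L))))) (F 1344 (S (F 16 (U (F 8 (S L L)) (F 8 (T (S (F 4 (S L L)) (F 32 (V L L))) (S L L))))) (F 128 (S (F 4 (U (F 8 (T L L)) (F 8 (T (V L L) (S L L))))) (F 8 (T (U (F 8 (S L L)) (V L L)) (U L (S L L)))))))))) (S (F 1040 (V (F 256 (U (F 16 (V (T (S L L) L) (S (F 8 (T (S L L) L)) (F 2 (T L L))))) (F 16 (V (T L L) (F 2 (S L L)))))) (F 40 (U (V (F 1 (T (U (F 2 (S L L)) L) (F 2 (S L L)))) (F 32 (S (F 4 (T L L)) (T (S L L) L)))) (F 32 (V (F 32 (S L L)) (S L (S L L)))))))) (F 1025 (U (V (F 32 (V (S (F 16 (S L L)) (T L L)) (F 64 (T (F 4 (S L L)) (F 2 (S L L)))))) (S (F 40 (T (F 4 (V (S L L) L)) (F 32 (V L L)))) (F 2 (T (F 8 (V (S L L) L)) (F 96 (V L L)))))) (F 32 (V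 (V (T (S L L) (F 112 (S L L))) (F 80 (S L L))) (F 80 (T (S L L) (F 2 (S L L))))))))))
noncomputable def w3_39 : Tr := (U (S (F 2544 (V (V (S (U (V (F 32 (S L L)) (F 4 (S L L))) (S L L)) (F 32 (U (T (S L L) L) L))) (S (F 4 (U (V (S L L) L) L)) (U (V (F 32 (S L L)) L) L))) (F 5 (U (S (V (V (S L L) (U L L)) (T (S L L) L)) (V (T L L) (S (U L L) (S L L)))) (S (V L (S L L)) (V L L)))))) (F 272 (V (F 512 (T (F 8 (S (F 8 (U (V (S L L) (F 32 (S L L))) L)) (U (T (S L L) L) (F 2 (S L L))))) (F 480 (S (F 2 (U (V (S L L) L) L)) (S (F 2 (U L L)) L))))) (F 10 (S (T (F 16 (U (S L (F 8 (S L L))) L)) (F 192 (S (F 7 (S L L)) (F 2 (V L L))))) (T (F 16 (U (F 64 (S L L)) L)) (F 192 (S (V L L) (F 32 (S L L)))))))))) (F 2320 (S (F 28 (V (U (V (S L L) L) (S L L)) (F 40 (U (S L L) L)))) (V (F 256 (S (F 56 (T L L)) (F 136 (S L L)))) (F 5 (U (S L (S L L)) (S L L)))))))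
noncomputable def w3_40 : Tr := (U (F 160467328 (S (F 376832 (U (F 61472 (U (T (F 1296 (U L (F 8 (S L L)))) (F 384 (S L L))) (F 1328 (T (V (U (S L L) (T (S (F 8 (V L L)) (F 64 (V L (F 4 (S L L))))) (F 2 (S L L)))) (F 10 (S (V L (K 1)) (V (S L L) L)))) (F 7 (V L (F 8 (S (K 1) L)))))))) (F 61669 w3_37))) (F 73741 (T (F 16409 w3_38) (F 27 (U (F 641 (U (S L (F 128 (V (K 1) L))) (F 2 (S (U L (V L (F 8 (S L L)))) (F 1 (V (S (S L L) (S L L)) (U (S L L) (S (F 8 (S L L)) (V L (F 8 (S L L))))))))))) (F 257 (U (F 2 (S (F 64 (V (F 68 (S (F 24 (S L L)) (V L L))) (F 8 (S (F 56 (V L L)) (V L (S L L)))))) (F 1 (V (S (F 10 (V L L)) (F 8 (V L L))) (F 2 (V (S (S L L) (S L L)) (F 4 (S (S L L) (S L L))))))))) (F 6 (S (F 64 (V (F 34 (V (S L L) (S L L))) (F 4 (V L (S L L))))) (F 1 (V (V (F 4 (S L L)) (S L L)) (S (F 1 (V L L)) (V L L)))))))))))))) (F 267387387 w3_39))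
noncomputable def w3_41 : Tr := (T (F 138676442009359 (V (F 46153736 (U (F 8634512 (S (F 131 (T (U (F 1585 (V (F 128 w3_0) (F 32 (S w3_1 (F 4 w3_2))))) (F 1593 w3_3)) (F 49 (U (F 128 (U (F 96 (V (K 1) (S (T (V (F 64 (U (K 5) L)) (F 132 (T (U L (S L L)) L))) (F 128 (S L L))) (F 32 (V (K 5) (T (V L (S L L)) (K 5))))))) (F 96 (V (F 64 (T (U (S (V L (S L L)) (F 2 (V L (S L L)))) (F 2 (S (V (S L L) (S L L)) (V (S L L) (V (S L L) (S L L)))))) (F 2 (U (K 1) (V (F 8 (S L L)) (S L (S L L))))))) (T (S (V (F 64 (T (V (S L L) (F 3 (S L L))) L)) (F 160 (V (F 1 (T (F 4 (S L L)) L)) (F 8 (T (S L L) (S L L)))))) (F 32 (V (F 2 (T (U L (S L L)) L)) (V (S L L) (T (S L L) L))))) (F 32 (S (F 1 (V L (U L (F 32 (S L L))))) (V (S L L) (S L L))))))))) (F 280 w3_4))))) w3_11)) (F 14909689 w3_12))) (F 270664192 (U (F 4395040 w3_32) (F 29557244 w3_33))))) (F 2206540589315 (V (F 270849 (U (F 1283538468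 (S (F 286722 w3_34) (F 143372 (T (F 12553 w3_35) (F 9 (U (F 291 (U (V (S (K 6) (F 2 (S (K 1) L))) (K 6)) (F 4 (V (S (F 32 (S (K 4) L)) (F 32 (V (S L (F 32 (T L L))) (S L L)))) (S (K 1) (V L (K 1))))))) (F 515 (S (F 3 (U (F 72 (V (V (S L L) L) (V L L))) (F 104 (V (V (S L L) (S L L)) (S (F 1 (S L L)) (S L L)))))) (F 4 (V (F 72 (U (V (S (S L L) (U L (S L L))) (S L (S L L))) (F 1 (V (S L L) (S L L))))) (F 128 (U (F 8 (V (F 32 (S L L)) (U L (S L L)))) (F 9 (S (F 16 (S L L)) (S L L))))))))))))))) (F 2139103207 w3_36))) (F 21527396368 w3_40))))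
noncomputable def treeW3 : Tr := (F 0x7fffffffffffffffffffffffffffff3f9ffffffffffffffffff0c7f0bffe0c3c1c7c383c1 w3_41)

theorem pW3 : chkW par treeW3 64 64 384 128 256 256 374491 748983 Lc = true := by decide +kernel

noncomputable def w4_0 : Tr := (S (F 21 (V (F 1 (V (U (S (F 34 (T (F 4 (S L L)) (F 32 (S L L)))) (F 4 (T L (F 8 (S L L))))) (F 2 (S (F 12 (T (S L L) L)) (T L L)))) (F 36 (U (S (F 32 (T (F 8 (V L L)) (V (S L L) (S L L)))) (T (V L (S L L)) (F 32 (V L L)))) (F 32 (S (T (S L L) (S L L)) (T L (S L L)))))))) (F 144 (V (F 128 (T (U (F 32 (S (U (F 8 (S L L)) (F 8 (S L L))) (T (T L L) L))) (S L (S L L))) (F 32 (U (S (V (S L L) L) (U (S L L) L)) (S (S L L) L))))) (F 2 (S (T (U (S L L) L) (U (S L L) L)) (T (F 1 (V L L)) (U L (S L L))))))))) (F 4128 (V (F 320 (S (V (U (T L (S L L)) (T L L)) (F 1 (U (T (F 8 (S L L)) (S L L)) (T (S L L) L)))) (V (T (S L L) (U (S L L) L))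 (U (F 1 (T (S L L) (S L L))) (F 1 (T L L)))))) (F 1024 (V (F 10 (U (S (F 8 (T (V L (S L L)) (F 2 (V L L)))) (T (S L L) (V L L))) (S (F 8 (T L (S L L))) (T L L)))) (F 64 (U (F 128 (T (S (F 6 (S L L)) (S L L)) (F 6 (S (S L L) L)))) (F 128 (S (T L L) (T L L))))))))))
noncomputable def w4_1 : Tr := (V (F 641 (S (T (F 32 (S (F 160 (V (U (V L (S L L)) (S L L)) (U (V (S L L) (S L L)) (S L L)))) (V (U (F 160 (S L L)) L) (F 160 (U (V (S L L) (S L L)) (S L L)))))) (F 37 (S (V (U (V (F 8 (S L L)) (S L L)) (S L L)) (U (U L (S L L)) (S L L))) (V (U (F 8 (S L L)) (S L L)) (U (S (S L L) (S L L)) (S L L)))))) (T (S (U (V (V L L) (F 5 (S L L))) (F 5 (V L (S L L)))) (V (F 16 (S L L)) (F 1 (U (S L L) L)))) (V (F 16 (S (F 32 (U (F 1 (S L L)) L)) (U (F 32 (S L L)) L))) (F 5 (S (T (F 8 (S L L)) (F 8 (V L L))) (U (S L L) (S L L)))))))) (F 2048 (S (F 76 (T (U (V (F 65 (U (S (S L L) (S L L)) (S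 L (S L L)))) (S L L)) (S (F 64 (V (F 64 (S L L)) L)) (F 64 (V (F 64 (S L L)) (S L L))))) (U (V (F 65 (S (V L L) (S L L))) (S L L)) (V (F 64 (S (S L L) (F 64 (S L L)))) (S L (S L L)))))) (F 1024 (S (F 392 (T (F 2 (U (V (V L L) (S L L)) (V L L))) (F 2 (U (V (S L L) L) (V (S L L) L))))) (U (F 128 (V (F 6 (T (S L L) (S L L))) (F 32 (T L L)))) (F 320 (V (T (S L L) (F 2 (S L L))) (F 18 (S L L))))))))))
noncomputable def w4_2 : Tr := (T (U w4_0 (S (F 13 (V (F 257 (V (T (F 48 (S L L)) (F 16 (S (F 4 (S L L)) L))) (F 2 (U (S (F 12 (T L L)) (T L L)) (F 8 (S L L)))))) (F 144 (V (F 130 (S (T L (S L L)) (T L L))) (T (U (F 2 (S L L)) (F 2 (S L L))) (F 2 (U (S L L) (S L L)))))))) (F 4100 (V (F 128 (V (S (T L L) (F 8 (S L L))) (F 9 (S (U (T L L) (S L L)) (U (S L L) L))))) (F 1088 (S (F 4 (V (T (S L L) (F 64 (S L L))) (F 72 (S L L)))) (T (V (S L L) L) (F 4 (V (S L L) L))))))))) (F 32 (U w4_1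 (F 128 (S (F 9 (V (F 129 (U (V (S (F 8 (T L L)) (T L (S L L))) (F 8 (S (T (S L L) L) (T L L)))) (S (F 8 (V (S L L) (S L L))) (T L (F 8 (S L L)))))) (F 16 (V (F 2 (S (T (S L L) (S L L)) (F 1 (T L L)))) (T (S (F 2 (U L L)) L) (S (V L L) L)))))) (S (F 13 (V (F 1 (V (T L L) (U (T L L) (S L L)))) (F 16 (V (F 64 (T L L)) (S L L))))) (F 1029 (V (V (S L L) (F 64 (U (S L L) (S L L)))) (F 64 (V (U (S L L) L) (F 8 (S L L))))))))))))
noncomputable def w4_3 : Tr := (S (F 129 (T (F 64 (U (T (F 8 (S (V (F 8 (S (S L L) (S L L))) L) (V (F 8 (S (S L L) L)) (V (F 8 (S L L)) (S L L))))) (F 8 (S (V (F 8 (U L (S L L))) L) (F 8 (V (S (S L L) L) (S L L)))))) (S (F 8 (V (F 8 (T (S L L) (S L L))) (T (S L L) L))) (V (F 4 (T (F 8 (S L L)) (F 8 (S L L)))) (F 8 (T (S L L) (S L L))))))) (F 88 (U (U (S L L) (S L (T (V (S L L) L) L))) (S (V (T (S L L) (S L L)) L) (V (T (S L L) (S L L)) (T (S L L) L)))))))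 (F 132 (T (U (F 128 (S (V (F 4 (T (S (S L L) L) (V (S L L) (S L L)))) (T (F 8 (S (S L L) L)) (F 12 (S L L)))) (V (F 4 (T (S L L) (S L (S L L)))) (T (F 4 (S L L)) (F 4 (S (S L L) (S L L))))))) (F 128 (S (V (F 4 (T (S L L) (S L L))) (T (F 8 (S L L)) (F 12 (S L L)))) (T (V L (S L L)) (F 4 (V (S L L) (S L L))))))) (F 144 (U (S (V (T (S L L) (S L L)) (F 4 (T (S L (S L L)) (U L (S L L))))) (T (V (S L L) (V (S L L) (F 4 (S L L)))) (V (S L L) (S (F 4 (S L L)) (T L L))))) (S (V (T (S L L) (S L L)) (F 4 (T (S L L) (S L L)))) (V (T (S L (S L L)) (S L L)) (T (S L L) (S L L)))))))))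
noncomputable def w4_4 : Tr := (S (F 256 (V (F 578 (T (V (F 16 (S (F 4 (U (T L L) (S L L))) (T (S L L) (F 4 (S L L))))) (F 8 (S (U (T L L) (S L L)) (U (T L L) (S L L))))) (F 24 (S (V (U (T L L) (S L L)) (T L L)) (V (U (T L L) (S L L)) (U (S L L) L)))))) (F 16 (T (V (F 136 (S (T (S L L) L) (F 64 (T L (S L L))))) (T (F 8 (S (S L L) L)) (S (V L L) L))) (V (F 128 (U (S L (S L L)) (S (S L L) (S L L)))) (S (U L L) (U L L))))))) (F 256 (T (V (F 578 (S (V (F 16 (T (S L L) (U (S L L) L))) (T (V L L) (F 24 (S L L)))) (V (F 16 (T L (S L L))) (U (T (S L L) L) (S L L))))) (S (F 80 (V (F 65 (T L (S L L))) (T L L))) (F 576 (V (F 64 (U (T L L) (S L L))) (F 8 (S L L)))))) (V (F 586 (S (V (U (T (S L L) (S L L)) (S L L)) (F 8 (U (S L L) L))) (V (U (T L (S L L)) (S L L)) (U (T L (S L L)) (S L L))))) (F 16 (S (V (F 129 (U (T L L) (S L L))) (V (S L L) L)) (F 1 (V (F 2 (U (F 16 (S L L)) (S L L)))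 (U (S L L) (S L L))))))))))
noncomputable def w4_5 : Tr := (U (F 8 (U (F 8 (V (F 257 w4_3) (F 2048 (S (F 36 (T (S (F 8 (V (F 2 (U L (T L L))) (S L L))) (F 8 (T (U (V L L) (V (F 130 (S L L)) L)) (V (F 128 (V L L)) (U L L))))) (V (S L (F 129 (S L L))) (U (K 1) (S (K 1) (S L L)))))) (T (S (F 164 (U (F 1 (V (F 2 (T (S L L) L)) (S L L))) (V (F 65 (T (S L L) L)) (S L L)))) (F 1152 (V (F 192 (T (U (F 8 (S L L)) (S L L)) (F 8 (U (S L L) L)))) (F 8 (U (F 4 (T L L)) (F 4 (S L L))))))) (F 36 (V (F 129 (S (T (F 16 (S L L)) (F 4 (T L L))) (F 4 (U (S L (F 4 (T L L))) (T L (S L L)))))) (S (U L (S L L)) (F 1 (U (S L L) (V L L))))))))))) (F 17 w4_4))) (F 9728 (S (F 128 (V (F 256 (U (T (F 288 (S (V (F 16 (S L L)) L) (V L (S L L)))) (U (F 256 (S (F 20 (S L L)) (F 4 (V L L)))) (F 44 (S L L)))) (F 32 (T (F 1 (S L L)) (F 48 (S L L)))))) (U (F 32 (T (S (F 32 (V L L)) (F 32 (V L L))) (V (F 2 (S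 L (S L L))) (S L L)))) (T (F 32 (S (F 34 (T L L)) L)) (F 32 (V (F 2 (S L L)) (S L L))))))) (F 128 (V (F 257 (U (F 32 (T (S (V L (T L L)) (V L (S L L))) (S (U (F 16 (S L L)) L) (U (F 16 (S L L)) L)))) (T (F 32 (S L L)) (F 4 (S L L))))) (U (T (V (F 265 (S L (S L L))) (F 32 (S (S L L) L))) (F 32 (V (F 258 (S (S L L) (F 16 (S L L)))) (S (S L L) (S L L))))) (T (F 256 (S L L)) (V (F 257 (S L L)) (F 32 (S L L))))))))))
noncomputable def w4_6 : Tr := (T (U (F 4 (V (S (F 64 (V (U (T L L) (S L L)) (U (T (S L L) L) (F 1 (S L L))))) (T (F 64 (V (S L L) (T L L))) (F 64 (V (F 16 (U L L)) (S L L))))) (F 512 (S (U (V (T (F 4 (S L L)) (F 4 (S L L))) (T (S L L) (S L L))) (T (V L L) (V L L))) (T (U (V (S L L) (S L L)) (V L L)) (U (V (S L L) (S L L)) (V (S L L) L))))))) (F 4 (V (V (F 64 (S (S L L) L)) (S (F 512 (T L (S L L))) (T L L))) (F 512 (S (V (T L (S L L)) (T L (S L L))) (V (T L L) (T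 L L))))))) (U (V (F 20 (S (V (F 16 (T (T L L) (T (T L L) (F 1 (T L L))))) (T (U (F 256 (S L L)) L) (F 256 (U (F 2 (S L L)) (S L L))))) (T (V (F 16 (U L L)) (S L L)) (F 16 (S (V (U L L) (F 1 (S L L))) (V (S L L) (S L L))))))) (F 1 (S (U (F 384 (V (F 2 (T L (S L L))) (T (S L L) (S L L)))) (F 256 (V (U (T L L) (F 6 (S L L))) (F 2 (T L L))))) (U (F 256 (V (T (S L L) (F 6 (S L L))) (F 2 (T L (S L L))))) (F 256 (T (V (S L L) L) (V (S L L) L))))))) (F 4 (V (V (F 16 (S (F 8 (S L L)) (S L L))) (F 512 (S (T (S L L) (F 2 (S L L))) (U (T L L) L)))) (F 512 (S (F 2 (T (V L L) (F 64 (V L L)))) (T (V L L) (F 2 (V (F 64 (S L L)) (S L L))))))))))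
noncomputable def w4_7 : Tr := (T (F 516 (S (F 1 (T (U (V (V L (U (S L L) L)) (V (U L L) (F 512 (S L L)))) (V (V L L) (F 512 (V L L)))) (U (V (V L (U (S L L) L)) (F 512 (V (U (S L L) L) (U L L)))) (V (V L L) (F 512 (V L L)))))) (T (U (V (V L (F 1 (S L L))) (F 1 (V (U (S L L) L) (F 512 (S L L))))) (F 1 (V (U L L) (F 512 (S L L))))) (F 1 (U (V (V L (U L L)) (V (U (F 512 (S L L)) L) (F 512 (U L L)))) (V (V L L) (F 512 (V L L)))))))) (F 4096 (V (F 4 (U (V (F 32 (S (F 136 (T (S L L) L)) (F 128 (T (F 32 (S L L)) L)))) (F 4 (S (T (U (S L L) L) (F 40 (U L L))) (F 32 (U (T L (S L L)) (T L L)))))) (S (F 4 (T (V L L) (F 32 (V (S L L) L)))) (F 36 (T (T L L) (V L L)))))) (F 512 (U (F 1280 (S (V (T (U (S L L) L) (U (S L L) (S L L))) (U (T (S L L) (F 2 (S L L))) (T L L))) (V (T (U (S L L) L) (U (S (S L L) L) (S L L))) (T (U (S L L) L) (U (F 2 (S L L)) (S L L)))))) (F 1280 (S (T (V (S L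 L) L) (V (S L L) (S L L))) (T (V (S L L) L) (V (S L L) (S L L))))))))))
noncomputable def w4_8 : Tr := (V (F 1096 (T (F 128 (S (F 32 (U (F 4 (T (V (S L L) (F 64 (S L L))) (F 64 (V (S L L) (S L L))))) (F 5 (V (T L (S L L)) (T L (S L L)))))) (T (F 32 (U (V (S L L) (F 5 (S L L))) (F 4 (V L L)))) (F 96 (V (U (S (F 1 (S L L)) L) L) (F 1 (U (S (S L L) L) (S L L)))))))) (F 12 (S (F 132 (U (V (T (S (S L L) L) (S L (S L L))) (T (S (S L L) (S L L)) (S (V L L) (V L L)))) (V (T (S L L) (S (S L L) L)) (T (S L L) (S L L))))) (F 4 (U (F 1 (T (V (S (U L L) L) (S (S L L) (V L L))) (V (V L (U (S L L) L)) (S (V L L) (V L L))))) (F 1 (V (T (S L L) (S L L)) (T (S (S L L) L) (S L (T L L))))))))))) (F 4612 (T (V (F 130 (S (T (F 64 (U (S L L) (S L L))) (F 64 (S (V L L) (F 4 (S L L))))) (U (T (F 64 (S L L)) (F 80 (S L L))) (F 64 (T (S L L) (F 4 (S L L))))))) (S (F 128 (U (T (F 72 (S L L)) L) (F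 192 (S L L)))) (F 128 (U (T (F 128 (S L L)) (S L L)) (F 128 (T L L)))))) (S (F 4 (V (F 32 (T (F 34 (U (S L L) (S L L))) (F 2 (S (F 20 (S L L)) (F 4 (U (S L L) L)))))) (F 16 (U (T (S L L) (F 8 (S L L))) (V L (S L L)))))) (F 16 (V (F 128 (S (F 34 (U (T L (T L L)) (T L L))) (F 32 (U (F 32 (T (S L L) (T L L))) (F 32 (T L L)))))) (U (F 64 (T (F 2 (S L L)) (F 12 (S L L)))) (F 64 (T L (F 2 (S L L)))))))))))
noncomputable def w4_9 : Tr := (T (U (T (V (F 8 (S (F 4 (S (S L L) L)) (F 4 (S L L)))) (F 128 (U (F 256 (S (F 6 (S L L)) (S L L))) (F 256 (S (S L L) (S L L)))))) (S (F 136 (V (U (F 32 (S L L)) L) (F 160 (U (T L (S L L)) (S L L))))) (V (F 8 (U (S L L) L)) (F 133 (U (F 32 (S (S L L) L)) (S L L)))))) (S (F 8 (V (T (F 4 (S L L)) (F 320 (S L L))) (F 324 (T L (S L L))))) (T (V (S L L) L) (F 12 (V (S L L) L))))) (F 1 (U (F 128 (T (S (F 2 (V (S (F 4 (U L L)) (F 4 (S L L))) (F 4 (U (S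 (U L L) (U (S L L) L)) (S L L))))) (V (F 2 (V (S L L) (F 4 (S L L)))) (F 32 (U (F 32 (S (U L L) (S L L))) (T L L))))) (F 2 (S (S (F 4 (U (V (S L L) (V (U L L) L)) (V (S L L) (T L L)))) (V (U (F 4 (S L L)) L) (F 4 (U (V L L) L)))) (V (U (V (S L L) (F 4 (S L L))) (F 32 (S L L))) (F 4 (U (S (U L (F 2 (S L L))) (F 2 (S L L))) (F 2 (T L (S L L)))))))))) (F 64 (S (F 2 (V (T (T L L) (U (S L L) L)) (F 4 (T (S L L) (F 2 (S L L)))))) (T (V (U L L) (F 34 (S L L))) (F 6 (V (U (S L L) L) (F 4 (S L L))))))))))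
noncomputable def w4_10 : Tr := (U (F 4 (T (F 4 (V (F 18 (S (U (T (T L (F 32 (S L L))) (S L (T L L))) (T L (F 32 (S L L)))) (T (U (S L L) L) (U (S (S L L) (S L L)) (S L L))))) (U (F 2 (S (T (S L L) (S (S L L) L)) (T (V (F 16 (S L L)) L) (F 16 (S L L))))) (F 2 (S (T (S L L) L) (T (S L L) (F 16 (S L L)))))))) (F 288 (V (S (F 32 (U (F 32 (T (S (S L L) (S L L)) (S (T L L) (F 2 (S L L))))) (F 32 (T (S L (S L L)) (F 2 (S L L)))))) (F 32 (U (T (V (F 32 (U (S L L) L)) (F 16 (S L L))) (F 48 (S (S L L) (U L L)))) (F 32 (T (S L L) (F 2 (V L L))))))) (S (U (T (S L L) (F 6 (S L L))) (F 2 (T (S L L) (S L L)))) (U (F 4 (T (F 4 (S L L)) (F 32 (S L (S L L))))) (F 2 (T (S L L) (F 32 (S L L)))))))))) (T (F 2 (S (F 4 (T (V (T L L) L) (F 6 (U (V L L) (S L L))))) (F 4 (V (T (S L L) (F 16 (S L L))) (F 2 (T L (T L L))))))) (F 14 (S (V (F 32 (T (F 16 (U L L)) (F 2 (U (S L L) L)))) (U (T L L) (F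 96 (S L L)))) (F 64 (V (F 18 (T (S L L) (S L L))) (U (F 2 (T L L)) (F 2 (S L L)))))))))
noncomputable def w4_11 : Tr := (U (S (U w4_8 (F 512 (V (F 300 (T (S (F 132 (V (T L (S L L)) (T L (T L L)))) (F 132 (V (S L L) (T L (S L L))))) (F 128 (S (F 16 (V (T (S L L) (S L L)) (U (T (S L L) (S L L)) (S L L)))) (V (T (F 16 (S L L)) (S L (S L L))) (F 16 (T (S L L) (U (S L L) L)))))))) (F 513 (T (S (F 388 (V (U (T L L) (S L L)) (S L L))) (F 260 (T (F 2 (V (S L L) L)) (F 2 (V (U L L) L))))) (F 128 (S (V (F 2 (T (F 4 (S L L)) (F 32 (V L L)))) (F 16 (T L (U (S L L) L)))) (V (F 2 (U (F 32 (S L (F 16 (S L L)))) (F 32 (T L L)))) (U (T L L) (F 10 (S L L))))))))))) (V (F 1096 w4_9) (F 4100 w4_10))) (S (F 4608 (T (F 6 (U (S (F 12 (V (T L (S L L)) (S L L))) (F 12 (V (T L (S L L)) (S L L)))) (V (F 72 (S L L)) (F 4 (S L L))))) (F 4 (V (F 256 (U (F 36 (S (F 4 (V (S L L) (S L L))) (V (S L L) (F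 4 (S L L))))) (F 4 (S L L)))) (F 4 (U (S (V (F 10 (U L L)) L) (F 10 (U (V L L) (S L L)))) (F 2 (S L L)))))))) (F 1024 (V (F 256 (T (U (S (F 128 (V L L)) (F 32 (T L L))) (F 32 (S L (S L L)))) (F 1408 (U (F 4 (S (V (S L L) (F 4 (S L L))) (V (S L L) (F 4 (S L L))))) (F 4 (S (S L L) (S L L))))))) (F 517 (T (U (S (F 4 (T L L)) (F 4 (T L L))) (S L L)) (F 160 (U (S (V (S L L) (F 2 (S L L))) (F 2 (V (S L L) L))) (S L (F 2 (S L L)))))))))))
noncomputable def w4_12 : Tr := (S (F 131200 (T (F 4097 (U (F 8 w4_2) (S (F 9728 (V (F 1154 (T (F 8 (U (S (F 16 (T (S L L) (S L L))) (T L L)) (S L L))) (U (F 64 (T (F 8 (S (S L L) L)) (F 8 (S (S L L) L)))) (T L L)))) (F 36 (U (F 8 (T (F 2 (V (S L L) (S L L))) (S (F 2 (V (S L L) L)) (F 2 (T L L))))) (F 136 (T (V L L) (V L (S L L)))))))) (F 2048 (T (F 4608 (V (U (S (F 128 (T (S L L) L)) (F 64 (T L L))) (F 128 (S L L))) (F 1088 (U (S (F 36 (S L L))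 (T L L)) (S L L))))) (F 29 (V (F 9 (U (S (T L L) (S L L)) (S L L))) (U (F 8 (S (V L L) (F 128 (S L L)))) (S L L))))))))) (F 65 w4_5))) (F 65537 (T (U (F 4672 (S (F 4100 w4_6) w4_7)) (F 9 (S (F 588 (T (V (U (S (F 8 (S L L)) (S L L)) (S L L)) (F 1 (U (S (T L L) (T L L)) (S L L)))) (V (F 8 (U (S (T L L) (T L L)) (S L L))) (F 1 (S (F 128 (V (F 2 (S L L)) (S L L))) (V (S L L) (F 128 (S L L)))))))) (F 584 (T (V (U (F 256 (S (S L L) L)) (S L L)) (F 257 (U (S (T L L) (T L L)) (S L L)))) (V (U (S (F 256 (T L L)) (T L L)) (S L L)) (F 257 (U (S (T L L) (T L L)) (S L L))))))))) (F 577 w4_11))))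
noncomputable def w4_13 : Tr := (V (F 32 (V (F 64 (T (S (F 64 (V (T (S L L) L) (T (S L L) L))) (T (V L L) (S L L))) (S (F 64 (V (S L L) (S L L))) (T (F 64 (S L L)) L)))) (S (F 64 (T (U (F 64 (T (F 32 (S L L)) (S L L))) (F 64 (V L (F 32 (S L L))))) (F 64 (U (V L L) (T (S L L) L))))) (F 64 (T (U (T L (F 64 (S L L))) (F 64 (S L L))) (U (F 64 (S L L)) (F 64 (S L L)))))))) (T (F 4 (V (F 160 (T (U (S L (S L L)) (F 32 (S L L))) (U (S (F 32 (S L L)) (S L L)) (F 32 (S L L))))) (S (U (F 196 (T (S L L) (F 4 (S L L)))) (F 4 (T L (F 16 (S L L))))) (U (F 160 (T (S L L) (S L L))) (F 4 (T L L)))))) (F 32 (S (F 132 (V (U (T (F 4 (S L L)) (S L L)) (T L (S L L))) (T (F 8 (U (S L L) L)) (F 136 (U (V L L) (S L L)))))) (F 128 (U (F 64 (V (T L (S L L)) (T (S L L) (F 4 (S L L))))) (F 64 (V (T L L) (T L (S L L))))))))))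
noncomputable def w4_14 : Tr := (V (F 64 (U (F 256 (T (F 64 (V (S (T (V L L) (S L L)) (F 1 (T L (S L L)))) (U (V (S (S L L) L) (S L L)) (S (S L L) L)))) (V (F 64 (S (T (S L L) (S L L)) (U (T L L) (S L L)))) (S (U (T L L) (F 4 (S L L))) (V (F 64 (T L L)) (S L L)))))) (T (F 8 (V (U (S (F 4 (S L L)) (F 512 (S L L))) (F 4 (S L L))) (F 4 (S (S L L) L)))) (F 256 (V (F 64 (T (F 64 (S L L)) (F 64 (S L L)))) (S (F 4 (S L L)) (S L L))))))) (F 4 (U (F 32 (T (V (F 64 (S (F 4 (T L L)) (T L L))) (F 128 (T (F 4 (S L (S L L))) (S (V L L) (V L L))))) (V (S (U (T L L) (F 4 (T L L))) (T L (U L L))) (F 128 (T (U (S (S L L) (F 32 (S L L))) (S L L)) (F 32 (S (T L L) (U (S L L) L)))))))) (T (V (F 32 (U (F 64 (S (S L L) L)) (S L L))) (F 4 (S (T L L) (F 32 (S L L))))) (F 32 (V (T (U (S L L) (S L L)) (F 4 (S L (S L L)))) (S (F 132 (S L L)) (F 128 (S L L)))))))))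
noncomputable def w4_15 : Tr := (U (F 544 (S (U (F 4 w4_13) (F 12 (V (F 32 (T (F 32 (V (S (T L L) (T L L)) (T (S L (S L L)) (S L (S L L))))) (V (S (F 32 (T L L)) (F 32 (S L L))) (T (S (S L L) (S L L)) (S (T L L) (S L L)))))) (T (F 4 (V (F 16 (U (S (F 12 (T L L)) (F 4 (S L L))) (F 4 (S L L)))) (S (F 96 (V L L)) (F 64 (T L L))))) (F 32 (V (S (F 64 (V (F 4 (S L L)) (S L L))) (V (T L L) L)) (F 64 (S (F 136 (T L (S L L))) (T L L))))))))) w4_14)) (F 2048 (V (F 72 (T (F 8 (U (S (F 36 (V (U (S L L) L) (S L L))) (S (F 32 (T (S L L) L)) (S L L))) (F 32 (S (F 64 (S L L)) (S L L))))) (S (F 288 (U (V (F 32 (U (S L L) L)) (S L L)) (S (F 32 (T L L)) L))) (F 256 (U (F 16 (V (S L L) (U (S L L) L))) (S L L)))))) (F 128 (S (F 768 (T (F 64 (U (S (F 12 (V L (T L L))) (F 4 (T L L))) (V L L))) (U (F 16 (S (F 4 (V L (F 17 (S L L)))) (V L (F 4 (S L L))))) (V L L)))) (T (F 256 (U (V (F 160 (S L L))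 (F 256 (S L L))) (S L L))) (F 800 (U (S (T L L) (T L L)) (S L L)))))))))
noncomputable def w4_16 : Tr := (V (U (F 4 (V (T (S (S L L) (S L L)) (S (K 1) (S (K 1) L))) (T (U (S L L) (S (V L L) (S L L))) (S (U (K 1) L) L)))) (F 4 (T (V (S (T L (S L L)) (T L (S L L))) (T (S L (S L L)) (S L (V L L)))) (V (S (V L L) (U L (S L L))) (S (U L L) (U (S L L) L)))))) (U (F 4 (T (V (S (F 4 (U (S L L) (T L L))) (U (S L L) (S L L))) (F 324 (S (F 4 (U (T (S L L) L) (T L (S L L)))) (U (T L L) (T (S L L) (S L L)))))) (F 64 (S (F 1 (V (S L L) (F 20 (U (S L L) (S L L))))) (V (U L L) (F 33 (U (S L L) (S L L)))))))) (F 4 (T (V (S (T (F 4 (V L L)) (F 256 (S L L))) (T (S L L) (S L L))) (F 324 (S (U (T L L) L) (T L (S L L))))) (F 320 (V (S (U (S L L) L) (T L L)) (F 16 (S (F 8 (U (S L L) L)) (U (T L L) (S L L))))))))))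
noncomputable def w4_17 : Tr := (V (U (V (T (S (F 4 (S L (S L L))) (U (F 4 (S L L)) (F 4 (T L L)))) (F 4 (S (U (K 1) L) (U (S L L) (T (S L L) L))))) (T (U (F 4 (S (S L L) (S L L))) (F 4 (S (S L L) (S L L)))) (F 4 (S (S L L) (F 64 (T L L)))))) (F 4 (T (V (T (S (S L L) L) (S (S L L) L)) (S (S L L) (V (S L L) L))) (V (S (U (S L L) L) (T L (S L L))) (S (U (S L L) (S L L)) (T L (S L L))))))) (T (U (V (S (F 4 (V L (F 64 (U L (S L L))))) (T (V L L) L)) (F 8 (S (F 68 (U (T L L) (T L L))) (F 4 (U (F 4 (T (S L L) (S L L))) (F 4 (T L L))))))) (F 4 (V (T (S L (S L L)) (F 64 (S L (S L L)))) (F 64 (S (F 32 (T L L)) (V (T L L) L)))))) (F 8 (U (F 64 (S (T (U (S L L) (V L L)) (U (S L L) (V L L))) (V (T L L) (F 1 (U (T L L) (T L L)))))) (F 64 (S (V (T L L) (F 1 (T (F 4 (S L L)) (U L L)))) (V (V (S L L) (T L (F 1 (S L L)))) (F 1 (T (S L L) (S L L))))))))))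
noncomputable def w4_18 : Tr := (V (T (F 513 (U (V (F 1 (T (U (S L (S L L)) (F 2 (S L L))) (T (S (F 68 (S L L)) (S L L)) (F 4 (U (S L L) L))))) (T (F 17 (S (F 4 (S L L)) (S L L))) (F 272 (S (S L L) L)))) (S (T (F 17 (T L L)) (F 16 (V L L))) (F 1 (V (F 2 (T L L)) (T L L)))))) (F 1 (U (F 512 (T (F 128 (V (F 1 (S (F 32 (S L L)) L)) (F 16 (S (S L L) L)))) (V (F 1152 (U (S L L) (S L L))) (F 32 (S (S L L) L))))) (V (F 9 (S L (T L L))) (F 544 (S (T L L) (F 512 (S L L)))))))) (F 136 (U (T (F 1024 (V (S (F 64 (S L L)) (F 64 (S L L))) (S (F 128 (T L L)) (F 128 (S L L))))) (F 1024 (V (S (T L (S L L)) (T L L)) (F 8 (S (F 4 (T (S L L) (U L L))) (T (S L L) (S L L))))))) (F 1024 (T (V (S (F 64 (S L L)) L) (S (F 128 (T L L)) (F 128 (S L L)))) (V (S (T L L) (T L L)) (F 8 (S (T L L) (T L L)))))))))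
noncomputable def w4_19 : Tr := (U (F 514 (S (F 256 w4_18) (V (F 8449 (T (F 256 (U (T (S (U (V (F 256 (S L L)) L) (V L L)) (V (F 256 (U L L)) (U L (S L L)))) (U (S (V L L) (V (F 256 (S L L)) L)) (V (F 256 (S L L)) (S L L)))) (V (F 256 (S (S L L) (T L L))) (S (T L L) (S L L))))) (U (V (F 256 (S (F 128 (T (U L L) (S L L))) (U (T (S L L) L) (F 256 (T L L))))) (F 4 (T (F 4 (S (S L L) (S L L))) (S (S L L) (F 4 (S L L)))))) (T (F 256 (S (V L L) (V L L))) (F 4 (V (F 4 (S L L)) (S L L))))))) (U (T (F 256 (V (F 4608 (S (F 128 (S L L)) (F 1024 (T L L)))) (F 168 (S (S L L) (F 1 (S L L)))))) (F 9472 (V (S (F 32 (T L L)) (F 1032 (S L L))) (F 40 (S (T L (S L L)) (T L (S L L))))))) (F 8192 (T (F 16 (V (F 1 (S L (F 256 (T L L)))) (F 512 (S L L)))) (F 20 (V (S (F 32 (S L L)) (F 129 (S L L))) (F 160 (S L L)))))))))) (F 3 (T (F 64 (S (U (F 16 (V (F 8 (S (T L L) (F 1024 (S L L)))) (F 32 (U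 (F 4 (S L L)) L)))) (F 16 (V (S L L) L))) (V (F 4624 (U (S (S L L) (T L L)) (S L L))) (U (F 16 (V (F 1 (S L L)) (F 512 (S L L)))) L)))) (F 64 (S (F 4 (V (F 256 (U (V (F 1152 (S L L)) (F 32 (S L L))) (S L L))) (F 32 (U (F 8 (V (S (S L L) L) (F 64 (S L L)))) (F 8 (S L L)))))) (U (V (F 4112 (S (F 256 (S L L)) (S L L))) (F 4 (V (F 256 (S L L)) (F 160 (S L L))))) (F 16 (V (F 1 (S L L)) (F 512 (S L L))))))))))
noncomputable def w4_20 : Tr := (S (U (T (V (F 1 (T (S (F 32 (U (F 4 (S L L)) L)) (F 160 (U L L))) (F 32 (U (S (F 64 (S L L)) L) (F 64 (S L L)))))) (F 32 (S (T (S L L) (V L L)) (U (F 512 (T L L)) (S L L))))) (F 32 (S (F 4 (V (U (F 1 (V (S L L) L)) (T L (F 64 (S L L)))) (F 64 (T (V L L) (S L L))))) (F 8 (U (F 64 (V (F 128 (T (S L L) (F 16 (S L L)))) (V (F 128 (S L L)) L))) (F 64 (V (F 128 (T L (S L L))) (V (F 128 (S L L)) (S L L))))))))) (T (S (F 288 (V (U L L) (U (S L L)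 L))) (V (F 1 (T L L)) (F 32 (T (S L L) L)))) (F 288 (V (S (S (T L L) (F 256 (T L L))) (F 256 (U (T L L) L))) (S (V (T L L) (F 4 (S L L))) (T (T L L) (F 4 (T L L)))))))) (F 1 (U (T (V (S (T (F 128 (S L L)) (U (S L L) (S L L))) (T (F 128 (U (S L L) L)) (F 8 (U (S L L) L)))) (F 8 (T (S (F 16 (S L L)) L) (S (F 16 (U (S L L) L)) (V L L))))) (F 8 (V (S (T (U (S L L) L) (F 16 (U (F 12 (S L L)) (F 4 (S L L))))) (T (U (F 32 (S L L)) (F 64 (S L L))) (F 32 (U (F 4 (S L L)) (F 4 (S L L)))))) (U (T (F 16 (S (V L L) (T L L))) (F 80 (S (V L L) (F 4 (S L L))))) (F 64 (S (F 8 (T L L)) (T L (F 12 (S L L))))))))) (T (V (S (T L L) (U (T L L) (S L L))) (S (T L L) (T L (F 8 (S L L))))) (F 4 (S (V (U (T L (F 96 (S L L))) L) (F 80 (T L L))) (F 32 (V (T (S L L) (F 4 (U L L))) (F 4 (S L (S L L)))))))))))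
noncomputable def w4_21 : Tr := (S (F 32 (U (F 8 (T (V (S (U (T L L) (F 64 (S L L))) (T (V L L) (U L L))) (S (U (T (S L L) L) (F 64 (T L (S L L)))) (T (S L L) (U L L)))) (V (S (F 64 (T (S L L) (S L L))) (T (V L L) (F 64 (V L (S L L))))) (F 64 (S (U (T L L) (T (S L L) (F 1 (S L L)))) (T (V L (F 1 (S L L))) (U (S L L) (F 1 (S L L))))))))) (T (F 8 (V (S (F 64 (S L L)) (S L L)) (S (F 64 (T L L)) (T L (F 64 (S L L)))))) (F 12 (V (S (T L (S L L)) (T L (S L L))) (S (T (F 128 (T L L)) (F 128 (U L L))) (U (T L (F 128 (S L L))) (T L L)))))))) (U (F 128 (T (F 16 (S (V (U (T L (S L L)) (S L L)) (T (V L L) (S L (S L L)))) (V (F 1 (T L (U L L))) (T (U L L) (U L L))))) (F 16 (V (S (T (U (F 64 (S L L)) L) (F 64 (V (S L L) (S L L)))) (F 1 (T (U (T L L) L) (U (F 4 (S L L)) (F 12 (S L L)))))) (S (T (U (F 64 (S L L)) (F 64 (S L L))) (F 64 (V (S L L) (F 1 (S L L))))) (T (U (F 64 (S L L)) (S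 L L)) (F 64 (U (V (S L L) (S L L)) (F 4 (S L L)))))))))) (T (F 128 (V (T (F 16 (S L (F 1 (S L L)))) (F 16 (S L L))) (F 16 (S (S L L) (S L L))))) (F 416 (V (T (S (S L L) (S L L)) (F 4 (S (U L L) (U L L)))) (S (T (S L L) (S L L)) (T L (F 4 (S L L)))))))))
noncomputable def w4_22 : Tr := (S (F 65544 (T (F 9 w4_15) (F 1561 (U (F 128 (S w4_16 w4_17)) (F 256 (S (F 4 (V (T (U (V (S (U L L) (T L L)) (S (S L L) L)) (V L (S L L))) (U (V (T (S L L) (S L L)) (S L L)) (S (S L L) (S L L)))) (T (U (V (S (S L L) (S L L)) (F 324 (S L L))) (S (F 256 (S L L)) (S L L))) (F 256 (U (V (S (S L L) (S L L)) (F 2 (S (F 4 (S L L)) L))) (F 2 (S L L))))))) (V (F 4 (T (U (V (S L L) (U (S L L) (S L L))) (S L L)) (U (V (S L (S L L)) (T (S L L) (F 64 (U (S L L) L)))) (S (S L L) (T L L))))) (U (F 4 (T (V (S (S L L) L) (F 64 (S L L))) (V (S (S L L) (S L L)) (F 320 (S (S L L) (S L L)))))) (F 4 (T (S L (S L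 L)) (F 64 (S L (T L L))))))))))))) (F 8200 (T w4_19 (F 515 (U (F 1024 (V (F 8 w4_20) (F 16 w4_21))) (F 256 (S (F 4 (T (F 256 (U (V (V (S L (F 512 (S L L))) (F 16 (S L L))) (F 16 (V (U (S L L) L) (F 64 (S L L))))) (V (V L L) (F 20 (S L L))))) (F 256 (V (U (F 16 (V (S (S L L) L) (F 64 (S L L)))) (S (F 16 (T L L)) (F 4 (S L L)))) (F 16 (U (F 64 (S (V (U (S L L) L) (F 1 (S L L))) (V (U (S L L) L) (S L L)))) (F 64 (S (T L L) (S L L))))))))) (V (T (F 2048 (U (F 256 (S (V (S L L) L) (V L L))) (F 256 (S L L)))) (F 28 (U (V (F 65 (S L (T L L))) (S (F 32 (S L L)) L)) (S (S L L) L)))) (F 4 (U (T (S (F 32 (V L (F 8 (S L L)))) (F 128 (T L L))) (F 416 (S (V (S L L) (U (S L L) L)) (V (S L L) (U (S L L) L))))) (F 128 (T (T L L) (F 20 (S (S L L) (S L L)))))))))))))))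
noncomputable def w4_23 : Tr := (V (F 393744 (U (F 288 w4_12) (F 3 (S (F 131072 (T (F 4642 (U (F 2056 (T (S (F 70 (V L L)) (F 4 (V L L))) (F 14 (S (F 16 (V L L)) (V L (S L L)))))) (F 2560 (S (F 34 (S L L)) (S L L))))) (F 572 (U (S (F 8 (T (F 162 (V (S L L) L)) (F 38 (V L (T L L))))) (V (F 1041 (T (F 64 (S L L)) (F 10 (S L L)))) (F 520 (U (T L (F 18 (S L L))) (F 2 (S L L)))))) (F 1536 (S (T L L) (S L L))))))) (F 33792 (T (F 2304 (U (F 257 (T (S (F 4 (V L L)) (F 512 (S L L))) (F 4 (S (F 1024 (V L L)) (V L L))))) (F 10496 (S L L)))) (F 5 (U (F 1153 (S (F 6 (V (F 72 (U (S L (S L L)) L)) (F 4 (T L (F 4 (S L L)))))) (T (V L L) (F 22 (V (U L L) (F 68 (S L L))))))) (F 5120 (S (F 18 (S L L)) (F 2056 (S L L)))))))))))) (F 8458504 (U (F 32 w4_22) (F 51 (S (F 5120 (T (F 576 (U (S (F 256 (V (F 80 (T L (S L L))) (T (F 64 (S L L)) (F 16 (S L L))))) (V (F 32 (T L L)) (T L (F 256 (S L L)))))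 (S (F 256 (S L L)) (S L L)))) (F 4 (U (S (F 64 (T (F 128 (V (F 32 (S L L)) (F 512 (V (F 8 (S L L)) L)))) (F 144 (V (S L L) (F 320 (U (S L L) L)))))) (F 8 (V (F 16 (T (S L L) (F 32 (S L L)))) (F 32 (U (F 32 (T L L)) L))))) (F 200 (S (T L L) (S L L))))))) (F 128 (T (F 1024 (U (S (F 256 (V (T L L) (F 68 (S L L)))) (T (F 256 (S L L)) (F 1280 (S L L)))) (F 256 (S L L)))) (F 20 (U (F 8 (S (F 4 (V (T L (F 160 (S L L))) (F 128 (T L (F 8 (S L L)))))) (T (V (S L L) L) (F 12 (V (F 64 (S L L)) (S L L)))))) (S (F 520 (S L L)) (F 264 (S L L))))))))))))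
noncomputable def w4_24 : Tr := (T (V (F 258 (U (S (T (F 20 (U L L)) (F 16 (U L L))) (V (F 4 (S L (S L L))) (T (F 20 (U (S L L) (S L L))) (F 16 (U L (V L (F 2 (S L L)))))))) (S (V (F 4 (T (F 4 (S L L)) L)) (F 16 (T (F 8 (S L L)) (S (S L L) L)))) (V (F 4 (T (S L L) L)) (T (F 20 (S L L)) (F 48 (S (S L L) L))))))) (F 8 (S (V (F 65 (U L (S L L))) (U (K 1) L)) (F 1 (V (F 2 (U (T (U L L) (F 16 (S L L))) (S (T L L) (T L L)))) (U L (T (S L L) L))))))) (V (F 258 (U (S (F 16 (U L (F 2 (S L L)))) (F 32 (V (S L L) (F 2 (U (T L L) (T (S L L) (S L L))))))) (F 32 (S (F 2 (V (S L L) (U (S L (T L L)) (S L (V L L))))) (V (S L (S L L)) (F 2 (S (V (S L L) (S L L)) (V (S L L) (T L L))))))))) (F 8 (V (F 1 (S (U L L) (F 6 (U (S L (V (T L L) (S L L))) (S (U L (S L L)) (V (T L (S L L)) (S L L))))))) (F 32 (S L (V (F 64 (T L L)) (T L L))))))))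
noncomputable def w4_25 : Tr := (F 128 (U (F 64 w4_24) (V (F 321 (S (T (V (F 16 (T (S L (S L L)) (F 8 (S L L)))) (F 4 (S (T L L) (T L L)))) (F 6 (V (U (V L (S L L)) (S L L)) (S (U (T L L) L) (U (T L L) (S L L)))))) (T (V (F 16 (U (T (S L L) L) (S L L))) (T (S L (F 16 (S L L))) (F 6 (U (S L L) L)))) (F 2 (V (S (F 16 (U (S L L) L)) (T (S L L) L)) (F 16 (U (V (S L L) (T (S L L) (S L L))) (S (S L L) (S L L))))))))) (F 32 (T (V (F 266 (S (U (T (S L L) L) (S L L)) (U (T (S L L) (F 16 (S L L))) (S L L)))) (S (U (S L L) (F 8 (S L L))) (F 4 (U (F 32 (V L L)) (F 32 (S L L)))))) (F 12 (V (F 33 (S (U (T L L) (S L L)) (S (V (S L L) (S L L)) (V (U (S L L) L) (S L L))))) (S (V (S L L) L) (V (F 1 (T L (F 2 (S L L)))) (S L L))))))))))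
noncomputable def w4_26 : Tr := (S (F 128 (V (F 256 (U (F 12 (S (T (V (F 1 (S L L)) (S L L)) (F 32 (V (F 32 (S L L)) (S L L)))) (F 1 (T (V (S L L) (S L L)) (F 2 (V (S L L) (S L L))))))) (F 4 (S (F 32 (T (S L L) (F 2 (S L L)))) (F 1 (T (S L L) (F 6 (S L L)))))))) (F 32 (U (T (V (F 10 (S L (S L L))) (S L L)) (F 12 (V (F 32 (S L (S L L))) (S L (S L L))))) (F 8 (V (F 64 (S (S L L) (S L L))) (S (T L L) (T L L)))))))) (F 8 (V (F 257 (U (S (F 32 (T (V (F 4 (S L L)) (F 16 (T L L))) (F 48 (V (S L L) (S L L))))) (T (F 32 (V (F 4 (S L L)) (U (S L L) L))) (F 2 (V (U (F 4 (S L L)) (S L L)) (F 36 (S (S L L) (S L L))))))) (S (F 32 (T (S L L) (F 32 (T L L)))) (T (S L L) (F 2 (V L L)))))) (F 72 (T (S (V (F 2 (U (S L L) L)) (T L (F 4 (S L L)))) (U (V (F 130 (S L L)) (F 4 (S L L))) (F 6 (S L L)))) (F 4 (S (V (F 32 (U (S L L) L)) (U (S L L) L)) (V (F 33 (U (S L (S L L)) L)) (U (V (F 32 (S L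 L)) (S L L)) L)))))))))
noncomputable def w4_27 : Tr := (V (F 193 (S (F 8 (V (T (U (S (S L L) (S L L)) (S L (S L L))) (U (S (S L L) (S L L)) (S L (S L L)))) (T (S (V (S L L) (S L L)) (V (T L L) (S L L))) (S (V (S L L) L) (V (S L L) (S L L)))))) (F 8 (V (T (U (T (S L L) (S L (S L L))) (S L L)) (U (V L (S L L)) (S (S L L) (S L L)))) (T (S (V (U (S L L) L) (T (S L L) (S L L))) (V (U (S L L) L) (U (S L L) L))) (S (V (U L L) (U L L)) (V (U (S L L) L) (U (S L L) L)))))))) (F 8 (S (F 4 (V (T (F 32 (U (F 32 (S L L)) (S L (F 32 (S L L))))) (F 96 (S L (F 16 (S L L))))) (T (V (S L L) L) (F 64 (S L L))))) (V (F 132 (T (F 16 (V (S (T L L) (U (S L L) L)) (S (S L L) (T L L)))) (F 16 (V (S (S L L) (U (S L L) L)) (F 1 (S L (S L L))))))) (T (F 4 (V (F 1 (S (S L L) (F 2 (S L L)))) (S L (S L L)))) (F 1 (V (F 97 (S L L)) (S L L))))))))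
noncomputable def w4_28 : Tr := (U (F 144 (S (F 64 (V (F 130 (U (T L L) (S L (F 16 (T (T L L) L))))) (K 6))) (V (F 129 (T (F 6 (U (S (T L L) (V L (U (S L L) (S (S L L) (T L L))))) (S (U (S (S L L) (V L (T L L))) (V (S L L) (S L (V L L)))) (V (S (S L L) L) (S (V (T L L) (T L L)) (V (T L (S L L)) (T (S L L) L))))))) (F 2 (S (U (S L L) (F 16 (V (S L L) (V (S L L) L)))) (F 16 (V (U L (S L L)) (U (T (S L L) L) (V (S (S L L) (S L L)) (S (S L L) (S L L)))))))))) (F 64 (V (F 128 (T (F 16 (S (F 2 (S L L)) (F 2 (U (S L (T L L)) (S (T L L) (V (T L L) L)))))) (F 32 (S (S L L) (S (T L L) (U (T L L) (F 2 (T (T L L) L)))))))) (S (K 6) (U (K 6) (T (F 4 (S L L)) (F 1 (S (K 1) L)))))))))) (F 20 (S (F 72 (V (F 2 (S (V (F 1 (U (T (S L L) L) (S (S L L) (T L L)))) (S L (F 1 (S L L)))) (F 1 (V (T (U (V L (S L L)) (S L L)) (S (V L L) (V L L))) (T (U (S L L) (S L L)) (U L (F 1 (S L L)))))))) (V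 (S L (T (F 2 (S L L)) L)) (S L (S L L))))) w4_27)))
noncomputable def w4_29 : Tr := (S (F 100 (V (F 32 (S (V (F 32 (U (T (S L L) L) (S L L))) (U (T (S L L) (F 1 (S L L))) L)) (U (F 32 (V (T (S L L) (V L L)) (T (S L L) (F 16 (S L L))))) (V (F 32 (S L L)) (S L L))))) (U (S (F 64 (V (F 1 (S L L)) (S L L))) (V (F 32 (T (S L L) (F 1 (S L L)))) (F 64 (V (S L L) L)))) (F 64 (V (F 1 (S L (S L L))) (S (F 1 (S L L)) (F 1 (S L L)))))))) (F 36 (V (F 65 (S (F 8 (U (V (T (S L L) (S (S L L) (S L L))) (T (S (S L L) (S L L)) (S L (T L L)))) (V (S L L) (T L L)))) (U (V (S (F 8 (T L (S L L))) (T (S L L) (S L L))) (F 8 (T (S (V L L) (V L L)) (U (S (S L L) (S L L)) (F 16 (S L L)))))) (V (T L L) (F 8 (T (S L L) (F 16 (S L L)))))))) (F 8 (S (V (F 2 (U (S (V L L) (F 1 (T (S L L) L))) (V (F 1 (S L L)) L))) (U (T (F 1 (S L L)) (F 3 (S L L))) (F 3 (S L L)))) (V (F 66 (U (T (S (S L L) (V L L)) (F 16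 (S (S L L) (S L L)))) (T (S L L) (F 16 (S L L))))) (U (T (V (F 2 (S L L)) (F 1 (S L L))) (F 3 (S L (S L L)))) (F 3 (S L (S L L))))))))))
noncomputable def w4_30 : Tr := (V (T (F 16 (U (S (F 4 (T (S L L) (S L L))) (F 4 (U (T (S L L) L) (F 2 (T L L))))) (S (F 4 (T (S L (F 2 (S L L))) (F 2 (S L L)))) (F 32 (S (F 8 (T (S L L) L)) (F 8 (T L (T L L)))))))) (S (F 32 (U (F 32 (S L L)) (F 32 (V L (S L L))))) (F 2 (U (V L (F 4 (T L L))) (S (F 4 (T L L)) (V L (F 4 (T L L)))))))) (F 32 (T (S (U (T (F 4 (S (V L L) (U L L))) (F 32 (V L (F 2 (S L L))))) (S (V (F 4 (S L L)) (F 32 (S L L))) (F 32 (T L (S L L))))) (U (T (F 4 (U (F 2 (S L L)) (S (S L L) L))) (F 32 (S (S L L) (F 8 (S L L))))) (F 32 (T (F 8 (S L L)) (V (F 8 (S L L)) (S L L)))))) (F 32 (S (U (T (S (F 2 (S L L)) (F 2 (S L L))) (F 2 (V L (S (S L L) (S L L))))) (S (F 2 (V (S L L) (T L L))) (V (T L L) (F 2 (T L L))))) (U (T (S (V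 L L) (U L (S L L))) (V (S L L) (F 2 (S L L)))) (S (T (V L L) (V L L)) (T (V L L) (V L (S L L))))))))))
noncomputable def w4_31 : Tr := (T (V (F 2 (S (U (F 16 (T (V (S L L) (F 2 (S L L))) (F 2 (S (V L L) (V L L))))) (F 32 (T (F 2 (S L L)) (F 2 (S (S L L) (S L L)))))) (U (F 32 (T (S (V L L) (V L L)) (S (F 2 (V L L)) (V (S L L) L)))) (T (S (T L L) (F 32 (S L L))) (F 32 (S (F 2 (S L L)) (V L L))))))) (F 8 (S (U (F 16 (T (S L L) (V L L))) (V (T L (F 48 (S L L))) (F 16 (T L L)))) (F 16 (V (F 2 (T (S L L) (S (S L L) (S L L)))) (T (S L L) (U (S L L) (S L L)))))))) (F 4 (V (F 32 (U (F 2 (S (T (S (V (S L L) L) (V (S L L) (S L L))) (V (S (S L L) (S L L)) (S L (U L (S L L))))) (V (S (T (S L L) (S L L)) (T (S L L) (S L L))) (S (T (S L L) (S L L)) (T (S L L) (S L L)))))) (S (F 2 (S (V (T L (S L L)) (T L L)) (V (T L (S L L)) (T L L)))) (T (F 2 (S (V L L) (V L L))) (F 2 (V (S (S L L) L)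 (S (U L L) (U L L)))))))) (F 16 (S (T (U (S L (V L L)) (V (F 2 (S L L)) L)) (V (F 2 (U L (S L L))) (S L L))) (V (U (T (F 2 (S L L)) (F 2 (U (S L (S L L)) (S L L)))) (F 2 (S (T (S L L) L) (T (S L L) L)))) (T (U (U (S L L) (S L L)) (S L L)) (S (U L L) (V (F 2 (U L L)) (S L L))))))))))
noncomputable def w4_32 : Tr := (V (F 320 (S (T (V (F 16 (S (F 4 (U (T L L) L)) (F 36 (U (T L L) L)))) (F 32 (S (T (F 4 (S L L)) (F 32 (T L L))) (F 32 (T L (S L L)))))) (F 2 (V (S (F 4 (U (S L L) L)) (T (F 4 (S L L)) (V L L))) (F 4 (U (S (F 2 (T L (S L L))) (T (S L L) (F 2 (S L L)))) (S (F 2 (T L L)) (T L L))))))) (F 2 (T (V (F 8 (T (S L (S L L)) (U (S L L) (S L L)))) (F 4 (U (T (F 8 (S L L)) (S L L)) (T L (S L L))))) (V (U (S (T L L) (T (F 8 (S L L)) L)) (S (T L L) (S L L))) (F 4 (U (S (T (S L L) (S L L)) (T L (S L L))) (S (T L (S L L)) (S L L))))))))) (F 132 (T (S (V (F 6 (U (T (F 16 (S L L))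 (F 16 (S L L))) (T L L))) (F 8 (V (F 48 (U (S L L) L)) (T L (F 16 (S L L)))))) (F 4 (V (F 32 (U (S (V L L) (V L L)) (T L (S L L)))) (S (F 16 (U (T L L) (S L L))) (T (F 48 (S L L)) (F 48 (U L L))))))) (F 4 (S (F 16 (V (F 2 (S (V (U (S L L) L) (T L L)) (U (V (T L (S L L)) (S L L)) (V L L)))) (V (S (F 2 (S L L)) (F 2 (T L L))) (S (S L L) (T L L))))) (V (F 32 (S (F 2 (U (V (U L L) (S L L)) (V L L))) (U (V (T L L) (F 2 (T L L))) (V (T L L) L)))) (F 16 (V (F 2 (S (T L (S L L)) (T L (S L L)))) (S (T L (S L L)) (T L L))))))))))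
noncomputable def w4_33 : Tr := (T (S (U (V (F 8 (T (S (F 16 (S L L)) (F 2 (V L L))) (F 2 (V (S L L) (F 4 (T L L)))))) (F 68 (T (F 8 (S (U (S L L) L) (V L L))) (S (F 8 (U L L)) (F 8 (U L (S L L))))))) (F 64 (V (F 8 (V (T (S L L) (S L L)) (F 4 (S (U L L) (S L L))))) (F 16 (T (F 4 (V (U (S L L) L) (S L L))) (S (S L L) (F 4 (S L L)))))))) (F 8 (U (F 2 (V (T (V (S L L) (F 4 (S L L))) (S (V L (F 4 (T L L))) (V (S L L) L))) (F 4 (U (T (S (V L L) (S L L)) (S (V L L) (S L L))) (S (T (V L L) (S L L)) (T (S L L) (T L L))))))) (F 2 (V (T (S (S L L) (S L L)) (S (T L L) (V L L))) (F 4 (T (S (S L L) (V L L)) (U (V (S L L) L) (S L L))))))))) (F 64 (U (V (S (T (F 8 (V (U L L) L)) (S L L)) (F 8 (S (V (U L (S L L)) (F 4 (S L L))) (T (U (T L L) (T L L)) (U L (S L L)))))) (F 16 (S (T (S (U L (S L L)) (U L (S L L))) (S (U L (S L L)) (U L (S L L)))) (S (V (T L L) (U (T (S L L) L) (T L L))) (T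 (V L (S L L)) (V L L)))))) (S (V (V (F 8 (T (U L L) (S L L))) (S (F 16 (T L L)) (F 16 (S L L)))) (F 16 (S (T (V L L) (V L L)) (T (S L L) (S L L))))) (V (S (F 8 (T (S L L) (V (S L L) L))) (F 8 (T (V L L) (S L L)))) (F 16 (T (S (S L L) (V L (S L L))) (S (S L L) (V L (S L L))))))))))
noncomputable def w4_34 : Tr := (V (F 2 (S (S (V (T (U (S L L) L) (F 16 (U (S L L) L))) (F 16 (T (U (S L L) L) (U (S L L) L)))) (T (V (U (S L L) L) (U (S L L) L)) (V (U (S L L) (S L L)) (F 16 (U (S L L) L))))) (S (T (V (U (S L L) L) (U (S L L) L)) (V (U (S L L) L) (U (S L L) (S L L)))) (T (V (U (T L L) L) (U (S L L) L)) (V (U (T L L) L) (U (S L L) L)))))) (S (F 4 (U (V (F 16 (S (T (S L L) (S L L)) (T (S L L) (S L L)))) (T (S (S L L) L) (S (S L L) (F 16 (U (S L L) L))))) (T (F 16 (V (S L L) (S (S L L) (S L L)))) (F 16 (V (S (U L L) (V L (S L L))) (S L (S L L))))))) (U (T (F 2 (V (S (S L L) (S L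 L)) (F 16 (S L L)))) (F 6 (V (S (S L L) (S L L)) (S (U L (S L L)) (S L L))))) (F 2 (V (S (T L (F 16 (S L L))) (T L (S L L))) (S (F 16 (T L L)) (T L (F 16 (S L L)))))))))
noncomputable def w4_35 : Tr := (T (V (F 32 (S (U (T (S L L) (S (S L L) (S L L))) (T (S L L) (S L L))) (U (T (V (F 8 (S L L)) L) (S (S L L) (S L L))) (T (S L L) (S L L))))) (S (U (T (F 32 (S L L)) (F 32 (V (S L L) (F 2 (S L L))))) (F 32 (S (S L L) (T L L)))) (F 32 (T (S (S L L) (S L L)) (U (S L L) (S L L)))))) (S (V (F 32 (U (T (S (S L L) (S L L)) (V (S L L) (F 2 (S (S L L) L)))) (S (V (S L L) (S L L)) (V L (T L L))))) (T (F 48 (S (U (S L L) L) (U (S L L) L))) (F 48 (V (S (S L L) (S L L)) (S (S L L) (S L L)))))) (F 32 (V (U (T (S (S L L) (S L L)) (S (V L L) (S L L))) (T (S L L) (V L (S L L)))) (S (V (U (T L L) (S L L)) (F 2 (U (S L L) L))) (U (V (T L (S L L)) (T L L)) (T L (S L L))))))))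
noncomputable def w4_36 : Tr := (U (F 1152 (V (F 2 w4_33) (F 64 (T (S (V (F 64 (U (F 2 (T (V (F 4 (S L L)) (S L L)) (S (V (S L L) (S L L)) (V (S L L) (S L L))))) (F 2 (T (S (S L L) (S L L)) (S (V L L) (V L L)))))) (F 32 (T (F 2 (S (V (S L L) L) (V (S L L) L))) (F 2 (S (F 16 (V (S L L) (S L L))) (V (U L L) (F 16 (S L L)))))))) (F 96 (V (T (V (F 8 (U (S L (T L L)) (S L L))) (S (U L L) (U L L))) (S (U (V (S L L) (S L L)) (V L L)) (U (V (S L L) L) (V L L)))) (T (S (V (S L L) (S L L)) (V (S L L) L)) (V (S (U L L) (U L L)) (S (S L L) (S L L))))))) (F 32 w4_34))))) (F 1216 (V (F 2 (T (S (V (F 8 (T (U (T L (S L L)) L) (U (S L (S L L)) (S L L)))) (F 4 (S (T L (U L L)) (T (F 8 (S L L)) (U (S L L) L))))) (S (F 8 (V (U (T L (S L L)) (T L L)) (F 8 (T (S L L) (S L L))))) (F 8 (V (U (T L (S L L)) (T L L)) (F 8 (T (S L L) (S L L))))))) (S (V (U (T (F 8 (S L (S L L))) (V (F 8 (S L L)) (S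 L L))) (T (F 8 (S L L)) (S L L))) (F 4 (U (S (T L (S L L)) (T L (S L L))) (S (S L L) (T L L))))) (V (U (T (F 8 (S L (S L L))) (S (U L L) L)) (V (F 8 (S L L)) (T (F 8 (S L L)) L))) (U (F 4 (T (S (S L L) L) (S L L))) (S (F 4 (S L L)) (F 4 (S L L)))))))) (F 32 w4_35))))
noncomputable def w4_37 : Tr := (V (F 64 (U (T (S (V (F 8 (S L (S L L))) (F 16 (S L L))) (V (F 8 (T L (S L L))) (S (F 16 (S L L)) (F 16 (S L L))))) (S (V (S (S L L) (T L L)) (F 16 (U (S (S L L) L) (S L L)))) (V (T (F 8 (S L L)) (S L L)) (S (F 16 (U L L)) (T L L))))) (S (T (V L L) (V (S L L) (S L L))) (T (V (F 8 (S L L)) L) (V (S L L) (S L L)))))) (F 4 (S (T (F 2 (U (V (U (S (S L L) L) L) (S L L)) (S L L))) (F 2 (U (V (S (V L (S L L)) (U (S L L) L)) (S (F 16 (V L L)) (T L (F 16 (S L L))))) (V (S L L) (S L L))))) (U (T (F 2 (S (V (S L L) (U L L)) (V (S L L) (U L L)))) (F 2 (V (U (S (S L L) (T L L)) (S L L)) (S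 (V (S L L) (S L L)) (V L (S L L)))))) (F 2 (T (V L L) (V (S L L) (T L L))))))))
noncomputable def w4_38 : Tr := (S (T (F 68 (V (U (S L L) (S L L)) (F 2 (U (V (S L L) (T (S (S L L) L) (U (S L L) (S L L)))) (S (V (T L (S L L)) (T (U L L) (S L L))) (T (V L (S L L)) (V (S L L) (U L L)))))))) (F 36 (V (U (S (K 4) (K 4)) (S L L)) (F 2 (U (V (S L L) (S (S L L) (S L L))) (S (V (S L L) (T (S L L) L)) (V (S L L) (T (S L L) (S L L))))))))) (T (F 64 (V (U (T L L) (S (S L L) (T L L))) (F 16 (U (S (F 16 (V L (T L L))) (T (F 16 (S L L)) (F 16 (S L L)))) (V (S (F 16 (S L L)) (T L L)) (F 16 (T (S L L) (S (U (S L L) L) (U L L))))))))) (V (U (S (K 1) (K 1)) (T (F 64 (S L L)) (F 32 (V L L)))) (F 36 (U (S (F 2 (T (V L L) (S L L))) (V (T L L) (F 2 (S L L)))) (F 2 (V (S (S L L) (S L L)) (S (T (S L L) (S L L)) (T (S L L) L)))))))))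
noncomputable def w4_39 : Tr := (V (F 2 (S (U (T (S (U L (T L L)) (V (U (S L L) (S L L)) (S L L))) (V (S (S L L) (S L L)) (S L (S L L)))) (S (V (T (S L L) (S L L)) (T L L)) (V (T (U L L) (S L L)) (T (S L L) (S L L))))) (S (V (U (T (S L L) (U L (S L L))) (T (U (S L L) L) (S L L))) (T (U (U (S L L) (S L L)) (S L L)) (U (V L L) (S L L)))) (U (V (T (V L (S L L)) (U (S L L) (S L L))) (T (V (S L L) (U L L)) (V (U L L) (S L L)))) (V (T (U L L) (S L L)) (T (S L L) (S L L))))))) (S (V (T (F 2 (U L (S L L))) (F 2 (U L (S L L)))) (S L (T L L))) (V (S (F 2 (T (U (S L L) (S L L)) (U (S L L) (S L L)))) (F 2 (T (U (S L L) (S L L)) (U (S L L) (S L L))))) (S (U (T L L) (T (S L L) L)) (T (V (F 2 (S L L)) (S L L)) (U (S L L) (F 2 (S L L))))))))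
noncomputable def w4_40 : Tr := (S (V (F 48 (T (S (V (U (T L L) (S L L)) (U (S L L) L)) (V (U (T L L) (S L L)) (T (S L L) (S L L)))) (S (V (T (S L L) (F 1 (S L L))) (U (S L L) L)) (V (T (U L L) (F 1 (S L L))) (U (T L L) L))))) (T (F 16 (V (F 2 (S (T L L) (U (S L L) (S L L)))) (S (T L L) (T (S L L) L)))) (F 64 (S (F 3 (V (S L L) L)) (F 3 (V (S L L) (S L L))))))) (F 16 (V (F 2 (T (S (V (U (T L L) (S L L)) (T (S L L) (U (S L L) L))) (V (U (T L L) (S L L)) (T (V L L) (U (S L L) L)))) (S (V (U (T (S L L) (S L L)) (S L L)) (T (U (S L L) L) (F 16 (S L L)))) (V (U (T (S L L) (S L L)) (S L L)) (T (U (S L L) L) (F 16 (S L L))))))) (T (T (F 2 (V (S (S L L) (S L L)) (S (S L L) (S L L)))) (F 2 (S (V (S L L) (S L L)) (V (U (S L L) L) (S L L))))) (F 2 (S (F 16 (V (U (S L L) L) (S L L))) (V (U (T (S L L) L) (F 16 (S L L))) (F 16 (U (S L L) L)))))))))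
noncomputable def w4_41 : Tr := (V (F 10 (U w4_38 (S (V (T (F 64 (U (S (F 18 (U L L)) (S L L)) (S (F 16 (S L L)) (T L L)))) (F 96 (S (F 8 (U (S L L) L)) (V L (F 8 (S L L)))))) (F 100 (T (S (V (U (S L L) L) (U (S L L) (S L L))) (V (U (T L L) L) (U (S L L) (S L L)))) (S (V (U (S L L) L) (U (S L L) (S L L))) (V (U (S L L) L) (U (S L L) (S L L))))))) (V (T (F 64 (S (V (S L L) (F 16 (U L L))) (V (T L L) (F 16 (S L L))))) (S (F 96 (U (S L L) L)) (V (U (S L L) L) L))) (F 4 (T (F 2 (S (F 16 (U (V (S L L) (S L L)) (T L L))) (U (V (T L L) (F 16 (S L L))) (T L L)))) (F 6 (S (V (U (S L L) L) (U (S L L) (S L L))) (V (S L L) (U (S L L) (S L L))))))))))) (F 148 (U (T (F 16 w4_39) (V (F 32 (S (U (V (F 2 (S (T L L) (T (S L L) (S L L)))) (S (S L L) (F 2 (T L L)))) (F 2 (S (V (T (S L L) L) (S L L)) (V (T (S L L) (S L L)) (T (S L L) L))))) (F 2 (S (V (U (T (S L L) (S L L)) (T (S L L) (S L L)))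 (U (T (S L L) (S L L)) (T (S L L) L))) (V (U (T (S L L) (S L L)) (T (S L L) (S L L))) (U (T (V L L) (S L L)) (T (S L L) (S L L)))))))) (S (V (F 32 (S (T L L) (U (S L L) (F 2 (S L L))))) (F 64 (T L L))) (T (F 16 (S (F 2 (V (U L (S L L)) L)) (F 2 (V (U (S L L) (S L L)) (U L L))))) (F 96 (S (V (U L L) (U L L)) (V (F 1 (U (S L L) L)) (U L L)))))))) w4_40)))
noncomputable def w4_42 : Tr := (T (F 64 (U (V (S (V L L) (T (S L (S L L)) (S L L))) (F 16 (S (S (T (S L L) L) (T (S L L) (S L L))) (V (S L L) (U (T L L) (T (S L L) (S L L))))))) (S (V (S (V L (F 16 (S L L))) (V L (S L L))) (F 16 (S (V (S L L) (T L L)) (V (T L L) (T L L))))) (V (S (T (S L L) L) (T (V L L) L)) (F 16 (S (T (S L L) (S L L)) (V L (T L L)))))))) (U (V (S (S (K 1) (S (K 1) L)) (V L (S L L))) (S (F 36 (S (T (F 2 (U L L)) (S L L)) (T (S L L) (V L L)))) (F 4 (V (T L L) (U (S (F 4 (S L L)) L) (T (F 2 (S L L)) (F 4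 (S L L)))))))) (S (V (S (V L (F 4 (T L L))) (T L (S L L))) (F 36 (S (V (T L L) (F 2 (T L L))) (V (U (S L L) L) (T (F 2 (S L L)) (S L L)))))) (V (S (T L L) (T L L)) (F 4 (S (T (F 2 (V L L)) (F 4 (S (S L L) L))) (T L (V L (F 4 (T L L))))))))))
noncomputable def w4_43 : Tr := (U (S (F 16 (U (V (S (T (S L L) (U L (S L L))) (T (S L L) (S L L))) (S (T (V L (U L L)) (S (S L L) (U L L))) (T (V L L) (U (V L (S L L)) (S L L))))) (S (V (T (S L L) (U L L)) (T (U L L) (S L L))) (V (T L (U (S L L) L)) (T (U (S L L) L) (S L L)))))) (U (V (S (T (S L L) (F 16 (S L L))) (T (T L L) (T L L))) (S (F 16 (T (S L L) (V L (U L L)))) (T (S L L) (F 16 (S L L))))) (S (V (T (S L L) (F 16 (S L L))) (F 16 (T (U L L) (S L L)))) (V (T L L) (T (S L L) (F 16 (U L L))))))) (S (S (F 16 (V (U (T (S L L) L) (S L L)) (T (S L L) (U (S L L) L)))) (V (U (T L L) (S L L)) (F 16 (U (T L (S L L)) (S L L))))) (S (V (U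 (T L L) (S L L)) (T (F 16 (U L L)) (F 16 (S L L)))) (U (V (T L (S L L)) (T (S L L) L)) (V L (S L L))))))
noncomputable def w4_44 : Tr := (S (U (V (F 16 (S (T (U (S L (U L L)) (S L L)) (U (S L (S L L)) (S L L))) (U (T (U (S L L) (S L L)) (S (S L L) (S L L))) (T (S L L) (S L L))))) (T (S (U (T L L) (F 16 (S L L))) (F 16 (U (S L L) (S L L)))) (F 16 (S (U (S L L) (S L L)) (U (V (S L L) L) (S L L)))))) (S (V (F 16 (T (U L L) (U (S L L) L))) (T (F 16 (S L L)) (F 16 (U (S L L) L)))) (F 16 (V (T (U L L) (U (S L L) L)) (T (U L L) (U (S L L) L)))))) (U (V (F 16 (S (U (T (V L (S L L)) (V (U L L) (S L L))) (T (S L L) (S L L))) (U (T (S L L) (V (S L L) L)) (T (U (S L L) L) (S L L))))) (S (T (F 16 (U (S L L) (S L L))) (F 16 (U (V (S L L) L) (S L L)))) (F 16 (T (U (U (S L L) (S L L)) (S L L)) (U (S (S L L) (S L L)) (S L L)))))) (F 16 (S (V (T (S L L) (U (S L L) L)) (T (V L L) (U (S L L)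 L))) (V (T (S L L) (U L L)) (T (S L L) (U (S L L) L)))))))
noncomputable def w4_45 : Tr := (S (U (S (F 16 (V (U (T (S L L) (S L L)) (T (S L L) (S L L))) (T (U (V (S L L) (S L L)) (S L L)) (U (S L L) (S L L))))) (V (U (T (F 16 (U (S L L) L)) (F 16 (S L L))) (F 16 (T (S L L) (S L L)))) (F 16 (T (U (V (S L L) (S L L)) (S L L)) (U (S L L) (S L L)))))) (F 16 (S (V (U (T L (S L L)) (S L L)) (T (U (S L L) L) (F 1 (S L L)))) (V (U (T L L) (S L L)) (U (T (S L L) (S L L)) (S L L)))))) (U (S (V (U (T (F 16 (U L (S L L))) (S (S L L) L)) (T L L)) (T (F 16 (U (S L L) (S L L))) (F 16 (U (S L L) (S L L))))) (V (U (T L (U L L)) (T (F 16 (S L L)) (S L L))) (T (F 16 (U (U L L) (S L L))) (U (V (S L L) L) (F 16 (S L L)))))) (S (F 16 (V (U (S L L) L) (U (T (S L L) (S L L)) (S L L)))) (V (T L (F 16 (S L L))) (F 16 (U (T L (S L L)) (S L L)))))))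
noncomputable def w4_46 : Tr := (S (U (S (V (F 16 (T (U (V (S L L) (S L L)) (S L L)) (F 1 (U (S L L) (S L L))))) (T (F 16 (U (S L L) (F 1 (S L L)))) (F 48 (U (S L L) (S L L))))) (F 16 (V (T (U (V (S L L) (S L L)) (S L (S L L))) (U (V (S L L) L) (F 1 (S L L)))) (T (U (V (S L L) (S L L)) (S L L)) (F 1 (U (S L L) (S L L))))))) (F 16 (V (S (U (T (S L L) (F 1 (S L L))) (F 1 (S L L))) (T (U (S L L) (S L L)) (F 1 (U (S L L) L)))) (F 1 (S (U (S L L) (S L L)) (U (S L (S L L)) (S L L))))))) (F 16 (U (V (S (T (U (S (S L L) (S L L)) (S L L)) (U (V (S L L) L) (F 1 (S L L)))) (T (U (V L (S L L)) (S L L)) (U (V L (S L L)) (V L L)))) (S (T (U (S (S L L) (S L L)) (S (S L L) (S L L))) (F 1 (U (S L L) (S L L)))) (T (U (V (S L L) (S L L)) (S (S L L) (S L L))) (F 1 (U (S L L) (S L L)))))) (S (V (T (U (S L L) L) (F 1 (U (S L L) L))) (U (T (S L L) (F 1 (S L L))) (F 1 (S L L)))) (V (T (U (S L L)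 L) (F 1 (S L L))) (U (T (S L L) (F 1 (S L L))) (F 1 (S L L))))))))
noncomputable def w4_47 : Tr := (V (F 10 (U w4_42 (T (F 64 (V (S (U (T (S L (S L L)) (S L (S L L))) (S (S L L) (T L L))) (U (V (T (S L L) L) (S (S L L) L)) (S (T L L) (U L (S L L))))) (S (F 16 (U (V (S (S L L) L) (T (S L L) (S L (S L L)))) (S (V (S L L) (S L L)) (V L L)))) (U (S (F 16 (T L L)) (F 16 (T L L))) (V (S L L) (F 16 (T L (S L L)))))))) (S (V (U (T (F 64 (S L (S L L))) (V (S L L) (U (S L L) L))) (S L (S L L))) (F 4 (S (F 6 (V (S L L) (U (S L L) L))) (V (U (S L L) L) (F 6 (U (S L L) L)))))) (S (T (F 64 (V (U L L) (F 16 (U L L)))) (V (U (S L L) L) (F 4 (V L L)))) (U (V (S L L) (F 4 (T (F 2 (S L L)) (S L L)))) (V (U L L) (T L L)))))))) (F 128 (T (F 96 (V (F 2 w4_43) (F 4 w4_44))) (F 48 (V (F 2 w4_45) (F 4 w4_46))))))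
noncomputable def w4_48 : Tr := (V (F 258 (U (S (V (T (S (S L L) (S L L)) (F 32 (V (S L L) (F 8 (S L L))))) (F 36 (T (S (V L L) (V L L)) (S (V L (S L L)) (V L (S L L)))))) (V (T (U (S L (S L L)) (S L L)) (V (S L L) (F 32 (S L L)))) (F 4 (T (V (S L L) (F 2 (S L L))) (F 2 (S (V L (S L L)) (V L (S L L)))))))) (S (V (T (S L L) (F 32 (S L L))) (F 36 (T (S L L) (F 1 (S L L))))) (V (T (S L L) (S L L)) (F 4 (T (S L L) (F 2 (S L L)))))))) (F 36 (S (U (F 1 (V (F 2 (T (S (V (S L L) L) (U (V L L) L)) (S (F 16 (V L L)) (V (S L L) L)))) (T (S (F 2 (T L L)) (F 2 (T L L))) (F 3 (S (S L L) (S L L)))))) (F 32 (V (F 32 (T (S L L) (F 16 (S L L)))) (S (F 1 (S L L)) (F 32 (T L L)))))) (F 1 (U (V (F 2 (T (S (U (V L L) L) (U (V L L) L)) (V (U (S L L) (F 16 (S L L))) (F 16 (S (S L L) (S L L)))))) (T (F 2 (S (V (S L L) L) (V (S L L) (S L L)))) (F 3 (S (V (S L L) L) (V (S L L) (S L L)))))) (F 2 (V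 (T (S L L) (F 16 (S L L))) (T (S L L) (F 16 (S L L))))))))))
noncomputable def w4_49 : Tr := (V (F 64 (S (U (V (U (T (S (S L L) L) (S L L)) (T (S L L) (S L L))) (T (S (F 16 (T L L)) (F 16 (U L L))) (S (F 18 (S L L)) (F 16 (T L L))))) (V (T (S L L) (S L L)) (T (S L L) (S L L)))) (U (V (S (T (U L L) (U L L)) (T (T L L) (U L L))) (T (U (S L (T L L)) (V L L)) (V (S L L) (F 16 (S L L))))) (V (T (U (S L L) L) (S L L)) (T (S L L) (U (S L L) L)))))) (F 4 (U (S (V (F 2 (T (S (F 16 (V (S L L) (S L L))) (V (S L L) (F 16 (S L L)))) (F 16 (S (V (S L L) (T L L)) (V (S L L) (T L L)))))) (F 4 (T (F 16 (S (V (S L L) (S L L)) (V (S L L) (S L L)))) (F 48 (S (V (S L L) (S L L)) (V (S L L) (S L L))))))) (F 2 (V (T (S (V (S L L) (S L L)) (V L (S L L))) (S (F 16 (V (S L L) (S L L))) (V (S L L) (F 16 (S L L))))) (T (S (F 16 (V (S L L) (S L L))) (V (T L L) (F 16 (S L L)))) (F 16 (S (F 1 (V (S L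 L) (S L L))) (U (V (S L L) L) (F 1 (S L L))))))))) (F 2 (S (V (T (S L L) (F 48 (S L L))) (F 16 (T (S (S L L) (S L L)) (F 1 (S (S L L) (S L L)))))) (V (T (U (S L L) L) (F 32 (S L L))) (T (S (F 16 (S L L)) (S L L)) (F 48 (S (S L L) (S L L))))))))))
noncomputable def w4_50 : Tr := (S (F 3 (T (F 16696 (U (F 9728 (S (F 144 (V (F 160 (U (F 64 (U (T (T L L) (T L L)) (T (S (T L L) (T (F 4 (V (S L L) L)) (V L L))) (F 16 (S L (V (S L L) L)))))) (S (T (V (F 72 (U (S L L) (S L L))) (U L (S L L))) (F 2 (V (F 1 (U (T L L) (S L L))) (S L L)))) (F 64 (T (V (F 4 (U (S L L) (S L L))) (T (F 4 (S L L)) (U (S L L) L))) (F 16 (V (U (S L (S L L)) (S L L)) (U (T L L) (S L L))))))))) (U (V (F 32 (S (K 6) (U (K 6) (T L L)))) (K 1)) (T (V (S (F 128 (S L L)) (F 160 (U L (S L L)))) (S (T L L) (T L L))) (F 96 (V (S L (F 2 (S L L))) (S L L))))))) w4_25)) (F 9728 w4_26))) (F 449 (U (F 1424 w4_28) (F 7936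 w4_29))))) (F 32835 (T (F 152 (U (F 1025 (S (U (F 41 (V (F 128 w4_30) (F 4 w4_31))) (F 9 w4_32)) (F 32 w4_36))) (F 9856 (S (V (F 514 (S (U (T (V (F 8 (S L L)) (F 68 (U (S L L) L))) (F 64 (V (U (S L L) (S L L)) (F 16 (S L (S L L)))))) (F 64 (T (T L L) (V L (F 16 (S L L)))))) (F 64 (U (T (V (F 8 (S L L)) (F 16 (S L L))) (V (S (S L L) (S L L)) (F 16 (U (T L (S L L)) (S L L))))) (T (V L L) (V (S L L) L)))))) (F 68 (U (F 1 (T (S (V (F 2 (S L L)) (F 4 (S L L))) (V (F 2 (U (S L L) L)) (S L L))) (S (F 4 (V (F 16 (S (S L L) (T L L))) (T (F 16 (S L L)) (F 16 (S L L))))) (V (F 2 (S (F 16 (T L L)) (T L L))) (F 4 (T (F 16 (S L L)) (F 16 (S L (S L L))))))))) (T (F 65 (S (S L L) (S L L))) (F 65 (S (F 2 (V L L)) (V (S L L) L))))))) (F 516 w4_37))))) (F 160 (U (F 17281 (S w4_41 w4_47)) (F 20352 (S w4_48 (F 256 w4_49))))))))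
noncomputable def w4_51 : Tr := (U (F 68 (T (S (F 128 (V (F 128 (U (S (T L L) (V (S L L) L)) (S L L))) (F 16 (S (U (V L (S L L)) L) (F 1 (T L (V L L))))))) (F 129 (V (T (U (S L L) L) (U (S (S L L) (S L L)) (S L L))) (F 16 (T (S L L) (S (S L L) (S L L))))))) (F 128 (S (V (F 128 (U (S (V L (F 4 (S L L))) (V (S L L) (S L L))) (F 64 (S (S L L) L)))) (F 16 (U (F 32 (S (V (F 32 (S L L)) (F 1 (S L L))) (F 32 (V (S L L) (F 16 (S L L)))))) (F 64 (S L (F 32 (S L L))))))) (F 128 (V (U (S (V (S L L) (S L L)) (T (S L L) (F 64 (S L L)))) (F 64 (S L L))) (F 4 (U (S (V (T L L) (F 3 (S L L))) (V (S L L) (T (S L L) L))) (F 1 (S (S L L) (S L L))))))))))) (F 6 (S (T (F 16 (V L (S L L))) (F 256 (V (F 136 (S L L)) (F 1 (S L L))))) (F 16 (T (V (F 128 (S L L)) (S L L)) (F 1 (V (F 1 (S L L)) (S (S L L) L))))))))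
noncomputable def w4_52 : Tr := (V (F 64 (U (S (K 1) (F 64 (U (K 6) (V (T (S L (T L L)) (F 4 (V (S (K 1) L) (K 1)))) (T (S (K 6) (S (K 6) L)) (K 6)))))) (S (T (V (S (S L L) (U L L)) (S L (F 64 (U L L)))) (F 96 (S (F 1 (S L L)) (U (K 5) (V L L))))) (V (T (S (U (S L L) (F 64 (S L L))) (F 32 (U (F 4 (S L L)) (F 4 (S L L))))) (F 96 (S (U L L) (S (T L L) (U L (S L L)))))) (F 64 (S (T (U L (S L L)) (F 5 (U L (S L L)))) (T (V (F 4 (U L L)) (S L L)) (F 5 (U L (S L L)))))))))) (F 4 (S (F 256 (U (S (F 16 (U L (T (F 16 (S L L)) L))) (F 16 (T (V L (F 4 (S L L))) (V (K 1) L)))) (S (F 16 (T (U (F 16 (S L L)) (V L L)) (F 48 (U L (S L L))))) (F 16 (T (V (U L L) (F 4 (T (F 4 (S L L)) (F 4 (S L L))))) (F 32 (V L (F 2 (S L L))))))))) (U (S (F 264 (T (U (V (K 5) L) (V L (S L L))) (U (K 5) (F 2 (S L L))))) (F 8 (T (V (T L L) (F 1 (U (T L (K 1)) (S (S L L) L)))) (F 1 (V (K 1) (U (K 1) L))))))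 (F 256 (S (T (F 16 (V (T (S L L) L) (U (V (S L L) (F 4 (S L L))) (S L L)))) (F 18 (V (U L L) (U L (S L L))))) (F 16 (T (V (U (S L L) (S L L)) (U (T (S L L) (F 32 (S L L))) (S L L))) (F 32 (U (V (S L L) (S L L)) (V (T L L) (S L L))))))))))))
noncomputable def w4_53 : Tr := (S (V (F 64 (T (U (V (T (S L L) (F 96 (S L L))) (F 320 (S L L))) (F 64 (S L (S L L)))) (F 352 (U (V (S (T L L) (T L L)) (S L L)) (S (S L L) (S L L)))))) (F 1 (U (F 128 (V (F 16 (S (T L L) (T (S L L) (F 32 (S L L))))) (T (F 16 (S (F 4 (S L L)) (S L L))) (F 6 (S (F 4 (S L L)) (S L L)))))) (F 128 (S (F 16 (T L L)) (F 16 (T (S L L) (F 32 (S L L))))))))) (F 4 (V (F 8 (T (U (V (S (S L L) (F 4 (S L L))) (T (S L (S L L)) (F 4 (S L (S L L))))) (S (S L L) (F 4 (T L L)))) (F 4 (U (V (S (S L L) (V (S L L) L)) (F 64 (S (U L L) (U L L)))) (S (F 64 (S L L)) (V (S L L) L)))))) (F 256 (U (T (F 16 (S (V (S L L) (S L L))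 (V (S L L) (S L L)))) (F 2 (S (V (F 8 (S L L)) (S L L)) (V (F 8 (S L L)) (S L L))))) (V (F 16 (S (T L L) (T L (F 32 (S L L))))) (T (F 16 (S L L)) (F 2 (S L L)))))))))
noncomputable def w4_54 : Tr := (U (F 1152 (U (F 16 (V (K 1) (F 512 (S (F 14 (V (K 1) (F 4 (U L (S L L))))) (F 4 (U (K 1) (V (K 1) (S L (T L (K 1)))))))))) (F 25 (S (F 64 (V (U (K 5) (S (S L L) (V L L))) (F 2 (S (V (S L L) (F 4 (U L (S L L)))) (V (T L L) (U (S L L) (S L (S L L)))))))) (V (S (F 64 (U (K 5) (V (F 8 (S L L)) (S L L)))) (T (F 72 (V (S L (T L L)) (U L (V L L)))) (S (F 72 (V L L)) (F 8 (U (T L L) (F 2 (V L L))))))) (S (F 64 (V (T (S L L) (F 2 (S L L))) (F 2 (U (S L L) (V L (S L L)))))) (T (F 64 (U (V (S L L) (S L L)) (V (S L L) (S L L)))) (V (U L L) (F 96 (U L (S L L))))))))))) (F 6080 (S (V (U (V (F 8 (U (S L L) (S L (S L L)))) (S (T L L) (T L L))) (S (S L (F 8 (S L L))) (S (F 8 (S L L)) (F 8 (S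 L L))))) (U (F 2 (S (V (S L L) (T (F 4 (S L L)) L)) (V (S L L) (V (S L L) (F 4 (S L L)))))) (S (F 2 (V L (S L L))) (V (S L L) (F 2 (S L L)))))) (S (V (U (V (F 8 (S L (S L L))) (U (S L L) (S L L))) (V (F 8 (U (S L L) L)) (S L L))) (U (V (T (S L L) L) (F 2 (T (V L L) (S L L)))) (V (U L L) (S L L)))) (U (V (V (F 8 (T (S L (S L L)) (S L L))) (U (S L L) (S L L))) (V (U (T L L) (S L L)) (S (V L L) (U (S L L) (S L L))))) (V (V (F 8 (S (S L L) L)) (S L L)) (V (U (S L L) L) (T L L))))))))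
noncomputable def w4_55 : Tr := (U (F 192 (T (S (V (T (U L (S L L)) (F 4 (U L (S L L)))) (U (S (K 6) L) (F 4 (T L L)))) (V (F 132 (S (U (T L L) (T L L)) (U (T (S L L) (S L L)) (V (S L L) L)))) (U (F 4 (V (F 1 (S L L)) (S L L))) (V (F 4 (S L (F 1 (S L L)))) (S L L))))) (F 4 (S (V (T (U L (S L L)) (U (K 1) (S L L))) (V (S L L) L)) (V (F 1 (V (T (S (S L L) (S L L)) (S (S L L) (U L L))) (T (U L (S L L)) (U L (S L L))))) (U (S (K 1) (T L L)) (V (S (T L L) (F 1 (T L L))) (T L L)))))))) (F 160 (T (V (S (T (S L L) (F 4 (V L L))) (F 132 (T (S L L) (V (S L L) L)))) (F 4 (S (U (V (S L L) L) (S L L)) (T (U (S L L) L) (U (V L (S L L)) (S L L)))))) (F 4 (V (S (V (S (S L L) (F 1 (S L L))) (S (T L L) (T L L))) (F 1 (V (T (S L L) (S L (S L L))) (T (S L L) (S L L))))) (S (U (V (T L L) L) (T (S L L) (F 64 (S L L)))) (T (U (V (S L L) (S L L)) (S L L)) (S (F 64 (U L L)) (U (S L L) L)))))))))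
noncomputable def w4_56 : Tr := (U (V (F 8 (T (S (U (K 6) (T L L)) (U (T (S L L) (F 4 (S (K 1) L))) (F 4 (V (S L L) (S L L))))) (F 5 (U (K 1) (S (S (K 1) L) (V (S L L) (S L L))))))) (F 256 (S (F 16 (U (T (S (S (K 1) L) L) (K 1)) (T (V (S L L) (U (S L L) (S L L))) (F 32 (U (S L L) L))))) (F 16 (T (U (T (S L L) (F 32 (S L L))) (F 32 (T (S L L) (S L L)))) (F 32 (U (S (K 4) (K 4)) (S (T L L) (T L (S L L)))))))))) (S (F 8 (T (V (T (S L L) (F 5 (U L (S L L)))) (F 1 (T (U (S L L) L) (F 32 (S L (U L L)))))) (F 5 (V (U (V L (S L L)) (S (S L L) L)) (U (S (S L L) (T L L)) (S L L)))))) (F 72 (T (V (T (S L L) (V (S L L) L)) (F 1 (U (S (T L (S L L)) (S L L)) (T L L)))) (F 1 (V (S (T (S L L) (S L L)) (T (S L L) (V L L))) (U (S (V L (T L L)) (T L L)) (S L (T L L)))))))))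
noncomputable def w4_57 : Tr := (V (F 64 (S (V (T (U (S (T L L) (U (S L L) L)) (S L L)) (S (U (S L L) (S L L)) (U (S L L) (S L L)))) (T (S (S L L) (V L L)) (S (U L L) (U (S L L) (S L L))))) (V (S (U (T (U L (S L L)) (S L L)) (T L (S L L))) (U (T (S L L) (V (F 16 (S L L)) L)) (T (S L L) (S L L)))) (T (S (U (S L L) L) (U (T L L) L)) (S (U (S L L) (S L L)) (U (S L L) (S L L))))))) (S (U (F 64 (V (T (S L (T L L)) (S L (U L L))) (T (S L L) (S L L)))) (T (F 64 (S (T L L) (V L (S L L)))) (S (V L L) (F 64 (V L (F 32 (S L L))))))) (F 64 (T (S (U (V (T L L) L) (V L (S L L))) (V (V (S L L) (T L L)) (U (V (S L L) L) L))) (S (U (V (S L L) (U L (S L L))) (V (S L L) (T L L))) (U (V (S L L) (V (S L L) L)) (V (S L L) (S L L))))))))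
noncomputable def w4_58 : Tr := (V (T (S (U (F 4 (T (V L L) (V L L))) (F 4 (T (S L L) (V (S L L) L)))) (U (F 4 (T (F 1 (V (S L L) L)) (V (F 1 (S L L)) (S L L)))) (F 4 (V (F 1 (T (S L L) (S L L))) (T L (S L L)))))) (F 4 (S (T (V (S L (S L L)) (F 64 (U L (S L L)))) (F 64 (V (U L (S L L)) (U L (S L L))))) (V (F 1 (U (T (S L (S L L)) (F 1 (S L (S L L)))) (S (T L L) (T (S L L) (F 1 (T L L)))))) (F 64 (S (T (U L L) (U L L)) (F 32 (T (S L L) (U (S L L) L))))))))) (T (S (F 1 (U (T (S (S L L) L) (F 32 (V L (S L L)))) (F 32 (T (S L L) (S (S L L) (S L L)))))) (T (U (F 4 (V (S L L) (F 64 (S L L)))) (F 4 (V (S L L) L))) (F 5 (S (V (S L L) (U L L)) (V (S L L) (U L L)))))) (F 5 (S (U (U (K 1) (T (S L L) (S (K 1) L))) (T (S (S L L) (S L L)) (S (S L L) (S L L)))) (U (T (V (S L (S L L)) (S L (S L L))) (V (S L (S L L)) (S L (S L L)))) (T (S (V L L) (V L L)) (S (V L L) (V L L))))))))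
noncomputable def w4_59 : Tr := (V (T (V (F 1 (S (F 4 (T (S L L) (V (S L L) (S L L)))) (V (U (T L (S L L)) (S L L)) (S (F 4 (S L L)) (T (S L L) L))))) (F 32 (S (V (F 64 (T L (S L L))) (T L (U L L))) (F 64 (T (S L L) (V (S L L) (S L L))))))) (F 32 (V (F 64 (S (T (V (S L (S L L)) (S L L)) (V (S (S L L) (S L L)) (S (S L L) (S L L)))) (T (V (S L L) (S L L)) (V (S (S L L) (F 16 (S L L))) (S (S L L) (S L L)))))) (S (V (F 64 (T (S L L) (S L (S L L)))) (T (U (S L L) L) (F 1 (U (S L L) (S L L))))) (F 64 (T (V (S L (S L L)) (S L L)) (V (S (S L L) (S L L)) (S L (S L L))))))))) (F 32 (T (V (S (U (V (T L (S L L)) (S L L)) (T L (S L L))) (T (U (V L L) (S L L)) (V (F 64 (T L L)) (U (S L L) (S L L))))) (S (F 1 (T (S L L) (S (S L L) (S L L)))) (T (S L (S L L)) (F 1 (S (S L L) (V L L)))))) (V (S (F 1 (U (S (V (S L L) (S L L)) (V (T L L) (S L L))) (T (S L L) (V L L)))) (T (V (F 64 (U (S L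 L) L)) (F 1 (U (S L L) (S L L)))) (F 1 (U (V (F 1 (S L L)) (S L L)) (S (S L L) (S L L)))))) (F 1 (S (T (S (T L L) (V L L)) (S (V L L) (V L L))) (T (S (V L L) (V (S L L) (S L L))) (S (V L L) (V (S L L) (S L L))))))))))
noncomputable def w4_60 : Tr := (V (F 8 (T (V (F 128 (U (S (F 16 (S L L)) (T L (S L L))) (S L (S L L)))) (F 4 (S (U (S (S L L) L) L) (F 1 (U (V L (S L L)) L))))) (S (F 4 (V (F 1 (U (S (V (S L L) L) (T L (S L L))) (S L L))) (U (V (F 1 (S L L)) (T L (F 64 (S L L)))) (S L L)))) (F 128 (V (U (F 16 (S (T L (S L L)) (V L (S L L)))) (T L L)) (F 16 (U (T (S L L) (V (S L L) L)) (S L L)))))))) (F 64 (U (F 16 (T (S (V (T L (S L L)) (F 64 (U (S L L) L))) (V (T L (S L L)) (F 64 (U (S L L) (S L L))))) (F 64 (S (V (S (S L L) (T L L)) (U (V L (S L L)) (S L L))) (V (T (S L L) (S (S L L) (S L L))) (U (V (S L L) (S L L)) (S L L))))))) (S (F 16 (T (T L (F 64 (S L L))) (F 64 (V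 (S L L) L)))) (F 16 (T (V L L) (F 64 (V (S L L) (S L L)))))))))
noncomputable def w4_61 : Tr := (U (S (F 576 (V (F 128 w4_55) (F 12 w4_56))) (F 264 (U (F 12 (V (T (F 1 (V (F 4 (S (F 16 (U (T (V (S L L) (S L L)) (V (S L L) (S L (S L L)))) (V (T L (S L L)) (S (S L L) (S L L))))) (T (V (S L (S L L)) (F 16 (S L L))) (F 16 (U (V (S L L) (S (S L L) L)) (V (S L L) (S L L))))))) (F 8 (S (U (F 16 (V (T (U L L) (U L L)) (T L L))) (F 16 (T (S L L) (S (T L L) (S L L))))) (F 16 (T (U (S (T L L) (V L (S L L))) (S L L)) (S (V (U L L) (U L L)) (U (V (S L L) (S L L)) (V L L))))))))) (F 96 w4_57)) (F 32 w4_58))) (F 28 w4_59)))) (F 1792 (S (F 8 (V (F 72 (U (T (V (S (S L L) (T L L)) (S (S L L) (V L L))) (S (V (S (S L L) (T L L)) (F 1 (S L L))) (V (S (V L L) (F 64 (T L L))) (V (S L L) (F 1 (S L L)))))) (S (V (T L (S L L)) (T L (F 1 (S L L)))) (T (V L L) (V (S L L) (F 1 (S L L))))))) (T (F 8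 (U (V (F 4 (S (F 64 (U L L)) (U (S L L) (S L L)))) (F 1 (S (S L L) (F 32 (S L L))))) (F 5 (S (T L L) (S L L))))) (F 320 (U (V (F 8 (T (U (S L (S L L)) (S L L)) (U (S L (S L L)) (S L L)))) (S (F 8 (S L L)) (F 8 (S L (S L L))))) (S (S L L) (F 8 (V L (S L L))))))))) (F 4 w4_60))))
noncomputable def w4_62 : Tr := (T (F 36 (S (U (U (K 1) (V (V L (F 64 (S (K 4) L))) (F 64 (S (K 4) L)))) (V (V (S (T L L) (F 1 (T L L))) (F 64 (S L (S L L)))) (F 64 (U (V (S L L) L) (S (S L L) (S L L)))))) (U (V (F 1 (V (S (T (S L L) (S L L)) (U (T L L) (T (S L L) (S L L)))) (T (U L (S L L)) (F 1 (T L L))))) (F 64 (U (K 4) (V (S L (F 32 (T L L))) (S L L))))) (V (S (V (F 1 (T (S L L) L)) (F 64 (T L L))) (F 1 (T (V (S L L) L) (F 1 (V (S L L) L))))) (F 64 (S (U (T L L) (S L L)) (T (U (S L L) L) (U (S L L) L)))))))) (F 1 (S (U (F 8 (V (U (K 5) (T L L)) (K 5))) (U (F 8 (V (S L (V L L)) (U L L))) (F 64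 (V (F 8 (S L (S L L))) (S L L))))) (F 8 (U (V (F 64 (V (S (T L L) (U (S L L) (T L L))) (U L (T L L)))) (U (K 5) (V (U L L) L))) (V (S (U (F 64 (V (S L L) L)) (F 2 (V L L))) (F 64 (V (F 16 (T L L)) (T L (S L L))))) (U (S (T L L) (T L L)) (F 2 (S L (S L L))))))))))
noncomputable def w4_63 : Tr := (V (F 64 (S (V (S (T (U (T L L) (S L L)) (U (T L (S L L)) (S L L))) (T (U (V (S L L) L) (S L L)) (U (V (S L L) (S L L)) (V L (S L L))))) (T (S (U L (S L L)) (U (V L L) (S L L))) (F 32 (S (U L L) (U (S L L) (S L L)))))) (V (S (T (U (V (S L L) (S L L)) (V L L)) (V (F 16 (U L L)) (U (S L L) (S L L)))) (T (V (F 16 (S L L)) (U (S L L) L)) (U (V L (S L L)) (F 16 (S L L))))) (S (T (U (V (S L L) (S L L)) (S L L)) (U (V (S L L) L) (F 32 (S L L)))) (T (U (V (S L L) (S L L)) (S L L)) (V (U (S L L) (S L L)) (F 32 (U L L)))))))) (S (U (F 64 (V (S (F 32 (T L L)) (T (U L L) (F 32 (T L L)))) (F 32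 (T L L)))) (F 1 (S (V (F 1 (T L L)) (S L L)) (F 1 (T (V L (S L L)) (V (S L L) (S L L))))))) (F 64 (T (S (U (V (T L L) (F 32 (U L (S L L)))) (V (S L L) L)) (V (U (V (S L L) (S L L)) (T L L)) (F 32 (U (U (S L L) L) (S L L))))) (F 32 (S (U (V (S L L) (U L L)) (V (S L L) L)) (U (V (V L L) (U (S L L) (S L L))) (V (S L L) (S L L)))))))))
noncomputable def w4_64 : Tr := (S (F 128 (V (F 64 (S (V (T (F 16 (U L (S L L))) (U (S L L) L)) (U (T L L) (T L (S L L)))) (V (T (F 16 (V (F 1 (S L L)) (S L L))) (F 32 (S (F 1 (S L L)) (F 1 (S L L))))) (T (F 16 (U (S L L) (S L L))) (U (T L (S L L)) (S L L)))))) (U (V (F 64 (T (T L L) (T L L))) (S (K 5) L)) (S (V (F 64 (T L L)) L) (F 64 (T (F 16 (V L (S L L))) (V L (V L L)))))))) (F 1 (V (S (F 1 (V (F 16 (T (U (T L L) (F 1 (S L L))) (F 1 (U (S L L) (S L L))))) (T (F 16 (U (S L (S L L)) (S L L))) (U (V L (S L L)) (F 16 (S L L)))))) (F 4 (V (T (F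 16 (U (V (S L L) L) (F 1 (S L L)))) (F 48 (U (S L L) (S L L)))) (F 32 (T (U (V (S L L) (S L L)) (S L (S L L))) (U (V L L) (F 1 (S L L)))))))) (F 1 (S (T (F 16 (U (V (S L L) (T L L)) (V (S L L) L))) (U (V (S L (S L L)) (U L L)) (V (S L L) L))) (T (F 16 (U (V (S L (S L L)) (U (S L L) L)) (V (S L L) (S L L)))) (U (V (S (S L L) (S L L)) (U (S L L) L)) (V (F 16 (S L L)) (S L L)))))))))
noncomputable def w4_65 : Tr := (S (V (F 1 (T (F 4 (S (V (T (U (S L L) L) (V (F 16 (S L L)) L)) (U (T L L) (F 32 (S L L)))) (V (T (V L (S L L)) (T (F 16 (S L L)) L)) (T (U (S L L) L) (F 32 (V L L)))))) (F 1 (S (T (F 16 (V (F 1 (S L L)) (S L L))) (F 48 (V (S L L) L))) (F 16 (V (T (F 1 (S L L)) (F 1 (S L L))) (T (U (S L L) L) (F 1 (S L L))))))))) (F 128 (T (F 2 (V (F 1 (S (T L L) (T (S L L) (S L L)))) (T (S (U L L) L) (U (S (S L L) L) (S L L))))) (V (F 64 (S (T L L) (U (S L L) L))) (T (F 2 (U (S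 L L) (S L L))) (U (S L L) (S L L))))))) (F 1 (V (F 4 (T (V (S (T (T L (F 16 (S L L))) (F 16 (U (S L L) L))) (T (F 16 (S L L)) (F 16 (U (S L L) L)))) (S (T (U (S L L) L) (F 32 (U (S L L) L))) (T (U (S L L) L) (F 32 (U (S L L) L))))) (F 32 (V (F 1 (S (U (T L (S L L)) (S L L)) (U (T (S L L) (S L L)) (S L L)))) (S (T (U (S L L) L) (F 1 (S L L))) (T (U (S L L) L) (F 1 (U L L)))))))) (T (F 4 (S (F 32 (V (T (S L L) (U L L)) (T (S L L) (S L L)))) (V (T (V (S L L) L) (F 32 (U (S L L) L))) (F 32 (T (S L L) (U (S L L) L)))))) (F 1 (S (V (F 16 (U (T L L) (S L L))) (U (T L L) L)) (F 16 (V (U (T (S L L) L) (S L L)) (U (S L L) L)))))))))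
noncomputable def w4_66 : Tr := (U (S (T (F 64 (V (F 8 (U (S (K 1) (T (S L L) L)) (S (V L L) (V (T L L) (S L L))))) (U (S (K 5) (K 5)) (V (F 8 (S L L)) (T L L))))) (V (U (V (F 8 (T L (K 5))) (K 1)) (T (F 72 (S L L)) (V (F 8 (S L L)) L))) (U (K 1) (T L (S L L))))) (V (T (F 72 (U (V (F 32 (T (S L (S L L)) (S L (S L L)))) (S (T L L) (F 32 (T L L)))) (V (F 32 (S (T L L) (T (U L L) (U L L)))) (S (T L L) (T (S L L) L))))) (U (S (F 8 (V L L)) (F 9 (U (S L L) (T (S L L) L)))) (V (F 9 (S (S L L) (T (F 2 (S L L)) (S L L)))) (T (F 72 (S L L)) (S L L))))) (T (F 64 (U (S (F 8 (T L L)) (F 8 (U (S L L) (V (S L L) L)))) (S (S (F 8 (T L L)) (F 8 (T L L))) (F 8 (T (V L L) (S L L)))))) (U (V (S L L) L) (S (T L L) (V (T L L) L)))))) (T (F 64 (V (F 8 (S (U (S (V (S L L) L) (V (T (S L L) L) (S L L))) (V (T (S L L) L) (S L L))) (T (U (V (F 1 (S L L)) (S L (S L L))) (S (S L L) (S L L))) (U (S (V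 (S L L) L) (S (T L L) L)) (S (S L L) (S L L)))))) (S (S (U (T L L) (S L L)) (V (F 8 (S L L)) (U L L))) (T (F 8 (S (V L L) (V (S L L) L))) (V (F 8 (S L L)) (U L L)))))) (V (S (U (S (V L L) (V (F 8 (S L L)) L)) (V (T L L) (S L L))) (T (F 72 (U (S (V L L) (S L L)) (S L L))) (U (V (F 8 (S L L)) (S L L)) (V L L)))) (S (S (V L L) (U (S L L) (S L L))) (U (T (F 64 (S L L)) (S L L)) (S (S L L) (S L L)))))))
noncomputable def w4_67 : Tr := (V (S (F 16 (V (F 1 (U (T (V (T (F 2 (S L L)) (F 3 (S L L))) (F 1 (S (S L L) (S L L)))) (F 1 (S (F 16 (V L L)) (F 16 (V (S L L) L))))) (F 1 (T (S L L) (F 16 (S L L)))))) (F 64 (U (T (S (V (S L L) L) (V (F 32 (S L L)) (S L L))) (S (V L L) (V L L))) (T (S L (S L L)) (F 1 (S L L))))))) (F 144 (V (T (U (T (V (F 16 (S L L)) (S L L)) (F 48 (S (S L L) (S L L)))) (F 16 (S L (S L L)))) (F 48 (U (S (V (S L L) (S L L)) (V (T L L) (S L L))) (S (S L L) (S L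 L))))) (F 32 (U (T (S (V (S L L) (S L L)) (V (S L L) (S L L))) (S (V (S L L) L) (V (T L L) L))) (T (S L (S L L)) (F 1 (S L L)))))))) (F 1 (U (S (V (T (F 8 (S (S L L) (T L L))) (S L (S L L))) (U (T (V L (S L L)) (U (S L L) L)) (T (S L L) (S L L)))) (V (T (F 8 (S (V (S L L) L) (V (F 32 (S L L)) (S L L)))) (S (T L L) (V L L))) (U (T (V (F 8 (S L L)) (S L L)) (S L L)) (T (S L L) (S L L))))) (S (V (U (T (F 8 (S L L)) (S L L)) (T L L)) (T (T L L) L)) (V (T (F 8 (S L L)) (S L L)) (T (T L L) L))))))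
noncomputable def w4_68 : Tr := (U (F 3008 (S (V w4_62 (F 1 (U (U (K 1) (V (S (K 1) (T (F 72 (V L L)) (S (K 1) L))) (S (U (K 1) (T L L)) (T (F 64 (S L L)) (S L L))))) (U (S (V (T (F 72 (S L L)) L) (T (F 64 (S L L)) (S L L))) (V (T (F 72 (S (S L L) (S L L))) (S L (T L L))) (T (F 64 (S (V L L) (T L L))) (S (T L L) L)))) (S (F 64 (V (S (T L L) (T L L)) (T (S L (S L L)) (S L L)))) (V (T (F 72 (S L (S L L))) (F 64 (S L L))) (T (F 64 (S (S L L) (U L L))) (F 64 (S L L))))))))) (V (F 32 (U (T (F 32 w4_63) w4_64) w4_65)) (F 1 w4_66)))) (F 4032 (S (V (U (S (F 1 (V (F 8 (T (S (S L L) (V L L)) (S (S L L) (S L L)))) (S (F 8 (T L L)) (F 8 (T (S L L) L))))) (V (F 16 (T (S (F 64 (V L L)) (F 1 (V (S L L) L))) (F 64 (V (F 33 (S L L)) (S L L))))) (F 1 (T (F 8 (S (S L L) (V L L))) (F 8 (S L (S L L))))))) (F 1 (S (V (F 8 (T (S L L) L)) (U (S L L) (S L L))) (V (F 8 (T (S L L) (F 1 (S L L))))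 (T (F 8 (S L L)) L))))) (F 1 (U (S (V (U (T (S L L) L) (T (S L L) (S L L))) (T (U (S L L) (S L L)) (S L L))) (T (V (F 8 (U (T L L) (S L L))) (S L (S L L))) (V (U (S L L) (S L L)) (U (S L L) L)))) (S (V (S L L) (S L L)) (S (T (V L (S L L)) (S L L)) (T (V L (S L L)) (S L L))))))) w4_67)))
noncomputable def w4_69 : Tr := (S (F 512 (U (F 24 (S (T (F 256 (S (F 16 (V (T L L) (U (S L L) L))) (F 16 (V (T L L) (U (T L L) L))))) (F 448 (V (S (F 4 (S L L)) (S L L)) (F 1 (U (S L (S L L)) (S L L)))))) (T (V (U (F 8 (S (T L L) (F 4 (T L L)))) (F 328 (S L L))) (F 256 (S (T (V L L) L) (T L (F 2 (S L L)))))) (F 320 (V (S (V (F 1 (S L L)) L) (V (F 1 (T L L)) L)) (S (U (T L L) L) (U (S L L) L))))))) (F 25 (S (T (F 128 (S L L)) (F 192 (V L L))) (F 64 (V (T L L) (T L L))))))) (F 768 (U (F 4 (S (T (V (F 8 (U (F 4 (T (S L L) (S L (V L L)))) (S L (S L L)))) (F 320 (U (T (F 8 (S L L)) (S L (S L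 L))) (S L L)))) (F 320 (V (U (S (V (F 9 (S L L)) L) (V (F 9 (S L L)) (T L L))) (F 1 (S L (S L L)))) (S (V (S L L) (U L L)) (U (V L L) L))))) (T (V (F 8 (U (S (V (F 128 (S L L)) (F 4 (S L L))) (F 128 (T L (T L L)))) (T L (F 3 (S L L))))) (F 64 (T (F 17 (S L L)) (F 1 (U (S L (F 8 (S L L))) (S L L)))))) (F 320 (S (V (U (V (F 73 (S L L)) (S L L)) L) (U (V (S L L) L) L)) (V (U (F 8 (V (F 33 (S L L)) (S L L))) (F 1 (V L L))) (U (V (T L (F 1 (S L L))) (S L L)) L))))))) (F 4 (S (F 320 (T (S L L) (F 1 (V (S L L) (S L L))))) (T (V (F 136 (S L L)) (F 256 (S L L))) (F 384 (V (S L L) (F 1 (S L L))))))))))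
noncomputable def treeW4 : Tr := (F 0x7ffffffffffffffffffffffffffffe7f9ffffffffffffffffff0c7fffffe0c383ff87ff83 (T (F 16643031820 w4_23) (F 9127856143 (V (F 4229120 (U (F 4194816 w4_50) (F 7340537 (S (F 272 (U (F 4 (T (S (F 72 (V (F 2 (U (T L (F 32 (S L L))) (S L L))) (T (F 2 (S L L)) (F 6 (S L (T L L)))))) (V (F 257 (U (S (F 32 (S L L)) (T L L)) (S L L))) (F 8 (U (S (F 8 (V L L)) (F 6 (T L L))) (F 14 (S L L)))))) (F 448 (S (F 9 (V (U (S (S L L) (S L L)) (S L L)) (S (U (S L L) L) (U (T L L) L)))) (V (F 64 (U (S (S L L) (V L L)) (F 32 (S L L)))) (F 9 (U (S (V L L) (V L L)) (V L L)))))))) (F 4 (S (F 320 (V (U (S L L) L) (F 17 (S L L)))) (F 384 (V (U (F 128 (T L L)) L) (F 18 (T L (F 32 (S L L)))))))))) (F 768 w4_51))))) (F 33570880 (U (F 1053248 (S (F 33027 (T (F 24 (U (F 1792 w4_52) (F 1792 w4_53))) (F 96 w4_54))) (F 8195 (T (F 28 w4_61) (F 520 w4_68))))) (F 7341052 w4_69)))))))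

theorem pW4 : chkW par treeW4 192 64 384 128 256 256 374491 748983 Lc = true := by decide +kernel

noncomputable def w5_0 : Tr := (T (F 5275776 (S (F 17833920 (T (F 36888 (U (F 4097 (U (F 388 (V (F 1 (V L (S L L))) (F 128 (V (S L L) L)))) L)) L)) (F 15 (U (F 6209 (U (T (F 272 (U (V (S L L) (F 4 (S L L))) (S L L))) (U (F 16 (V (F 17 (T L L)) (F 128 (T L L)))) (F 16 (S L L)))) (F 16 (S L L)))) L)))) (F 129 (T (F 8118336 (U (F 8327 (U (S (F 17 (U (V (F 16 (S L L)) (S L L)) (S L L))) (U (F 16 (V (F 1 (S L L)) (F 136 (S L L)))) (F 16 (S L L)))) (F 16 (S L L)))) L)) (F 8193 (U (F 99360 (U (F 131073 (S (F 4344 (T (V L L) (F 1 (S L L)))) (F 24 (T (F 9992 (S L L)) L)))) (F 143889 (S L L)))) L)))))) (F 16453 (S (F 65028416 (T (F 3968 (U (F 4289 (U (T (U (F 16 (V (F 17 (S (S L L) L)) (F 128 (S (S L L) L)))) (F 16 (S L L))) (F 9 (U (V (S (F 16 (S L L)) L) (F 16 (S (S L L) L))) (F 16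 (S L L))))) (F 16 (T L L)))) L)) (F 146 (U (F 19520 (U (F 1024 (V (F 288 (U (S (F 14 (V L L)) (F 128 (S L (S L L)))) L)) (F 656 (U (S (F 6 (S L L)) (S L L)) (S L L))))) L)) L)))) (F 129 (T (F 16 (U (F 4468832 (U (S (F 2183 (T (F 16 (T L L)) (F 2304 (V L (F 36 (S L L)))))) (F 67656 (T (F 1152 (S L L)) (F 7296 (S L L))))) (F 67788 (S L L)))) L)) (F 3039 (U (F 12320 (U (S (F 33 (V (F 33 (S (F 1 (T L L)) (S L L))) (F 272 (U (S (S L L) L) L)))) (F 1056 (U (F 256 (V (F 8 (S (S L L) (F 1 (S L L)))) (F 16 (S (F 64 (S L L)) (S L L))))) (F 256 (S L L))))) (F 1057 (S L L)))) L)))))))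
noncomputable def treeW5 : Tr := (F 0x7ffffffffffffffffffffffffffffffffffffffffffffffffffffffffff800000ff01ffff w5_0)

theorem pW5 : chkW par treeW5 128 128 256 256 256 256 748983 1497966 Lc = true := by decide +kernel


end Pool.Agent.Lib.H56.Gen.D4
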