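import Pool.Agent.Lib.H56.Gen.Split
import Pool.Agent.Lib.H56.Gen.D4.W0
import Pool.Agent.Lib.H56.Gen.D4.W1

/-!
# Certificate tree W
-/

set_option maxRecDepth 100000

namespace Pool.Agent.Lib.H56.Gen.D4

noncomputable def treeW : Tr := (Tr.U (Tr.U treeW0 (Tr.T (Tr.S treeW1 treeW2) (Tr.S treeW3 treeW4))) treeW5)

theorem okW : chkW par treeW 128 128 256 256 256 256 0 1497966 Lc = true :=
  (chkW_U (c1 := 748983) (by decide +kernel)
  (chkW_U (c1 := 374491) (by decide +kernel)
  pW0
  (chkW_T (c1 := 128) (c2 := 384) (h := 128) (by decide +kernel) (by decide +kernel) (by decide +kernel)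
  (chkW_S (c1 := 64) (c2 := 192) (h := 64) (by decide +kernel) (by decide +kernel) (by decide +kernel)
  pW1
  pW2)
  (chkW_S (c1 := 64) (c2 := 192) (h := 64) (by decide +kernel) (by decide +kernel) (by decide +kernel)
  pW3
  pW4)))
  pW5)

end Pool.Agent.Lib.H56.Gen.D4
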